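import Pool.Agent.Lib.MP_32d917_al_bl.BG3
import Pool.Agent.Lib.MP_32d917_al_gp.G06

/-!
# A01: elements of the vertex groups of the vertices which are not leaves (75 min)

The file `MP_32d917_al_gp/G04.lean` (`g04_step1`), `G05.lean` (`g05_step2`) and `G06.lean` (`g06_key`, `cc_iff`, `pu_of_ing`) use the hypothesis `hN : NoDom Γ` only at the
vertex `v` (`hN v _ _`). Copy these proofs with `hv : ∀ u, v ≠ u → ∃ s, Γ.Adj v s ∧ s ∉ st Γ u` instead (for `v ∈ NL Γ`: `nd`). So `a_key`, `cc_iff3`, `pu_of_ing3`.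
`ing_of_pu3`: copy `ing_of_pu`: `x = w * x' * w⁻¹`, `Cr x'`, `x' ≠ 1`. If there is `s ∈ sup x'` with `π s ∈ NL Γ`, the proof is the same. Otherwise take any `s ∈ sup x'`; `π s` is a
leaf (`leaf`): `lk Γ (π s) = {v1}`, the fibres over `π s` and `v1` are points (`leaf_fib`, `cut_fib`), so `lk Λ s ⊆ {b}` with `π b = v1`. For all `c`, `d ∈ H` commuting with `x` the element
`k = w⁻¹ (c d c⁻¹ d⁻¹) w` is in `PP Λ (lk Λ s) ≤ PP Λ {b}` (`cmr_lk`), so a power of `gen b`, and `ab Λ b k = 1` (commutator, values in a commutative group), so `k = 1` (`ab_gen`, `map_zpow`) and `c d c⁻¹ d⁻¹ = 1`.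
So `Cc x z` for all `z`, and by `hx.2`: `Cc y z` for all `y ≠ 1` and all `z`. Take `v ∈ NL Γ` (`leaf` gives one) and letters `a` over `v` and `b'` over a neighbour of `v` (`BU.surj`), powers `y = gen a ^ n`, `z = gen b' ^ n' ∈ H`,
`n, n' > 0` (`Subgroup.exists_pow_mem_of_index_ne_zero`): `cc_iff3` for `p = (1, v)` gives `z ∈ PB {v}`, contradiction (`gen_pow_ne`, `gg_ne` or `mem_pp`).
-/

set_option autoImplicit false

namespace RaagBL

open RaagIso RaagGP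

variable {V W : Type} {Γ : SimpleGraph V} {Λ : SimpleGraph W} {π : W → V} {m : ℕ}
  {B : Fin m → Set V}

private theorem A01_step1 (hB : BU Γ Λ π) (K : Subgroup (RA Λ)) (hK : K.FiniteIndex)
    (hK' : K.Normal) (v : V) (hv : ∀ u, v ≠ u → ∃ s, Γ.Adj v s ∧ s ∉ st Γ u)
    (y w y' : RA Λ) (hy : y = w * y' * w⁻¹) (hcr : Cr y')
    (h : ∀ c ∈ K, ∀ d ∈ K, c ∈ PB Λ π (lk Γ v) → d ∈ PB Λ π (lk Γ v) →
      y * (c * d * c⁻¹ * d⁻¹) = c * d * c⁻¹ * d⁻¹ * y) : y' ∈ PB Λ π {v} := by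
  rw [PB, mem_pp]
  intro z hz
  by_contra hne
  have hne' : v ≠ π z := fun e => hne e.symm
  obtain ⟨s1, hs1, hs2⟩ := hv (π z) hne'
  obtain ⟨t1, ht1, ht2⟩ := hv s1 hs1.ne
  obtain ⟨s, rfl⟩ := hB.surj s1
  obtain ⟨t, rfl⟩ := hB.surj t1
  have hsz : s ∉ lk Λ z := fun e => hs2 (lk_sub hB z e)
  have hts : t ∉ st Λ s := fun e => ht2 (st_sub hB s e)
  have hidx : 0 < K.index := Nat.pos_of_ne_zero hK.index_ne_zero
  set n := K.index with hn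
  set a : RA Λ := gen s ^ n with ha
  set b : RA Λ := gen t ^ n with hb
  have haK : a ∈ K := Subgroup.pow_index_mem K _
  have hbK : b ∈ K := Subgroup.pow_index_mem K _
  have haP : a ∈ PB Λ π (lk Γ v) := pow_mem (pb_gen hs1) _
  have hbP : b ∈ PB Λ π (lk Γ v) := pow_mem (pb_gen ht1) _
  set k : RA Λ := a * b * a⁻¹ * b⁻¹ with hk
  set k1 : RA Λ := a ^ 2 * b * (a ^ 2)⁻¹ * b⁻¹ with hk1
  have e1 : y * k = k * y := h a haK b hbK haP hbP
  have e2 : y * k1 = k1 * y := h (a ^ 2) (pow_mem haK 2) b hbK (pow_mem haP 2) hbP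
  have e3 : ∀ z : RA Λ, y * z = z * y → y' * (w⁻¹ * z * w) = (w⁻¹ * z * w) * y' := by
    intro z hz
    have e : y' = w⁻¹ * y * w := by rw [hy]; group
    rw [e]
    calc w⁻¹ * y * w * (w⁻¹ * z * w) = w⁻¹ * (y * z) * w := by group
      _ = w⁻¹ * (z * y) * w := by rw [hz]
      _ = w⁻¹ * z * w * (w⁻¹ * y * w) := by group
  have e4 := cmr_lk hcr (e3 k e1) (e3 k1 e2) hz
  set k2 : RA Λ := k * k1 * k⁻¹ * k1⁻¹ with hk2
  have e5 : w⁻¹ * k2 * w ∈ PP Λ (lk Λ z) := by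
    have : w⁻¹ * k2 * w = w⁻¹ * k * w * (w⁻¹ * k1 * w) * (w⁻¹ * k * w)⁻¹ * (w⁻¹ * k1 * w)⁻¹ := by
      rw [hk2]; group
    rw [this]
    exact e4
  have hk2P : k2 ∈ PP Λ ({s, t} : Set W) := by
    have ha' : a ∈ PP Λ ({s, t} : Set W) := pow_mem (gen_mem (by simp)) _
    have hb' : b ∈ PP Λ ({s, t} : Set W) := pow_mem (gen_mem (by simp)) _
    exact a02_cm_mem (a02_cm_mem ha' hb') (a02_cm_mem (pow_mem ha' 2) hb')
  have e6 : ret Λ {s, t} (w⁻¹ * k2 * w) ∈ PP Λ {t} := by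
    have h1 : ret Λ {s, t} (w⁻¹ * k2 * w) = ret Λ ({s, t} ∩ lk Λ z) (w⁻¹ * k2 * w) := by
      conv_lhs => rw [← ret_of_mem e5]
      rw [ret_ret]
    rw [h1]
    refine pp_mono ?_ (ret_mem _ _)
    rintro z' ⟨hz1, hz2⟩
    rcases hz1 with rfl | hz1
    · exact absurd hz2 hsz
    · exact hz1
  have e7 : k2 = ret Λ {s, t} w * ret Λ {s, t} (w⁻¹ * k2 * w) * (ret Λ {s, t} w)⁻¹ := by
    conv_lhs => rw [← ret_of_mem hk2P]
    rw [← map_inv, ← map_mul, ← map_mul]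
    congr 1
    group
  obtain ⟨j, hj⟩ := pp_single e6
  have e8 : ab Λ t k2 = 1 := a02_ab_cm t k k1
  rw [e7, ab_conj, hj] at e8
  have e9 := a02_gen_zero e8
  rw [hj, e9, zpow_zero, mul_one, mul_inv_cancel] at e7
  exact dbl hts n hidx a b k k1 rfl rfl rfl rfl e7

private theorem A01_step2 (hB : BU Γ Λ π) (K : Subgroup (RA Λ)) (hK : K.FiniteIndex)
    (hK' : K.Normal) (v : V) (hv : ∀ u, v ≠ u → ∃ s, Γ.Adj v s ∧ s ∉ st Γ u)
    (w0 y : RA Λ) (hy : y ∈ PB Λ π {v}) (hy1 : y ≠ 1)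
    (hl : ∀ a, Lf w0 a → π a.1 ∉ st Γ v) (hr : ∀ a, Rt w0 a → π a.1 ∉ st Γ v)
    (h : ∀ c ∈ K, ∀ d ∈ K, c ∈ PB Λ π (lk Γ v) → d ∈ PB Λ π (lk Γ v) →
      w0 * y * w0⁻¹ * (c * d * c⁻¹ * d⁻¹) = c * d * c⁻¹ * d⁻¹ * (w0 * y * w0⁻¹)) :
    w0 = 1 := by
  by_contra hne
  obtain ⟨c, hc⟩ := exists_lf hne
  have hu := hl c hc
  have hvu : v ≠ π c.1 := fun e => hu (Or.inl e.symm)
  obtain ⟨s1, hs1, hs2⟩ := hv (π c.1) hvu
  obtain ⟨t1, ht1, ht2⟩ := hv s1 hs1.ne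
  obtain ⟨s, rfl⟩ := hB.surj s1
  obtain ⟨t, rfl⟩ := hB.surj t1
  have hts : t ∉ st Λ s := fun e => ht2 (st_sub hB s e)
  have hidx : 0 < K.index := Nat.pos_of_ne_zero hK.index_ne_zero
  set n := K.index with hn
  set k : RA Λ := gen s ^ n * gen t ^ n * (gen s ^ n)⁻¹ * (gen t ^ n)⁻¹ with hk
  have hks : sup k = {s, t} := cm_sup hts hidx
  have e1 : w0 * y * w0⁻¹ * k = k * (w0 * y * w0⁻¹) :=
    h _ (Subgroup.pow_index_mem K _) _ (Subgroup.pow_index_mem K _) (pow_mem (pb_gen hs1) _)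
      (pow_mem (pb_gen ht1) _)
  have e2 : w0⁻¹ * k * w0 * y = y * (w0⁻¹ * k * w0) := by
    calc w0⁻¹ * k * w0 * y = w0⁻¹ * (k * (w0 * y * w0⁻¹)) * w0 := by group
      _ = w0⁻¹ * (w0 * y * w0⁻¹ * k) * w0 := by rw [e1]
      _ = y * (w0⁻¹ * k * w0) := by group
  have e3 : w0⁻¹ * k * w0 ∈ PB Λ π (st Γ v) := cen2 hB hy hy1 e2
  obtain ⟨p1, hp1, w2, hw, hw2, hrp⟩ := gate_l {z | z ∈ lk Λ s ∧ z ∈ lk Λ t} w0
  have e4 : k * p1 = p1 * k := by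
    refine pp_comm (fun z hz => ?_) hp1
    have c1 : Commute (gen z : RA Λ) (gen s) := (gen_comm hz.1).symm
    have c2 : Commute (gen z : RA Λ) (gen t) := (gen_comm hz.2).symm
    have c3 : Commute (gen z : RA Λ) k :=
      (((c1.pow_right n).mul_right (c2.pow_right n)).mul_right (c1.pow_right n).inv_right).mul_right
        (c2.pow_right n).inv_right
    exact c3.eq.symm
  have e5 : w2⁻¹ * k * w2 ∈ PB Λ π (st Γ v) := by
    have : w2⁻¹ * k * w2 = w0⁻¹ * k * w0 := by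
      rw [hw]
      calc w2⁻¹ * k * w2 = w2⁻¹ * (p1⁻¹ * (p1 * k)) * w2 := by group
        _ = w2⁻¹ * (p1⁻¹ * (k * p1)) * w2 := by rw [e4]
        _ = (p1 * w2)⁻¹ * k * (p1 * w2) := by group
    rw [this]
    exact e3
  have hst : ∀ z ∈ ({s, t} : Set W), π z ∈ st Γ v := by
    rintro z (rfl | hz)
    · exact Or.inr hs1
    · rw [Set.mem_singleton_iff.1 hz]; exact Or.inr ht1
  -- no left letter of w2 has type s or t
  have hA : ∀ e, Lf w2 e → e.1 ∉ ({s, t} : Set W) := by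
    intro e he het
    have hcom : gl e * p1 = p1 * gl e := by
      have hp1' : p1 ∈ PP Λ (lk Λ e.1) := by
        refine pp_mono ?_ hp1
        rintro z ⟨hz1, hz2⟩
        rcases het with h1 | h1
        · rw [h1]; exact hz1
        · rw [Set.mem_singleton_iff.1 h1]; exact hz2
      exact gl_comm hp1'
    by_cases h1 : Lf w0 e
    · exact hl e h1 (hst _ het)
    · have h2 : len (gl (ivl e) * w0) = len w0 + 1 := len_nlf (by rw [ivl_ivl]; exact h1)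
      have h3 : gl (ivl e) * w0 = p1 * ((gl e)⁻¹ * w2) := by
        rw [gl_ivl, hw]
        calc (gl e)⁻¹ * (p1 * w2) = (gl e)⁻¹ * (p1 * gl e) * ((gl e)⁻¹ * w2) := by group
          _ = (gl e)⁻¹ * (gl e * p1) * ((gl e)⁻¹ * w2) := by rw [hcom]
          _ = p1 * ((gl e)⁻¹ * w2) := by group
      have h4 := len_mul_le p1 ((gl e)⁻¹ * w2)
      have h5 := len_lf he
      have h6 : len w0 = len p1 + len w2 := by rw [hw]; exact rp_len.1 hrp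
      rw [h3] at h2
      omega
  have hR1 : Rp w2⁻¹ k := by
    intro e he hk'
    have h1 : Lf w2 (ivl e) := rt_inv.1 he
    have h2 : (ivl e).1 ∈ sup k := lf_sup hk'
    rw [hks] at h2
    exact hA _ h1 h2
  have hR2 : Rp (w2⁻¹ * k) w2 := by
    intro e he hl'
    rcases rt_mul' hR1 he with h1 | ⟨-, h2⟩
    · have h2 : e.1 ∈ sup k := rt_sup h1
      rw [hks] at h2
      exact hA _ hl' h2
    · rw [hks] at h2
      have h3 : Λ.Adj e.1 s := h2 (by simp)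
      have h4 : Λ.Adj e.1 t := h2 (by simp)
      exact hw2 _ hl' ⟨h3.symm, h4.symm⟩
  have hsup : sup w2 ⊆ π ⁻¹' st Γ v := by
    have h1 := mem_pp.1 e5
    rw [sup_mul hR2] at h1
    exact Set.subset_union_right.trans h1
  by_cases hw21 : w2 = 1
  · rw [hw21, mul_one] at hw
    rw [hw] at hc
    have h1 : c.1 ∈ sup p1 := lf_sup hc
    have h2 := (mem_pp.1 hp1) h1
    have h3 : π c.1 ∈ st Γ (π s) := lk_sub hB s h2.1
    rcases h3 with h3 | h3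
    · exact hs2 (Or.inl h3.symm)
    · exact hs2 (Or.inr (Γ.adj_symm h3))
  · obtain ⟨e, he⟩ := exists_rt hw21
    have h1 : Rt w0 e := by rw [hw]; exact rt_mul hrp he
    exact hr e h1 (hsup (rt_sup he))

private theorem A01_key (hB : BU Γ Λ π) (K : Subgroup (RA Λ)) (hK : K.FiniteIndex)
    (hK' : K.Normal) (v : V) (hv : ∀ u, v ≠ u → ∃ s, Γ.Adj v s ∧ s ∉ st Γ u)
    (y : RA Λ)
    (h : ∀ c ∈ K, ∀ d ∈ K, c ∈ PB Λ π (lk Γ v) → d ∈ PB Λ π (lk Γ v) →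
      y * (c * d * c⁻¹ * d⁻¹) = c * d * c⁻¹ * d⁻¹ * y) : y ∈ PB Λ π {v} := by
  obtain ⟨w, y', hy, hcr⟩ := exists_cr y
  have h1 := A01_step1 hB K hK hK' v hv y w y' hy hcr h
  by_cases hy1 : y' = 1
  · rw [hy, hy1, mul_one, mul_inv_cancel]
    exact one_mem _
  obtain ⟨p, hp, q, hq, w0, hw, hl, hr⟩ := gate_lr (π ⁻¹' st Γ v) (π ⁻¹' st Γ v) w
  have hy2 : q * y' * q⁻¹ ∈ PB Λ π {v} := st_conj_gg hB hq h1
  have hy21 : q * y' * q⁻¹ ≠ 1 := by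
    intro h2
    apply hy1
    calc y' = q⁻¹ * (q * y' * q⁻¹) * q := by group
      _ = 1 := by rw [h2]; group
  have hy3 : y = p * (w0 * (q * y' * q⁻¹) * w0⁻¹) * p⁻¹ := by
    rw [hy, hw]
    group
  have hw0 : w0 = 1 := by
    refine A01_step2 hB K hK hK' v hv w0 _ hy2 hy21 hl hr ?_
    intro c hc d hd hc' hd'
    have h3 := h (p * c * p⁻¹) (hK'.conj_mem c hc p) (p * d * p⁻¹) (hK'.conj_mem d hd p)
      (st_conj_lk hB hp hc') (st_conj_lk hB hp hd')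
    have e0 : w0 * (q * y' * q⁻¹) * w0⁻¹ = p⁻¹ * y * p := by rw [hy3]; group
    rw [e0]
    calc p⁻¹ * y * p * (c * d * c⁻¹ * d⁻¹) = p⁻¹ * (y * (p * c * p⁻¹ * (p * d * p⁻¹) *
          (p * c * p⁻¹)⁻¹ * (p * d * p⁻¹)⁻¹)) * p := by group
      _ = p⁻¹ * (p * c * p⁻¹ * (p * d * p⁻¹) * (p * c * p⁻¹)⁻¹ * (p * d * p⁻¹)⁻¹ * y) * p := by rw [h3]
      _ = c * d * c⁻¹ * d⁻¹ * (p⁻¹ * y * p) := by group
  rw [hy3, hw0, one_mul, inv_one, mul_one]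
  exact st_conj_gg hB hp hy2

theorem cc_iff3 (h : Ctx Γ Λ π B) (H : Subgroup (RA Λ)) (hH : H.FiniteIndex)
    {p : RA Λ × V} (hp : p.2 ∈ NL Γ) {x : H} (hx : InG π p (x : RA Λ)) (z : H) :
    Cc x z ↔ p.1⁻¹ * (z : RA Λ) * p.1 ∈ PB Λ π {p.2} := by
  have hB : BU Γ Λ π := h.bu
  obtain ⟨y, hy, hy1, hxy⟩ := hx
  obtain ⟨g, v⟩ := p
  simp only at hy hxy hp ⊢
  constructor
  · intro hz
    have := hH
    have hKF : H.normalCore.FiniteIndex := inferInstance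
    have hKN : H.normalCore.Normal := inferInstance
    refine A01_key hB H.normalCore hKF hKN v (fun u hu => nd h.glu hp hu) _ ?_
    intro c hc d hd hc' hd'
    have hc2 : g * c * g⁻¹ ∈ H := Subgroup.normalCore_le H (hKN.conj_mem c hc g)
    have hd2 : g * d * g⁻¹ ∈ H := Subgroup.normalCore_le H (hKN.conj_mem d hd g)
    have hcx : ∀ c : RA Λ, c ∈ PB Λ π (lk Γ v) →
        g * c * g⁻¹ * (x : RA Λ) = (x : RA Λ) * (g * c * g⁻¹) := by
      intro c hc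
      have h3 := gg_lk_comm hB hy hc
      rw [hxy]
      calc g * c * g⁻¹ * (g * y * g⁻¹) = g * (c * y) * g⁻¹ := by group
        _ = g * (y * c) * g⁻¹ := by rw [h3]
        _ = g * y * g⁻¹ * (g * c * g⁻¹) := by group
    have h4 := hz ⟨g * c * g⁻¹, hc2⟩ ⟨g * d * g⁻¹, hd2⟩ (Subtype.ext (hcx c hc'))
      (Subtype.ext (hcx d hd'))
    have h5 := congrArg (fun z : H => (z : RA Λ)) h4
    simp only [Subgroup.coe_mul, Subgroup.coe_inv] at h5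
    calc g⁻¹ * (z : RA Λ) * g * (c * d * c⁻¹ * d⁻¹) = g⁻¹ * ((z : RA Λ) * (g * c * g⁻¹ * (g * d * g⁻¹) *
          (g * c * g⁻¹)⁻¹ * (g * d * g⁻¹)⁻¹)) * g := by group
      _ = g⁻¹ * (g * c * g⁻¹ * (g * d * g⁻¹) * (g * c * g⁻¹)⁻¹ * (g * d * g⁻¹)⁻¹ * (z : RA Λ)) * g := by
          rw [h5]
      _ = c * d * c⁻¹ * d⁻¹ * (g⁻¹ * (z : RA Λ) * g) := by group
  · intro hz c d hc hd
    have hcy : ∀ c : H, c * x = x * c → g⁻¹ * (c : RA Λ) * g * y = y * (g⁻¹ * (c : RA Λ) * g) := by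
      intro c hc
      have h1 := congrArg (fun z : H => (z : RA Λ)) hc
      simp only [Subgroup.coe_mul] at h1
      rw [hxy] at h1
      calc g⁻¹ * (c : RA Λ) * g * y = g⁻¹ * ((c : RA Λ) * (g * y * g⁻¹)) * g := by group
        _ = g⁻¹ * (g * y * g⁻¹ * (c : RA Λ)) * g := by rw [h1]
        _ = _ := by group
    have h6 := cmr_lk2 hB hy hy1 (hcy c hc) (hcy d hd)
    have h7 := gg_lk_comm hB hz h6
    apply Subtype.ext
    simp only [Subgroup.coe_mul, Subgroup.coe_inv]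
    calc (z : RA Λ) * ((c : RA Λ) * d * (c : RA Λ)⁻¹ * (d : RA Λ)⁻¹) =
          g * (g⁻¹ * (z : RA Λ) * g * (g⁻¹ * (c : RA Λ) * g * (g⁻¹ * (d : RA Λ) * g) *
            (g⁻¹ * (c : RA Λ) * g)⁻¹ * (g⁻¹ * (d : RA Λ) * g)⁻¹)) * g⁻¹ := by group
      _ = g * (g⁻¹ * (c : RA Λ) * g * (g⁻¹ * (d : RA Λ) * g) * (g⁻¹ * (c : RA Λ) * g)⁻¹ *
            (g⁻¹ * (d : RA Λ) * g)⁻¹ * (g⁻¹ * (z : RA Λ) * g)) * g⁻¹ := by rw [h7]
      _ = _ := by group

theorem pu_of_ing3 (h : Ctx Γ Λ π B) (H : Subgroup (RA Λ)) (hH : H.FiniteIndex)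
    {p : RA Λ × V} (hp : p.2 ∈ NL Γ) {x : H} (hx : InG π p (x : RA Λ)) : Pu x := by
  refine ⟨?_, ?_⟩
  · intro h1
    obtain ⟨y, hy, hy1, hxy⟩ := hx
    apply hy1
    have h2 : (x : RA Λ) = 1 := by rw [h1]; rfl
    calc y = p.1⁻¹ * (p.1 * y * p.1⁻¹) * p.1 := by group
      _ = 1 := by rw [← hxy, h2]; group
  · intro y hy1 hxy z hz
    have h1 := (cc_iff3 h H hH hp hx y).1 hxy
    have hyI : InG π p (y : RA Λ) := by
      refine ⟨p.1⁻¹ * y * p.1, h1, ?_, by group⟩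
      intro h2
      apply hy1
      apply Subtype.ext
      show (y : RA Λ) = 1
      calc (y : RA Λ) = p.1 * (p.1⁻¹ * y * p.1) * p.1⁻¹ := by group
        _ = 1 := by rw [h2]; group
    exact (cc_iff3 h H hH hp hyI z).2 ((cc_iff3 h H hH hp hx z).1 hz)

private theorem A01_main (h : Ctx Γ Λ π B) (H : Subgroup (RA Λ)) (hH : H.FiniteIndex)
    {x : H} (hx : Pu x) {w x' : RA Λ} (hxw : (x : RA Λ) = w * x' * w⁻¹) (hcr : Cr x') (hx1 : x' ≠ 1)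
    {s : W} (hs : s ∈ sup x') (hsn : π s ∈ NL Γ) :
    ∃ p : RA Λ × V, p.2 ∈ NL Γ ∧ InG π p (x : RA Λ) := by
  obtain ⟨n, hn0, -, hn⟩ :=
    Subgroup.exists_pow_mem_of_index_ne_zero hH.index_ne_zero (w * gen s * w⁻¹)
  obtain ⟨y, hy⟩ : ∃ y : H, y = ⟨(w * gen s * w⁻¹) ^ n, hn⟩ := ⟨_, rfl⟩
  have hy0 : (y : RA Λ) = w * gen s ^ n * w⁻¹ := by
    rw [hy]
    show (w * gen s * w⁻¹) ^ n = w * gen s ^ n * w⁻¹
    rw [conj_pow]
  have hgs : (gen s : RA Λ) ∈ PB Λ π {π s} := pb_gen (Set.mem_singleton _)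
  have hgn : (gen s : RA Λ) ^ n ≠ 1 := gen_pow_ne s (Nat.pos_iff_ne_zero.1 hn0)
  have hyI : InG π (w, π s) (y : RA Λ) := by
    refine ⟨gen s ^ n, ?_, hgn, ?_⟩
    · exact pow_mem hgs n
    · exact hy0
  have hy1 : y ≠ 1 := (pu_of_ing3 h H hH hsn hyI).1
  have hxy : Cc x y := by
    rintro ⟨c, hcH⟩ ⟨d, hdH⟩ hc hd
    have hc1 : c * (w * x' * w⁻¹) = w * x' * w⁻¹ * c := by
      have := congrArg Subtype.val hc
      rw [← hxw]
      exact this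
    have hd1 : d * (w * x' * w⁻¹) = w * x' * w⁻¹ * d := by
      have := congrArg Subtype.val hd
      rw [← hxw]
      exact this
    have h1 := cmr_lk hcr (a01_conj hc1) (a01_conj hd1) hs
    have h2 := lk_comm h1
    have e2 : (w⁻¹ * c * w) * (w⁻¹ * d * w) * (w⁻¹ * c * w)⁻¹ * (w⁻¹ * d * w)⁻¹ =
      w⁻¹ * (c * d * c⁻¹ * d⁻¹) * w := by group
    rw [e2] at h2
    have h3 : Commute (w * gen s * w⁻¹) (c * d * c⁻¹ * d⁻¹) := by
      show w * gen s * w⁻¹ * (c * d * c⁻¹ * d⁻¹) = c * d * c⁻¹ * d⁻¹ * (w * gen s * w⁻¹)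
      calc w * gen s * w⁻¹ * (c * d * c⁻¹ * d⁻¹) =
          w * (gen s * (w⁻¹ * (c * d * c⁻¹ * d⁻¹) * w)) * w⁻¹ := by group
        _ = w * (w⁻¹ * (c * d * c⁻¹ * d⁻¹) * w * gen s) * w⁻¹ := by rw [h2]
        _ = _ := by group
    apply Subtype.ext
    rw [hy]
    exact (h3.pow_left n).eq
  have hxx : Cc x x := by
    intro c d hc hd
    have h1 : Commute c x := hc
    have h2 : Commute d x := hd
    exact (((h1.mul_left h2).mul_left h1.inv_left).mul_left h2.inv_left).eq.symm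
  have hyx := hx.2 y hy1 hxy x hxx
  have h4 := (cc_iff3 h H hH hsn hyI x).1 hyx
  refine ⟨(w, π s), hsn, w⁻¹ * x * w, h4, ?_, ?_⟩
  · intro h5
    apply hx1
    calc x' = w⁻¹ * (w * x' * w⁻¹) * w := by group
      _ = 1 := by rw [← hxw, h5]
  · show (x : RA Λ) = w * (w⁻¹ * x * w) * w⁻¹
    group

theorem ing_of_pu3 (h : Ctx Γ Λ π B) (H : Subgroup (RA Λ)) (hH : H.FiniteIndex)
    {x : H} (hx : Pu x) : ∃ p : RA Λ × V, p.2 ∈ NL Γ ∧ InG π p (x : RA Λ) := by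
  obtain ⟨w, x', hxw, hcr⟩ := exists_cr (x : RA Λ)
  have hx1 : x' ≠ 1 := by
    rintro rfl
    apply hx.1
    apply Subtype.ext
    rw [hxw]
    simp
  by_cases hall : ∃ s ∈ sup x', π s ∈ NL Γ
  · obtain ⟨s, hs, hsn⟩ := hall
    exact A01_main h H hH hx hxw hcr hx1 hs hsn
  exfalso
  obtain ⟨s, hs⟩ : (sup x').Nonempty := by
    rw [Set.nonempty_iff_ne_empty]
    exact fun h0 => hx1 (sup_eq_empty h0)
  have hsn : π s ∉ NL Γ := fun h0 => hall ⟨s, hs, h0⟩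
  obtain ⟨v1, i, hv1, hcut, hlk, -, hne, -⟩ := leaf h hsn
  obtain ⟨b, hb, hbu⟩ := cut_fib h hcut
  obtain ⟨s0, hs0, hsu⟩ := leaf_fib h hsn
  have hlkb : lk Λ s ⊆ {b} := by
    intro t ht
    have h1 : π t ∈ st Γ (π s) := lk_sub h.bu s ht
    rcases h1 with h1 | h1
    · have h2 : t = s := by rw [hsu t h1, hsu s rfl]
      rw [h2] at ht
      exact absurd ht (Λ.irrefl)
    · have h2 : π t ∈ lk Γ (π s) := h1
      rw [hlk] at h2
      exact hbu t h2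
  have hcc : ∀ z : H, Cc x z := by
    intro z c d hc hd
    have hc1 : (c : RA Λ) * (w * x' * w⁻¹) = w * x' * w⁻¹ * c := by
      have h0 := congrArg (fun z : H => (z : RA Λ)) hc
      simp only [Subgroup.coe_mul] at h0
      rw [hxw] at h0
      exact h0
    have hd1 : (d : RA Λ) * (w * x' * w⁻¹) = w * x' * w⁻¹ * d := by
      have h0 := congrArg (fun z : H => (z : RA Λ)) hd
      simp only [Subgroup.coe_mul] at h0
      rw [hxw] at h0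
      exact h0
    have h1 := a02_single (pp_mono hlkb (cmr_lk hcr (a01_conj hc1) (a01_conj hd1) hs))
    have e2 : (w⁻¹ * (c : RA Λ) * w) * (w⁻¹ * (d : RA Λ) * w) * (w⁻¹ * (c : RA Λ) * w)⁻¹ *
        (w⁻¹ * (d : RA Λ) * w)⁻¹ = w⁻¹ * ((c : RA Λ) * d * (c : RA Λ)⁻¹ * (d : RA Λ)⁻¹) * w := by
      group
    rw [e2] at h1
    have h2 : (c : RA Λ) * d * (c : RA Λ)⁻¹ * (d : RA Λ)⁻¹ = 1 := by
      calc (c : RA Λ) * d * (c : RA Λ)⁻¹ * (d : RA Λ)⁻¹ =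
          w * (w⁻¹ * ((c : RA Λ) * d * (c : RA Λ)⁻¹ * (d : RA Λ)⁻¹) * w) * w⁻¹ := by group
        _ = 1 := by rw [h1]; group
    have h3 : c * d * c⁻¹ * d⁻¹ = 1 := by
      apply Subtype.ext
      simp only [Subgroup.coe_mul, Subgroup.coe_inv, Subgroup.coe_one]
      exact h2
    rw [h3, mul_one, one_mul]
  obtain ⟨n, hn0, -, hn⟩ := Subgroup.exists_pow_mem_of_index_ne_zero hH.index_ne_zero (gen b)
  obtain ⟨k, hk0, -, hk⟩ := Subgroup.exists_pow_mem_of_index_ne_zero hH.index_ne_zero (gen s)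
  obtain ⟨y, hy⟩ : ∃ y : H, (y : RA Λ) = gen b ^ n := ⟨⟨gen b ^ n, hn⟩, rfl⟩
  obtain ⟨z, hz⟩ : ∃ z : H, (z : RA Λ) = gen s ^ k := ⟨⟨gen s ^ k, hk⟩, rfl⟩
  have hbn : (gen b : RA Λ) ^ n ≠ 1 := gen_pow_ne b (Nat.pos_iff_ne_zero.1 hn0)
  have hsk : (gen s : RA Λ) ^ k ≠ 1 := gen_pow_ne s (Nat.pos_iff_ne_zero.1 hk0)
  have hbv : (gen b : RA Λ) ∈ PB Λ π {v1} := by
    refine pb_gen ?_
    rw [hb]
    exact Set.mem_singleton _
  have hyI : InG π ((1 : RA Λ), v1) (y : RA Λ) := by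
    refine ⟨gen b ^ n, pow_mem hbv n, hbn, ?_⟩
    rw [hy, one_mul, inv_one, mul_one]
  have hy1 : y ≠ 1 := (pu_of_ing3 h H hH hv1 hyI).1
  have h3 : Cc y z := hx.2 y hy1 (hcc _) z (hcc _)
  have h4 := (cc_iff3 h H hH hv1 hyI z).1 h3
  have h5 : (gen s : RA Λ) ^ k ∈ PB Λ π {v1} := by
    rw [hz] at h4
    have e : (1 : RA Λ)⁻¹ * gen s ^ k * 1 = gen s ^ k := by rw [inv_one, one_mul, mul_one]
    rw [← e]
    exact h4
  have h6 : (gen s : RA Λ) ^ k ∈ PB Λ π {π s} := pow_mem (pb_gen (Set.mem_singleton _)) k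
  have h7 : π s ∈ ({v1} : Set V) := gg_ne h6 hsk h5
  exact hne (Set.mem_singleton_iff.1 h7)

end RaagBL
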