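import Pool.Agent.Lib.MP_32d917_al_bl.A01
import Pool.Agent.Lib.MP_32d917_al_gp.G07

/-!
# A02: isomorphisms induce isomorphisms of the extension graphs (60 min)

As `MP_32d917_al_gp/G07.lean`, with `cc_iff3`, `pu_of_ing3`, `ing_of_pu3` for pairs `p` with `p.2 ∈ NL Γ`. Relation `g07R π π' φ p p'` (there is `x : H` with `InG π p x`, `InG π' p' (φ x)`); for
`p.2 ∈ NL Γ` there is `p'` with `p'.2 ∈ NL Γ'` and `g07R π π' φ p p'` (as `g07_ex`). `g07_symm`, `g07_conj` need no hypothesis; `g07_uniq`, `g07_comm`: copy, for pairs with second components in `NL`.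
`Φ p` is chosen if `p.2 ∈ NL Γ`, and `Φ p = ` any value otherwise (`Classical.choice`; `NL Γ'` is not empty: `leaf` or `RaagGP.BU.surj`; e.g. `Φ p = if h : p.2 ∈ NL Γ then (ex h).choose else (1, v')` for some `v' : V'`, which exists by `big`).
`ing`: let `p.1⁻¹ * h * p.1 ∈ PB {p.2}`. If `h = 1` it is clear. Otherwise `InG π p h`; let `x` be the element of `g07R π π' φ p (Φ p)`: `Cc x h` by `cc_iff3`, so `Cc (φ x) (φ h)` (`cc_iso`), so the claim by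
`cc_iff3` for `Γ'`. `equ'`, `ing'`: the same for `φ.symm`, `Ψ`.
-/

set_option autoImplicit false

namespace RaagBL

open RaagIso RaagGP

variable {V W V' W' : Type} {Γ : SimpleGraph V} {Λ : SimpleGraph W} {π : W → V}
  {Γ' : SimpleGraph V'} {Λ' : SimpleGraph W'} {π' : W' → V'} {m m' : ℕ} {B : Fin m → Set V}
  {B' : Fin m' → Set V'}

section

variable {H : Subgroup (RA Λ)} {H' : Subgroup (RA Λ')}

private theorem A02_ex (hc : Ctx Γ Λ π B) (hc' : Ctx Γ' Λ' π' B')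
    (hH : H.FiniteIndex) (hH' : H'.FiniteIndex) (φ : H ≃* H') (p : RA Λ × V)
    (hp : p.2 ∈ NL Γ) : ∃ p', p'.2 ∈ NL Γ' ∧ g07R π π' φ p p' := by
  obtain ⟨a, ha⟩ := hc.bu.surj p.2
  obtain ⟨n, hn, -, hmem⟩ :=
    Subgroup.exists_pow_mem_of_index_ne_zero hH.index_ne_zero (p.1 * gen a * p.1⁻¹)
  have h1 : InG π p ((⟨_, hmem⟩ : H) : RA Λ) := by
    refine ⟨gen a ^ n, pow_mem (pb_gen (by rw [ha]; exact rfl)) n, gen_pow_ne a hn.ne', ?_⟩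
    show (p.1 * gen a * p.1⁻¹) ^ n = _
    rw [conj_pow]
  obtain ⟨p', hp1, hp'⟩ := ing_of_pu3 hc' H' hH' (pu_iso φ (pu_of_ing3 hc H hH hp h1))
  exact ⟨p', hp1, _, h1, hp'⟩

private theorem A02_one {p : RA Λ × V} {z : H}
    (h : p.1⁻¹ * (z : RA Λ) * p.1 = 1) : z = 1 := by
  apply Subtype.ext
  have : (z : RA Λ) = p.1 * (p.1⁻¹ * (z : RA Λ) * p.1) * p.1⁻¹ := by group
  rw [this, h]
  show p.1 * 1 * p.1⁻¹ = 1
  group

/-- transport of elements of vertex subgroups -/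
private theorem A02_ing (hc : Ctx Γ Λ π B) (hc' : Ctx Γ' Λ' π' B')
    (hH : H.FiniteIndex) (hH' : H'.FiniteIndex) {φ : H ≃* H'} {p : RA Λ × V}
    {p' : RA Λ' × V'} (hp : p.2 ∈ NL Γ) (hp' : p'.2 ∈ NL Γ') (hr : g07R π π' φ p p') (z : H)
    (hz : p.1⁻¹ * (z : RA Λ) * p.1 ∈ PB Λ π {p.2}) :
    p'.1⁻¹ * ((φ z : H') : RA Λ') * p'.1 ∈ PB Λ' π' {p'.2} := by
  obtain ⟨x, hx, hx'⟩ := hr
  have h1 : Cc x z := (cc_iff3 hc H hH hp hx z).2 hz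
  have h2 : Cc (φ x) (φ z) := (cc_iso φ).1 h1
  exact (cc_iff3 hc' H' hH' hp' hx' (φ z)).1 h2

private theorem A02_uniq (hc : Ctx Γ Λ π B) (hc' : Ctx Γ' Λ' π' B')
    (hH : H.FiniteIndex) (hH' : H'.FiniteIndex) {φ : H ≃* H'} {p q : RA Λ × V}
    {p' q' : RA Λ' × V'} (hp0 : p.2 ∈ NL Γ) (hp1 : p'.2 ∈ NL Γ')
    (hp : g07R π π' φ p p') (hq : g07R π π' φ q q') (h : Ee Γ π p q) :
    Ee Γ' π' p' q' := by
  obtain ⟨y, hy, hy'⟩ := hq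
  obtain ⟨z, hz, hz1, hyz⟩ := ing_ee hc.bu hy (ee_symm h)
  have h0 : p.1⁻¹ * (y : RA Λ) * p.1 ∈ PB Λ π {p.2} := by
    rw [hyz]
    have : p.1⁻¹ * (p.1 * z * p.1⁻¹) * p.1 = z := by group
    rw [this]
    exact hz
  have h2 := A02_ing hc hc' hH hH' hp0 hp1 hp y h0
  refine ing_uniq hc'.bu (x := ((φ y : H') : RA Λ')) ⟨_, h2, ?_, by group⟩ hy'
  intro h3
  obtain ⟨z', hz', hz1', hyz'⟩ := hy'
  have h4 : ((φ y : H') : RA Λ') = 1 := by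
    have : ((φ y : H') : RA Λ') = p'.1 * (p'.1⁻¹ * ((φ y : H') : RA Λ') * p'.1) * p'.1⁻¹ := by
      group
    rw [this, h3]
    group
  apply hz1'
  have : z' = q'.1⁻¹ * (q'.1 * z' * q'.1⁻¹) * q'.1 := by group
  rw [this, ← hyz', h4]
  group

private theorem A02_comm (hc : Ctx Γ Λ π B) (hc' : Ctx Γ' Λ' π' B')
    (hH : H.FiniteIndex) (hH' : H'.FiniteIndex) {φ : H ≃* H'} {p q : RA Λ × V}
    {p' q' : RA Λ' × V'} (hp0 : p.2 ∈ NL Γ) (hp1 : p'.2 ∈ NL Γ')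
    (hp : g07R π π' φ p p') (hq : g07R π π' φ q q') (h : Cme Γ π p q) :
    Cme Γ' π' p' q' := by
  obtain ⟨x, hx, hx'⟩ := id hp
  obtain ⟨y, hy, hy'⟩ := id hq
  rcases cme_ing hc.bu hx hy h with h1 | h1
  · exact cme_of_ee (A02_uniq hc hc' hH hH' hp0 hp1 hp hq h1)
  · refine ing_cme hc'.bu hx' hy' ?_
    have h2 : x * y = y * x := Subtype.ext h1
    have h3 := congrArg (fun z => ((φ z : H') : RA Λ')) h2
    simpa only [map_mul, Subgroup.coe_mul] using h3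

/-- a map on all pairs -/
private theorem A02_map (hc : Ctx Γ Λ π B) (hc' : Ctx Γ' Λ' π' B')
    (hH : H.FiniteIndex) (hH' : H'.FiniteIndex) (φ : H ≃* H') :
    ∃ Φ : RA Λ × V → RA Λ' × V', ∀ p, p.2 ∈ NL Γ → (Φ p).2 ∈ NL Γ' ∧ g07R π π' φ p (Φ p) := by
  obtain ⟨v', -⟩ := hc'.big
  have h1 : ∀ p : RA Λ × V, ∃ p' : RA Λ' × V', p.2 ∈ NL Γ →
      p'.2 ∈ NL Γ' ∧ g07R π π' φ p p' := by
    intro p
    by_cases hp : p.2 ∈ NL Γ
    · obtain ⟨p', h2, h3⟩ := A02_ex hc hc' hH hH' φ p hp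
      exact ⟨p', fun _ => ⟨h2, h3⟩⟩
    · exact ⟨(1, v'), fun h => absurd h hp⟩
  choose Φ hΦ using h1
  exact ⟨Φ, hΦ⟩

end

theorem emap3 (h : Ctx Γ Λ π B) (h' : Ctx Γ' Λ' π' B') (H : Subgroup (RA Λ))
    (H' : Subgroup (RA Λ')) (hH : H.FiniteIndex) (hH' : H'.FiniteIndex) (φ : H ≃* H') :
    ∃ (Φ : RA Λ × V → RA Λ' × V') (Ψ : RA Λ' × V' → RA Λ × V), Ind3 Γ Γ' π π' φ Φ Ψ := by
  obtain ⟨Φ, hΦ⟩ := A02_map h h' hH hH' φ
  obtain ⟨Ψ, hΨ⟩ := A02_map h' h hH' hH φ.symm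
  refine ⟨Φ, Ψ, ⟨⟨?_, ?_, ?_, ?_, ?_, ?_, ?_⟩, ?_, ?_, ?_, ?_⟩⟩
  · intro p hp
    exact (hΦ p hp).1
  · intro p hp
    exact (hΨ p hp).1
  · intro p q hp hq he
    exact A02_uniq h h' hH hH' hp (hΦ p hp).1 (hΦ p hp).2 (hΦ q hq).2 he
  · intro p q hp hq he
    exact A02_uniq h' h hH' hH hp (hΨ p hp).1 (hΨ p hp).2 (hΨ q hq).2 he
  · intro p hp
    have h1 := hΦ p hp
    have h2 := hΨ (Φ p) h1.1
    exact A02_uniq h' h hH' hH h1.1 h2.1 h2.2 (g07_symm h1.2) (ee_refl _)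
  · intro p hp
    have h1 := hΨ p hp
    have h2 := hΦ (Ψ p) h1.1
    exact A02_uniq h h' hH hH' h1.1 h2.1 h2.2 (g07_symm h1.2) (ee_refl _)
  · intro p q hp hq
    exact ⟨A02_comm h h' hH hH' hp (hΦ p hp).1 (hΦ p hp).2 (hΦ q hq).2,
      A02_comm h' h hH' hH (hΦ p hp).1 hp (g07_symm (hΦ p hp).2) (g07_symm (hΦ q hq).2)⟩
  · intro k p hp
    have h1 := hΦ ((k : RA Λ) * p.1, p.2) hp
    exact A02_uniq h h' hH hH' (p := ((k : RA Λ) * p.1, p.2)) hp h1.1 h1.2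
      (g07_conj (hΦ p hp).2 k) (ee_refl _)
  · intro k p hp
    have h1 := hΨ ((k : RA Λ') * p.1, p.2) hp
    exact A02_uniq h' h hH' hH (p := ((k : RA Λ') * p.1, p.2)) hp h1.1 h1.2
      (g07_conj (hΨ p hp).2 k) (ee_refl _)
  · intro k p hp hk
    exact A02_ing h h' hH hH' hp (hΦ p hp).1 (hΦ p hp).2 k hk
  · intro k p hp hk
    exact A02_ing h' h hH' hH hp (hΨ p hp).1 (hΨ p hp).2 k hk

/-- the inverse isomorphism -/
theorem ind_symm {H : Subgroup (RA Λ)} {H' : Subgroup (RA Λ')} {φ : H ≃* H'}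
    {Φ : RA Λ × V → RA Λ' × V'} {Ψ : RA Λ' × V' → RA Λ × V} (h : Ind3 Γ Γ' π π' φ Φ Ψ) :
    Ind3 Γ' Γ π' π φ.symm Ψ Φ := by
  refine ⟨⟨h.emp.nl', h.emp.nl, h.emp.ee', h.emp.ee, h.emp.right, h.emp.left, ?_⟩,
    h.equ', ?_, h.ing', ?_⟩
  · intro p q hp hq
    have h1 := h.emp.comm (Ψ p) (Ψ q) (h.emp.nl' p hp) (h.emp.nl' q hq)
    have h2 := h.emp.right p hp
    have h3 := h.emp.right q hq
    rw [h1]
    exact ⟨fun h4 => cme_ee h4 (ee_symm h2) (ee_symm h3), fun h4 => cme_ee h4 h2 h3⟩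
  · intro k p hp
    exact h.equ k p hp
  · intro k p hp hk
    exact h.ing k p hp hk

end RaagBL
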