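import Pool.Agent.Lib.MP_32d917_al_bl.BG3
import Pool.Agent.Lib.MP_32d917_al_gp.G09

/-!
# A03: vertices whose cosets do not meet are separated by a star (90 min)

Compare `sepr2` in `MP_32d917_al_gp/G09.lean`. As there let `x⁻¹ * y = p * z * q` (`gate_lr`), `z ≠ 1`, `a` a left letter of `z`, `l = π a.1 ∉ st Γ u`; `(x * p, u)` and `(x, u)` are equivalent, `(y, w)` and
`(x * p * z, w)` are equivalent.
Case 1: `l ∈ NL Γ`: `e = (x * p, l)` as in `sepr2` (its proof shows the three claims for this `e`, and `Cnn3` implies `Cnn2`).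
Case 2: `l ∉ NL Γ`. By `leaf` `lk Γ l = {v1}`, `v1 ∈ NL Γ` a cut vertex; the fibres over `l` and `v1` are points, so the neighbours of `a.1` in `Λ` are over `v1` (`lk_sub`; not over `l`). Let `e = (x * p * (gl a)⁻¹, u1)` if
`v1` has a neighbour `u1 ∈ NL Γ` (2a), and `e = (x * p, v1)` otherwise (2b). Multiply everything from the left with `(x * p)⁻¹` (`cme_mul`); so `e = ((gl a)⁻¹, u1)` or `(1, v1)`, and the vertices are `(1, u)`, `(z, w)`.
(i) `(1, u)` is not in the star of `e`. (2a): otherwise multiply by `gl a`: `Cme (1, u1) (gl a, u)`; `in_st` with `x = 1`, `z = gl a` (right letter `a`, `rt_gl`, `π a.1 ∉ st u`): `gl a ∈ PB (st u1)`, so `l ∈ st u1`, so `l = u1` (no, `NL`) or `u1`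
is adjacent to `l`, `u1 = v1` (no, `u1` is adjacent to `v1`). (2b): `u ∈ st v1`, so `u = v1` (no: `l ∈ st v1`, `l ∉ st u`) or `u` is a neighbour in `NL` of `v1` (no).
(ii) `(z, w)` is not in the star of `e`. (2a): otherwise `Cme (1, u1) (gl a * z, w)`. `¬ Lf z (ivl a)` (`lf_adj`: otherwise `a.1` is adjacent to itself), so `Rp (gl a) z` (`rt_gl`); right letters `b` of `gl a * z`: by `rt_mul'` `Rt z b` or (`b = a`
and `sup z ⊆ lk Λ a.1`, impossible as `a.1 ∈ sup z`: `lf_sup`). So `in_st` gives `gl a * z ∈ PB (st u1)`, but `a.1 ∈ sup (gl a * z)` (`sup_mul`): `l ∈ st u1`, contradiction as in (i). (2b): `in_st` with `x = 1`: `w ∈ st v1`, so `w = v1` (`NL`), and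
`z ∈ PB (st v1)`; a right letter of `z` (`exists_rt`) is over `st v1 = st w`, contradiction.
(iii) Side lemma: let `t ∈ NL Γ`, `(y', t)` not in the star of `e`, `p' ∈ PB (st t)`. Then `NN a.1 (y' * p') (cw a) = NN a.1 y' (cw a)`. Suppose not; as in `side2`: `l ∈ st t` and `q' ∈ PB (st t)` with `q'⁻¹ * (y'⁻¹ * cw a) ∈ PP Λ (lk Λ a.1)`
(`r02_cross`). `t ≠ l` (`NL`), so `t` is adjacent to `l`: `t = v1`. `cw a` and the elements of `PP Λ (lk Λ a.1)` are in `PB (st v1)`, so `y' ∈ PB (st v1)`: `(y', t)` is equivalent to `(1, v1)`. But `e` and `(1, v1)` are equal or adjacent: (2b) clear; (2a)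
take the element `(gl a)⁻¹` in the definition of `Cme`. Contradiction.
(iv) So `NN a.1 · (cw a)` is constant along paths `Cnn3 e` (as `side2_cnn`, now with (iii)); it is `0` at `1` and `≠ 0` at `z` (`Lf z a`), as at the end of `sepr2` (with the two additional steps between equivalent pairs;
they are steps of `Stp3`, since `u`, `w ∈ NL Γ`).
-/

set_option autoImplicit false

namespace RaagBL

open RaagIso RaagGP

variable {V W : Type} {Γ : SimpleGraph V} {Λ : SimpleGraph W} {π : W → V} {m : ℕ}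
  {B : Fin m → Set V}

/-- if `(1, v1)` is in the star of `e` then the wall of `a` is not crossed outside the star of `e` -/
theorem a03_side (hB : BU Γ Λ π) {e : RA Λ × V} {a : W × Bool} {v1 : V}
    (hl : π a.1 ∉ NL Γ) (hlk : lk Γ (π a.1) = {v1}) (he : Cme Γ π e ((1 : RA Λ), v1)) {y : RA Λ}
    {t : V} (ht : t ∈ NL Γ) (h : ¬ Cme Γ π e (y, t)) {p : RA Λ} (hp : p ∈ PB Λ π (st Γ t)) :
    NN a.1 (y * p) (cw a) = NN a.1 y (cw a) := by
  rw [nn_mul]
  by_contra h1
  have h2 : NN a.1 p (y⁻¹ * cw a) ≠ 0 := fun h2 => h1 (by rw [h2, add_zero])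
  have hv : π a.1 ∈ st Γ t := by
    by_contra h3
    exact h2 (nn_pp hp a.1 h3 _)
  obtain ⟨q, hq, h3⟩ := r02_cross hp _ h2
  have hadj : Γ.Adj (π a.1) v1 := by
    have : v1 ∈ lk Γ (π a.1) := by
      rw [hlk]
      exact rfl
    exact this
  have hsub : st Γ (π a.1) ⊆ st Γ v1 := by
    intro b hb
    rcases hb with hb | hb
    · right
      rw [hb]
      exact hadj.symm
    · left
      have hb' : b ∈ lk Γ (π a.1) := hb
      rw [hlk] at hb'
      exact hb'
  have htv : t = v1 := by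
    rcases hv with h6 | h6
    · exact absurd ht (by rw [← h6]; exact hl)
    · have h7 : t ∈ lk Γ (π a.1) := h6.symm
      rw [hlk] at h7
      exact h7
  subst htv
  have h4 : y * q ∈ PB Λ π (st Γ t) := by
    have h5 : y * q = cw a * (q⁻¹ * (y⁻¹ * cw a))⁻¹ := by group
    rw [h5]
    exact mul_mem (pb_mono hsub (pp_mono (st_sub hB a.1) (r02_cw a)))
      (inv_mem (pb_mono hsub (pp_mono (lk_sub hB a.1) h3)))
  have h5 : y ∈ PB Λ π (st Γ t) := by
    have h6 : y = y * q * q⁻¹ := by group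
    rw [h6]
    exact mul_mem h4 (inv_mem hq)
  apply h
  refine cme_ee he (ee_refl _) ?_
  refine ⟨rfl, ?_⟩
  show (1 : RA Λ)⁻¹ * y ∈ PB Λ π (st Γ t)
  rw [inv_one, one_mul]
  exact h5

theorem a03_core (h : Ctx Γ Λ π B) {z : RA Λ} {u w : V} (hu : u ∈ NL Γ) (hw : w ∈ NL Γ)
    {a : W × Bool} (ha : Lf z a) (hau : π a.1 ∉ st Γ u) (hR : ∀ b, Rt z b → π b.1 ∉ st Γ w) :
    ∃ e : RA Λ × V, e.2 ∈ NL Γ ∧ ¬ Cme Γ π e ((1 : RA Λ), u) ∧ ¬ Cme Γ π e (z, w) ∧
      ∀ (y : RA Λ) (t : V), t ∈ NL Γ → ¬ Cme Γ π e (y, t) → ∀ p ∈ PB Λ π (st Γ t),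
        NN a.1 (y * p) (cw a) = NN a.1 y (cw a) := by
  have hB := h.bu
  by_cases hl : π a.1 ∈ NL Γ
  · refine ⟨((1 : RA Λ), π a.1), hl, ?_, g09_b hB ha hR, fun y t _ hy p hp => side2 hB hy hp⟩
    intro hc
    apply hau
    rcases (cme_self 1 (π a.1) u).1 hc with h1 | h1
    · exact Or.inl h1.symm
    · exact Or.inr h1.symm
  · obtain ⟨v1, i, hv1, hcut, hlk, -, hne, -⟩ := leaf h hl
    have hadj : Γ.Adj (π a.1) v1 := by
      have : v1 ∈ lk Γ (π a.1) := by
        rw [hlk]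
        exact rfl
      exact this
    by_cases hu1 : ∃ u1 ∈ NL Γ, Γ.Adj v1 u1
    · obtain ⟨u1, hu1, hvu⟩ := hu1
      have hnot : π a.1 ∉ st Γ u1 := by
        rintro (h1 | h1)
        · exact hl (by rw [h1]; exact hu1)
        · have h2 : u1 ∈ lk Γ (π a.1) := h1.symm
          rw [hlk] at h2
          have h3 : u1 = v1 := h2
          rw [h3] at hvu
          exact Γ.irrefl hvu
      have he : Cme Γ π ((gl a)⁻¹, u1) ((1 : RA Λ), v1) := by
        refine ⟨Or.inr hvu.symm, (gl a)⁻¹, ?_, ?_⟩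
        · show ((gl a)⁻¹)⁻¹ * (gl a)⁻¹ ∈ PB Λ π (st Γ u1)
          rw [inv_mul_cancel]
          exact one_mem _
        · show (1 : RA Λ)⁻¹ * (gl a)⁻¹ ∈ PB Λ π (st Γ v1)
          rw [inv_one, one_mul]
          refine inv_mem (gl_mem ?_)
          exact Or.inr hadj.symm
      refine ⟨((gl a)⁻¹, u1), hu1, ?_, ?_, fun y t ht hy p hp => a03_side hB hl hlk he ht hy hp⟩
      · intro hc
        have h1 := (cme_mul (Γ := Γ) (π := π) (gl a) (p := ((gl a)⁻¹, u1))
          (q := ((1 : RA Λ), u))).2 hc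
        simp only [mul_inv_cancel, mul_one] at h1
        have h2 : Cme Γ π ((1 : RA Λ), u1) (1 * gl a, u) := by rwa [one_mul]
        obtain ⟨-, h3⟩ := in_st (x := 1) (z := gl a) (u := u1) (v := u) (fun b hb => by
          rw [rt_gl] at hb
          rw [hb]
          exact hau) h2
        have h4 := mem_pp.1 h3
        rw [sup_gl] at h4
        exact hnot (h4 rfl)
      · intro hc
        have h1 := (cme_mul (Γ := Γ) (π := π) (gl a) (p := ((gl a)⁻¹, u1)) (q := (z, w))).2 hc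
        simp only [mul_inv_cancel] at h1
        have h2 : Cme Γ π ((1 : RA Λ), u1) (1 * (gl a * z), w) := by rwa [one_mul]
        have hrp : Rp (gl a) z := by
          intro b hb hb'
          rw [rt_gl] at hb
          rw [hb] at hb'
          have h3 := lf_adj ha hb' (fun h => ivl_ne a h.symm)
          exact Λ.irrefl h3
        obtain ⟨-, h3⟩ := in_st (x := 1) (z := gl a * z) (u := u1) (v := w) (fun b hb => by
          rcases rt_mul' hrp hb with h4 | ⟨h4, h5⟩
          · exact hR b h4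
          · exfalso
            rw [rt_gl] at h4
            rw [h4] at h5
            exact Λ.irrefl (h5 (lf_sup ha))) h2
        have h4 := mem_pp.1 h3
        rw [sup_mul hrp, sup_gl] at h4
        exact hnot (h4 (Or.inl rfl))
    · refine ⟨((1 : RA Λ), v1), hv1, ?_, ?_, fun y t ht hy p hp =>
        a03_side hB hl hlk ((cme_self 1 v1 v1).2 (Or.inl rfl)) ht hy hp⟩
      · intro hc
        rcases (cme_self 1 v1 u).1 hc with h1 | h1
        · apply hau
          rw [h1]
          exact Or.inr hadj.symm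
        · exact hu1 ⟨u, hu, h1⟩
      · intro hc
        have h2 : Cme Γ π ((1 : RA Λ), v1) (1 * z, w) := by rwa [one_mul]
        obtain ⟨h3, h4⟩ := in_st (x := 1) (z := z) (u := v1) (v := w) hR h2
        have hwv : w = v1 := by
          rcases h3 with h5 | h5
          · exact h5
          · exact absurd ⟨w, hw, h5⟩ hu1
        have hz1 : z ≠ 1 := by
          rintro rfl
          exact ha (nn_one _ _)
        obtain ⟨b, hb⟩ := exists_rt hz1
        apply hR b hb
        rw [hwv]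
        exact mem_pp.1 h4 (rt_sup hb)

theorem sepr3 (h : Ctx Γ Λ π B) (x y : RA Λ) {u w : V} (hu : u ∈ NL Γ) (hw : w ∈ NL Γ)
    (hxy : ¬ ∃ p ∈ PB Λ π (st Γ u), ∃ q ∈ PB Λ π (st Γ w), x * p = y * q) :
    ∃ e : RA Λ × V, e.2 ∈ NL Γ ∧ ¬ Cme Γ π e (x, u) ∧ ¬ Cme Γ π e (y, w) ∧
      ¬ Cnn3 Γ π e (x, u) (y, w) := by
  obtain ⟨p, hp, q, hq, z, hz, hL, hR⟩ := gate_lr (π ⁻¹' st Γ u) (π ⁻¹' st Γ w) (x⁻¹ * y)
  have hz1 : z ≠ 1 := by
    rintro rfl
    apply hxy
    refine ⟨p, hp, q⁻¹, inv_mem hq, ?_⟩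
    have : y = x * (p * 1 * q) := by rw [← hz]; group
    rw [this]; group
  obtain ⟨a, ha⟩ := exists_lf hz1
  have hy : y = x * p * z * q := by
    have : y = x * (p * z * q) := by rw [← hz]; group
    rw [this]; group
  have hEu : Ee Γ π (x * p, u) (x, u) := ee_right x u hp
  have hEw : Ee Γ π (y, w) (x * p * z, w) := by
    rw [hy]
    exact ee_right (x * p * z) w hq
  obtain ⟨e, he, h1, h2, h3⟩ := a03_core h hu hw ha (hL a ha) (fun b hb => hR b hb)
  have ha0 : ¬ Cme Γ π (x * p * e.1, e.2) (x * p, u) := by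
    intro hc
    apply h1
    have h4 := (cme_mul (Γ := Γ) (π := π) (x * p) (p := e) (q := ((1 : RA Λ), u))).1
    rw [mul_one] at h4
    exact h4 hc
  have hb0 : ¬ Cme Γ π (x * p * e.1, e.2) (x * p * z, w) := by
    intro hc
    exact h2 ((cme_mul (Γ := Γ) (π := π) (x * p) (p := e) (q := (z, w))).1 hc)
  have ha1 : ¬ Cme Γ π (x * p * e.1, e.2) (x, u) :=
    fun hc => ha0 (cme_ee hc (ee_refl _) (ee_symm hEu))
  have hb1 : ¬ Cme Γ π (x * p * e.1, e.2) (y, w) :=
    fun hc => hb0 (cme_ee hc (ee_refl _) hEw)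
  refine ⟨(x * p * e.1, e.2), he, ha1, hb1, ?_⟩
  intro hc
  have s1 : Cnn3 Γ π (x * p * e.1, e.2) (x * p, u) (x, u) :=
    Relation.ReflTransGen.single ⟨hu, hu, cme_of_ee hEu, ha0, ha1⟩
  have s2 : Cnn3 Γ π (x * p * e.1, e.2) (y, w) (x * p * z, w) :=
    Relation.ReflTransGen.single ⟨hw, hw, cme_of_ee hEw, hb1, hb0⟩
  have hc2 := (s1.trans hc).trans s2
  -- the function which is constant along the path
  have key : ∀ b, Cnn3 Γ π (x * p * e.1, e.2) (x * p, u) b →
      NN a.1 ((x * p)⁻¹ * b.1) (cw a) = 0 := by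
    intro b hb
    unfold Cnn3 at hb
    induction hb with
    | refl =>
      show NN a.1 ((x * p)⁻¹ * (x * p)) (cw a) = 0
      rw [inv_mul_cancel, nn_one]
    | tail _ hst ih =>
      rename_i b c _
      obtain ⟨hb2, hc2, ⟨-, g, hg1, hg2⟩, hn1, hn2⟩ := hst
      have hn1' : ¬ Cme Γ π e ((x * p)⁻¹ * b.1, b.2) := by
        intro hk
        apply hn1
        have h4 := (cme_mul (Γ := Γ) (π := π) (x * p) (p := e)
          (q := ((x * p)⁻¹ * b.1, b.2))).2 hk
        rw [mul_inv_cancel_left] at h4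
        exact h4
      have hn2' : ¬ Cme Γ π e ((x * p)⁻¹ * c.1, c.2) := by
        intro hk
        apply hn2
        have h4 := (cme_mul (Γ := Γ) (π := π) (x * p) (p := e)
          (q := ((x * p)⁻¹ * c.1, c.2))).2 hk
        rw [mul_inv_cancel_left] at h4
        exact h4
      have k1 := h3 _ _ hb2 hn1' _ hg1
      have k2 := h3 _ _ hc2 hn2' _ hg2
      rw [mul_assoc, mul_inv_cancel_left] at k1 k2
      rw [← k2, k1, ih]
  have h4 := key _ hc2
  have h5 : (x * p)⁻¹ * (x * p * z, w).1 = z := by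
    show (x * p)⁻¹ * (x * p * z) = z
    group
  rw [h5] at h4
  exact ha h4

end RaagBL
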