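import Pool.Agent.Lib.MP_32d917_al_bl.BG3
import Pool.Agent.Lib.MP_32d917_al_gp.G08

/-!
# A04: a copy of a rigid block is not separated by a star
-/

set_option autoImplicit false

namespace RaagBL

open RaagIso RaagGP

variable {V W : Type} {Γ : SimpleGraph V} {Λ : SimpleGraph W} {π : W → V} {m : ℕ}
  {B : Fin m → Set V}

private theorem a04_symm {e a b : RA Λ × V} (h : Stp3 Γ π e a b) : Stp3 Γ π e b a :=
  ⟨h.2.1, h.1, g08_stp_symm h.2.2⟩

private theorem a04_csymm {e a b : RA Λ × V} (h : Cnn3 Γ π e a b) : Cnn3 Γ π e b a := by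
  unfold Cnn3 at h ⊢
  induction h with
  | refl => exact Relation.ReflTransGen.refl
  | tail _ h2 ih => exact Relation.ReflTransGen.head (a04_symm h2) ih

theorem cnn3_mul (g : RA Λ) {e a b : RA Λ × V} (h : Cnn3 Γ π e a b) :
    Cnn3 Γ π (g * e.1, e.2) (g * a.1, a.2) (g * b.1, b.2) := by
  unfold Cnn3 at h ⊢
  induction h with
  | refl => exact Relation.ReflTransGen.refl
  | tail _ h2 ih =>
    exact ih.tail ⟨h2.1, h2.2.1, (cme_mul g).2 h2.2.2.1, fun h => h2.2.2.2.1 ((cme_mul g).1 h),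
      fun h => h2.2.2.2.2 ((cme_mul g).1 h)⟩

private theorem a04_edge {e : RA Λ × V} {S : Set V} (hS : S ⊆ NL Γ) {a b : V} (ha' : a ∈ S)
    (hb' : b ∈ S) (hab : Γ.Adj a b) (ha : ¬ Cme Γ π e (1, a)) (hb : ¬ Cme Γ π e (1, b)) :
    Cnn3 Γ π e ((1 : RA Λ), a) (1, b) :=
  Relation.ReflTransGen.single ⟨hS ha', hS hb', (cme_self 1 a b).2 (Or.inr hab), ha, hb⟩

/-- a path in `S` -/
private theorem a04_path {e : RA Λ × V} {S : Set V} (hS : S ⊆ NL Γ) {c : V}
    (h : ∀ a ∈ S, a ≠ c → ¬ Cme Γ π e ((1 : RA Λ), a)) {a b : V}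
    (hab : Relation.ReflTransGen (fun x y => Γ.Adj x y ∧ x ∈ S ∧ y ∈ S ∧ x ≠ c ∧ y ≠ c) a b) :
    Cnn3 Γ π e ((1 : RA Λ), a) (1, b) := by
  induction hab with
  | refl => exact Relation.ReflTransGen.refl
  | tail _ h2 ih =>
    obtain ⟨h3, h4, h5, h6, h7⟩ := h2
    exact Relation.ReflTransGen.trans ih (a04_edge hS h4 h5 h3 (h _ h4 h6) (h _ h5 h7))

private theorem a04_star {S : Set V} (hi : NoSep (Γ.induce S)) (hS : S ⊆ NL Γ) {e : RA Λ × V}
    {v : V} (hv : v ∈ S) (h : ∀ a ∈ S, a ∉ st Γ v → ¬ Cme Γ π e ((1 : RA Λ), a)) {a b : V}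
    (ha' : a ∈ S) (hb' : b ∈ S) (ha : a ∉ st Γ v) (hb : b ∉ st Γ v) :
    Cnn3 Γ π e ((1 : RA Λ), a) (1, b) := by
  have h1 := hi ⟨v, hv⟩ {y | Cnn3 Γ π e ((1 : RA Λ), a) (1, (y : V))} ?_ ⟨a, ha'⟩ ⟨b, hb'⟩ ?_ ?_ ?_
  · exact h1
  · intro x y hx hxv hyv hxy
    refine Relation.ReflTransGen.trans hx (a04_edge hS x.2 y.2 hxy (h x x.2 ?_) (h y y.2 ?_))
    · rintro (h2 | h2)
      · exact hxv (Or.inl (Subtype.ext h2))
      · exact hxv (Or.inr h2)
    · rintro (h2 | h2)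
      · exact hyv (Or.inl (Subtype.ext h2))
      · exact hyv (Or.inr h2)
  · exact Relation.ReflTransGen.refl
  · rintro (h2 | h2)
    · exact ha (Or.inl (congrArg Subtype.val h2))
    · exact ha (Or.inr h2)
  · rintro (h2 | h2)
    · exact hb (Or.inl (congrArg Subtype.val h2))
    · exact hb (Or.inr h2)

private theorem a04_dom {S : Set V} (hi : NoDom (Γ.induce S)) {v w : V} (hv : v ∈ S) (hw : w ∈ S)
    (hvw : v ≠ w) : ∃ u ∈ S, Γ.Adj v u ∧ u ∉ st Γ w := by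
  obtain ⟨u, hu1, hu2⟩ := hi ⟨v, hv⟩ ⟨w, hw⟩ (fun h => hvw (congrArg Subtype.val h))
  refine ⟨u, u.2, hu1, ?_⟩
  rintro (h | h)
  · exact hu2 (Or.inl (Subtype.ext h))
  · exact hu2 (Or.inr h)

/-- three different vertices of a rigid set, one of them avoids two given ones -/
private theorem a04_third {S : Set V} (hi : Rig Γ S) {u : V} (w : V) (hu : u ∈ S) :
    ∃ c ∈ S, c ≠ u ∧ c ≠ w := by
  obtain ⟨a, ha, b, hb, hab, h1, h2, -⟩ := rig_deg hi hu
  by_cases h3 : a = w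
  · exact ⟨b, hb, h2.ne', fun h4 => hab (h3.trans h4.symm)⟩
  · exact ⟨a, ha, h1.ne', h3⟩

theorem insep3_one (h : Ctx Γ Λ π B) {i : Fin m} (hi : Rig Γ (B i)) (e : RA Λ × V)
    {u w : V} (hu' : u ∈ B i) (hw' : w ∈ B i) (hu : ¬ Cme Γ π e ((1 : RA Λ), u))
    (hw : ¬ Cme Γ π e ((1 : RA Λ), w)) : Cnn3 Γ π e ((1 : RA Λ), u) (1, w) := by
  have hS : B i ⊆ NL Γ := nb_of_rig hi
  obtain ⟨g, v⟩ := e
  obtain ⟨p, hp, z, hz, hzr, -⟩ := gate_r (π ⁻¹' st Γ v) g
  have hE : Ee Γ π (g, v) (z, v) := by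
    rw [hz]
    exact ee_right z v hp
  have hin : ∀ q : RA Λ × V, ¬ Cme Γ π (g, v) q → ¬ Cme Γ π (z, v) q :=
    fun q h h' => h (cme_ee h' (ee_symm hE) (ee_refl q))
  have hout : ∀ q : RA Λ × V, ¬ Cme Γ π (z, v) q → ¬ Cme Γ π (g, v) q :=
    fun q h h' => h (cme_ee h' hE (ee_refl q))
  have hcnn : ∀ a b : RA Λ × V, Cnn3 Γ π (z, v) a b → Cnn3 Γ π (g, v) a b := by
    intro a b h
    unfold Cnn3 at h ⊢
    induction h with
    | refl => exact Relation.ReflTransGen.refl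
    | tail _ hxy ih =>
      exact ih.tail ⟨hxy.1, hxy.2.1, hxy.2.2.1, hout _ hxy.2.2.2.1, hout _ hxy.2.2.2.2⟩
  apply hcnn
  replace hu := hin _ hu
  replace hw := hin _ hw
  clear hcnn hout hin hE hz
  by_cases hT : ∃ b1 ∈ B i, ∃ b2 ∈ B i, b1 ≠ b2 ∧ Cme Γ π (z, v) ((1 : RA Λ), b1) ∧
      Cme Γ π (z, v) ((1 : RA Λ), b2)
  swap
  · -- at most one vertex in the star
    obtain ⟨c, hc, hcu, hcw⟩ : ∃ c, (∀ a ∈ B i, a ≠ c → ¬ Cme Γ π (z, v) ((1 : RA Λ), a)) ∧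
        u ≠ c ∧ w ≠ c := by
      by_cases h1 : ∃ b ∈ B i, Cme Γ π (z, v) ((1 : RA Λ), b)
      · obtain ⟨b, hb, hb1⟩ := h1
        refine ⟨b, fun a ha hab h2 => hT ⟨a, ha, b, hb, hab, h2, hb1⟩, ?_, ?_⟩
        · rintro rfl
          exact hu hb1
        · rintro rfl
          exact hw hb1
      · obtain ⟨c, hc, h3, h4⟩ := a04_third hi w hu'
        exact ⟨c, fun a ha _ h2 => h1 ⟨a, ha, h2⟩, h3.symm, h4.symm⟩
    exact a04_path hS hc (rig_nsp hi c u hu' w hw' hcu hcw)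
  · obtain ⟨b1, hb1, b2, hb2, hb12, hc1, hc2⟩ := hT
    by_cases hz1 : z = 1
    · subst hz1
      have h4 : ∀ a, ¬ Cme Γ π ((1 : RA Λ), v) (1, a) → a ∉ st Γ v :=
        fun a h ha => h ((cme_self 1 v a).2 ha)
      have h5 : b1 ∈ st Γ v := (cme_self 1 v b1).1 hc1
      have h6 : b2 ∈ st Γ v := (cme_self 1 v b2).1 hc2
      have hv : v ∈ B i := by
        by_contra hv
        rcases h5 with h5 | h5
        · exact hv (h5 ▸ hb1)
        · rcases h6 with h6 | h6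
          · exact hv (h6 ▸ hb2)
          · exact hb12 (one_nb h.glu hv hb1 hb2 h5 h6)
      exact a04_star hi.sep hS hv (fun a _ ha h => ha ((cme_self 1 v a).1 h)) hu' hw' (h4 u hu)
        (h4 w hw)
    · obtain ⟨a, ha⟩ := exists_rt hz1
      set t := π a.1 with ht
      have htv : t ∉ st Γ v := hzr a ha
      have hts : a.1 ∈ sup z := rt_sup ha
      have hvt : v ∉ st Γ t := by
        rintro (h | h)
        · exact htv (Or.inl h.symm)
        · exact htv (Or.inr h.symm)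
      have hne : v ≠ t := fun h => hvt (Or.inl h)
      have hT : ∀ b : V, Cme Γ π (z, v) ((1 : RA Λ), b) → Γ.Adj b v ∧ Γ.Adj b t := by
        intro b hb
        have h1 : Cme Γ π ((1 : RA Λ), b) (1 * z, v) := by
          rw [one_mul]
          exact cme_symm hb
        obtain ⟨h3, h2⟩ := in_st (x := 1) (fun a ha => hzr a ha) h1
        have h4 : t ∈ st Γ b := mem_pp.1 h2 hts
        rcases h3 with h3 | h3
        · subst h3
          exact absurd h4 htv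
        · rcases h4 with h4 | h4
          · rw [← h4] at h3
            exact absurd (Or.inr h3 : v ∈ st Γ t) hvt
          · exact ⟨h3, h4⟩
      have hv : v ∈ B i := by
        by_contra hv
        exact hb12 (one_nb h.glu hv hb1 hb2 (hT b1 hc1).1.symm (hT b2 hc2).1.symm)
      have htS : t ∈ B i := by
        by_contra hv
        exact hb12 (one_nb h.glu hv hb1 hb2 (hT b1 hc1).2.symm (hT b2 hc2).2.symm)
      have hv1 : ∀ b, b ∉ st Γ v → ¬ Cme Γ π (z, v) ((1 : RA Λ), b) :=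
        fun b hb h => hb (Or.inr (hT b h).1.symm)
      have ht1 : ∀ b, b ∉ st Γ t → ¬ Cme Γ π (z, v) ((1 : RA Λ), b) :=
        fun b hb h => hb (Or.inr (hT b h).2.symm)
      have hvT : ¬ Cme Γ π (z, v) ((1 : RA Λ), v) := ht1 v hvt
      -- (i), (ii)
      have h1 : ∀ b ∈ B i, b ∉ st Γ v → Cnn3 Γ π (z, v) ((1 : RA Λ), t) (1, b) :=
        fun b hb' hb => a04_star hi.sep hS hv (fun a _ => hv1 a) htS hb' htv hb
      have h2 : ∀ b ∈ B i, b ∉ st Γ t → Cnn3 Γ π (z, v) ((1 : RA Λ), v) (1, b) :=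
        fun b hb' hb => a04_star hi.sep hS htS (fun a _ => ht1 a) hv hb' hvt hb
      -- (iv)
      have h4 : Cnn3 Γ π (z, v) ((1 : RA Λ), v) (1, t) := by
        obtain ⟨z1, hz1S, hz1a, hz1b⟩ := a04_dom hi.dom hv htS hne
        obtain ⟨y1, hy1S, hy1a, hy1b⟩ := a04_dom hi.dom hz1S hv hz1a.ne'
        exact ((a04_edge hS hv hz1S hz1a hvT (ht1 z1 hz1b)).trans
          (a04_edge hS hz1S hy1S hy1a (ht1 z1 hz1b) (hv1 y1 hy1b))).trans
            (a04_csymm (h1 y1 hy1S hy1b))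
      -- everything is connected to `t`
      have h5 : ∀ b ∈ B i, ¬ Cme Γ π (z, v) ((1 : RA Λ), b) →
          Cnn3 Γ π (z, v) ((1 : RA Λ), t) (1, b) := by
        intro b hbS hb
        by_cases hbv : b ∈ st Γ v
        · by_cases hbt : b ∈ st Γ t
          · have h6 : Γ.Adj v b := by
              rcases hbv with h | h
              · subst h
                exact absurd hbt hvt
              · exact h
            exact (a04_csymm h4).trans (a04_edge hS hv hbS h6 hvT hb)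
          · exact (a04_csymm h4).trans (h2 b hbS hbt)
        · exact h1 b hbS hbv
      exact (a04_csymm (h5 u hu' hu)).trans (h5 w hw' hw)

theorem insep3 (h : Ctx Γ Λ π B) {i : Fin m} (hi : Rig Γ (B i)) (x : RA Λ) (e : RA Λ × V)
    {u w : V} (hu : u ∈ B i) (hw : w ∈ B i) (hu' : ¬ Cme Γ π e (x, u))
    (hw' : ¬ Cme Γ π e (x, w)) : Cnn3 Γ π e (x, u) (x, w) := by
  have he : (x * (x⁻¹ * e.1), e.2) = e := by
    rw [mul_inv_cancel_left]
  have key : ∀ t : V, ¬ Cme Γ π e (x, t) → ¬ Cme Γ π (x⁻¹ * e.1, e.2) ((1 : RA Λ), t) := by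
    intro t h h'
    apply h
    have h2 := (cme_mul x (p := (x⁻¹ * e.1, e.2)) (q := ((1 : RA Λ), t))).2 h'
    simp only [mul_one] at h2
    rwa [he] at h2
  have h3 := cnn3_mul x (insep3_one h hi (x⁻¹ * e.1, e.2) hu hw (key u hu') (key w hw'))
  simp only [mul_one] at h3
  rwa [he] at h3

end RaagBL
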