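import Pool.Agent.Lib.MP_32d917_al_bl.A03
import Pool.Agent.Lib.MP_32d917_al_bl.A04
import Pool.Agent.Lib.MP_32d917_al_gp.G10

/-!
# A05: the image of a copy of a rigid block lies in one coset (60 min)

`emp3_symm`: as `g10_symm` (`comm`: apply `h.comm` to `Ψ p`, `Ψ q` and use `right`, `cme_ee`; `nl'`). `cnn3_phi`: the image of a path outside the star of `e` is a path outside the star of `Φ e` (`Relation.ReflTransGen.lift`, `nl`, `comm`; as `g10_map`); `cnn3_ee`: `e` may be replaced by an equivalent pair (as `g10_ee`).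
`hel3`: as `g10_one`: index set `↥(B i)`; if the cosets of `Φ (x, v)`, `Φ (x, w)` do not meet, `sepr3` (in `Λ'`; `(Φ (x, v)).2 ∈ NL Γ'` by `nl`, `B i ⊆ NL Γ` by `nb_of_rig`) gives `e'`, `e'.2 ∈ NL Γ'`; `e = Ψ e'`; `¬ Cme e (x, v)` since `Cme e (x, v)` gives `Cme (Φ e) (Φ (x, v))` and `Φ e`, `e'` are equivalent; `insep3` for `e`, then `cnn3_phi`, `cnn3_ee`:
contradiction. `helly` (`E02`, sets `π' ⁻¹' st Γ' (Φ (x, v)).2`) gives `x'`; `t v = (Φ (x, v)).2`.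
`t_adj`: let `S ⊆ NL Γ` and `Ee (Φ (x, v)) (x', t v)` for `v ∈ S`. For `v`, `w ∈ S`: `w ∈ st Γ v ↔ Cme (x, v) (x, w) ↔ Cme (Φ (x, v)) (Φ (x, w)) ↔ Cme (x', t v) (x', t w) ↔ t w ∈ st Γ' (t v)` (`cme_self`, `comm`, `cme_ee`). `t v = t w` implies `Ee (Φ (x, v)) (Φ (x, w))`, so (`ee'`, `left`) `Ee (x, v) (x, w)`, so `v = w`. So `t` is injective on `S`
and preserves adjacency in both directions.
-/

set_option autoImplicit false

namespace RaagBL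

open RaagIso RaagGP

variable {V W V' W' : Type} {Γ : SimpleGraph V} {Λ : SimpleGraph W} {π : W → V}
  {Γ' : SimpleGraph V'} {Λ' : SimpleGraph W'} {π' : W' → V'} {m m' : ℕ} {B : Fin m → Set V}
  {B' : Fin m' → Set V'} {Φ : RA Λ × V → RA Λ' × V'} {Ψ : RA Λ' × V' → RA Λ × V}

theorem emp3_symm (hE : Emp3 Γ Γ' π π' Φ Ψ) : Emp3 Γ' Γ π' π Ψ Φ where
  nl := hE.nl'
  nl' := hE.nl
  ee := hE.ee'
  ee' := hE.ee
  left := hE.right
  right := hE.left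
  comm := by
    intro p q hp hq
    rw [hE.comm (Ψ p) (Ψ q) (hE.nl' p hp) (hE.nl' q hq)]
    constructor
    · intro h1
      exact cme_ee h1 (ee_symm (hE.right p hp)) (ee_symm (hE.right q hq))
    · intro h1
      exact cme_ee h1 (hE.right p hp) (hE.right q hq)

theorem cnn3_phi (hE : Emp3 Γ Γ' π π' Φ Ψ) {e a b : RA Λ × V} (he : e.2 ∈ NL Γ)
    (hab : Cnn3 Γ π e a b) : Cnn3 Γ' π' (Φ e) (Φ a) (Φ b) := by
  refine Relation.ReflTransGen.lift (r := Stp3 Γ π e) (p := Stp3 Γ' π' (Φ e)) Φ ?_ _ _ hab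
  rintro c d ⟨hc, hd, h1, h2, h3⟩
  exact ⟨hE.nl c hc, hE.nl d hd, (hE.comm c d hc hd).1 h1,
    fun h4 => h2 ((hE.comm e c he hc).2 h4), fun h4 => h3 ((hE.comm e d he hd).2 h4)⟩

theorem cnn3_ee {e e' a b : RA Λ × V} (he : Ee Γ π e e') (h : Cnn3 Γ π e a b) :
    Cnn3 Γ π e' a b := by
  refine Relation.ReflTransGen.lift (r := Stp3 Γ π e) (p := Stp3 Γ π e') id ?_ _ _ h
  rintro c d ⟨hc, hd, h1, h2, h3⟩
  exact ⟨hc, hd, h1, fun h4 => h2 (cme_ee h4 (ee_symm he) (ee_refl _)),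
    fun h4 => h3 (cme_ee h4 (ee_symm he) (ee_refl _))⟩

theorem hel3 [Finite V] (h : Ctx Γ Λ π B) (h' : Ctx Γ' Λ' π' B') (hE : Emp3 Γ Γ' π π' Φ Ψ)
    {i : Fin m} (hi : Rig Γ (B i)) (x : RA Λ) :
    ∃ (x' : RA Λ') (t : V → V'), ∀ v ∈ B i, Ee Γ' π' (Φ (x, v)) (x', t v) := by
  have hnb : ∀ u ∈ B i, u ∈ NL Γ := fun u hu => nb_of_rig hi hu
  have h3 : ∀ v w : ↥(B i), ∃ p ∈ PB Λ' π' (st Γ' (Φ (x, (v : V))).2),
      ∃ q ∈ PB Λ' π' (st Γ' (Φ (x, (w : V))).2),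
      (Φ (x, (v : V))).1 * p = (Φ (x, (w : V))).1 * q := by
    rintro ⟨v, hv⟩ ⟨w, hw⟩
    by_contra h4
    obtain ⟨e, he, h5, h6, h7⟩ := sepr3 h' (Φ (x, v)).1 (Φ (x, w)).1
      (hE.nl (x, v) (hnb v hv)) (hE.nl (x, w) (hnb w hw)) h4
    have h8 : ∀ u ∈ B i, ¬ Cme Γ' π' e (Φ (x, u)) → ¬ Cme Γ π (Ψ e) (x, u) := by
      intro u hu1 hu h9
      exact hu (cme_ee ((hE.comm _ _ (hE.nl' e he) (hnb u hu1)).1 h9) (hE.right e he)
        (ee_refl _))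
    have h9 := insep3 h hi x (Ψ e) hv hw (h8 v hv h5) (h8 w hw h6)
    exact h7 (cnn3_ee (hE.right e he) (cnn3_phi hE (hE.nl' e he) h9))
  obtain ⟨y, hy⟩ := helly (fun v : ↥(B i) => (Φ (x, (v : V))).1)
    (fun v : ↥(B i) => π' ⁻¹' st Γ' (Φ (x, (v : V))).2) h3
  exact ⟨y, fun v => (Φ (x, v)).2, fun v hv => ⟨rfl, hy ⟨v, hv⟩⟩⟩

theorem t_adj (hE : Emp3 Γ Γ' π π' Φ Ψ) {S : Set V} (hS : S ⊆ NL Γ) {x : RA Λ} {x' : RA Λ'}
    {t : V → V'} (ht : ∀ v ∈ S, Ee Γ' π' (Φ (x, v)) (x', t v)) :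
    Set.InjOn t S ∧ ∀ v ∈ S, ∀ w ∈ S, (Γ.Adj v w ↔ Γ'.Adj (t v) (t w)) := by
  have h1 : ∀ v ∈ S, ∀ w ∈ S, (w ∈ st Γ v ↔ t w ∈ st Γ' (t v)) := by
    intro v hv w hw
    rw [← cme_self (Γ := Γ) (π := π) x v w, ← cme_self (Γ := Γ') (π := π') x' (t v) (t w),
      hE.comm (x, v) (x, w) (hS hv) (hS hw)]
    exact ⟨fun h => cme_ee h (ht v hv) (ht w hw),
      fun h => cme_ee h (ee_symm (ht v hv)) (ee_symm (ht w hw))⟩
  have h2 : ∀ v ∈ S, ∀ w ∈ S, t v = t w → v = w := by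
    intro v hv w hw hvw
    have h3 : Ee Γ' π' (Φ (x, v)) (Φ (x, w)) := by
      have h4 := ht v hv
      rw [hvw] at h4
      exact ee_trans h4 (ee_symm (ht w hw))
    have h5 := hE.ee' _ _ (hE.nl (x, v) (hS hv)) (hE.nl (x, w) (hS hw)) h3
    exact (ee_trans (ee_symm (hE.left (x, v) (hS hv)))
      (ee_trans h5 (hE.left (x, w) (hS hw)))).1
  refine ⟨fun v hv w hw hvw => h2 v hv w hw hvw, fun v hv w hw => ?_⟩
  constructor
  · intro h3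
    have h4 : t w ∈ st Γ' (t v) := (h1 v hv w hw).1 (Or.inr h3)
    rcases h4 with h4 | h4
    · exact absurd (h2 w hw v hv h4) h3.ne'
    · exact h4
  · intro h3
    have h4 : w ∈ st Γ v := (h1 v hv w hw).2 (Or.inr h3)
    rcases h4 with h4 | h4
    · rw [h4] at h3
      exact absurd rfl h3.ne
    · exact h4

end RaagBL
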