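import Pool.Agent.Lib.MP_32d917_al_bl.A05

/-!
# A06: copies of core blocks are mapped to copies of core blocks (75 min)

`chm_rig`: `hel3`: `x'`, `t`; `t_adj` for `S = B i` (`nb_of_rig`). `t '' B i` is `NSp` (`nsp_image`, `rig_nsp`; three elements: `v ∈ B i` and two neighbours, `rig_deg`), so it is contained in some `B' j` (`nsp_blk`). `B' j` has three different elements, so it is not an edge, so it is rigid (`ty`). The same for `Ψ` (`emp3_symm`), `B' j`, `x'`: `x''`, `t'`, and `t' '' B' j ⊆ B k`.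
For `v ∈ B i`: `(x, v)` is equivalent to `Ψ (Φ (x, v))`, to `Ψ (x', t v)` (`ee'`), to `(x'', t' (t v))`; so `t' (t v) = v ∈ B k`; `B i` has two elements, so `i = k` (`glu_two`). `t'` is injective on `B' j` with values in `B i`, `t' (t v) = v`: so for `w' ∈ B' j`: `t' (t (t' w')) = t' w'`, `t (t' w') = w'`: `t : B i → B' j` is a bijection.
`chm_edg`: `B i = {v, w}`, `v`, `w ∈ NL Γ` adjacent. `Cme (x, v) (x, w)` (`cme_self`), so `Cme (Φ (x, v)) (Φ (x, w))`: there is `x'` in both cosets: `Ee (Φ (x, v)) (x', v')`, `Ee (Φ (x, w)) (x', w')`, `v' = (Φ (x, v)).2`, `w' = (Φ (x, w)).2`. `t u = if u = v then v' else w'` (classical); `t_adj` for `S = {v, w}`: `v' ≠ w'`, adjacent. `edge`: `v'`, `w' ∈ B' j`. If `B' j` is rigid: `chm_rig` for `Ψ`,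
`B' j`, `x'`: `B k` rigid and `t'` with `Ee (Ψ (x', v')) (x'', t' v')`; as above `t' v' = v`, `t' w' = w`, so `v`, `w ∈ B k`, `k = i` (`glu_two`), contradiction to `rig_nedg`. So `B' j` is an edge and contains `v' ≠ w'`: `B' j = {v', w'}`, contained in `NL Γ'`.
`chm`: both cases (`h.glu.ty i`).
-/

set_option autoImplicit false

namespace RaagBL

open RaagIso RaagGP

variable {V W V' W' : Type} {Γ : SimpleGraph V} {Λ : SimpleGraph W} {π : W → V}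
  {Γ' : SimpleGraph V'} {Λ' : SimpleGraph W'} {π' : W' → V'} {m m' : ℕ} {B : Fin m → Set V}
  {B' : Fin m' → Set V'} {Φ : RA Λ × V → RA Λ' × V'} {Ψ : RA Λ' × V' → RA Λ × V}

private theorem a06_back (hE : Emp3 Γ Γ' π π' Φ Ψ) {v v'' : V} {v' : V'} {x x'' : RA Λ}
    {x' : RA Λ'} (hv : v ∈ NL Γ) (h1 : Ee Γ' π' (Φ (x, v)) (x', v'))
    (h2 : Ee Γ π (Ψ (x', v')) (x'', v'')) : v'' = v := by
  have h3 : (Φ (x, v)).2 ∈ NL Γ' := hE.nl (x, v) hv
  have h4 : (Φ (x, v)).2 = v' := h1.1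
  have h5 : v' ∈ NL Γ' := by rw [← h4]; exact h3
  have h6 := hE.ee' (Φ (x, v)) (x', v') h3 h5 h1
  have h7 := hE.left (x, v) hv
  have e1 : (Ψ (Φ (x, v))).2 = v := h7.1
  have e2 : (Ψ (Φ (x, v))).2 = (Ψ (x', v')).2 := h6.1
  have e3 : (Ψ (x', v')).2 = v'' := h2.1
  rw [← e3, ← e2, e1]

private theorem a06_one [Finite V] (h : Ctx Γ Λ π B) (h' : Ctx Γ' Λ' π' B')
    (hE : Emp3 Γ Γ' π π' Φ Ψ) {i : Fin m} (hi : Rig Γ (B i)) (x : RA Λ) :
    ∃ (j : Fin m') (x' : RA Λ') (t : V → V'), Rig Γ' (B' j) ∧ (∀ v ∈ B i, t v ∈ B' j) ∧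
      (∀ v ∈ B i, Ee Γ' π' (Φ (x, v)) (x', t v)) ∧ Set.InjOn t (B i) ∧
      ∀ v ∈ B i, ∀ w ∈ B i, (Γ.Adj v w ↔ Γ'.Adj (t v) (t w)) := by
  obtain ⟨x', t, ht⟩ := hel3 h h' hE hi x
  obtain ⟨hinj, hadj⟩ := t_adj hE (nb_of_rig hi) ht
  obtain ⟨v, hv⟩ := blk_ne h.glu i
  obtain ⟨a, ha, b, hb, hab, hva, hvb, -⟩ := rig_deg hi hv
  have h3 : ∃ a ∈ B i, ∃ b ∈ B i, ∃ c ∈ B i, a ≠ b ∧ a ≠ c ∧ b ≠ c :=
    ⟨v, hv, a, ha, b, hb, Γ.ne_of_adj hva, Γ.ne_of_adj hvb, hab⟩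
  have h4 : NSp Γ' (t '' B i) := nsp_image (rig_nsp hi) h3 hinj
    (fun v hv w hw hvw => (hadj v hv w hw).1 hvw)
  obtain ⟨j, hj⟩ := nsp_blk h'.glu h4 ⟨t v, v, hv, rfl⟩
  have hmem : ∀ v ∈ B i, t v ∈ B' j := fun v hv => hj ⟨v, hv, rfl⟩
  refine ⟨j, x', t, ?_, hmem, ht, hinj, hadj⟩
  rcases h'.glu.ty j with h5 | h5
  · exfalso
    obtain ⟨p, q, -, hpq⟩ := h5
    have e1 := hmem v hv
    have e2 := hmem a ha
    have e3 := hmem b hb
    rw [hpq] at e1 e2 e3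
    have n1 : t v ≠ t a := fun e => Γ.ne_of_adj hva (hinj hv ha e)
    have n2 : t v ≠ t b := fun e => Γ.ne_of_adj hvb (hinj hv hb e)
    have n3 : t a ≠ t b := fun e => hab (hinj ha hb e)
    simp only [Set.mem_insert_iff, Set.mem_singleton_iff] at e1 e2 e3
    rcases e1 with e1 | e1 <;> rcases e2 with e2 | e2 <;> rcases e3 with e3 | e3 <;>
      first
        | exact n1 (e1.trans e2.symm)
        | exact n2 (e1.trans e3.symm)
        | exact n3 (e2.trans e3.symm)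
  · exact h5

theorem chm_rig [Finite V] [Finite V'] (h : Ctx Γ Λ π B) (h' : Ctx Γ' Λ' π' B')
    (hE : Emp3 Γ Γ' π π' Φ Ψ) {i : Fin m} (hi : Rig Γ (B i)) (x : RA Λ) :
    ∃ (j : Fin m') (x' : RA Λ') (t : V → V'), Rig Γ' (B' j) ∧
      Ch Γ Γ' π' Φ (B i) (B' j) x x' t := by
  obtain ⟨j, x', t, hj, hm, ht, hinj, hadj⟩ := a06_one h h' hE hi x
  obtain ⟨k, x'', t', -, hm', ht', hinj', -⟩ := a06_one h' h (emp3_symm hE) hj x'
  have hback : ∀ v ∈ B i, t' (t v) = v := fun v hv =>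
    a06_back hE (nb_of_rig hi hv) (ht v hv) (ht' (t v) (hm v hv))
  have hik : ∀ v ∈ B i, v ∈ B k := by
    intro v hv
    have := hm' (t v) (hm v hv)
    rwa [hback v hv] at this
  have hki : k = i := by
    by_contra hne
    obtain ⟨v, hv⟩ := blk_ne h.glu i
    obtain ⟨a, ha, -, -, -, hva, -, -⟩ := rig_deg hi hv
    exact Γ.ne_of_adj hva (glu_two h.glu (fun e => hne e.symm) hv (hik v hv) ha (hik a ha))
  subst hki
  refine ⟨j, x', t, hj, ⟨ht, ⟨hm, hinj, ?_⟩, hadj⟩⟩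
  intro w' hw'
  have h1 : t' w' ∈ B k := hm' w' hw'
  refine ⟨t' w', h1, ?_⟩
  exact hinj' (hm _ h1) hw' (hback _ h1)

theorem chm_edg [Finite V] [Finite V'] (h : Ctx Γ Λ π B) (h' : Ctx Γ' Λ' π' B')
    (hE : Emp3 Γ Γ' π π' Φ Ψ) {i : Fin m} (hi : Edg Γ (B i)) (hn : NB Γ B i) (x : RA Λ) :
    ∃ (j : Fin m') (x' : RA Λ') (t : V → V'), Edg Γ' (B' j) ∧ NB Γ' B' j ∧
      Ch Γ Γ' π' Φ (B i) (B' j) x x' t := by
  classical
  obtain ⟨v, w, hvw, hB⟩ := id hi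
  have hne : v ≠ w := Γ.ne_of_adj hvw
  have hv : v ∈ B i := by rw [hB]; exact Or.inl rfl
  have hw : w ∈ B i := by rw [hB]; exact Or.inr rfl
  have hv1 : v ∈ NL Γ := hn hv
  have hw1 : w ∈ NL Γ := hn hw
  have hc : Cme Γ π (x, v) (x, w) := (cme_self x v w).2 (Or.inr hvw)
  obtain ⟨-, x', hx1, hx2⟩ := (hE.comm (x, v) (x, w) hv1 hw1).1 hc
  obtain ⟨t, htv, htw⟩ : ∃ t : V → V', t v = (Φ (x, v)).2 ∧ t w = (Φ (x, w)).2 := by
    refine ⟨fun u => if u = v then (Φ (x, v)).2 else (Φ (x, w)).2, by simp, ?_⟩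
    simp [hne.symm]
  have ht : ∀ u ∈ B i, Ee Γ' π' (Φ (x, u)) (x', t u) := by
    intro u hu
    rw [hB] at hu
    rcases hu with hu | hu
    · rw [hu]; exact ⟨htv.symm, hx1⟩
    · have hu' : u = w := hu
      rw [hu']; exact ⟨htw.symm, hx2⟩
  obtain ⟨hinj, hadj⟩ := t_adj hE hn ht
  have hadj' : Γ'.Adj (t v) (t w) := (hadj v hv w hw).1 hvw
  have hne' : t v ≠ t w := Γ'.ne_of_adj hadj'
  obtain ⟨j, hj1, hj2⟩ := h'.glu.edge _ _ hadj'
  rcases h'.glu.ty j with hj | hj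
  · obtain ⟨p, q, hpq, hBj⟩ := id hj
    have hB' : B' j = {t v, t w} := by
      rw [hBj] at hj1 hj2 ⊢
      simp only [Set.mem_insert_iff, Set.mem_singleton_iff] at hj1 hj2
      rcases hj1 with e1 | e1 <;> rcases hj2 with e2 | e2
      · exact absurd (e1.trans e2.symm) hne'
      · rw [e1, e2]
      · rw [e1, e2, Set.pair_comm]
      · exact absurd (e1.trans e2.symm) hne'
    refine ⟨j, x', t, hj, ?_, ht, ⟨?_, hinj, ?_⟩, hadj⟩
    · intro u hu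
      rw [hB'] at hu
      rcases hu with hu | hu
      · rw [hu, htv]; exact hE.nl (x, v) hv1
      · have hu' : u = t w := hu
        rw [hu', htw]; exact hE.nl (x, w) hw1
    · intro u hu
      rw [hB] at hu
      rcases hu with hu | hu
      · rw [hu]; exact hj1
      · have hu' : u = w := hu
        rw [hu']; exact hj2
    · intro u hu
      rw [hB'] at hu
      rcases hu with hu | hu
      · exact ⟨v, hv, hu.symm⟩
      · exact ⟨w, hw, (show u = t w from hu).symm⟩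
  · exfalso
    obtain ⟨k, x'', t', hk, hm', ht', -, -⟩ := a06_one h' h (emp3_symm hE) hj x'
    have e1 : t' (t v) = v := a06_back hE hv1 (ht v hv) (ht' _ hj1)
    have e2 : t' (t w) = w := a06_back hE hw1 (ht w hw) (ht' _ hj2)
    have m1 : v ∈ B k := by have := hm' _ hj1; rwa [e1] at this
    have m2 : w ∈ B k := by have := hm' _ hj2; rwa [e2] at this
    by_cases hki : k = i
    · subst hki
      exact rig_nedg hk hi
    · exact hne (glu_two h.glu hki m1 hv m2 hw)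

theorem chm [Finite V] [Finite V'] (h : Ctx Γ Λ π B) (h' : Ctx Γ' Λ' π' B')
    (hE : Emp3 Γ Γ' π π' Φ Ψ) {i : Fin m} (hn : NB Γ B i) (x : RA Λ) :
    ∃ (j : Fin m') (x' : RA Λ') (t : V → V'), NB Γ' B' j ∧ (Rig Γ (B i) ↔ Rig Γ' (B' j)) ∧
      Ch Γ Γ' π' Φ (B i) (B' j) x x' t := by
  rcases h.glu.ty i with hi | hi
  · obtain ⟨j, x', t, hj, hj', hc⟩ := chm_edg h h' hE hi hn x
    exact ⟨j, x', t, hj', ⟨fun hr => absurd hi (rig_nedg hr), fun hr => absurd hj (rig_nedg hr)⟩, hc⟩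
  · obtain ⟨j, x', t, hj, hc⟩ := chm_rig h h' hE hi x
    exact ⟨j, x', t, nb_of_rig hj, ⟨fun _ => hj, fun _ => hi⟩, hc⟩

end RaagBL
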