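import Pool.Agent.Lib.MP_32d917_al_gp.Defs

/-!
# Graphs glued from blocks: definitions

`Γ` is glued from the sets `B 0, B 1, ...` along single vertices; every `B i` is an edge or rigid (no
domination, no separating star). `Λ` is a blow-up of `Γ`.
-/

set_option autoImplicit false

namespace RaagBL

open RaagIso RaagGP

section Graph

variable {V W : Type}

/-- rigid sets of vertices -/
structure Rig (Γ : SimpleGraph V) (S : Set V) : Prop where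
  two : ∃ a b : S, a ≠ b
  dom : NoDom (Γ.induce S)
  sep : NoSep (Γ.induce S)

/-- edges -/
def Edg (Γ : SimpleGraph V) (S : Set V) : Prop := ∃ a b, Γ.Adj a b ∧ S = {a, b}

/-- `Γ` is obtained by gluing successively the sets `B 0, B 1, ...` along single vertices -/
structure Glu (Γ : SimpleGraph V) {m : ℕ} (B : Fin m → Set V) : Prop where
  cov : ∀ v, ∃ i, v ∈ B i
  edge : ∀ a b, Γ.Adj a b → ∃ i, a ∈ B i ∧ b ∈ B i
  ty : ∀ i, Edg Γ (B i) ∨ Rig Γ (B i)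
  glu : ∀ i, (∃ j, j < i) → ∃! v, v ∈ B i ∧ ∃ j, j < i ∧ v ∈ B j

/-- cut vertices -/
def Cut {m : ℕ} (B : Fin m → Set V) (v : V) : Prop := ∃ i j, i ≠ j ∧ v ∈ B i ∧ v ∈ B j

/-- vertices which are not leaves -/
def NL (Γ : SimpleGraph V) : Set V := {v | ∃ a b, a ≠ b ∧ Γ.Adj v a ∧ Γ.Adj v b}

/-- blocks without leaves -/
def NB (Γ : SimpleGraph V) {m : ℕ} (B : Fin m → Set V) (i : Fin m) : Prop := B i ⊆ NL Γ

/-- sets which are not separated by the removal of a vertex -/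
def NSp (Γ : SimpleGraph V) (S : Set V) : Prop := ∀ c, ∀ a ∈ S, ∀ b ∈ S, a ≠ c → b ≠ c →
  Relation.ReflTransGen (fun x y => Γ.Adj x y ∧ x ∈ S ∧ y ∈ S ∧ x ≠ c ∧ y ≠ c) a b

/-- the general assumptions -/
structure Ctx (Γ : SimpleGraph V) (Λ : SimpleGraph W) (π : W → V) {m : ℕ} (B : Fin m → Set V) :
    Prop where
  glu : Glu Γ B
  bu : BU Γ Λ π
  sng : ∀ v, (Cut B v ∨ ∃ i, Edg Γ (B i) ∧ v ∈ B i) → ∀ a b, π a = v → π b = v → a = b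
  big : ∃ a b c : V, a ≠ b ∧ a ≠ c ∧ b ≠ c

end Graph

/-! ### The extension graph of the vertices which are not leaves -/

section Ext

variable {V W V' W' : Type} {Λ : SimpleGraph W} {Λ' : SimpleGraph W'}

/-- steps outside the star of `e` -/
def Stp3 (Γ : SimpleGraph V) (π : W → V) (e a b : RA Λ × V) : Prop :=
  a.2 ∈ NL Γ ∧ b.2 ∈ NL Γ ∧ Stp2 Γ π e a b

/-- connected outside the star of `e` -/
def Cnn3 (Γ : SimpleGraph V) (π : W → V) (e a b : RA Λ × V) : Prop :=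
  Relation.ReflTransGen (Stp3 Γ π e) a b

/-- isomorphisms of the extension graphs, with inverse -/
structure Emp3 (Γ : SimpleGraph V) (Γ' : SimpleGraph V') (π : W → V) (π' : W' → V')
    (Φ : RA Λ × V → RA Λ' × V') (Ψ : RA Λ' × V' → RA Λ × V) : Prop where
  nl : ∀ p, p.2 ∈ NL Γ → (Φ p).2 ∈ NL Γ'
  nl' : ∀ p, p.2 ∈ NL Γ' → (Ψ p).2 ∈ NL Γ
  ee : ∀ p q, p.2 ∈ NL Γ → q.2 ∈ NL Γ → Ee Γ π p q → Ee Γ' π' (Φ p) (Φ q)
  ee' : ∀ p q, p.2 ∈ NL Γ' → q.2 ∈ NL Γ' → Ee Γ' π' p q → Ee Γ π (Ψ p) (Ψ q)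
  left : ∀ p, p.2 ∈ NL Γ → Ee Γ π (Ψ (Φ p)) p
  right : ∀ p, p.2 ∈ NL Γ' → Ee Γ' π' (Φ (Ψ p)) p
  comm : ∀ p q, p.2 ∈ NL Γ → q.2 ∈ NL Γ → (Cme Γ π p q ↔ Cme Γ' π' (Φ p) (Φ q))

/-- `Φ` and `Ψ` are induced by the isomorphism `φ` -/
structure Ind3 (Γ : SimpleGraph V) (Γ' : SimpleGraph V') (π : W → V) (π' : W' → V')
    {H : Subgroup (RA Λ)} {H' : Subgroup (RA Λ')} (φ : H ≃* H')
    (Φ : RA Λ × V → RA Λ' × V') (Ψ : RA Λ' × V' → RA Λ × V) : Prop where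
  emp : Emp3 Γ Γ' π π' Φ Ψ
  equ : ∀ (h : H) (p : RA Λ × V), p.2 ∈ NL Γ →
    Ee Γ' π' (Φ (h * p.1, p.2)) (φ h * (Φ p).1, (Φ p).2)
  equ' : ∀ (h : H') (p : RA Λ' × V'), p.2 ∈ NL Γ' →
    Ee Γ π (Ψ (h * p.1, p.2)) (φ.symm h * (Ψ p).1, (Ψ p).2)
  ing : ∀ (h : H) (p : RA Λ × V), p.2 ∈ NL Γ → p.1⁻¹ * h * p.1 ∈ PB Λ π {p.2} →
    (Φ p).1⁻¹ * φ h * (Φ p).1 ∈ PB Λ' π' {(Φ p).2}
  ing' : ∀ (h : H') (p : RA Λ' × V'), p.2 ∈ NL Γ' → p.1⁻¹ * h * p.1 ∈ PB Λ' π' {p.2} →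
    (Ψ p).1⁻¹ * φ.symm h * (Ψ p).1 ∈ PB Λ π {(Ψ p).2}

/-- the copy `x S` is mapped to the copy `x' S'` by `t` -/
structure Ch (Γ : SimpleGraph V) (Γ' : SimpleGraph V') (π' : W' → V')
    (Φ : RA Λ × V → RA Λ' × V') (S : Set V) (S' : Set V') (x : RA Λ) (x' : RA Λ') (t : V → V') :
    Prop where
  ee : ∀ v ∈ S, Ee Γ' π' (Φ (x, v)) (x', t v)
  bij : Set.BijOn t S S'
  adj : ∀ v ∈ S, ∀ w ∈ S, (Γ.Adj v w ↔ Γ'.Adj (t v) (t w))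

end Ext

/-! ### Orbits -/

section Orbits

variable {V W C : Type} {Λ : SimpleGraph W}

/-- same orbit of the standard subgroup of the set `D` of vertices of `Γ` -/
def Ob (π : W → V) (ρ : RA Λ →* Equiv.Perm C) (D : Set V) (c d : C) : Prop :=
  ∃ g ∈ PB Λ π D, rm ρ c g = d

/-- length of the orbit of `c` under the letter `a` -/
noncomputable def pr (ρ : RA Λ →* Equiv.Perm C) (a : W) (c : C) : ℕ :=
  Function.minimalPeriod (fun d => rm ρ d (gen a)) c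

/-- stabiliser of `c` in the standard subgroup of `D` -/
def SK (π : W → V) (ρ : RA Λ →* Equiv.Perm C) (D : Set V) (c : C) : Subgroup (RA Λ) :=
  stb ρ c ⊓ PB Λ π D

/-- number of points of the orbit of `c` under the star of `v` -/
noncomputable def nPt (Γ : SimpleGraph V) (π : W → V) (ρ : RA Λ →* Equiv.Perm C) (v : V)
    (c : C) : ℕ := Nat.card {d : C // Ob π ρ (st Γ v) c d}

/-- number of blocks which contain `v` -/
noncomputable def nBl {m : ℕ} (B : Fin m → Set V) (v : V) : ℕ := Nat.card {i // v ∈ B i}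

end Orbits

/-! ### Matchings -/

section Mat

variable {V W V' W' C C' : Type} {Λ : SimpleGraph W} {Λ' : SimpleGraph W'}

/-- The part of a matching on the orbit of the point `p` under the block `i`, which corresponds to the orbit
of the point `p'` under the block `i'`. -/
structure Loc (Γ : SimpleGraph V) (Γ' : SimpleGraph V') (π : W → V) (π' : W' → V') {m m' : ℕ}
    (B : Fin m → Set V) (B' : Fin m' → Set V')
    (ρ : RA Λ →* Equiv.Perm C) (ρ' : RA Λ' →* Equiv.Perm C') (i : Fin m) (i' : Fin m') (p : C)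
    (p' : C') (F : C → C') (τ : C → V → V') (Φ : C → RA Λ → RA Λ') (ε : V → C → ℤˣ) : Prop where
  tbij : ∀ c, Ob π ρ (B i) p c → Set.BijOn (τ c) (B i) (B' i')
  tadj : ∀ c, Ob π ρ (B i) p c → ∀ v ∈ B i, ∀ w ∈ B i, (Γ.Adj v w ↔ Γ'.Adj (τ c v) (τ c w))
  tcut : ∀ c, Ob π ρ (B i) p c → ∀ v ∈ B i, (Cut B v ↔ Cut B' (τ c v))
  orb : ∀ c, Ob π ρ (B i) p c → Ob π' ρ' (B' i') p' (F c)
  wtau : ∀ c d v, Ob π ρ (B i) p c → v ∈ B i → Cut B v → Ob π ρ (B i ∩ st Γ v) c d →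
    τ d v = τ c v
  wal : ∀ c d v, Ob π ρ (B i) p c → v ∈ B i → Cut B v → Ob π ρ (B i ∩ st Γ v) c d →
    Ob π' ρ' (B' i' ∩ st Γ' (τ c v)) (F c) (F d)
  wali : ∀ c d v w, Ob π ρ (B i) p c → Ob π ρ (B i) p d → v ∈ B i → w ∈ B i → Cut B v →
    Cut B w → τ c v = τ d w → Ob π' ρ' (B' i' ∩ st Γ' (τ c v)) (F c) (F d) →
    v = w ∧ Ob π ρ (B i ∩ st Γ v) c d
  wals : ∀ c' v', Ob π' ρ' (B' i') p' c' → v' ∈ B' i' → Cut B' v' → ∃ c v, Ob π ρ (B i) p c ∧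
    v ∈ B i ∧ τ c v = v' ∧ Ob π' ρ' (B' i' ∩ st Γ' v') (F c) c'
  map : ∀ c, Ob π ρ (B i) p c → ∀ g ∈ SK π ρ (B i) c, Φ c g ∈ SK π' ρ' (B' i') (F c)
  mul : ∀ c, Ob π ρ (B i) p c → ∀ g ∈ SK π ρ (B i) c, ∀ h ∈ SK π ρ (B i) c,
    Φ c (g * h) = Φ c g * Φ c h
  inj : ∀ c, Ob π ρ (B i) p c → ∀ g ∈ SK π ρ (B i) c, ∀ h ∈ SK π ρ (B i) c, Φ c g = Φ c h → g = h
  surj : ∀ c, Ob π ρ (B i) p c → ∀ g' ∈ SK π' ρ' (B' i') (F c), ∃ g ∈ SK π ρ (B i) c, Φ c g = g'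
  con : ∀ c d, Ob π ρ (B i) p c → ∀ g ∈ PB Λ π (B i), rm ρ c g = d → ∃ g' ∈ PB Λ' π' (B' i'),
    rm ρ' (F c) g' = F d ∧ ∀ l ∈ SK π ρ (B i) d, Φ c (g * l * g⁻¹) = g' * Φ d l * g'⁻¹
  sgn : ∀ c v a a', Ob π ρ (B i) p c → v ∈ B i → Cut B v → π a = v → π' a' = τ c v →
    Φ c (gen a ^ pr ρ a c) = gen a' ^ (((ε v c : ℤˣ) : ℤ) * pr ρ' a' (F c))

/-- Matchings: the block `i` at the point `c` corresponds to the block `β i c` at the point `F i c`, the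
vertices correspond by `τ i c`, the stabilisers by `Φ i c`; the cut vertex `v` at `c` corresponds to
`(σ v c).1` at `(σ v c).2`, with the sign `ε v c`. -/
structure Mch (Γ : SimpleGraph V) (Γ' : SimpleGraph V') (π : W → V) (π' : W' → V') {m m' : ℕ}
    (B : Fin m → Set V) (B' : Fin m' → Set V')
    (ρ : RA Λ →* Equiv.Perm C) (ρ' : RA Λ' →* Equiv.Perm C')
    (β : Fin m → C → Fin m') (F : Fin m → C → C') (τ : Fin m → C → V → V')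
    (Φ : Fin m → C → RA Λ → RA Λ') (σ : V → C → V' × C') (ε : V → C → ℤˣ) : Prop where
  /-- types -/
  nb : ∀ i c, NB Γ B i → NB Γ' B' (β i c)
  rig : ∀ i c, NB Γ B i → (Rig Γ (B i) ↔ Rig Γ' (B' (β i c)))
  tbij : ∀ i c, NB Γ B i → Set.BijOn (τ i c) (B i) (B' (β i c))
  tadj : ∀ i c, NB Γ B i → ∀ v ∈ B i, ∀ w ∈ B i, (Γ.Adj v w ↔ Γ'.Adj (τ i c v) (τ i c w))
  tcut : ∀ i c, NB Γ B i → ∀ v ∈ B i, (Cut B v ↔ Cut B' (τ i c v))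
  /-- orbits of blocks -/
  beta : ∀ i c d, NB Γ B i → Ob π ρ (B i) c d → β i d = β i c
  orb : ∀ i c d, NB Γ B i → Ob π ρ (B i) c d → Ob π' ρ' (B' (β i c)) (F i c) (F i d)
  orbi : ∀ i j c d, NB Γ B i → NB Γ B j → β i c = β j d →
    Ob π' ρ' (B' (β i c)) (F i c) (F j d) → i = j ∧ Ob π ρ (B i) c d
  orbs : ∀ i' c', NB Γ' B' i' → ∃ i c, NB Γ B i ∧ β i c = i' ∧ Ob π' ρ' (B' i') (F i c) c'
  /-- walls -/
  wtau : ∀ i c d v, NB Γ B i → v ∈ B i → Cut B v → Ob π ρ (B i ∩ st Γ v) c d →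
    τ i d v = τ i c v
  wal : ∀ i c d v, NB Γ B i → v ∈ B i → Cut B v → Ob π ρ (B i ∩ st Γ v) c d →
    Ob π' ρ' (B' (β i c) ∩ st Γ' (τ i c v)) (F i c) (F i d)
  wali : ∀ i c d v w, NB Γ B i → v ∈ B i → w ∈ B i → Cut B v → Cut B w →
    Ob π ρ (B i) c d → τ i c v = τ i d w →
    Ob π' ρ' (B' (β i c) ∩ st Γ' (τ i c v)) (F i c) (F i d) → v = w ∧ Ob π ρ (B i ∩ st Γ v) c d
  wals : ∀ i' c' v', NB Γ' B' i' → v' ∈ B' i' → Cut B' v' → ∃ i c v, NB Γ B i ∧ v ∈ B i ∧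
    β i c = i' ∧ τ i c v = v' ∧ Ob π' ρ' (B' i' ∩ st Γ' v') (F i c) c'
  /-- isomorphisms of the stabilisers of blocks -/
  map : ∀ i c, NB Γ B i → ∀ g ∈ SK π ρ (B i) c, Φ i c g ∈ SK π' ρ' (B' (β i c)) (F i c)
  mul : ∀ i c, NB Γ B i → ∀ g ∈ SK π ρ (B i) c, ∀ h ∈ SK π ρ (B i) c,
    Φ i c (g * h) = Φ i c g * Φ i c h
  inj : ∀ i c, NB Γ B i → ∀ g ∈ SK π ρ (B i) c, ∀ h ∈ SK π ρ (B i) c, Φ i c g = Φ i c h → g = h
  surj : ∀ i c, NB Γ B i → ∀ g' ∈ SK π' ρ' (B' (β i c)) (F i c), ∃ g ∈ SK π ρ (B i) c,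
    Φ i c g = g'
  con : ∀ i c d, NB Γ B i → ∀ g ∈ PB Λ π (B i), rm ρ c g = d → ∃ g' ∈ PB Λ' π' (B' (β i c)),
    rm ρ' (F i c) g' = F i d ∧ ∀ l ∈ SK π ρ (B i) d, Φ i c (g * l * g⁻¹) = g' * Φ i d l * g'⁻¹
  sgn : ∀ i c v a a', NB Γ B i → v ∈ B i → Cut B v → π a = v → π' a' = τ i c v →
    Φ i c (gen a ^ pr ρ a c) = gen a' ^ (((ε v c : ℤˣ) : ℤ) * pr ρ' a' (F i c))
  /-- cut vertices -/
  pcut : ∀ v c, Cut B v → Cut B' (σ v c).1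
  port : ∀ v c d, Cut B v → Ob π ρ (st Γ v) c d →
    (σ v d).1 = (σ v c).1 ∧ Ob π' ρ' (st Γ' (σ v c).1) (σ v c).2 (σ v d).2
  pori : ∀ v w c d, Cut B v → Cut B w → (σ v c).1 = (σ w d).1 →
    Ob π' ρ' (st Γ' (σ v c).1) (σ v c).2 (σ w d).2 → v = w ∧ Ob π ρ (st Γ v) c d
  pors : ∀ v' c', Cut B' v' → ∃ v c, Cut B v ∧ (σ v c).1 = v' ∧
    Ob π' ρ' (st Γ' v') (σ v c).2 c'
  pcom : ∀ i c v, NB Γ B i → v ∈ B i → Cut B v → (σ v c).1 = τ i c v ∧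
    Ob π' ρ' (st Γ' (τ i c v)) (σ v c).2 (F i c)
  peps : ∀ v c d, Cut B v → Ob π ρ (st Γ v) c d → ε v d = ε v c
  /-- ranks -/
  rank : ∀ v c a a', Cut B v → π a = v → π' a' = (σ v c).1 →
    nPt Γ π ρ v c * pr ρ' a' (σ v c).2 * (nBl B v - 1) =
      nPt Γ' π' ρ' (σ v c).1 (σ v c).2 * pr ρ a c * (nBl B' (σ v c).1 - 1)

end Mat

/-! ### Actions of blocks as separate objects -/

section Sub

variable {V W C Vd Wd Cd : Type} {Λ : SimpleGraph W}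

/-- `ρd` is the action of the standard subgroup of the set `S` on the orbit of the point `p`, with
points, letters and vertices identified by `e`, `ι`, `ν` -/
structure Sub (Γ : SimpleGraph V) (π : W → V) (S : Set V) (ρ : RA Λ →* Equiv.Perm C) (p : C)
    (Γd : SimpleGraph Vd) {Λd : SimpleGraph Wd} (πd : Wd → Vd) (ρd : RA Λd →* Equiv.Perm Cd)
    (e : Cd → C) (ι : Wd → W) (ν : Vd → V) : Prop where
  einj : Function.Injective e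
  erng : ∀ c, (∃ n, e n = c) ↔ Ob π ρ S p c
  iinj : Function.Injective ι
  irng : ∀ a, (∃ b, ι b = a) ↔ π a ∈ S
  vinj : Function.Injective ν
  vrng : ∀ v, (∃ w, ν w = v) ↔ v ∈ S
  com : ∀ b, π (ι b) = ν (πd b)
  adjW : ∀ a b, Λd.Adj a b ↔ Λ.Adj (ι a) (ι b)
  adjV : ∀ a b, Γd.Adj a b ↔ Γ.Adj (ν a) (ν b)
  act : ∀ n b, e (rm ρd n (gen b)) = rm ρ (e n) (gen (ι b))

variable {V' W' C' : Type} {Λ' : SimpleGraph W'}

/-- prescribed signs `ε` at the vertices in `Mk` -/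
def Sgn2 (Γ : SimpleGraph V) (π : W → V) (π' : W' → V') (ρ : RA Λ →* Equiv.Perm C)
    (ρ' : RA Λ' →* Equiv.Perm C') (F : C ≃ C') (τ : C → V ≃ V') (Mk : Set V)
    (ε : C → V → ℤˣ) : Prop :=
  ∀ c v a a', v ∈ Mk → π a = v → π' a' = τ c v → ∀ k : ℤ,
    Ps Γ π ρ v c (rm ρ c (gen a ^ k)) → ∀ d, Ps Γ π ρ v c d →
      F (rm ρ d (gen a ^ k)) = rm ρ' (F d) (gen a' ^ (((ε c v : ℤˣ) : ℤ) * k))

end Sub

end RaagBL
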