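import Pool.Agent.Lib.MP_32d917_al_gp.H05
import Pool.Agent.Lib.MP_32d917_al_bl.BDefs

/-!
# O01: orbits, periods, stabilisers (60 min)

`ob_*`: inverses and products (`rm_mul`, `rm_inv_l`, `rm_inv_r`, `pb_mono`). `pr_pos`: the orbit of `c` under the bijection `d ↦ rm ρ d (gen a)` is finite (`C` finite): `Function.minimalPeriod_pos_iff_mem_periodicPts`.
`pr_zpow`: `rm ρ c (gen a ^ k) = c ↔ (pr ρ a c : ℤ) ∣ k`: for `k : ℕ` the iterates of `d ↦ rm ρ d (gen a)` are `rm ρ c (gen a ^ k)` (`Function.IsPeriodicPt`, `Function.isPeriodicPt_iff_minimalPeriod_dvd`); for `k < 0` pass to `-k` (`stb` is a subgroup).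
`pr_of`: the period is determined by this. `pr_comm`: if `g` commutes with `gen a` then `pr ρ a (rm ρ c g) = pr ρ a c`.
`sk_conj`: `g ∈ PB D`, `rm ρ c g = d`, `l ∈ SK D d` give `g * l * g⁻¹ ∈ SK D c`.
`pb_inf`: `PB D ⊓ PB E = PB (D ∩ E)`: `mem_pp` (the support of `x`). `pb_univ`. `pb_sng`: `PB {v}` with a single letter `a` over `v`: powers of `gen a`.
`cen_sng`: for a single letter `a` over `v`: `gen a` commutes with all `x ∈ PB (st v)` (`st_dec2`, `gg_lk_comm`, powers of `gen a`).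
-/

set_option autoImplicit false

namespace RaagBL

open RaagIso RaagGP

variable {V W C : Type} {Γ : SimpleGraph V} {Λ : SimpleGraph W} {π : W → V}
  {ρ : RA Λ →* Equiv.Perm C}

theorem ob_refl (π : W → V) (ρ : RA Λ →* Equiv.Perm C) (D : Set V) (c : C) : Ob π ρ D c c :=
  ⟨1, one_mem _, rm_one ρ c⟩

theorem ob_symm {D : Set V} {c d : C} (h : Ob π ρ D c d) : Ob π ρ D d c := by
  obtain ⟨g, hg, rfl⟩ := h
  exact ⟨g⁻¹, inv_mem hg, rm_inv_r c g⟩

theorem ob_trans {D : Set V} {c d e : C} (h : Ob π ρ D c d) (h' : Ob π ρ D d e) :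
    Ob π ρ D c e := by
  obtain ⟨g, hg, rfl⟩ := h
  obtain ⟨g', hg', rfl⟩ := h'
  exact ⟨g * g', mul_mem hg hg', rm_mul ρ c g g'⟩

theorem ob_mono {D E : Set V} {c d : C} (h : Ob π ρ D c d) (hD : D ⊆ E) : Ob π ρ E c d := by
  obtain ⟨g, hg, rfl⟩ := h
  exact ⟨g, pb_mono hD hg, rfl⟩

theorem ob_rm {D : Set V} {g : RA Λ} (hg : g ∈ PB Λ π D) (c : C) : Ob π ρ D c (rm ρ c g) :=
  ⟨g, hg, rfl⟩

private theorem o01_inj {c d : C} {g : RA Λ} (h : rm ρ c g = rm ρ d g) : c = d := by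
  rw [← rm_inv_r (ρ := ρ) c g, h, rm_inv_r]

private theorem o01_iter (a : W) (c : C) (n : ℕ) :
    (fun d => rm ρ d (gen a))^[n] c = rm ρ c (gen a ^ n) := by
  induction n with
  | zero => rw [pow_zero, rm_one, Function.iterate_zero, id]
  | succ n ih => rw [Function.iterate_succ_apply', ih, pow_succ, rm_mul]

theorem pr_pos [Finite C] (a : W) (c : C) : 0 < pr ρ a c := by
  unfold pr
  apply Function.minimalPeriod_pos_of_mem_periodicPts
  apply Function.Injective.mem_periodicPts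
  intro x y h
  exact o01_inj h

theorem pr_zpow (a : W) (c : C) (k : ℤ) : rm ρ c (gen a ^ k) = c ↔ (pr ρ a c : ℤ) ∣ k := by
  have hn : ∀ n : ℕ, rm ρ c (gen a ^ n) = c ↔ pr ρ a c ∣ n := by
    intro n
    unfold pr
    rw [← Function.isPeriodicPt_iff_minimalPeriod_dvd, Function.IsPeriodicPt, Function.IsFixedPt,
      o01_iter]
  obtain ⟨n, rfl | rfl⟩ := k.eq_nat_or_neg
  · rw [zpow_natCast, hn, Int.natCast_dvd_natCast]
  · rw [Int.dvd_neg, Int.natCast_dvd_natCast, ← hn, zpow_neg, zpow_natCast]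
    exact Subgroup.inv_mem_iff (stb ρ c)

theorem pr_mem (a : W) (c : C) : rm ρ c (gen a ^ pr ρ a c) = c := by
  rw [← zpow_natCast, pr_zpow]

theorem pr_comm {a : W} {g : RA Λ} (hg : g * gen a = gen a * g) (c : C) :
    pr ρ a (rm ρ c g) = pr ρ a c := by
  have h : ∀ k : ℤ, (pr ρ a (rm ρ c g) : ℤ) ∣ k ↔ (pr ρ a c : ℤ) ∣ k := by
    intro k
    have h1 : g * gen a ^ k = gen a ^ k * g := by
      have h2 : Commute g (gen a) := hg
      exact h2.zpow_right k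
    rw [← pr_zpow, ← pr_zpow, ← rm_mul, h1, rm_mul]
    constructor
    · intro h2
      exact o01_inj h2
    · intro h2
      rw [h2]
  apply Nat.dvd_antisymm
  · exact_mod_cast (h _).2 (dvd_refl _)
  · exact_mod_cast (h _).1 (dvd_refl _)

theorem sk_conj {D : Set V} {c d : C} {g l : RA Λ} (hg : g ∈ PB Λ π D) (h : rm ρ c g = d)
    (hl : l ∈ SK π ρ D d) : g * l * g⁻¹ ∈ SK π ρ D c := by
  subst h
  have h2 : l ∈ PB Λ π D := hl.2
  have h3 : g * l * g⁻¹ ∈ PB Λ π D := mul_mem (mul_mem hg h2) (inv_mem hg)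
  refine ⟨?_, h3⟩
  have h1 : rm ρ (rm ρ c g) l = rm ρ c g := hl.1
  show rm ρ c (g * l * g⁻¹) = c
  rw [rm_mul, rm_mul, h1, rm_inv_r]

theorem pb_inf (D E : Set V) : PB Λ π D ⊓ PB Λ π E = PB Λ π (D ∩ E) := by
  apply le_antisymm
  · rintro x ⟨h1, h2⟩
    exact pp_inf (π ⁻¹' D) (π ⁻¹' E) h1 h2
  · exact le_inf (pb_mono Set.inter_subset_left) (pb_mono Set.inter_subset_right)

theorem pb_univ (g : RA Λ) : g ∈ PB Λ π Set.univ := by
  refine ra_ind (C := fun x => x ∈ PB Λ π Set.univ) (one_mem _) (fun v => pb_gen (Set.mem_univ _))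
    (fun x y hx hy => mul_mem hx hy) (fun x hx => inv_mem hx) g

/-- the elements of a vertex subgroup with a single letter -/
theorem pb_zpow {v : V} {a : W} (ha : π a = v) (h1 : ∀ b, π b = v → b = a) {g : RA Λ} :
    g ∈ PB Λ π {v} ↔ ∃ k : ℤ, g = gen a ^ k := by
  constructor
  · intro hg
    refine h05_ind (P := fun g => ∃ k : ℤ, g = gen a ^ k) ?_ ⟨0, (zpow_zero _).symm⟩ ?_ ?_ hg
    · intro b hb
      rw [h1 b hb]
      exact ⟨1, (zpow_one _).symm⟩
    · rintro x y - - ⟨k, rfl⟩ ⟨l, rfl⟩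
      exact ⟨k + l, (zpow_add _ _ _).symm⟩
    · rintro x - ⟨k, rfl⟩
      exact ⟨-k, (zpow_neg _ _).symm⟩
  · rintro ⟨k, rfl⟩
    exact zpow_mem (pb_gen ha) k

theorem cen_sng (hB : BU Γ Λ π) {v : V} {a : W} (ha : π a = v) (h1 : ∀ b, π b = v → b = a)
    {x : RA Λ} (hx : x ∈ PB Λ π (st Γ v)) : x * gen a = gen a * x := by
  obtain ⟨g, hg, l, hl, rfl⟩ := st_dec2 hB hx
  obtain ⟨k, rfl⟩ := (pb_zpow ha h1).1 hg
  have h2 : Commute (gen a : RA Λ) l := gg_lk_comm hB (pb_gen ha) hl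
  have h3 : Commute (gen a : RA Λ) (gen a ^ k) := (Commute.refl _).zpow_right k
  exact (h3.mul_right h2).symm

end RaagBL
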