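import Pool.Agent.Lib.MP_32d917_al_bl.A06
import Pool.Agent.Lib.MP_32d917_al_bl.O01

/-!
# A07: copies of a block in the same coset (60 min)

`blk_int2`: let `s ∈ sup g` (`mem_pp`), `z = π s ∈ st a ∩ st b`. If `z = a` or `z = b`: `z ∈ B j`. Otherwise `z` is adjacent to `a` and `b`, and `z ∉ B j` contradicts `one_nb`.
`chm_two`: let `v ≠ w` in `B i`, `(x, v)`, `(y, v)` equivalent and `(x, w)`, `(y, w)` equivalent (`NB`: all are in `NL`). `Ee (x', t v) (Φ (x, v))`, `Ee (Φ (x, v)) (Φ (y, v))` (`Emp3.ee`), `Ee (Φ (y, v)) (y', s v)`: so `t v = s v` and `x'⁻¹ * y' ∈ PB' (st (t v))`; the same for `w`. `t v ≠ t w` (`bij`) are in `B' j` and `B' k`: `j = k` (`glu_two`), and `blk_int2`.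
`chm_mul`: induction over the closure (`h05_ind`, statement for all `x`, `x'`, `t`, `j`, `y'`, `s`, `k`). `g = gen a`, `v = π a ∈ B i`: `w ∈ B i` adjacent to `v` (`blk_nbr`): `g ∈ PB (st v)`, `g ∈ PB (st w)`: `chm_two`. `g = 1`: `chm_two` for `v` and a neighbour. `g = g1 * g2`: `chm` gives `j1`, `x1'`, `t1` for `x * g1`; combine (`x'⁻¹ * x1' * (x1'⁻¹ * y')`). `g⁻¹`: the
statement for `g` at `x * g⁻¹` (given: `Ch` for `x * g⁻¹` and for `x * g⁻¹ * g = x`), and inverse.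
`chm_wal`: `g ∈ PB (B i ∩ st v)`: `chm_mul`, and (`ee_right`) `(x * g, v)`, `(x, v)` are equivalent, so `s v = t v`, `x'⁻¹ * y' ∈ PB' (st (t v))`; `pb_inf`.
-/

set_option autoImplicit false

namespace RaagBL

open RaagIso RaagGP

variable {V W V' W' : Type} {Γ : SimpleGraph V} {Λ : SimpleGraph W} {π : W → V}
  {Γ' : SimpleGraph V'} {Λ' : SimpleGraph W'} {π' : W' → V'} {m m' : ℕ} {B : Fin m → Set V}
  {B' : Fin m' → Set V'} {Φ : RA Λ × V → RA Λ' × V'} {Ψ : RA Λ' × V' → RA Λ × V}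

theorem blk_int2 (h : Glu Γ B) {j : Fin m} {a b : V} (ha : a ∈ B j) (hb : b ∈ B j) (hab : a ≠ b)
    {g : RA Λ} (h1 : g ∈ PB Λ π (st Γ a)) (h2 : g ∈ PB Λ π (st Γ b)) : g ∈ PB Λ π (B j) := by
  refine mem_pp.2 (fun s hs => ?_)
  have h3 : π s ∈ st Γ a := (mem_pp.1 h1) hs
  have h4 : π s ∈ st Γ b := (mem_pp.1 h2) hs
  show π s ∈ B j
  rcases h3 with h3 | h3
  · rw [h3]; exact ha
  · rcases h4 with h4 | h4
    · rw [h4]; exact hb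
    · by_contra h5
      exact hab (one_nb h h5 ha hb (SimpleGraph.Adj.symm h3) (SimpleGraph.Adj.symm h4))

private theorem a07_ee (hE : Emp3 Γ Γ' π π' Φ Ψ) {S : Set V} {S' S'' : Set V'} {v : V} (hv : v ∈ S)
    (hv' : v ∈ NL Γ) {x y : RA Λ} (h1 : Ee Γ π (x, v) (y, v)) {x' y' : RA Λ'} {t s : V → V'}
    (hx : Ch Γ Γ' π' Φ S S' x x' t) (hy : Ch Γ Γ' π' Φ S S'' y y' s) :
    Ee Γ' π' (x', t v) (y', s v) :=
  ee_trans (ee_symm (hx.ee v hv)) (ee_trans (hE.ee _ _ hv' hv' h1) (hy.ee v hv))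

theorem chm_two (h' : Ctx Γ' Λ' π' B') (hE : Emp3 Γ Γ' π π' Φ Ψ) {i : Fin m} (hn : NB Γ B i)
    {v w : V} (hv : v ∈ B i) (hw : w ∈ B i) (hvw : v ≠ w) {x y : RA Λ}
    (h1 : Ee Γ π (x, v) (y, v)) (h2 : Ee Γ π (x, w) (y, w)) {j k : Fin m'} {x' y' : RA Λ'}
    {t s : V → V'} (hx : Ch Γ Γ' π' Φ (B i) (B' j) x x' t)
    (hy : Ch Γ Γ' π' Φ (B i) (B' k) y y' s) : k = j ∧ x'⁻¹ * y' ∈ PB Λ' π' (B' j) := by
  have e1 := a07_ee hE hv (hn hv) h1 hx hy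
  have e2 := a07_ee hE hw (hn hw) h2 hx hy
  have hne : t v ≠ t w := fun e => hvw (hx.bij.injOn hv hw e)
  have e1' : t v = s v := e1.1
  have e2' : t w = s w := e2.1
  have m1 : t v ∈ B' j := hx.bij.mapsTo hv
  have m2 : t w ∈ B' j := hx.bij.mapsTo hw
  refine ⟨?_, blk_int2 h'.glu m1 m2 hne e1.2 e2.2⟩
  by_contra hkj
  refine hne (glu_two h'.glu hkj ?_ m1 ?_ m2)
  · rw [e1']; exact hy.bij.mapsTo hv
  · rw [e2']; exact hy.bij.mapsTo hw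

private theorem a07_step {v : V} {x g : RA Λ} (hg : g ∈ PB Λ π (st Γ v)) :
    Ee Γ π (x, v) (x * g, v) := ee_symm (ee_right x v hg)

theorem chm_mul [Finite V] [Finite V'] (h : Ctx Γ Λ π B) (h' : Ctx Γ' Λ' π' B')
    (hE : Emp3 Γ Γ' π π' Φ Ψ) {i : Fin m} (hn : NB Γ B i) {g : RA Λ} (hg : g ∈ PB Λ π (B i))
    {x : RA Λ} {j k : Fin m'} {x' y' : RA Λ'} {t s : V → V'}
    (hx : Ch Γ Γ' π' Φ (B i) (B' j) x x' t) (hy : Ch Γ Γ' π' Φ (B i) (B' k) (x * g) y' s) :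
    k = j ∧ x'⁻¹ * y' ∈ PB Λ' π' (B' j) := by
  refine h05_ind (P := fun g => ∀ (x : RA Λ) (j k : Fin m') (x' y' : RA Λ') (t s : V → V'),
    Ch Γ Γ' π' Φ (B i) (B' j) x x' t → Ch Γ Γ' π' Φ (B i) (B' k) (x * g) y' s →
    k = j ∧ x'⁻¹ * y' ∈ PB Λ' π' (B' j)) ?_ ?_ ?_ ?_ hg x j k x' y' t s hx hy
  · intro a ha x j k x' y' t s hx hy
    obtain ⟨w, hw, hadj⟩ := blk_nbr h.glu ha
    refine chm_two h' hE hn ha hw (Γ.ne_of_adj hadj) (a07_step (pb_gen (Or.inl rfl)))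
      (a07_step (pb_gen (Or.inr (SimpleGraph.Adj.symm hadj)))) hx hy
  · intro x j k x' y' t s hx hy
    obtain ⟨v, hv⟩ := blk_ne h.glu i
    obtain ⟨w, hw, hadj⟩ := blk_nbr h.glu hv
    exact chm_two h' hE hn hv hw (Γ.ne_of_adj hadj) (a07_step (one_mem _))
      (a07_step (one_mem _)) hx hy
  · intro g1 g2 _ _ h1 h2 x j k x' y' t s hx hy
    obtain ⟨j1, x1, t1, -, -, hc⟩ := chm h h' hE hn (x * g1)
    obtain ⟨e1, m1⟩ := h1 x j j1 x' x1 t t1 hx hc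
    rw [← mul_assoc] at hy
    obtain ⟨e2, m2⟩ := h2 (x * g1) j1 k x1 y' t1 s hc hy
    refine ⟨e2.trans e1, ?_⟩
    rw [e1] at m2
    have h3 := mul_mem m1 m2
    have h4 : x'⁻¹ * x1 * (x1⁻¹ * y') = x'⁻¹ * y' := by group
    rwa [h4] at h3
  · intro g _ h1 x j k x' y' t s hx hy
    have hx' : Ch Γ Γ' π' Φ (B i) (B' j) (x * g⁻¹ * g) x' t := by
      rw [inv_mul_cancel_right]; exact hx
    obtain ⟨e1, m1⟩ := h1 (x * g⁻¹) k j y' x' s t hy hx'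
    refine ⟨e1.symm, ?_⟩
    have h3 := inv_mem m1
    rw [mul_inv_rev, inv_inv] at h3
    rw [e1]
    exact h3

theorem chm_wal [Finite V] [Finite V'] (h : Ctx Γ Λ π B) (h' : Ctx Γ' Λ' π' B')
    (hE : Emp3 Γ Γ' π π' Φ Ψ) {i : Fin m} (hn : NB Γ B i) {v : V} (hv : v ∈ B i) {g : RA Λ}
    (hg : g ∈ PB Λ π (B i ∩ st Γ v)) {x : RA Λ} {j k : Fin m'} {x' y' : RA Λ'} {t s : V → V'}
    (hx : Ch Γ Γ' π' Φ (B i) (B' j) x x' t) (hy : Ch Γ Γ' π' Φ (B i) (B' k) (x * g) y' s) :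
    k = j ∧ s v = t v ∧ x'⁻¹ * y' ∈ PB Λ' π' (B' j ∩ st Γ' (t v)) := by
  obtain ⟨e1, m1⟩ := chm_mul h h' hE hn (pb_mono Set.inter_subset_left hg) hx hy
  have e2 := a07_ee hE hv (hn hv) (a07_step (pb_mono Set.inter_subset_right hg)) hx hy
  refine ⟨e1, ?_, ?_⟩
  · exact (show t v = s v from e2.1).symm
  · rw [← pb_inf]
    exact ⟨m1, e2.2⟩

end RaagBL
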