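import Pool.Agent.Lib.MP_32d917_al_bl.A07
import Pool.Agent.Lib.MP_32d917_al_bl.A02

/-!
# A08: inverse, injectivity, equivariance (60 min)

`chm_symm`: `t' = Function.invFunOn t (B i)` (or from `bij`); for `v' = t v`, `v ∈ B i`: `Ψ (x', t v)` is equivalent to `Ψ (Φ (x, v))` (`ee'`, `ee_symm`) and to `(x, v)` (`left`), and `t' (t v) = v`. `bij`, `adj` clear.
`chm_inj`, `chm_wali`: `chm_symm` for both, then `chm_mul`, `chm_wal` for `Ψ` (`emp3_symm`) with `x' * (x'⁻¹ * y') = y'`; in `chm_wali` `v' = t v = s w ∈ B' j`, `t' v' = v`, `s' v' = w`.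
`chm_equ`: `equ` for `(x, v)`, `v ∈ B i ⊆ NL`, and `ee_mul`.
`chm_sk`: let `g = x⁻¹ * h * x ∈ PB (B i)`; `Ch` for `x` and (`chm_equ`) for `h * x = x * g` with `φ h * x'`; `chm_mul`. `chm_sk'`: the same for `φ.symm`, `Ψ` (`ind_symm`, `chm_symm`).
-/

set_option autoImplicit false

namespace RaagBL

open RaagIso RaagGP

variable {V W V' W' : Type} {Γ : SimpleGraph V} {Λ : SimpleGraph W} {π : W → V}
  {Γ' : SimpleGraph V'} {Λ' : SimpleGraph W'} {π' : W' → V'} {m m' : ℕ} {B : Fin m → Set V}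
  {B' : Fin m' → Set V'} {Φ : RA Λ × V → RA Λ' × V'} {Ψ : RA Λ' × V' → RA Λ × V}

theorem chm_symm (hE : Emp3 Γ Γ' π π' Φ Ψ) {S : Set V} {S' : Set V'} (hS : S ⊆ NL Γ)
    {x : RA Λ} {x' : RA Λ'} {t : V → V'} (hx : Ch Γ Γ' π' Φ S S' x x' t) :
    ∃ t' : V' → V, Ch Γ' Γ π Ψ S' S x' x t' ∧ (∀ v ∈ S, t' (t v) = v) ∧
      ∀ v' ∈ S', t (t' v') = v' := by
  have key : ∀ v ∈ S, Ee Γ π (Ψ (x', t v)) (x, v) := by
    intro v hv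
    have h1 := hx.ee v hv
    have h3 : (Φ (x, v)).2 ∈ NL Γ' := hE.nl (x, v) (hS hv)
    have h4 : (Φ (x, v)).2 = t v := h1.1
    have h5 : t v ∈ NL Γ' := by rw [← h4]; exact h3
    exact ee_trans (ee_symm (hE.ee' (Φ (x, v)) (x', t v) h3 h5 h1)) (hE.left (x, v) (hS hv))
  have hl : ∀ v ∈ S, (Ψ (x', t v)).2 = v := fun v hv => (key v hv).1
  have hr : ∀ v' ∈ S', ∃ v ∈ S, t v = v' ∧ (Ψ (x', v')).2 = v := by
    intro v' hv'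
    obtain ⟨v, hv, rfl⟩ := hx.bij.surjOn hv'
    exact ⟨v, hv, rfl, hl v hv⟩
  refine ⟨fun v' => (Ψ (x', v')).2, ⟨?_, ⟨?_, ?_, ?_⟩, ?_⟩, hl, ?_⟩
  · intro v' hv'
    obtain ⟨v, hv, rfl, he⟩ := hr v' hv'
    show Ee Γ π (Ψ (x', t v)) (x, (Ψ (x', t v)).2)
    rw [he]
    exact key v hv
  · intro v' hv'
    obtain ⟨v, hv, -, he⟩ := hr v' hv'
    show (Ψ (x', v')).2 ∈ S
    rw [he]
    exact hv
  · intro v' hv' w' hw' hvw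
    obtain ⟨v, hv, hv1, he⟩ := hr v' hv'
    obtain ⟨w, hw, hw1, he'⟩ := hr w' hw'
    have h1 : (Ψ (x', v')).2 = (Ψ (x', w')).2 := hvw
    rw [he, he'] at h1
    rw [← hv1, ← hw1, h1]
  · intro v hv
    exact ⟨t v, hx.bij.mapsTo hv, hl v hv⟩
  · intro v' hv' w' hw'
    obtain ⟨v, hv, rfl, he⟩ := hr v' hv'
    obtain ⟨w, hw, rfl, he'⟩ := hr w' hw'
    show Γ'.Adj (t v) (t w) ↔ Γ.Adj (Ψ (x', t v)).2 (Ψ (x', t w)).2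
    rw [he, he']
    exact (hx.adj v hv w hw).symm
  · intro v' hv'
    obtain ⟨v, hv, rfl, he⟩ := hr v' hv'
    show t (Ψ (x', t v)).2 = t v
    rw [he]

theorem chm_inj [Finite V] [Finite V'] (h : Ctx Γ Λ π B) (h' : Ctx Γ' Λ' π' B')
    (hE : Emp3 Γ Γ' π π' Φ Ψ) {i k : Fin m} (hi : NB Γ B i) (hk : NB Γ B k) {j : Fin m'}
    (hj : NB Γ' B' j) {x y : RA Λ} {x' y' : RA Λ'} {t s : V → V'}
    (hx : Ch Γ Γ' π' Φ (B i) (B' j) x x' t) (hy : Ch Γ Γ' π' Φ (B k) (B' j) y y' s)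
    (hxy : x'⁻¹ * y' ∈ PB Λ' π' (B' j)) : k = i ∧ x⁻¹ * y ∈ PB Λ π (B i) := by
  obtain ⟨t1, hx1, -, -⟩ := chm_symm hE hi hx
  obtain ⟨s1, hy1, -, -⟩ := chm_symm hE hk hy
  have h1 : x' * (x'⁻¹ * y') = y' := mul_inv_cancel_left x' y'
  rw [← h1] at hy1
  exact chm_mul h' h (emp3_symm hE) hj hxy hx1 hy1

theorem chm_wali [Finite V] [Finite V'] (h : Ctx Γ Λ π B) (h' : Ctx Γ' Λ' π' B')
    (hE : Emp3 Γ Γ' π π' Φ Ψ) {i k : Fin m} (hi : NB Γ B i) (hk : NB Γ B k) {j : Fin m'}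
    (hj : NB Γ' B' j) {x y : RA Λ} {x' y' : RA Λ'} {t s : V → V'}
    (hx : Ch Γ Γ' π' Φ (B i) (B' j) x x' t) (hy : Ch Γ Γ' π' Φ (B k) (B' j) y y' s)
    {v w : V} (hv : v ∈ B i) (hw : w ∈ B k) (hvw : t v = s w)
    (hxy : x'⁻¹ * y' ∈ PB Λ' π' (B' j ∩ st Γ' (t v))) :
    k = i ∧ v = w ∧ x⁻¹ * y ∈ PB Λ π (B i ∩ st Γ v) := by
  obtain ⟨t1, hx1, ht1, -⟩ := chm_symm hE hi hx
  obtain ⟨s1, hy1, hs1, -⟩ := chm_symm hE hk hy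
  have h1 : x' * (x'⁻¹ * y') = y' := mul_inv_cancel_left x' y'
  rw [← h1] at hy1
  obtain ⟨e1, e2, e3⟩ := chm_wal h' h (emp3_symm hE) hj (hx.bij.mapsTo hv) hxy hx1 hy1
  rw [ht1 v hv] at e2 e3
  rw [hvw, hs1 w hw] at e2
  exact ⟨e1, e2.symm, e3⟩

variable {H : Subgroup (RA Λ)} {H' : Subgroup (RA Λ')} {φ : H ≃* H'}

theorem chm_equ (hI : Ind3 Γ Γ' π π' φ Φ Ψ) {S : Set V} {S' : Set V'} (hS : S ⊆ NL Γ) {x : RA Λ}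
    {x' : RA Λ'} {t : V → V'} (hx : Ch Γ Γ' π' Φ S S' x x' t) (k : H) :
    Ch Γ Γ' π' Φ S S' (k * x) (φ k * x') t := by
  refine ⟨fun v hv => ?_, hx.bij, hx.adj⟩
  have h1 := hI.equ k (x, v) (hS hv)
  have h2 : Ee Γ' π' ((φ k : RA Λ') * (Φ (x, v)).1, (Φ (x, v)).2) ((φ k : RA Λ') * x', t v) :=
    (ee_mul (φ k : RA Λ') (p := Φ (x, v)) (q := (x', t v))).2 (hx.ee v hv)
  exact ee_trans h1 h2

theorem chm_sk [Finite V] [Finite V'] (h : Ctx Γ Λ π B) (h' : Ctx Γ' Λ' π' B')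
    (hI : Ind3 Γ Γ' π π' φ Φ Ψ) {i : Fin m} (hi : NB Γ B i) {j : Fin m'} {x : RA Λ} {x' : RA Λ'}
    {t : V → V'} (hx : Ch Γ Γ' π' Φ (B i) (B' j) x x' t) (k : H)
    (hk : x⁻¹ * k * x ∈ PB Λ π (B i)) : x'⁻¹ * φ k * x' ∈ PB Λ' π' (B' j) := by
  have hy := chm_equ hI hi hx k
  have h1 : (k : RA Λ) * x = x * (x⁻¹ * k * x) := by group
  rw [h1] at hy
  have h2 := (chm_mul h h' hI.emp hi hk hx hy).2
  rwa [← mul_assoc] at h2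

theorem chm_sk' [Finite V] [Finite V'] (h : Ctx Γ Λ π B) (h' : Ctx Γ' Λ' π' B')
    (hI : Ind3 Γ Γ' π π' φ Φ Ψ) {i : Fin m} (hi : NB Γ B i) {j : Fin m'} (hj : NB Γ' B' j)
    {x : RA Λ} {x' : RA Λ'} {t : V → V'} (hx : Ch Γ Γ' π' Φ (B i) (B' j) x x' t) (k : H)
    (hk : x'⁻¹ * φ k * x' ∈ PB Λ' π' (B' j)) : x⁻¹ * k * x ∈ PB Λ π (B i) := by
  obtain ⟨t1, hx1, -, -⟩ := chm_symm hI.emp hi hx
  have h1 := chm_sk h' h (ind_symm hI) hj hx1 (φ k) hk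
  rwa [MulEquiv.symm_apply_apply] at h1

end RaagBL
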