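import Pool.Agent.Lib.MP_32d917_al_bl.A08

/-!
# A09: cut vertices (60 min)

`cut_le`: suppose `v' = t v` is not a cut vertex of `B'`; to show: `v` is not a cut vertex. First `st Γ' v' ⊆ B' j`: if `u'` is adjacent to `v'` then both are in some `B' k` (`edge`), `k = j` (`v' ∈ B' j` by `bij`, `v'` not cut). Let `g ∈ PB (st v)`. `chm` for `x * g`: `k`, `y'`, `s`. `(x, v)` and `(x * g, v)` are equivalent (`ee_right`), so `Φ (x, v)`, `Φ (x * g, v)` and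
`(x', v')`, `(y', s v)` are equivalent: `s v = v' ∈ B' k`, so `k = j`, and `x'⁻¹ * y' ∈ PB' (st v') ≤ PB' (B' j)`. `chm_inj`: `x⁻¹ * (x * g) ∈ PB (B i)`. So `PB (st v) ≤ PB (B i)`. If `v` were a cut vertex, `v ∈ B l`, `l ≠ i` (`Cut`), `blk_nbr`: `w ∈ B l` adjacent to `v`; a letter over `w` (`surj`) is in `PB (st v)`, so `w ∈ B i` (`gg_ne` or `mem_pp`): `glu_two` gives `v = w`: contradiction.
`cut_iff`: `cut_le` and `cut_le` for `Ψ`, `chm_symm`.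
`cut_phi`: (←) suppose `v ∈ NL Γ` is not cut, so `v ∈ B i` rigid (`nl_cases`); `chm` for `(i, x)`: `Ee (Φ (x, v)) (x', t v)`, so `(Φ (x, v)).2 = t v` is not cut (`cut_iff`). (→) suppose `v' = (Φ (x, v)).2 ∈ NL Γ'` is not cut, `v' ∈ B' j` rigid; `chm` for `Ψ` and `(Φ (x, v)).1`: `Ee (Ψ (Φ (x, v))) (y, t v')`, and `Ψ (Φ (x, v))` is equivalent to `(x, v)`: `v = t v'`, `cut_iff` for `Ψ`.
`st_phi`: for `p.2 ∈ NL Γ`, `k ∈ H`: `p.1⁻¹ * k * p.1 ∈ PB (st p.2)` implies `(Φ p).1⁻¹ * φ k * (Φ p).1 ∈ PB' (st (Φ p).2)`: `Ee p (k * p.1, p.2)`, so `Φ p` and `Φ (k * p.1, p.2)` and `(φ k * (Φ p).1, (Φ p).2)` are equivalent (`ee`, `equ`). `st_phi'`: conversely: `ind_symm`, for `Ψ`, `Φ p`; `Ψ (Φ p)` is equivalent to `p`: `(Ψ (Φ p)).1 = p.1 * q`, `q ∈ PB (st p.2)`.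
-/

set_option autoImplicit false

namespace RaagBL

open RaagIso RaagGP

variable {V W V' W' : Type} {Γ : SimpleGraph V} {Λ : SimpleGraph W} {π : W → V}
  {Γ' : SimpleGraph V'} {Λ' : SimpleGraph W'} {π' : W' → V'} {m m' : ℕ} {B : Fin m → Set V}
  {B' : Fin m' → Set V'} {Φ : RA Λ × V → RA Λ' × V'} {Ψ : RA Λ' × V' → RA Λ × V}

theorem cut_le [Finite V] [Finite V'] (h : Ctx Γ Λ π B) (h' : Ctx Γ' Λ' π' B')
    (hE : Emp3 Γ Γ' π π' Φ Ψ) {i : Fin m} (hi : NB Γ B i) {j : Fin m'} (hj : NB Γ' B' j)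
    {x : RA Λ} {x' : RA Λ'} {t : V → V'} (hx : Ch Γ Γ' π' Φ (B i) (B' j) x x' t) {v : V}
    (hv : v ∈ B i) (hc : Cut B v) : Cut B' (t v) := by
  by_contra hn
  have hvj : t v ∈ B' j := hx.bij.mapsTo hv
  have hk0 : ∀ k, t v ∈ B' k → k = j := by
    intro k hk
    by_contra hkj
    exact hn ⟨k, j, hkj, hk, hvj⟩
  have hst : st Γ' (t v) ⊆ B' j := by
    rintro u (rfl | hu)
    · exact hvj
    · obtain ⟨k, hk1, hk2⟩ := h'.glu.edge _ _ hu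
      rw [hk0 k hk1] at hk2
      exact hk2
  have hkey : ∀ g ∈ PB Λ π (st Γ v), g ∈ PB Λ π (B i) := by
    intro g hg
    obtain ⟨k, y', s, hk, _, hy⟩ := chm h h' hE hi (x * g)
    have hvnl : v ∈ NL Γ := hi hv
    have h1 : Ee Γ' π' (Φ (x * g, v)) (Φ (x, v)) := hE.ee _ _ hvnl hvnl (ee_right x v hg)
    have h2 : Ee Γ' π' (x', t v) (y', s v) :=
      ee_trans (ee_symm (hx.ee v hv)) (ee_trans (ee_symm h1) (hy.ee v hv))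
    have h3 : t v = s v := h2.1
    have h4 : x'⁻¹ * y' ∈ PB Λ' π' (st Γ' (t v)) := h2.2
    have h5 : k = j := hk0 k (by rw [h3]; exact hy.bij.mapsTo hv)
    subst h5
    have h6 := (chm_inj h h' hE hi hi hj hx hy (pb_mono hst h4)).2
    rwa [inv_mul_cancel_left] at h6
  obtain ⟨l, hli, hl⟩ : ∃ l, l ≠ i ∧ v ∈ B l := by
    obtain ⟨a, b, hab, ha, hb⟩ := hc
    by_cases hai : a = i
    · exact ⟨b, fun hbi => hab (hai.trans hbi.symm), hb⟩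
    · exact ⟨a, hai, ha⟩
  obtain ⟨w, hw, hvw⟩ := blk_nbr h.glu hl
  obtain ⟨c, hc⟩ := h.bu.surj w
  have h7 : (gen c : RA Λ) ∈ PB Λ π (st Γ v) := pb_gen (by rw [hc]; exact Or.inr hvw)
  have h10 : (gen c : RA Λ) ∈ PP Λ (π ⁻¹' B i) := hkey _ h7
  have h11 : c ∈ π ⁻¹' B i := gen_mem_iff.1 h10
  have h8 : π c ∈ B i := h11
  rw [hc] at h8
  have h9 : v = w := glu_two h.glu hli hl hv hw h8
  rw [← h9] at hvw
  exact Γ.loopless.irrefl v hvw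

theorem cut_iff [Finite V] [Finite V'] (h : Ctx Γ Λ π B) (h' : Ctx Γ' Λ' π' B')
    (hE : Emp3 Γ Γ' π π' Φ Ψ) {i : Fin m} (hi : NB Γ B i) {j : Fin m'} (hj : NB Γ' B' j)
    {x : RA Λ} {x' : RA Λ'} {t : V → V'} (hx : Ch Γ Γ' π' Φ (B i) (B' j) x x' t) {v : V}
    (hv : v ∈ B i) : Cut B v ↔ Cut B' (t v) := by
  refine ⟨cut_le h h' hE hi hj hx hv, fun hc => ?_⟩
  obtain ⟨t', ht', ht, _⟩ := chm_symm hE hi hx
  have h1 := cut_le h' h (emp3_symm hE) hj hi ht' (hx.bij.mapsTo hv) hc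
  rwa [ht v hv] at h1

theorem cut_phi [Finite V] [Finite V'] (h : Ctx Γ Λ π B) (h' : Ctx Γ' Λ' π' B')
    (hE : Emp3 Γ Γ' π π' Φ Ψ) {x : RA Λ} {v : V} (hv : v ∈ NL Γ) :
    Cut B v ↔ Cut B' (Φ (x, v)).2 := by
  constructor
  · intro hc
    rcases nl_cases h'.glu (hE.nl (x, v) hv) with h1 | ⟨j, hj, hvj⟩
    · exact h1
    · obtain ⟨k, y, s, hk, _, hy⟩ := chm h' h (emp3_symm hE) (nb_of_rig hj) (Φ (x, v)).1
      have h2 : Ee Γ π (Ψ (Φ (x, v))) (y, s (Φ (x, v)).2) := hy.ee _ hvj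
      have h3 : v = s (Φ (x, v)).2 := (ee_trans (ee_symm (hE.left (x, v) hv)) h2).1
      rw [cut_iff h' h (emp3_symm hE) (nb_of_rig hj) hk hy hvj, ← h3]
      exact hc
  · intro hc
    rcases nl_cases h.glu hv with h1 | ⟨i, hi, hvi⟩
    · exact h1
    · obtain ⟨k, y, s, hk, _, hy⟩ := chm h h' hE (nb_of_rig hi) x
      have h2 : (Φ (x, v)).2 = s v := (hy.ee _ hvi).1
      rw [cut_iff h h' hE (nb_of_rig hi) hk hy hvi, ← h2]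
      exact hc

variable {H : Subgroup (RA Λ)} {H' : Subgroup (RA Λ')} {φ : H ≃* H'}

theorem st_phi (hI : Ind3 Γ Γ' π π' φ Φ Ψ) {p : RA Λ × V} (hp : p.2 ∈ NL Γ) (k : H)
    (hk : p.1⁻¹ * k * p.1 ∈ PB Λ π (st Γ p.2)) :
    (Φ p).1⁻¹ * φ k * (Φ p).1 ∈ PB Λ' π' (st Γ' (Φ p).2) := by
  have h1 : Ee Γ π p (k * p.1, p.2) := by
    refine ⟨rfl, ?_⟩
    show p.1⁻¹ * (k * p.1) ∈ PB Λ π (st Γ p.2)
    rw [← mul_assoc]
    exact hk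
  have h2 := ee_trans (hI.emp.ee p (k * p.1, p.2) hp hp h1) (hI.equ k p hp)
  have h3 : (Φ p).1⁻¹ * (φ k * (Φ p).1) ∈ PB Λ' π' (st Γ' (Φ p).2) := h2.2
  rwa [← mul_assoc] at h3

theorem st_phi' (hI : Ind3 Γ Γ' π π' φ Φ Ψ) {p : RA Λ × V} (hp : p.2 ∈ NL Γ) (k : H)
    (hk : (Φ p).1⁻¹ * φ k * (Φ p).1 ∈ PB Λ' π' (st Γ' (Φ p).2)) :
    p.1⁻¹ * k * p.1 ∈ PB Λ π (st Γ p.2) := by
  have h1 := st_phi (ind_symm hI) (p := Φ p) (hI.emp.nl p hp) (φ k) hk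
  rw [MulEquiv.symm_apply_apply] at h1
  obtain ⟨h2, h3⟩ := hI.emp.left p hp
  rw [h2] at h1 h3
  have h4 := mul_mem (mul_mem (inv_mem h3) h1) h3
  have h5 : ((Ψ (Φ p)).1⁻¹ * p.1)⁻¹ * ((Ψ (Φ p)).1⁻¹ * (k : RA Λ) * (Ψ (Φ p)).1) *
      ((Ψ (Φ p)).1⁻¹ * p.1) = p.1⁻¹ * k * p.1 := by group
  rwa [h5] at h4

end RaagBL
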