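import Pool.Agent.Lib.MP_32d917_al_bl.A09

/-!
# A10: the sign of an isomorphism at a cut vertex (60 min)

`a'` is the only letter over `v' = (Φ (x, v)).2` (`cut_phi`, `cut_fib`), `a` the only letter over `v`. Let `x' = (Φ (x, v)).1`, `k = pr ρ a (rm ρ c0 x)`, `k' = pr ρ' a' (rm ρ' c0' x')`, both positive (`pr_pos`). `z = x * gen a ^ k * x⁻¹ ∈ stb ρ c0` (`pr_mem`), `z' = x' * gen a' ^ k' * x'⁻¹ ∈ stb ρ' c0'`. By `ing` `x'⁻¹ * φ z * x' ∈ PB' {v'}`, so it is `gen a' ^ n`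
(`pb_zpow`); it fixes `rm ρ' c0' x'`, so `n = k' * n1` (`pr_zpow`). By `ing'` for `(x', v') = Φ (x, v)`: `(Ψ (Φ (x, v))).1⁻¹ * φ.symm z' * (Ψ (Φ (x, v))).1 ∈ PB {(Ψ (Φ (x, v))).2}`; `Ψ (Φ (x, v))` is equivalent to `(x, v)` (`left`), so (`st_conj_gg`) `x⁻¹ * φ.symm z' * x ∈ PB {v}`, `= gen a ^ l`, `l = k * l1`. So `φ.symm z' = z ^ l1`, `z' = (φ z) ^ l1 =
x' * gen a' ^ (k' * n1 * l1) * x'⁻¹`, so `n1 * l1 = 1` (`gen_zpow_inj`, `k' ≠ 0`), `n1 = ± 1` (`Int.isUnit_iff` or `isUnit_iff_exists`): `e = n1`.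
-/

set_option autoImplicit false

namespace RaagBL

open RaagIso RaagGP

variable {V W V' W' C C' : Type} {Γ : SimpleGraph V} {Λ : SimpleGraph W} {π : W → V}
  {Γ' : SimpleGraph V'} {Λ' : SimpleGraph W'} {π' : W' → V'} {m m' : ℕ} {B : Fin m → Set V}
  {B' : Fin m' → Set V'} {Φ : RA Λ × V → RA Λ' × V'} {Ψ : RA Λ' × V' → RA Λ × V}
  {ρ : RA Λ →* Equiv.Perm C} {ρ' : RA Λ' →* Equiv.Perm C'} {c0 : C} {c0' : C'}
  {φ : stb ρ c0 ≃* stb ρ' c0'}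

private theorem A10_conj {G : Type} [Group G] (x g : G) : x⁻¹ * (x * g * x⁻¹) * x = g := by group

private theorem A10_conj' {G : Type} [Group G] {x g h : G} (H : x⁻¹ * g * x = h) :
    g = x * h * x⁻¹ := by
  rw [← H]
  group

private theorem A10_stb {V C : Type} {Γ : SimpleGraph V} {ρ : RA Γ →* Equiv.Perm C} {c0 : C}
    {x g : RA Γ} : x * g * x⁻¹ ∈ stb ρ c0 ↔ rm ρ (rm ρ c0 x) g = rm ρ c0 x := by
  rw [mem_stb, rm_mul, rm_mul]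
  constructor
  · intro h
    have h1 := congrArg (fun c => rm ρ c x) h
    rw [← rm_mul, inv_mul_cancel, rm_one] at h1
    exact h1
  · intro h
    rw [h, ← rm_mul, mul_inv_cancel, rm_one]

theorem sgn_phi [Finite V] [Finite V'] [Finite C] [Finite C'] (h : Ctx Γ Λ π B)
    (h' : Ctx Γ' Λ' π' B') (hI : Ind3 Γ Γ' π π' φ Φ Ψ) {v : V} (hv : Cut B v) (x : RA Λ) :
    ∃ e : ℤˣ, ∀ a a', π a = v → π' a' = (Φ (x, v)).2 → ∀ k : stb ρ c0,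
      (k : RA Λ) = x * gen a ^ pr ρ a (rm ρ c0 x) * x⁻¹ →
      ((φ k : stb ρ' c0') : RA Λ') = (Φ (x, v)).1 *
        gen a' ^ ((e : ℤ) * pr ρ' a' (rm ρ' c0' (Φ (x, v)).1)) * (Φ (x, v)).1⁻¹ := by
  have hn : v ∈ NL Γ := cut_nl h.glu hv
  have hc' : Cut B' (Φ (x, v)).2 := (cut_phi h h' hI.emp hn).1 hv
  have hn' : (Φ (x, v)).2 ∈ NL Γ' := hI.emp.nl (x, v) hn
  obtain ⟨a, ha, hau⟩ := cut_fib h hv
  obtain ⟨a', ha', hau'⟩ := cut_fib h' hc'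
  obtain ⟨x', hx'⟩ : ∃ x', x' = (Φ (x, v)).1 := ⟨_, rfl⟩
  obtain ⟨k, hk⟩ : ∃ k : ℕ, k = pr ρ a (rm ρ c0 x) := ⟨_, rfl⟩
  obtain ⟨k', hk'⟩ : ∃ k' : ℕ, k' = pr ρ' a' (rm ρ' c0' x') := ⟨_, rfl⟩
  have hk'0 : 0 < k' := by
    rw [hk']
    exact pr_pos a' _
  have hz : x * gen a ^ k * x⁻¹ ∈ stb ρ c0 := by
    rw [A10_stb, hk]
    exact pr_mem a _
  have hz' : x' * gen a' ^ k' * x'⁻¹ ∈ stb ρ' c0' := by
    rw [A10_stb, hk']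
    exact pr_mem a' _
  obtain ⟨Z, hZ⟩ : ∃ Z : stb ρ c0, Z = ⟨x * gen a ^ k * x⁻¹, hz⟩ := ⟨_, rfl⟩
  obtain ⟨Z', hZ'⟩ : ∃ Z' : stb ρ' c0', Z' = ⟨x' * gen a' ^ k' * x'⁻¹, hz'⟩ := ⟨_, rfl⟩
  have hZc : (Z : RA Λ) = x * gen a ^ k * x⁻¹ := by rw [hZ]
  have hZc' : (Z' : RA Λ') = x' * gen a' ^ k' * x'⁻¹ := by rw [hZ']
  -- the image of Z
  have h1 : x'⁻¹ * φ Z * x' ∈ PB Λ' π' {(Φ (x, v)).2} := by
    rw [hx']
    refine hI.ing Z (x, v) hn ?_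
    show x⁻¹ * (Z : RA Λ) * x ∈ PB Λ π {v}
    rw [hZc, A10_conj]
    exact (pb_zpow ha hau).2 ⟨k, (zpow_natCast _ _).symm⟩
  obtain ⟨n, hn1⟩ := (pb_zpow ha' hau').1 h1
  have h2 : ((φ Z : stb ρ' c0') : RA Λ') = x' * gen a' ^ n * x'⁻¹ := A10_conj' hn1
  have h3 : (k' : ℤ) ∣ n := by
    rw [hk']
    refine (pr_zpow a' _ n).1 ?_
    rw [← A10_stb, ← h2]
    exact (φ Z).2
  obtain ⟨n1, hn2⟩ := h3
  -- the image of Z'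
  have h4 : (Ψ (Φ (x, v))).1⁻¹ * φ.symm Z' * (Ψ (Φ (x, v))).1 ∈
      PB Λ π {(Ψ (Φ (x, v))).2} := by
    refine hI.ing' Z' (Φ (x, v)) hn' ?_
    rw [← hx', hZc', A10_conj]
    exact (pb_zpow ha' hau').2 ⟨k', (zpow_natCast _ _).symm⟩
  obtain ⟨h5, h6⟩ := hI.emp.left (x, v) hn
  have h5' : (Ψ (Φ (x, v))).2 = v := h5
  rw [h5'] at h4 h6
  have h7 : x⁻¹ * φ.symm Z' * x ∈ PB Λ π {v} := by
    have h8 := st_conj_gg h.bu (inv_mem h6) h4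
    have h9 : ((Ψ (Φ (x, v))).1⁻¹ * (x, v).1)⁻¹ *
        ((Ψ (Φ (x, v))).1⁻¹ * φ.symm Z' * (Ψ (Φ (x, v))).1) *
        (((Ψ (Φ (x, v))).1⁻¹ * (x, v).1)⁻¹)⁻¹ = x⁻¹ * φ.symm Z' * x := by
      show ((Ψ (Φ (x, v))).1⁻¹ * x)⁻¹ *
        ((Ψ (Φ (x, v))).1⁻¹ * φ.symm Z' * (Ψ (Φ (x, v))).1) *
        (((Ψ (Φ (x, v))).1⁻¹ * x)⁻¹)⁻¹ = x⁻¹ * φ.symm Z' * x
      group
    rwa [h9] at h8
  obtain ⟨l, hl⟩ := (pb_zpow ha hau).1 h7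
  have h10 : ((φ.symm Z' : stb ρ c0) : RA Λ) = x * gen a ^ l * x⁻¹ := A10_conj' hl
  have h11 : (k : ℤ) ∣ l := by
    rw [hk]
    refine (pr_zpow a _ l).1 ?_
    rw [← A10_stb, ← h10]
    exact (φ.symm Z').2
  obtain ⟨l1, hl1⟩ := h11
  have h12 : φ.symm Z' = Z ^ l1 := by
    apply Subtype.ext
    rw [h10, SubgroupClass.coe_zpow, hZc, conj_zpow, hl1, zpow_mul, zpow_natCast]
  have h13 : Z' = φ Z ^ l1 := by
    rw [← map_zpow, ← h12, MulEquiv.apply_symm_apply]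
  have h14 : (gen a' : RA Λ') ^ (k' : ℤ) = gen a' ^ (n * l1) := by
    have h15 := congrArg (Subtype.val) h13
    rw [SubgroupClass.coe_zpow, h2, conj_zpow] at h15
    have h16 : x' * gen a' ^ k' * x'⁻¹ = x' * (gen a' ^ n) ^ l1 * x'⁻¹ := by
      rw [← h15, hZ']
    have h17 := mul_left_cancel (mul_right_cancel h16)
    rw [zpow_natCast, h17, zpow_mul]
  have h18 := gen_zpow_inj h14
  have h19 : n1 * l1 = 1 := by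
    rw [hn2] at h18
    have h20 : (k' : ℤ) * (n1 * l1) = k' * 1 := by
      rw [mul_one, ← mul_assoc]
      exact h18.symm
    exact mul_left_cancel₀ (by exact_mod_cast hk'0.ne') h20
  refine ⟨⟨n1, l1, h19, by rw [mul_comm]; exact h19⟩, ?_⟩
  intro b b' hb hb' q hq
  obtain rfl := hau b hb
  obtain rfl := hau' b' hb'
  have hqZ : q = Z := by
    apply Subtype.ext
    rw [hq, hZc, hk]
  rw [hqZ, h2, hn2, ← hx', ← hk']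
  show x' * gen b' ^ ((k' : ℤ) * n1) * x'⁻¹ = x' * gen b' ^ (n1 * (k' : ℤ)) * x'⁻¹
  rw [mul_comm]

end RaagBL
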