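import Pool.Agent.Lib.MP_32d917_al_bl.BDefs

/-!
# BG1: rigid sets and two blocks (50 min)

`glu_two`: let `i < j` (or `j < i`); `h.glu j` gives a unique element of `B j` which is in an earlier block.
`rig_nedg`: for `S = {a, b}` apply `hR.dom` to `a`, `b` (as elements of `S`): a neighbour `u ∈ {a, b}` of `a` with `u ∉ st b`:
`u = a` is not adjacent to `a`, `u = b ∈ st b`.
`rig_deg`: `hR.two` gives `w ∈ S`, `w ≠ v`. `hR.dom v w`: `a ∈ S` adjacent to `v`. `hR.dom v a`: `b ∈ S` adjacent to `v`, `b ∉ st a`.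
(`(Γ.induce S).Adj` is the adjacency of the values, `st`, `lk` of the induced graph are the preimages.)
`rig_nsp`: let `a`, `b ∈ S` be different from `c`. First let `c ∈ S`. (1) Every `a ∈ S`, `a ≠ c`, is connected in `S \ {c}` to some
`a' ∈ S`, `a' ∉ st c`: if `a ∉ st c` take `a`; otherwise `a` is adjacent to `c`, `hR.dom a c` gives a neighbour `a' ∈ S` of `a` with
`a' ∉ st c`. (2) `a'` and `b'` are connected: `hR.sep c` for the set `K` of all `x : S` such that `a'` and `x` are connected by a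
path in `S \ {c}` (ReflTransGen of the relation in `NSp`). Symmetry of the relation (`Relation.ReflTransGen.symmetric`).
Now let `c ∉ S`. There is `c0 ∈ S` different from `a` and `b` (`rig_deg` for `a`: two different neighbours of `a`, they are
different from `a`, one of them is not `b`). A path which avoids `c0` (first case) is a path in `S` and avoids `c`
(`Relation.ReflTransGen.mono`).
`rig_nl`: `rig_deg`. `edg_nl`: clear. `blk_nbr`: every element of a block has a neighbour in the block. `blk_ne`: blocks are not empty.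
-/

set_option autoImplicit false

namespace RaagBL

open RaagIso RaagGP

variable {V : Type} {Γ : SimpleGraph V} {m : ℕ} {B : Fin m → Set V}

theorem glu_two (h : Glu Γ B) {i j : Fin m} (hij : i ≠ j) {u v : V} (hu : u ∈ B i) (hu' : u ∈ B j)
    (hv : v ∈ B i) (hv' : v ∈ B j) : u = v := by
  rcases lt_or_gt_of_ne hij with hlt | hlt
  · obtain ⟨w, -, hw⟩ := h.glu j ⟨i, hlt⟩
    exact (hw u ⟨hu', i, hlt, hu⟩).trans (hw v ⟨hv', i, hlt, hv⟩).symm
  · obtain ⟨w, -, hw⟩ := h.glu i ⟨j, hlt⟩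
    exact (hw u ⟨hu, j, hlt, hu'⟩).trans (hw v ⟨hv, j, hlt, hv'⟩).symm

private theorem bgq_dom {S : Set V} (hR : Rig Γ S) {v w : V} (hv : v ∈ S) (hw : w ∈ S)
    (hne : v ≠ w) : ∃ u ∈ S, Γ.Adj v u ∧ u ≠ w ∧ ¬ Γ.Adj w u := by
  obtain ⟨⟨u, hu⟩, h1, h2⟩ := hR.dom ⟨v, hv⟩ ⟨w, hw⟩ (fun h => hne (congrArg Subtype.val h))
  refine ⟨u, hu, h1, ?_, ?_⟩
  · rintro rfl
    exact h2 (Or.inl rfl)
  · intro h3
    exact h2 (Or.inr h3)

theorem rig_nedg {S : Set V} (hR : Rig Γ S) : ¬ Edg Γ S := by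
  rintro ⟨a, b, hab, hS⟩
  have ha : a ∈ S := by rw [hS]; exact Set.mem_insert _ _
  have hb : b ∈ S := by rw [hS]; exact Set.mem_insert_of_mem _ rfl
  obtain ⟨u, hu, h1, h2, -⟩ := bgq_dom hR ha hb hab.ne
  rw [hS] at hu
  rcases hu with rfl | hu
  · exact Γ.loopless.irrefl _ h1
  · exact h2 hu

theorem rig_deg {S : Set V} (hR : Rig Γ S) {v : V} (hv : v ∈ S) :
    ∃ a ∈ S, ∃ b ∈ S, a ≠ b ∧ Γ.Adj v a ∧ Γ.Adj v b ∧ ¬ Γ.Adj a b := by
  obtain ⟨w, hw, hvw⟩ : ∃ w ∈ S, v ≠ w := by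
    obtain ⟨⟨a, ha⟩, ⟨b, hb⟩, hab⟩ := hR.two
    by_cases h : v = a
    · refine ⟨b, hb, ?_⟩
      rintro rfl
      exact hab (Subtype.ext h.symm)
    · exact ⟨a, ha, h⟩
  obtain ⟨a, ha, h1, -, -⟩ := bgq_dom hR hv hw hvw
  obtain ⟨b, hb, h2, h3, h4⟩ := bgq_dom hR hv ha h1.ne
  exact ⟨a, ha, b, hb, h3.symm, h1, h2, h4⟩

private theorem bgq_symm {X : Type} {R : X → X → Prop} (hR : ∀ x y, R x y → R y x) {a b : X}
    (h : Relation.ReflTransGen R a b) : Relation.ReflTransGen R b a := by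
  induction h with
  | refl => exact Relation.ReflTransGen.refl
  | tail _ h2 ih => exact Relation.ReflTransGen.head (hR _ _ h2) ih

private theorem bgq_mono {X : Type} {R R' : X → X → Prop} (hR : ∀ x y, R x y → R' x y) {a b : X}
    (h : Relation.ReflTransGen R a b) : Relation.ReflTransGen R' a b := by
  induction h with
  | refl => exact Relation.ReflTransGen.refl
  | tail _ h2 ih => exact ih.tail (hR _ _ h2)

private theorem bgq_in {S : Set V} (hR : Rig Γ S) {c : V} (hc : c ∈ S) {a b : V} (ha : a ∈ S)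
    (hb : b ∈ S) (hac : a ≠ c) (hbc : b ≠ c) :
    Relation.ReflTransGen (fun x y => Γ.Adj x y ∧ x ∈ S ∧ y ∈ S ∧ x ≠ c ∧ y ≠ c) a b := by
  have hstep : ∀ a ∈ S, a ≠ c → ∃ a' ∈ S, a' ≠ c ∧ ¬ Γ.Adj c a' ∧
      Relation.ReflTransGen (fun x y => Γ.Adj x y ∧ x ∈ S ∧ y ∈ S ∧ x ≠ c ∧ y ≠ c) a a' := by
    intro a ha hac
    by_cases h : Γ.Adj c a
    · obtain ⟨a', ha', h1, h2, h3⟩ := bgq_dom hR ha hc hac
      exact ⟨a', ha', h2, h3, Relation.ReflTransGen.single ⟨h1, ha, ha', hac, h2⟩⟩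
    · exact ⟨a, ha, hac, h, Relation.ReflTransGen.refl⟩
  obtain ⟨a', ha', hac', hca', hpa⟩ := hstep a ha hac
  obtain ⟨b', hb', hbc', hcb', hpb⟩ := hstep b hb hbc
  have hst : ∀ x : S, x.1 ≠ c → ¬ Γ.Adj c x.1 → x ∉ st (Γ.induce S) ⟨c, hc⟩ := by
    rintro x h1 h2 (h3 | h3)
    · exact h1 (congrArg Subtype.val h3)
    · exact h2 h3
  have hmid := hR.sep ⟨c, hc⟩ {x : S | Relation.ReflTransGen
    (fun x y => Γ.Adj x y ∧ x ∈ S ∧ y ∈ S ∧ x ≠ c ∧ y ≠ c) a' x.1} (by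
      rintro ⟨x, hx⟩ ⟨y, hy⟩ h1 h2 h3 h4
      refine Relation.ReflTransGen.tail h1 ⟨h4, hx, hy, ?_, ?_⟩
      · rintro rfl
        exact h2 (Or.inl rfl)
      · rintro rfl
        exact h3 (Or.inl rfl)) ⟨a', ha'⟩ ⟨b', hb'⟩ Relation.ReflTransGen.refl
      (hst _ hac' hca') (hst _ hbc' hcb')
  exact hpa.trans (Relation.ReflTransGen.trans hmid (bgq_symm (by
    rintro x y ⟨h1, h2, h3, h4, h5⟩
    exact ⟨h1.symm, h3, h2, h5, h4⟩) hpb))

theorem rig_nsp {S : Set V} (hR : Rig Γ S) : NSp Γ S := by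
  intro c a ha b hb hac hbc
  by_cases hc : c ∈ S
  · exact bgq_in hR hc ha hb hac hbc
  · obtain ⟨x, hx, y, hy, hxy, h1, h2, -⟩ := rig_deg hR ha
    obtain ⟨c0, hc0, h3, h4⟩ : ∃ c0 ∈ S, a ≠ c0 ∧ b ≠ c0 := by
      by_cases h : b = x
      · exact ⟨y, hy, h2.ne, by rw [h]; exact hxy⟩
      · exact ⟨x, hx, h1.ne, h⟩
    refine bgq_mono ?_ (bgq_in hR hc0 ha hb h3 h4)
    rintro u v ⟨h5, h6, h7, -, -⟩
    refine ⟨h5, h6, h7, ?_, ?_⟩
    · rintro rfl
      exact hc h6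
    · rintro rfl
      exact hc h7

theorem rig_nl {S : Set V} (hR : Rig Γ S) : S ⊆ NL Γ := by
  intro v hv
  obtain ⟨a, -, b, -, hab, h1, h2, -⟩ := rig_deg hR hv
  exact ⟨a, b, hab, h1, h2⟩

theorem blk_nbr (h : Glu Γ B) {i : Fin m} {v : V} (hv : v ∈ B i) : ∃ w ∈ B i, Γ.Adj v w := by
  rcases h.ty i with ⟨a, b, hab, hS⟩ | hR
  · rw [hS] at hv ⊢
    rcases hv with rfl | hv
    · exact ⟨b, Set.mem_insert_of_mem _ rfl, hab⟩
    · rw [Set.mem_singleton_iff] at hv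
      subst hv
      exact ⟨a, Set.mem_insert _ _, hab.symm⟩
  · obtain ⟨a, ha, -, -, -, h1, -, -⟩ := rig_deg hR hv
    exact ⟨a, ha, h1⟩

theorem blk_ne (h : Glu Γ B) (i : Fin m) : ∃ v, v ∈ B i := by
  rcases h.ty i with ⟨a, b, hab, hS⟩ | hR
  · exact ⟨a, by rw [hS]; exact Set.mem_insert _ _⟩
  · obtain ⟨⟨a, ha⟩, -⟩ := hR.two
    exact ⟨a, ha⟩

end RaagBL
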