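import Pool.Agent.Lib.MP_32d917_al_bl.BG1

/-!
# BG2: cycles of blocks, neighbours of a block, sets which are not separated by a vertex (60 min)

`cyc3`: of the three different blocks `i`, `j`, `k` let `l` be the largest one. It contains two of the three vertices, and both of
them are in smaller blocks; `h.glu l` (uniqueness) gives that they are equal.
`cyc4`: the same for a cyclic sequence `i j k l` of blocks, consecutive ones different: `x ∈ B i ∩ B j`, `y ∈ B j ∩ B k`,
`z ∈ B k ∩ B l`, `w ∈ B l ∩ B i`, pairwise different. Let `n` be the largest of the four indices; the two neighbours of a place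
where `n` occurs have smaller indices (they are different from `n`), so the two vertices of `B n` at this place are in earlier
blocks, so they are equal: contradiction. (Cases by `rcases le_total`; or let `omega` work with the values.)
`one_nb`: `z ∉ B i` is adjacent to `s`, `s' ∈ B i`, `s ≠ s'`. Edges `{z, s} ⊆ B j`, `{z, s'} ⊆ B k` (`h.edge`), `j ≠ i`, `k ≠ i`. If
`j = k`: `glu_two` for `i ≠ j` and `s`, `s'`. Otherwise `cyc3` for `i`, `j`, `k` and `s ∈ B i ∩ B j`, `z ∈ B j ∩ B k`, `s' ∈ B k ∩ B i`.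
`nsp_blk`: for a vertex `x` let `home x` be the least index `i` with `x ∈ B i` (`h.cov`; well founded minimum on `Fin m`). Choose `s ∈ S`
with `i = home s` maximal. If `i` is the least element of `Fin m` then all `x ∈ S` have `home x = i`, done. Otherwise let `t` be
the element of `B i` in earlier blocks (`h.glu i`). `s ≠ t` since `home s = i`. Suppose `s' ∈ S`, `s' ∉ B i`; `s' ≠ t`. By `hS t` there is a
path from `s` to `s'` in `S` avoiding `t`. Let `K = {x | x ∈ B i ∧ x ≠ t}`; `s ∈ K`, `s' ∉ K`. By induction over the path it is enough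
that `K` is closed under steps: let `x ∈ K`, `y ∈ S`, `y ≠ t`, `x` and `y` adjacent, `{x, y} ⊆ B k`. Suppose `y ∉ B i`, so `k ≠ i`.
`home x = i` (`x` is in no earlier block, otherwise `x = t`), so `i < k`. `home y ≤ i < k`. So `x` and `y` are elements of `B k` in
earlier blocks: `x = y` (`h.glu k`), contradiction.
`nsp_image`: `c' = t c` with `c ∈ S`: use `hS c`, and map the path by `t` (`Relation.ReflTransGen.lift`). `c' ∉ t '' S`: choose
`c ∈ S` different from `a`, `b` (three elements) and use `hS c`.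
-/

set_option autoImplicit false

namespace RaagBL

open RaagIso RaagGP

variable {V V' : Type} {Γ : SimpleGraph V} {Γ' : SimpleGraph V'} {m : ℕ} {B : Fin m → Set V}

private theorem bgr_max (h : Glu Γ B) {l a b : Fin m} (ha : a < l) (hb : b < l) {u v : V}
    (hu : u ∈ B l) (hu' : u ∈ B a) (hv : v ∈ B l) (hv' : v ∈ B b) : u = v := by
  obtain ⟨w, -, hw⟩ := h.glu l ⟨a, ha⟩
  exact (hw u ⟨hu, a, ha, hu'⟩).trans (hw v ⟨hv, b, hb, hv'⟩).symm

private theorem bgr_lift {X Y : Type} {R : X → X → Prop} {R' : Y → Y → Prop} (f : X → Y)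
    (hR : ∀ x y, R x y → R' (f x) (f y)) {a b : X} (h : Relation.ReflTransGen R a b) :
    Relation.ReflTransGen R' (f a) (f b) := by
  induction h with
  | refl => exact Relation.ReflTransGen.refl
  | tail _ h2 ih => exact ih.tail (hR _ _ h2)

theorem cyc3 (h : Glu Γ B) {i j k : Fin m} (hij : i ≠ j) (hjk : j ≠ k) (hki : k ≠ i) {x y z : V}
    (hx : x ∈ B i) (hx' : x ∈ B j) (hy : y ∈ B j) (hy' : y ∈ B k) (hz : z ∈ B k) (hz' : z ∈ B i) :
    x = y ∨ y = z ∨ z = x := by
  rcases lt_or_gt_of_ne hij with h1 | h1 <;> rcases lt_or_gt_of_ne hjk with h2 | h2 <;>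
    rcases lt_or_gt_of_ne hki with h3 | h3
  · exact absurd (h1.trans (h2.trans h3)) (lt_irrefl _)
  · exact Or.inr (Or.inl (bgr_max h h2 h3 hy' hy hz hz'))
  · exact Or.inl (bgr_max h h1 h2 hx' hx hy hy')
  · exact Or.inl (bgr_max h h1 h2 hx' hx hy hy')
  · exact Or.inr (Or.inr (bgr_max h h3 h1 hz' hz hx hx'))
  · exact Or.inr (Or.inl (bgr_max h h2 h3 hy' hy hz hz'))
  · exact Or.inr (Or.inr (bgr_max h h3 h1 hz' hz hx hx'))
  · exact absurd (h1.trans (h3.trans h2)) (lt_irrefl _)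

theorem cyc4 (h : Glu Γ B) {i j k l : Fin m} (hij : i ≠ j) (hjk : j ≠ k) (hkl : k ≠ l)
    (hli : l ≠ i) {x y z w : V} (hx : x ∈ B i) (hx' : x ∈ B j) (hy : y ∈ B j) (hy' : y ∈ B k)
    (hz : z ∈ B k) (hz' : z ∈ B l) (hw : w ∈ B l) (hw' : w ∈ B i) :
    x = y ∨ y = z ∨ z = w ∨ w = x := by
  by_cases hi : j < i ∧ l < i
  · exact Or.inr (Or.inr (Or.inr (bgr_max h hi.2 hi.1 hw' hw hx hx')))
  by_cases hj : i < j ∧ k < j
  · exact Or.inl (bgr_max h hj.1 hj.2 hx' hx hy hy')
  by_cases hk : j < k ∧ l < k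
  · exact Or.inr (Or.inl (bgr_max h hk.1 hk.2 hy' hy hz hz'))
  by_cases hl : k < l ∧ i < l
  · exact Or.inr (Or.inr (Or.inl (bgr_max h hl.1 hl.2 hz' hz hw hw')))
  exfalso
  simp only [Fin.lt_def, ne_eq, Fin.ext_iff] at *
  omega

theorem one_nb (h : Glu Γ B) {i : Fin m} {z s s' : V} (hz : z ∉ B i) (hs : s ∈ B i)
    (hs' : s' ∈ B i) (h1 : Γ.Adj z s) (h2 : Γ.Adj z s') : s = s' := by
  obtain ⟨j, hj1, hj2⟩ := h.edge z s h1
  obtain ⟨k, hk1, hk2⟩ := h.edge z s' h2
  have hji : i ≠ j := by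
    rintro rfl
    exact hz hj1
  have hki : k ≠ i := by
    rintro rfl
    exact hz hk1
  by_cases hjk : j = k
  · subst hjk
    exact glu_two h hji hs hj2 hs' hk2
  · rcases cyc3 h hji hjk hki hs hj2 hj1 hk1 hk2 hs' with h3 | h3 | h3
    · exact absurd (h3 ▸ hs) hz
    · exact absurd (h3.symm ▸ hs') hz
    · exact h3.symm

theorem nsp_blk (h : Glu Γ B) {S : Set V} (hS : NSp Γ S) (hne : S.Nonempty) : ∃ i, S ⊆ B i := by
  classical
  have hhome : ∀ x, ∃ i, x ∈ B i ∧ ∀ j, x ∈ B j → i ≤ j := by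
    intro x
    obtain ⟨i0, hi0⟩ := h.cov x
    obtain ⟨i, hi, hmin⟩ := Finset.exists_min_image (Finset.univ.filter (fun i => x ∈ B i)) id
      ⟨i0, by simp [hi0]⟩
    rw [Finset.mem_filter] at hi
    refine ⟨i, hi.2, fun j hj => hmin j ?_⟩
    rw [Finset.mem_filter]
    exact ⟨Finset.mem_univ _, hj⟩
  choose home hh1 hh2 using hhome
  obtain ⟨s0, hs0⟩ := hne
  obtain ⟨i, hi, hmax⟩ := Finset.exists_max_image
    (Finset.univ.filter (fun i => ∃ s ∈ S, home s = i)) id
    ⟨home s0, by rw [Finset.mem_filter]; exact ⟨Finset.mem_univ _, s0, hs0, rfl⟩⟩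
  rw [Finset.mem_filter] at hi
  obtain ⟨-, s, hs, hsi⟩ := hi
  have hmax' : ∀ x ∈ S, home x ≤ i := by
    intro x hx
    refine hmax (home x) ?_
    rw [Finset.mem_filter]
    exact ⟨Finset.mem_univ _, x, hx, rfl⟩
  refine ⟨i, ?_⟩
  by_cases hex : ∃ j, j < i
  · obtain ⟨t, ⟨ht, j0, hj0, htj0⟩, hun⟩ := h.glu i hex
    have hst : s ≠ t := by
      rintro rfl
      have := hh2 s j0 htj0
      rw [hsi] at this
      exact absurd hj0 (not_lt.2 this)
    intro s' hs'
    by_cases hs't : s' = t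
    · rw [hs't]
      exact ht
    have hpath := hS t s hs s' hs' hst hs't
    have hkey : ∀ x, Relation.ReflTransGen
        (fun x y => Γ.Adj x y ∧ x ∈ S ∧ y ∈ S ∧ x ≠ t ∧ y ≠ t) s x → x ∈ B i := by
      intro x hx
      induction hx with
      | refl => rw [← hsi]; exact hh1 s
      | tail _ h2 ih =>
        rename_i x y _
        obtain ⟨hxy, hxS, hyS, hxt, hyt⟩ := h2
        by_contra hy
        obtain ⟨k, hk1, hk2⟩ := h.edge x y hxy
        have hki : k ≠ i := by
          rintro rfl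
          exact hy hk2
        have hhx : home x = i := by
          by_contra hne2
          have hlt : home x < i := lt_of_le_of_ne (hh2 x i ih) hne2
          exact hxt (hun x ⟨ih, home x, hlt, hh1 x⟩)
        have hik : i < k := by
          refine lt_of_le_of_ne ?_ hki.symm
          rw [← hhx]
          exact hh2 x k hk1
        have hyk : home y < k := lt_of_le_of_lt (hmax' y hyS) hik
        have := bgr_max h hik hyk hk1 ih hk2 (hh1 y)
        exact hxy.ne this
    exact hkey s' hpath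
  · intro x hx
    have h1 := hmax' x hx
    have h2 : home x = i := by
      by_contra hne2
      exact hex ⟨home x, lt_of_le_of_ne h1 hne2⟩
    rw [← h2]
    exact hh1 x

theorem nsp_image {S : Set V} (hS : NSp Γ S) (h3 : ∃ a ∈ S, ∃ b ∈ S, ∃ c ∈ S, a ≠ b ∧ a ≠ c ∧ b ≠ c)
    {t : V → V'} (ht : Set.InjOn t S)
    (hadj : ∀ v ∈ S, ∀ w ∈ S, Γ.Adj v w → Γ'.Adj (t v) (t w)) : NSp Γ' (t '' S) := by
  rintro c' _ ⟨a, ha, rfl⟩ _ ⟨b, hb, rfl⟩ hac hbc
  by_cases hc' : c' ∈ t '' S
  · obtain ⟨c, hc, rfl⟩ := hc'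
    have hac' : a ≠ c := by
      rintro rfl
      exact hac rfl
    have hbc' : b ≠ c := by
      rintro rfl
      exact hbc rfl
    refine bgr_lift t ?_ (hS c a ha b hb hac' hbc')
    rintro x y ⟨h1, h2, h4, h5, h6⟩
    exact ⟨hadj x h2 y h4 h1, ⟨x, h2, rfl⟩, ⟨y, h4, rfl⟩, fun h7 => h5 (ht h2 hc h7),
      fun h7 => h6 (ht h4 hc h7)⟩
  · obtain ⟨c, hc, hac', hbc'⟩ : ∃ c ∈ S, a ≠ c ∧ b ≠ c := by
      obtain ⟨u, hu, v, hv, w, hw, huv, huw, hvw⟩ := h3
      by_cases h1 : a ≠ u ∧ b ≠ u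
      · exact ⟨u, hu, h1⟩
      by_cases h2 : a ≠ v ∧ b ≠ v
      · exact ⟨v, hv, h2⟩
      refine ⟨w, hw, ?_, ?_⟩
      · rintro rfl
        have e1 : b = u := by
          by_contra hcon
          exact h1 ⟨huw.symm, hcon⟩
        have e2 : b = v := by
          by_contra hcon
          exact h2 ⟨hvw.symm, hcon⟩
        exact huv (e1.symm.trans e2)
      · rintro rfl
        have e1 : a = u := by
          by_contra hcon
          exact h1 ⟨hcon, huw.symm⟩
        have e2 : a = v := by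
          by_contra hcon
          exact h2 ⟨hcon, hvw.symm⟩
        exact huv (e1.symm.trans e2)
    refine bgr_lift t ?_ (hS c a ha b hb hac' hbc')
    rintro x y ⟨h1, h2, h4, h5, h6⟩
    exact ⟨hadj x h2 y h4 h1, ⟨x, h2, rfl⟩, ⟨y, h4, rfl⟩, fun h7 => hc' ⟨x, h2, h7⟩,
      fun h7 => hc' ⟨y, h4, h7⟩⟩

end RaagBL
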