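import Pool.Agent.Lib.MP_32d917_al_bl.BG2

/-!
# BG3: domination, leaves, cut vertices (75 min)

`nd`: `v ∈ NL Γ`, so there are neighbours `s1 ≠ s2` of `v`, `{v, s1} ⊆ B i`, `{v, s2} ⊆ B j` (`h.edge`). (1) Suppose that `v` is in a
rigid block `B k`. If `u ∈ B k` use `dom`. Otherwise `rig_deg`: neighbours `a ≠ b` of `v` in `B k`; they are different from `u`, and `u` is
adjacent to at most one of them (`one_nb`). (2) Otherwise `B i = {v, s1}`, `B j = {v, s2}`, `i ≠ j`. If `u = s1` take `s = s2`: if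
`s2 ∈ st s1` then `s1`, `s2` are adjacent, `{s1, s2} ⊆ B k`, `k ≠ i`, `k ≠ j`: contradiction to `cyc3`. In the same way `u = s2`. Otherwise
one of `s1`, `s2` is not adjacent to `u`: if `u` is adjacent to both, `{u, s1} ⊆ B k`, `{u, s2} ⊆ B l`, `k, l ∉ {i, j}` (as `u` is not in
`B i`, `B j`); if `k = l` then `cyc3` for `i`, `j`, `k` (`v`, `s2`, `s1`), otherwise `cyc4` for `i`, `k`, `l`, `j` and `s1`, `u`, `s2`, `v`.
`cut_nl`: `blk_nbr` for both blocks: neighbours `a ∈ B i`, `b ∈ B j` of `v`; `a = b` contradicts `glu_two` (`v ≠ a`).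
`edg_cut`: `B i = {v, w}`; `v` has a neighbour `s ≠ w` (`NL`), `{v, s} ⊆ B j`, `j ≠ i` since `s ∉ {v, w}`.
`nl_cases`: (→) two neighbours in blocks `i`, `j`. If `i ≠ j`: `Cut`. If `i = j`: `B i` has three elements, so it is not an edge, so rigid.
`leaf`: `v ∉ NL Γ`. `v ∈ B i` (`cov`), `B i` is not rigid (`rig_nl`), so `B i = {v, w}` (`Edg`, swap if necessary). All neighbours of `v` are
equal to `w` (otherwise `v ∈ NL`): `lk Γ v = {w}`. If `v ∈ B j` then `B j` is an edge `{v, x}`, `x = w`, so `j = i` (`glu_two` with `v`, `w`).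
`w ∈ NL Γ`: suppose not; then in the same way `w` is only in `B i`. By `big` there is a vertex `x ∉ {v, w}`, `x ∈ B j`, `j ≠ i`. Let `l = max i j`;
`h.glu l`... : if some block is smaller than `i` then `h.glu i` gives a vertex of `B i = {v, w}` in an earlier block: contradiction. So `i` is the
least element of `Fin m`. Let `j` be the smallest element `≠ i` (exists); `h.glu j` gives a vertex of `B j` in an earlier block, which
is `B i`: a vertex of `{v, w}` in `B j`, contradiction. `Cut B w`: `w` has a neighbour `s ≠ v`, `{w, s} ⊆ B j`, `j ≠ i`.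
`cut_fib`: the fibre over a cut vertex is a point (`sng`, `surj`). `leaf_fib`: the same for `v ∉ NL` (`B i` is an edge).
`nb_of_rig`: `rig_nl`. `nb_iff`: (→) `h.ty`, `edg_cut`; (←) `nb_of_rig`, `cut_nl`.
-/

set_option autoImplicit false

namespace RaagBL

open RaagIso RaagGP

variable {V W : Type} {Γ : SimpleGraph V} {Λ : SimpleGraph W} {π : W → V} {m : ℕ}
  {B : Fin m → Set V}

private theorem bg3_edg {S : Set V} (hS : Edg Γ S) {v s : V} (hv : v ∈ S) (hs : s ∈ S)
    (hne : v ≠ s) : S = {v, s} := by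
  obtain ⟨a, b, -, rfl⟩ := hS
  rcases hv with rfl | hv
  · rcases hs with rfl | hs
    · exact absurd rfl hne
    · rw [Set.mem_singleton_iff] at hs
      rw [hs]
  · rw [Set.mem_singleton_iff] at hv
    subst hv
    rcases hs with rfl | hs
    · exact Set.pair_comm _ _
    · rw [Set.mem_singleton_iff] at hs
      exact absurd hs.symm hne

private theorem bg3_nmem {S : Set V} {v s x : V} (hS : S = {v, s}) (h1 : x ≠ v) (h2 : x ≠ s) :
    x ∉ S := by
  rw [hS]
  rintro (h | h)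
  · exact h1 h
  · exact h2 h

theorem nd (h : Glu Γ B) {v : V} (hv : v ∈ NL Γ) {u : V} (hu : v ≠ u) :
    ∃ s, Γ.Adj v s ∧ s ∉ st Γ u := by
  by_cases hr : ∃ k, Rig Γ (B k) ∧ v ∈ B k
  · obtain ⟨k, hR, hvk⟩ := hr
    by_cases huk : u ∈ B k
    · obtain ⟨s, hs, hs'⟩ := hR.dom ⟨v, hvk⟩ ⟨u, huk⟩ (fun e => hu (congrArg Subtype.val e))
      refine ⟨s, hs, ?_⟩
      rintro (h1 | h1)
      · exact hs' (Or.inl (Subtype.ext h1))
      · exact hs' (Or.inr h1)
    · obtain ⟨a, ha, b, hb, hab, hva, hvb, -⟩ := rig_deg hR hvk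
      by_cases h1 : a ∈ st Γ u
      · by_cases h2 : b ∈ st Γ u
        · exfalso
          have h3 : Γ.Adj u a := by
            rcases h1 with h1 | h1
            · exact absurd (h1 ▸ ha) huk
            · exact h1
          have h4 : Γ.Adj u b := by
            rcases h2 with h2 | h2
            · exact absurd (h2 ▸ hb) huk
            · exact h2
          exact hab (one_nb h huk ha hb h3 h4)
        · exact ⟨b, hvb, h2⟩
      · exact ⟨a, hva, h1⟩
  · obtain ⟨s1, s2, h12, hs1, hs2⟩ := hv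
    obtain ⟨i, hvi, hsi⟩ := h.edge v s1 hs1
    obtain ⟨j, hvj, hsj⟩ := h.edge v s2 hs2
    have hBi : B i = {v, s1} := by
      rcases h.ty i with h1 | h1
      · exact bg3_edg h1 hvi hsi hs1.ne
      · exact absurd ⟨i, h1, hvi⟩ hr
    have hBj : B j = {v, s2} := by
      rcases h.ty j with h1 | h1
      · exact bg3_edg h1 hvj hsj hs2.ne
      · exact absurd ⟨j, h1, hvj⟩ hr
    have hs2i : s2 ∉ B i := bg3_nmem hBi hs2.ne' h12.symm
    have hs1j : s1 ∉ B j := bg3_nmem hBj hs1.ne' h12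
    have hij : i ≠ j := by
      rintro rfl
      exact hs2i hsj
    have key : ∀ k, s1 ∈ B k → s2 ∈ B k → False := by
      intro k h1 h2
      have hjk : j ≠ k := by
        rintro rfl
        exact hs1j h1
      have hki : k ≠ i := by
        rintro rfl
        exact hs2i h2
      rcases cyc3 h hij hjk hki hvi hvj hsj h2 h1 hsi with e | e | e
      · exact hs2.ne e
      · exact h12 e.symm
      · exact hs1.ne e.symm
    by_cases hu1 : u = s1
    · subst hu1
      refine ⟨s2, hs2, ?_⟩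
      rintro (e | e)
      · exact h12 e.symm
      · obtain ⟨k, hk1, hk2⟩ := h.edge _ _ e
        exact key k hk1 hk2
    · by_cases hu2 : u = s2
      · subst hu2
        refine ⟨s1, hs1, ?_⟩
        rintro (e | e)
        · exact h12 e
        · obtain ⟨k, hk1, hk2⟩ := h.edge _ _ e
          exact key k hk2 hk1
      · by_contra hcon
        push Not at hcon
        have h3 : Γ.Adj u s1 := by
          rcases hcon s1 hs1 with e | e
          · exact absurd e.symm hu1
          · exact e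
        have h4 : Γ.Adj u s2 := by
          rcases hcon s2 hs2 with e | e
          · exact absurd e.symm hu2
          · exact e
        have hui : u ∉ B i := bg3_nmem hBi hu.symm hu1
        have huj : u ∉ B j := bg3_nmem hBj hu.symm hu2
        obtain ⟨k, hk1, hk2⟩ := h.edge _ _ h3
        obtain ⟨l, hl1, hl2⟩ := h.edge _ _ h4
        by_cases hkl : k = l
        · subst hkl
          exact key k hk2 hl2
        · have hik : i ≠ k := by
            rintro rfl
            exact hui hk1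
          have hlj : l ≠ j := by
            rintro rfl
            exact huj hl1
          rcases cyc4 h hik hkl hlj hij.symm hsi hk2 hk1 hl1 hl2 hsj hvj hvi with e | e | e | e
          · exact hu1 e.symm
          · exact hu2 e
          · exact hs2.ne e.symm
          · exact hs1.ne e

theorem cut_nl (h : Glu Γ B) {v : V} (hv : Cut B v) : v ∈ NL Γ := by
  obtain ⟨i, j, hij, hi, hj⟩ := hv
  obtain ⟨a, ha, hva⟩ := blk_nbr h hi
  obtain ⟨b, hb, hvb⟩ := blk_nbr h hj
  refine ⟨a, b, ?_, hva, hvb⟩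
  rintro rfl
  exact hva.ne (glu_two h hij hi hj ha hb)

theorem edg_cut (h : Glu Γ B) {i : Fin m} (hi : Edg Γ (B i)) (hn : NB Γ B i) {v : V}
    (hv : v ∈ B i) : Cut B v := by
  obtain ⟨x, y, hxy, hx, hy⟩ := hn hv
  have hs : ∃ s, Γ.Adj v s ∧ s ∉ B i := by
    by_cases h1 : x ∈ B i
    · exact ⟨y, hy, bg3_nmem (bg3_edg hi hv h1 hx.ne) hy.ne' hxy.symm⟩
    · exact ⟨x, hx, h1⟩
  obtain ⟨s, hs1, hs2⟩ := hs
  obtain ⟨j, hj1, hj2⟩ := h.edge _ _ hs1
  refine ⟨i, j, ?_, hv, hj1⟩
  rintro rfl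
  exact hs2 hj2

theorem nl_cases (h : Glu Γ B) {v : V} (hv : v ∈ NL Γ) :
    Cut B v ∨ ∃ i, Rig Γ (B i) ∧ v ∈ B i := by
  obtain ⟨a, b, hab, ha, hb⟩ := hv
  obtain ⟨i, hi1, hi2⟩ := h.edge _ _ ha
  obtain ⟨j, hj1, hj2⟩ := h.edge _ _ hb
  by_cases hij : i = j
  · subst hij
    right
    refine ⟨i, ?_, hi1⟩
    rcases h.ty i with h1 | h1
    · exact absurd hj2 (bg3_nmem (bg3_edg h1 hi1 hi2 ha.ne) hb.ne' hab.symm)
    · exact h1
  · exact Or.inl ⟨i, j, hij, hi1, hj1⟩

private theorem bg3_leaf (h : Glu Γ B) {v : V} (hv : v ∉ NL Γ) :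
    ∃ w i, Γ.Adj v w ∧ lk Γ v = {w} ∧ B i = {v, w} ∧ v ≠ w ∧ ∀ j, v ∈ B j → j = i := by
  obtain ⟨i, hi⟩ := h.cov v
  have hedg : ∀ j, v ∈ B j → Edg Γ (B j) := by
    intro j hj
    rcases h.ty j with h1 | h1
    · exact h1
    · exact absurd (rig_nl h1 hj) hv
  obtain ⟨w, hw, hvw⟩ := blk_nbr h hi
  have huniq : ∀ x, Γ.Adj v x → x = w := by
    intro x hx
    by_contra hne
    exact hv ⟨x, w, hne, hx, hvw⟩
  refine ⟨w, i, hvw, ?_, bg3_edg (hedg i hi) hi hw hvw.ne, hvw.ne, ?_⟩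
  · ext x
    constructor
    · intro hx
      exact huniq x hx
    · intro hx
      rw [Set.mem_singleton_iff] at hx
      rw [hx]
      exact hvw
  · intro j hj
    by_contra hne
    obtain ⟨x, hx, hvx⟩ := blk_nbr h hj
    have hxw := huniq x hvx
    subst hxw
    exact hvx.ne (glu_two h hne hj hi hx hw)

theorem leaf (h : Ctx Γ Λ π B) {v : V} (hv : v ∉ NL Γ) :
    ∃ w i, w ∈ NL Γ ∧ Cut B w ∧ lk Γ v = {w} ∧ B i = {v, w} ∧ v ≠ w ∧ ∀ j, v ∈ B j → j = i := by
  obtain ⟨w, i, hvw, hlk, hBi, hne, huni⟩ := bg3_leaf h.glu hv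
  have hwi : w ∈ B i := by rw [hBi]; exact Or.inr rfl
  have hwNL : w ∈ NL Γ := by
    by_contra hw
    obtain ⟨w', i', -, -, -, -, huni'⟩ := bg3_leaf h.glu hw
    have hii : i = i' := huni' i hwi
    subst hii
    have hmem : ∀ j t, t ∈ B i → t ∈ B j → j = i := by
      intro j t ht htj
      rw [hBi] at ht
      rcases ht with rfl | ht
      · exact huni j htj
      · rw [Set.mem_singleton_iff] at ht
        subst ht
        exact huni' j htj
    have hmin : ∀ j, ¬ j < i := by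
      intro j hj
      obtain ⟨t, ⟨ht, k, hk, htk⟩, -⟩ := h.glu.glu i ⟨j, hj⟩
      exact hk.ne (hmem k t ht htk)
    have hall : ∀ j, j = i := by
      intro j
      induction j using WellFoundedLT.induction with
      | ind j ih =>
        by_contra hji
        have hij : i < j := lt_of_le_of_ne (not_lt.1 (hmin j)) (Ne.symm hji)
        obtain ⟨t, ⟨ht, k, hk, htk⟩, -⟩ := h.glu.glu j ⟨i, hij⟩
        have hki := ih k hk
        subst hki
        exact hji (hmem j t htk ht)
    obtain ⟨a, b, c, hab, hac, hbc⟩ := h.big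
    have hin : ∀ x, x = v ∨ x = w := by
      intro x
      obtain ⟨j, hj⟩ := h.glu.cov x
      rw [hall j, hBi] at hj
      exact hj
    rcases hin a with ha | ha <;> rcases hin b with hb | hb <;> rcases hin c with hc | hc <;>
      first
        | exact hab (ha.trans hb.symm)
        | exact hac (ha.trans hc.symm)
        | exact hbc (hb.trans hc.symm)
  refine ⟨w, i, hwNL, ?_, hlk, hBi, hne, huni⟩
  obtain ⟨x, y, hxy, hx, hy⟩ := hwNL
  have hs : ∃ s, Γ.Adj w s ∧ s ≠ v := by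
    by_cases h1 : x = v
    · exact ⟨y, hy, fun e => hxy (h1.trans e.symm)⟩
    · exact ⟨x, hx, h1⟩
  obtain ⟨s, hs1, hs2⟩ := hs
  obtain ⟨j, hj1, hj2⟩ := h.glu.edge _ _ hs1
  refine ⟨i, j, ?_, hwi, hj1⟩
  rintro rfl
  exact bg3_nmem hBi hs2 hs1.ne' hj2

theorem cut_fib (h : Ctx Γ Λ π B) {v : V} (hv : Cut B v) : ∃ a, π a = v ∧ ∀ b, π b = v → b = a := by
  obtain ⟨a, ha⟩ := h.bu.surj v
  exact ⟨a, ha, fun b hb => h.sng v (Or.inl hv) b a hb ha⟩

theorem leaf_fib (h : Ctx Γ Λ π B) {v : V} (hv : v ∉ NL Γ) :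
    ∃ a, π a = v ∧ ∀ b, π b = v → b = a := by
  obtain ⟨a, ha⟩ := h.bu.surj v
  obtain ⟨w, i, hvw, -, hBi, -, -⟩ := bg3_leaf h.glu hv
  refine ⟨a, ha, fun b hb => h.sng v (Or.inr ⟨i, ⟨v, w, hvw, hBi⟩, ?_⟩) b a hb ha⟩
  rw [hBi]
  exact Or.inl rfl

theorem nb_of_rig {i : Fin m} (hi : Rig Γ (B i)) : NB Γ B i := rig_nl hi

theorem nb_iff (h : Glu Γ B) {i : Fin m} :
    NB Γ B i ↔ Rig Γ (B i) ∨ (Edg Γ (B i) ∧ ∀ v ∈ B i, Cut B v) := by
  constructor
  · intro hn
    rcases h.ty i with h1 | h1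
    · exact Or.inr ⟨h1, fun v hv => edg_cut h h1 hn hv⟩
    · exact Or.inl h1
  · rintro (h1 | ⟨-, h1⟩)
    · exact nb_of_rig h1
    · exact fun v hv => cut_nl h (h1 v hv)

end RaagBL
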