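import Pool.Agent.Lib.MP_32d917_al_gp.CDefs

/-!
# Codes for subgroups of finite index of block graph products: definitions

A code `(c, (n, u), L)`: `c : Cd2` describes the graph `Λ` and the action (`c.1`), the graph `Γ` and the map
`π` (validity of `c` in the sense of `ValN2` is not required), `n + 1` is the number of the blocks, the digits
of `u` in base two give the sets of vertices of the blocks. `L` is the list of the sub-codes, one for every
orbit of a rigid block: number of the block, code, tables of points, letters and vertices.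
-/

set_option autoImplicit false

namespace RaagBL

open LatIso RaagIso RaagGP
open AdmIso (Wd mvs fM cmW)

/-- sub-codes: block, code, tables of the points, of the letters, of the vertices -/
abbrev SubC : Type := ℕ × Cd2 × ℕ × ℕ × ℕ

/-- codes -/
abbrev BC : Type := Cd2 × (ℕ × ℕ) × List SubC

/-- default sub-code -/
def dSub : SubC := (0, (((0, 0), 0, 0, 0), 0, 0, 0), 0, 0, 0)

/-- number of blocks -/
abbrev nB (c : BC) : ℕ := c.2.1.1 + 1

/-- number of sub-codes -/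
abbrev nS (c : BC) : ℕ := c.2.2.length

/-- the vertex `v` is in the block `i` -/
def InK (c : BC) (i v : ℕ) : Prop := CB.dg 1 c.2.1.2 (i * kG c.1 + v) = 1

instance (c : BC) (i v : ℕ) : Decidable (InK c i v) := by unfold InK; infer_instance

/-- sub-code number `j` -/
def sc (c : BC) (j : ℕ) : SubC := c.2.2.getD j dSub

/-- block of the sub-code -/
def scI (c : BC) (j : ℕ) : ℕ := (sc c j).1
/-- the code -/
def scD (c : BC) (j : ℕ) : Cd2 := (sc c j).2.1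
/-- points -/
def ptN (c : BC) (j y : ℕ) : ℕ := CB.dg c.1.1.1.2 (sc c j).2.2.1 y
/-- letters -/
def ltN (c : BC) (j a : ℕ) : ℕ := CB.dg c.1.1.1.1 (sc c j).2.2.2.1 a
/-- vertices -/
def vtN (c : BC) (j v : ℕ) : ℕ := CB.dg c.1.2.1 (sc c j).2.2.2.2 v

/-- the block `i` is rigid -/
def RigN (c : BC) (i : ℕ) : Prop :=
  (∃ v < kG c.1, ∃ w < kG c.1, ¬ v = w ∧ InK c i v ∧ InK c i w) ∧
  (∀ v < kG c.1, ∀ w < kG c.1, InK c i v → InK c i w → ¬ v = w →
    ∃ u < kG c.1, InK c i u ∧ AdG c.1 v u ∧ ¬ StG c.1 w u) ∧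
  (∀ v < kG c.1, InK c i v → ∀ s < 2 ^ kG c.1,
    (∀ a < kG c.1, ∀ b < kG c.1, InK c i a → InK c i b → CB.dg 1 s a = 1 → ¬ StG c.1 v a →
      ¬ StG c.1 v b → AdG c.1 a b → CB.dg 1 s b = 1) →
    ∀ a < kG c.1, ∀ b < kG c.1, InK c i a → InK c i b → CB.dg 1 s a = 1 → ¬ StG c.1 v a →
      ¬ StG c.1 v b → CB.dg 1 s b = 1)

/-- the block `i` is an edge -/
def EdgN (c : BC) (i : ℕ) : Prop :=
  ∃ v < kG c.1, ∃ w < kG c.1, AdG c.1 v w ∧ ∀ u < kG c.1, (InK c i u ↔ (u = v ∨ u = w))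

/-- the vertex `v` is in two blocks -/
def CutN (c : BC) (v : ℕ) : Prop := ∃ i < nB c, ∃ j < nB c, ¬ i = j ∧ InK c i v ∧ InK c j v

/-- the block `i` is an edge and both ends are cut vertices -/
def FltN (c : BC) (i : ℕ) : Prop := EdgN c i ∧ ∀ u < kG c.1, InK c i u → CutN c u

/-- validity of the sub-code number `j` -/
def SubV (c : BC) (j : ℕ) : Prop :=
  (scI c j < nB c ∧ RigN c (scI c j) ∧ ValN2 (scD c j)) ∧
  (∀ y < cM (scD c j).1, ∀ z < cM (scD c j).1, ptN c j y = ptN c j z → y = z) ∧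
  (∀ a < cK (scD c j).1, ∀ b < cK (scD c j).1, ltN c j a = ltN c j b → a = b) ∧
  (∀ v < kG (scD c j), ∀ w < kG (scD c j), vtN c j v = vtN c j w → v = w) ∧
  (∀ a < cK c.1.1, (InK c (scI c j) (piN c.1 a) ↔ ∃ b < cK (scD c j).1, ltN c j b = a)) ∧
  (∀ v < kG c.1, (InK c (scI c j) v ↔ ∃ w < kG (scD c j), vtN c j w = v)) ∧
  (∀ a < cK (scD c j).1, piN c.1 (ltN c j a) = vtN c j (piN (scD c j) a)) ∧
  (∀ a < cK (scD c j).1, ∀ b < cK (scD c j).1,
    (AdN c.1.1 (ltN c j a) (ltN c j b) ↔ AdN (scD c j).1 a b)) ∧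
  (∀ v < kG (scD c j), ∀ w < kG (scD c j),
    (AdG c.1 (vtN c j v) (vtN c j w) ↔ AdG (scD c j) v w)) ∧
  (∀ y < cM (scD c j).1, ∀ a < cK (scD c j).1,
    rmN c.1.1 (ptN c j y) (ltN c j a) = ptN c j (rmN (scD c j).1 y a)) ∧
  (∀ y < cM (scD c j).1, ∀ z < cM (scD c j).1,
    OrD (scD c j).1 (fun a => piN (scD c j) a = piN (scD c j) a) y z)

/-- validity of codes -/
def BVal (c : BC) : Prop :=
  (ActV c.1.1 ∧ 2 ≤ c.1.2.1) ∧
  (∀ v < kG c.1, ∃ a < cK c.1.1, piN c.1 a = v) ∧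
  (∀ a < cK c.1.1, ∀ b < cK c.1.1, ¬ piN c.1 a = piN c.1 b →
    (AdN c.1.1 a b ↔ AdG c.1 (piN c.1 a) (piN c.1 b))) ∧
  (∀ v < kG c.1, (∀ a < cK c.1.1, ∀ b < cK c.1.1, piN c.1 a = v → piN c.1 b = v → ¬ a = b →
      AdN c.1.1 a b) ∨
    (∀ a < cK c.1.1, ∀ b < cK c.1.1, piN c.1 a = v → piN c.1 b = v → ¬ AdN c.1.1 a b)) ∧
  (∀ v < kG c.1, ∃ i < nB c, InK c i v) ∧
  (∀ v < kG c.1, ∀ w < kG c.1, AdG c.1 v w → ∃ i < nB c, InK c i v ∧ InK c i w) ∧
  (∀ i < nB c, 0 < i → ∃ v < kG c.1, InK c i v ∧ (∃ j < i, InK c j v) ∧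
    ∀ w < kG c.1, InK c i w → (∃ j < i, InK c j w) → w = v) ∧
  (∀ i < nB c, EdgN c i ∨ RigN c i) ∧
  (∀ a < cK c.1.1, ∀ b < cK c.1.1, ¬ a = b → piN c.1 a = piN c.1 b → ∀ i < nB c,
    InK c i (piN c.1 a) → RigN c i ∧ ∀ j < nB c, InK c j (piN c.1 a) → j = i) ∧
  (∀ j < nS c, SubV c j) ∧
  (∀ i < nB c, RigN c i → ∀ x < cM c.1.1, ∃ j < nS c, scI c j = i ∧
    ∃ y < cM (scD c j).1, ptN c j y = x) ∧
  (∀ j < nS c, ∀ k < nS c, scI c j = scI c k → ∀ y < cM (scD c j).1, ∀ z < cM (scD c k).1,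
    ptN c j y = ptN c k z → j = k)

/-- `c` is a code of the group presented by `P` -/
def CodeForB (P : Pres) (c : BC) : Prop :=
  BVal c ∧ ∃ z : List Wd × List Wd × List Wd, Cert c.1.1 P z

end RaagBL
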