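import Pool.Agent.Lib.MP_32d917_al_bl.KV2

/-!
# KE1: transport of the assumptions
-/

set_option autoImplicit false

namespace RaagBL

open LatIso RaagIso RaagGP
open AdmIso (Wd mvs fM cmW)

section

variable {V V' W W' : Type}

theorem kst_iso {Γ : SimpleGraph V} {Γ' : SimpleGraph V'} (f : V ≃ V')
    (hf : ∀ a b, Γ.Adj a b ↔ Γ'.Adj (f a) (f b)) (v w : V) : w ∈ st Γ v ↔ f w ∈ st Γ' (f v) := by
  show (w = v ∨ Γ.Adj v w) ↔ (f w = f v ∨ Γ'.Adj (f v) (f w))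
  rw [f.injective.eq_iff, hf]

theorem knodom_iso {Γ : SimpleGraph V} {Γ' : SimpleGraph V'} (f : V ≃ V')
    (hf : ∀ a b, Γ.Adj a b ↔ Γ'.Adj (f a) (f b)) (h : NoDom Γ) : NoDom Γ' := by
  intro v w hvw
  obtain ⟨v, rfl⟩ := f.surjective v
  obtain ⟨w, rfl⟩ := f.surjective w
  obtain ⟨u, h1, h2⟩ := h v w (fun e => hvw (congrArg f e))
  exact ⟨f u, (hf v u).1 h1, fun h3 => h2 ((kst_iso f hf w u).2 h3)⟩

theorem knosep_iso {Γ : SimpleGraph V} {Γ' : SimpleGraph V'} (f : V ≃ V')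
    (hf : ∀ a b, Γ.Adj a b ↔ Γ'.Adj (f a) (f b)) (h : NoSep Γ) : NoSep Γ' := by
  intro v K hK a b ha hav hbv
  obtain ⟨v, rfl⟩ := f.surjective v
  obtain ⟨a, rfl⟩ := f.surjective a
  obtain ⟨b, rfl⟩ := f.surjective b
  refine h v (f ⁻¹' K) ?_ a b ha (fun h1 => hav ((kst_iso f hf v a).1 h1))
    (fun h1 => hbv ((kst_iso f hf v b).1 h1))
  intro x y hx hxv hyv hxy
  exact hK (f x) (f y) hx (fun h1 => hxv ((kst_iso f hf v x).2 h1))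
    (fun h1 => hyv ((kst_iso f hf v y).2 h1)) ((hf x y).1 hxy)

theorem krig_iso {Γ : SimpleGraph V} {Γ' : SimpleGraph V'} (f : V ≃ V')
    (hf : ∀ a b, Γ.Adj a b ↔ Γ'.Adj (f a) (f b)) {S : Set V} {S' : Set V'}
    (hS : ∀ v, v ∈ S ↔ f v ∈ S') (h : Rig Γ S) : Rig Γ' S' := by
  have hg : ∀ a b : S, (Γ.induce S).Adj a b ↔
      (Γ'.induce S').Adj (f.subtypeEquiv hS a) (f.subtypeEquiv hS b) := fun a b => hf a b
  obtain ⟨⟨a, b, hab⟩, h2, h3⟩ := h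
  exact ⟨⟨f.subtypeEquiv hS a, f.subtypeEquiv hS b, fun e => hab ((f.subtypeEquiv hS).injective e)⟩,
    knodom_iso (f.subtypeEquiv hS) hg h2, knosep_iso (f.subtypeEquiv hS) hg h3⟩

theorem kedg_iso {Γ : SimpleGraph V} {Γ' : SimpleGraph V'} (f : V ≃ V')
    (hf : ∀ a b, Γ.Adj a b ↔ Γ'.Adj (f a) (f b)) {S : Set V} {S' : Set V'}
    (hS : ∀ v, v ∈ S ↔ f v ∈ S') (h : Edg Γ S) : Edg Γ' S' := by
  obtain ⟨a, b, hab, rfl⟩ := h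
  refine ⟨f a, f b, (hf a b).1 hab, ?_⟩
  ext v
  obtain ⟨v, rfl⟩ := f.surjective v
  rw [← hS v]
  simp

theorem kctx_iso {Γ : SimpleGraph V} {Γ' : SimpleGraph V'} {Λ : SimpleGraph W}
    {Λ' : SimpleGraph W'} {π : W → V} {π' : W' → V'} {m : ℕ} {B : Fin m → Set V}
    {B' : Fin m → Set V'} (e : W ≃ W') (f : V ≃ V')
    (hf : ∀ a b, Γ.Adj a b ↔ Γ'.Adj (f a) (f b)) (he : ∀ a b, Λ.Adj a b ↔ Λ'.Adj (e a) (e b))
    (hp : ∀ a, π' (e a) = f (π a)) (hB : ∀ i v, v ∈ B i ↔ f v ∈ B' i) (h : Ctx Γ Λ π B) :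
    Ctx Γ' Λ' π' B' := by
  obtain ⟨⟨g1, g2, g3, g4⟩, ⟨b1, b2, b3⟩, h3, x, y, z, h4⟩ := h
  have hpe : ∀ a v, π' (e a) = f v ↔ π a = v := fun a v => by rw [hp, f.injective.eq_iff]
  refine ⟨⟨?_, ?_, ?_, ?_⟩, ⟨?_, ?_, ?_⟩, ?_, ?_⟩
  · intro v
    obtain ⟨v, rfl⟩ := f.surjective v
    obtain ⟨i, hi⟩ := g1 v
    exact ⟨i, (hB i v).1 hi⟩
  · intro a b hab
    obtain ⟨a, rfl⟩ := f.surjective a
    obtain ⟨b, rfl⟩ := f.surjective b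
    obtain ⟨i, h1, h2⟩ := g2 a b ((hf a b).2 hab)
    exact ⟨i, (hB i a).1 h1, (hB i b).1 h2⟩
  · intro i
    rcases g3 i with k | k
    · exact Or.inl (kedg_iso f hf (hB i) k)
    · exact Or.inr (krig_iso f hf (hB i) k)
  · intro i hi
    obtain ⟨v, ⟨h1, j, hj, h2⟩, h3⟩ := g4 i hi
    refine ⟨f v, ⟨(hB i v).1 h1, j, hj, (hB j v).1 h2⟩, ?_⟩
    intro w hw
    obtain ⟨w, rfl⟩ := f.surjective w
    obtain ⟨k1, j, hj, k2⟩ := hw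
    exact congrArg f (h3 w ⟨(hB i w).2 k1, j, hj, (hB j w).2 k2⟩)
  · intro v
    obtain ⟨v, rfl⟩ := f.surjective v
    obtain ⟨a, rfl⟩ := b1 v
    exact ⟨e a, hp a⟩
  · intro a b hab
    obtain ⟨a, rfl⟩ := e.surjective a
    obtain ⟨b, rfl⟩ := e.surjective b
    rw [← he, hp, hp, ← hf]
    refine b2 a b (fun k => hab ?_)
    rw [hp, hp, k]
  · intro v
    obtain ⟨v, rfl⟩ := f.surjective v
    rcases b3 v with k | k
    · left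
      intro a b ha hb hab
      obtain ⟨a, rfl⟩ := e.surjective a
      obtain ⟨b, rfl⟩ := e.surjective b
      exact (he a b).1 (k a b ((hpe a v).1 ha) ((hpe b v).1 hb) (fun l => hab (congrArg e l)))
    · right
      intro a b ha hb hab
      obtain ⟨a, rfl⟩ := e.surjective a
      obtain ⟨b, rfl⟩ := e.surjective b
      exact k a b ((hpe a v).1 ha) ((hpe b v).1 hb) ((he a b).2 hab)
  · intro v hv a b ha hb
    obtain ⟨v, rfl⟩ := f.surjective v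
    obtain ⟨a, rfl⟩ := e.surjective a
    obtain ⟨b, rfl⟩ := e.surjective b
    refine congrArg e (h3 v ?_ a b ((hpe a v).1 ha) ((hpe b v).1 hb))
    rcases hv with ⟨i, j, hij, k1, k2⟩ | ⟨i, k1, k2⟩
    · exact Or.inl ⟨i, j, hij, (hB i v).2 k1, (hB j v).2 k2⟩
    · refine Or.inr ⟨i, ?_, (hB i v).2 k2⟩
      refine kedg_iso f.symm ?_ ?_ k1
      · intro a b
        rw [hf, Equiv.apply_symm_apply, Equiv.apply_symm_apply]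
      · intro v
        rw [hB, Equiv.apply_symm_apply]
  · exact ⟨f x, f y, f z, fun k => h4.1 (f.injective k), fun k => h4.2.1 (f.injective k),
      fun k => h4.2.2 (f.injective k)⟩

end

/-- the first conditions of `BVal` -/
theorem bval_ctx {c : BC} (hA : ActV c.1.1) (h : Ctx (grG c.1) (gr c.1.1) (piF c.1) (blk c)) :
    (ActV c.1.1 ∧ 2 ≤ c.1.2.1) ∧
    (∀ v < kG c.1, ∃ a < cK c.1.1, piN c.1 a = v) ∧
    (∀ a < cK c.1.1, ∀ b < cK c.1.1, ¬ piN c.1 a = piN c.1 b →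
      (AdN c.1.1 a b ↔ AdG c.1 (piN c.1 a) (piN c.1 b))) ∧
    (∀ v < kG c.1, (∀ a < cK c.1.1, ∀ b < cK c.1.1, piN c.1 a = v → piN c.1 b = v → ¬ a = b →
        AdN c.1.1 a b) ∨
      (∀ a < cK c.1.1, ∀ b < cK c.1.1, piN c.1 a = v → piN c.1 b = v → ¬ AdN c.1.1 a b)) ∧
    (∀ v < kG c.1, ∃ i < nB c, InK c i v) ∧
    (∀ v < kG c.1, ∀ w < kG c.1, AdG c.1 v w → ∃ i < nB c, InK c i v ∧ InK c i w) ∧
    (∀ i < nB c, 0 < i → ∃ v < kG c.1, InK c i v ∧ (∃ j < i, InK c j v) ∧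
      ∀ w < kG c.1, InK c i w → (∃ j < i, InK c j w) → w = v) ∧
    (∀ i < nB c, EdgN c i ∨ RigN c i) ∧
    (∀ a < cK c.1.1, ∀ b < cK c.1.1, ¬ a = b → piN c.1 a = piN c.1 b → ∀ i < nB c,
      InK c i (piN c.1 a) → RigN c i ∧ ∀ j < nB c, InK c j (piN c.1 a) → j = i) := by
  obtain ⟨⟨g1, g2, g3, g4⟩, ⟨b1, b2, b3⟩, h3, x, y, z, h4⟩ := h
  refine ⟨⟨hA, ?_⟩, ?_, ?_, ?_, ?_, ?_, ?_, ?_, ?_⟩
  · by_contra hlt
    have l1 := x.2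
    have l2 := y.2
    have l3 := z.2
    have m1 : (x : ℕ) ≠ y := fun e => h4.1 (Fin.ext e)
    have m2 : (x : ℕ) ≠ z := fun e => h4.2.1 (Fin.ext e)
    have m3 : (y : ℕ) ≠ z := fun e => h4.2.2 (Fin.ext e)
    have e0 : kG c.1 = c.1.2.1 + 1 := rfl
    omega
  · intro v hv
    obtain ⟨a, ha⟩ := b1 ⟨v, hv⟩
    exact ⟨a, a.2, congrArg Fin.val ha⟩
  · intro a ha b hb hab
    exact b2 ⟨a, ha⟩ ⟨b, hb⟩ (fun e => hab (congrArg Fin.val e))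
  · intro v hv
    rcases b3 ⟨v, hv⟩ with k | k
    · left
      intro a ha b hb h1 h2 hab
      exact k ⟨a, ha⟩ ⟨b, hb⟩ (Fin.ext h1) (Fin.ext h2) (fun e => hab (congrArg Fin.val e))
    · right
      intro a ha b hb h1 h2 hab
      exact k ⟨a, ha⟩ ⟨b, hb⟩ (Fin.ext h1) (Fin.ext h2) hab
  · intro v hv
    obtain ⟨i, hi⟩ := g1 ⟨v, hv⟩
    exact ⟨i, i.2, hi⟩
  · intro v hv w hw hvw
    obtain ⟨i, h1, h2⟩ := g2 ⟨v, hv⟩ ⟨w, hw⟩ hvw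
    exact ⟨i, i.2, h1, h2⟩
  · intro i hi h0
    obtain ⟨v, ⟨h1, j, hj, h2⟩, h5⟩ := g4 ⟨i, hi⟩ ⟨⟨0, Nat.succ_pos _⟩, h0⟩
    refine ⟨v, v.2, h1, ⟨j, hj, h2⟩, ?_⟩
    rintro w hw k1 ⟨l, hl, k2⟩
    exact congrArg Fin.val (h5 ⟨w, hw⟩ ⟨k1, ⟨l, hl.trans hi⟩, hl, k2⟩)
  · intro i hi
    rcases g3 ⟨i, hi⟩ with k | k
    · exact Or.inl ((kedg_iff c ⟨i, hi⟩).2 k)
    · exact Or.inr ((krig_iff c ⟨i, hi⟩).2 k)
  · intro a ha b hb hab hpi i hi hia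
    have hne : ¬ (Cut (blk c) (piF c.1 ⟨a, ha⟩) ∨
        ∃ i, Edg (grG c.1) (blk c i) ∧ piF c.1 ⟨a, ha⟩ ∈ blk c i) := by
      intro k
      exact hab (congrArg Fin.val (h3 _ k ⟨a, ha⟩ ⟨b, hb⟩ rfl (Fin.ext hpi.symm)))
    push Not at hne
    refine ⟨?_, ?_⟩
    · rcases g3 ⟨i, hi⟩ with k | k
      · exact absurd hia (hne.2 ⟨i, hi⟩ k)
      · exact (krig_iff c ⟨i, hi⟩).2 k
    · intro j hj hja
      by_contra hji
      exact hne.1 ⟨⟨i, hi⟩, ⟨j, hj⟩, fun e => hji (congrArg Fin.val e).symm, hia, hja⟩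

end RaagBL
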