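import Pool.Agent.Lib.MP_32d917_al_bl.KE1
import Pool.Agent.Lib.MP_32d917_al_gp.C03
import Pool.Agent.Lib.MP_32d917_al_gp.C05

/-!
# KE2: codes of the orbits of rigid blocks
-/

set_option autoImplicit false

namespace RaagBL

open LatIso RaagIso RaagGP
open AdmIso (Wd mvs fM cmW)

/-- `d` is a code of the action of the standard subgroup of `S` on the orbit of `p` -/
structure SubD {V W C : Type} {Λ : SimpleGraph W} (Γ : SimpleGraph V) (π : W → V) (S : Set V)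
    (ρ : RA Λ →* Equiv.Perm C) (p : C) (d : Cd2) (e : Fin (cM d.1) → C) (ι : Fin (cK d.1) → W)
    (ν : Fin (kG d) → V) : Prop where
  einj : Function.Injective e
  erng : ∀ c, (∃ n, e n = c) ↔ Ob π ρ S p c
  iinj : Function.Injective ι
  irng : ∀ a, (∃ b, ι b = a) ↔ π a ∈ S
  vinj : Function.Injective ν
  vrng : ∀ v, (∃ w, ν w = v) ↔ v ∈ S
  com : ∀ b, π (ι b) = ν (piF d b)
  adjW : ∀ a b : Fin (cK d.1), AdN d.1 a b ↔ Λ.Adj (ι a) (ι b)
  adjV : ∀ a b : Fin (kG d), AdG d a b ↔ Γ.Adj (ν a) (ν b)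
  act : ∀ (n : Fin (cM d.1)) (b : Fin (cK d.1)),
    e ⟨rmN d.1 n b, CB.dg_lt _ _ _⟩ = rm ρ (e n) (gen (ι b))

theorem kob_refl {V W C : Type} {Λ : SimpleGraph W} (π : W → V) (ρ : RA Λ →* Equiv.Perm C)
    (D : Set V) (c : C) : Ob π ρ D c c := ⟨1, one_mem _, rm_one ρ c⟩

theorem kob_mul {V W C : Type} {Λ : SimpleGraph W} {π : W → V} {ρ : RA Λ →* Equiv.Perm C}
    {D : Set V} {c d : C} (h : Ob π ρ D c d) {g : RA Λ} (hg : g ∈ PB Λ π D) :
    Ob π ρ D c (rm ρ d g) := by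
  obtain ⟨x, hx, rfl⟩ := h
  exact ⟨x * g, mul_mem hx hg, rm_mul ρ c x g⟩

theorem kob_symm {V W C : Type} {Λ : SimpleGraph W} {π : W → V} {ρ : RA Λ →* Equiv.Perm C}
    {D : Set V} {c d : C} (h : Ob π ρ D c d) : Ob π ρ D d c := by
  obtain ⟨x, hx, rfl⟩ := h
  exact ⟨x⁻¹, inv_mem hx, rm_inv_r c x⟩

theorem kob_trans {V W C : Type} {Λ : SimpleGraph W} {π : W → V} {ρ : RA Λ →* Equiv.Perm C}
    {D : Set V} {c d e : C} (h : Ob π ρ D c d) (h' : Ob π ρ D d e) : Ob π ρ D c e := by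
  obtain ⟨x, hx, rfl⟩ := h'
  exact kob_mul h hx

theorem kgen_pb {V W : Type} {Λ : SimpleGraph W} {π : W → V} {D : Set V} {a : W} (h : π a ∈ D) :
    (gen a : RA Λ) ∈ PB Λ π D := Subgroup.subset_closure ⟨a, h, rfl⟩

/-- table -/
theorem ktab_fin {k m l : ℕ} (f : Fin (m + 1) → Fin (k + 1) → Fin (l + 1)) :
    ∃ p, ∀ (i : Fin (m + 1)) (j : Fin (k + 1)), CB.dg l p ((i : ℕ) * (k + 1) + j) = f i j := by
  obtain ⟨p, -, hp⟩ := RaagIso.c07_tab l k m (fun i j => (f i j : ℕ)) (fun i j => (f i j).2)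
  exact ⟨p, hp⟩

/-- table -/
theorem ktab_fin1 {m l : ℕ} (f : Fin (m + 1) → Fin (l + 1)) :
    ∃ p, ∀ i : Fin (m + 1), CB.dg l p (i : ℕ) = f i := by
  obtain ⟨p, -, hp⟩ := CB.exists_dg l (fun x => if hx : x < m + 1 then (f ⟨x, hx⟩ : ℕ) else 0) (by
    intro x
    try dsimp only
    split_ifs with hx
    · exact (f ⟨x, hx⟩).2
    · exact Nat.succ_pos _) (m + 1)
  refine ⟨p, fun i => ?_⟩
  have h1 := hp i i.2
  rw [dif_pos i.2] at h1
  exact h1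

/-- finite nonempty types -/
theorem kfin_equiv (X : Type) [Finite X] (x : X) : ∃ n : ℕ, Nonempty (X ≃ Fin (n + 1)) := by
  obtain ⟨n, ⟨e⟩⟩ := Finite.exists_equiv_fin X
  have hn : 0 < n := (Nat.zero_le _).trans_lt (e x).2
  obtain ⟨k, rfl⟩ : ∃ k, n = k + 1 := ⟨n - 1, by omega⟩
  exact ⟨k, ⟨e⟩⟩

theorem ksub_exists {V W C : Type} [Finite V] [Finite W] [Finite C] {Γ : SimpleGraph V}
    {Λ : SimpleGraph W} {π : W → V} (hB : BU Γ Λ π) (ρ : RA Λ →* Equiv.Perm C) {S : Set V}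
    (hS : Rig Γ S) (p : C) :
    ∃ (d : Cd2) (e : Fin (cM d.1) → C) (ι : Fin (cK d.1) → W) (ν : Fin (kG d) → V),
      ValN2 d ∧ SubD Γ π S ρ p d e ι ν := by
  classical
  obtain ⟨⟨s0, s1, hs01⟩, hN, hP⟩ := hS
  obtain ⟨a0, ha0⟩ := hB.surj s0
  obtain ⟨m, ⟨eO⟩⟩ := kfin_equiv {c : C // Ob π ρ S p c} ⟨p, kob_refl π ρ S p⟩
  obtain ⟨k, ⟨eW⟩⟩ := kfin_equiv {a : W // π a ∈ S} ⟨a0, by rw [ha0]; exact s0.2⟩
  obtain ⟨kv, ⟨eV⟩⟩ := kfin_equiv S s0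
  have hkv : 1 ≤ kv := by
    by_contra hlt
    apply hs01
    apply eV.injective
    apply Fin.ext
    have h3 := (eV s0).2
    have h4 := (eV s1).2
    omega
  obtain ⟨a, ha⟩ := c03_adj (Λ.induce {a : W | π a ∈ S}) k eW
  obtain ⟨aG, haG⟩ := c03_adj (Γ.induce S) kv eV
  obtain ⟨q, hq⟩ := ktab_fin (fun (i : Fin (m + 1)) (j : Fin (k + 1)) =>
    eO ⟨rm ρ (eO.symm i : C) (gen (eW.symm j : W)), kob_mul (eO.symm i).2 (kgen_pb (eW.symm j).2)⟩)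
  obtain ⟨r, hr⟩ := ktab_fin (fun (i : Fin (m + 1)) (j : Fin (k + 1)) =>
    eO ⟨rm ρ (eO.symm i : C) (gen (eW.symm j : W))⁻¹,
      kob_mul (eO.symm i).2 (inv_mem (kgen_pb (eW.symm j).2))⟩)
  obtain ⟨z, hz⟩ := ktab_fin1 (fun b : Fin (k + 1) => eV ⟨π (eW.symm b : W), (eW.symm b).2⟩)
  have hadj : ∀ v w : Fin (k + 1), AdN ((k, m), a, q, r) v w ↔
      Λ.Adj (eW.symm v : W) (eW.symm w : W) := ha
  have hadG : ∀ v w : Fin (kv + 1), AdG (((k, m), a, q, r), kv, aG, z) v w ↔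
      Γ.Adj (eV.symm v : V) (eV.symm w : V) := haG
  have hpi : ∀ b : Fin (k + 1), piF (((k, m), a, q, r), kv, aG, z) b =
      eV ⟨π (eW.symm b : W), (eW.symm b).2⟩ := fun b => Fin.ext (hz b)
  have hrm : ∀ (i : Fin (m + 1)) (j : Fin (k + 1)),
      (⟨rmN ((k, m), a, q, r) i j, CB.dg_lt _ _ _⟩ : Fin (m + 1)) =
        eO ⟨rm ρ (eO.symm i : C) (gen (eW.symm j : W)),
          kob_mul (eO.symm i).2 (kgen_pb (eW.symm j).2)⟩ := fun i j => Fin.ext (hq i j)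
  have hri : ∀ (i : Fin (m + 1)) (j : Fin (k + 1)),
      (⟨riN ((k, m), a, q, r) i j, CB.dg_lt _ _ _⟩ : Fin (m + 1)) =
        eO ⟨rm ρ (eO.symm i : C) (gen (eW.symm j : W))⁻¹,
          kob_mul (eO.symm i).2 (inv_mem (kgen_pb (eW.symm j).2))⟩ := fun i j => Fin.ext (hr i j)
  have hrmC : ∀ (i : Fin (m + 1)) (j : Fin (k + 1)),
      (eO.symm ⟨rmN ((k, m), a, q, r) i j, CB.dg_lt _ _ _⟩ : C) =
        rm ρ (eO.symm i : C) (gen (eW.symm j : W)) := by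
    intro i j
    rw [hrm, Equiv.symm_apply_apply]
  have hriC : ∀ (i : Fin (m + 1)) (j : Fin (k + 1)),
      (eO.symm ⟨riN ((k, m), a, q, r) i j, CB.dg_lt _ _ _⟩ : C) =
        rm ρ (eO.symm i : C) (gen (eW.symm j : W))⁻¹ := by
    intro i j
    rw [hri, Equiv.symm_apply_apply]
  have hinj : ∀ i j : Fin (m + 1), (eO.symm i : C) = (eO.symm j : C) → i = j :=
    fun i j h => eO.symm.injective (Subtype.ext h)
  have hA : ActV ((k, m), a, q, r) := by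
    refine ⟨?_, ?_⟩
    · intro i hi j hj
      refine ⟨?_, ?_⟩
      · have h1 := hinj ⟨riN ((k, m), a, q, r) (rmN ((k, m), a, q, r) i j) j, CB.dg_lt _ _ _⟩
          ⟨i, hi⟩ (by
            have h2 := hriC ⟨rmN ((k, m), a, q, r) i j, CB.dg_lt _ _ _⟩ ⟨j, hj⟩
            rw [hrmC ⟨i, hi⟩ ⟨j, hj⟩, rm_inv_r] at h2
            exact h2)
        exact congrArg Fin.val h1
      · have h1 := hinj ⟨rmN ((k, m), a, q, r) (riN ((k, m), a, q, r) i j) j, CB.dg_lt _ _ _⟩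
          ⟨i, hi⟩ (by
            have h2 := hrmC ⟨riN ((k, m), a, q, r) i j, CB.dg_lt _ _ _⟩ ⟨j, hj⟩
            rw [hriC ⟨i, hi⟩ ⟨j, hj⟩, rm_inv_l] at h2
            exact h2)
        exact congrArg Fin.val h1
    · intro i hi v hv w hw hvw
      have h0 := (hadj ⟨v, hv⟩ ⟨w, hw⟩).1 hvw
      have h1 := hrmC ⟨rmN ((k, m), a, q, r) i v, CB.dg_lt _ _ _⟩ ⟨w, hw⟩
      have h2 := hrmC ⟨rmN ((k, m), a, q, r) i w, CB.dg_lt _ _ _⟩ ⟨v, hv⟩
      rw [hrmC ⟨i, hi⟩ ⟨v, hv⟩, ← rm_mul, gen_comm h0, rm_mul, ← hrmC ⟨i, hi⟩ ⟨w, hw⟩, ← h2] at h1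
      exact congrArg Fin.val (hinj _ _ h1)
  have hBU : BU (Γ.induce S) (Λ.induce {a : W | π a ∈ S})
      (fun a : {a : W | π a ∈ S} => (⟨π a, a.2⟩ : S)) := by
    refine ⟨?_, ?_, ?_⟩
    · rintro ⟨v, hv⟩
      obtain ⟨b, rfl⟩ := hB.surj v
      exact ⟨⟨b, hv⟩, rfl⟩
    · rintro ⟨x, hx⟩ ⟨y, hy⟩ hxy
      exact hB.adj x y (fun h => hxy (Subtype.ext h))
    · rintro ⟨v, hv⟩
      rcases hB.uni v with h | h
      · left
        rintro ⟨x, hx⟩ ⟨y, hy⟩ h1 h2 h3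
        exact h x y (congrArg Subtype.val h1) (congrArg Subtype.val h2)
          (fun h4 => h3 (Subtype.ext h4))
      · right
        rintro ⟨x, hx⟩ ⟨y, hy⟩ h1 h2
        exact h x y (congrArg Subtype.val h1) (congrArg Subtype.val h2)
  have hval : ValN2 (((k, m), a, q, r), kv, aG, z) :=
    c03_val hBU hN hP (((k, m), a, q, r), kv, aG, z) hkv hA eW eV ha haG
      (fun b => congrArg Fin.val (hpi b))
  refine ⟨(((k, m), a, q, r), kv, aG, z), fun n => (eO.symm n : C), fun b => (eW.symm b : W),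
    fun v => (eV.symm v : V), hval, ?_, ?_, ?_, ?_, ?_, ?_, ?_, ?_, ?_, ?_⟩
  · exact fun i j h => hinj i j h
  · intro c
    constructor
    · rintro ⟨n, rfl⟩
      exact (eO.symm n).2
    · intro h
      exact ⟨eO ⟨c, h⟩, by simp⟩
  · intro i j h
    exact eW.symm.injective (Subtype.ext h)
  · intro b
    constructor
    · rintro ⟨n, rfl⟩
      exact (eW.symm n).2
    · intro h
      exact ⟨eW ⟨b, h⟩, by simp⟩
  · intro i j h
    exact eV.symm.injective (Subtype.ext h)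
  · intro b
    constructor
    · rintro ⟨n, rfl⟩
      exact (eV.symm n).2
    · intro h
      exact ⟨eV ⟨b, h⟩, by simp⟩
  · intro b
    show π (eW.symm b : W) = (eV.symm (piF (((k, m), a, q, r), kv, aG, z) b) : V)
    rw [hpi, Equiv.symm_apply_apply]
  · exact hadj
  · exact hadG
  · exact hrmC

end RaagBL
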