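import Pool.Agent.Lib.MP_32d917_al_bl.KE2

/-!
# KE3: existence of the sub-codes
-/

set_option autoImplicit false

namespace RaagBL

open LatIso RaagIso RaagGP
open AdmIso (Wd mvs fM cmW)

/-- the conditions of `SubV` for one sub-code -/
def SubS (c : BC) (s : SubC) : Prop :=
  (s.1 < nB c ∧ RigN c s.1 ∧ ValN2 s.2.1) ∧
  (∀ y < cM s.2.1.1, ∀ z < cM s.2.1.1, CB.dg c.1.1.1.2 s.2.2.1 y = CB.dg c.1.1.1.2 s.2.2.1 z →
    y = z) ∧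
  (∀ a < cK s.2.1.1, ∀ b < cK s.2.1.1, CB.dg c.1.1.1.1 s.2.2.2.1 a = CB.dg c.1.1.1.1 s.2.2.2.1 b →
    a = b) ∧
  (∀ v < kG s.2.1, ∀ w < kG s.2.1, CB.dg c.1.2.1 s.2.2.2.2 v = CB.dg c.1.2.1 s.2.2.2.2 w →
    v = w) ∧
  (∀ a < cK c.1.1, (InK c s.1 (piN c.1 a) ↔ ∃ b < cK s.2.1.1, CB.dg c.1.1.1.1 s.2.2.2.1 b = a)) ∧
  (∀ v < kG c.1, (InK c s.1 v ↔ ∃ w < kG s.2.1, CB.dg c.1.2.1 s.2.2.2.2 w = v)) ∧
  (∀ a < cK s.2.1.1, piN c.1 (CB.dg c.1.1.1.1 s.2.2.2.1 a) =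
    CB.dg c.1.2.1 s.2.2.2.2 (piN s.2.1 a)) ∧
  (∀ a < cK s.2.1.1, ∀ b < cK s.2.1.1,
    (AdN c.1.1 (CB.dg c.1.1.1.1 s.2.2.2.1 a) (CB.dg c.1.1.1.1 s.2.2.2.1 b) ↔
      AdN s.2.1.1 a b)) ∧
  (∀ v < kG s.2.1, ∀ w < kG s.2.1,
    (AdG c.1 (CB.dg c.1.2.1 s.2.2.2.2 v) (CB.dg c.1.2.1 s.2.2.2.2 w) ↔ AdG s.2.1 v w)) ∧
  (∀ y < cM s.2.1.1, ∀ a < cK s.2.1.1,
    rmN c.1.1 (CB.dg c.1.1.1.2 s.2.2.1 y) (CB.dg c.1.1.1.1 s.2.2.2.1 a) =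
      CB.dg c.1.1.1.2 s.2.2.1 (rmN s.2.1.1 y a)) ∧
  (∀ y < cM s.2.1.1, ∀ z < cM s.2.1.1, OrD s.2.1.1 (fun a => piN s.2.1 a = piN s.2.1 a) y z)

theorem subV_iff (c : BC) (j : ℕ) : SubV c j ↔ SubS c (sc c j) := Iff.rfl

theorem ksubd_trn {V W C : Type} {Λ : SimpleGraph W} {Γ : SimpleGraph V} {π : W → V} {S : Set V}
    {ρ : RA Λ →* Equiv.Perm C} {p : C} {d : Cd2} {e : Fin (cM d.1) → C} {ι : Fin (cK d.1) → W}
    {ν : Fin (kG d) → V} (h : SubD Γ π S ρ p d e ι ν) (hA : ActV d.1) (y z : Fin (cM d.1)) :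
    OrD d.1 (fun a => piN d a = piN d a) y z := by
  obtain ⟨ρd, hρd⟩ := rho_exists2 d.1 hA
  have hact : ∀ (n : Fin (cM d.1)) (b : Fin (cK d.1)),
      e (rm ρd n (gen b)) = rm ρ (e n) (gen (ι b)) := by
    intro n b
    rw [← h.act n b]
    congr 1
    exact Fin.ext (hρd n b)
  have key : ∀ g ∈ PB Λ π S, ∀ n : Fin (cM d.1),
      ∃ x ∈ PP (gr d.1) {a : Fin (cK d.1) | piN d a = piN d a}, e (rm ρd n x) = rm ρ (e n) g := by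
    intro g hg
    have hg' := hg
    unfold PB PP at hg'
    induction hg' using Subgroup.closure_induction with
    | mem g hg2 =>
      obtain ⟨a, ha, rfl⟩ := hg2
      obtain ⟨b, rfl⟩ := (h.irng a).2 ha
      intro n
      exact ⟨gen b, Subgroup.subset_closure ⟨b, rfl, rfl⟩, hact n b⟩
    | one => exact fun n => ⟨1, one_mem _, by rw [rm_one, rm_one]⟩
    | mul g g' hg1 hg2 ih ih' =>
      intro n
      obtain ⟨x, hx, hx'⟩ := ih hg1 n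
      obtain ⟨y, hy, hy'⟩ := ih' hg2 (rm ρd n x)
      exact ⟨x * y, mul_mem hx hy, by rw [rm_mul, hy', hx', rm_mul]⟩
    | inv g hg1 ih =>
      intro n
      obtain ⟨n', hn'⟩ := (h.erng (rm ρ (e n) g⁻¹)).2
        (kob_mul ((h.erng (e n)).1 ⟨n, rfl⟩) hg)
      obtain ⟨x, hx, hx'⟩ := ih hg1 n'
      rw [hn', rm_inv_l] at hx'
      have h1 := h.einj hx'
      refine ⟨x⁻¹, inv_mem hx, ?_⟩
      rw [← h1, rm_inv_r, hn', h1]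
  obtain ⟨g, hg, hgz⟩ := kob_trans (kob_symm ((h.erng (e y)).1 ⟨y, rfl⟩)) ((h.erng (e z)).1 ⟨z, rfl⟩)
  obtain ⟨x, hx, hx'⟩ := key g hg y
  refine (ord_iff hA hρd _ y z).2 ⟨x, hx, ?_⟩
  rw [hgz] at hx'
  exact h.einj hx'

theorem ksubS_exists {c : BC} (hBU : BU (grG c.1) (gr c.1.1) (piF c.1))
    {ρ : RA (gr c.1.1) →* Equiv.Perm (Fin (cM c.1.1))} (hρ : IsRho c.1.1 ρ) (i : Fin (nB c))
    (hi : Rig (grG c.1) (blk c i)) (x : Fin (cM c.1.1)) :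
    ∃ s : SubC, s.1 = i ∧ SubS c s ∧ ∀ z : Fin (cM c.1.1),
      ((∃ y < cM s.2.1.1, CB.dg c.1.1.1.2 s.2.2.1 y = z) ↔ Ob (piF c.1) ρ (blk c i) x z) := by
  obtain ⟨d, e, ι, ν, hv, h⟩ := ksub_exists hBU ρ hi x
  obtain ⟨te, hte⟩ := ktab_fin1 e
  obtain ⟨ti, hti⟩ := ktab_fin1 ι
  obtain ⟨tv, htv⟩ := ktab_fin1 ν
  refine ⟨((i : ℕ), d, te, ti, tv), rfl, ⟨⟨i.2, (krig_iff c i).2 hi, hv⟩, ?_, ?_, ?_, ?_, ?_, ?_, ?_,
    ?_, ?_, ?_⟩, ?_⟩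
  · intro y hy z hz hyz
    have h1 := hte ⟨y, hy⟩
    have h2 := hte ⟨z, hz⟩
    dsimp only at h1 h2 hyz
    rw [h1, h2] at hyz
    exact congrArg Fin.val (h.einj (Fin.ext hyz))
  · intro y hy z hz hyz
    have h1 := hti ⟨y, hy⟩
    have h2 := hti ⟨z, hz⟩
    dsimp only at h1 h2 hyz
    rw [h1, h2] at hyz
    exact congrArg Fin.val (h.iinj (Fin.ext hyz))
  · intro y hy z hz hyz
    have h1 := htv ⟨y, hy⟩
    have h2 := htv ⟨z, hz⟩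
    dsimp only at h1 h2 hyz
    rw [h1, h2] at hyz
    exact congrArg Fin.val (h.vinj (Fin.ext hyz))
  · intro a ha
    have h1 := h.irng ⟨a, ha⟩
    constructor
    · intro h2
      obtain ⟨b, hb⟩ := h1.2 h2
      refine ⟨b, b.2, ?_⟩
      have h3 := hti b
      dsimp only at h3 ⊢
      rw [h3, hb]
    · rintro ⟨b, hb, hb'⟩
      have h3 := hti ⟨b, hb⟩
      dsimp only at h3 hb'
      rw [h3] at hb'
      exact h1.1 ⟨⟨b, hb⟩, Fin.ext hb'⟩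
  · intro v hv
    have h1 := h.vrng ⟨v, hv⟩
    constructor
    · intro h2
      obtain ⟨b, hb⟩ := h1.2 h2
      refine ⟨b, b.2, ?_⟩
      have h3 := htv b
      dsimp only at h3 ⊢
      rw [h3, hb]
    · rintro ⟨b, hb, hb'⟩
      have h3 := htv ⟨b, hb⟩
      dsimp only at h3 hb'
      rw [h3] at hb'
      exact h1.1 ⟨⟨b, hb⟩, Fin.ext hb'⟩
  · intro a ha
    have h1 := congrArg Fin.val (h.com ⟨a, ha⟩)
    have h2 := hti ⟨a, ha⟩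
    have h3 := htv (piF d ⟨a, ha⟩)
    dsimp only at h2 h3 ⊢
    have e1 : piN d a = (piF d ⟨a, ha⟩ : ℕ) := rfl
    rw [h2, e1, h3]
    exact h1
  · intro a ha b hb
    have h1 := h.adjW ⟨a, ha⟩ ⟨b, hb⟩
    have h2 := hti ⟨a, ha⟩
    have h3 := hti ⟨b, hb⟩
    dsimp only at h1 h2 h3 ⊢
    rw [h2, h3]
    exact h1.symm
  · intro a ha b hb
    have h1 := h.adjV ⟨a, ha⟩ ⟨b, hb⟩
    have h2 := htv ⟨a, ha⟩
    have h3 := htv ⟨b, hb⟩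
    dsimp only at h1 h2 h3 ⊢
    rw [h2, h3]
    exact h1.symm
  · intro y hy a ha
    have h1 := congrArg Fin.val (h.act ⟨y, hy⟩ ⟨a, ha⟩)
    have h2 := hte ⟨y, hy⟩
    have h3 := hti ⟨a, ha⟩
    have h4 := hte ⟨rmN d.1 y a, CB.dg_lt _ _ _⟩
    rw [hρ] at h1
    dsimp only at h1 h2 h3 h4 ⊢
    rw [h2, h3, h4]
    exact h1.symm
  · intro y hy z hz
    exact ksubd_trn h hv.2.1 ⟨y, hy⟩ ⟨z, hz⟩
  · intro z
    rw [← h.erng z]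
    constructor
    · rintro ⟨y, hy, hy'⟩
      have h1 := hte ⟨y, hy⟩
      dsimp only at h1 hy'
      rw [h1] at hy'
      exact ⟨⟨y, hy⟩, Fin.ext hy'⟩
    · rintro ⟨y, hy⟩
      refine ⟨y, y.2, ?_⟩
      have h1 := hte y
      dsimp only at h1 ⊢
      rw [h1, hy]

end RaagBL
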