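import Pool.Agent.Lib.MP_32d917_al_bl.KE3

/-!
# KE4: existence of codes
-/

set_option autoImplicit false

namespace RaagBL

open LatIso RaagIso RaagGP
open AdmIso (Wd mvs fM cmW)

theorem base_exists {V W : Type} [Finite V] [Finite W] (Γ : SimpleGraph V) (Λ : SimpleGraph W)
    (π : W → V) (v0 : V) (w0 : W) (H : Subgroup (RA Λ)) (hH : H.FiniteIndex) :
    ∃ (c : Cd2) (e : W ≃ Fin (cK c.1)) (f : V ≃ Fin (kG c)),
      (∀ a b, Λ.Adj a b ↔ (gr c.1).Adj (e a) (e b)) ∧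
      (∀ a b, Γ.Adj a b ↔ (grG c).Adj (f a) (f b)) ∧
      (∀ a, piF c (e a) = f (π a)) ∧ ActV c.1 ∧
      ∃ ρ : RA (gr c.1) →* Equiv.Perm (Fin (cM c.1)), IsRho c.1 ρ ∧ Trn ρ ∧
      Nonempty (H ≃* stb ρ 0) := by
  classical
  obtain ⟨kv, ⟨f⟩⟩ := kfin_equiv V v0
  obtain ⟨k, ⟨e⟩⟩ := kfin_equiv W w0
  have hfin : Finite (RA Λ ⧸ H) := inferInstance
  obtain ⟨m, ⟨e0⟩⟩ := kfin_equiv (RA Λ ⧸ H) ((1 : RA Λ) : RA Λ ⧸ H)
  let e' : (RA Λ ⧸ H) ≃ Fin (m + 1) := e0.trans (Equiv.swap (e0 ((1 : RA Λ) : RA Λ ⧸ H)) 0)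
  have he : e' ((1 : RA Λ) : RA Λ ⧸ H) = 0 := by
    show Equiv.swap (e0 ((1 : RA Λ) : RA Λ ⧸ H)) 0 (e0 ((1 : RA Λ) : RA Λ ⧸ H)) = 0
    exact Equiv.swap_apply_left _ _
  obtain ⟨a, ha⟩ := c03_adj Λ k e
  obtain ⟨aG, haG⟩ := c03_adj Γ kv f
  obtain ⟨p, hp⟩ := ktab_fin (fun (i : Fin (m + 1)) (j : Fin (k + 1)) =>
    e' ((gen (e.symm j) : RA Λ)⁻¹ • e'.symm i))
  obtain ⟨q, hq⟩ := ktab_fin (fun (i : Fin (m + 1)) (j : Fin (k + 1)) =>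
    e' ((gen (e.symm j) : RA Λ) • e'.symm i))
  obtain ⟨z, hz⟩ := ktab_fin1 (fun t : Fin (k + 1) => f (π (e.symm t)))
  have hadj : ∀ v w : Fin (k + 1), AdN ((k, m), a, p, q) v w ↔ Λ.Adj (e.symm v) (e.symm w) := ha
  have hadG : ∀ v w : Fin (kv + 1), AdG (((k, m), a, p, q), kv, aG, z) v w ↔
    Γ.Adj (f.symm v) (f.symm w) := haG
  have hrm : ∀ (i : Fin (m + 1)) (v : Fin (k + 1)), rmN ((k, m), a, p, q) i v =
      (e' ((gen (e.symm v) : RA Λ)⁻¹ • e'.symm i) : Fin (m + 1)) := hp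
  have hri : ∀ (i : Fin (m + 1)) (v : Fin (k + 1)), riN ((k, m), a, p, q) i v =
      (e' ((gen (e.symm v) : RA Λ) • e'.symm i) : Fin (m + 1)) := hq
  have hA : ActV ((k, m), a, p, q) := c03_act H ((k, m), a, p, q) e e' hadj hrm hri
  refine ⟨(((k, m), a, p, q), kv, aG, z), e, f, ?_, ?_, ?_, hA,
    c03_core H ((k, m), a, p, q) hA e e' he hadj hrm⟩
  · intro x y
    have h1 := hadj (e x) (e y)
    rw [Equiv.symm_apply_apply, Equiv.symm_apply_apply] at h1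
    exact h1.symm
  · intro x y
    have h1 := hadG (f x) (f y)
    rw [Equiv.symm_apply_apply, Equiv.symm_apply_apply] at h1
    exact h1.symm
  · intro x
    apply Fin.ext
    have h1 := hz (e x)
    rw [Equiv.symm_apply_apply] at h1
    exact h1

/-- lists of sub-codes, one for every orbit -/
theorem list_exists {c : BC} (hA : ActV c.1.1)
    (hC : Ctx (grG c.1) (gr c.1.1) (piF c.1) (blk c))
    {ρ : RA (gr c.1.1) →* Equiv.Perm (Fin (cM c.1.1))} (hρ : IsRho c.1.1 ρ) :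
    ∃ L : List SubC, BVal (c.1, c.2.1, L) := by
  classical
  let Q : Type := {p : Fin (nB c) × Fin (cM c.1.1) // Rig (grG c.1) (blk c p.1) ∧
    ∀ y, Ob (piF c.1) ρ (blk c p.1) p.2 y → p.2 ≤ y}
  obtain ⟨N, ⟨g⟩⟩ := Finite.exists_equiv_fin Q
  have hex : ∀ q : Q, ∃ s : SubC, s.1 = q.1.1 ∧ SubS c s ∧ ∀ z : Fin (cM c.1.1),
      ((∃ y < cM s.2.1.1, CB.dg c.1.1.1.2 s.2.2.1 y = z) ↔
        Ob (piF c.1) ρ (blk c q.1.1) q.1.2 z) :=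
    fun q => ksubS_exists hC.bu hρ q.1.1 q.2.1 q.1.2
  choose S hS1 hS2 hS3 using hex
  obtain ⟨L, hL⟩ : ∃ L : List SubC, L = List.ofFn (fun k : Fin N => S (g.symm k)) := ⟨_, rfl⟩
  have hlen : L.length = N := by rw [hL, List.length_ofFn]
  have hget : ∀ j, (hj : j < N) → L.getD j dSub = S (g.symm ⟨j, hj⟩) := by
    intro j hj
    rw [List.getD_eq_getElem _ _ (by rw [hlen]; exact hj)]
    simp [hL]
  obtain ⟨h1, h2, h3, h4, h5, h6, h7, h8, h9⟩ := bval_ctx hA hC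
  refine ⟨L, h1, h2, h3, h4, h5, h6, h7, h8, h9, ?_, ?_, ?_⟩
  · intro j hj
    have hj' : j < N := by rw [← hlen]; exact hj
    rw [subV_iff]
    have e1 : sc (c.1, c.2.1, L) j = S (g.symm ⟨j, hj'⟩) := hget j hj'
    rw [e1]
    exact hS2 _
  · intro i hi hR x hx
    -- the least point of the orbit
    have hR' : Rig (grG c.1) (blk c ⟨i, hi⟩) := (krig_iff c ⟨i, hi⟩).1 hR
    obtain ⟨y, hy1, hy2⟩ : ∃ y : Fin (cM c.1.1), Ob (piF c.1) ρ (blk c ⟨i, hi⟩) ⟨x, hx⟩ y ∧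
        ∀ z, Ob (piF c.1) ρ (blk c ⟨i, hi⟩) ⟨x, hx⟩ z → y ≤ z := by
      obtain ⟨y, hy, hm⟩ := Set.exists_min_image
        {z : Fin (cM c.1.1) | Ob (piF c.1) ρ (blk c ⟨i, hi⟩) ⟨x, hx⟩ z} (fun z => (z : ℕ))
        (Set.toFinite _) ⟨⟨x, hx⟩, kob_refl _ _ _ _⟩
      exact ⟨y, hy, fun z hz => hm z hz⟩
    let q : Q := ⟨(⟨i, hi⟩, y), hR', fun z hz => hy2 z (kob_trans hy1 hz)⟩
    have e1 : sc (c.1, c.2.1, L) (g q) = S q := by
      have e2 := hget (g q) (g q).2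
      rw [Fin.eta, Equiv.symm_apply_apply] at e2
      exact e2
    refine ⟨g q, ?_, ?_, ?_⟩
    · show (g q : ℕ) < L.length
      rw [hlen]
      exact (g q).2
    · show (sc (c.1, c.2.1, L) (g q)).1 = i
      rw [e1]
      exact hS1 q
    · have h10 := (hS3 q ⟨x, hx⟩).2 (kob_symm hy1)
      show ∃ y < cM (sc (c.1, c.2.1, L) (g q)).2.1.1,
        CB.dg c.1.1.1.2 (sc (c.1, c.2.1, L) (g q)).2.2.1 y = x
      rw [e1]
      exact h10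
  · intro j hj k hk hjk y hy z hz hyz
    have hj' : j < N := by rw [← hlen]; exact hj
    have hk' : k < N := by rw [← hlen]; exact hk
    have e1 : sc (c.1, c.2.1, L) j = S (g.symm ⟨j, hj'⟩) := hget j hj'
    have e2 : sc (c.1, c.2.1, L) k = S (g.symm ⟨k, hk'⟩) := hget k hk'
    have hjk' : (sc (c.1, c.2.1, L) j).1 = (sc (c.1, c.2.1, L) k).1 := hjk
    have hy' : y < cM (sc (c.1, c.2.1, L) j).2.1.1 := hy
    have hz' : z < cM (sc (c.1, c.2.1, L) k).2.1.1 := hz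
    have hyz' : CB.dg c.1.1.1.2 (sc (c.1, c.2.1, L) j).2.2.1 y =
      CB.dg c.1.1.1.2 (sc (c.1, c.2.1, L) k).2.2.1 z := hyz
    rw [e1] at hjk' hy' hyz'
    rw [e2] at hjk' hz' hyz'
    obtain ⟨q, hq⟩ : ∃ q, q = g.symm ⟨j, hj'⟩ := ⟨_, rfl⟩
    obtain ⟨r, hr⟩ : ∃ r, r = g.symm ⟨k, hk'⟩ := ⟨_, rfl⟩
    rw [← hq] at hjk' hy' hyz'
    rw [← hr] at hjk' hz' hyz'
    rw [hS1, hS1] at hjk'
    have h10 := (hS3 q ⟨CB.dg c.1.1.1.2 (S q).2.2.1 y, CB.dg_lt _ _ _⟩).1 ⟨y, hy', rfl⟩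
    have h11 := (hS3 r ⟨CB.dg c.1.1.1.2 (S q).2.2.1 y, CB.dg_lt _ _ _⟩).1 ⟨z, hz', hyz'.symm⟩
    have e3 : q.1.1 = r.1.1 := Fin.ext hjk'
    rw [← e3] at h11
    have h12 := q.2.2 _ (kob_trans h10 (kob_symm h11))
    have h13 := r.2.2 r.1.2
    have h14 := r.2.2 q.1.2 (by
      rw [← e3]
      exact kob_trans h11 (kob_symm h10))
    have e4 : q = r := Subtype.ext (Prod.ext e3 (le_antisymm h12 h14))
    rw [hq, hr] at e4
    exact congrArg Fin.val (g.symm.injective e4)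

theorem codeB_exists {V W : Type} [Finite V] [Finite W] {Γ : SimpleGraph V} {Λ : SimpleGraph W}
    {π : W → V} {m : ℕ} {B : Fin m → Set V} (h : Ctx Γ Λ π B) (H : Subgroup (RA Λ))
    (hH : H.FiniteIndex) :
    ∃ c : BC, BVal c ∧ ∃ ρ : RA (gr c.1.1) →* Equiv.Perm (Fin (cM c.1.1)), IsRho c.1.1 ρ ∧
      Trn ρ ∧ Nonempty (H ≃* stb ρ 0) := by
  classical
  obtain ⟨v0, -⟩ := h.big
  obtain ⟨w0, -⟩ := h.bu.surj v0
  obtain ⟨c, e, f, he, hf, hp, hA, ρ, hρ, hT, hH2⟩ := base_exists Γ Λ π v0 w0 H hH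
  obtain ⟨i0, -⟩ := h.glu.cov v0
  obtain ⟨n, rfl⟩ : ∃ n, m = n + 1 := ⟨m - 1, by have := i0.2; omega⟩
  obtain ⟨u, hu⟩ := ktab_fin (fun (i : Fin (n + 1)) (v : Fin (c.2.1 + 1)) =>
    if f.symm v ∈ B i then (1 : Fin (1 + 1)) else 0)
  have hB : ∀ (i : Fin (n + 1)) (v : V), v ∈ B i ↔ f v ∈ blk (c, (n, u), []) i := by
    intro i v
    rw [kmem_blk]
    have h1 : CB.dg 1 u ((i : ℕ) * (c.2.1 + 1) + (f v : Fin (c.2.1 + 1))) = _ := hu i (f v)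
    show v ∈ B i ↔ CB.dg 1 u ((i : ℕ) * (c.2.1 + 1) + f v) = 1
    rw [h1, Equiv.symm_apply_apply]
    by_cases h2 : v ∈ B i
    · simp [h2]
    · simp [h2]
  have hC : Ctx (grG c) (gr c.1) (piF c) (blk (c, (n, u), [])) :=
    kctx_iso (Λ' := gr c.1) e f hf he hp hB h
  obtain ⟨L, hL⟩ := list_exists (c := (c, (n, u), [])) hA hC hρ
  exact ⟨(c, (n, u), L), hL, ρ, hρ, hT, hH2⟩

end RaagBL
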