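import Pool.Agent.Lib.MP_32d917_al_bl.S09

/-!
# S13: a matching gives the lattice condition of the edge blocks (75 min)

`B i = {π a, π b}`, `NB Γ B i`, `τ i p (π a) = π' a'`, `τ i p (π b) = π' b'`, `i' = β i p`; so `B' i' = {π' a', π' b'}` (`hM.tbij`), adjacent (`hM.tadj`), `NB Γ' B' i'` (`hM.nb`), all four vertices are cut (`edg_cut`, `BG3`), the letters over them are unique. `PB (B i)` and `PB' (B' i')` are commutative with elements `gen a ^ s * gen b ^ t`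
(`el2` in `S09`). `p'` is in the orbit of `F i p` under `PB' (B' i')`, so `SK' p' = SK' (F i p)`, and the periods of `a'`, `b'` at both points are equal (`pr_comm`).
`→`: `x < k`, `y < l`, `z = gen a ^ x * gen b ^ y ∈ SK (B i) p`. `Φ i p z = gen a' ^ s * gen b' ^ t`. `z ^ (k * l) = (gen a ^ k) ^ (x * l) * (gen b ^ l) ^ (y * k)`, so (homomorphism, `hM.sgn` for `π a`, `π b`) `gen a' ^ (s * k * l) * gen b' ^ (t * k * l) = gen a' ^ (η * k' * x * l) * gen b' ^ (θ * l' * y * k)`, so `s * k = η * k' * x`, `t * l = θ * l' * y`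
(`uniq2` in `S09`). Put `x' = η * s`, `y' = θ * t`, so `x' * k = x * k'`, `0 ≤ x' < k'` since `0 ≤ x < k`; the same for `y'`. `(η x', θ y') = (s, t)` is in the lattice of `F i p`, hence of `p'`; if `η = θ`, `(x', y') = ± (s, t)`; if `η ≠ θ`, `(x', - y') = ± (s, t)`.
`←` (the second `Lat`): by `hM.surj` an element `gen a' ^ x * gen b' ^ y ∈ SK' p' = SK' (F i p)` is `Φ i p (gen a ^ s * gen b ^ t)`, and `s * k' = η * k * x`, `t * l' = θ * l * y` by the same computation (`hM.inj` is not needed: `(gen a ^ s * gen b ^ t) ^ (k * l)` is mapped to `gen a' ^ (η * k' * s * l) * ...`).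
-/

set_option autoImplicit false

namespace RaagBL

open RaagIso RaagGP

variable {V W V' W' C C' : Type} {Γ : SimpleGraph V} {Λ : SimpleGraph W} {π : W → V}
  {Γ' : SimpleGraph V'} {Λ' : SimpleGraph W'} {π' : W' → V'} {ρ : RA Λ →* Equiv.Perm C}
  {ρ' : RA Λ' →* Equiv.Perm C'} {m m' : ℕ} {B : Fin m → Set V} {B' : Fin m' → Set V'}

private theorem s13_mul {Λ : SimpleGraph W} {a b : W} (hc : Commute (gen a : RA Λ) (gen b))
    (s t s' t' : ℤ) : (gen a : RA Λ) ^ s * gen b ^ t * (gen a ^ s' * gen b ^ t') =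
      gen a ^ (s + s') * gen b ^ (t + t') := by
  have h1 : (gen b : RA Λ) ^ t * gen a ^ s' = gen a ^ s' * gen b ^ t := (hc.zpow_zpow s' t).eq.symm
  calc (gen a : RA Λ) ^ s * gen b ^ t * (gen a ^ s' * gen b ^ t') =
      gen a ^ s * (gen b ^ t * gen a ^ s') * gen b ^ t' := by group
    _ = gen a ^ s * (gen a ^ s' * gen b ^ t) * gen b ^ t' := by rw [h1]
    _ = _ := by rw [zpow_add, zpow_add]; group

private theorem s13_inv {Λ : SimpleGraph W} {a b : W} (hc : Commute (gen a : RA Λ) (gen b))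
    (s t : ℤ) : ((gen a : RA Λ) ^ s * gen b ^ t)⁻¹ = gen a ^ (-s) * gen b ^ (-t) := by
  rw [mul_inv_rev, ← zpow_neg, ← zpow_neg]
  exact (hc.zpow_zpow (-s) (-t)).eq.symm

private theorem s13_uniq {Λ : SimpleGraph W} {a b : W} (hne : a ≠ b) {m n m' n' : ℤ}
    (h : (gen a : RA Λ) ^ m * gen b ^ n = gen a ^ m' * gen b ^ n') : m = m' ∧ n = n' := by
  classical
  have h1 := congrArg (ab Λ a) h
  have h2 := congrArg (ab Λ b) h
  simp only [map_mul, map_zpow, ab_gen, if_true, hne.symm, hne, if_false, one_zpow, mul_one,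
    one_mul] at h1 h2
  have h3 := congrArg Multiplicative.toAdd h1
  have h4 := congrArg Multiplicative.toAdd h2
  simp only [toAdd_zpow, toAdd_ofAdd, smul_eq_mul, mul_one] at h3 h4
  exact ⟨h3, h4⟩

/-- the lattice -/
private def L13 (ρ : RA Λ →* Equiv.Perm C) (a b : W) (p : C) (s t : ℤ) : Prop :=
  (gen a : RA Λ) ^ s * gen b ^ t ∈ stb ρ p

private theorem s13_add {a b : W} {p : C} (hc : Commute (gen a : RA Λ) (gen b)) {s t s' t' : ℤ}
    (h : L13 ρ a b p s t) (h' : L13 ρ a b p s' t') : L13 ρ a b p (s + s') (t + t') := by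
  unfold L13 at *
  rw [← s13_mul hc]
  exact mul_mem h h'

private theorem s13_neg {a b : W} {p : C} (hc : Commute (gen a : RA Λ) (gen b)) {s t : ℤ}
    (h : L13 ρ a b p s t) : L13 ρ a b p (-s) (-t) := by
  unfold L13 at *
  rw [← s13_inv hc]
  exact inv_mem h

private theorem s13_sgn {a b : W} {p : C} (hc : Commute (gen a : RA Λ) (gen b)) {s t : ℤ} (η : ℤˣ)
    (h : L13 ρ a b p s t) : L13 ρ a b p ((η : ℤ) * s) ((η : ℤ) * t) := by
  rcases Int.units_eq_one_or η with rfl | rfl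
  · simpa using h
  · have := s13_neg hc h
    simpa using this

private theorem s13_form {S : Set V} {a b : W} (hS : S = {π a, π b})
    (hc : Commute (gen a : RA Λ) (gen b)) (ha : ∀ c, π c = π a → c = a)
    (hb : ∀ c, π c = π b → c = b) {g : RA Λ} (hg : g ∈ PB Λ π S) :
    ∃ s t : ℤ, g = gen a ^ s * gen b ^ t := by
  subst hS
  refine h05_ind (P := fun g => ∃ s t : ℤ, g = gen a ^ s * gen b ^ t) ?_ ⟨0, 0, by simp⟩ ?_ ?_ hg
  · intro c hc'
    rcases hc' with h | h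
    · rw [ha c h]
      exact ⟨1, 0, by simp⟩
    · rw [hb c h]
      exact ⟨0, 1, by simp⟩
  · rintro x y - - ⟨s, t, rfl⟩ ⟨s', t', rfl⟩
    exact ⟨s + s', t + t', s13_mul hc s t s' t'⟩
  · rintro x - ⟨s, t, rfl⟩
    exact ⟨-s, -t, s13_inv hc s t⟩

private theorem s13_memf {S : Set V} {a b : W} (hS : S = {π a, π b}) (s t : ℤ) :
    (gen a : RA Λ) ^ s * gen b ^ t ∈ PB Λ π S := by
  subst hS
  have h1 : (gen a : RA Λ) ∈ PB Λ π {π a, π b} := pb_gen (by simp)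
  have h2 : (gen b : RA Λ) ∈ PB Λ π {π a, π b} := pb_gen (by simp)
  exact mul_mem (zpow_mem h1 s) (zpow_mem h2 t)

private theorem s13_usq (η : ℤˣ) (x : ℤ) : (η : ℤ) * ((η : ℤ) * x) = x := by
  rcases Int.units_eq_one_or η with rfl | rfl <;> simp

private theorem s13_ucan (η : ℤˣ) {x y : ℤ} (h : (η : ℤ) * x = (η : ℤ) * y) : x = y := by
  rw [← s13_usq η x, h, s13_usq]

private theorem s13_fin {a b : W} {p : C} {η θ : ℤˣ} (hc : Commute (gen a : RA Λ) (gen b))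
    (hk : 0 < pr ρ a p) (hl : 0 < pr ρ b p) {S T : ℤ} (hL : L13 ρ a b p S T) {x y K0 L0 : ℕ}
    (hx : x < K0) (hy : y < L0) (h1 : S * (K0 : ℤ) = (η : ℤ) * ((pr ρ a p : ℤ) * x))
    (h2 : T * (L0 : ℤ) = (θ : ℤ) * ((pr ρ b p : ℤ) * y)) :
    ∃ x' y' : ℕ, x' < pr ρ a p ∧ y' < pr ρ b p ∧ x' * K0 = x * pr ρ a p ∧
      y' * L0 = y * pr ρ b p ∧
      (η = θ → rm ρ p (gen a ^ x' * gen b ^ y') = p) ∧
      (η ≠ θ → rm ρ p (gen a ^ x') = rm ρ p (gen b ^ y')) := by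
  have key : ∀ (η : ℤˣ) (S : ℤ) (x K0 k : ℕ), 0 < k → x < K0 →
      S * (K0 : ℤ) = (η : ℤ) * ((k : ℤ) * x) →
      ∃ x' : ℕ, (η : ℤ) * S = x' ∧ x' < k ∧ x' * K0 = x * k := by
    intro η S x K0 k hk hx h1
    have hK0 : (0 : ℤ) < K0 := by
      have : 0 < K0 := by omega
      exact_mod_cast this
    have hkz : (0 : ℤ) < k := by exact_mod_cast hk
    have hxz : (x : ℤ) < K0 := by exact_mod_cast hx
    have e1 : (η : ℤ) * S * K0 = k * x := by
      rw [mul_assoc, h1, s13_usq]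
    have hx0 : (0 : ℤ) ≤ x := Int.natCast_nonneg x
    have e2 : 0 ≤ (η : ℤ) * S := by
      by_contra hneg
      push Not at hneg
      have := mul_neg_of_neg_of_pos hneg hK0
      rw [e1] at this
      have h0 := mul_nonneg hkz.le hx0
      omega
    obtain ⟨x', hx'⟩ := Int.eq_ofNat_of_zero_le e2
    have e3 : ((x' : ℕ) : ℤ) * K0 = x * k := by
      have : (η : ℤ) * S = (x' : ℤ) := hx'
      rw [this] at e1
      rw [e1]
      ring
    have e4 : x' * K0 = x * k := by exact_mod_cast e3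
    refine ⟨x', hx', ?_, e4⟩
    have e5 : x' * K0 < k * K0 := by
      rw [e4, mul_comm]
      exact Nat.mul_lt_mul_of_pos_left hx hk
    exact Nat.lt_of_mul_lt_mul_right e5
  obtain ⟨x', hx1, hx2, hx3⟩ := key η S x K0 (pr ρ a p) hk hx h1
  obtain ⟨y', hy1, hy2, hy3⟩ := key θ T y L0 (pr ρ b p) hl hy h2
  refine ⟨x', y', hx2, hy2, hx3, hy3, ?_, ?_⟩
  · intro he
    subst he
    have h3 := s13_sgn hc η hL
    rw [hx1, hy1] at h3
    unfold L13 at h3
    rw [mem_stb, zpow_natCast, zpow_natCast] at h3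
    exact h3
  · intro he
    have h3 := s13_sgn hc η hL
    have h4 : (η : ℤ) * T = -(y' : ℤ) := by
      rw [← hy1]
      rcases Int.units_eq_one_or η with rfl | rfl <;> rcases Int.units_eq_one_or θ with rfl | rfl
      · exact absurd rfl he
      · simp
      · simp
      · exact absurd rfl he
    rw [hx1, h4] at h3
    unfold L13 at h3
    rw [mem_stb, rm_mul, zpow_natCast, zpow_neg, zpow_natCast] at h3
    have h5 := congrArg (fun c => rm ρ c (gen b ^ y')) h3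
    simp only [rm_inv_l] at h5
    exact h5

/-- the exponents of the image -/
private theorem s13_exp {a b : W} {a' b' : W'} (hne' : a' ≠ b') {K : Subgroup (RA Λ)}
    (hc : Commute (gen a : RA Λ) (gen b)) (hc' : Commute (gen a' : RA Λ') (gen b'))
    {Ψ : RA Λ → RA Λ'} (hmul : ∀ g ∈ K, ∀ h ∈ K, Ψ (g * h) = Ψ g * Ψ h) {k l : ℕ} (hk : 0 < k)
    (hl : 0 < l) (hka : (gen a : RA Λ) ^ k ∈ K) (hlb : (gen b : RA Λ) ^ l ∈ K) {A A' : ℤ}
    (hA : Ψ (gen a ^ k) = gen a' ^ A) (hA' : Ψ (gen b ^ l) = gen b' ^ A') {s t S T : ℤ}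
    (hz : gen a ^ s * gen b ^ t ∈ K) (hS : Ψ (gen a ^ s * gen b ^ t) = gen a' ^ S * gen b' ^ T) :
    S * (k : ℤ) = A * s ∧ T * (l : ℤ) = A' * t := by
  set φ : ↥K →* RA Λ' := MonoidHom.mk' (fun g => Ψ g) (fun g h => hmul g g.2 h h.2) with hφ
  have e1 : (⟨_, hz⟩ : ↥K) ^ ((k : ℤ) * l) = (⟨_, hka⟩ : ↥K) ^ (s * l) * (⟨_, hlb⟩ : ↥K) ^ (t * k) := by
    apply Subtype.ext
    show ((gen a : RA Λ) ^ s * gen b ^ t) ^ ((k : ℤ) * l) =
      (gen a ^ k) ^ (s * l) * (gen b ^ l) ^ (t * k)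
    have h1 : Commute ((gen a : RA Λ) ^ s) (gen b ^ t) := hc.zpow_zpow s t
    rw [h1.mul_zpow, ← zpow_mul, ← zpow_mul, ← zpow_natCast (gen a : RA Λ) k,
      ← zpow_natCast (gen b : RA Λ) l, ← zpow_mul, ← zpow_mul]
    congr 2 <;> ring
  have e2 := congrArg φ e1
  rw [map_mul, map_zpow, map_zpow, map_zpow] at e2
  have e3 : φ ⟨_, hz⟩ = gen a' ^ S * gen b' ^ T := hS
  have e4 : φ ⟨_, hka⟩ = gen a' ^ A := hA
  have e5 : φ ⟨_, hlb⟩ = gen b' ^ A' := hA'
  rw [e3, e4, e5] at e2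
  have h1 : Commute ((gen a' : RA Λ') ^ S) (gen b' ^ T) := hc'.zpow_zpow S T
  rw [h1.mul_zpow, ← zpow_mul, ← zpow_mul, ← zpow_mul, ← zpow_mul] at e2
  obtain ⟨e6, e7⟩ := s13_uniq hne' e2
  have hkz : (k : ℤ) ≠ 0 := by exact_mod_cast hk.ne'
  have hlz : (l : ℤ) ≠ 0 := by exact_mod_cast hl.ne'
  constructor
  · apply mul_right_cancel₀ hlz
    linear_combination e6
  · apply mul_right_cancel₀ hkz
    linear_combination e7

theorem lat_of_mch [Finite C] [Finite C'] (hX : Ctx Γ Λ π B) (hX' : Ctx Γ' Λ' π' B')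
    {β : Fin m → C → Fin m'} {F : Fin m → C → C'} {τ : Fin m → C → V → V'}
    {Φ : Fin m → C → RA Λ → RA Λ'} {σ : V → C → V' × C'} {ε : V → C → ℤˣ}
    (hM : Mch Γ Γ' π π' B B' ρ ρ' β F τ Φ σ ε) {i : Fin m} {p : C} {p' : C'} (hi : NB Γ B i)
    {a b : W} {a' b' : W'} (hab : Γ.Adj (π a) (π b)) (hBi : B i = {π a, π b})
    (ha : τ i p (π a) = π' a') (hb : τ i p (π b) = π' b')
    (hp : Ob π' ρ' (B' (β i p)) (F i p) p') :
    Lat ρ ρ' a b a' b' p p' (ε (π a) p) (ε (π b) p) ∧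
      Lat ρ' ρ a' b' a b p' p (ε (π a) p) (ε (π b) p) := by
  classical
  have hadj' : Γ'.Adj (π' a') (π' b') := by
    have h1 := (hM.tadj i p hi (π a) (by rw [hBi]; exact Or.inl rfl) (π b)
      (by rw [hBi]; exact Or.inr rfl)).1 hab
    rwa [ha, hb] at h1
  have hi' : NB Γ' B' (β i p) := hM.nb i p hi
  have hBi' : B' (β i p) = {π' a', π' b'} := by
    have h1 := (hM.tbij i p hi).image_eq
    rw [← h1, hBi, Set.image_pair, ha, hb]
  have hne : a ≠ b := fun e => hab.ne (by rw [e])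
  have hne' : a' ≠ b' := fun e => hadj'.ne (by rw [e])
  have hE : Edg Γ (B i) := ⟨π a, π b, hab, hBi⟩
  have hE' : Edg Γ' (B' (β i p)) := ⟨π' a', π' b', hadj', hBi'⟩
  have hva : π a ∈ B i := by rw [hBi]; exact Or.inl rfl
  have hvb : π b ∈ B i := by rw [hBi]; exact Or.inr rfl
  have hva' : π' a' ∈ B' (β i p) := by rw [hBi']; exact Or.inl rfl
  have hvb' : π' b' ∈ B' (β i p) := by rw [hBi']; exact Or.inr rfl
  have hsa : ∀ c, π c = π a → c = a := fun c h => hX.sng (π a) (Or.inr ⟨i, hE, hva⟩) c a h rfl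
  have hsb : ∀ c, π c = π b → c = b := fun c h => hX.sng (π b) (Or.inr ⟨i, hE, hvb⟩) c b h rfl
  have hsa' : ∀ c, π' c = π' a' → c = a' :=
    fun c h => hX'.sng (π' a') (Or.inr ⟨_, hE', hva'⟩) c a' h rfl
  have hsb' : ∀ c, π' c = π' b' → c = b' :=
    fun c h => hX'.sng (π' b') (Or.inr ⟨_, hE', hvb'⟩) c b' h rfl
  have hc : Commute (gen a : RA Λ) (gen b) := gen_comm (adj_lift hX.bu hab)
  have hc' : Commute (gen a' : RA Λ') (gen b') := gen_comm (adj_lift hX'.bu hadj')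
  have hform : ∀ g ∈ PB Λ π (B i), ∃ s t : ℤ, g = gen a ^ s * gen b ^ t :=
    fun g hg => s13_form hBi hc hsa hsb hg
  have hform' : ∀ g ∈ PB Λ' π' (B' (β i p)), ∃ s t : ℤ, g = gen a' ^ s * gen b' ^ t :=
    fun g hg => s13_form hBi' hc' hsa' hsb' hg
  have hcomm' : ∀ g ∈ PB Λ' π' (B' (β i p)), ∀ h ∈ PB Λ' π' (B' (β i p)), g * h = h * g := by
    intro g hg h hh
    obtain ⟨s, t, rfl⟩ := hform' g hg
    obtain ⟨s', t', rfl⟩ := hform' h hh
    rw [s13_mul hc', s13_mul hc', add_comm s, add_comm t]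
  -- the points `F i p` and `p'`
  obtain ⟨x0, hx0, hx0p⟩ := hp
  have hst : ∀ g ∈ PB Λ' π' (B' (β i p)), (g ∈ stb ρ' p' ↔ g ∈ stb ρ' (F i p)) := by
    intro g hg
    rw [mem_stb, mem_stb, ← hx0p]
    constructor
    · intro h3
      rw [← rm_mul, hcomm' x0 hx0 g hg, rm_mul] at h3
      rw [← rm_inv_r (ρ := ρ') (rm ρ' (F i p) g) x0, h3, rm_inv_r]
    · intro h3
      rw [← rm_mul, hcomm' x0 hx0 g hg, rm_mul, h3]
  have hpra : pr ρ' a' p' = pr ρ' a' (F i p) := by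
    rw [← hx0p]
    exact pr_comm (hcomm' x0 hx0 _ (pb_gen hva')) _
  have hprb : pr ρ' b' p' = pr ρ' b' (F i p) := by
    rw [← hx0p]
    exact pr_comm (hcomm' x0 hx0 _ (pb_gen hvb')) _
  have hcuta : Cut B (π a) := edg_cut hX.glu hE hi hva
  have hcutb : Cut B (π b) := edg_cut hX.glu hE hi hvb
  have hsga := hM.sgn i p (π a) a a' hi hva hcuta rfl ha.symm
  have hsgb := hM.sgn i p (π b) b b' hi hvb hcutb rfl hb.symm
  rw [← hpra] at hsga
  rw [← hprb] at hsgb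
  set η := ε (π a) p with hη
  set θ := ε (π b) p with hθ
  have hk0 : 0 < pr ρ a p := pr_pos a p
  have hl0 : 0 < pr ρ b p := pr_pos b p
  have hk0' : 0 < pr ρ' a' p' := pr_pos a' p'
  have hl0' : 0 < pr ρ' b' p' := pr_pos b' p'
  have hka : (gen a : RA Λ) ^ pr ρ a p ∈ SK π ρ (B i) p :=
    ⟨pr_mem a p, pow_mem (pb_gen hva) _⟩
  have hlb : (gen b : RA Λ) ^ pr ρ b p ∈ SK π ρ (B i) p :=
    ⟨pr_mem b p, pow_mem (pb_gen hvb) _⟩
  have hexp : ∀ s t S T : ℤ, (gen a : RA Λ) ^ s * gen b ^ t ∈ SK π ρ (B i) p →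
      Φ i p (gen a ^ s * gen b ^ t) = gen a' ^ S * gen b' ^ T →
      S * (pr ρ a p : ℤ) = (η : ℤ) * pr ρ' a' p' * s ∧
        T * (pr ρ b p : ℤ) = (θ : ℤ) * pr ρ' b' p' * t :=
    fun s t S T hz hS => s13_exp hne' hc hc' (hM.mul i p hi) hk0 hl0 hka hlb hsga hsgb hz hS
  constructor
  · intro x y hx hy hxy
    have hz : (gen a : RA Λ) ^ (x : ℤ) * gen b ^ (y : ℤ) ∈ SK π ρ (B i) p := by
      refine ⟨?_, s13_memf hBi _ _⟩
      rw [zpow_natCast, zpow_natCast]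
      exact hxy
    have hz' := hM.map i p hi _ hz
    obtain ⟨S, T, hST⟩ := hform' _ hz'.2
    obtain ⟨e1, e2⟩ := hexp x y S T hz hST
    have hL : L13 ρ' a' b' p' S T := by
      unfold L13
      rw [hst _ (s13_memf hBi' _ _), ← hST]
      exact hz'.1
    refine s13_fin hc' hk0' hl0' hL hx hy ?_ ?_
    · rw [e1, mul_assoc]
    · rw [e2, mul_assoc]
  · intro x y hx hy hxy
    have hz' : (gen a' : RA Λ') ^ (x : ℤ) * gen b' ^ (y : ℤ) ∈ SK π' ρ' (B' (β i p)) (F i p) := by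
      refine ⟨(hst _ (s13_memf hBi' _ _)).1 ?_, s13_memf hBi' _ _⟩
      rw [zpow_natCast, zpow_natCast]
      exact hxy
    obtain ⟨z, hz, hzz⟩ := hM.surj i p hi _ hz'
    obtain ⟨s, t, rfl⟩ := hform z hz.2
    obtain ⟨e1, e2⟩ := hexp s t x y hz hzz
    refine s13_fin hc hk0 hl0 (S := s) (T := t) hz.1 hx hy ?_ ?_
    · have e3 := congrArg (fun u => (η : ℤ) * u) e1
      rw [mul_assoc, s13_usq] at e3
      linear_combination -e3
    · have e3 := congrArg (fun u => (θ : ℤ) * u) e2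
      rw [mul_assoc, s13_usq] at e3
      linear_combination -e3

end RaagBL
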