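import Pool.Agent.Lib.MP_32d917_al_bl.KM4
import Pool.Agent.Lib.MP_32d917_al_bl.S13

/-!
# KM5: from matchings to matchings of codes
-/

set_option autoImplicit false

namespace RaagBL

open LatIso RaagIso RaagGP
open AdmIso (Wd mvs fM cmW)

theorem krep_ex {V W C : Type} {Λ : SimpleGraph W} (π : W → V) (ρ : RA Λ →* Equiv.Perm C)
    (D : Set V) : ∃ r : C → C, (∀ x, Ob π ρ D x (r x)) ∧ ∀ x y, Ob π ρ D x y → r x = r y := by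
  let s : Setoid C := ⟨Ob π ρ D, ⟨ob_refl π ρ D, ob_symm, ob_trans⟩⟩
  refine ⟨fun x => (Quotient.mk s x).out, fun x => ?_, fun x y h => ?_⟩
  · exact ob_symm (Quotient.exact (Quotient.out_eq (Quotient.mk s x)))
  · have : Quotient.mk s x = Quotient.mk s y := Quotient.sound h
    show (Quotient.mk s x).out = (Quotient.mk s y).out
    rw [this]

theorem kscD_le {c : BC} (h : BVal c) {ρ : RA (gr c.1.1) →* Equiv.Perm (Fin (cM c.1.1))}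
    (hρ : IsRho c.1.1 ρ) {j : ℕ} (hj : j < nS c) :
    cM (scD c j).1 ≤ cM c.1.1 ∧ kG (scD c j) ≤ kG c.1 := by
  obtain ⟨ρd, hρd⟩ := rho_exists2 (scD c j).1 (ksub_code h hρ hj).2.2.1.2.1
  have h1 := kinJ_sub h hρ (⟨hj, rfl, 0, rfl⟩ : InJ c (sI c j) (eP c j 0) j) hρd
  constructor
  · have h2 := Fintype.card_le_of_injective _ h1.einj
    rwa [Fintype.card_fin, Fintype.card_fin] at h2
  · have h2 := Fintype.card_le_of_injective _ h1.vinj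
    rwa [Fintype.card_fin, Fintype.card_fin] at h2

/-- the matching of codes `t` represents the data -/
structure KRep (c c' : BC) (t : MtB) (g : ℕ → ℕ) (s : ℕ → Mt2)
    (σ : Fin (kG c.1) → Fin (cM c.1.1) → Fin (kG c'.1) × Fin (cM c'.1.1))
    (ε : Fin (kG c.1) → Fin (cM c.1.1) → ℤˣ)
    (β : Fin (nB c) → Fin (cM c.1.1) → Fin (nB c'))
    (G : Fin (nB c) → Fin (cM c.1.1) → Fin (cM c'.1.1)) : Prop where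
  sg : ∀ j < nS c, sgN c' t j = g j
  tj : ∀ j < nS c, tjN c t j = s j
  pv : ∀ (v : Fin (kG c.1)) (x : Fin (cM c.1.1)), pvN c c' t v x = (σ v x).1
  px : ∀ (v : Fin (kG c.1)) (x : Fin (cM c.1.1)), pxN c c' t v x = (σ v x).2
  fi : ∀ (i : Fin (nB c)) (x : Fin (cM c.1.1)), fiN c c' t i x = β i x
  fx : ∀ (i : Fin (nB c)) (x : Fin (cM c.1.1)), fxN c c' t i x = G i x
  en : ∀ (v : Fin (kG c.1)) (x : Fin (cM c.1.1)), eN c t v x = eNum (ε v x)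

theorem ktab_ex {c c' : BC} {g : ℕ → ℕ} {s : ℕ → Mt2} (hg : ∀ j < nS c, g j < nS c')
    (hs : ∀ j < nS c, (s j).1 < bF c + 1 ∧ (s j).2 < bT c + 1)
    (σ : Fin (kG c.1) → Fin (cM c.1.1) → Fin (kG c'.1) × Fin (cM c'.1.1))
    (ε : Fin (kG c.1) → Fin (cM c.1.1) → ℤˣ)
    (β : Fin (nB c) → Fin (cM c.1.1) → Fin (nB c'))
    (G : Fin (nB c) → Fin (cM c.1.1) → Fin (cM c'.1.1)) :
    ∃ t, InBB c c' t ∧ KRep c c' t g s σ ε β G := by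
  obtain ⟨w1, b1, h1⟩ := CB.exists_dg (nS c' - 1) (fun j => if j < nS c then g j else 0) (by
    intro j
    try dsimp only
    split_ifs with hj
    · have := hg j hj
      omega
    · exact Nat.succ_pos _) (nS c)
  obtain ⟨w2, b2, h2⟩ := CB.exists_dg (bF c) (fun j => if j < nS c then (s j).1 else 0) (by
    intro j
    try dsimp only
    split_ifs with hj
    · exact (hs j hj).1
    · exact Nat.succ_pos _) (nS c)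
  obtain ⟨w3, b3, h3⟩ := CB.exists_dg (bT c) (fun j => if j < nS c then (s j).2 else 0) (by
    intro j
    try dsimp only
    split_ifs with hj
    · exact (hs j hj).2
    · exact Nat.succ_pos _) (nS c)
  obtain ⟨w4, b4, h4⟩ := RaagIso.c07_tab c'.1.2.1 c.1.1.1.2 c.1.2.1
    (fun v x => ((σ v x).1 : ℕ)) (fun v x => (σ v x).1.2)
  obtain ⟨w5, b5, h5⟩ := RaagIso.c07_tab c'.1.1.1.2 c.1.1.1.2 c.1.2.1
    (fun v x => ((σ v x).2 : ℕ)) (fun v x => (σ v x).2.2)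
  obtain ⟨w6, b6, h6⟩ := RaagIso.c07_tab c'.2.1.1 c.1.1.1.2 c.2.1.1
    (fun v x => (β v x : ℕ)) (fun v x => (β v x).2)
  obtain ⟨w7, b7, h7⟩ := RaagIso.c07_tab c'.1.1.1.2 c.1.1.1.2 c.2.1.1
    (fun v x => (G v x : ℕ)) (fun v x => (G v x).2)
  obtain ⟨w8, b8, h8⟩ := RaagIso.c07_tab 1 c.1.1.1.2 c.1.2.1
    (fun v x => eNum (ε v x)) (fun v x => eNum_lt _)
  refine ⟨((w1, w2, w3), (w4, w5), (w6, w7), w8), ⟨⟨?_, b2, b3⟩, ⟨b4, b5⟩, ⟨b6, b7⟩, b8⟩, ?_⟩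
  · refine lt_of_lt_of_le b1 (Nat.pow_le_pow_left ?_ _)
    omega
  · refine ⟨?_, ?_, h4, h5, h6, h7, h8⟩
    · intro j hj
      have k1 := h1 j hj
      rw [if_pos hj] at k1
      exact k1
    · intro j hj
      have k2 := h2 j hj
      have k3 := h3 j hj
      rw [if_pos hj] at k2 k3
      exact Prod.ext k2 k3

theorem good_of_mch {c c' : BC} (h : BVal c) (h' : BVal c')
    {ρ : RA (gr c.1.1) →* Equiv.Perm (Fin (cM c.1.1))}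
    {ρ' : RA (gr c'.1.1) →* Equiv.Perm (Fin (cM c'.1.1))} (hρ : IsRho c.1.1 ρ)
    (hρ' : IsRho c'.1.1 ρ')
    {β : Fin (nB c) → Fin (cM c.1.1) → Fin (nB c')}
    {F : Fin (nB c) → Fin (cM c.1.1) → Fin (cM c'.1.1)}
    {τ : Fin (nB c) → Fin (cM c.1.1) → Fin (kG c.1) → Fin (kG c'.1)}
    {Φ : Fin (nB c) → Fin (cM c.1.1) → RA (gr c.1.1) → RA (gr c'.1.1)}
    {σ : Fin (kG c.1) → Fin (cM c.1.1) → Fin (kG c'.1) × Fin (cM c'.1.1)}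
    {ε : Fin (kG c.1) → Fin (cM c.1.1) → ℤˣ}
    (hM : Mch (grG c.1) (grG c'.1) (piF c.1) (piF c'.1) (blk c) (blk c') ρ ρ' β F τ Φ σ ε) :
    ∃ t, InBB c c' t ∧ ¬ BadB c c' t := by
  classical
  have hX := kctx_code h
  have hX' := kctx_code h'
  -- sub-codes
  have hex : ∀ j : ℕ, ∃ k s, j < nS c →
      InJ c' (β (sI c j) (eP c j 0)) (F (sI c j) (eP c j 0)) k ∧ GoodJ c c' σ ε j k s := by
    intro j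
    by_cases hj : j < nS c
    · obtain ⟨k, s, h1⟩ := goodJ_ex h h' hρ hρ' hM hj
      exact ⟨k, s, fun _ => h1⟩
    · exact ⟨0, (0, 0), fun h1 => absurd h1 hj⟩
  choose g s hgs using hex
  have hg : ∀ j < nS c, g j < nS c' := fun j hj => (hgs j hj).1.1
  have hs : ∀ j < nS c, (s j).1 < bF c + 1 ∧ (s j).2 < bT c + 1 := by
    intro j hj
    obtain ⟨h1, h2⟩ := (hgs j hj).2.1
    obtain ⟨h3, h4⟩ := kscD_le h hρ hj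
    have h5 : cM (scD c j).1 ^ cM (scD c j).1 ≤ bF c :=
      (Nat.pow_le_pow_left h3 _).trans (Nat.pow_le_pow_right (Nat.succ_pos _) h3)
    have h6 : kG (scD c j) ^ (cM (scD c j).1 * kG (scD c j)) ≤ bT c :=
      (Nat.pow_le_pow_left h4 _).trans
        (Nat.pow_le_pow_right (Nat.succ_pos _) (Nat.mul_le_mul h3 h4))
    omega
  have hginj : ∀ j < nS c, ∀ k < nS c, g j = g k → j = k := by
    intro j hj k hk hjk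
    have h1 := (hgs j hj).1
    have h2 := (hgs k hk).1
    rw [← hjk] at h2
    have h3 : β (sI c j) (eP c j 0) = β (sI c k) (eP c k 0) := h1.2.1.symm.trans h2.2.1
    rw [← h3] at h2
    have J1 : InJ c (sI c j) (eP c j 0) j := ⟨hj, rfl, 0, rfl⟩
    have J2 : InJ c (sI c k) (eP c k 0) k := ⟨hk, rfl, 0, rfl⟩
    obtain ⟨h4, h5⟩ := hM.orbi _ _ _ _ (nb_of_rig (kinJ_rig h hρ J1)) (nb_of_rig (kinJ_rig h hρ J2))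
      h3 (kinJ_rev h' hρ' h1 h2)
    have h6 := kinJ_ob h hρ J1 h5
    rw [h4] at h6
    exact kinJ_uni h h6 J2
  have hgsur : ∀ k < nS c', ∃ j < nS c, g j = k := by
    intro k hk
    have J1 : InJ c' (sI c' k) (eP c' k 0) k := ⟨hk, rfl, 0, rfl⟩
    have hR1 := kinJ_rig h' hρ' J1
    obtain ⟨i, x, h1, h2, h3⟩ := hM.orbs _ (eP c' k 0) (nb_of_rig hR1)
    have hRi : Rig (grG c.1) (blk c i) := by
      rw [hM.rig i x h1, h2]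
      exact hR1
    obtain ⟨j, hj⟩ : ∃ j, InJ c i x j := ksub_cov h ((krig_iff c i).2 hRi) x
    have J2 : InJ c (sI c j) (eP c j 0) j := ⟨hj.1, rfl, 0, rfl⟩
    have e1 : sI c j = i := hj.2.1
    have h4 : Ob (piF c.1) ρ (blk c i) x (eP c j 0) := by
      rw [e1] at J2
      exact kinJ_rev h hρ hj J2
    have h5 := hM.beta i x (eP c j 0) h1 h4
    have h6 := hM.orb i x (eP c j 0) h1 h4
    have h7 := (hgs j hj.1).1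
    rw [e1, h5] at h7
    refine ⟨j, hj.1, ?_⟩
    rw [h2] at h7 h6
    exact kinJ_uni h' h7 (kinJ_ob h' hρ' J1 (ob_trans (ob_symm h3) h6))
  have hnS : nS c' = nS c := by
    have h1 : Function.Bijective (fun j : Fin (nS c) => (⟨g j, hg j j.2⟩ : Fin (nS c'))) := by
      constructor
      · intro a b hab
        exact Fin.ext (hginj a a.2 b b.2 (congrArg Fin.val hab))
      · intro k
        obtain ⟨j, hj, hjk⟩ := hgsur k k.2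
        exact ⟨⟨j, hj⟩, Fin.ext hjk⟩
    have h2 := Fintype.card_of_bijective h1
    rw [Fintype.card_fin, Fintype.card_fin] at h2
    exact h2.symm
  -- representatives
  have hrex : ∀ i : Fin (nB c), ∃ r : Fin (cM c.1.1) → Fin (cM c.1.1),
      (∀ x, Ob (piF c.1) ρ (blk c i) x (r x)) ∧
        ∀ x y, Ob (piF c.1) ρ (blk c i) x y → r x = r y := fun i => krep_ex _ _ _
  choose r hr1 hr2 using hrex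
  obtain ⟨t, hb, hR⟩ := ktab_ex hg hs σ ε β (fun i x => F i (r i x))
  -- flat blocks
  have hflt : ∀ (i : Fin (nB c)) (x : Fin (cM c.1.1)), FltN c i → FltN c' (β i x) := by
    intro i x hi
    have h1 := (knb_iff h i).2 (Or.inr hi)
    rcases (knb_iff h' _).1 (hM.nb i x h1) with h2 | h2
    · exfalso
      have h3 := (hM.rig i x h1).2 ((krig_iff c' _).1 h2)
      exact flt_nrig hi ((krig_iff c i).2 h3)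
    · exact h2
  have hcutE : ∀ (i : Fin (nB c)), FltN c i → ∀ v ∈ blk c i, Cut (blk c) v :=
    fun i hi => ((kflt_iff c i).1 hi).2
  have hF : ∀ (i : Fin (nB c)) (x : Fin (cM c.1.1)), FltN c i →
      Ob (piF c'.1) ρ' (blk c' (β i x)) (F i x) (F i (r i x)) := fun i x hi =>
    hM.orb i x _ ((knb_iff h i).2 (Or.inr hi)) (hr1 i x)
  have hedge : ∀ i' : Fin (nB c'), FltN c' i' → ∀ v' ∈ blk c' i',
      blk c' i' ⊆ st (grG c'.1) v' := by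
    intro i' hi' v' hv' u hu
    by_cases huv : u = v'
    · exact Or.inl huv
    · exact Or.inr (kedge_eq ((kedg_iff c' i').1 hi'.1) hv' hu (Ne.symm huv)).2
  refine ⟨t, hb, ?_⟩
  rintro (hbad | ⟨j, hj, hbad⟩)
  swap
  · rw [hR.sg j hj, hR.tj j hj] at hbad
    exact (hgs j hj).2.2.1 hbad
  apply hbad
  refine ⟨⟨hnS, ?_, ?_, ?_⟩, ⟨?_, ?_, ?_, ?_⟩, ⟨?_, ?_⟩, ⟨?_, ?_, ?_, ?_, ?_, ?_⟩, ?_, ?_⟩
  -- `MS`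
  · intro j hj k hk hjk
    rw [hR.sg j hj, hR.sg k hk] at hjk
    exact hginj j hj k hk hjk
  · intro j hj
    rw [hR.sg j hj, hR.tj j hj]
    by_contra hcon
    exact (hgs j hj).2.2.1 (Or.inl hcon)
  · intro j hj y hy v hv
    unfold TjN
    rw [hR.sg j hj, hR.tj j hj]
    exact (hgs j hj).2.2.2.1 y hy v hv
  -- `MP`
  · intro v hv x hx hcut
    have e1 := hR.pv ⟨v, hv⟩ ⟨x, hx⟩
    dsimp only at e1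
    rw [e1]
    exact (kcut_iff c' _).2 (hM.pcut _ _ ((kcut_iff c ⟨v, hv⟩).1 hcut))
  · intro v hv x hx w hw y hy hcv hcw
    have e1 := hR.pv ⟨v, hv⟩ ⟨x, hx⟩
    have e2 := hR.pv ⟨w, hw⟩ ⟨y, hy⟩
    have e3 := hR.px ⟨v, hv⟩ ⟨x, hx⟩
    have e4 := hR.px ⟨w, hw⟩ ⟨y, hy⟩
    dsimp only at e1 e2 e3 e4
    rw [e1, e2, e3, e4]
    have k1 := (kcut_iff c ⟨v, hv⟩).1 hcv
    have k2 := (kcut_iff c ⟨w, hw⟩).1 hcw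
    constructor
    · rintro ⟨rfl, hO⟩
      obtain ⟨l1, l2⟩ := hM.port ⟨v, hv⟩ ⟨x, hx⟩ ⟨y, hy⟩ k1 ((kos_iff h.1.1 hρ _ _ _).1 hO)
      exact ⟨(congrArg Fin.val l1).symm, (kos_iff h'.1.1 hρ' _ _ _).2 l2⟩
    · rintro ⟨l1, l2⟩
      obtain ⟨m1, m2⟩ := hM.pori ⟨v, hv⟩ ⟨w, hw⟩ ⟨x, hx⟩ ⟨y, hy⟩ k1 k2 (Fin.ext l1)
        ((kos_iff h'.1.1 hρ' _ _ _).1 l2)
      exact ⟨congrArg Fin.val m1, (kos_iff h.1.1 hρ _ _ _).2 m2⟩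
  · intro v' hv' x' hx' hcut
    obtain ⟨v, x, k1, k2, k3⟩ := hM.pors ⟨v', hv'⟩ ⟨x', hx'⟩ ((kcut_iff c' ⟨v', hv'⟩).1 hcut)
    refine ⟨v, v.2, x, x.2, (kcut_iff c v).2 k1, ?_, ?_⟩
    · rw [hR.pv, k2]
    · rw [hR.px]
      exact (kos_iff h'.1.1 hρ' ⟨v', hv'⟩ _ ⟨x', hx'⟩).2 k3
  · intro j hj y hy v hv hcut
    unfold TjN FjN
    rw [hR.sg j hj, hR.tj j hj]
    obtain ⟨k1, k2⟩ := (hgs j hj).2.2.2.2.2 ⟨y, hy⟩ ⟨v, hv⟩ hcut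
    have e1 := hR.pv (eV c j ⟨v, hv⟩) (eP c j ⟨y, hy⟩)
    have e2 := hR.px (eV c j ⟨v, hv⟩) (eP c j ⟨y, hy⟩)
    have e1' : pvN c c' t (vtN c j v) (ptN c j y) =
      (σ (eV c j ⟨v, hv⟩) (eP c j ⟨y, hy⟩)).1 := e1
    have e2' : pxN c c' t (vtN c j v) (ptN c j y) =
      (σ (eV c j ⟨v, hv⟩) (eP c j ⟨y, hy⟩)).2 := e2
    rw [e1', e2']
    exact ⟨k1, k2⟩
  -- `ME`
  · intro v hv x hx y hy hcut hO
    have e1 := hR.en ⟨v, hv⟩ ⟨x, hx⟩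
    have e2 := hR.en ⟨v, hv⟩ ⟨y, hy⟩
    dsimp only at e1 e2
    rw [e1, e2, eNum_eq]
    exact (hM.peps ⟨v, hv⟩ ⟨x, hx⟩ ⟨y, hy⟩ ((kcut_iff c ⟨v, hv⟩).1 hcut)
      ((kos_iff h.1.1 hρ _ _ _).1 hO)).symm
  · intro j hj
    unfold TjN FjN
    rw [hR.sg j hj, hR.tj j hj]
    exact (hgs j hj).2.2.2.2.1 (fun v x => eN c t v x) (fun v x => hR.en v x)
  -- `MF`
  · intro i hi x hx hflat
    have e1 := hR.fi ⟨i, hi⟩ ⟨x, hx⟩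
    dsimp only at e1
    rw [e1]
    exact hflt ⟨i, hi⟩ ⟨x, hx⟩ hflat
  · intro i hi x hx y hy hflat hO
    have e1 := hR.fi ⟨i, hi⟩ ⟨x, hx⟩
    have e2 := hR.fi ⟨i, hi⟩ ⟨y, hy⟩
    have e3 := hR.fx ⟨i, hi⟩ ⟨x, hx⟩
    have e4 := hR.fx ⟨i, hi⟩ ⟨y, hy⟩
    dsimp only at e1 e2 e3 e4
    rw [e1, e2, e3, e4]
    have k1 := (kob_iff h.1.1 hρ ⟨i, hi⟩ ⟨x, hx⟩ ⟨y, hy⟩).1 hO
    refine ⟨?_, ?_⟩
    · rw [hM.beta ⟨i, hi⟩ ⟨x, hx⟩ ⟨y, hy⟩ ((knb_iff h ⟨i, hi⟩).2 (Or.inr hflat)) k1]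
    · rw [hr2 ⟨i, hi⟩ ⟨x, hx⟩ ⟨y, hy⟩ k1]
  · intro i hi x hx k hk y hy hfi hfk h1 h2
    have e1 := hR.fi ⟨i, hi⟩ ⟨x, hx⟩
    have e2 := hR.fi ⟨k, hk⟩ ⟨y, hy⟩
    have e3 := hR.fx ⟨i, hi⟩ ⟨x, hx⟩
    have e4 := hR.fx ⟨k, hk⟩ ⟨y, hy⟩
    dsimp only at e1 e2 e3 e4
    rw [e1, e2] at h1
    rw [e1, e3, e4] at h2
    have n1 := (knb_iff h ⟨i, hi⟩).2 (Or.inr hfi)
    have n2 := (knb_iff h ⟨k, hk⟩).2 (Or.inr hfk)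
    have b1 := hM.beta ⟨i, hi⟩ ⟨x, hx⟩ _ n1 (hr1 ⟨i, hi⟩ ⟨x, hx⟩)
    have b2 := hM.beta ⟨k, hk⟩ ⟨y, hy⟩ _ n2 (hr1 ⟨k, hk⟩ ⟨y, hy⟩)
    have k1 := (kob_iff h'.1.1 hρ' (β ⟨i, hi⟩ ⟨x, hx⟩) _ _).1 h2
    obtain ⟨k2, k3⟩ := hM.orbi ⟨i, hi⟩ ⟨k, hk⟩ (r ⟨i, hi⟩ ⟨x, hx⟩) (r ⟨k, hk⟩ ⟨y, hy⟩) n1 n2
      (by rw [b1, b2]; exact Fin.ext h1) (by rw [b1]; exact k1)
    refine ⟨congrArg Fin.val k2, (kob_iff h.1.1 hρ ⟨i, hi⟩ ⟨x, hx⟩ ⟨y, hy⟩).2 ?_⟩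
    have k4 := hr1 ⟨k, hk⟩ ⟨y, hy⟩
    rw [← k2] at k4 k3
    exact ob_trans (hr1 ⟨i, hi⟩ ⟨x, hx⟩) (ob_trans k3 (ob_symm k4))
  · intro i' hi' x' hx' hflat
    obtain ⟨i, x, k1, k2, k3⟩ := hM.orbs ⟨i', hi'⟩ ⟨x', hx'⟩
      ((knb_iff h' ⟨i', hi'⟩).2 (Or.inr hflat))
    have hfi : FltN c i := by
      rcases (knb_iff h i).1 k1 with k4 | k4
      · exfalso
        have k5 := (hM.rig i x k1).1 ((krig_iff c i).1 k4)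
        rw [k2] at k5
        exact kedg_not_rig ((kedg_iff c' ⟨i', hi'⟩).1 hflat.1) k5
      · exact k4
    refine ⟨i, i.2, x, x.2, hfi, ?_, ?_⟩
    · rw [hR.fi, k2]
    · rw [hR.fx]
      have k6 := hF i x hfi
      rw [k2] at k6
      exact (kob_iff h'.1.1 hρ' ⟨i', hi'⟩ _ ⟨x', hx'⟩).2 (ob_trans (ob_symm k6) k3)
  · intro i hi x hx hflat v hv hvi
    have e1 := hR.fi ⟨i, hi⟩ ⟨x, hx⟩
    have e2 := hR.pv ⟨v, hv⟩ ⟨x, hx⟩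
    have e3 := hR.fx ⟨i, hi⟩ ⟨x, hx⟩
    have e4 := hR.px ⟨v, hv⟩ ⟨x, hx⟩
    dsimp only at e1 e2 e3 e4
    rw [e1, e2, e3, e4]
    have n1 := (knb_iff h ⟨i, hi⟩).2 (Or.inr hflat)
    obtain ⟨k1, k2⟩ := hM.pcom ⟨i, hi⟩ ⟨x, hx⟩ ⟨v, hv⟩ n1 hvi
      (hcutE ⟨i, hi⟩ hflat ⟨v, hv⟩ hvi)
    have hvi' : (⟨v, hv⟩ : Fin (kG c.1)) ∈ blk c ⟨i, hi⟩ := hvi
    have k3 := (hM.tbij ⟨i, hi⟩ ⟨x, hx⟩ n1).mapsTo hvi'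
    rw [← k1] at k2 k3
    refine ⟨k3, (kos_iff h'.1.1 hρ' _ _ _).2 (ob_trans k2 ?_)⟩
    exact ob_mono (hF ⟨i, hi⟩ ⟨x, hx⟩ hflat) (hedge _ (hflt ⟨i, hi⟩ ⟨x, hx⟩ hflat) _ k3)
  · intro i hi x hx hflat v hv w hw hvi hwi hvw
    have e1 := hR.pv ⟨v, hv⟩ ⟨x, hx⟩
    have e2 := hR.pv ⟨w, hw⟩ ⟨x, hx⟩
    dsimp only at e1 e2
    rw [e1, e2]
    intro h1
    have n1 := (knb_iff h ⟨i, hi⟩).2 (Or.inr hflat)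
    have k1 := (hM.pcom ⟨i, hi⟩ ⟨x, hx⟩ ⟨v, hv⟩ n1 hvi (hcutE ⟨i, hi⟩ hflat ⟨v, hv⟩ hvi)).1
    have k2 := (hM.pcom ⟨i, hi⟩ ⟨x, hx⟩ ⟨w, hw⟩ n1 hwi (hcutE ⟨i, hi⟩ hflat ⟨w, hw⟩ hwi)).1
    have h2 := Fin.ext h1
    rw [k1, k2] at h2
    exact hvw (congrArg Fin.val ((hM.tbij ⟨i, hi⟩ ⟨x, hx⟩ n1).injOn hvi hwi h2))
  -- `ML`
  · intro i hi x hx hflat v hv w hw hvi hwi hvw a ha b hb a' ha' b' hb' hav hbw hav' hbw'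
    have e1 := hR.pv ⟨v, hv⟩ ⟨x, hx⟩
    have e2 := hR.pv ⟨w, hw⟩ ⟨x, hx⟩
    have e3 := hR.fx ⟨i, hi⟩ ⟨x, hx⟩
    have e4 := hR.en ⟨v, hv⟩ ⟨x, hx⟩
    have e5 := hR.en ⟨w, hw⟩ ⟨x, hx⟩
    dsimp only at e1 e2 e3 e4 e5
    rw [e1] at hav'
    rw [e2] at hbw'
    rw [e3, e4, e5]
    have n1 := (knb_iff h ⟨i, hi⟩).2 (Or.inr hflat)
    have pa : piF c.1 ⟨a, ha⟩ = ⟨v, hv⟩ := Fin.ext hav
    have pb : piF c.1 ⟨b, hb⟩ = ⟨w, hw⟩ := Fin.ext hbw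
    obtain ⟨k3, k4⟩ := kedge_eq ((kedg_iff c ⟨i, hi⟩).1 hflat.1) (v := ⟨v, hv⟩) (w := ⟨w, hw⟩)
      hvi hwi (fun e => hvw (congrArg Fin.val e))
    have k1 := (hM.pcom ⟨i, hi⟩ ⟨x, hx⟩ ⟨v, hv⟩ n1 hvi (hcutE ⟨i, hi⟩ hflat ⟨v, hv⟩ hvi)).1
    have k2 := (hM.pcom ⟨i, hi⟩ ⟨x, hx⟩ ⟨w, hw⟩ n1 hwi (hcutE ⟨i, hi⟩ hflat ⟨w, hw⟩ hwi)).1
    have q1 : τ ⟨i, hi⟩ ⟨x, hx⟩ (piF c.1 ⟨a, ha⟩) = piF c'.1 ⟨a', ha'⟩ := by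
      rw [pa, ← k1]
      exact Fin.ext hav'.symm
    have q2 : τ ⟨i, hi⟩ ⟨x, hx⟩ (piF c.1 ⟨b, hb⟩) = piF c'.1 ⟨b', hb'⟩ := by
      rw [pb, ← k2]
      exact Fin.ext hbw'.symm
    obtain ⟨L1, L2⟩ := lat_of_mch hX hX' hM (p := ⟨x, hx⟩)
      (p' := F ⟨i, hi⟩ (r ⟨i, hi⟩ ⟨x, hx⟩)) n1 (a := ⟨a, ha⟩) (b := ⟨b, hb⟩) (a' := ⟨a', ha'⟩)
      (b' := ⟨b', hb'⟩) (by rw [pa, pb]; exact k4) (by rw [pa, pb]; exact k3) q1 q2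
      (hF ⟨i, hi⟩ ⟨x, hx⟩ hflat)
    rw [pa, pb] at L1 L2
    have hst := eNum_eq (ε ⟨v, hv⟩ ⟨x, hx⟩) (ε ⟨w, hw⟩ ⟨x, hx⟩)
    refine ⟨pr ρ (⟨a, ha⟩ : Fin (cK c.1.1)) (⟨x, hx⟩ : Fin (cM c.1.1)), kpr_le _ _,
      pr ρ (⟨b, hb⟩ : Fin (cK c.1.1)) (⟨x, hx⟩ : Fin (cM c.1.1)), kpr_le _ _,
      pr ρ' (⟨a', ha'⟩ : Fin (cK c'.1.1)) (F ⟨i, hi⟩ (r ⟨i, hi⟩ ⟨x, hx⟩)), kpr_le _ _,
      pr ρ' (⟨b', hb'⟩ : Fin (cK c'.1.1)) (F ⟨i, hi⟩ (r ⟨i, hi⟩ ⟨x, hx⟩)), kpr_le _ _,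
      (perN_iff hρ ⟨x, hx⟩ ⟨a, ha⟩ _).2 rfl, (perN_iff hρ ⟨x, hx⟩ ⟨b, hb⟩ _).2 rfl,
      (perN_iff hρ' _ ⟨a', ha'⟩ _).2 rfl, (perN_iff hρ' _ ⟨b', hb'⟩ _).2 rfl, ?_, ?_⟩
    · exact (ltN_iff hρ hρ' ⟨x, hx⟩ ⟨a, ha⟩ ⟨b, hb⟩ _ ⟨a', ha'⟩ ⟨b', hb'⟩ _ _ _ _ hst).2 L1
    · exact (ltN_iff hρ' hρ _ ⟨a', ha'⟩ ⟨b', hb'⟩ ⟨x, hx⟩ ⟨a, ha⟩ ⟨b, hb⟩ _ _ _ _ hst).2 L2
  -- `MR`
  · intro v hv x hx hcut a ha a' ha' hav hav'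
    have e1 := hR.pv ⟨v, hv⟩ ⟨x, hx⟩
    have e2 := hR.px ⟨v, hv⟩ ⟨x, hx⟩
    dsimp only at e1 e2
    rw [e1] at hav'
    rw [e1, e2]
    have k1 := hM.rank ⟨v, hv⟩ ⟨x, hx⟩ ⟨a, ha⟩ ⟨a', ha'⟩ ((kcut_iff c ⟨v, hv⟩).1 hcut)
      (Fin.ext hav) (Fin.ext hav')
    refine ⟨pr ρ (⟨a, ha⟩ : Fin (cK c.1.1)) (⟨x, hx⟩ : Fin (cM c.1.1)), kpr_le _ _,
      pr ρ' (⟨a', ha'⟩ : Fin (cK c'.1.1)) (σ ⟨v, hv⟩ ⟨x, hx⟩).2, kpr_le _ _,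
      (perN_iff hρ ⟨x, hx⟩ ⟨a, ha⟩ _).2 rfl, (perN_iff hρ' _ ⟨a', ha'⟩ _).2 rfl, ?_⟩
    have f1 : cntN (cM c.1.1) (OsN c v x) = nPt (grG c.1) (piF c.1) ρ ⟨v, hv⟩ ⟨x, hx⟩ := by
      rw [cntN_eq]
      exact Nat.card_congr (Equiv.subtypeEquivRight fun d =>
        kos_iff h.1.1 hρ ⟨v, hv⟩ ⟨x, hx⟩ d)
    have f2 : cntN (cM c'.1.1) (OsN c' (σ ⟨v, hv⟩ ⟨x, hx⟩).1 (σ ⟨v, hv⟩ ⟨x, hx⟩).2) =
        nPt (grG c'.1) (piF c'.1) ρ' (σ ⟨v, hv⟩ ⟨x, hx⟩).1 (σ ⟨v, hv⟩ ⟨x, hx⟩).2 := by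
      rw [cntN_eq]
      exact Nat.card_congr (Equiv.subtypeEquivRight fun d => kos_iff h'.1.1 hρ' _ _ d)
    have f3 : cntN (nB c) (fun i => InK c i v) = nBl (blk c) (⟨v, hv⟩ : Fin (kG c.1)) :=
      cntN_eq _ _
    have f4 : cntN (nB c') (fun i => InK c' i (σ ⟨v, hv⟩ ⟨x, hx⟩).1) =
        nBl (blk c') (σ ⟨v, hv⟩ ⟨x, hx⟩).1 := cntN_eq _ _
    rw [f1, f2, f3, f4]
    exact k1

end RaagBL
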