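import Pool.Agent.Lib.MP_32d917_al_bl.KP2

/-!
# KP3: recursive enumerability of the certificates
-/

set_option autoImplicit false
set_option synthInstance.maxSize 2000

namespace RaagBL

open LatIso RaagIso RaagGP
open AdmIso (Wd mvs fM cmW)

/-- the eight numbers of a matching -/
def mkT (a b d p q h k e : ℕ) : MtB := ((a, b, d), (p, q), (h, k), e)

theorem noMatB_re : REPred fun z : BC × BC => ∀ t, InBB z.1 z.2 t → BadB z.1 z.2 t := by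
  -- the innermost predicate
  have h0 : REPred fun z : ((((((((BC × BC) × ℕ) × ℕ) × ℕ) × ℕ) × ℕ) × ℕ) × ℕ) × ℕ =>
      BadB z.1.1.1.1.1.1.1.1.1 z.1.1.1.1.1.1.1.1.2
        (mkT z.1.1.1.1.1.1.1.2 z.1.1.1.1.1.1.2 z.1.1.1.1.1.2 z.1.1.1.1.2 z.1.1.1.2 z.1.1.2
          z.1.2 z.2) := by
    refine re_comp badB_re (f := fun z : ((((((((BC × BC) × ℕ) × ℕ) × ℕ) × ℕ) × ℕ) × ℕ) × ℕ) × ℕ =>
      (z.1.1.1.1.1.1.1.1, mkT z.1.1.1.1.1.1.1.2 z.1.1.1.1.1.1.2 z.1.1.1.1.1.2 z.1.1.1.1.2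
        z.1.1.1.2 z.1.1.2 z.1.2 z.2)) (Primrec.to_comp ?_)
    unfold mkT
    exact CB.p_pair (CB.p_fst (CB.p_fst (CB.p_fst (CB.p_fst (CB.p_fst (CB.p_fst (CB.p_fst (CB.p_fst CB.p_id))))))))
      (CB.p_pair (CB.p_pair (CB.p_snd (CB.p_fst (CB.p_fst (CB.p_fst (CB.p_fst (CB.p_fst (CB.p_fst (CB.p_fst CB.p_id))))))))
        (CB.p_pair (CB.p_snd (CB.p_fst (CB.p_fst (CB.p_fst (CB.p_fst (CB.p_fst (CB.p_fst CB.p_id)))))))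
          (CB.p_snd (CB.p_fst (CB.p_fst (CB.p_fst (CB.p_fst (CB.p_fst CB.p_id))))))))
      (CB.p_pair (CB.p_pair (CB.p_snd (CB.p_fst (CB.p_fst (CB.p_fst (CB.p_fst CB.p_id)))))
        (CB.p_snd (CB.p_fst (CB.p_fst (CB.p_fst CB.p_id)))))
      (CB.p_pair (CB.p_pair (CB.p_snd (CB.p_fst (CB.p_fst CB.p_id))) (CB.p_snd (CB.p_fst CB.p_id)))
        (CB.p_snd CB.p_id))))
  have n0 : Primrec fun z : BC × BC => kG z.1.1 * cM z.1.1.1 :=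
    CB.p_mul (p_kG (CB.p_fst (CB.p_fst CB.p_id))) (p_cM (CB.p_fst (CB.p_fst (CB.p_fst CB.p_id))))
  have n1 : Primrec fun z : BC × BC => nB z.1 * cM z.1.1.1 :=
    CB.p_mul (p_nB (CB.p_fst CB.p_id)) (p_cM (CB.p_fst (CB.p_fst (CB.p_fst CB.p_id))))
  have b8 : Primrec fun z : BC × BC => 2 ^ (kG z.1.1 * cM z.1.1.1) := CB.p_pow (Primrec.const 2) n0
  have b7 : Primrec fun z : BC × BC => cM z.2.1.1 ^ (nB z.1 * cM z.1.1.1) :=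
    CB.p_pow (p_cM (CB.p_fst (CB.p_fst (CB.p_snd CB.p_id)))) n1
  have b6 : Primrec fun z : BC × BC => nB z.2 ^ (nB z.1 * cM z.1.1.1) :=
    CB.p_pow (p_nB (CB.p_snd CB.p_id)) n1
  have b5 : Primrec fun z : BC × BC => cM z.2.1.1 ^ (kG z.1.1 * cM z.1.1.1) :=
    CB.p_pow (p_cM (CB.p_fst (CB.p_fst (CB.p_snd CB.p_id)))) n0
  have b4 : Primrec fun z : BC × BC => kG z.2.1 ^ (kG z.1.1 * cM z.1.1.1) :=
    CB.p_pow (p_kG (CB.p_fst (CB.p_snd CB.p_id))) n0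
  have b3 : Primrec fun z : BC × BC => (bT z.1 + 1) ^ nS z.1 :=
    CB.p_pow (CB.p_add (p_bT (CB.p_fst CB.p_id)) (Primrec.const 1)) (p_nS (CB.p_fst CB.p_id))
  have b2 : Primrec fun z : BC × BC => (bF z.1 + 1) ^ nS z.1 :=
    CB.p_pow (CB.p_add (p_bF (CB.p_fst CB.p_id)) (Primrec.const 1)) (p_nS (CB.p_fst CB.p_id))
  have b1 : Primrec fun z : BC × BC => (nS z.2 + 1) ^ nS z.1 :=
    CB.p_pow (CB.p_add (p_nS (CB.p_snd CB.p_id)) (Primrec.const 1)) (p_nS (CB.p_fst CB.p_id))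
  have h1 := re_forall_lt (p := fun (z : (((((((BC × BC) × ℕ) × ℕ) × ℕ) × ℕ) × ℕ) × ℕ) × ℕ)
      (e : ℕ) => BadB z.1.1.1.1.1.1.1.1 z.1.1.1.1.1.1.1.2
        (mkT z.1.1.1.1.1.1.2 z.1.1.1.1.1.2 z.1.1.1.1.2 z.1.1.1.2 z.1.1.2 z.1.2 z.2 e))
    (f := fun z => 2 ^ (kG z.1.1.1.1.1.1.1.1.1 * cM z.1.1.1.1.1.1.1.1.1.1))
    (b8.comp (CB.p_fst (CB.p_fst (CB.p_fst (CB.p_fst (CB.p_fst (CB.p_fst (CB.p_fst CB.p_id)))))))) h0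
  have h2 := re_forall_lt (p := fun (z : ((((((BC × BC) × ℕ) × ℕ) × ℕ) × ℕ) × ℕ) × ℕ)
      (k : ℕ) => ∀ e < 2 ^ (kG z.1.1.1.1.1.1.1.1 * cM z.1.1.1.1.1.1.1.1.1),
        BadB z.1.1.1.1.1.1.1 z.1.1.1.1.1.1.2
        (mkT z.1.1.1.1.1.2 z.1.1.1.1.2 z.1.1.1.2 z.1.1.2 z.1.2 z.2 k e))
    (f := fun z => cM z.1.1.1.1.1.1.2.1.1 ^ (nB z.1.1.1.1.1.1.1 * cM z.1.1.1.1.1.1.1.1.1))
    (b7.comp (CB.p_fst (CB.p_fst (CB.p_fst (CB.p_fst (CB.p_fst (CB.p_fst CB.p_id))))))) h1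
  have h3 := re_forall_lt (p := fun (z : (((((BC × BC) × ℕ) × ℕ) × ℕ) × ℕ) × ℕ)
      (h : ℕ) => ∀ k < cM z.1.1.1.1.1.2.1.1 ^ (nB z.1.1.1.1.1.1 * cM z.1.1.1.1.1.1.1.1),
        ∀ e < 2 ^ (kG z.1.1.1.1.1.1.1 * cM z.1.1.1.1.1.1.1.1),
        BadB z.1.1.1.1.1.1 z.1.1.1.1.1.2
        (mkT z.1.1.1.1.2 z.1.1.1.2 z.1.1.2 z.1.2 z.2 h k e))
    (f := fun z => nB z.1.1.1.1.1.2 ^ (nB z.1.1.1.1.1.1 * cM z.1.1.1.1.1.1.1.1))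
    (b6.comp (CB.p_fst (CB.p_fst (CB.p_fst (CB.p_fst (CB.p_fst CB.p_id)))))) h2
  have h4 := re_forall_lt (p := fun (z : ((((BC × BC) × ℕ) × ℕ) × ℕ) × ℕ)
      (q : ℕ) => ∀ h < nB z.1.1.1.1.2 ^ (nB z.1.1.1.1.1 * cM z.1.1.1.1.1.1.1),
        ∀ k < cM z.1.1.1.1.2.1.1 ^ (nB z.1.1.1.1.1 * cM z.1.1.1.1.1.1.1),
        ∀ e < 2 ^ (kG z.1.1.1.1.1.1 * cM z.1.1.1.1.1.1.1),
        BadB z.1.1.1.1.1 z.1.1.1.1.2 (mkT z.1.1.1.2 z.1.1.2 z.1.2 z.2 q h k e))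
    (f := fun z => cM z.1.1.1.1.2.1.1 ^ (kG z.1.1.1.1.1.1 * cM z.1.1.1.1.1.1.1))
    (b5.comp (CB.p_fst (CB.p_fst (CB.p_fst (CB.p_fst CB.p_id))))) h3
  have h5 := re_forall_lt (p := fun (z : (((BC × BC) × ℕ) × ℕ) × ℕ)
      (p : ℕ) => ∀ q < cM z.1.1.1.2.1.1 ^ (kG z.1.1.1.1.1 * cM z.1.1.1.1.1.1),
        ∀ h < nB z.1.1.1.2 ^ (nB z.1.1.1.1 * cM z.1.1.1.1.1.1),
        ∀ k < cM z.1.1.1.2.1.1 ^ (nB z.1.1.1.1 * cM z.1.1.1.1.1.1),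
        ∀ e < 2 ^ (kG z.1.1.1.1.1 * cM z.1.1.1.1.1.1),
        BadB z.1.1.1.1 z.1.1.1.2 (mkT z.1.1.2 z.1.2 z.2 p q h k e))
    (f := fun z => kG z.1.1.1.2.1 ^ (kG z.1.1.1.1.1 * cM z.1.1.1.1.1.1))
    (b4.comp (CB.p_fst (CB.p_fst (CB.p_fst CB.p_id)))) h4
  have h6 := re_forall_lt (p := fun (z : ((BC × BC) × ℕ) × ℕ)
      (d : ℕ) => ∀ p < kG z.1.1.2.1 ^ (kG z.1.1.1.1 * cM z.1.1.1.1.1),
        ∀ q < cM z.1.1.2.1.1 ^ (kG z.1.1.1.1 * cM z.1.1.1.1.1),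
        ∀ h < nB z.1.1.2 ^ (nB z.1.1.1 * cM z.1.1.1.1.1),
        ∀ k < cM z.1.1.2.1.1 ^ (nB z.1.1.1 * cM z.1.1.1.1.1),
        ∀ e < 2 ^ (kG z.1.1.1.1 * cM z.1.1.1.1.1),
        BadB z.1.1.1 z.1.1.2 (mkT z.1.2 z.2 d p q h k e))
    (f := fun z => (bT z.1.1.1 + 1) ^ nS z.1.1.1)
    (b3.comp (CB.p_fst (CB.p_fst CB.p_id))) h5
  have h7 := re_forall_lt (p := fun (z : (BC × BC) × ℕ)
      (b : ℕ) => ∀ d < (bT z.1.1 + 1) ^ nS z.1.1,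
        ∀ p < kG z.1.2.1 ^ (kG z.1.1.1 * cM z.1.1.1.1),
        ∀ q < cM z.1.2.1.1 ^ (kG z.1.1.1 * cM z.1.1.1.1),
        ∀ h < nB z.1.2 ^ (nB z.1.1 * cM z.1.1.1.1),
        ∀ k < cM z.1.2.1.1 ^ (nB z.1.1 * cM z.1.1.1.1),
        ∀ e < 2 ^ (kG z.1.1.1 * cM z.1.1.1.1),
        BadB z.1.1 z.1.2 (mkT z.2 b d p q h k e))
    (f := fun z => (bF z.1.1 + 1) ^ nS z.1.1)
    (b2.comp (CB.p_fst CB.p_id)) h6
  have h8 := re_forall_lt (p := fun (z : BC × BC)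
      (a : ℕ) => ∀ b < (bF z.1 + 1) ^ nS z.1, ∀ d < (bT z.1 + 1) ^ nS z.1,
        ∀ p < kG z.2.1 ^ (kG z.1.1 * cM z.1.1.1),
        ∀ q < cM z.2.1.1 ^ (kG z.1.1 * cM z.1.1.1),
        ∀ h < nB z.2 ^ (nB z.1 * cM z.1.1.1),
        ∀ k < cM z.2.1.1 ^ (nB z.1 * cM z.1.1.1),
        ∀ e < 2 ^ (kG z.1.1 * cM z.1.1.1),
        BadB z.1 z.2 (mkT a b d p q h k e))
    (f := fun z => (nS z.2 + 1) ^ nS z.1) b1 h7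
  refine h8.of_eq ?_
  intro z
  constructor
  · rintro H ⟨⟨a, b, d⟩, ⟨p, q⟩, ⟨h, k⟩, e⟩ ⟨⟨k1, k2, k3⟩, ⟨k4, k5⟩, ⟨k6, k7⟩, k8⟩
    exact H a k1 b k2 d k3 p k4 q k5 h k6 k k7 e k8
  · intro H a k1 b k2 d k3 p k4 q k5 h k6 k k7 e k8
    exact H (mkT a b d p q h k e) ⟨⟨k1, k2, k3⟩, ⟨k4, k5⟩, ⟨k6, k7⟩, k8⟩

theorem codeForB_re : REPred fun y : Pres × BC => CodeForB y.1 y.2 := by
  refine re_and (re_of_prim (bVal_p.comp Primrec.snd)) ?_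
  refine re_exists (p := fun (x : Pres × BC) (z : List Wd × List Wd × List Wd) =>
    Cert x.2.1.1 x.1 z) ?_
  exact re_comp cert_re
    (f := fun y : (Pres × BC) × (List Wd × List Wd × List Wd) => ((y.1.2.1.1, y.1.1), y.2))
    (CB.p_pair (CB.p_pair (CB.p_fst (CB.p_fst (CB.p_snd (CB.p_fst CB.p_id))))
      (CB.p_fst (CB.p_fst CB.p_id))) (CB.p_snd CB.p_id)).to_comp

theorem noCertB_re : REPred fun x : Pres × Pres => NoCertB x.1 x.2 := by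
  have h1 := re_comp codeForB_re (f := fun x : (Pres × Pres) × (BC × BC) => (x.1.1, x.2.1))
    (Primrec.pair (Primrec.fst.comp Primrec.fst) (Primrec.fst.comp Primrec.snd)).to_comp
  have h2 := re_comp codeForB_re (f := fun x : (Pres × Pres) × (BC × BC) => (x.1.2, x.2.2))
    (Primrec.pair (Primrec.snd.comp Primrec.fst) (Primrec.snd.comp Primrec.snd)).to_comp
  have h3 := re_comp noMatB_re (f := fun x : (Pres × Pres) × (BC × BC) => x.2)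
    Primrec.snd.to_comp
  exact re_exists (p := fun (x : Pres × Pres) (z : BC × BC) =>
    CodeForB x.1 z.1 ∧ CodeForB x.2 z.2 ∧ ∀ t, InBB z.1 z.2 t → BadB z.1 z.2 t)
    (re_and h1 (re_and h2 h3))

end RaagBL
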