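import Pool.Agent.Lib.MP_32d917_al_bl.M12

/-!
# M14: numbers of walls and cycles (60 min)

`nb_nbl`: definition (`nB`, `nBl`). `nc_npt`: `nC ρ D p` is the number of cycles in `cyc_card` for `c = p.1.2` (`rep ρ .. p.1.2 = p.1.2`).
`nw_eq`: the bijection `ew` of walls maps the walls with piece `p` onto the walls with piece `ep p`: `wpN ρ D co w = p ↔ wpN ρ' D' co' (ew w) = ep p`. (`→`: let `w = (i, a, c)`, `p = (a, rep ρ (PP (st a)) c)`; `(ew w) = (β i c, a', d')`; `ep p = (a'', rep ρ' (PP (st a'')) (σ (π a) p.1.2).2)` with `π' a'' = (σ (π a) p.1.2).1`; `ew_wp` gives `π' a'' = π' a'`, so `a'' = a'` (single letter: `π' a'` is cut) and equality of the representatives.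
`←`: `ep` is injective: let `q = wpN w`, then `ep q = wpN' (ew w) = ep p`.) `Nat.card_congr (Equiv.subtypeEquiv ew ..)`.
-/

set_option autoImplicit false

namespace RaagBL

open RaagIso RaagGP RaagBP

variable {V W V' W' C C' : Type} {Γ : SimpleGraph V} {Λ : SimpleGraph W} {π : W → V}
  {Γ' : SimpleGraph V'} {Λ' : SimpleGraph W'} {π' : W' → V'} {ρ : RA Λ →* Equiv.Perm C}
  {ρ' : RA Λ' →* Equiv.Perm C'} {m m' : ℕ} {B : Fin m → Set V} {B' : Fin m' → Set V'}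
  {β : Fin m → C → Fin m'} {F : Fin m → C → C'} {τ : Fin m → C → V → V'}
  {Φ : Fin m → C → RA Λ → RA Λ'} {σ : V → C → V' × C'} {ε : V → C → ℤˣ}

theorem nb_nbl (a : W) : nB (fun i => π ⁻¹' B i) a = nBl B (π a) := by
  rfl

theorem nc_npt [Finite C] (hX : Ctx Γ Λ π B) (p : PcN ρ (fun i => π ⁻¹' B i)) :
    nPt Γ π ρ (π p.1.1) p.1.2 = nC ρ (fun i => π ⁻¹' B i) p * pr ρ p.1.1 p.1.2 := by
  have h1 : ∀ b, π b = π p.1.1 → b = p.1.1 := fun b hb =>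
    hX.sng (π p.1.1) (Or.inl ((ct_iff p.1.1).1 p.2.1)) b p.1.1 hb rfl
  have h2 := cyc_card (ρ := ρ) hX.bu h1 p.1.2
  have h3 : rep ρ (PP Λ (st Λ p.1.1)) p.1.2 = p.1.2 := p.2.2
  rw [h3] at h2
  exact h2

theorem nw_iff (hX : Ctx Γ Λ π B) (hX' : Ctx Γ' Λ' π' B')
    (hM : Mch0 Γ Γ' π π' B B' ρ ρ' β F τ Φ σ ε)
    {ep : PcN ρ (fun i => π ⁻¹' B i) ≃ PcN ρ' (fun i => π' ⁻¹' B' i)}
    (hep : ∀ p, π' (ep p).1.1 = (σ (π p.1.1) p.1.2).1 ∧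
      (ep p).1.2 = rep ρ' (PP Λ' (st Λ' (ep p).1.1)) (σ (π p.1.1) p.1.2).2)
    {ew : WlN ρ (fun i => π ⁻¹' B i) (NB Γ B) ≃ WlN ρ' (fun i => π' ⁻¹' B' i) (NB Γ' B')}
    (hew : ∀ w, (ew w).1.1 = β w.1.1 w.1.2.2 ∧
      π' (ew w).1.2.1 = τ w.1.1 w.1.2.2 (π w.1.2.1) ∧
      (ew w).1.2.2 = rep ρ' (PP Λ' (π' ⁻¹' B' (ew w).1.1 ∩ st Λ' (ew w).1.2.1))
        (F w.1.1 w.1.2.2)) (w : WlN ρ (fun i => π ⁻¹' B i) (NB Γ B)) :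
    wpN ρ' (fun i => π' ⁻¹' B' i) (NB Γ' B') (ew w) =
      ep (wpN ρ (fun i => π ⁻¹' B i) (NB Γ B) w) := by
  obtain ⟨g1, g2, g3⟩ := hew w
  have hc : Cut B (π w.1.2.1) := (ct_iff _).1 w.2.2.2.1
  have hc' : Cut B' (π' (ew w).1.2.1) := (ct_iff _).1 (ew w).2.2.2.1
  rw [g1] at g3
  obtain ⟨h1, h2⟩ := ew_wp hX hX' hM w.2.1 w.1.2.2 w.2.2.1 hc g2 g3
  obtain ⟨h3, h4⟩ := hep (wpN ρ (fun i => π ⁻¹' B i) (NB Γ B) w)
  have h5 : (ep (wpN ρ (fun i => π ⁻¹' B i) (NB Γ B) w)).1.1 = (ew w).1.2.1 := by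
    refine hX'.sng (π' (ew w).1.2.1) (Or.inl hc') _ _ ?_ rfl
    rw [h3]
    exact h1
  rw [h5] at h4
  apply Subtype.ext
  refine Prod.ext h5.symm ?_
  rw [h4]
  exact h2.symm

theorem nw_eq (hX : Ctx Γ Λ π B) (hX' : Ctx Γ' Λ' π' B')
    (hM : Mch0 Γ Γ' π π' B B' ρ ρ' β F τ Φ σ ε)
    {ep : PcN ρ (fun i => π ⁻¹' B i) ≃ PcN ρ' (fun i => π' ⁻¹' B' i)}
    (hep : ∀ p, π' (ep p).1.1 = (σ (π p.1.1) p.1.2).1 ∧
      (ep p).1.2 = rep ρ' (PP Λ' (st Λ' (ep p).1.1)) (σ (π p.1.1) p.1.2).2)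
    (p : PcN ρ (fun i => π ⁻¹' B i)) : nW ρ (fun i => π ⁻¹' B i) (NB Γ B) p =
      nW ρ' (fun i => π' ⁻¹' B' i) (NB Γ' B') (ep p) := by
  obtain ⟨ew, hew⟩ := ew_ex hX hX' hM
  refine Nat.card_congr (Equiv.subtypeEquiv ew (fun w => ?_))
  rw [nw_iff hX hX' hM hep hew w]
  exact ep.injective.eq_iff.symm

end RaagBL
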