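import Pool.Agent.Lib.MP_32d917_al_bl.P01

/-!
# P04 (60 min): twisted isomorphisms of data

`b_cast`: `subst`.
`twi_pm`: the map `Φ H : Sy D' H → Sy D H` is: `(Φ S).b o = (S.b (eo o)).comp (α o)`, `(Φ S).z p = S.z (ep p) ^ (ε p : ℤ)`,
`(Φ S).t w = S.t (ew w) * (S.b (eo (D.wo w)) ⟨g w, _⟩)⁻¹` where `g w` is chosen in `h.z w`, `(Φ S).u l = S.u (el l)`.
`ht`: with `b = S.b (eo (D.wo w))`, `z' = D'.z (ew w)`: `t w * b (α z) = t' * b g⁻¹ * b (g z'^ε g⁻¹) = t' * b z'^ε * b g⁻¹ = (S.z (D'.wp (ew w)))^ε * t' * b g⁻¹`; here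
`t' * b z' = S.z _ * t'` is `S.ht (ew w)` with `b_cast`; powers: from `t' b(z') t'⁻¹ = z` get `t' b(z')^n t'⁻¹ = z^n`.
`hu`: `Commute.zpow_right`.
`r`: the gauge `h ∘ eo`, `g ∘ ep`. `nat`: equality of the fields, gauges `1` (`simp [Sy.Gb, Sy.push, map_zpow]`).
`inj`: given `Φ S ~ Φ S'` with gauges `h`, `g`, the gauges `h ∘ eo.symm`, `g ∘ ep.symm` (every `o'` is `eo o`, every element of `D'.K (eo o)` is
`α o x`; every `p'` is `ep p`, from `x^ε = g y^ε g⁻¹` follows `x = g y g⁻¹` since `ε = ± 1`: `Int.units_eq_one_or`; every `w'` is `ew w`, cancel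
`b g`: `S'.b _ g = h * S.b _ g * h⁻¹`).
`surj`: given `S : Sy D H` define `S'` by `b o' = (S.b (eo.symm o')).comp ((α (eo.symm o')).symm.toMonoidHom.comp (MulEquiv.subgroupCongr _).toMonoidHom)`,
`z p' = S.z (ep.symm p') ^ ε`, `t w' = S.t (ew.symm w') * S.b _ ((α _).symm ⟨g, _⟩)`, `u l' = S.u (el.symm l')`. Perhaps easier: first show it
when `eo`, `ep`, `ew`, `el` are identities (`Equiv.refl`) after transporting `D'` along the equivalences; or prove `surj` by choosing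
for every `o'` an `o` and a proof `eo o = o'` and `subst`.
`twi_iso`: `isU_push` and `isU_unique`.
`loops_match`: `Finite.equivOfCardEq` for every fibre, `Equiv.sigmaFiberEquiv`, `Equiv.sigmaCongr`.
-/

set_option autoImplicit false

namespace RaagBP

open RaagIso

section

variable {A A' : Type} [Group A] [Group A']

/-- isomorphisms of data, up to signs and conjugation -/
structure TwI (D : CD A) (D' : CD A') (eo : D.Ob ≃ D'.Ob) (ep : D.Pc ≃ D'.Pc)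
    (ew : D.Wl ≃ D'.Wl) (el : D.Lp ≃ D'.Lp) (α : ∀ o, D.K o ≃* D'.K (eo o))
    (ε : D.Pc → ℤˣ) : Prop where
  wo : ∀ w, eo (D.wo w) = D'.wo (ew w)
  wp : ∀ w, ep (D.wp w) = D'.wp (ew w)
  lp : ∀ l, ep (D.lp l) = D'.lp (el l)
  z : ∀ w, ∃ g ∈ D'.K (eo (D.wo w)), ((α (D.wo w) ⟨D.z w, D.hz w⟩ : D'.K (eo (D.wo w))) : A') =
    g * D'.z (ew w) ^ ((ε (D.wp w) : ℤˣ) : ℤ) * g⁻¹

theorem b_cast {D : CD A} {H : Type} [Group H] (S : Sy D H) {o o' : D.Ob} (h : o = o') {x x' : A}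
    (e : x = x') (hx : x ∈ D.K o) (hx' : x' ∈ D.K o') : S.b o ⟨x, hx⟩ = S.b o' ⟨x', hx'⟩ := by
  subst h e
  rfl

private theorem p04_cast {D : CD A} {H : Type} [Group H] (b : ∀ o, D.K o →* H) {o o' : D.Ob}
    (h : o = o') {x : A} (hx : x ∈ D.K o) (hx' : x ∈ D.K o') : b o ⟨x, hx⟩ = b o' ⟨x, hx'⟩ := by
  subst h
  rfl

private theorem p04_zpow {H : Type} [Group H] (x : H) (e : ℤˣ) : (x ^ (e : ℤ)) ^ (e : ℤ) = x := by
  rw [← zpow_mul, Int.units_coe_mul_self, zpow_one]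

private theorem p04_alpha {D : CD A} {D' : CD A'} {eo : D.Ob ≃ D'.Ob} {ew : D.Wl ≃ D'.Wl}
    {α : ∀ o, D.K o ≃* D'.K (eo o)} {H : Type} [Group H] (b : ∀ o, D'.K o →* H) (w : D.Wl)
    (hw : eo (D.wo w) = D'.wo (ew w)) {g : A'} (hg : g ∈ D'.K (eo (D.wo w))) (n : ℤ)
    (hz : ((α (D.wo w) ⟨D.z w, D.hz w⟩ : D'.K (eo (D.wo w))) : A') =
      g * D'.z (ew w) ^ n * g⁻¹) :
    b (eo (D.wo w)) (α (D.wo w) ⟨D.z w, D.hz w⟩) =
      b (eo (D.wo w)) ⟨g, hg⟩ * b (D'.wo (ew w)) ⟨D'.z (ew w), D'.hz (ew w)⟩ ^ n *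
        (b (eo (D.wo w)) ⟨g, hg⟩)⁻¹ := by
  have hz' : D'.z (ew w) ∈ D'.K (eo (D.wo w)) := by rw [hw]; exact D'.hz (ew w)
  have h1 : α (D.wo w) ⟨D.z w, D.hz w⟩ =
      (⟨g, hg⟩ : D'.K (eo (D.wo w))) * (⟨D'.z (ew w), hz'⟩ : D'.K (eo (D.wo w))) ^ n *
        (⟨g, hg⟩ : D'.K (eo (D.wo w)))⁻¹ := by
    apply Subtype.ext
    rw [hz]
    simp
  rw [h1, map_mul, map_mul, map_inv, map_zpow, p04_cast b hw hz' (D'.hz (ew w))]

theorem twi_pm {D : CD A} {D' : CD A'} {eo : D.Ob ≃ D'.Ob} {ep : D.Pc ≃ D'.Pc}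
    {ew : D.Wl ≃ D'.Wl} {el : D.Lp ≃ D'.Lp} {α : ∀ o, D.K o ≃* D'.K (eo o)} {ε : D.Pc → ℤˣ}
    (h : TwI D D' eo ep ew el α ε) :
    ∃ Φ : ∀ (H : Type) [Group H], (SyF D').X H → (SyF D).X H, PM (SyF D') (SyF D) Φ := by
  choose g hg hz using h.z
  let Φ : ∀ (H : Type) [Group H], Sy D' H → Sy D H := fun H _ S =>
    { b := fun o => (S.b (eo o)).comp (α o).toMonoidHom
      z := fun p => S.z (ep p) ^ ((ε p : ℤˣ) : ℤ)
      t := fun w => S.t (ew w) * (S.b (eo (D.wo w)) ⟨g w, hg w⟩)⁻¹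
      u := fun l => S.u (el l)
      ht := by
        intro w
        show S.t (ew w) * (S.b (eo (D.wo w)) ⟨g w, hg w⟩)⁻¹ *
          S.b (eo (D.wo w)) (α (D.wo w) ⟨D.z w, D.hz w⟩) =
          S.z (ep (D.wp w)) ^ ((ε (D.wp w) : ℤˣ) : ℤ) *
            (S.t (ew w) * (S.b (eo (D.wo w)) ⟨g w, hg w⟩)⁻¹)
        rw [p04_alpha S.b w (h.wo w) (hg w) _ (hz w), h.wp w]
        have h1 : SemiconjBy (S.t (ew w))
            (S.b (D'.wo (ew w)) ⟨D'.z (ew w), D'.hz (ew w)⟩) (S.z (D'.wp (ew w))) := S.ht (ew w)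
        have h2 := (h1.zpow_right ((ε (D.wp w) : ℤˣ) : ℤ)).eq
        rw [← mul_assoc (S.z (D'.wp (ew w)) ^ _), ← h2]
        group
      hu := by
        intro l
        show S.u (el l) * S.z (ep (D.lp l)) ^ ((ε (D.lp l) : ℤˣ) : ℤ) =
          S.z (ep (D.lp l)) ^ ((ε (D.lp l) : ℤˣ) : ℤ) * S.u (el l)
        rw [h.lp l]
        have h1 : Commute (S.u (el l)) (S.z (D'.lp (el l))) := S.hu (el l)
        exact (h1.zpow_right _).eq }
  refine ⟨Φ, ?_, ?_, ?_, ?_⟩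
  · rintro H _ S S' ⟨h', g', h1, h2, h3, h4⟩
    refine ⟨fun o => h' (eo o), fun p => g' (ep p), fun o x => ?_, fun p => ?_, fun w => ?_,
      fun l => ?_⟩
    · exact h1 (eo o) (α o x)
    · show S'.z (ep p) ^ _ = g' (ep p) * S.z (ep p) ^ _ * (g' (ep p))⁻¹
      rw [h2, conj_zpow]
    · show S'.t (ew w) * (S'.b (eo (D.wo w)) ⟨g w, hg w⟩)⁻¹ = g' (ep (D.wp w)) *
        (S.t (ew w) * (S.b (eo (D.wo w)) ⟨g w, hg w⟩)⁻¹) * (h' (eo (D.wo w)))⁻¹
      rw [h3, h1, ← h.wo w, ← h.wp w]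
      group
    · show S'.u (el l) = g' (ep (D.lp l)) * S.u (el l) * (g' (ep (D.lp l)))⁻¹
      rw [h4, ← h.lp l]
  · intro H K _ _ F S
    refine ⟨fun _ => 1, fun _ => 1, fun o x => ?_, fun p => ?_, fun w => ?_, fun l => ?_⟩
    · rw [one_mul, inv_one, mul_one]
      rfl
    · rw [one_mul, inv_one, mul_one]
      show F (S.z (ep p) ^ _) = F (S.z (ep p)) ^ _
      rw [map_zpow]
    · rw [one_mul, inv_one, mul_one]
      show F (S.t (ew w) * (S.b (eo (D.wo w)) ⟨g w, hg w⟩)⁻¹) =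
        F (S.t (ew w)) * (F (S.b (eo (D.wo w)) ⟨g w, hg w⟩))⁻¹
      rw [map_mul, map_inv]
    · rw [one_mul, inv_one, mul_one]
      rfl
  · intro H _ S
    have hb0 : ∀ o' : D'.Ob, ∃ f : D'.K o' →* H, ∀ o (_ : eo o = o') (x : D.K o) (y : D'.K o'),
        ((α o x : D'.K (eo o)) : A') = (y : A') → f y = S.b o x := by
      intro o'
      obtain ⟨o, rfl⟩ := eo.surjective o'
      refine ⟨(S.b o).comp (α o).symm.toMonoidHom, ?_⟩
      intro o2 e x y hxy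
      obtain rfl := eo.injective e
      have : y = α o2 x := Subtype.ext hxy.symm
      subst this
      show S.b o2 ((α o2).symm (α o2 x)) = _
      rw [MulEquiv.symm_apply_apply]
    choose b hb using hb0
    have hbα : ∀ o x, b (eo o) (α o x) = S.b o x := fun o x => hb (eo o) o rfl x (α o x) rfl
    have hzz : ∀ p, (fun p' : D'.Pc => S.z (ep.symm p') ^ ((ε (ep.symm p') : ℤˣ) : ℤ)) (ep p) =
        S.z p ^ ((ε p : ℤˣ) : ℤ) := by
      intro p
      show S.z (ep.symm (ep p)) ^ ((ε (ep.symm (ep p)) : ℤˣ) : ℤ) = _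
      rw [ep.symm_apply_apply]
    have htt : ∀ w, (fun w' : D'.Wl => S.t (ew.symm w') *
        b (eo (D.wo (ew.symm w'))) ⟨g (ew.symm w'), hg (ew.symm w')⟩) (ew w) =
        S.t w * b (eo (D.wo w)) ⟨g w, hg w⟩ := by
      intro w
      show S.t (ew.symm (ew w)) *
        b (eo (D.wo (ew.symm (ew w)))) ⟨g (ew.symm (ew w)), hg (ew.symm (ew w))⟩ = _
      have : ∀ w1, w1 = w → S.t w1 * b (eo (D.wo w1)) ⟨g w1, hg w1⟩ =
          S.t w * b (eo (D.wo w)) ⟨g w, hg w⟩ := by rintro _ rfl; rfl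
      exact this _ (ew.symm_apply_apply w)
    generalize hzdef : (fun p' : D'.Pc => S.z (ep.symm p') ^ ((ε (ep.symm p') : ℤˣ) : ℤ)) = z'
      at hzz
    generalize htdef : (fun w' : D'.Wl => S.t (ew.symm w') *
        b (eo (D.wo (ew.symm w'))) ⟨g (ew.symm w'), hg (ew.symm w')⟩) = t' at htt
    let S' : Sy D' H :=
      { b := b
        z := z'
        t := t'
        u := fun l' => S.u (el.symm l')
        ht := by
          intro w'
          obtain ⟨w, rfl⟩ := ew.surjective w'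
          rw [htt w, ← h.wp w, hzz]
          have h1 := p04_alpha b w (h.wo w) (hg w) _ (hz w)
          rw [hbα] at h1
          have h2 := S.ht w
          rw [h1] at h2
          have h3 : SemiconjBy (S.t w * b (eo (D.wo w)) ⟨g w, hg w⟩)
              (b (D'.wo (ew w)) ⟨D'.z (ew w), D'.hz (ew w)⟩ ^ ((ε (D.wp w) : ℤˣ) : ℤ))
              (S.z (D.wp w)) := by
            show S.t w * b (eo (D.wo w)) ⟨g w, hg w⟩ * _ = S.z (D.wp w) * (S.t w * _)
            rw [← mul_assoc (S.z (D.wp w)), ← h2]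
            group
          have h4 := (h3.zpow_right ((ε (D.wp w) : ℤˣ) : ℤ)).eq
          rw [p04_zpow] at h4
          exact h4
        hu := by
          intro l'
          obtain ⟨l, rfl⟩ := el.surjective l'
          rw [← h.lp l, hzz, el.symm_apply_apply]
          have h1 : Commute (S.u l) (S.z (D.lp l)) := S.hu l
          exact (h1.zpow_right _).eq }
    refine ⟨S', fun _ => 1, fun _ => 1, fun o x => ?_, fun p => ?_, fun w => ?_, fun l => ?_⟩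
    · rw [one_mul, inv_one, mul_one]
      exact (hbα o x).symm
    · rw [one_mul, inv_one, mul_one]
      show S.z p = z' (ep p) ^ _
      rw [hzz, p04_zpow]
    · rw [one_mul, inv_one, mul_one]
      show S.t w = t' (ew w) * (b (eo (D.wo w)) ⟨g w, hg w⟩)⁻¹
      rw [htt]
      group
    · rw [one_mul, inv_one, mul_one]
      show S.u l = S.u (el.symm (el l))
      rw [el.symm_apply_apply]
  · rintro H _ S S' ⟨h0, g0, h1, h2, h3, h4⟩
    refine ⟨fun o => h0 (eo.symm o), fun p => g0 (ep.symm p), fun o' x' => ?_, fun p' => ?_,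
      fun w' => ?_, fun l' => ?_⟩
    · obtain ⟨o, rfl⟩ := eo.surjective o'
      obtain ⟨x, rfl⟩ := (α o).surjective x'
      show _ = h0 (eo.symm (eo o)) * _ * (h0 (eo.symm (eo o)))⁻¹
      rw [eo.symm_apply_apply]
      exact h1 o x
    · obtain ⟨p, rfl⟩ := ep.surjective p'
      show _ = g0 (ep.symm (ep p)) * _ * (g0 (ep.symm (ep p)))⁻¹
      rw [ep.symm_apply_apply]
      have h5 : S'.z (ep p) ^ ((ε p : ℤˣ) : ℤ) =
        g0 p * S.z (ep p) ^ ((ε p : ℤˣ) : ℤ) * (g0 p)⁻¹ := h2 p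
      rw [← conj_zpow] at h5
      have h6 := congrArg (fun x => x ^ ((ε p : ℤˣ) : ℤ)) h5
      simpa only [p04_zpow] using h6
    · obtain ⟨w, rfl⟩ := ew.surjective w'
      show _ = g0 (ep.symm (D'.wp (ew w))) * _ * (h0 (eo.symm (D'.wo (ew w))))⁻¹
      rw [← h.wo w, ← h.wp w, eo.symm_apply_apply, ep.symm_apply_apply]
      have h5 : S'.t (ew w) * (S'.b (eo (D.wo w)) ⟨g w, hg w⟩)⁻¹ = g0 (D.wp w) *
        (S.t (ew w) * (S.b (eo (D.wo w)) ⟨g w, hg w⟩)⁻¹) * (h0 (D.wo w))⁻¹ := h3 w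
      obtain ⟨x, hx⟩ := (α (D.wo w)).surjective ⟨g w, hg w⟩
      have h6 : S'.b (eo (D.wo w)) (α (D.wo w) x) = h0 (D.wo w) *
        S.b (eo (D.wo w)) (α (D.wo w) x) * (h0 (D.wo w))⁻¹ := h1 (D.wo w) x
      rw [hx] at h6
      have h7 := mul_inv_eq_iff_eq_mul.1 h5
      rw [h7, h6]
      group
    · obtain ⟨l, rfl⟩ := el.surjective l'
      show _ = g0 (ep.symm (D'.lp (el l))) * _ * (g0 (ep.symm (D'.lp (el l))))⁻¹
      rw [← h.lp l, ep.symm_apply_apply]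
      exact h4 l

theorem twi_iso {D : CD A} {D' : CD A'} {eo : D.Ob ≃ D'.Ob} {ep : D.Pc ≃ D'.Pc}
    {ew : D.Wl ≃ D'.Wl} {el : D.Lp ≃ D'.Lp} {α : ∀ o, D.K o ≃* D'.K (eo o)} {ε : D.Pc → ℤˣ}
    (h : TwI D D' eo ep ew el α ε) {G G' : Type} [Group G] [Group G'] {S : (SyF D).X G}
    {S' : (SyF D').X G'} (hS : IsU (SyF D) G S) (hS' : IsU (SyF D') G' S') :
    Nonempty (G ≃* G') := by
  obtain ⟨Φ, hΦ⟩ := twi_pm h
  obtain ⟨e, -⟩ := isU_unique hS (isU_push hΦ hS')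
  exact ⟨e⟩

theorem loops_match {L L' P P' : Type} [Finite L] [Finite L'] (lp : L → P) (lp' : L' → P')
    (ep : P ≃ P')
    (h : ∀ p, Nat.card {l // lp l = p} = Nat.card {l // lp' l = ep p}) :
    ∃ el : L ≃ L', ∀ l, ep (lp l) = lp' (el l) := by
  have hE : ∀ p, Nonempty ({l // lp l = p} ≃ {l // lp' l = ep p}) := fun p =>
    Finite.card_eq.1 (h p)
  let E : ∀ p, {l // lp l = p} ≃ {l // lp' l = ep p} := fun p => (hE p).some
  refine ⟨(Equiv.sigmaFiberEquiv lp).symm.trans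
    ((Equiv.sigmaCongr ep E).trans (Equiv.sigmaFiberEquiv lp')), fun l => ?_⟩
  exact (E (lp l) ⟨l, rfl⟩).2.symm

end

end RaagBP
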