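import Pool.Agent.Lib.MP_32d917_al_bl.P04

/-!
# P06 (40 min): making a loop

The walls `e1 ≠ e2` lie in the same object `o`, `z e1 = y * z e2 * y⁻¹` with `y ∈ K o`, and belong to the same piece. Remove the wall
`e2` and add a loop (`none`).
`(Φ S).b = S.b`, `(Φ S).z = S.z`, `(Φ S).t w = S.t ⟨w, _⟩` for `w ≠ e2` and `(Φ S).t e2 = S.u none * S.t ⟨e1, _⟩ * b y` (`b = S.b (wo e1)`, with `b_cast`),
`(Φ S).u l = S.u (some l)`. `ht` for `e2`: `u * t1 * b y * b (z e2) = u * t1 * b (z e1) * b y = u * z1 * t1 * b y = z1 * u * t1 * b y`. (`classical`, `if h : w = e2 then .. else ..`.)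
`r`: the same gauges. `nat`: gauges `1` (fields are equal; case distinction `w = e2`).
`inj`: the same gauges; the equations for `e1` and `e2` give `S'.t e1 = g * S.t e1 * h⁻¹` and `S'.u none * S'.t e1 * b' y = g * S.u none * S.t e1 * b y * h⁻¹` with
`b' y = h * b y * h⁻¹`, so `S'.u none = g * S.u none * g⁻¹`.
`surj`: given `S`, take `S'.u none = S.t e2 * (S.t e1 * b y)⁻¹` (it commutes with `z (wp e1)`, by `ht` for `e1` and `e2`), `S'.u (some l) = S.u l`, the rest by restriction. Then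
`Φ S' ~ S` with gauges `1` (fields are equal).
-/

set_option autoImplicit false

namespace RaagBP

open RaagIso

section

variable {A : Type} [Group A]

private theorem P06_conj {A : Type} [Group A] {K : Subgroup A} {H : Type} [Group H] (B : K →* H)
    {z x y : A} (hz : z ∈ K) (hx : x ∈ K) (hy : y ∈ K) (e : z = x * y * x⁻¹) :
    B ⟨z, hz⟩ = B ⟨x, hx⟩ * B ⟨y, hy⟩ * (B ⟨x, hx⟩)⁻¹ := by
  rw [← map_inv, ← map_mul, ← map_mul]
  congr 1
  exact Subtype.ext e

theorem loop_pm (Ob : Type) (K : Ob → Subgroup A) (Pc Wl Lp : Type) (wo : Wl → Ob)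
    (wp : Wl → Pc) (lp : Lp → Pc) (z : Wl → A) (hz : ∀ w, z w ∈ K (wo w)) (e1 e2 : Wl)
    (hne : e1 ≠ e2) (ho : wo e1 = wo e2) (y : A) (hy : y ∈ K (wo e1))
    (hzy : z e1 = y * z e2 * y⁻¹) (hp : wp e1 = wp e2) :
    ∃ Φ : ∀ (H : Type) [Group H],
      Sy (⟨Ob, Pc, {w : Wl // w ≠ e2}, Option Lp, K, fun w => wo w.1,
        fun w => wp w.1, fun l => l.elim (wp e1) lp, fun w => z w.1, fun w => hz w.1⟩ : CD A) H →
      Sy (⟨Ob, Pc, Wl, Lp, K, wo, wp, lp, z, hz⟩ : CD A) H,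
      PM (SyF ⟨Ob, Pc, {w : Wl // w ≠ e2}, Option Lp, K, fun w => wo w.1,
        fun w => wp w.1, fun l => l.elim (wp e1) lp, fun w => z w.1, fun w => hz w.1⟩)
        (SyF ⟨Ob, Pc, Wl, Lp, K, wo, wp, lp, z, hz⟩) Φ ∧
      (∀ (H : Type) [Group H] S o, (Φ H S).b o = S.b o) ∧
      ∀ (H : Type) [Group H] S p, (Φ H S).z p = S.z p := by
  classical
  have hz2 : z e2 ∈ K (wo e1) := by rw [ho]; exact hz e2
  -- the two walls of a system
  have key : ∀ (H : Type) [Group H] (S : Sy (⟨Ob, Pc, Wl, Lp, K, wo, wp, lp, z, hz⟩ : CD A) H),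
      S.t e2 * (S.b (wo e1) ⟨z e2, hz2⟩) = S.z (wp e1) * S.t e2 := by
    intro H _ S
    have h1 := S.ht e2
    have h2 : S.b (wo e2) ⟨z e2, hz e2⟩ = S.b (wo e1) ⟨z e2, hz2⟩ := b_cast S ho.symm rfl _ _
    dsimp only at h1
    rw [h2, ← hp] at h1
    exact h1
  refine ⟨fun H _ S =>
    { b := S.b
      z := S.z
      t := fun w => if h : w = e2 then S.u none * S.t ⟨e1, hne⟩ * S.b (wo e1) ⟨y, hy⟩
        else S.t ⟨w, h⟩
      u := fun l => S.u (some l)
      ht := fun w => ?_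
      hu := fun l => S.hu (some l) }, ?_, fun H _ S o => rfl, fun H _ S p => rfl⟩
  · by_cases h : w = e2
    · subst h
      dsimp only
      rw [dif_pos rfl]
      have h1 := S.ht ⟨e1, hne⟩
      have h2 := S.hu none
      have h3 := P06_conj (S.b (wo e1)) (hz e1) hy hz2 hzy
      have h4 : S.b (wo w) ⟨z w, hz w⟩ = S.b (wo e1) ⟨z w, hz2⟩ := b_cast S ho.symm rfl _ _
      dsimp only [Option.elim] at h1 h2 h3 h4
      rw [h3] at h1
      rw [h4, ← hp]
      calc S.u none * S.t ⟨e1, hne⟩ * S.b (wo e1) ⟨y, hy⟩ * S.b (wo e1) ⟨z w, hz2⟩ =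
          S.u none * (S.t ⟨e1, hne⟩ * (S.b (wo e1) ⟨y, hy⟩ * S.b (wo e1) ⟨z w, hz2⟩ *
            (S.b (wo e1) ⟨y, hy⟩)⁻¹)) * S.b (wo e1) ⟨y, hy⟩ := by group
        _ = (S.u none * S.z (wp e1)) * S.t ⟨e1, hne⟩ * S.b (wo e1) ⟨y, hy⟩ := by
            rw [h1]; group
        _ = _ := by rw [h2]; group
    · dsimp only
      rw [dif_neg h]
      exact S.ht ⟨w, h⟩
  · constructor
    · rintro H _ S S' ⟨h, g, h1, h2, h3, h4⟩
      refine ⟨h, g, h1, h2, fun w => ?_, fun l => h4 (some l)⟩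
      dsimp only
      by_cases hw : w = e2
      · subst hw
        rw [dif_pos rfl, dif_pos rfl]
        have e3 := h3 ⟨e1, hne⟩
        have e1' := h1 (wo e1) ⟨y, hy⟩
        have e4 := h4 none
        dsimp only [Option.elim] at e1' e3 e4
        rw [e3, e1', e4, ← hp, ← ho]
        group
      · rw [dif_neg hw, dif_neg hw]
        exact h3 ⟨w, hw⟩
    · intro H K' _ _ F S
      refine ⟨fun _ => 1, fun _ => 1, fun o y => ?_, fun p => ?_, fun w => ?_, fun l => ?_⟩
      · simp [Sy.push, SyF]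
      · simp [Sy.push, SyF]
      · by_cases hw : w = e2
        · subst hw
          simp [Sy.push, SyF]
        · simp [Sy.push, SyF, hw]
      · simp [Sy.push, SyF]
    · intro H _ S
      refine ⟨
        { b := S.b
          z := S.z
          t := fun w => S.t w.1
          u := fun l => l.elim (S.t e2 * (S.t e1 * S.b (wo e1) ⟨y, hy⟩)⁻¹) S.u
          ht := fun w => S.ht w.1
          hu := ?_ }, fun _ => 1, fun _ => 1, fun o y => ?_, fun p => ?_, fun w => ?_, fun l => ?_⟩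
      · rintro (_ | l)
        · dsimp only [Option.elim]
          have h1 := S.ht e1
          have h2 := key H S
          have h3 := P06_conj (S.b (wo e1)) (hz e1) hy hz2 hzy
          dsimp only at h1 h3
          rw [h3] at h1
          have h5 : (S.t e1 * S.b (wo e1) ⟨y, hy⟩)⁻¹ * S.z (wp e1) =
              S.b (wo e1) ⟨z e2, hz2⟩ * (S.t e1 * S.b (wo e1) ⟨y, hy⟩)⁻¹ := by
            rw [inv_mul_eq_iff_eq_mul]
            calc S.z (wp e1) = (S.z (wp e1) * S.t e1) * (S.t e1)⁻¹ := by group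
              _ = _ := by rw [← h1]; group
          calc S.t e2 * (S.t e1 * S.b (wo e1) ⟨y, hy⟩)⁻¹ * S.z (wp e1) =
              S.t e2 * ((S.t e1 * S.b (wo e1) ⟨y, hy⟩)⁻¹ * S.z (wp e1)) := by group
            _ = (S.t e2 * S.b (wo e1) ⟨z e2, hz2⟩) * (S.t e1 * S.b (wo e1) ⟨y, hy⟩)⁻¹ := by
                rw [h5]; group
            _ = _ := by rw [h2]; group
        · exact S.hu l
      · simp
      · simp
      · by_cases hw : w = e2
        · subst hw
          show S.t w = 1 * (if h : w = w then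
            (S.t w * (S.t e1 * S.b (wo e1) ⟨y, hy⟩)⁻¹) * S.t e1 * S.b (wo e1) ⟨y, hy⟩
            else S.t w) * (1 : H)⁻¹
          rw [dif_pos rfl]
          group
        · simp [hw]
      · simp
    · rintro H _ S S' ⟨h, g, h1, h2, h3, h4⟩
      have e3 : ∀ (w : Wl) (hw : w ≠ e2), S'.t ⟨w, hw⟩ = g (wp w) * S.t ⟨w, hw⟩ * (h (wo w))⁻¹ := by
        intro w hw
        have := h3 w
        dsimp only at this
        rw [dif_neg hw, dif_neg hw] at this
        exact this
      refine ⟨h, g, h1, h2, fun w => e3 w.1 w.2, ?_⟩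
      rintro (_ | l)
      · have e4 := h3 e2
        have e1' := h1 (wo e1) ⟨y, hy⟩
        dsimp only [Option.elim] at e4 e1' ⊢
        rw [dif_pos rfl, dif_pos rfl, e3 e1 hne, e1', ← hp, ← ho] at e4
        calc S'.u none = (S'.u none * (g (wp e1) * S.t ⟨e1, hne⟩ * (h (wo e1))⁻¹) *
              (h (wo e1) * S.b (wo e1) ⟨y, hy⟩ * (h (wo e1))⁻¹)) *
              (h (wo e1) * S.b (wo e1) ⟨y, hy⟩ * (h (wo e1))⁻¹)⁻¹ *
              (g (wp e1) * S.t ⟨e1, hne⟩ * (h (wo e1))⁻¹)⁻¹ := by group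
          _ = _ := by rw [e4]; group
      · exact h4 l

end

end RaagBP
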