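import Pool.Agent.Lib.MP_32d917_al_bl.P04

/-!
# P07 (40 min): relabelling

`f` and `q` are bijections. `(Φ S).b = S.b`, `(Φ S).z p = S.z (q p)`, `(Φ S).t w = S.t (f w) * (b x)⁻¹` where `x = x w` is chosen in `hx w` (`b = S.b (wo w)`, `S.b (wod (f w))`
by `b_cast`), `(Φ S).u = S.u`.
`r`: gauges `h`, `g ∘ q`. `nat`: gauges `1`. `inj`: gauges `h`, `g ∘ q⁻¹` (`Equiv.ofBijective q`), for walls cancel `b x`. `surj`: given `S`, take `S'.z p = S.z (q⁻¹ p)`,
`S'.t w = S.t (f⁻¹ w) * b (x (f⁻¹ w))`, `S'.u = S.u` (use `Equiv.ofBijective f`, `Equiv.ofBijective q`; casts by `b_cast`).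
-/

set_option autoImplicit false

namespace RaagBP

open RaagIso

section

variable {A : Type} [Group A]

private theorem P07_conj {A : Type} [Group A] {K : Subgroup A} {H : Type} [Group H] (B : K →* H)
    {z x y : A} (hz : z ∈ K) (hx : x ∈ K) (hy : y ∈ K) (e : z = x * y * x⁻¹) :
    B ⟨z, hz⟩ = B ⟨x, hx⟩ * B ⟨y, hy⟩ * (B ⟨x, hx⟩)⁻¹ := by
  rw [← map_inv, ← map_mul, ← map_mul]
  congr 1
  exact Subtype.ext e

theorem relabel_pm (Ob : Type) (K : Ob → Subgroup A) (Wd Pq : Type) (wod : Wd → Ob)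
    (wpd : Wd → Pq) (zd : Wd → A) (hzd : ∀ w, zd w ∈ K (wod w))
    (Pc Wl Lp : Type) (wo : Wl → Ob)
    (wp : Wl → Pc) (lp : Lp → Pc) (z : Wl → A) (hz : ∀ w, z w ∈ K (wo w))
    (f : Wl → Wd) (q : Pc → Pq) (hf : Function.Bijective f) (hq : Function.Bijective q)
    (hwo : ∀ w, wod (f w) = wo w) (hwp : ∀ w, wpd (f w) = q (wp w))
    (hx : ∀ w, ∃ x ∈ K (wo w), z w = x * zd (f w) * x⁻¹) :
    ∃ Φ : ∀ (H : Type) [Group H],
      Sy (⟨Ob, Pq, Wd, Lp, K, wod, wpd, fun l => q (lp l), zd, hzd⟩ : CD A) H →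
      Sy (⟨Ob, Pc, Wl, Lp, K, wo, wp, lp, z, hz⟩ : CD A) H,
      PM (SyF ⟨Ob, Pq, Wd, Lp, K, wod, wpd, fun l => q (lp l), zd, hzd⟩)
        (SyF ⟨Ob, Pc, Wl, Lp, K, wo, wp, lp, z, hz⟩) Φ ∧
      (∀ (H : Type) [Group H] S o, (Φ H S).b o = S.b o) ∧
      ∀ (H : Type) [Group H] S p, (Φ H S).z p = S.z (q p) := by
  classical
  choose x hxK hxz using hx
  have hd : ∀ w, zd (f w) ∈ K (wo w) := fun w => by rw [← hwo]; exact hzd _
  have efs : ∀ w, (Equiv.ofBijective f hf).symm (f w) = w :=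
    fun w => (Equiv.ofBijective f hf).symm_apply_apply w
  have eqs : ∀ p, (Equiv.ofBijective q hq).symm (q p) = p :=
    fun p => (Equiv.ofBijective q hq).symm_apply_apply p
  refine ⟨fun H _ S =>
    { b := S.b
      z := fun p => S.z (q p)
      t := fun w => S.t (f w) * (S.b (wo w) ⟨x w, hxK w⟩)⁻¹
      u := S.u
      ht := fun w => ?_
      hu := S.hu }, ?_, fun H _ S o => rfl, fun H _ S p => rfl⟩
  · have h1 := S.ht (f w)
    dsimp only at h1 ⊢
    have h2 : S.b (wod (f w)) ⟨zd (f w), hzd (f w)⟩ = S.b (wo w) ⟨zd (f w), hd w⟩ :=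
      b_cast S (hwo w) rfl _ _
    rw [h2, hwp] at h1
    have h3 := P07_conj (S.b (wo w)) (hz w) (hxK w) (hd w) (hxz w)
    dsimp only at h3
    rw [h3]
    calc S.t (f w) * (S.b (wo w) ⟨x w, hxK w⟩)⁻¹ * (S.b (wo w) ⟨x w, hxK w⟩ *
          S.b (wo w) ⟨zd (f w), hd w⟩ * (S.b (wo w) ⟨x w, hxK w⟩)⁻¹) =
          (S.t (f w) * S.b (wo w) ⟨zd (f w), hd w⟩) * (S.b (wo w) ⟨x w, hxK w⟩)⁻¹ := by group
      _ = _ := by rw [h1]; group
  · constructor
    · rintro H _ S S' ⟨h, g, h1, h2, h3, h4⟩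
      refine ⟨h, fun p => g (q p), h1, fun p => h2 (q p), fun w => ?_, h4⟩
      have e3 := h3 (f w)
      have e1 := h1 (wo w) ⟨x w, hxK w⟩
      dsimp only at e1 e3 ⊢
      rw [hwp, hwo] at e3
      rw [e3, e1]
      group
    · intro H K' _ _ F S
      refine ⟨fun _ => 1, fun _ => 1, fun o y => ?_, fun p => ?_, fun w => ?_, fun l => ?_⟩ <;>
      simp [Sy.push, SyF]
    · intro H _ S
      let T : Wl → H := fun w => S.t w * S.b (wo w) ⟨x w, hxK w⟩
      refine ⟨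
        { b := S.b
          z := fun p => S.z ((Equiv.ofBijective q hq).symm p)
          t := fun w => T ((Equiv.ofBijective f hf).symm w)
          u := S.u
          ht := ?_
          hu := ?_ }, fun _ => 1, fun _ => 1, fun o y => ?_, fun p => ?_, fun w => ?_, fun l => ?_⟩
      · intro w'
        obtain ⟨w, rfl⟩ := hf.2 w'
        dsimp only
        rw [efs, hwp, eqs]
        have h1 := S.ht w
        have h2 : S.b (wod (f w)) ⟨zd (f w), hzd (f w)⟩ = S.b (wo w) ⟨zd (f w), hd w⟩ :=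
          b_cast S (hwo w) rfl _ _
        have h3 := P07_conj (S.b (wo w)) (hz w) (hxK w) (hd w) (hxz w)
        dsimp only at h1 h3
        rw [h3] at h1
        show S.t w * S.b (wo w) ⟨x w, hxK w⟩ * S.b (wod (f w)) ⟨zd (f w), hzd (f w)⟩ =
          S.z (wp w) * (S.t w * S.b (wo w) ⟨x w, hxK w⟩)
        rw [h2]
        calc S.t w * S.b (wo w) ⟨x w, hxK w⟩ * S.b (wo w) ⟨zd (f w), hd w⟩ =
            S.t w * (S.b (wo w) ⟨x w, hxK w⟩ * S.b (wo w) ⟨zd (f w), hd w⟩ *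
              (S.b (wo w) ⟨x w, hxK w⟩)⁻¹) * S.b (wo w) ⟨x w, hxK w⟩ := by group
          _ = _ := by rw [h1]; group
      · intro l
        dsimp only
        rw [eqs]
        exact S.hu l
      · simp
      · simp [eqs]
      · show S.t w = 1 * (T ((Equiv.ofBijective f hf).symm (f w)) *
          (S.b (wo w) ⟨x w, hxK w⟩)⁻¹) * (1 : H)⁻¹
        rw [efs]
        show S.t w = 1 * (S.t w * S.b (wo w) ⟨x w, hxK w⟩ *
          (S.b (wo w) ⟨x w, hxK w⟩)⁻¹) * (1 : H)⁻¹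
        group
      · simp
    · rintro H _ S S' ⟨h, g, h1, h2, h3, h4⟩
      refine ⟨h, fun p => g ((Equiv.ofBijective q hq).symm p), h1, fun p' => ?_, fun w' => ?_,
        fun l => ?_⟩
      · obtain ⟨p, rfl⟩ := hq.2 p'
        dsimp only
        rw [eqs]
        exact h2 p
      · obtain ⟨w, rfl⟩ := hf.2 w'
        dsimp only
        rw [hwp, hwo, eqs]
        have e3 := h3 w
        have e1 := h1 (wo w) ⟨x w, hxK w⟩
        dsimp only at e1 e3
        rw [e1] at e3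
        calc S'.t (f w) = S'.t (f w) * (h (wo w) * S.b (wo w) ⟨x w, hxK w⟩ * (h (wo w))⁻¹)⁻¹ *
              (h (wo w) * S.b (wo w) ⟨x w, hxK w⟩ * (h (wo w))⁻¹) := by group
          _ = _ := by rw [e3]; group
      · dsimp only
        rw [eqs]
        exact h4 l

end

end RaagBP
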