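import Pool.Agent.Lib.MP_32d917_al_bl.P05
import Pool.Agent.Lib.MP_32d917_al_bl.P06
import Pool.Agent.Lib.MP_32d917_al_bl.P07

/-!
# P08 (60 min): reduction to given walls and pieces

Induction on `n = Nat.card Wl`.
* If `f` is injective: it is bijective, and `hcon` shows that `q` is injective (all steps are trivial: `f w = f w'` gives `w = w'`). Use `relabel_pm`, `Lq = Lp`, `lq = q ∘ lp`; the cardinalities: the fibres of `wpd` and of `q ∘ wp`
  correspond by `f`, the fibre of `q` has one element.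
* Otherwise take `e1 ≠ e2` with `f e1 = f e2`. Then `wo e1 = wo e2` (`hwo`), `z e1 = x1 zd x1⁻¹`, `z e2 = x2 zd x2⁻¹`, so `z e1 = y z e2 y⁻¹` with `y = x1 x2⁻¹ ∈ K`.
  * If `wp e1 = wp e2`: apply the induction hypothesis to the data of `loop_pm` (`Wl' = {w // w ≠ e2}`, `f' = f ∘ val` is still surjective since `e1` remains; in `hcon` replace `e2` by `e1`).
    The number `#{l // q (lp l) = p}` increases by one for `p = q (wp e1)`, `#{w // q (wp w) = p}` decreases by one for the same `p`.
  * If `wp e1 ≠ wp e2`: let `m : Pc → {p // p ≠ wp e2}` be the map with `m (wp e2) = wp e1` and `m p = p` otherwise (`classical`). `q (wp e1) = q (wp e2)` by `hwp`. Apply the induction hypothesis to the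
    data of `merge_pm` with `f' = f ∘ val`, `q' = q ∘ val` (so `q' (m p) = q p` for all `p`). `hcon`: for `a`, `b` with `q a = q b` lift the path by `m`: a step `(w, w')` becomes the step with `e2` replaced by `e1`
    (`m (wp e2) = m (wp e1)`), `m a = a`. The numbers `#{w // q (wp w) = p}` and `#{a // q a = p}` decrease by one for `p = q (wp e1)`, `#{l // ..}` stays.
  Compose with `pm_comp`. For the cardinalities use `Finite.card_subtype`, `Nat.card_congr`, `Finite.card_option` or the lemma: for a finite type `T`, `e : T` and a predicate `Q`: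
  `#{w : T // Q w} = #{w : {w // w ≠ e} // Q w.1} + (if Q e then 1 else 0)` (prove it once).
-/

set_option autoImplicit false

namespace RaagBP

open RaagIso

section

variable {A : Type} [Group A]

private theorem P08_ne {T : Type} [Finite T] (e : T) (Q : T → Prop) [Decidable (Q e)] :
    Nat.card {w // Q w} = Nat.card {w : {w // w ≠ e} // Q w.1} + (if Q e then 1 else 0) := by
  classical
  have h1 : Nat.card {w : {w // w ≠ e} // Q w.1} = ({w | Q w} \ {e} : Set T).ncard := by
    rw [← Nat.card_coe_set_eq]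
    exact Nat.card_congr ⟨fun w => ⟨w.1.1, w.2, w.1.2⟩, fun w => ⟨⟨w.1, w.2.2⟩, w.2.1⟩,
      fun w => rfl, fun w => rfl⟩
  have h2 : Nat.card {w // Q w} = ({w | Q w} : Set T).ncard := by
    rw [← Nat.card_coe_set_eq]
    rfl
  rw [h1, h2]
  split_ifs with h
  · exact (Set.ncard_diff_singleton_add_one (show e ∈ {w | Q w} from h) (Set.toFinite _)).symm
  · rw [Set.diff_singleton_eq_self (show e ∉ {w | Q w} from h), add_zero]

private theorem P08_opt {L : Type} [Finite L] (Q : Option L → Prop) [Decidable (Q none)] :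
    Nat.card {l // Q l} = Nat.card {l // Q (some l)} + (if Q none then 1 else 0) := by
  classical
  rw [P08_ne none Q]
  congr 1
  refine Nat.card_congr ⟨fun w => ⟨w.1.1.get (Option.ne_none_iff_isSome.1 w.1.2), by
    rw [Option.some_get]; exact w.2⟩, fun w => ⟨⟨some w.1, Option.some_ne_none _⟩, w.2⟩, ?_, ?_⟩
  · intro w
    refine Subtype.ext (Subtype.ext ?_)
    exact Option.some_get _
  · intro w
    exact Subtype.ext rfl

theorem red_pm (Ob : Type) (K : Ob → Subgroup A) (Wd Pq : Type) [Finite Wd] [Finite Pq]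
    (wod : Wd → Ob) (wpd : Wd → Pq) (zd : Wd → A) (hzd : ∀ w, zd w ∈ K (wod w)) (n : ℕ) :
    ∀ (Pc Wl Lp : Type) [Finite Pc] [Finite Wl] [Finite Lp] (wo : Wl → Ob)
    (wp : Wl → Pc) (lp : Lp → Pc) (z : Wl → A) (hz : ∀ w, z w ∈ K (wo w))
    (f : Wl → Wd) (q : Pc → Pq), Nat.card Wl = n → Function.Surjective f →
    Function.Surjective q → (∀ w, wod (f w) = wo w) → (∀ w, wpd (f w) = q (wp w)) →
    (∀ w, ∃ x ∈ K (wo w), z w = x * zd (f w) * x⁻¹) →
    (∀ a b, q a = q b → Relation.ReflTransGen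
      (fun a b => ∃ w w', f w = f w' ∧ wp w = a ∧ wp w' = b) a b) →
    ∃ (Lq : Type) (_ : Finite Lq) (lq : Lq → Pq) (Φ : ∀ (H : Type) [Group H],
      Sy (⟨Ob, Pq, Wd, Lq, K, wod, wpd, lq, zd, hzd⟩ : CD A) H →
      Sy (⟨Ob, Pc, Wl, Lp, K, wo, wp, lp, z, hz⟩ : CD A) H),
      PM (SyF ⟨Ob, Pq, Wd, Lq, K, wod, wpd, lq, zd, hzd⟩)
        (SyF ⟨Ob, Pc, Wl, Lp, K, wo, wp, lp, z, hz⟩) Φ ∧
      (∀ (H : Type) [Group H] S o, (Φ H S).b o = S.b o) ∧
      (∀ (H : Type) [Group H] S p, (Φ H S).z p = S.z (q p)) ∧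
      ∀ p, Nat.card {l // lq l = p} + Nat.card {w // wpd w = p} + Nat.card {a // q a = p} =
        Nat.card {l // q (lp l) = p} + Nat.card {w // q (wp w) = p} + 1 := by
  classical
  -- the injective case
  have base : ∀ (Pc Wl Lp : Type) [Finite Pc] [Finite Wl] [Finite Lp] (wo : Wl → Ob)
      (wp : Wl → Pc) (lp : Lp → Pc) (z : Wl → A) (hz : ∀ w, z w ∈ K (wo w))
      (f : Wl → Wd) (q : Pc → Pq), Function.Injective f → Function.Surjective f →
      Function.Surjective q → (∀ w, wod (f w) = wo w) → (∀ w, wpd (f w) = q (wp w)) →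
      (∀ w, ∃ x ∈ K (wo w), z w = x * zd (f w) * x⁻¹) →
      (∀ a b, q a = q b → Relation.ReflTransGen
        (fun a b => ∃ w w', f w = f w' ∧ wp w = a ∧ wp w' = b) a b) →
      ∃ (Lq : Type) (_ : Finite Lq) (lq : Lq → Pq) (Φ : ∀ (H : Type) [Group H],
        Sy (⟨Ob, Pq, Wd, Lq, K, wod, wpd, lq, zd, hzd⟩ : CD A) H →
        Sy (⟨Ob, Pc, Wl, Lp, K, wo, wp, lp, z, hz⟩ : CD A) H),
        PM (SyF ⟨Ob, Pq, Wd, Lq, K, wod, wpd, lq, zd, hzd⟩)
          (SyF ⟨Ob, Pc, Wl, Lp, K, wo, wp, lp, z, hz⟩) Φ ∧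
        (∀ (H : Type) [Group H] S o, (Φ H S).b o = S.b o) ∧
        (∀ (H : Type) [Group H] S p, (Φ H S).z p = S.z (q p)) ∧
        ∀ p, Nat.card {l // lq l = p} + Nat.card {w // wpd w = p} + Nat.card {a // q a = p} =
          Nat.card {l // q (lp l) = p} + Nat.card {w // q (wp w) = p} + 1 := by
    intro Pc Wl Lp _ _ _ wo wp lp z hz f q hinj hf hq hwo hwp hx hcon
    have hqi : Function.Injective q := by
      intro a b hab
      have h := hcon a b hab
      induction h with
      | refl => rfl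
      | tail _ h2 ih =>
        obtain ⟨w, w', hw, hw1, hw2⟩ := h2
        have h3 := hinj hw
        subst h3
        rw [hw1] at hw2
        subst hw2
        exact ih hab
    obtain ⟨Φ, h1, h2, h3⟩ := relabel_pm Ob K Wd Pq wod wpd zd hzd Pc Wl Lp wo wp lp z hz f q
      ⟨hinj, hf⟩ ⟨hqi, hq⟩ hwo hwp hx
    refine ⟨Lp, inferInstance, fun l => q (lp l), Φ, h1, h2, h3, ?_⟩
    intro p
    have c1 : Nat.card {w // q (wp w) = p} = Nat.card {w // wpd w = p} := by
      refine Nat.card_congr (Equiv.subtypeEquiv (Equiv.ofBijective f ⟨hinj, hf⟩) ?_)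
      intro w
      show q (wp w) = p ↔ wpd (f w) = p
      rw [hwp]
    have c2 : Nat.card {a // q a = p} = 1 := by
      obtain ⟨a, ha⟩ := hq p
      haveI : Unique {a // q a = p} := ⟨⟨⟨a, ha⟩⟩, fun b => Subtype.ext (hqi (b.2.trans ha.symm))⟩
      exact Nat.card_unique
    rw [c1, c2]
  induction n with
  | zero =>
    intro Pc Wl Lp _ _ _ wo wp lp z hz f q hcard hf hq hwo hwp hx hcon
    haveI : IsEmpty Wl := (Nat.card_eq_zero.1 hcard).resolve_right (fun h => h.not_finite inferInstance)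
    exact base Pc Wl Lp wo wp lp z hz f q (fun a => isEmptyElim a) hf hq hwo hwp hx hcon
  | succ n ih =>
    intro Pc Wl Lp _ _ _ wo wp lp z hz f q hcard hf hq hwo hwp hx hcon
    by_cases hinj : Function.Injective f
    · exact base Pc Wl Lp wo wp lp z hz f q hinj hf hq hwo hwp hx hcon
    have hne' : ∃ e1 e2 : Wl, f e1 = f e2 ∧ e1 ≠ e2 := by
      unfold Function.Injective at hinj
      push_neg at hinj
      exact hinj
    obtain ⟨e1, e2, hfe, hne⟩ := hne'
    have ho : wo e1 = wo e2 := by rw [← hwo, ← hwo, hfe]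
    have hqe : q (wp e1) = q (wp e2) := by rw [← hwp, ← hwp, hfe]
    obtain ⟨x1, hx1, hz1⟩ := hx e1
    obtain ⟨x2, hx2, hz2⟩ := hx e2
    rw [← ho] at hx2
    rw [← hfe] at hz2
    have hy : x1 * x2⁻¹ ∈ K (wo e1) := mul_mem hx1 (inv_mem hx2)
    have hzy : z e1 = x1 * x2⁻¹ * z e2 * (x1 * x2⁻¹)⁻¹ := by
      rw [hz1, hz2]
      group
    have hcard' : Nat.card {w : Wl // w ≠ e2} = n := by
      have h := P08_ne e2 (fun _ : Wl => True)
      rw [if_pos trivial] at h
      have h1 : Nat.card {w : Wl // True} = Nat.card Wl := Nat.card_congr (Equiv.subtypeUnivEquiv (fun _ => trivial))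
      have h2 : Nat.card {w : {w : Wl // w ≠ e2} // True} = Nat.card {w : Wl // w ≠ e2} :=
        Nat.card_congr (Equiv.subtypeUnivEquiv (fun _ => trivial))
      omega
    have hf' : Function.Surjective (fun w : {w : Wl // w ≠ e2} => f w.1) := by
      intro d
      obtain ⟨w, rfl⟩ := hf d
      by_cases hw : w = e2
      · exact ⟨⟨e1, hne⟩, by rw [hw]; exact hfe⟩
      · exact ⟨⟨w, hw⟩, rfl⟩
    -- replace `e2` by `e1`
    have hred : ∀ w : Wl, ∃ w' : {w : Wl // w ≠ e2}, f w'.1 = f w ∧ (w'.1 = w ∨ (w = e2 ∧ w'.1 = e1)) := by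
      intro w
      by_cases hw : w = e2
      · exact ⟨⟨e1, hne⟩, by rw [hw]; exact hfe, Or.inr ⟨hw, rfl⟩⟩
      · exact ⟨⟨w, hw⟩, rfl, Or.inl rfl⟩
    by_cases hp : wp e1 = wp e2
    · obtain ⟨Φ2, h21, h22, h23⟩ := loop_pm Ob K Pc Wl Lp wo wp lp z hz e1 e2 hne ho _ hy hzy hp
      obtain ⟨Lq, hLq, lq, Φ1, h11, h12, h13, h14⟩ := ih Pc {w : Wl // w ≠ e2} (Option Lp)
        (fun w => wo w.1) (fun w => wp w.1) (fun l => l.elim (wp e1) lp) (fun w => z w.1)
        (fun w => hz w.1) (fun w => f w.1) q hcard' hf' hq (fun w => hwo w.1) (fun w => hwp w.1)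
        (fun w => hx w.1) (by
          intro a b hab
          refine Relation.ReflTransGen.mono ?_ a b (hcon a b hab)
          rintro c d ⟨w, w', hw, rfl, rfl⟩
          obtain ⟨v, hv1, hv2⟩ := hred w
          obtain ⟨v', hv1', hv2'⟩ := hred w'
          refine ⟨v, v', by rw [hv1, hv1', hw], ?_, ?_⟩
          · rcases hv2 with h | ⟨h, h'⟩
            · rw [h]
            · rw [h, h', hp]
          · rcases hv2' with h | ⟨h, h'⟩
            · rw [h]
            · rw [h, h', hp])
      refine ⟨Lq, hLq, lq, fun H _ S => Φ2 H (Φ1 H S), pm_comp h11 h21, ?_, ?_, ?_⟩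
      · intro H _ S o
        rw [h22, h12]
      · intro H _ S p
        rw [h23, h13]
      · intro p
        rw [h14 p, P08_ne e2 (fun w => q (wp w) = p), P08_opt (fun l : Option Lp => q (l.elim (wp e1) lp) = p)]
        have e3 : (if q (wp e2) = p then 1 else 0) = (if q ((none : Option Lp).elim (wp e1) lp) = p then 1 else 0) := by
          show (if q (wp e2) = p then 1 else 0) = (if q (wp e1) = p then 1 else 0)
          rw [hqe]
        have e4 : Nat.card {l : Lp // q ((some l).elim (wp e1) lp) = p} = Nat.card {l : Lp // q (lp l) = p} := rfl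
        rw [e3, e4]
        omega
    · have hm : ∃ m : Pc → {p : Pc // p ≠ wp e2}, m (wp e2) = ⟨wp e1, hp⟩ ∧
          ∀ (p : Pc) (h : p ≠ wp e2), m p = ⟨p, h⟩ := by
        refine ⟨fun p => if h : p = wp e2 then ⟨wp e1, hp⟩ else ⟨p, h⟩, ?_, ?_⟩
        · simp
        · intro p h
          simp [h]
      obtain ⟨m, hm1, hm2⟩ := hm
      have hqm : ∀ p, q (m p).1 = q p := by
        intro p
        by_cases h : p = wp e2
        · rw [h, hm1]
          exact hqe
        · rw [hm2 p h]
      obtain ⟨Φ2, h21, h22, h23⟩ := merge_pm Ob K Pc Wl Lp wo wp lp z hz e1 e2 hne ho _ hy hzy hp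
        m hm1 hm2
      obtain ⟨Lq, hLq, lq, Φ1, h11, h12, h13, h14⟩ := ih {p : Pc // p ≠ wp e2} {w : Wl // w ≠ e2} Lp
        (fun w => wo w.1) (fun w => m (wp w.1)) (fun l => m (lp l)) (fun w => z w.1)
        (fun w => hz w.1) (fun w => f w.1) (fun p => q p.1) hcard' hf' (by
          intro p
          obtain ⟨a, rfl⟩ := hq p
          exact ⟨m a, hqm a⟩) (fun w => hwo w.1)
        (fun w => by
          show wpd (f w.1) = q (m (wp w.1)).1
          rw [hqm]
          exact hwp w.1)
        (fun w => hx w.1) (by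
          intro a b hab
          have h := Relation.ReflTransGen.lift m (p := fun a b => ∃ w w' : {w : Wl // w ≠ e2},
            f w.1 = f w'.1 ∧ m (wp w.1) = a ∧ m (wp w'.1) = b) ?_ a.1 b.1 (hcon a.1 b.1 hab)
          · have h' : Relation.ReflTransGen (fun a b => ∃ w w' : {w : Wl // w ≠ e2},
                f w.1 = f w'.1 ∧ m (wp w.1) = a ∧ m (wp w'.1) = b) (m a.1) (m b.1) := h
            rw [hm2 a.1 a.2, hm2 b.1 b.2] at h'
            exact h'
          · rintro c d ⟨w, w', hw, rfl, rfl⟩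
            obtain ⟨v, hv1, hv2⟩ := hred w
            obtain ⟨v', hv1', hv2'⟩ := hred w'
            have hme : m (wp e1) = m (wp e2) := by
              rw [hm1, hm2 _ hp]
            refine ⟨v, v', by rw [hv1, hv1', hw], ?_, ?_⟩
            · rcases hv2 with h | ⟨h, h'⟩
              · rw [h]
              · rw [h, h', hme]
            · rcases hv2' with h | ⟨h, h'⟩
              · rw [h]
              · rw [h, h', hme])
      refine ⟨Lq, hLq, lq, fun H _ S => Φ2 H (Φ1 H S), pm_comp h11 h21, ?_, ?_, ?_⟩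
      · intro H _ S o
        rw [h22, h12]
      · intro H _ S p
        rw [h23, h13, hqm]
      · intro p
        have h := h14 p
        simp only [hqm] at h
        rw [P08_ne e2 (fun w => q (wp w) = p), P08_ne (wp e2) (fun a => q a = p)]
        omega

end

end RaagBP
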