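import Pool.Agent.Lib.MP_32d917_al_bl.P04

/-!
# P09 (50 min): objects with one wall and a free abelian group of rank two become loops

`Lo` are the objects which are removed: `el l` has exactly one wall `lw l`, and `K (el l)` has the universal property of the free abelian group with basis `z (lw l)`, `τ l`.
`(Φ S).b o = S.b (eo o)`, `(Φ S).z = S.z`, `(Φ S).t w = S.t (ew w)` (`ht`: `b_cast` and `hwo`), `(Φ S).u (inl l) = S.u l`, `(Φ S).u (inr l) = t * b τ * t⁻¹` with `t = S.t (lw l)`, `b = S.b (el l)`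
(`hu`: `z = t b(z) t⁻¹` and `z`, `τ` commute).
`r`: gauges `h ∘ eo`, `g`. `nat`: gauges `1`.
`inj`: let `Φ S ~ Φ S'` with gauges `h : Ob' → H`, `g`. Every `o : D.Ob` is `eo o'` for a unique `o'`, or `el l` for a unique `l`; extend `h` by `h (el l) = (S'.t (lw l))⁻¹ * g (wp (lw l)) * S.t (lw l)`. For `o = el l`
the homomorphisms `S'.b o` and `h * S.b o * h⁻¹` agree on `z` and on `τ` (from the equations for `z` and `u (inr l)`), so they are equal (`hba`). The equation for `t (lw l)` holds by the choice of `h`; for other walls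
`wo w` is not in the range of `el` so `w = ew w'`.
`surj`: given `S'`, define `S.b (el l)` = the homomorphism with `z ↦ S'.z (wp (lw l))`, `τ ↦ S'.u (inr l)` (`hba`), `S.t (lw l) = 1`, the rest from `S'`; then `Φ S = S'` (gauges `1`). To define a function on `D.Ob`, `D.Wl` by cases use
`classical` and the choice of preimages, and prove the equations with `subst`/`b_cast`.
-/

set_option autoImplicit false

namespace RaagBP

open RaagIso

section

variable {A : Type} [Group A]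

theorem absorb_pm (D : CD A) (Ob' Wl' Lo : Type) (eo : Ob' → D.Ob) (ew : Wl' → D.Wl)
    (el : Lo → D.Ob) (lw : Lo → D.Wl) (wo' : Wl' → Ob') (heo : Function.Injective eo)
    (hew : Function.Injective ew) (hel : Function.Injective el)
    (hran : ∀ o, (∃ o', eo o' = o) ∨ ∃ l, el l = o) (hdis : ∀ o' l, eo o' ≠ el l)
    (hwo : ∀ w, eo (wo' w) = D.wo (ew w)) (hwr : ∀ w o', D.wo w = eo o' → ∃ w', ew w' = w)
    (hlw : ∀ l, D.wo (lw l) = el l) (hlu : ∀ w l, D.wo w = el l → w = lw l)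
    (hz' : ∀ w, D.z (ew w) ∈ D.K (eo (wo' w)))
    (τ : Lo → A) (hτ : ∀ l, τ l ∈ D.K (el l)) (hz1 : ∀ l, D.z (lw l) ∈ D.K (el l))
    (hcm : ∀ l, D.z (lw l) * τ l = τ l * D.z (lw l))
    (hba : ∀ (l : Lo) (H : Type) [Group H] (a b : H), a * b = b * a →
      ∃! φ : D.K (el l) →* H, φ ⟨D.z (lw l), hz1 l⟩ = a ∧ φ ⟨τ l, hτ l⟩ = b) :
    ∃ Φ : ∀ (H : Type) [Group H], Sy D H →
      Sy (⟨Ob', D.Pc, Wl', D.Lp ⊕ Lo, fun o => D.K (eo o), wo', fun w => D.wp (ew w),
        Sum.elim D.lp (fun l => D.wp (lw l)), fun w => D.z (ew w), hz'⟩ : CD A) H,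
      PM (SyF D)
        (SyF ⟨Ob', D.Pc, Wl', D.Lp ⊕ Lo, fun o => D.K (eo o), wo', fun w => D.wp (ew w),
          Sum.elim D.lp (fun l => D.wp (lw l)), fun w => D.z (ew w), hz'⟩) Φ ∧
      (∀ (H : Type) [Group H] S o, (Φ H S).b o = S.b (eo o)) ∧
      ∀ (H : Type) [Group H] S p, (Φ H S).z p = S.z p := by
  classical
  -- every wall is of one of the two kinds
  have hwl : ∀ w, (∃ w', ew w' = w) ∨ ∃ l, w = lw l := by
    intro w
    rcases hran (D.wo w) with ⟨o', ho'⟩ | ⟨l, hl⟩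
    · exact Or.inl (hwr w o' ho'.symm)
    · exact Or.inr ⟨l, hlu w l hl.symm⟩
  have hlwi : Function.Injective lw := by
    intro a b hab
    apply hel
    rw [← hlw, ← hlw, hab]
  have hewlw : ∀ w l, ew w ≠ lw l := by
    intro w l h
    have h1 := hwo w
    rw [h, hlw] at h1
    exact hdis _ _ h1
  -- the relation at the wall of a removed object
  have hrel : ∀ (H : Type) [Group H] (S : Sy D H) (l : Lo),
      S.t (lw l) * S.b (el l) ⟨D.z (lw l), hz1 l⟩ = S.z (D.wp (lw l)) * S.t (lw l) := by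
    intro H _ S l
    have h := S.ht (lw l)
    rwa [b_cast S (hlw l) rfl (D.hz (lw l)) (hz1 l)] at h
  have hcmb : ∀ (H : Type) [Group H] (S : Sy D H) (l : Lo),
      S.b (el l) ⟨D.z (lw l), hz1 l⟩ * S.b (el l) ⟨τ l, hτ l⟩ =
        S.b (el l) ⟨τ l, hτ l⟩ * S.b (el l) ⟨D.z (lw l), hz1 l⟩ := by
    intro H _ S l
    rw [← map_mul, ← map_mul]
    congr 1
    exact Subtype.ext (hcm l)
  let Φ : ∀ (H : Type) [Group H], Sy D H →
      Sy (⟨Ob', D.Pc, Wl', D.Lp ⊕ Lo, fun o => D.K (eo o), wo', fun w => D.wp (ew w),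
        Sum.elim D.lp (fun l => D.wp (lw l)), fun w => D.z (ew w), hz'⟩ : CD A) H := fun H _ S =>
    { b := fun o => S.b (eo o)
      z := S.z
      t := fun w => S.t (ew w)
      u := Sum.elim S.u (fun l => S.t (lw l) * S.b (el l) ⟨τ l, hτ l⟩ * (S.t (lw l))⁻¹)
      ht := by
        intro w
        show S.t (ew w) * S.b (eo (wo' w)) ⟨D.z (ew w), hz' w⟩ = S.z (D.wp (ew w)) * S.t (ew w)
        rw [b_cast S (hwo w) rfl (hz' w) (D.hz (ew w))]
        exact S.ht (ew w)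
      hu := by
        rintro (l | l)
        · exact S.hu l
        · show S.t (lw l) * S.b (el l) ⟨τ l, hτ l⟩ * (S.t (lw l))⁻¹ * S.z (D.wp (lw l)) =
            S.z (D.wp (lw l)) * (S.t (lw l) * S.b (el l) ⟨τ l, hτ l⟩ * (S.t (lw l))⁻¹)
          have h1 : S.z (D.wp (lw l)) = S.t (lw l) * S.b (el l) ⟨D.z (lw l), hz1 l⟩ * (S.t (lw l))⁻¹ := by
            rw [hrel H S l]; group
          rw [h1]
          have h2 := hcmb H S l
          calc S.t (lw l) * S.b (el l) ⟨τ l, hτ l⟩ * (S.t (lw l))⁻¹ *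
                (S.t (lw l) * S.b (el l) ⟨D.z (lw l), hz1 l⟩ * (S.t (lw l))⁻¹)
              = S.t (lw l) * (S.b (el l) ⟨τ l, hτ l⟩ * S.b (el l) ⟨D.z (lw l), hz1 l⟩) *
                (S.t (lw l))⁻¹ := by group
            _ = S.t (lw l) * (S.b (el l) ⟨D.z (lw l), hz1 l⟩ * S.b (el l) ⟨τ l, hτ l⟩) *
                (S.t (lw l))⁻¹ := by rw [h2]
            _ = _ := by group }
  refine ⟨Φ, ⟨?_, ?_, ?_, ?_⟩, fun H _ S o => rfl, fun H _ S p => rfl⟩
  · -- relations
    rintro H _ S S' ⟨h, g, h1, h2, h3, h4⟩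
    refine ⟨fun o => h (eo o), g, fun o x => h1 _ x, h2, ?_, ?_⟩
    · intro w
      show S'.t (ew w) = g (D.wp (ew w)) * S.t (ew w) * (h (eo (wo' w)))⁻¹
      rw [hwo w]
      exact h3 (ew w)
    · rintro (l | l)
      · exact h4 l
      · show S'.t (lw l) * S'.b (el l) ⟨τ l, hτ l⟩ * (S'.t (lw l))⁻¹ =
          g (D.wp (lw l)) * (S.t (lw l) * S.b (el l) ⟨τ l, hτ l⟩ * (S.t (lw l))⁻¹) *
            (g (D.wp (lw l)))⁻¹
        rw [h1, h3, hlw]
        group
  · -- naturality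
    intro H K _ _ F S
    refine ⟨fun _ => 1, fun _ => 1, ?_, ?_, ?_, ?_⟩
    · intro o x
      show F (S.b (eo o) x) = 1 * F (S.b (eo o) x) * 1⁻¹
      simp
    · intro p
      show F (S.z p) = 1 * F (S.z p) * 1⁻¹
      simp
    · intro w
      show F (S.t (ew w)) = 1 * F (S.t (ew w)) * 1⁻¹
      simp
    · rintro (l | l)
      · show F (S.u l) = 1 * F (S.u l) * 1⁻¹
        simp
      · show F (S.t (lw l) * S.b (el l) ⟨τ l, hτ l⟩ * (S.t (lw l))⁻¹) =
          1 * (F (S.t (lw l)) * F (S.b (el l) ⟨τ l, hτ l⟩) * (F (S.t (lw l)))⁻¹) * 1⁻¹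
        simp
  · -- surjectivity
    intro H _ S'
    have hb : ∀ o, ∃ φ : D.K o →* H,
        (∀ o', eo o' = o → ∀ x (hx : x ∈ D.K o) (hx' : x ∈ D.K (eo o')),
          φ ⟨x, hx⟩ = S'.b o' ⟨x, hx'⟩) ∧
        ∀ l, el l = o → (∀ hx : D.z (lw l) ∈ D.K o, φ ⟨D.z (lw l), hx⟩ = S'.z (D.wp (lw l))) ∧
          ∀ hx : τ l ∈ D.K o, φ ⟨τ l, hx⟩ = S'.u (Sum.inr l) := by
      intro o
      rcases hran o with ⟨o', rfl⟩ | ⟨l, rfl⟩
      · refine ⟨S'.b o', ?_, ?_⟩
        · intro o'' h x hx hx'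
          have := heo h
          subst this
          rfl
        · intro l h
          exact absurd h.symm (hdis o' l)
      · obtain ⟨φ, ⟨hφ1, hφ2⟩, -⟩ := hba l H (S'.z (D.wp (lw l))) (S'.u (Sum.inr l))
          (S'.hu (Sum.inr l)).symm
        refine ⟨φ, ?_, ?_⟩
        · intro o' h
          exact absurd h (hdis o' l)
        · intro l' h
          have := hel h
          subst this
          exact ⟨fun _ => hφ1, fun _ => hφ2⟩
    have ht : ∀ w, ∃ t : H, (∀ w', ew w' = w → t = S'.t w') ∧ ∀ l, lw l = w → t = 1 := by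
      intro w
      rcases hwl w with ⟨w', rfl⟩ | ⟨l, rfl⟩
      · refine ⟨S'.t w', ?_, ?_⟩
        · intro w'' h
          rw [hew h]
        · intro l h
          exact absurd h.symm (hewlw w' l)
      · refine ⟨1, ?_, fun _ _ => rfl⟩
        intro w' h
        exact absurd h (hewlw w' l)
    choose b hb1 hb2 using hb
    choose t ht1 ht2 using ht
    refine ⟨⟨b, S'.z, t, fun l => S'.u (Sum.inl l), ?_, fun l => S'.hu (Sum.inl l)⟩,
      fun _ => 1, fun _ => 1, ?_, ?_, ?_, ?_⟩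
    · intro w
      rcases hwl w with ⟨w', rfl⟩ | ⟨l, rfl⟩
      · rw [ht1 _ w' rfl, hb1 (D.wo (ew w')) (wo' w') (hwo w') _ (D.hz (ew w')) (hz' w')]
        exact S'.ht w'
      · rw [ht2 _ l rfl, (hb2 (D.wo (lw l)) l (hlw l).symm).1 (D.hz (lw l)), one_mul, mul_one]
    · intro o x
      show S'.b o x = 1 * b (eo o) x * 1⁻¹
      rw [hb1 (eo o) o rfl x.1 x.2 x.2]
      simp
    · intro p
      show S'.z p = 1 * S'.z p * 1⁻¹
      simp
    · intro w
      show S'.t w = 1 * t (ew w) * 1⁻¹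
      rw [ht1 (ew w) w rfl]
      simp
    · rintro (l | l)
      · show S'.u (Sum.inl l) = 1 * S'.u (Sum.inl l) * 1⁻¹
        simp
      · show S'.u (Sum.inr l) = 1 * (t (lw l) * b (el l) ⟨τ l, hτ l⟩ * (t (lw l))⁻¹) * 1⁻¹
        rw [ht2 _ l rfl, (hb2 (el l) l rfl).2 (hτ l)]
        simp
  · -- injectivity
    rintro H _ S S' ⟨h, g, h1, h2, h3, h4⟩
    have hk : ∀ o, ∃ k : H, (∀ o', eo o' = o → k = h o') ∧
        ∀ l, el l = o → k = (S'.t (lw l))⁻¹ * g (D.wp (lw l)) * S.t (lw l) := by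
      intro o
      rcases hran o with ⟨o', rfl⟩ | ⟨l, rfl⟩
      · refine ⟨h o', ?_, ?_⟩
        · intro o'' e
          rw [heo e]
        · intro l e
          exact absurd e.symm (hdis o' l)
      · refine ⟨(S'.t (lw l))⁻¹ * g (D.wp (lw l)) * S.t (lw l), ?_, ?_⟩
        · intro o' e
          exact absurd e (hdis o' l)
        · intro l' e
          rw [hel e]
    choose k hk1 hk2 using hk
    have hz2 : ∀ p, S'.z p = g p * S.z p * (g p)⁻¹ := h2
    refine ⟨k, g, ?_, h2, ?_, fun l => h4 (Sum.inl l)⟩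
    · intro o x
      rcases hran o with ⟨o', rfl⟩ | ⟨l, rfl⟩
      · rw [hk1 _ o' rfl]
        exact h1 o' x
      · set φ : D.K (el l) →* H := (MulAut.conj (k (el l))).toMonoidHom.comp (S.b (el l)) with hφ
        have hφv : ∀ y, φ y = k (el l) * S.b (el l) y * (k (el l))⁻¹ := by
          intro y
          rw [hφ]
          rfl
        obtain ⟨ψ, -, huq⟩ := hba l H (S'.b (el l) ⟨D.z (lw l), hz1 l⟩) (S'.b (el l) ⟨τ l, hτ l⟩)
          (hcmb H S' l)
        have e1 : S'.b (el l) = ψ := huq _ ⟨rfl, rfl⟩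
        have e2 : φ = ψ := by
          refine huq _ ⟨?_, ?_⟩
          · have r1 : S.b (el l) ⟨D.z (lw l), hz1 l⟩ = (S.t (lw l))⁻¹ * S.z (D.wp (lw l)) * S.t (lw l) := by
              rw [mul_assoc, ← hrel H S l]; group
            have r2 : S'.b (el l) ⟨D.z (lw l), hz1 l⟩ = (S'.t (lw l))⁻¹ * S'.z (D.wp (lw l)) * S'.t (lw l) := by
              rw [mul_assoc, ← hrel H S' l]; group
            rw [hφv, r1, r2, hz2, hk2 _ l rfl]
            group
          · have r3 : S'.t (lw l) * S'.b (el l) ⟨τ l, hτ l⟩ * (S'.t (lw l))⁻¹ =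
                g (D.wp (lw l)) * (S.t (lw l) * S.b (el l) ⟨τ l, hτ l⟩ * (S.t (lw l))⁻¹) *
                  (g (D.wp (lw l)))⁻¹ := h4 (Sum.inr l)
            have r4 : S'.b (el l) ⟨τ l, hτ l⟩ = (S'.t (lw l))⁻¹ * (S'.t (lw l) *
                S'.b (el l) ⟨τ l, hτ l⟩ * (S'.t (lw l))⁻¹) * S'.t (lw l) := by group
            rw [hφv, r4, r3, hk2 _ l rfl]
            group
        rw [e1, ← e2, hφv]
    · intro w
      rcases hwl w with ⟨w', rfl⟩ | ⟨l, rfl⟩
      · rw [hk1 _ (wo' w') (hwo w')]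
        exact h3 w'
      · rw [hk2 _ l (hlw l).symm]
        group

end

end RaagBP
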