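import Pool.Agent.Lib.MP_32d917_al_bl.P02

/-!
# P10 (50 min): the systems of cocycles: injectivity

`toSy D S` has `b o g = S.k c g` (`c = o.1.2`), `z (v,c) = S.k c (v^per)`, `t (i,v,c) = S.k c (cn (PP (D i)) c)⁻¹`.
`toSy_r`: let `S'.k c g = η c * S.k c g * (η (rm c g))⁻¹`. Gauges `h o = η o.1.2`, `g p = η p.1.2` (for `b`: `rm c g = c`; for `z`: `per_mem`; for `t`: `cn_inv`).
`toSy_nat`: the fields are equal, gauges `1`.
`toSy_inj`: let `h`, `g` be gauges from `toSy D S` to `toSy D S'`. Write `κ`, `κ'` for `S.k`, `S'.k`; `Y_i c = cn ρ (PP Λ (D i)) c`, `r_i c = rep ρ (PP Λ (D i)) c`. Put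
`η_i c = κ' c (Y_i c)⁻¹ * h (i, r_i c) * (κ c (Y_i c)⁻¹)⁻¹`.
1. For `g ∈ PP (D i)`: `κ' c g = η_i c * κ c g * (η_i (rm c g))⁻¹`. Put `d = rm c g` (`r_i d = r_i c` by `rep_rm`), `k = Y_i c * g * (Y_i d)⁻¹` `∈ K (i, r_i c)`;
   `g = (Y_i c)⁻¹ * k * Y_i d`, so `κ c g = κ c (Y_i c)⁻¹ * κ (r_i c) k * κ (r_i c) (Y_i d)` and `κ d (Y_i d)⁻¹ = (κ (r_i c) (Y_i d))⁻¹`; the same for `κ'`, and `κ' (r_i c) k = h * κ (r_i c) k * h⁻¹`.
2. For a cut letter `v ∈ D i` and `c` with `rep (PP {v}) c = c`: `η_i c = g (v, c)` (equation for `t (i, v, c)`).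
3. For `v ∈ D i`, `v ∈ D j`, `i ≠ j`: `η_i = η_j`: let `c1 = rep (PP {v}) c`, `x ∈ PP {v}`, `rm c1 x = c`; by 1 for `x` and by 2 for `c1`.
4. `η_i = η_j` for all `i`, `j`: by induction on `i` (`I` is a finite linear order), `top` gives `j < i` with `tp i ∈ D i`, `tp i ∈ D j`, use 3.
5. `η = η_{i0}`; compare with `cc_ext` the cocycles `κ'` and
   `c g ↦ η c * κ c g * (η (rm c g))⁻¹`.
-/

set_option autoImplicit false

namespace RaagBP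

open RaagIso

section

variable {W C I : Type} {Λ : SimpleGraph W} [Finite C]

omit [Finite C] in
private theorem p10_dec {ρ : RA Λ →* Equiv.Perm C} {H : Type} [Group H] (S : ZC ρ H)
    (E : Subgroup (RA Λ)) (c : C) (g : RA Λ) :
    S.k c g = S.k c (cn ρ E c)⁻¹ *
      S.k (rep ρ E c) (cn ρ E c * g * (cn ρ E (rm ρ c g))⁻¹) *
        (S.k (rm ρ c g) (cn ρ E (rm ρ c g))⁻¹)⁻¹ := by
  rw [← cn_inv ρ E c, ← S.hk, show (cn ρ E c)⁻¹ * (cn ρ E c * g * (cn ρ E (rm ρ c g))⁻¹) =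
    g * (cn ρ E (rm ρ c g))⁻¹ by group, S.hk, mul_inv_cancel_right]

omit [Finite C] in
private theorem p10_mem {ρ : RA Λ →* Equiv.Perm C} {E : Set W} {c : C} {g : RA Λ}
    (hg : g ∈ PP Λ E) :
    cn ρ (PP Λ E) c * g * (cn ρ (PP Λ E) (rm ρ c g))⁻¹ ∈ stb ρ (rep ρ (PP Λ E) c) ⊓ PP Λ E := by
  refine Subgroup.mem_inf.2 ⟨?_, mul_mem (mul_mem (cn_mem _ _ _) hg) (inv_mem (cn_mem _ _ _))⟩
  show rm ρ _ _ = _
  rw [rm_mul, rm_mul, cn_rm, cn_inv, rep_rm hg]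

theorem toSy_r {ρ : RA Λ →* Equiv.Perm C} (D : I → Set W) {H : Type} [Group H] {S S' : ZC ρ H}
    (h : (ZF ρ).R S S') : Sy.Ge (toSy D S) (toSy D S') := by
  obtain ⟨η, hη⟩ := h
  refine ⟨fun o => η o.1.2, fun p => η p.1.2, fun o x => ?_, fun p => ?_, fun w => ?_,
    fun l => l.elim⟩
  · show S'.k o.1.2 x.1 = η o.1.2 * S.k o.1.2 x.1 * (η o.1.2)⁻¹
    have h : rm ρ o.1.2 x.1 = o.1.2 := x.2.1
    rw [hη, h]
  · show S'.k p.1.2 (gen p.1.1 ^ per ρ p.1.1 p.1.2) =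
      η p.1.2 * S.k p.1.2 (gen p.1.1 ^ per ρ p.1.1 p.1.2) * (η p.1.2)⁻¹
    rw [hη, (per_mem ρ p.1.1 p.1.2).2]
  · show S'.k w.1.2.2 (cn ρ (PP Λ (D w.1.1)) w.1.2.2)⁻¹ =
      η w.1.2.2 * S.k w.1.2.2 (cn ρ (PP Λ (D w.1.1)) w.1.2.2)⁻¹ *
        (η (rep ρ (PP Λ (D w.1.1)) w.1.2.2))⁻¹
    rw [hη, cn_inv]

theorem toSy_nat {ρ : RA Λ →* Equiv.Perm C} (D : I → Set W) {H K : Type} [Group H] [Group K]
    (F : H →* K) (S : ZC ρ H) : Sy.Ge (toSy D ((ZF ρ).psh F S)) (Sy.push F (toSy D S)) := by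
  refine ⟨fun _ => 1, fun _ => 1, fun o x => ?_, fun p => ?_, fun w => ?_, fun l => l.elim⟩
  · show F (S.k o.1.2 x.1) = 1 * F (S.k o.1.2 x.1) * 1⁻¹
    rw [one_mul, inv_one, mul_one]
  · show F (S.k p.1.2 (gen p.1.1 ^ per ρ p.1.1 p.1.2)) =
      1 * F (S.k p.1.2 (gen p.1.1 ^ per ρ p.1.1 p.1.2)) * 1⁻¹
    rw [one_mul, inv_one, mul_one]
  · show F (S.k w.1.2.2 (cn ρ (PP Λ (D w.1.1)) w.1.2.2)⁻¹) =
      1 * F (S.k w.1.2.2 (cn ρ (PP Λ (D w.1.1)) w.1.2.2)⁻¹) * 1⁻¹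
    rw [one_mul, inv_one, mul_one]

theorem toSy_inj [LinearOrder I] [Finite I] [Nonempty I] {ρ : RA Λ →* Equiv.Perm C}
    {D : I → Set W} {tp : I → W} (hD : BS Λ D tp) {H : Type} [Group H] {S S' : ZC ρ H}
    (h : Sy.Ge (toSy D S) (toSy D S')) : (ZF ρ).R S S' := by
  obtain ⟨h, g, hb, -, ht, -⟩ := h
  let o : I → C → (cdB ρ D).Ob := fun i c => ⟨(i, rep ρ (PP Λ (D i)) c), rep_rep ρ _ _⟩
  let η : I → C → H := fun i c => S'.k c (cn ρ (PP Λ (D i)) c)⁻¹ * h (o i c) *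
    (S.k c (cn ρ (PP Λ (D i)) c)⁻¹)⁻¹
  have hη : ∀ i c, η i c = S'.k c (cn ρ (PP Λ (D i)) c)⁻¹ * h (o i c) *
    (S.k c (cn ρ (PP Λ (D i)) c)⁻¹)⁻¹ := fun i c => rfl
  -- 1
  have h1 : ∀ i c (x : RA Λ), x ∈ PP Λ (D i) →
      S'.k c x = η i c * S.k c x * (η i (rm ρ c x))⁻¹ := by
    intro i c x hx
    have ho : o i (rm ρ c x) = o i c := by
      apply Subtype.ext
      show (i, rep ρ (PP Λ (D i)) (rm ρ c x)) = (i, rep ρ (PP Λ (D i)) c)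
      rw [rep_rm hx]
    have hk : S'.k (rep ρ (PP Λ (D i)) c) (cn ρ (PP Λ (D i)) c * x *
        (cn ρ (PP Λ (D i)) (rm ρ c x))⁻¹) = h (o i c) * S.k (rep ρ (PP Λ (D i)) c)
        (cn ρ (PP Λ (D i)) c * x * (cn ρ (PP Λ (D i)) (rm ρ c x))⁻¹) * (h (o i c))⁻¹ :=
      hb (o i c) ⟨_, p10_mem hx⟩
    rw [p10_dec S' (PP Λ (D i)) c x, p10_dec S (PP Λ (D i)) c x, hη, hη, ho, hk]
    group
  -- 2
  have h2 : ∀ i v (c : C) (_ : v ∈ D i) (hv : Ct D v) (hc : rep ρ (PP Λ {v}) c = c),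
      η i c = g ⟨(v, c), hv, hc⟩ := by
    intro i v c hi hv hc
    have h3 : S'.k c (cn ρ (PP Λ (D i)) c)⁻¹ = g ⟨(v, c), hv, hc⟩ *
        S.k c (cn ρ (PP Λ (D i)) c)⁻¹ * (h (o i c))⁻¹ :=
      ht ⟨(i, v, c), hi, hv, hc⟩
    rw [hη, h3]
    group
  -- 3
  have h3 : ∀ i j v, i ≠ j → v ∈ D i → v ∈ D j → ∀ c, η i c = η j c := by
    intro i j v hij hi hj c
    have hv : Ct D v := ⟨i, j, hij, hi, hj⟩
    obtain ⟨x, hx, hxc⟩ := rep_orb ρ (PP Λ {v}) c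
    have hr : rep ρ (PP Λ {v}) (rep ρ (PP Λ {v}) c) = rep ρ (PP Λ {v}) c := rep_rep ρ _ _
    have e1 := h1 i (rep ρ (PP Λ {v}) c) x (pp_mono (Set.singleton_subset_iff.2 hi) hx)
    have e2 := h1 j (rep ρ (PP Λ {v}) c) x (pp_mono (Set.singleton_subset_iff.2 hj) hx)
    rw [h2 i v _ hi hv hr, hxc] at e1
    rw [h2 j v _ hj hv hr, hxc] at e2
    rw [e1] at e2
    exact inv_injective (mul_left_cancel e2)
  -- 4
  have h4 : ∀ i j, j < i → ∀ c, η i c = η j c := by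
    intro i
    induction i using WellFoundedLT.induction with
    | _ i IH =>
      intro j hj c
      obtain ⟨hti, j', hj', htj⟩ := hD.top i j hj
      rw [h3 i j' (tp i) hj'.ne' hti htj c]
      rcases lt_trichotomy j' j with h | h | h
      · exact (IH j hj j' h c).symm
      · rw [h]
      · exact IH j' hj' j h c
  obtain ⟨i0⟩ := (inferInstance : Nonempty I)
  have h5 : ∀ i c, η i c = η i0 c := by
    intro i c
    rcases lt_trichotomy i i0 with h | h | h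
    · exact (h4 i0 i h c).symm
    · rw [h]
    · exact h4 i i0 h c
  refine ⟨η i0, fun c x => ?_⟩
  refine cc_ext (κ := S'.k) (κ' := fun c x => η i0 c * S.k c x * (η i0 (rm ρ c x))⁻¹) S'.hk ?_ ?_ c x
  · intro c x y
    show η i0 c * S.k c (x * y) * (η i0 (rm ρ c (x * y)))⁻¹ =
      η i0 c * S.k c x * (η i0 (rm ρ c x))⁻¹ *
        (η i0 (rm ρ c x) * S.k (rm ρ c x) y * (η i0 (rm ρ (rm ρ c x) y))⁻¹)
    rw [S.hk, rm_mul]
    group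
  · intro c a
    obtain ⟨i, hi⟩ := hD.cov a
    show S'.k c (gen a) = η i0 c * S.k c (gen a) * (η i0 (rm ρ c (gen a)))⁻¹
    rw [h1 i c (gen a) (gen_mem hi), h5 i c, h5 i (rm ρ c (gen a))]

end

end RaagBP
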