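import Pool.Agent.Lib.MP_32d917_al_bl.P02

/-!
# P11 (60 min): gluing cocycles of blocks

`θ i` is a cocycle of the standard subgroup of `D i` (values outside are irrelevant); `par i < i` is a block which contains `tp i`.
1. `η : I → C → H` with `η i c * ξ i c = η (par i) c` for all `i` which are not minimal: well founded recursion on `I` (`WellFounded.fix` or `WellFoundedLT.fix`, finite linear order;
   `η i = fun c => η (par i) c * (ξ i c)⁻¹`, and `1` for the minimum). Perhaps easier: by induction on `n`, for every `i` with at most `n` predecessors.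
2. `θ' i c g = η i c * θ i c g * (η i (rm c g))⁻¹`; it is a cocycle on `PP (D i)`, and `θ' i c (gen v) = θ' (par i) c (gen v)` for `v = tp i` (`hξ`, `η`).
3. If `a ∈ D i`, `a ∈ D j` then `θ' i c (gen a) = θ' j c (gen a)` for all `c`: induction on `max i j` (strong induction, `∀ n, ∀ i ≤ n, ∀ j ≤ n`); for `j < i`: `a = tp i` (`one`), so `θ' i c (gen a) = θ' (par i) c (gen a)`,
   and `par i`, `j < i` both contain `a`.
4. `x c a = θ' (home a) c (gen a)` where `home a` is a block containing `a` (`cov`). `Coc ρ x`: if `a`, `b` are adjacent they lie in a common `D i` (`adj`), `x c a = θ' i c (gen a)` etc. by 3, and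
   `gen a * gen b = gen b * gen a` (`gen_comm`) with the cocycle relation of `θ' i`. `exists_cc` gives `κ`.
5. `κ c g = θ' i c g` for `g ∈ PP (D i)`: the set of such `g ∈ PP (D i)` (for all `c`) contains the generators (3) and is closed under products and inverses: `Subgroup.closure_induction` (`PP` is the closure of the
   generators, see `pp_comm` in `MP_32d917_al_raag/W01.lean`). `θ' i c 1 = 1` as in `cc_one`.
-/

set_option autoImplicit false

namespace RaagBP

open RaagIso

section

variable {W C I : Type} {Λ : SimpleGraph W}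

private theorem p11_agree [LinearOrder I] [Finite I]
    {D : I → Set W} {tp : I → W} (hD : BS Λ D tp) {H : Type} (f : I → C → RA Λ → H)
    (par : I → I) (hpar : ∀ i, (∃ j, j < i) → par i < i ∧ tp i ∈ D (par i))
    (hf : ∀ i, (∃ j, j < i) → ∀ c, f i c (gen (tp i)) = f (par i) c (gen (tp i))) :
    ∀ m i j : I, i ≤ m → j ≤ m → ∀ (a : W) (c : C), a ∈ D i → a ∈ D j →
      f i c (gen a) = f j c (gen a) := by
  intro m
  induction m using WellFoundedLT.induction with
  | ind m ih =>
    have h1 : ∀ i j : I, j < i → i ≤ m → ∀ (a : W) (c : C), a ∈ D i → a ∈ D j →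
        f i c (gen a) = f j c (gen a) := by
      intro i j hji him a c hai haj
      have ha : a = tp i := hD.one i j a hai haj hji
      obtain ⟨h2, h3⟩ := hpar i ⟨j, hji⟩
      rw [ha, hf i ⟨j, hji⟩ c]
      rw [ha] at haj
      exact ih (max (par i) j) (lt_of_lt_of_le (max_lt h2 hji) him) (par i) j (le_max_left _ _)
        (le_max_right _ _) (tp i) c h3 haj
    intro i j him hjm a c hai haj
    rcases lt_trichotomy i j with h | h | h
    · exact (h1 j i h hjm a c haj hai).symm
    · rw [h]
    · exact h1 i j h him a c hai haj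

theorem lemU [LinearOrder I] [Finite I] (ρ : RA Λ →* Equiv.Perm C)
    {D : I → Set W} {tp : I → W} (hD : BS Λ D tp) {H : Type} [Group H] (θ : I → C → RA Λ → H)
    (hθ : ∀ i c, ∀ g ∈ PP Λ (D i), ∀ g' ∈ PP Λ (D i),
      θ i c (g * g') = θ i c g * θ i (rm ρ c g) g')
    (par : I → I) (hpar : ∀ i, (∃ j, j < i) → par i < i ∧ tp i ∈ D (par i))
    (ξ : I → C → H)
    (hξ : ∀ i, (∃ j, j < i) → ∀ c, θ (par i) c (gen (tp i)) =
      (ξ i c)⁻¹ * θ i c (gen (tp i)) * ξ i (rm ρ c (gen (tp i)))) :
    ∃ (S : ZC ρ H) (η : I → C → H),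
      (∀ i c, ∀ g ∈ PP Λ (D i), S.k c g = η i c * θ i c g * (η i (rm ρ c g))⁻¹) ∧
      ∀ i, (∃ j, j < i) → ∀ c, η i c * ξ i c = η (par i) c := by
  classical
  -- step 1
  obtain ⟨η, hη⟩ : ∃ η : I → C → H, ∀ i, (∃ j, j < i) → ∀ c, η i c = η (par i) c * (ξ i c)⁻¹ := by
    let F : (i : I) → ((j : I) → j < i → C → H) → C → H := fun i rec =>
      if h : ∃ j, j < i then fun c => rec (par i) (hpar i h).1 c * (ξ i c)⁻¹ else fun _ => 1
    refine ⟨(wellFounded_lt (α := I)).fix F, fun i hi c => ?_⟩
    rw [WellFounded.fix_eq]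
    show (F i fun y _ => (wellFounded_lt (α := I)).fix F y) c = _
    have h1 : (F i fun y _ => (wellFounded_lt (α := I)).fix F y) =
        fun c => (wellFounded_lt (α := I)).fix F (par i) c * (ξ i c)⁻¹ := dif_pos hi
    rw [h1]
  -- step 2
  obtain ⟨f, hf⟩ : ∃ f : I → C → RA Λ → H, ∀ i c g, f i c g =
      η i c * θ i c g * (η i (rm ρ c g))⁻¹ := ⟨_, fun _ _ _ => rfl⟩
  have hmul : ∀ i c, ∀ g ∈ PP Λ (D i), ∀ g' ∈ PP Λ (D i),
      f i c (g * g') = f i c g * f i (rm ρ c g) g' := by
    intro i c g hg g' hg'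
    rw [hf, hf, hf, hθ i c g hg g' hg', rm_mul]
    group
  have hfp : ∀ i, (∃ j, j < i) → ∀ c, f i c (gen (tp i)) = f (par i) c (gen (tp i)) := by
    intro i hi c
    rw [hf, hf, hξ i hi c, hη i hi c, hη i hi (rm ρ c (gen (tp i)))]
    group
  -- step 3
  have hag : ∀ i j : I, ∀ (a : W) (c : C), a ∈ D i → a ∈ D j →
      f i c (gen a) = f j c (gen a) := fun i j a c hi hj =>
    p11_agree hD f par hpar hfp (max i j) i j (le_max_left _ _) (le_max_right _ _) a c
      hi hj
  -- step 4
  choose home hhome using hD.cov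
  have hcoc : Coc ρ (fun c a => f (home a) c (gen a)) := by
    intro c v w hvw
    obtain ⟨i, hv, hw⟩ := hD.adj v w hvw
    show f (home v) c (gen v) * f (home w) (rm ρ c (gen v)) (gen w) =
      f (home w) c (gen w) * f (home v) (rm ρ c (gen w)) (gen v)
    rw [hag (home v) i v c (hhome v) hv, hag (home w) i w _ (hhome w) hw,
      hag (home w) i w c (hhome w) hw, hag (home v) i v _ (hhome v) hv,
      ← hmul i c _ (gen_mem hv) _ (gen_mem hw), ← hmul i c _ (gen_mem hw) _ (gen_mem hv),
      gen_comm hvw]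
  obtain ⟨κ, hκ1, hκ2⟩ := exists_cc hcoc
  -- step 5
  have hone : ∀ i c, f i c 1 = 1 := by
    intro i c
    have h1 := hmul i c 1 (one_mem _) 1 (one_mem _)
    rw [rm_one, mul_one] at h1
    exact (mul_eq_left.mp h1.symm)
  have key : ∀ i, ∀ g ∈ PP Λ (D i), ∀ c, κ c g = f i c g := by
    intro i g hg
    have hg' : g ∈ Subgroup.closure ((gen : W → RA Λ) '' D i) := hg
    induction hg' using Subgroup.closure_induction with
    | mem x hx =>
      obtain ⟨v, hv, rfl⟩ := hx
      intro c
      rw [hκ1]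
      exact hag (home v) i v c (hhome v) hv
    | one =>
      intro c
      rw [cc_one hκ2, hone]
    | mul x y hx hy ihx ihy =>
      intro c
      rw [hκ2, hmul i c x hx y hy, ihx hx, ihy hy]
    | inv x hx ihx =>
      intro c
      have h1 := hκ2 (rm ρ c x⁻¹) x x⁻¹
      have h2 := hmul i (rm ρ c x⁻¹) x hx x⁻¹ (inv_mem hx)
      rw [mul_inv_cancel, cc_one hκ2, b01_inv_right] at h1
      rw [mul_inv_cancel, hone, b01_inv_right] at h2
      rw [← ihx hx (rm ρ c x⁻¹)] at h2
      exact mul_left_cancel (h1.symm.trans h2)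
  refine ⟨⟨κ, hκ2⟩, η, fun i c g hg => ?_, fun i hi c => ?_⟩
  · show κ c g = _
    rw [key i g hg c, hf]
  · rw [hη i hi c]
    group

end

end RaagBP
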