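import Pool.Agent.Lib.MP_32d917_al_bl.P04
import Pool.Agent.Lib.MP_32d917_al_bl.P11

/-!
# P12 (90 min): the systems of cocycles: surjectivity

Given `S : Sy (cdB ρ D) H`. For a block `i` and `c : C`: `r_i c = rep ρ (PP Λ (D i)) c`, `o_i c = ⟨(i, r_i c), rep_rep ..⟩ : (cdB ρ D).Ob`, `y_i c = cn ρ (PP Λ (D i)) c ∈ PP (D i)` (from `r_i c` to `c`).
1. `θ i c g = S.b (o_i c) ⟨y_i c * g * (y_i (rm c g))⁻¹, _⟩` for `g ∈ PP (D i)`, and `1` otherwise (`classical`, `if h : g ∈ PP Λ (D i) then .. else 1`; membership: `rm (r_i c) (y_i c) = c`, `rm (rm c g) (y_i (rm c g))⁻¹ = r_i (rm c g) = r_i c`).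
   It is a cocycle on `PP (D i)` (`b_cast` for `o_i (rm c g) = o_i c`). This is `hθ` of `lemU`.
2. Let `v ∈ D i` be cut. For `c' : C` let `c = rep ρ (PP {v}) c'`, `j = j c'` the number with `j < per v c'`, `rm c (v^j) = c'` (`cyc_idx`; unique by `cyc_uniq`; for `c' = c` it is `0`), `w = (i, v, c) : (cdB ρ D).Wl`. Put
   `ω i v c' = S.t w * S.b (o_i c) ⟨y_i c * gen v ^ j * (y_i c')⁻¹, _⟩` (put `1` if `v ∉ D i` or `v` is not cut).
   `ω i v c' * θ i c' (gen v) * (ω i v (rm c' v))⁻¹ = ζ v c'` where `ζ v c' = 1` if `j c' + 1 < per` and `ζ v c' = S.z (v, c)` if `j c' + 1 = per`: in the first case `j (rm c' v) = j c' + 1` and both sides are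
   `t * b (y_i c * v^(j+1) * (y_i (rm c' v))⁻¹)`; in the second case `rm c' v = c`, `ω i v c = t` (`b 1 = 1`), and `ω i v c' * θ i c' v = t * b (y_i c * v^per * (y_i c)⁻¹) = t * b (zz) = z * t` (`S.ht w`). In particular
   `ζ v c'` does not depend on `i`.
3. `par i`: for `i` not minimal, `top` gives `par i < i` with `tp i ∈ D (par i)` (and `tp i ∈ D i`, so `tp i` is cut). `ξ i c = (ω i (tp i) c)⁻¹ * ω (par i) (tp i) c`. `hξ` follows from 2 for `i` and `par i`. Apply `lemU`: `κ`, `η`.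
4. For `v` cut, `v ∈ D i`, `v ∈ D j`: `η i c * (ω i v c)⁻¹ = η j c * (ω j v c)⁻¹`: induction on `max i j`; for `j < i` we have `v = tp i` (`one`), and `η i c * ξ i c = η (par i) c` is the statement for `i`, `par i`.
5. `toSy D κ` is the transform of `S` by `h o = η o.1.1 o.1.2` and `g (v, c) = η i c * (ω i v c)⁻¹` (any `i` with `v ∈ D i`, by 4; choose one by `Ct`).
   `b`: `κ y k = η i y * θ i y k * (η i y)⁻¹` for `o = (i, y)`, `k ∈ K o`, and `θ i y k = S.b o k` as `cn y = 1` (`cn_one`).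
   `z`: `κ c (v^per) = η i c * θ i c (v^per) * (η i c)⁻¹`, `θ i c (v^per) = S.b (zz) = t⁻¹ * z * t`, `t = ω i v c`.
   `t`: `κ c (y_i c)⁻¹ = η i c * θ i c (y_i c)⁻¹ * (η i (r_i c))⁻¹`, `θ i c (y_i c)⁻¹ = S.b 1 = 1` (`cn (r_i c) = 1`), and `g t h⁻¹ = η i c * t⁻¹ * t * (η i (r_i c))⁻¹`.
   `u`: there are no loops.
-/

set_option autoImplicit false

namespace RaagBP

open RaagIso

section

variable {W C I : Type} {Λ : SimpleGraph W} [Finite C]

open Classical in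
private noncomputable def bo {A H : Type} [Group A] [Group H] {D : CD A} (S : Sy D H) (o : D.Ob)
    (x : A) : H := if h : x ∈ D.K o then S.b o ⟨x, h⟩ else 1

private theorem bo_eq {A H : Type} [Group A] [Group H] {D : CD A} (S : Sy D H) {o : D.Ob}
    {x : A} (h : x ∈ D.K o) : bo S o x = S.b o ⟨x, h⟩ := by
  unfold bo
  rw [dif_pos h]

private theorem bo_mul {A H : Type} [Group A] [Group H] {D : CD A} (S : Sy D H) {o : D.Ob}
    {x y : A} (hx : x ∈ D.K o) (hy : y ∈ D.K o) : bo S o (x * y) = bo S o x * bo S o y := by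
  rw [bo_eq S hx, bo_eq S hy, bo_eq S (mul_mem hx hy), ← map_mul]
  rfl

private theorem bo_one {A H : Type} [Group A] [Group H] {D : CD A} (S : Sy D H) (o : D.Ob) :
    bo S o 1 = 1 := by
  rw [bo_eq S (one_mem _)]
  exact map_one _

/-- the orbit of `c` under the letters of the block `i` -/
private noncomputable def ob (ρ : RA Λ →* Equiv.Perm C) (D : I → Set W) (i : I) (c : C) :
    (cdB ρ D).Ob := ⟨(i, rep ρ (PP Λ (D i)) c), rep_rep ρ _ _⟩

private theorem ob_rm {ρ : RA Λ →* Equiv.Perm C} {D : I → Set W} {i : I} {g : RA Λ}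
    (hg : g ∈ PP Λ (D i)) (c : C) : ob ρ D i (rm ρ c g) = ob ρ D i c := by
  apply Subtype.ext
  show (i, rep ρ (PP Λ (D i)) (rm ρ c g)) = (i, rep ρ (PP Λ (D i)) c)
  rw [rep_rm hg]

private theorem kmem {ρ : RA Λ →* Equiv.Perm C} {D : I → Set W} {i : I} {g : RA Λ}
    (hg : g ∈ PP Λ (D i)) (c : C) :
    cn ρ (PP Λ (D i)) c * g * (cn ρ (PP Λ (D i)) (rm ρ c g))⁻¹ ∈ (cdB ρ D).K (ob ρ D i c) := by
  show _ ∈ stb ρ (rep ρ (PP Λ (D i)) c) ⊓ PP Λ (D i)
  refine Subgroup.mem_inf.2 ⟨?_, ?_⟩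
  · show rm ρ (rep ρ (PP Λ (D i)) c) _ = rep ρ (PP Λ (D i)) c
    rw [rm_mul, rm_mul, cn_rm, cn_inv, rep_rm hg]
  · exact mul_mem (mul_mem (cn_mem _ _ _) hg) (inv_mem (cn_mem _ _ _))

/-- the cocycle on the block `i` -/
private noncomputable def th {ρ : RA Λ →* Equiv.Perm C} {D : I → Set W} {H : Type} [Group H]
    (S : Sy (cdB ρ D) H) (i : I) (c : C) (g : RA Λ) : H :=
  bo S (ob ρ D i c) (cn ρ (PP Λ (D i)) c * g * (cn ρ (PP Λ (D i)) (rm ρ c g))⁻¹)

private theorem th_mul {ρ : RA Λ →* Equiv.Perm C} {D : I → Set W} {H : Type} [Group H]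
    (S : Sy (cdB ρ D) H) (i : I) (c : C) {g g' : RA Λ} (hg : g ∈ PP Λ (D i))
    (hg' : g' ∈ PP Λ (D i)) : th S i c (g * g') = th S i c g * th S i (rm ρ c g) g' := by
  unfold th
  have h1 := kmem (ρ := ρ) (D := D) hg c
  have h2 := kmem (ρ := ρ) (D := D) hg' (rm ρ c g)
  rw [ob_rm hg] at h2 ⊢
  rw [← bo_mul S h1 h2, rm_mul]
  congr 1
  group

/-- the index of `c` in its cycle -/
private noncomputable def jj (ρ : RA Λ →* Equiv.Perm C) (v : W) (c : C) : ℕ :=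
  (cyc_idx ρ v c).choose

private theorem jj_lt (ρ : RA Λ →* Equiv.Perm C) (v : W) (c : C) : jj ρ v c < per ρ v c :=
  (cyc_idx ρ v c).choose_spec.1

private theorem jj_rm (ρ : RA Λ →* Equiv.Perm C) (v : W) (c : C) :
    rm ρ (rep ρ (PP Λ {v}) c) (gen v ^ jj ρ v c) = c :=
  (cyc_idx ρ v c).choose_spec.2

private theorem per_rep1 (ρ : RA Λ →* Equiv.Perm C) (v : W) (c : C) :
    per ρ v (rep ρ (PP Λ {v}) c) = per ρ v c := by
  conv_rhs => rw [← jj_rm ρ v c]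
  rw [per_rm]
  rw [← pow_succ', ← pow_succ]

private theorem jj_unique {ρ : RA Λ →* Equiv.Perm C} {v : W} {c : C} {j : ℕ}
    (hj : j < per ρ v c) (h : rm ρ (rep ρ (PP Λ {v}) c) (gen v ^ j) = c) : jj ρ v c = j := by
  have h1 := per_rep1 ρ v c
  apply cyc_uniq ρ v (rep ρ (PP Λ {v}) c)
  · rw [h1]; exact jj_lt ρ v c
  · rw [h1]; exact hj
  · rw [h, jj_rm]

private theorem gen_mem1 (Λ : SimpleGraph W) (v : W) : (gen v : RA Λ) ∈ PP Λ {v} :=
  gen_mem rfl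

private theorem rep_gen (ρ : RA Λ →* Equiv.Perm C) (v : W) (c : C) :
    rep ρ (PP Λ {v}) (rm ρ c (gen v)) = rep ρ (PP Λ {v}) c := rep_rm (gen_mem1 Λ v) c

private theorem per_gen (ρ : RA Λ →* Equiv.Perm C) (v : W) (c : C) :
    per ρ v (rm ρ c (gen v)) = per ρ v c := per_rm rfl c

private theorem jj_succ {ρ : RA Λ →* Equiv.Perm C} {v : W} {c : C}
    (h : jj ρ v c + 1 < per ρ v c) : jj ρ v (rm ρ c (gen v)) = jj ρ v c + 1 := by
  apply jj_unique
  · rw [per_gen]; exact h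
  · rw [rep_gen, pow_succ, rm_mul, jj_rm]

private theorem jj_last {ρ : RA Λ →* Equiv.Perm C} {v : W} {c : C}
    (h : ¬ jj ρ v c + 1 < per ρ v c) : jj ρ v c + 1 = per ρ v (rep ρ (PP Λ {v}) c) ∧
      rm ρ c (gen v) = rep ρ (PP Λ {v}) c := by
  have h1 := jj_lt ρ v c
  have h2 : jj ρ v c + 1 = per ρ v (rep ρ (PP Λ {v}) c) := by
    rw [per_rep1]; omega
  refine ⟨h2, ?_⟩
  have h3 := (per_mem ρ v (rep ρ (PP Λ {v}) c)).2
  rw [← h2, pow_succ, rm_mul, jj_rm] at h3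
  exact h3

private theorem jj_zero {ρ : RA Λ →* Equiv.Perm C} {v : W} {c : C}
    (h : rep ρ (PP Λ {v}) c = c) : jj ρ v c = 0 := by
  apply jj_unique
  · exact (per_mem ρ v c).1
  · rw [pow_zero, rm_one, h]

open Classical in
/-- the comparison between the gauge of the block and the gauge of the cycle -/
private noncomputable def om {ρ : RA Λ →* Equiv.Perm C} {D : I → Set W} {H : Type} [Group H]
    (S : Sy (cdB ρ D) H) (i : I) (v : W) (c : C) : H :=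
  if h : v ∈ D i ∧ Ct D v then
    S.t (⟨(i, v, rep ρ (PP Λ {v}) c), h.1, h.2, rep_rep ρ _ _⟩ : (cdB ρ D).Wl) *
      th S i (rep ρ (PP Λ {v}) c) (gen v ^ jj ρ v c)
  else 1

open Classical in
/-- the value of the cocycle on the letter `v`, in the gauge of the cycles -/
private noncomputable def ze {ρ : RA Λ →* Equiv.Perm C} {D : I → Set W} {H : Type} [Group H]
    (S : Sy (cdB ρ D) H) (v : W) (c : C) : H :=
  if h : Ct D v then
    (if jj ρ v c + 1 < per ρ v c then 1 else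
      S.z (⟨(v, rep ρ (PP Λ {v}) c), h, rep_rep ρ _ _⟩ : (cdB ρ D).Pc))
  else 1

private theorem om_eq {ρ : RA Λ →* Equiv.Perm C} {D : I → Set W} {H : Type} [Group H]
    (S : Sy (cdB ρ D) H) {i : I} {v : W} {c e : C} (hv : v ∈ D i) (hc : Ct D v)
    (he : rep ρ (PP Λ {v}) c = e) (hee : rep ρ (PP Λ {v}) e = e) :
    om S i v c = S.t (⟨(i, v, e), hv, hc, hee⟩ : (cdB ρ D).Wl) * th S i e (gen v ^ jj ρ v c) := by
  subst he
  unfold om
  rw [dif_pos ⟨hv, hc⟩]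

private theorem th_one {ρ : RA Λ →* Equiv.Perm C} {D : I → Set W} {H : Type} [Group H]
    (S : Sy (cdB ρ D) H) (i : I) (c : C) : th S i c 1 = 1 := by
  unfold th
  rw [rm_one, mul_one, mul_inv_cancel, bo_one]

private theorem om_rep {ρ : RA Λ →* Equiv.Perm C} {D : I → Set W} {H : Type} [Group H]
    (S : Sy (cdB ρ D) H) {i : I} {v : W} {e : C} (hv : v ∈ D i) (hc : Ct D v)
    (hee : rep ρ (PP Λ {v}) e = e) :
    om S i v e = S.t (⟨(i, v, e), hv, hc, hee⟩ : (cdB ρ D).Wl) := by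
  rw [om_eq S hv hc hee hee, jj_zero hee, pow_zero, th_one, mul_one]

private theorem th_per {ρ : RA Λ →* Equiv.Perm C} {D : I → Set W} {H : Type} [Group H]
    (S : Sy (cdB ρ D) H) {i : I} {v : W} {e : C} (hv : v ∈ D i) (hc : Ct D v)
    (hee : rep ρ (PP Λ {v}) e = e) :
    S.t (⟨(i, v, e), hv, hc, hee⟩ : (cdB ρ D).Wl) * th S i e (gen v ^ per ρ v e) =
      S.z (⟨(v, e), hc, hee⟩ : (cdB ρ D).Pc) * S.t (⟨(i, v, e), hv, hc, hee⟩ : (cdB ρ D).Wl) := by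
  have h1 := S.ht (⟨(i, v, e), hv, hc, hee⟩ : (cdB ρ D).Wl)
  have h2 : th S i e (gen v ^ per ρ v e) = S.b ((cdB ρ D).wo ⟨(i, v, e), hv, hc, hee⟩)
      ⟨(cdB ρ D).z ⟨(i, v, e), hv, hc, hee⟩, (cdB ρ D).hz ⟨(i, v, e), hv, hc, hee⟩⟩ := by
    unfold th
    rw [(per_mem ρ v e).2]
    exact bo_eq S ((cdB ρ D).hz ⟨(i, v, e), hv, hc, hee⟩)
  rw [h2]
  exact h1

private theorem om_step {ρ : RA Λ →* Equiv.Perm C} {D : I → Set W} {H : Type} [Group H]
    (S : Sy (cdB ρ D) H) {i : I} {v : W} (hv : v ∈ D i) (hc : Ct D v) (c : C) :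
    om S i v c * th S i c (gen v) = ze S v c * om S i v (rm ρ c (gen v)) := by
  have hvm : (gen v : RA Λ) ∈ PP Λ (D i) := gen_mem hv
  have h0 : th S i (rep ρ (PP Λ {v}) c) (gen v ^ jj ρ v c) * th S i c (gen v) =
      th S i (rep ρ (PP Λ {v}) c) (gen v ^ (jj ρ v c + 1)) := by
    rw [pow_succ, th_mul S i _ (pow_mem hvm _) hvm, jj_rm]
  rw [om_eq S hv hc rfl (rep_rep ρ _ _), mul_assoc, h0]
  unfold ze
  rw [dif_pos hc]
  split_ifs with h
  · rw [om_eq S hv hc (rep_gen ρ v c) (rep_rep ρ _ _), jj_succ h, one_mul]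
  · obtain ⟨h1, h2⟩ := jj_last h
    rw [h1, h2, th_per S hv hc (rep_rep ρ _ _), om_rep S hv hc (rep_rep ρ _ _)]

theorem toSy_surj [LinearOrder I] [Finite I] {ρ : RA Λ →* Equiv.Perm C}
    {D : I → Set W} {tp : I → W} (hD : BS Λ D tp) {H : Type} [Group H] (S : Sy (cdB ρ D) H) :
    ∃ κ : ZC ρ H, Sy.Ge (toSy D κ) S := by
  classical
  have hpar0 : ∀ i, ∃ p, (∃ j, j < i) → p < i ∧ tp i ∈ D p := by
    intro i
    by_cases h : ∃ j, j < i
    · obtain ⟨j, hj⟩ := h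
      obtain ⟨-, p, hp, hp2⟩ := hD.top i j hj
      exact ⟨p, fun _ => ⟨hp, hp2⟩⟩
    · exact ⟨i, fun h' => absurd h' h⟩
  choose par hpar using hpar0
  have htp : ∀ i, (∃ j, j < i) → tp i ∈ D i := fun i ⟨j, hj⟩ => (hD.top i j hj).1
  have hct : ∀ i, (∃ j, j < i) → Ct D (tp i) := fun i h =>
    ⟨i, par i, (hpar i h).1.ne', htp i h, (hpar i h).2⟩
  obtain ⟨κ, η, hκ, hη⟩ := lemU ρ hD (fun i c g => th S i c g)
    (fun i c g hg g' hg' => th_mul S i c hg hg') par hpar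
    (fun i c => (om S i (tp i) c)⁻¹ * om S (par i) (tp i) c) (by
      intro i hi c
      have h1 := om_step S (htp i hi) (hct i hi) c
      have h2 := om_step S (hpar i hi).2 (hct i hi) c
      have h3 : th S i c (gen (tp i)) = (om S i (tp i) c)⁻¹ * (ze S (tp i) c *
          om S i (tp i) (rm ρ c (gen (tp i)))) := by rw [← h1]; group
      have h4 : th S (par i) c (gen (tp i)) = (om S (par i) (tp i) c)⁻¹ * (ze S (tp i) c *
          om S (par i) (tp i) (rm ρ c (gen (tp i)))) := by rw [← h2]; group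
      show th S (par i) c (gen (tp i)) = _
      rw [h4, h3]
      group)
  have hη' : ∀ i, (∃ j, j < i) → ∀ c, η i c * (om S i (tp i) c)⁻¹ =
      η (par i) c * (om S (par i) (tp i) c)⁻¹ := by
    intro i hi c
    rw [← hη i hi c]
    group
  have key : ∀ n, ∀ j, j ≤ n → ∀ v, v ∈ D n → v ∈ D j → ∀ c,
      η n c * (om S n v c)⁻¹ = η j c * (om S j v c)⁻¹ := by
    intro n
    induction n using (wellFounded_lt (α := I)).induction with
    | _ n ih =>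
      intro j hj v hvn hvj c
      rcases eq_or_lt_of_le hj with h | h
      · rw [h]
      · have hv := hD.one n j v hvn hvj h
        subst hv
        have hn : ∃ j, j < n := ⟨j, h⟩
        rw [hη' n hn c]
        rcases le_total j (par n) with h1 | h1
        · exact ih (par n) (hpar n hn).1 j h1 _ (hpar n hn).2 hvj c
        · exact (ih j h (par n) h1 _ hvj (hpar n hn).2 c).symm
  have key2 : ∀ i j v, v ∈ D i → v ∈ D j → ∀ c,
      η i c * (om S i v c)⁻¹ = η j c * (om S j v c)⁻¹ := by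
    intro i j v hi hj c
    rcases le_total j i with h | h
    · exact key i j h v hi hj c
    · exact (key j i h v hj hi c).symm
  have hblk : ∀ p : (cdB ρ D).Pc, ∃ i, p.1.1 ∈ D i := by
    intro p
    obtain ⟨i, j, -, hi, -⟩ := p.2.1
    exact ⟨i, hi⟩
  choose bl hbl using hblk
  refine ⟨κ, (SyF (cdB ρ D)).symm ⟨fun o => η o.1.1 o.1.2,
    fun p => η (bl p) p.1.2 * (om S (bl p) p.1.1 p.1.2)⁻¹, ?_, ?_, ?_, ?_⟩⟩
  · rintro ⟨⟨i, y⟩, hy⟩ x
    have hx1 : rm ρ y x.1 = y := x.2.1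
    have hx2 : x.1 ∈ PP Λ (D i) := x.2.2
    show κ.k y x.1 = η i y * S.b ⟨(i, y), hy⟩ x * (η i y)⁻¹
    rw [hκ i y x.1 hx2, hx1]
    have h1 : th S i y x.1 = S.b ⟨(i, y), hy⟩ x := by
      unfold th
      have h2 : ob ρ D i y = ⟨(i, y), hy⟩ := by
        apply Subtype.ext
        show (i, rep ρ (PP Λ (D i)) y) = (i, y)
        rw [hy]
      rw [h2, hx1, cn_one hy, one_mul, inv_one, mul_one]
      exact bo_eq S x.2
    show η i y * th S i y x.1 * (η i y)⁻¹ = _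
    rw [h1]
  · intro p
    show κ.k p.1.2 (gen p.1.1 ^ per ρ p.1.1 p.1.2) =
      η (bl p) p.1.2 * (om S (bl p) p.1.1 p.1.2)⁻¹ * S.z p *
        (η (bl p) p.1.2 * (om S (bl p) p.1.1 p.1.2)⁻¹)⁻¹
    have h1 := th_per S (hbl p) p.2.1 p.2.2
    have h2 := om_rep S (hbl p) p.2.1 p.2.2
    rw [hκ (bl p) p.1.2 _ (pow_mem (gen_mem (hbl p)) _), (per_mem ρ p.1.1 p.1.2).2, h2]
    have h3 : th S (bl p) p.1.2 (gen p.1.1 ^ per ρ p.1.1 p.1.2) =
        (S.t (⟨(bl p, p.1.1, p.1.2), hbl p, p.2.1, p.2.2⟩ : (cdB ρ D).Wl))⁻¹ * (S.z p *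
          S.t (⟨(bl p, p.1.1, p.1.2), hbl p, p.2.1, p.2.2⟩ : (cdB ρ D).Wl)) := by
      rw [eq_inv_mul_iff_mul_eq]
      exact h1
    show η (bl p) p.1.2 * th S (bl p) p.1.2 (gen p.1.1 ^ per ρ p.1.1 p.1.2) * _ = _
    rw [h3]
    group
  · rintro ⟨⟨i, v, c⟩, hv, hc, hr⟩
    show κ.k c (cn ρ (PP Λ (D i)) c)⁻¹ =
      η (bl ⟨(v, c), hc, hr⟩) c * (om S (bl ⟨(v, c), hc, hr⟩) v c)⁻¹ *
        S.t ⟨(i, v, c), hv, hc, hr⟩ * (η i (rep ρ (PP Λ (D i)) c))⁻¹
    rw [key2 (bl ⟨(v, c), hc, hr⟩) i v (hbl ⟨(v, c), hc, hr⟩) hv c, om_rep S hv hc hr,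
      hκ i c _ (inv_mem (cn_mem _ _ _)), cn_inv]
    have h1 : th S i c (cn ρ (PP Λ (D i)) c)⁻¹ = 1 := by
      unfold th
      rw [cn_inv, cn_one (rep_rep ρ _ _), mul_inv_cancel, one_mul, inv_one, bo_one]
    show η i c * th S i c (cn ρ (PP Λ (D i)) c)⁻¹ * _ = _
    rw [h1]
    group
  · exact fun l => l.elim

end

end RaagBP
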