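import Pool.Agent.Lib.MP_32d917_al_bl.P02

/-!
# P13 (45 min): basis of the stabiliser in an edge group

`zz ρ E v c = gen v ^ p`, `p = per ρ v c` (`zz_rep`). Every element of `PP Λ {v, l}` is `gen v ^ x * gen l ^ y` (closure induction, `gen v`, `gen l` commute), with unique `x`, `y` (`ab Λ v`, `ab Λ l`, `v ≠ l`).
Let `b` be the least natural number `> 0` such that `gen v ^ m * gen l ^ b ∈ stb ρ c` for some `m : ℤ` (exists: `gen l ^ n` acts trivially for some `n > 0`, as in `per_mem`), `τ = gen v ^ m * gen l ^ b`.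
If `k = gen v ^ x * gen l ^ y ∈ stb ρ c` then `b ∣ y` (otherwise `k * τ^(-(y/b))` has exponent `y % b`), `y = b * n`, and `k * τ^(-n) = gen v ^ (x - m n) ∈ stb ρ c`, so `p ∣ x - m n` (`per_dvd`). Hence
every `k ∈ stb ρ c ⊓ PP Λ {v, l}` is `(gen v ^ p)^s * τ^n` with unique `s`, `n`. Given `a b = b a` put `φ k = a^s * b^n` (choose `s`, `n`; `MonoidHom.mk'`, exponents add by uniqueness). Uniqueness of `φ` is clear.
-/

set_option autoImplicit false

namespace RaagBP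

open RaagIso

section

variable {W C : Type} {Λ : SimpleGraph W} [Finite C]

omit [Finite C] in
private theorem p13_form {v l : W} (hvl : Λ.Adj v l) {x : RA Λ} (hx : x ∈ PP Λ {v, l}) :
    ∃ m n : ℤ, x = gen v ^ m * gen l ^ n := by
  have hc : Commute (gen v : RA Λ) (gen l) := gen_comm hvl
  unfold PP at hx
  induction hx using Subgroup.closure_induction with
  | mem y hy =>
    obtain ⟨w, hw, rfl⟩ := hy
    rcases hw with rfl | hw
    · exact ⟨1, 0, by simp⟩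
    · rw [Set.mem_singleton_iff] at hw
      subst hw
      exact ⟨0, 1, by simp⟩
  | one => exact ⟨0, 0, by simp⟩
  | mul y z _ _ hy hz =>
    obtain ⟨m, n, rfl⟩ := hy
    obtain ⟨m', n', rfl⟩ := hz
    refine ⟨m + m', n + n', ?_⟩
    have h1 : (gen l : RA Λ) ^ n * gen v ^ m' = gen v ^ m' * gen l ^ n := (hc.zpow_zpow m' n).eq.symm
    calc (gen v : RA Λ) ^ m * gen l ^ n * (gen v ^ m' * gen l ^ n') =
        gen v ^ m * (gen l ^ n * gen v ^ m') * gen l ^ n' := by group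
      _ = gen v ^ m * (gen v ^ m' * gen l ^ n) * gen l ^ n' := by rw [h1]
      _ = _ := by rw [zpow_add, zpow_add]; group
  | inv y _ hy =>
    obtain ⟨m, n, rfl⟩ := hy
    refine ⟨-m, -n, ?_⟩
    rw [mul_inv_rev, ← zpow_neg, ← zpow_neg]
    exact (hc.zpow_zpow (-m) (-n)).eq.symm

omit [Finite C] in
private theorem p13_uniq {v l : W} (hvl : Λ.Adj v l) {m n m' n' : ℤ}
    (h : (gen v : RA Λ) ^ m * gen l ^ n = gen v ^ m' * gen l ^ n') : m = m' ∧ n = n' := by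
  have hne : v ≠ l := hvl.ne
  have h1 := congrArg (ab Λ v) h
  have h2 := congrArg (ab Λ l) h
  simp only [map_mul, map_zpow, ab_gen, if_true, hne.symm, hne, if_false, one_zpow, mul_one,
    one_mul] at h1 h2
  have h3 := congrArg Multiplicative.toAdd h1
  have h4 := congrArg Multiplicative.toAdd h2
  simp only [toAdd_zpow, toAdd_ofAdd, smul_eq_mul, mul_one] at h3 h4
  exact ⟨h3, h4⟩

theorem leaf_basis (ρ : RA Λ →* Equiv.Perm C) {E : Set W} {v l : W} (hE : E = {v, l})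
    (hvl : Λ.Adj v l) {c : C} (hc : rep ρ (PP Λ E) c = c) :
    ∃ τ ∈ stb ρ c ⊓ PP Λ E, zz ρ E v c * τ = τ * zz ρ E v c ∧
      ∀ (h1 : zz ρ E v c ∈ stb ρ c ⊓ PP Λ E) (h2 : τ ∈ stb ρ c ⊓ PP Λ E) (H : Type) [Group H]
        (a b : H), a * b = b * a →
        ∃! φ : ↥(stb ρ c ⊓ PP Λ E) →* H, φ ⟨zz ρ E v c, h1⟩ = a ∧ φ ⟨τ, h2⟩ = b := by
  classical
  subst hE
  have hcm : Commute (gen v : RA Λ) (gen l) := gen_comm hvl
  rw [zz_rep v hc]
  obtain ⟨hp0, hpc⟩ := per_mem ρ v c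
  set p := per ρ v c with hp
  -- the least exponent of `l`
  set Bs : Set ℕ := {b | 0 < b ∧ ∃ m : ℤ, (gen v : RA Λ) ^ m * gen l ^ b ∈ stb ρ c} with hBs
  have hne : Bs.Nonempty := by
    obtain ⟨h1, h2⟩ := per_mem ρ l c
    refine ⟨per ρ l c, h1, 0, ?_⟩
    rw [zpow_zero, one_mul]
    exact h2
  obtain ⟨hb0, m, hm⟩ : sInf Bs ∈ Bs := Nat.sInf_mem hne
  set b0 := sInf Bs with hb0def
  set τ : RA Λ := gen v ^ m * gen l ^ b0 with hτ
  have hτn : ∀ n : ℤ, τ ^ n = gen v ^ (m * n) * gen l ^ ((b0 : ℤ) * n) := by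
    intro n
    have h1 : Commute ((gen v : RA Λ) ^ m) (gen l ^ b0) := by
      have := hcm.zpow_zpow m (b0 : ℤ)
      rwa [zpow_natCast] at this
    rw [hτ, h1.mul_zpow, ← zpow_mul, ← zpow_natCast (gen l : RA Λ) b0, ← zpow_mul]
  have hzn : ∀ s : ℤ, ((gen v : RA Λ) ^ p) ^ s = gen v ^ ((p : ℤ) * s) := by
    intro s
    rw [← zpow_natCast, ← zpow_mul]
  have hprod : ∀ s n : ℤ, ((gen v : RA Λ) ^ p) ^ s * τ ^ n =
      gen v ^ ((p : ℤ) * s + m * n) * gen l ^ ((b0 : ℤ) * n) := by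
    intro s n
    rw [hτn, hzn, ← mul_assoc, ← zpow_add]
  have hcomm : ((gen v : RA Λ) ^ p) * τ = τ * gen v ^ p := by
    have h1 : Commute ((gen v : RA Λ) ^ p) τ := by
      rw [hτ]
      refine Commute.mul_right ?_ ?_
      · exact ((Commute.refl (gen v)).pow_left p).zpow_right m
      · exact (hcm.pow_left p).pow_right b0
    exact h1.eq
  have hτm : τ ∈ stb ρ c ⊓ PP Λ {v, l} := by
    refine Subgroup.mem_inf.2 ⟨hm, ?_⟩
    exact mul_mem (zpow_mem (gen_mem (by simp)) _) (pow_mem (gen_mem (by simp)) _)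
  have huniq : ∀ s n s' n' : ℤ, ((gen v : RA Λ) ^ p) ^ s * τ ^ n = (gen v ^ p) ^ s' * τ ^ n' →
      s = s' ∧ n = n' := by
    intro s n s' n' h
    rw [hprod, hprod] at h
    obtain ⟨h1, h2⟩ := p13_uniq hvl h
    have hb : (b0 : ℤ) ≠ 0 := by exact_mod_cast hb0.ne'
    have hn : n = n' := mul_left_cancel₀ hb h2
    subst hn
    have hpz : (p : ℤ) ≠ 0 := by exact_mod_cast hp0.ne'
    exact ⟨mul_left_cancel₀ hpz (by linarith), rfl⟩
  have hex : ∀ k : ↥(stb ρ c ⊓ PP Λ {v, l}), ∃ sn : ℤ × ℤ,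
      (k : RA Λ) = ((gen v : RA Λ) ^ p) ^ sn.1 * τ ^ sn.2 := by
    rintro ⟨k, hk⟩
    obtain ⟨hk1, hk2⟩ := Subgroup.mem_inf.1 hk
    obtain ⟨x, y, rfl⟩ := p13_form hvl hk2
    have hbz : (0 : ℤ) < b0 := by exact_mod_cast hb0
    have h1 : (gen v : RA Λ) ^ (x - m * (y / b0)) * gen l ^ (y % (b0 : ℤ)) ∈ stb ρ c := by
      have h2 := mul_mem hk1 (zpow_mem (Subgroup.mem_inf.1 hτm).1 (-(y / (b0 : ℤ))))
      rw [hτn] at h2
      have h3 : (gen v : RA Λ) ^ x * gen l ^ y * (gen v ^ (m * -(y / (b0 : ℤ))) *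
          gen l ^ ((b0 : ℤ) * -(y / (b0 : ℤ)))) =
          gen v ^ (x - m * (y / b0)) * gen l ^ (y % (b0 : ℤ)) := by
        have h4 : (gen l : RA Λ) ^ y * gen v ^ (m * -(y / (b0 : ℤ))) =
          gen v ^ (m * -(y / (b0 : ℤ))) * gen l ^ y := (hcm.zpow_zpow _ _).eq.symm
        calc (gen v : RA Λ) ^ x * gen l ^ y * (gen v ^ (m * -(y / (b0 : ℤ))) *
              gen l ^ ((b0 : ℤ) * -(y / (b0 : ℤ)))) =
            gen v ^ x * (gen l ^ y * gen v ^ (m * -(y / (b0 : ℤ)))) *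
              gen l ^ ((b0 : ℤ) * -(y / (b0 : ℤ))) := by group
          _ = gen v ^ x * (gen v ^ (m * -(y / (b0 : ℤ))) * gen l ^ y) *
              gen l ^ ((b0 : ℤ) * -(y / (b0 : ℤ))) := by rw [h4]
          _ = (gen v ^ x * gen v ^ (m * -(y / (b0 : ℤ)))) *
              (gen l ^ y * gen l ^ ((b0 : ℤ) * -(y / (b0 : ℤ)))) := by group
          _ = _ := by
            rw [← zpow_add, ← zpow_add]
            congr 2
            · ring
            · have := Int.emod_add_mul_ediv y (b0 : ℤ)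
              linarith
      rw [h3] at h2
      exact h2
    have h0 := Int.emod_nonneg y hbz.ne'
    have hlt := Int.emod_lt_of_pos y hbz
    have hr : y % (b0 : ℤ) = 0 := by
      by_contra hne0
      obtain ⟨r, hr⟩ := Int.eq_ofNat_of_zero_le h0
      rw [hr] at h1 hlt hne0
      rw [zpow_natCast] at h1
      have hr0 : 0 < r := by
        rcases Nat.eq_zero_or_pos r with rfl | h5
        · exact absurd rfl hne0
        · exact h5
      have h6 : b0 ≤ r := Nat.sInf_le ⟨hr0, _, h1⟩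
      have h7 : (r : ℤ) < b0 := hlt
      omega
    rw [hr, zpow_zero, mul_one] at h1
    have h8 : rm ρ c (gen v ^ (x - m * (y / b0))) = c := h1
    rw [per_dvd] at h8
    obtain ⟨s, hs⟩ := h8
    refine ⟨(s, y / b0), ?_⟩
    show (gen v : RA Λ) ^ x * gen l ^ y = ((gen v : RA Λ) ^ p) ^ s * τ ^ (y / (b0 : ℤ))
    rw [hprod]
    congr 2
    · rw [← hp] at hs
      linarith
    · have := Int.emod_add_mul_ediv y (b0 : ℤ)
      rw [hr] at this
      linarith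
  choose sn hsn using hex
  refine ⟨τ, hτm, hcomm, fun h1 h2 H _ a b hab => ?_⟩
  have habc : Commute a b := hab
  have hcz : Commute ((gen v : RA Λ) ^ p) τ := hcomm
  refine ⟨MonoidHom.mk' (fun k => a ^ (sn k).1 * b ^ (sn k).2) ?_, ⟨?_, ?_⟩, ?_⟩
  · intro k k'
    have h3 : ((gen v : RA Λ) ^ p) ^ (sn (k * k')).1 * τ ^ (sn (k * k')).2 =
        (gen v ^ p) ^ ((sn k).1 + (sn k').1) * τ ^ ((sn k).2 + (sn k').2) := by
      rw [← hsn]
      show (k : RA Λ) * (k' : RA Λ) = _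
      rw [hsn k, hsn k', zpow_add, zpow_add]
      have h4 : τ ^ (sn k).2 * ((gen v : RA Λ) ^ p) ^ (sn k').1 =
        (gen v ^ p) ^ (sn k').1 * τ ^ (sn k).2 := (hcz.zpow_zpow _ _).eq.symm
      calc ((gen v : RA Λ) ^ p) ^ (sn k).1 * τ ^ (sn k).2 * ((gen v ^ p) ^ (sn k').1 * τ ^ (sn k').2) =
          (gen v ^ p) ^ (sn k).1 * (τ ^ (sn k).2 * (gen v ^ p) ^ (sn k').1) * τ ^ (sn k').2 := by
            simp only [mul_assoc]
        _ = (gen v ^ p) ^ (sn k).1 * ((gen v ^ p) ^ (sn k').1 * τ ^ (sn k).2) * τ ^ (sn k').2 := by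
            rw [h4]
        _ = _ := by simp only [mul_assoc]
    obtain ⟨h5, h6⟩ := huniq _ _ _ _ h3
    show a ^ (sn (k * k')).1 * b ^ (sn (k * k')).2 = a ^ (sn k).1 * b ^ (sn k).2 *
      (a ^ (sn k').1 * b ^ (sn k').2)
    rw [h5, h6, zpow_add, zpow_add]
    have h7 : b ^ (sn k).2 * a ^ (sn k').1 = a ^ (sn k').1 * b ^ (sn k).2 :=
      (habc.zpow_zpow _ _).eq.symm
    calc a ^ (sn k).1 * a ^ (sn k').1 * (b ^ (sn k).2 * b ^ (sn k').2) =
        a ^ (sn k).1 * (a ^ (sn k').1 * b ^ (sn k).2) * b ^ (sn k').2 := by simp only [mul_assoc]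
      _ = a ^ (sn k).1 * (b ^ (sn k).2 * a ^ (sn k').1) * b ^ (sn k').2 := by rw [h7]
      _ = _ := by simp only [mul_assoc]
  · have h3 : ((gen v : RA Λ) ^ p) ^ (sn ⟨gen v ^ p, h1⟩).1 * τ ^ (sn ⟨gen v ^ p, h1⟩).2 =
        (gen v ^ p) ^ (1 : ℤ) * τ ^ (0 : ℤ) := by
      rw [← hsn, zpow_one, zpow_zero, mul_one]
    obtain ⟨h5, h6⟩ := huniq _ _ _ _ h3
    show a ^ (sn ⟨gen v ^ p, h1⟩).1 * b ^ (sn ⟨gen v ^ p, h1⟩).2 = a
    rw [h5, h6, zpow_one, zpow_zero, mul_one]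
  · have h3 : ((gen v : RA Λ) ^ p) ^ (sn ⟨τ, h2⟩).1 * τ ^ (sn ⟨τ, h2⟩).2 =
        (gen v ^ p) ^ (0 : ℤ) * τ ^ (1 : ℤ) := by
      rw [← hsn, zpow_one, zpow_zero, one_mul]
    obtain ⟨h5, h6⟩ := huniq _ _ _ _ h3
    show a ^ (sn ⟨τ, h2⟩).1 * b ^ (sn ⟨τ, h2⟩).2 = b
    rw [h5, h6, zpow_one, zpow_zero, one_mul]
  · rintro φ ⟨hφ1, hφ2⟩
    ext k
    show φ k = a ^ (sn k).1 * b ^ (sn k).2
    have h3 : k = (⟨gen v ^ p, h1⟩ : ↥(stb ρ c ⊓ PP Λ {v, l})) ^ (sn k).1 *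
        (⟨τ, h2⟩ : ↥(stb ρ c ⊓ PP Λ {v, l})) ^ (sn k).2 := by
      apply Subtype.ext
      rw [Subgroup.coe_mul, Subgroup.coe_zpow, Subgroup.coe_zpow]
      exact hsn k
    rw [← hφ1, ← hφ2, ← map_zpow, ← map_zpow, ← map_mul, ← h3]

end

end RaagBP
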