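import Pool.Agent.Lib.MP_32d917_al_bl.P14

/-!
# P15 (45 min): cardinalities

* `cardB1`: the walls `(i, v, c)` of `cdB` with `qB (wp w) = p` are the pairs of a block `i` which contains `v = p.1.1` and a cycle `c` of `p` (`CyN ρ D p`): `Nat.card_congr` and `Nat.card_prod`. (Use explicit maps; the equation `qB .. = p` says `v = p.1.1` and
  `rep ρ (PP Λ (st Λ v)) c = p.1.2`; `obtain ⟨⟨v, d⟩, hp⟩ := p` and `subst`.)
* `cardB2`: the cycles of `p`.
* `cardB3`: the walls of `cdA` of the piece `p`: those with `co i` are counted by `nW`, those with `¬ co i` by the last term; the set of walls `(i, v, c)` with `¬ co i` is in bijection with `LfO ρ D co` by `lwB`: `D i = {v_i, l_i}` with `v_i` cut and `l_i` not cut and so `v = v_i`;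
  `D i ∩ st v_i = D i` (adjacent). `Nat.card_congr` with a sum type, `Nat.card_sum` (finite types).
* `lwB_wo`, `lwB_uniq`: `rep ρ (PP Λ (D i)) c = c` and `D i ∩ st v_i = D i`.
-/

set_option autoImplicit false

namespace RaagBP

open RaagIso

section

variable {W C I : Type} {Λ : SimpleGraph W} [Finite C]

/-- the orbits of the blocks which are edges with one free end -/
abbrev LfO (ρ : RA Λ →* Equiv.Perm C) (D : I → Set W) (co : I → Prop) : Type :=
  {p : I × C // ¬ co p.1 ∧ rep ρ (PP Λ (D p.1)) p.2 = p.2}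

theorem lf_inter {D : I → Set W} {co : I → Prop} (hL : Lf Λ D co) {i : I} (hi : ¬ co i) :
    D i ∩ st Λ (hL i hi).choose = D i := by
  obtain ⟨l, h1, h2, h3, h4⟩ := (hL i hi).choose_spec
  refine Set.inter_eq_left.2 fun a ha => ?_
  rw [h1] at ha
  rcases ha with rfl | rfl
  · exact Or.inl rfl
  · exact Or.inr h2

/-- the wall of such an orbit -/
noncomputable def lwB (ρ : RA Λ →* Equiv.Perm C) {D : I → Set W} {co : I → Prop}
    (hL : Lf Λ D co) (o : LfO ρ D co) : (cdA ρ D Empty (fun e => e.elim)).Wl :=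
  ⟨(o.1.1, (hL o.1.1 o.2.1).choose, o.1.2), by
    obtain ⟨l, h1, h2, h3, h4⟩ := (hL o.1.1 o.2.1).choose_spec
    refine ⟨?_, h3, ?_⟩
    · exact (Set.ext_iff.1 h1 _).2 (Or.inl rfl)
    · show rep ρ (PP Λ (D o.1.1 ∩ st Λ (hL o.1.1 o.2.1).choose)) o.1.2 = o.1.2
      rw [lf_inter hL o.2.1]
      exact o.2.2⟩

theorem lwB_wo (ρ : RA Λ →* Equiv.Perm C) {D : I → Set W} {co : I → Prop}
    (hL : Lf Λ D co) (o : LfO ρ D co) :
    (cdA ρ D Empty (fun e => e.elim)).wo (lwB ρ hL o) = ⟨o.1, o.2.2⟩ := by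
  refine Subtype.ext (Prod.ext rfl ?_)
  exact o.2.2

theorem lwB_uniq (ρ : RA Λ →* Equiv.Perm C) {D : I → Set W} {co : I → Prop}
    (hL : Lf Λ D co) (o : LfO ρ D co) (w : (cdA ρ D Empty (fun e => e.elim)).Wl)
    (h : (cdA ρ D Empty (fun e => e.elim)).wo w = ⟨o.1, o.2.2⟩) : w = lwB ρ hL o := by
  obtain ⟨⟨i, v, c⟩, hv, hc, hr⟩ := w
  obtain ⟨⟨i', c'⟩, ho, hr'⟩ := o
  have h1 := congrArg Subtype.val h
  have h2 : i = i' := congrArg Prod.fst h1
  have h3 : rep ρ (PP Λ (D i)) c = c' := congrArg Prod.snd h1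
  subst h2
  have hi := lf_inter hL ho
  obtain ⟨l, k1, k2, k3, k4⟩ := (hL i ho).choose_spec
  have hv' : v = (hL i ho).choose := by
    have hv2 : v ∈ D i := hv
    rw [k1] at hv2
    rcases hv2 with hv2 | hv2
    · exact hv2
    · exact absurd (hv2 ▸ hc) k4
  subst hv'
  have hr2 : rep ρ (PP Λ (D i ∩ st Λ (hL i ho).choose)) c = c := hr
  rw [hi] at hr2
  have hc' : c = c' := by rw [← h3]; exact hr2.symm
  subst hc'
  rfl

theorem cardB1 (ρ : RA Λ →* Equiv.Perm C) (D : I → Set W) (p : PcN ρ D) :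
    Nat.card {w : (cdB ρ D).Wl // qB ρ D ((cdB ρ D).wp w) = p} = nB D p.1.1 * nC ρ D p := by
  unfold nB nC
  rw [← Nat.card_prod]
  symm
  let f : {i // p.1.1 ∈ D i} × CyN ρ D p → {w : (cdB ρ D).Wl // qB ρ D ((cdB ρ D).wp w) = p} :=
    fun x => ⟨⟨(x.1.1, p.1.1, x.2.1), x.1.2, p.2.1, x.2.2.2⟩, Subtype.ext (Prod.ext rfl x.2.2.1)⟩
  refine Nat.card_eq_of_bijective f ⟨?_, ?_⟩
  · rintro ⟨⟨i, hi⟩, ⟨c, hc⟩⟩ ⟨⟨i', hi'⟩, ⟨c', hc'⟩⟩ h
    have h1 := congrArg (fun z => z.1.1) h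
    have h2 : i = i' := congrArg Prod.fst h1
    have h3 : c = c' := congrArg (fun z => z.2.2) h1
    subst h2
    subst h3
    rfl
  · obtain ⟨⟨v, d⟩, hp1, hp2⟩ := p
    rintro ⟨⟨⟨i, v', c⟩, h1, h2, h3⟩, h⟩
    have k := congrArg Subtype.val h
    have k1 : v' = v := congrArg Prod.fst k
    subst k1
    have k2 : rep ρ (PP Λ (st Λ v')) c = d := congrArg Prod.snd k
    exact ⟨⟨⟨i, h1⟩, ⟨c, k2, h3⟩⟩, rfl⟩

theorem cardB2 (ρ : RA Λ →* Equiv.Perm C) (D : I → Set W) (p : PcN ρ D) :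
    Nat.card {a : (cdB ρ D).Pc // qB ρ D a = p} = nC ρ D p := by
  unfold nC
  symm
  let f : CyN ρ D p → {a : (cdB ρ D).Pc // qB ρ D a = p} :=
    fun x => ⟨⟨(p.1.1, x.1), p.2.1, x.2.2⟩, Subtype.ext (Prod.ext rfl x.2.1)⟩
  refine Nat.card_eq_of_bijective f ⟨?_, ?_⟩
  · rintro ⟨c, hc⟩ ⟨c', hc'⟩ h
    have h1 := congrArg (fun z => z.1.1) h
    have h3 : c = c' := congrArg Prod.snd h1
    subst h3
    rfl
  · obtain ⟨⟨v, d⟩, hp1, hp2⟩ := p
    rintro ⟨⟨⟨v', c⟩, h2, h3⟩, h⟩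
    have k := congrArg Subtype.val h
    have k1 : v' = v := congrArg Prod.fst k
    subst k1
    have k2 : rep ρ (PP Λ (st Λ v')) c = d := congrArg Prod.snd k
    exact ⟨⟨c, k2, h3⟩, rfl⟩

theorem cardB3 [Finite W] [Finite I] (ρ : RA Λ →* Equiv.Perm C) {D : I → Set W} {co : I → Prop}
    (hL : Lf Λ D co) (p : PcN ρ D) :
    Nat.card {w : (cdA ρ D Empty (fun e => e.elim)).Wl //
        (cdA ρ D Empty (fun e => e.elim)).wp w = p} =
      nW ρ D co p + Nat.card {o : LfO ρ D co //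
        (cdA ρ D Empty (fun e => e.elim)).wp (lwB ρ hL o) = p} := by
  classical
  unfold nW
  have : Finite {w : WlN ρ D co // wpN ρ D co w = p} := inferInstance
  have : Finite {o : LfO ρ D co // (cdA ρ D Empty (fun e => e.elim)).wp (lwB ρ hL o) = p} :=
    inferInstance
  rw [← Nat.card_sum]
  symm
  let f : {w : WlN ρ D co // wpN ρ D co w = p} ⊕
      {o : LfO ρ D co // (cdA ρ D Empty (fun e => e.elim)).wp (lwB ρ hL o) = p} →
      {w : (cdA ρ D Empty (fun e => e.elim)).Wl //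
        (cdA ρ D Empty (fun e => e.elim)).wp w = p} := fun x =>
    match x with
    | Sum.inl w => ⟨⟨w.1.1, w.1.2.2⟩, w.2⟩
    | Sum.inr o => ⟨lwB ρ hL o.1, o.2⟩
  have finl : ∀ w, (f (Sum.inl w)).1.1 = w.1.1 := fun w => rfl
  have finr : ∀ o, (f (Sum.inr o)).1 = lwB ρ hL o.1 := fun o => rfl
  have flw : ∀ o : LfO ρ D co, (lwB ρ hL o).1.1 = o.1.1 := fun o => rfl
  have flc : ∀ o : LfO ρ D co, (lwB ρ hL o).1.2.2 = o.1.2 := fun o => rfl
  refine Nat.card_eq_of_bijective f ⟨?_, ?_⟩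
  · rintro (w | o) (w' | o') h
    · have h1 := congrArg (fun z => z.1.1) h
      exact congrArg Sum.inl (Subtype.ext (Subtype.ext h1))
    · exfalso
      have h1 : (f (Sum.inl w)).1.1.1 = (f (Sum.inr o')).1.1.1 := congrArg (fun z => z.1.1.1) h
      rw [finl, finr, flw] at h1
      exact o'.1.2.1 (h1 ▸ w.1.2.1)
    · exfalso
      have h1 : (f (Sum.inr o)).1.1.1 = (f (Sum.inl w')).1.1.1 := congrArg (fun z => z.1.1.1) h
      rw [finl, finr, flw] at h1
      exact o.1.2.1 (h1 ▸ w'.1.2.1)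
    · have h1 : (f (Sum.inr o)).1 = (f (Sum.inr o')).1 := congrArg (fun z => z.1) h
      rw [finr, finr] at h1
      have h2 : o.1.1.1 = o'.1.1.1 := by
        rw [← flw, ← flw, h1]
      have h3 : o.1.1.2 = o'.1.1.2 := by
        rw [← flc, ← flc, h1]
      exact congrArg Sum.inr (Subtype.ext (Subtype.ext (Prod.ext h2 h3)))
  · rintro ⟨w, hw⟩
    by_cases hc : co w.1.1
    · exact ⟨Sum.inl ⟨⟨w.1, hc, w.2⟩, hw⟩, rfl⟩
    · have hwo : rep ρ (PP Λ (D w.1.1)) w.1.2.2 = w.1.2.2 := by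
        obtain ⟨⟨i, v, c⟩, hv, hct, hr⟩ := w
        have hc' : ¬ co i := hc
        have hi := lf_inter hL hc'
        obtain ⟨l, k1, k2, k3, k4⟩ := (hL i hc').choose_spec
        have hv' : v = (hL i hc').choose := by
          have hv2 : v ∈ D i := hv
          rw [k1] at hv2
          rcases hv2 with hv2 | hv2
          · exact hv2
          · exact absurd (hv2 ▸ hct) k4
        subst hv'
        have hr2 : rep ρ (PP Λ (D i ∩ st Λ (hL i hc').choose)) c = c := hr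
        rw [hi] at hr2
        exact hr2
      let o : LfO ρ D co := ⟨(w.1.1, w.1.2.2), hc, hwo⟩
      have hwl : w = lwB ρ hL o := by
        refine lwB_uniq ρ hL o w (Subtype.ext (Prod.ext rfl ?_))
        exact hwo
      refine ⟨Sum.inr ⟨o, ?_⟩, Subtype.ext ?_⟩
      · rw [← hwl]
        exact hw
      · exact hwl.symm

end

end RaagBP
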