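import Pool.Agent.Lib.MP_32d917_al_bl.P03
import Pool.Agent.Lib.MP_32d917_al_bl.P08
import Pool.Agent.Lib.MP_32d917_al_bl.P09
import Pool.Agent.Lib.MP_32d917_al_bl.P10
import Pool.Agent.Lib.MP_32d917_al_bl.P12
import Pool.Agent.Lib.MP_32d917_al_bl.P13
import Pool.Agent.Lib.MP_32d917_al_bl.P15

/-!
# P16: the stabiliser of a point is universal for the reduced data
-/

set_option autoImplicit false
set_option linter.unusedVariables false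

namespace RaagBP

open RaagIso

section

variable {W C I : Type} {Λ : SimpleGraph W} [Finite C]

theorem toSy_pm [LinearOrder I] [Finite I] [Nonempty I] {ρ : RA Λ →* Equiv.Perm C}
    {D : I → Set W} {tp : I → W} (hD : BS Λ D tp) :
    PM (ZF ρ) (SyF (cdB ρ D)) (fun H _ (S : ZC ρ H) => toSy D S) where
  r H _ x y h := toSy_r D h
  nat H K _ _ F x := toSy_nat D F x
  surj H _ y := toSy_surj hD y
  inj H _ x y h := toSy_inj hD h

theorem card_sum_elim {L Lo P : Type} [Finite L] [Finite Lo] (f : L → P) (g : Lo → P) (p : P) :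
    Nat.card {l : L ⊕ Lo // Sum.elim f g l = p} =
      Nat.card {l // f l = p} + Nat.card {l // g l = p} := by
  rw [← Nat.card_sum]
  refine Nat.card_congr ?_
  refine ⟨fun l => match l with
      | ⟨Sum.inl a, h⟩ => Sum.inl ⟨a, h⟩
      | ⟨Sum.inr a, h⟩ => Sum.inr ⟨a, h⟩,
    fun l => match l with
      | Sum.inl a => ⟨Sum.inl a.1, a.2⟩
      | Sum.inr a => ⟨Sum.inr a.1, a.2⟩, ?_, ?_⟩
  · rintro ⟨a | a, h⟩ <;> rfl
  · rintro (a | a) <;> rfl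

theorem pb1 [Finite W] [LinearOrder I] [Finite I] [Nonempty I] {ρ : RA Λ →* Equiv.Perm C}
    (hρ : Trn ρ) {D : I → Set W} {tp : I → W} (hD : BS Λ D tp) {co : I → Prop}
    (hL : Lf Λ D co) (c0 : C) :
    ∃ (Lp : Type) (_ : Finite Lp) (lp : Lp → PcN ρ D) (S : Sy (cdN ρ D co Lp lp) (stb ρ c0)),
      IsU (SyF (cdN ρ D co Lp lp)) (stb ρ c0) S ∧
      (∀ o : (cdN ρ D co Lp lp).Ob, ∃ y, rm ρ c0 y = o.1.2 ∧
        ∀ k : (cdN ρ D co Lp lp).K o, (S.b o k : RA Λ) = y * (k : RA Λ) * y⁻¹) ∧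
      (∀ p : (cdN ρ D co Lp lp).Pc, ∃ y, rm ρ c0 y = p.1.2 ∧
        (S.z p : RA Λ) = y * gen p.1.1 ^ per ρ p.1.1 p.1.2 * y⁻¹) ∧
      ∀ p, Nat.card {l // lp l = p} + nW ρ D co p + nC ρ D p = nB D p.1.1 * nC ρ D p + 1 := by
  classical
  obtain ⟨S0, τ, hS0, hτ, hk⟩ := zf_isU ρ hρ c0
  have hS1 := isU_push (toSy_pm hD) hS0
  have : Finite (cdA ρ D Empty (fun e => e.elim)).Wl :=
    inferInstanceAs (Finite {p : I × W × C // p.2.1 ∈ D p.1 ∧ Ct D p.2.1 ∧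
      rep ρ (PP Λ (D p.1 ∩ st Λ p.2.1)) p.2.2 = p.2.2})
  have : Finite (cdB ρ D).Pc :=
    inferInstanceAs (Finite {p : W × C // Ct D p.1 ∧ rep ρ (PP Λ {p.1}) p.2 = p.2})
  have : Finite (cdB ρ D).Wl :=
    inferInstanceAs (Finite {p : I × W × C // p.2.1 ∈ D p.1 ∧ Ct D p.2.1 ∧
      rep ρ (PP Λ {p.2.1}) p.2.2 = p.2.2})
  have : Finite (cdB ρ D).Lp := inferInstanceAs (Finite Empty)
  obtain ⟨Lq, hLq, lq, Φ2, pm2, hb2, hz2, hc2⟩ := red_pm (cdB ρ D).Ob (cdB ρ D).K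
    (cdA ρ D Empty (fun e => e.elim)).Wl (PcN ρ D)
    (cdA ρ D Empty (fun e => e.elim)).wo (cdA ρ D Empty (fun e => e.elim)).wp
    (cdA ρ D Empty (fun e => e.elim)).z (cdA ρ D Empty (fun e => e.elim)).hz
    (Nat.card (cdB ρ D).Wl) (cdB ρ D).Pc (cdB ρ D).Wl (cdB ρ D).Lp (cdB ρ D).wo (cdB ρ D).wp
    (cdB ρ D).lp (cdB ρ D).z (cdB ρ D).hz (fB ρ D) (qB ρ D) rfl (fB_surj ρ D) (qB_surj ρ D)
    (fB_wo ρ D) (fB_wp ρ D) (fB_z ρ D) (fB_con ρ hD)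
  obtain ⟨S2, hr2, hS2⟩ := isU_pull pm2 hS1
  have hlf : ∀ l : LfO ρ D co, ∃ τ ∈ stb ρ l.1.2 ⊓ PP Λ (D l.1.1),
      zz ρ (D l.1.1) (hL l.1.1 l.2.1).choose l.1.2 * τ =
        τ * zz ρ (D l.1.1) (hL l.1.1 l.2.1).choose l.1.2 ∧
      ∀ (h1 : zz ρ (D l.1.1) (hL l.1.1 l.2.1).choose l.1.2 ∈ stb ρ l.1.2 ⊓ PP Λ (D l.1.1))
        (h2 : τ ∈ stb ρ l.1.2 ⊓ PP Λ (D l.1.1)) (H : Type) [Group H]
        (a b : H), a * b = b * a →
        ∃! φ : ↥(stb ρ l.1.2 ⊓ PP Λ (D l.1.1)) →* H,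
          φ ⟨zz ρ (D l.1.1) (hL l.1.1 l.2.1).choose l.1.2, h1⟩ = a ∧ φ ⟨τ, h2⟩ = b := by
    intro l
    obtain ⟨l', h1, h2, h3, h4⟩ := (hL l.1.1 l.2.1).choose_spec
    exact leaf_basis ρ h1 h2 l.2.2
  choose tl htl htc hta using hlf
  have hzl : ∀ l : LfO ρ D co, (cdA ρ D Lq lq).z (lwB ρ hL l) ∈ stb ρ l.1.2 ⊓ PP Λ (D l.1.1) := by
    intro l
    have h1 := (cdA ρ D Lq lq).hz (lwB ρ hL l)
    have h2 : (cdA ρ D Lq lq).wo (lwB ρ hL l) = ⟨l.1, l.2.2⟩ := lwB_wo ρ hL l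
    rw [h2] at h1
    exact h1
  obtain ⟨Φ3, pm3, hb3, hz3⟩ := absorb_pm (cdA ρ D Lq lq) (ObN ρ D co) (WlN ρ D co)
    (LfO ρ D co) (fun o => ⟨o.1, o.2.2⟩) (fun w => ⟨w.1, w.2.2⟩) (fun l => ⟨l.1, l.2.2⟩)
    (lwB ρ hL) (cdN ρ D co Lq lq).wo
    (fun a b h => Subtype.ext (congrArg (fun x => x.1) h))
    (fun a b h => Subtype.ext (congrArg (fun x => x.1) h))
    (fun a b h => Subtype.ext (congrArg (fun x => x.1) h))
    (fun o => by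
      by_cases h : co o.1.1
      · exact Or.inl ⟨⟨o.1, h, o.2⟩, rfl⟩
      · exact Or.inr ⟨⟨o.1, h, o.2⟩, rfl⟩)
    (fun o l h => by
      have h1 : o.1 = l.1 := congrArg (fun x => x.1) h
      exact l.2.1 (h1 ▸ o.2.1))
    (fun w => rfl)
    (fun w o h => by
      have h1 : (w.1.1, rep ρ (PP Λ (D w.1.1)) w.1.2.2) = o.1 := congrArg (fun x => x.1) h
      refine ⟨⟨w.1, ?_, w.2⟩, rfl⟩
      have h2 : w.1.1 = o.1.1 := congrArg (fun x => x.1) h1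
      rw [h2]
      exact o.2.1)
    (fun l => lwB_wo ρ hL l) (fun w l h => lwB_uniq ρ hL l w h)
    (fun w => (cdN ρ D co Lq lq).hz w) tl htl hzl htc
    (fun l H _ a b hab => hta l (hzl l) (htl l) H a b hab)
  have hS3 := isU_push pm3 hS2
  refine ⟨Lq ⊕ LfO ρ D co, inferInstance, _, Φ3 _ S2, hS3, ?_, ?_, ?_⟩
  · intro o
    obtain ⟨h, g, h1, h2, h3, h4⟩ := hr2
    set o2 : (cdB ρ D).Ob := ⟨o.1, o.2.2⟩ with ho2
    refine ⟨((h o2)⁻¹ : stb ρ c0) * τ o.1.2, ?_, ?_⟩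
    · rw [rm_mul]
      have h5 : rm ρ c0 (((h o2)⁻¹ : stb ρ c0) : RA Λ) = c0 := ((h o2)⁻¹ : stb ρ c0).2
      rw [h5]
      exact hτ _
    · intro k
      have hkc : rm ρ o.1.2 (k : RA Λ) = o.1.2 := k.2.1
      have h5 : (toSy D S0).b o2 k = h o2 * S2.b o2 k * (h o2)⁻¹ := by
        rw [h1 o2 k, hb2]
      have h6 : S2.b o2 k = (h o2)⁻¹ * (toSy D S0).b o2 k * h o2 := by
        rw [h5]; group
      have h7 : (((toSy D S0).b o2 k : stb ρ c0) : RA Λ) = τ o.1.2 * (k : RA Λ) * (τ o.1.2)⁻¹ := by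
        have h8 := hk o.1.2 (k : RA Λ)
        rw [hkc] at h8
        exact h8
      have h9 : (Φ3 (stb ρ c0) S2).b o k = S2.b o2 k := DFunLike.congr_fun (hb3 (stb ρ c0) S2 o) k
      refine (congrArg Subtype.val h9).trans ?_
      rw [h6]
      simp only [Subgroup.coe_mul, Subgroup.coe_inv, h7]
      group
  · intro p
    obtain ⟨h, g, h1, h2, h3, h4⟩ := hr2
    obtain ⟨p2, hp2⟩ := qB_surj ρ D p
    have h5 : (toSy D S0).z p2 = g p2 * S2.z p * (g p2)⁻¹ := by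
      rw [h2 p2, hz2, hp2]
    have h6 : S2.z p = (g p2)⁻¹ * (toSy D S0).z p2 * g p2 := by
      rw [h5]; group
    have h7 : (((toSy D S0).z p2 : stb ρ c0) : RA Λ) = τ p2.1.2 *
        gen p2.1.1 ^ per ρ p2.1.1 p2.1.2 * (τ p2.1.2)⁻¹ := by
      have h8 := hk p2.1.2 (gen p2.1.1 ^ per ρ p2.1.1 p2.1.2)
      rw [(per_mem ρ p2.1.1 p2.1.2).2] at h8
      exact h8
    have h9 : (Φ3 (stb ρ c0) S2).z p = S2.z p := hz3 _ _ _
    obtain ⟨x, hx, hx2⟩ := rep_orb ρ (PP Λ (st Λ p2.1.1)) p2.1.2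
    have h10 : p.1.1 = p2.1.1 := by rw [← hp2]; rfl
    have h11 : p.1.2 = rep ρ (PP Λ (st Λ p2.1.1)) p2.1.2 := by rw [← hp2]; rfl
    have h12 : gen p2.1.1 * x = x * gen p2.1.1 := st_comm hx
    have h13 : rm ρ p2.1.2 x⁻¹ = rep ρ (PP Λ (st Λ p2.1.1)) p2.1.2 := by
      rw [← hx2, ← rm_mul, mul_inv_cancel, rm_one, rep_rm hx, rep_rep]
    refine ⟨((g p2)⁻¹ : stb ρ c0) * τ p2.1.2 * x⁻¹, ?_, ?_⟩
    · have h14 : rm ρ c0 (((g p2)⁻¹ : stb ρ c0) : RA Λ) = c0 := ((g p2)⁻¹ : stb ρ c0).2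
      rw [rm_mul, rm_mul, h14, hτ, h13, ← h11]
    · have h15 : per ρ p.1.1 p.1.2 = per ρ p2.1.1 p2.1.2 := by
        rw [h10, h11, ← h13]
        exact per_rm (Commute.inv_right h12).eq _
      have h16 : x⁻¹ * gen p2.1.1 ^ per ρ p2.1.1 p2.1.2 * x = gen p2.1.1 ^ per ρ p2.1.1 p2.1.2 := by
        have : Commute (gen p2.1.1) x := h12
        rw [mul_assoc, (this.pow_left _).eq, ← mul_assoc, inv_mul_cancel, one_mul]
      refine (congrArg Subtype.val h9).trans ?_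
      rw [h6, h15, h10]
      simp only [Subgroup.coe_mul, Subgroup.coe_inv, h7]
      conv_lhs => rw [← h16]
      group
  · intro p
    have h1 := hc2 p
    have h2 := cardB1 ρ D p
    have h3 := cardB2 ρ D p
    have h4 := cardB3 ρ hL p
    have h5 : Nat.card {l // qB ρ D ((cdB ρ D).lp l) = p} = 0 := by
      have : IsEmpty {l // qB ρ D ((cdB ρ D).lp l) = p} := ⟨fun l => Empty.elim l.1⟩
      exact Nat.card_of_isEmpty
    have h6 := card_sum_elim lq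
      (fun l => (cdA ρ D Empty (fun e => e.elim)).wp (lwB ρ hL l)) p
    have key : ∀ n1 n2 n3 n4 n5 n6 n7 n8 n9 n10 : ℕ, n1 = n2 + n3 → n7 = n4 + n3 → n8 = n6 * n5 →
        n9 = n5 → n10 = 0 → n2 + n7 + n9 = n10 + n8 + 1 → n1 + n4 + n5 = n6 * n5 + 1 := by
      intros; omega
    exact key _ _ _ _ _ _ _ _ _ _ h6 h4 h2 h3 h5 h1

end

end RaagBP
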