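import Pool.Agent.Lib.MP_32d917_al_bl.M13
import Pool.Agent.Lib.MP_32d917_al_bl.M14
import Pool.Agent.Lib.MP_32d917_al_bl.P04
import Pool.Agent.Lib.MP_32d917_al_bl.P16

/-!
# M15: a matching gives an isomorphism
-/

set_option autoImplicit false

namespace RaagBL

open RaagIso RaagGP RaagBP

variable {V W V' W' C C' : Type} {Γ : SimpleGraph V} {Λ : SimpleGraph W} {π : W → V}
  {Γ' : SimpleGraph V'} {Λ' : SimpleGraph W'} {π' : W' → V'} {ρ : RA Λ →* Equiv.Perm C}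
  {ρ' : RA Λ' →* Equiv.Perm C'} {m m' : ℕ} {B : Fin m → Set V} {B' : Fin m' → Set V'}

private theorem m15_nonempty (hX : Ctx Γ Λ π B) : Nonempty (Fin m) := by
  obtain ⟨a, -⟩ := hX.big
  obtain ⟨i, -⟩ := hX.glu.cov a
  exact ⟨i⟩

private theorem m15_arith {nPt nPt' pr pr' b b' nc nc' nw nw' L L' : ℕ} (hb : 0 < b) (hb' : 0 < b')
    (hp : 0 < pr) (hp' : 0 < pr') (h1 : nPt = nc * pr) (h1' : nPt' = nc' * pr')
    (hr : nPt * pr' * (b - 1) = nPt' * pr * (b' - 1)) (hw : nw = nw')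
    (h2 : L + nw + nc = b * nc + 1) (h2' : L' + nw' + nc' = b' * nc' + 1) : L = L' := by
  obtain ⟨b, rfl⟩ : ∃ k, b = k + 1 := ⟨b - 1, by omega⟩
  obtain ⟨b', rfl⟩ : ∃ k, b' = k + 1 := ⟨b' - 1, by omega⟩
  simp only [Nat.add_sub_cancel] at hr
  subst h1 h1' hw
  have h3 : pr * pr' * (nc * b) = pr * pr' * (nc' * b') := by
    calc pr * pr' * (nc * b) = nc * pr * pr' * b := by ring
      _ = nc' * pr' * pr * b' := hr
      _ = pr * pr' * (nc' * b') := by ring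
  have h4 : nc * b = nc' * b' := Nat.eq_of_mul_eq_mul_left (Nat.mul_pos hp hp') h3
  have h5 : (b + 1) * nc = nc * b + nc := by ring
  have h6 : (b' + 1) * nc' = nc' * b' + nc' := by ring
  omega

theorem iso_of_mch [Finite V] [Finite V'] [Finite W] [Finite W'] [Finite C] [Finite C']
    (hX : Ctx Γ Λ π B) (hX' : Ctx Γ' Λ' π' B') (ht : Trn ρ) (ht' : Trn ρ')
    {β : Fin m → C → Fin m'} {F : Fin m → C → C'} {τ : Fin m → C → V → V'}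
    {Φ : Fin m → C → RA Λ → RA Λ'} {σ : V → C → V' × C'} {ε : V → C → ℤˣ}
    (hM : Mch Γ Γ' π π' B B' ρ ρ' β F τ Φ σ ε) (c0 : C) (c0' : C') :
    Nonempty (stb ρ c0 ≃* stb ρ' c0') := by
  have hM0 := mch0_of_mch hM
  have : Nonempty (Fin m) := m15_nonempty hX
  have : Nonempty (Fin m') := m15_nonempty hX'
  obtain ⟨tp, hD⟩ := bs_ex hX
  obtain ⟨tp', hD'⟩ := bs_ex hX'
  obtain ⟨Lp, hLp, lp, S, hS, -, -, hc⟩ := pb1 ht hD (lf_of hX) c0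
  obtain ⟨Lp', hLp', lp', S', hS', -, -, hc'⟩ := pb1 ht' hD' (lf_of hX') c0'
  obtain ⟨eo, heo⟩ := eo_ex hM0
  obtain ⟨ep, hep⟩ := ep_ex hX hX' hM0
  obtain ⟨ew, hew⟩ := ew_ex hX hX' hM0
  -- loops
  have hcard : ∀ p, Nat.card {l // lp l = p} = Nat.card {l // lp' l = ep p} := by
    intro p
    obtain ⟨h1, h2⟩ := hep p
    have hct : Cut B (π p.1.1) := (ct_iff p.1.1).1 p.2.1
    have hct' : Cut B' (π' (ep p).1.1) := (ct_iff (ep p).1.1).1 (ep p).2.1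
    have h3 := hM.rank (π p.1.1) p.1.2 p.1.1 (ep p).1.1 hct rfl h1
    have h4 := nc_npt (ρ := ρ) hX p
    have h5 := nc_npt (ρ := ρ') hX' (ep p)
    have h6 := nw_eq hX hX' hM0 hep p
    -- the points `(σ ..).2` and `(ep p).1.2` are in the same orbit
    obtain ⟨u, hu, hu2⟩ := rep_orb ρ' (PP Λ' (st Λ' (ep p).1.1)) (σ (π p.1.1) p.1.2).2
    rw [← h2] at hu2
    obtain ⟨b, hb, hb1⟩ := cut_fib hX' hct'
    have h1' : ∀ b, π' b = π' (ep p).1.1 → b = (ep p).1.1 := by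
      intro b' hb'
      rw [hb1 b' hb', hb1 (ep p).1.1 rfl]
    have hu' : u ∈ PB Λ' π' (st Γ' (π' (ep p).1.1)) := by
      rw [← pp_st hX'.bu h1']
      exact hu
    have h7 : pr ρ' (ep p).1.1 (σ (π p.1.1) p.1.2).2 = pr ρ' (ep p).1.1 (ep p).1.2 := by
      rw [← hu2]
      exact pr_comm (cen_sng hX'.bu rfl h1' hu') _
    have h8 : nPt Γ' π' ρ' (π' (ep p).1.1) (σ (π p.1.1) p.1.2).2 =
        nPt Γ' π' ρ' (π' (ep p).1.1) (ep p).1.2 := by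
      have ho : Ob π' ρ' (st Γ' (π' (ep p).1.1)) (ep p).1.2 (σ (π p.1.1) p.1.2).2 :=
        ⟨u, hu', hu2⟩
      unfold nPt
      refine Nat.card_congr (Equiv.subtypeEquivRight fun d => ⟨fun h => ob_trans ho h,
        fun h => ob_trans (ob_symm ho) h⟩)
    rw [← h1, h7, h8] at h3
    have h9 := hc p
    have h10 := hc' (ep p)
    have h11 : nB (fun i => π ⁻¹' B i) p.1.1 = nBl B (π p.1.1) := nb_nbl p.1.1
    have h12 : nB (fun i => π' ⁻¹' B' i) (ep p).1.1 = nBl B' (π' (ep p).1.1) :=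
      nb_nbl (ep p).1.1
    rw [h11] at h9
    rw [h12] at h10
    have hb0 : 0 < nBl B (π p.1.1) := by
      obtain ⟨i, j, hij, hi, hj⟩ := hct
      have : Nonempty {i // π p.1.1 ∈ B i} := ⟨⟨i, hi⟩⟩
      exact Nat.card_pos
    have hb0' : 0 < nBl B' (π' (ep p).1.1) := by
      obtain ⟨i, j, hij, hi, hj⟩ := hct'
      have : Nonempty {i // π' (ep p).1.1 ∈ B' i} := ⟨⟨i, hi⟩⟩
      exact Nat.card_pos
    exact m15_arith hb0 hb0' (pr_pos (ρ := ρ) p.1.1 p.1.2) (pr_pos (ρ := ρ') (ep p).1.1 (ep p).1.2)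
      h4 h5 h3 h6 h9 h10
  obtain ⟨el, hel⟩ := loops_match lp lp' ep hcard
  -- isomorphisms of the groups of the core orbits
  have hal : ∀ o : ObN ρ (fun i => π ⁻¹' B i) (NB Γ B), ∃ al :
      (cdN ρ (fun i => π ⁻¹' B i) (NB Γ B) Lp lp).K o ≃*
        (cdN ρ' (fun i => π' ⁻¹' B' i) (NB Γ' B') Lp' lp').K (eo o), ∀ l,
      ((al l : (cdN ρ' (fun i => π' ⁻¹' B' i) (NB Γ' B') Lp' lp').K (eo o)) : RA Λ') =
        cn ρ' (PP Λ' (π' ⁻¹' B' (β o.1.1 o.1.2))) (F o.1.1 o.1.2) * Φ o.1.1 o.1.2 l *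
          (cn ρ' (PP Λ' (π' ⁻¹' B' (β o.1.1 o.1.2))) (F o.1.1 o.1.2))⁻¹ := by
    intro o
    obtain ⟨al, h1⟩ := al_ex hM0 o.2.1 o.1.2
    have h2 : (stb ρ' (rep ρ' (PP Λ' (π' ⁻¹' B' (β o.1.1 o.1.2))) (F o.1.1 o.1.2)) ⊓
        PP Λ' (π' ⁻¹' B' (β o.1.1 o.1.2)) : Subgroup (RA Λ')) =
          (cdN ρ' (fun i => π' ⁻¹' B' i) (NB Γ' B') Lp' lp').K (eo o) := by
      show _ = stb ρ' (eo o).1.2 ⊓ PP Λ' (π' ⁻¹' B' (eo o).1.1)
      rw [heo o]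
    refine ⟨al.trans (MulEquiv.subgroupCongr h2), fun l => ?_⟩
    exact h1 l
  choose al hal using hal
  have hwo : ∀ w : WlN ρ (fun i => π ⁻¹' B i) (NB Γ B),
      eo ((cdN ρ (fun i => π ⁻¹' B i) (NB Γ B) Lp lp).wo w) =
        (cdN ρ' (fun i => π' ⁻¹' B' i) (NB Γ' B') Lp' lp').wo (ew w) := by
    intro w
    apply Subtype.ext
    rw [heo]
    obtain ⟨h1, h2, h3⟩ := hew w
    rw [h1] at h3
    obtain ⟨h4, h5⟩ := ew_wo hX hX' hM0 w.2.1 w.1.2.2 h3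
    show (β w.1.1 (rep ρ (PP Λ (π ⁻¹' B w.1.1)) w.1.2.2), _) =
      ((ew w).1.1, rep ρ' (PP Λ' (π' ⁻¹' B' (ew w).1.1)) (ew w).1.2.2)
    refine Prod.ext ?_ ?_
    · show β w.1.1 (rep ρ (PP Λ (π ⁻¹' B w.1.1)) w.1.2.2) = (ew w).1.1
      rw [h1, h4]
    · show rep ρ' (PP Λ' (π' ⁻¹' B' (β w.1.1 (rep ρ (PP Λ (π ⁻¹' B w.1.1)) w.1.2.2))))
        (F w.1.1 (rep ρ (PP Λ (π ⁻¹' B w.1.1)) w.1.2.2)) = _
      rw [h1, h4, h5]
  refine twi_iso (D := cdN ρ (fun i => π ⁻¹' B i) (NB Γ B) Lp lp)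
    (D' := cdN ρ' (fun i => π' ⁻¹' B' i) (NB Γ' B') Lp' lp') (eo := eo) (ep := ep) (ew := ew)
    (el := el) (α := al) (ε := fun p => ε (π p.1.1) p.1.2) ⟨hwo, ?_, hel, ?_⟩ hS hS'
  · intro w
    exact (nw_iff hX hX' hM0 hep hew w).symm
  · intro w
    obtain ⟨h1, h2, h3⟩ := hew w
    rw [h1] at h3
    have hct : Cut B (π w.1.2.1) := (ct_iff w.1.2.1).1 w.2.2.2.1
    obtain ⟨x, hx, hx2⟩ := al_z hX hX' hM0 w.2.1 w.1.2.2 (a := w.1.2.1) w.2.2.1 hct h2 rfl h3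
    obtain ⟨h4, h5⟩ := ew_wo hX hX' hM0 w.2.1 w.1.2.2 h3
    refine ⟨x, ?_, ?_⟩
    · refine (congrArg (fun o => x ∈ (cdN ρ' (fun i => π' ⁻¹' B' i) (NB Γ' B') Lp' lp').K o)
        (hwo w)).mpr ?_
      show x ∈ stb ρ' (rep ρ' (PP Λ' (π' ⁻¹' B' (ew w).1.1)) (ew w).1.2.2) ⊓
        PP Λ' (π' ⁻¹' B' (ew w).1.1)
      rw [h1]
      exact hx
    · rw [hal]
      show cn ρ' (PP Λ' (π' ⁻¹' B' (β w.1.1 (rep ρ (PP Λ (π ⁻¹' B w.1.1)) w.1.2.2))))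
          (F w.1.1 (rep ρ (PP Λ (π ⁻¹' B w.1.1)) w.1.2.2)) *
            Φ w.1.1 (rep ρ (PP Λ (π ⁻¹' B w.1.1)) w.1.2.2)
              (zz ρ (π ⁻¹' B w.1.1) w.1.2.1 w.1.2.2) *
            (cn ρ' (PP Λ' (π' ⁻¹' B' (β w.1.1 (rep ρ (PP Λ (π ⁻¹' B w.1.1)) w.1.2.2))))
              (F w.1.1 (rep ρ (PP Λ (π ⁻¹' B w.1.1)) w.1.2.2)))⁻¹ = _
      rw [h4]
      refine Eq.trans hx2 ?_
      have h6 : ε (π w.1.2.1) (rep ρ (PP Λ (st Λ w.1.2.1)) w.1.2.2) =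
          ε (π w.1.2.1) w.1.2.2 := by
        obtain ⟨u, hu, hu2⟩ := rep_orb ρ (PP Λ (st Λ w.1.2.1)) w.1.2.2
        obtain ⟨b, hb, hb1⟩ := cut_fib hX hct
        have h1' : ∀ b, π b = π w.1.2.1 → b = w.1.2.1 := by
          intro b' hb'
          rw [hb1 b' hb', hb1 w.1.2.1 rfl]
        rw [pp_st hX.bu h1'] at hu
        exact (hM.peps _ _ _ hct ⟨u, hu, hu2⟩).symm
      show _ = x * zz ρ' (π' ⁻¹' B' (ew w).1.1) (ew w).1.2.1 (ew w).1.2.2 ^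
        ((ε (π w.1.2.1) (rep ρ (PP Λ (st Λ w.1.2.1)) w.1.2.2) : ℤˣ) : ℤ) * x⁻¹
      rw [h6, h1]

end RaagBL
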