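import Pool.Agent.Lib.MP_32d917_al_bl.M08
import Pool.Agent.Lib.MP_32d917_al_bl.M15
import Pool.Agent.Lib.MP_32d917_al_bl.KM5
import Pool.Agent.Lib.MP_32d917_al_bl.KP3
import Pool.Agent.Lib.MP_32d917_al_bl.KE4

/-!
# KF: the isomorphism problem for subgroups of finite index of graph products over block graphs: assembly
-/

set_option autoImplicit false
set_option synthInstance.maxSize 2000

namespace RaagBL

open LatIso RaagIso RaagGP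
open AdmIso (Wd mvs fM cmW)

/-- the class of groups -/
def IsClsB (G : Type) [Group G] : Prop :=
  ∃ (V W : Type) (_ : Finite V) (_ : Finite W) (Γ : SimpleGraph V) (Λ : SimpleGraph W)
    (π : W → V) (m : ℕ) (B : Fin m → Set V) (H : Subgroup (RA Λ)), Ctx Γ Λ π B ∧
    H.FiniteIndex ∧ Nonempty (G ≃* H)

theorem noCertB_sound (P Q : Pres) (h : NoCertB P Q) : ¬ Nonempty (P.Grp ≃* Q.Grp) := by
  rintro ⟨e⟩
  obtain ⟨⟨c, c'⟩, ⟨hv, z, hz⟩, ⟨hv', z', hz'⟩, hno⟩ := h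
  simp only at hv z hz hv' z' hz' hno
  obtain ⟨ρ, hρ⟩ := rho_exists2 c.1.1 hv.1.1
  obtain ⟨ρ', hρ'⟩ := rho_exists2 c'.1.1 hv'.1.1
  obtain ⟨ht, ⟨i⟩⟩ := cert_sound2 hv.1.1 hρ hz
  obtain ⟨ht', ⟨i'⟩⟩ := cert_sound2 hv'.1.1 hρ' hz'
  obtain ⟨β, F, τ, Φ, σ, ε, hM⟩ := mch_of_iso (kctx_code hv) (kctx_code hv') ht ht'
    (i.symm.trans (e.trans i'))
  obtain ⟨t, ht, hg⟩ := good_of_mch hv hv' hρ hρ' hM
  exact hg (hno t ht)

theorem clsB_code (P : Pres) (h : IsClsB P.Grp) : ∃ c, CodeForB P c := by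
  obtain ⟨V, W, _, _, Γ, Λ, π, m, B, H, hX, hH, ⟨e⟩⟩ := h
  obtain ⟨c, hv, ρ, hρ, ht, ⟨i⟩⟩ := codeB_exists hX H hH
  obtain ⟨z, hz⟩ := cert_complete2 hv.1.1 hρ ht (e.trans i)
  exact ⟨c, hv, z, hz⟩

theorem noCertB_complete (P Q : Pres) (hP : IsClsB P.Grp) (hQ : IsClsB Q.Grp)
    (h : ¬ Nonempty (P.Grp ≃* Q.Grp)) : NoCertB P Q := by
  obtain ⟨c, hv, z, hz⟩ := clsB_code P hP
  obtain ⟨c', hv', z', hz'⟩ := clsB_code Q hQ
  refine ⟨(c, c'), ⟨hv, z, hz⟩, ⟨hv', z', hz'⟩, ?_⟩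
  intro t _
  by_contra hg
  apply h
  obtain ⟨ρ, hρ⟩ := rho_exists2 c.1.1 hv.1.1
  obtain ⟨ρ', hρ'⟩ := rho_exists2 c'.1.1 hv'.1.1
  obtain ⟨ht, ⟨i⟩⟩ := cert_sound2 hv.1.1 hρ hz
  obtain ⟨ht', ⟨i'⟩⟩ := cert_sound2 hv'.1.1 hρ' hz'
  obtain ⟨β, F, τ, Φ, σ, ε, hM⟩ := mch_of_good hv hv' hρ hρ' hg
  obtain ⟨j⟩ := iso_of_mch (kctx_code hv) (kctx_code hv') ht ht' hM 0 0
  exact ⟨i.trans (j.trans i'.symm)⟩

/-- The isomorphism problem is solvable for the class `IsClsB`. -/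
theorem finalB : ∃ f : Pres × Pres →. Bool, Partrec f ∧ ∀ P Q : Pres,
    IsClsB P.Grp → IsClsB Q.Grp → ∃ b ∈ f (P, Q), (b = true ↔ Nonempty (P.Grp ≃* Q.Grp)) := by
  obtain ⟨f, hf, h1, h2, h3⟩ := par_search iso_re noCertB_re
  refine ⟨f, hf, fun P Q hP hQ => ?_⟩
  have g2 : true ∈ f (P, Q) → Nonempty (P.Grp ≃* Q.Grp) := fun h => h2 (P, Q) h
  have g3 : false ∈ f (P, Q) → NoCertB P Q := fun h => h3 (P, Q) h
  have hd : (f (P, Q)).Dom := by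
    apply h1
    by_cases h : Nonempty (P.Grp ≃* Q.Grp)
    · exact Or.inl h
    · exact Or.inr (noCertB_complete P Q hP hQ h)
  refine ⟨(f (P, Q)).get hd, Part.get_mem hd, ?_⟩
  have hm := Part.get_mem hd
  rcases hb : (f (P, Q)).get hd with _ | _
  · rw [hb] at hm
    have h4 := noCertB_sound P Q (g3 hm)
    exact ⟨fun h => by simp at h, fun h => absurd h h4⟩
  · rw [hb] at hm
    exact ⟨fun _ => g2 hm, fun _ => rfl⟩

end RaagBL
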