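import Pool.Agent.Lib.MP_32d917_al_bl.O01
import Pool.Agent.Lib.MP_32d917_al_bl.BG3

/-!
# S09: the local matching of an edge block (90 min)

`A = PB (B i)`, `B i = {v, w}`, `a`, `b` the only letters over `v`, `w` (`hX.sng`, `Edg`), adjacent (`adj_lift`): `A` consists of the `gen a ^ s * gen b ^ t`, `s t : ℤ` (`el2`), it is commutative, `s`, `t` are determined by the element (`uniq2`: `gen a ^ s * gen b ^ t = gen a ^ s' * gen b ^ t'`
gives `gen a ^ (s - s') = gen b ^ (t' - t)`, an element of `PB {v}` and `PB {w}`, so `1` (`gg_inter`), `gen_zpow_inj`). The same for `a'`, `b'`.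
`k = pr ρ a p`, `l = pr ρ b p`, `k'`, `l'` for `p'`: positive. `L = {(s, t) : rm ρ p (gen a ^ s * gen b ^ t) = p}` is a subgroup of `ℤ × ℤ` containing `(k, 0)`, `(0, l)`; the same for `L'`.
`lat_int`: from `Lat` we get for all `s t : ℤ` with `(s, t) ∈ L` integers `s'`, `t'` with `s' * k = s * k'`, `t' * l = t * l'`, `(η * s', θ * t') ∈ L'` (`η`, `θ` the signs): reduce `s`, `t` mod `k`, `l` (`s = s0 + k * q`, `(s0, t0) ∈ L`), apply `Lat` to `s0.toNat`, `t0.toNat`, and `s' = s0' + k' * q`. The two cases of `Lat`: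
if `η = θ`: `(x', y') ∈ L'`, so `(η x', θ y') = ± (x', y') ∈ L'`. If `η ≠ θ`: `rm ρ' p' (gen a' ^ x') = rm ρ' p' (gen b' ^ y')` means `(x', -y') ∈ L'`, so `(η x', θ y') = ± (x', - y') ∈ L'`.
`Φ c g` for `g = gen a ^ s * gen b ^ t ∈ SK (B i) c`: `gen a' ^ (η * s') * gen b' ^ (θ * t')` where `s' * k = s * k'`, `t' * l = t * l'` (unique as `k, l > 0`), where `η = ε v p`, `θ = ε w p`; `F1 = fun _ => p'`, `τ1 = fun _ u => if u = v then v' else w'`.
For `c` in the orbit `SK (B i) c = SK (B i) p` (commutative), the periods at `c` are `k`, `l` (`pr_comm`), and `ε v c = ε v p` (`hε`, `PB (B i) ≤ PB (st v)`), `ε w c = ε w p`.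
`tbij`, `tadj`, `tcut` (all four vertices are cut: `NB`, `edg_cut` in `BG3`): direct; `orb`, `wtau`, `wal`: `B' i' ⊆ st v'`, `F1` is constant (`ob_refl`). `wali`: `τ1 c v1 = τ1 d v2` gives `v1 = v2` (`v' ≠ w'`), and `Ob (B i ∩ st v1) = Ob (B i)`. `wals`: every `c'` in the orbit of `p'` works with `c = p`.
`map`: `lat_int`. `mul`: uniqueness of `s'`, `t'`. `inj`: `s' * k = s * k'` determines `s` (`k' > 0`). `surj`: `lat_int` for the other direction. `con`: `g' = 1`, `g * l * g⁻¹ = l`. `sgn`: `s = k`, `t = 0`: `s' = k'`, `t' = 0`.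
`Lat` is the bounded form for codes.
-/

set_option autoImplicit false

namespace RaagBL

open RaagIso RaagGP

/-- bounded form of: multiplication by `s * pr ρ' a' p' / pr ρ a p` and `t * pr ρ' b' p' / pr ρ b p` maps the lattice of
`p` to the lattice of `p'` -/
def Lat {W W' C C' : Type} {Λ : SimpleGraph W} {Λ' : SimpleGraph W'} (ρ : RA Λ →* Equiv.Perm C)
    (ρ' : RA Λ' →* Equiv.Perm C') (a b : W) (a' b' : W') (p : C) (p' : C') (s t : ℤˣ) : Prop :=
  ∀ x y : ℕ, x < pr ρ a p → y < pr ρ b p → rm ρ p (gen a ^ x * gen b ^ y) = p →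
    ∃ x' y' : ℕ, x' < pr ρ' a' p' ∧ y' < pr ρ' b' p' ∧ x' * pr ρ a p = x * pr ρ' a' p' ∧
      y' * pr ρ b p = y * pr ρ' b' p' ∧
      (s = t → rm ρ' p' (gen a' ^ x' * gen b' ^ y') = p') ∧
      (s ≠ t → rm ρ' p' (gen a' ^ x') = rm ρ' p' (gen b' ^ y'))

variable {V W V' W' C C' : Type} {Γ : SimpleGraph V} {Λ : SimpleGraph W} {π : W → V}
  {Γ' : SimpleGraph V'} {Λ' : SimpleGraph W'} {π' : W' → V'} {ρ : RA Λ →* Equiv.Perm C}
  {ρ' : RA Λ' →* Equiv.Perm C'} {m m' : ℕ} {B : Fin m → Set V} {B' : Fin m' → Set V'}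

private theorem s9_mul {Λ : SimpleGraph W} {a b : W} (hc : Commute (gen a : RA Λ) (gen b))
    (s t s' t' : ℤ) : (gen a : RA Λ) ^ s * gen b ^ t * (gen a ^ s' * gen b ^ t') =
      gen a ^ (s + s') * gen b ^ (t + t') := by
  have h1 : (gen b : RA Λ) ^ t * gen a ^ s' = gen a ^ s' * gen b ^ t := (hc.zpow_zpow s' t).eq.symm
  calc (gen a : RA Λ) ^ s * gen b ^ t * (gen a ^ s' * gen b ^ t') =
      gen a ^ s * (gen b ^ t * gen a ^ s') * gen b ^ t' := by group
    _ = gen a ^ s * (gen a ^ s' * gen b ^ t) * gen b ^ t' := by rw [h1]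
    _ = _ := by rw [zpow_add, zpow_add]; group

private theorem s9_inv {Λ : SimpleGraph W} {a b : W} (hc : Commute (gen a : RA Λ) (gen b))
    (s t : ℤ) : ((gen a : RA Λ) ^ s * gen b ^ t)⁻¹ = gen a ^ (-s) * gen b ^ (-t) := by
  rw [mul_inv_rev, ← zpow_neg, ← zpow_neg]
  exact (hc.zpow_zpow (-s) (-t)).eq.symm

private theorem s9_uniq {Λ : SimpleGraph W} {a b : W} (hne : a ≠ b) {m n m' n' : ℤ}
    (h : (gen a : RA Λ) ^ m * gen b ^ n = gen a ^ m' * gen b ^ n') : m = m' ∧ n = n' := by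
  classical
  have h1 := congrArg (ab Λ a) h
  have h2 := congrArg (ab Λ b) h
  simp only [map_mul, map_zpow, ab_gen, if_true, hne.symm, hne, if_false, one_zpow, mul_one,
    one_mul] at h1 h2
  have h3 := congrArg Multiplicative.toAdd h1
  have h4 := congrArg Multiplicative.toAdd h2
  simp only [toAdd_zpow, toAdd_ofAdd, smul_eq_mul, mul_one] at h3 h4
  exact ⟨h3, h4⟩

/-- the lattice -/
private def LL (ρ : RA Λ →* Equiv.Perm C) (a b : W) (p : C) (s t : ℤ) : Prop :=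
  (gen a : RA Λ) ^ s * gen b ^ t ∈ stb ρ p

private theorem s9_add {a b : W} {p : C} (hc : Commute (gen a : RA Λ) (gen b)) {s t s' t' : ℤ}
    (h : LL ρ a b p s t) (h' : LL ρ a b p s' t') : LL ρ a b p (s + s') (t + t') := by
  unfold LL at *
  rw [← s9_mul hc]
  exact mul_mem h h'

private theorem s9_neg {a b : W} {p : C} (hc : Commute (gen a : RA Λ) (gen b)) {s t : ℤ}
    (h : LL ρ a b p s t) : LL ρ a b p (-s) (-t) := by
  unfold LL at *
  rw [← s9_inv hc]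
  exact inv_mem h

private theorem s9_sgn {a b : W} {p : C} (hc : Commute (gen a : RA Λ) (gen b)) {s t : ℤ} (η : ℤˣ)
    (h : LL ρ a b p s t) : LL ρ a b p ((η : ℤ) * s) ((η : ℤ) * t) := by
  rcases Int.units_eq_one_or η with rfl | rfl
  · simpa using h
  · have := s9_neg hc h
    simpa using this

private theorem s9_pera {a b : W} {p : C} (q : ℤ) : LL ρ a b p ((pr ρ a p : ℤ) * q) 0 := by
  unfold LL
  rw [zpow_zero, mul_one, mem_stb, pr_zpow]
  exact dvd_mul_right _ _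

private theorem s9_perb {a b : W} {p : C} (q : ℤ) : LL ρ a b p 0 ((pr ρ b p : ℤ) * q) := by
  unfold LL
  rw [zpow_zero, one_mul, mem_stb, pr_zpow]
  exact dvd_mul_right _ _

private theorem s9_lat {a b : W} {a' b' : W'} {p : C} {p' : C'} {η θ : ℤˣ}
    (hc : Commute (gen a : RA Λ) (gen b)) (hc' : Commute (gen a' : RA Λ') (gen b'))
    (h : Lat ρ ρ' a b a' b' p p' η θ) (hk : 0 < pr ρ a p) (hl : 0 < pr ρ b p) {s t : ℤ}
    (hst : LL ρ a b p s t) : ∃ s' t' : ℤ, s' * (pr ρ a p : ℤ) = s * (pr ρ' a' p' : ℤ) ∧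
      t' * (pr ρ b p : ℤ) = t * (pr ρ' b' p' : ℤ) ∧
      LL ρ' a' b' p' ((η : ℤ) * s') ((θ : ℤ) * t') := by
  set k := pr ρ a p with hkd
  set l := pr ρ b p with hld
  set k' := pr ρ' a' p' with hkd'
  set l' := pr ρ' b' p' with hld'
  have hk0 : (0 : ℤ) < k := by exact_mod_cast hk
  have hl0 : (0 : ℤ) < l := by exact_mod_cast hl
  obtain ⟨x, hx⟩ := Int.eq_ofNat_of_zero_le (Int.emod_nonneg s hk0.ne')
  obtain ⟨y, hy⟩ := Int.eq_ofNat_of_zero_le (Int.emod_nonneg t hl0.ne')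
  have hxk : x < k := by
    have := Int.emod_lt_of_pos s hk0
    rw [hx] at this
    exact_mod_cast this
  have hyl : y < l := by
    have := Int.emod_lt_of_pos t hl0
    rw [hy] at this
    exact_mod_cast this
  have hs := Int.emod_add_mul_ediv s k
  have ht := Int.emod_add_mul_ediv t l
  rw [hx] at hs
  rw [hy] at ht
  have h0 : LL ρ a b p x y := by
    have h1 := s9_add hc (s9_add hc hst (s9_pera (ρ := ρ) (a := a) (b := b) (p := p) (-(s / k))))
      (s9_perb (ρ := ρ) (a := a) (b := b) (p := p) (-(t / l)))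
    have e1 : s + (pr ρ a p : ℤ) * (-(s / k)) + 0 = x := by
      rw [← hkd]
      linarith
    have e2 : t + 0 + (pr ρ b p : ℤ) * (-(t / l)) = y := by
      rw [← hld]
      linarith
    rw [e1, e2] at h1
    exact h1
  have h0' : rm ρ p (gen a ^ x * gen b ^ y) = p := by
    unfold LL at h0
    rw [mem_stb, zpow_natCast, zpow_natCast] at h0
    exact h0
  obtain ⟨x', y', -, -, h1, h2, h3, h4⟩ := h x y hxk hyl h0'
  have h1z : (x' : ℤ) * k = x * k' := by exact_mod_cast h1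
  have h2z : (y' : ℤ) * l = y * l' := by exact_mod_cast h2
  have hL : LL ρ' a' b' p' ((η : ℤ) * x') ((θ : ℤ) * y') := by
    by_cases he : η = θ
    · subst he
      apply s9_sgn hc'
      unfold LL
      rw [mem_stb, zpow_natCast, zpow_natCast]
      exact h3 rfl
    · have h5 := h4 he
      have h6 : LL ρ' a' b' p' (x' : ℤ) (-(y' : ℤ)) := by
        unfold LL
        rw [mem_stb, rm_mul, zpow_natCast, h5, zpow_neg, zpow_natCast]
        exact rm_inv_r p' _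
      have h7 : (θ : ℤ) * y' = (η : ℤ) * (-(y' : ℤ)) := by
        rcases Int.units_eq_one_or η with rfl | rfl <;> rcases Int.units_eq_one_or θ with rfl | rfl
        · exact absurd rfl he
        · simp
        · simp
        · exact absurd rfl he
      rw [h7]
      exact s9_sgn hc' η h6
  refine ⟨x' + k' * (s / k), y' + l' * (t / l), ?_, ?_, ?_⟩
  · calc ((x' : ℤ) + k' * (s / k)) * k = x' * k + k' * (k * (s / k)) := by ring
      _ = x * k' + k' * (k * (s / k)) := by rw [h1z]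
      _ = (x + k * (s / k)) * k' := by ring
      _ = s * k' := by rw [hs]
  · calc ((y' : ℤ) + l' * (t / l)) * l = y' * l + l' * (l * (t / l)) := by ring
      _ = y * l' + l' * (l * (t / l)) := by rw [h2z]
      _ = (y + l * (t / l)) * l' := by ring
      _ = t * l' := by rw [ht]
  · have h5 := s9_add hc' (s9_add hc' hL
      (s9_pera (ρ := ρ') (a := a') (b := b') (p := p') ((η : ℤ) * (s / k))))
      (s9_perb (ρ := ρ') (a := a') (b := b') (p := p') ((θ : ℤ) * (t / l)))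
    have e1 : (η : ℤ) * x' + (pr ρ' a' p' : ℤ) * ((η : ℤ) * (s / k)) + 0 =
        (η : ℤ) * (x' + k' * (s / k)) := by
      rw [← hkd']
      ring
    have e2 : (θ : ℤ) * y' + 0 + (pr ρ' b' p' : ℤ) * ((θ : ℤ) * (t / l)) =
        (θ : ℤ) * (y' + l' * (t / l)) := by
      rw [← hld']
      ring
    rw [e1, e2] at h5
    exact h5

private theorem s9_form {S : Set V} {a b : W} (hS : S = {π a, π b})
    (hc : Commute (gen a : RA Λ) (gen b)) (ha : ∀ c, π c = π a → c = a)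
    (hb : ∀ c, π c = π b → c = b) {g : RA Λ} (hg : g ∈ PB Λ π S) :
    ∃ s t : ℤ, g = gen a ^ s * gen b ^ t := by
  subst hS
  refine h05_ind (P := fun g => ∃ s t : ℤ, g = gen a ^ s * gen b ^ t) ?_ ⟨0, 0, by simp⟩ ?_ ?_ hg
  · intro c hc'
    rcases hc' with h | h
    · rw [ha c h]
      exact ⟨1, 0, by simp⟩
    · rw [hb c h]
      exact ⟨0, 1, by simp⟩
  · rintro x y - - ⟨s, t, rfl⟩ ⟨s', t', rfl⟩
    exact ⟨s + s', t + t', s9_mul hc s t s' t'⟩
  · rintro x - ⟨s, t, rfl⟩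
    exact ⟨-s, -t, s9_inv hc s t⟩

private theorem s9_memf {S : Set V} {a b : W} (hS : S = {π a, π b}) (s t : ℤ) :
    (gen a : RA Λ) ^ s * gen b ^ t ∈ PB Λ π S := by
  subst hS
  have h1 : (gen a : RA Λ) ∈ PB Λ π {π a, π b} := pb_gen (by simp)
  have h2 : (gen b : RA Λ) ∈ PB Λ π {π a, π b} := pb_gen (by simp)
  exact mul_mem (zpow_mem h1 s) (zpow_mem h2 t)

open Classical in
/-- the map of the stabilisers -/
private noncomputable def PF (Λ : SimpleGraph W) (Λ' : SimpleGraph W') (a b : W) (a' b' : W')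
    (k l k' l' : ℕ) (η θ : ℤˣ) (g : RA Λ) : RA Λ' :=
  if h : ∃ q : (ℤ × ℤ) × (ℤ × ℤ), g = gen a ^ q.1.1 * gen b ^ q.1.2 ∧
      q.2.1 * (k : ℤ) = q.1.1 * (k' : ℤ) ∧ q.2.2 * (l : ℤ) = q.1.2 * (l' : ℤ) then
    gen a' ^ ((η : ℤ) * h.choose.2.1) * gen b' ^ ((θ : ℤ) * h.choose.2.2) else 1

private theorem pf_eq {Λ : SimpleGraph W} {Λ' : SimpleGraph W'} {a b : W} (hne : a ≠ b)
    (a' b' : W') {k l k' l' : ℕ} (hk : 0 < k) (hl : 0 < l) (η θ : ℤˣ) {s t s' t' : ℤ}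
    (h1 : s' * (k : ℤ) = s * (k' : ℤ)) (h2 : t' * (l : ℤ) = t * (l' : ℤ)) :
    PF Λ Λ' a b a' b' k l k' l' η θ (gen a ^ s * gen b ^ t) =
      gen a' ^ ((η : ℤ) * s') * gen b' ^ ((θ : ℤ) * t') := by
  have hex : ∃ q : (ℤ × ℤ) × (ℤ × ℤ), (gen a : RA Λ) ^ s * gen b ^ t =
      gen a ^ q.1.1 * gen b ^ q.1.2 ∧
      q.2.1 * (k : ℤ) = q.1.1 * (k' : ℤ) ∧ q.2.2 * (l : ℤ) = q.1.2 * (l' : ℤ) :=
    ⟨((s, t), (s', t')), rfl, h1, h2⟩
  unfold PF
  rw [dif_pos hex]
  obtain ⟨e1, e2, e3⟩ := hex.choose_spec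
  obtain ⟨e4, e5⟩ := s9_uniq hne e1
  have hk0 : (k : ℤ) ≠ 0 := by exact_mod_cast hk.ne'
  have hl0 : (l : ℤ) ≠ 0 := by exact_mod_cast hl.ne'
  rw [← e4] at e2
  rw [← e5] at e3
  have e6 : hex.choose.2.1 = s' := mul_right_cancel₀ hk0 (e2.trans h1.symm)
  have e7 : hex.choose.2.2 = t' := mul_right_cancel₀ hl0 (e3.trans h2.symm)
  rw [e6, e7]

private theorem s9_usq (η : ℤˣ) (x : ℤ) : (η : ℤ) * ((η : ℤ) * x) = x := by
  rcases Int.units_eq_one_or η with rfl | rfl <;> simp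

private theorem s9_ucan (η : ℤˣ) {x y : ℤ} (h : (η : ℤ) * x = (η : ℤ) * y) : x = y := by
  rw [← s9_usq η x, h, s9_usq]

theorem loc_of_lat [Finite C] [Finite C'] (hX : Ctx Γ Λ π B) (hX' : Ctx Γ' Λ' π' B')
    {i : Fin m} {i' : Fin m'} {p : C} {p' : C'} (hi : NB Γ B i) (hi' : NB Γ' B' i')
    {a b : W} {a' b' : W'} (hab : Γ.Adj (π a) (π b)) (hab' : Γ'.Adj (π' a') (π' b'))
    (hBi : B i = {π a, π b}) (hBi' : B' i' = {π' a', π' b'}) {ε : V → C → ℤˣ}
    (hε : ∀ v c d, Cut B v → Ob π ρ (st Γ v) c d → ε v d = ε v c)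
    (h : Lat ρ ρ' a b a' b' p p' (ε (π a) p) (ε (π b) p))
    (h' : Lat ρ' ρ a' b' a b p' p (ε (π a) p) (ε (π b) p)) :
    ∃ (τ1 : V → V') (Φ : C → RA Λ → RA Λ'),
      Loc Γ Γ' π π' B B' ρ ρ' i i' p p' (fun _ => p') (fun _ => τ1) Φ ε ∧ τ1 (π a) = π' a' ∧
        τ1 (π b) = π' b' := by
  classical
  have hvw : π a ≠ π b := hab.ne
  have hvw' : π' a' ≠ π' b' := hab'.ne
  have hne : a ≠ b := fun e => hvw (by rw [e])
  have hne' : a' ≠ b' := fun e => hvw' (by rw [e])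
  have hE : Edg Γ (B i) := ⟨π a, π b, hab, hBi⟩
  have hE' : Edg Γ' (B' i') := ⟨π' a', π' b', hab', hBi'⟩
  have hva : π a ∈ B i := by rw [hBi]; exact Or.inl rfl
  have hvb : π b ∈ B i := by rw [hBi]; exact Or.inr rfl
  have hva' : π' a' ∈ B' i' := by rw [hBi']; exact Or.inl rfl
  have hvb' : π' b' ∈ B' i' := by rw [hBi']; exact Or.inr rfl
  have hsa : ∀ c, π c = π a → c = a := fun c h => hX.sng (π a) (Or.inr ⟨i, hE, hva⟩) c a h rfl
  have hsb : ∀ c, π c = π b → c = b := fun c h => hX.sng (π b) (Or.inr ⟨i, hE, hvb⟩) c b h rfl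
  have hsa' : ∀ c, π' c = π' a' → c = a' :=
    fun c h => hX'.sng (π' a') (Or.inr ⟨i', hE', hva'⟩) c a' h rfl
  have hsb' : ∀ c, π' c = π' b' → c = b' :=
    fun c h => hX'.sng (π' b') (Or.inr ⟨i', hE', hvb'⟩) c b' h rfl
  have hc : Commute (gen a : RA Λ) (gen b) := gen_comm (adj_lift hX.bu hab)
  have hc' : Commute (gen a' : RA Λ') (gen b') := gen_comm (adj_lift hX'.bu hab')
  have hmem : ∀ u, u ∈ B i → u = π a ∨ u = π b := by
    intro u hu
    rw [hBi] at hu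
    exact hu
  have hmem' : ∀ u, u ∈ B' i' → u = π' a' ∨ u = π' b' := by
    intro u hu
    rw [hBi'] at hu
    exact hu
  have hcut : ∀ u, u ∈ B i → Cut B u := fun u hu => edg_cut hX.glu hE hi hu
  have hcut' : ∀ u, u ∈ B' i' → Cut B' u := fun u hu => edg_cut hX'.glu hE' hi' hu
  have hst : ∀ u, u ∈ B i → B i ⊆ st Γ u := by
    intro u hu x hx
    rcases hmem u hu with rfl | rfl <;> rcases hmem x hx with rfl | rfl
    · exact Or.inl rfl
    · exact Or.inr hab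
    · exact Or.inr hab.symm
    · exact Or.inl rfl
  have hst' : ∀ u, u ∈ B' i' → B' i' ⊆ st Γ' u := by
    intro u hu x hx
    rcases hmem' u hu with rfl | rfl <;> rcases hmem' x hx with rfl | rfl
    · exact Or.inl rfl
    · exact Or.inr hab'
    · exact Or.inr hab'.symm
    · exact Or.inl rfl
  have hform : ∀ g ∈ PB Λ π (B i), ∃ s t : ℤ, g = gen a ^ s * gen b ^ t :=
    fun g hg => s9_form hBi hc hsa hsb hg
  have hform' : ∀ g ∈ PB Λ' π' (B' i'), ∃ s t : ℤ, g = gen a' ^ s * gen b' ^ t :=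
    fun g hg => s9_form hBi' hc' hsa' hsb' hg
  have hcomm : ∀ g ∈ PB Λ π (B i), ∀ h ∈ PB Λ π (B i), g * h = h * g := by
    intro g hg h hh
    obtain ⟨s, t, rfl⟩ := hform g hg
    obtain ⟨s', t', rfl⟩ := hform h hh
    rw [s9_mul hc, s9_mul hc, add_comm s, add_comm t]
  -- the stabilisers are constant on the orbit
  have hsk : ∀ c, Ob π ρ (B i) p c → ∀ g, g ∈ SK π ρ (B i) c ↔ g ∈ SK π ρ (B i) p := by
    rintro c ⟨x, hx, rfl⟩ g
    constructor
    · rintro ⟨h1, h2⟩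
      refine ⟨?_, h2⟩
      have h3 : rm ρ (rm ρ p x) g = rm ρ p x := h1
      rw [← rm_mul, hcomm x hx g h2, rm_mul] at h3
      show rm ρ p g = p
      rw [← rm_inv_r (ρ := ρ) (rm ρ p g) x, h3, rm_inv_r]
    · rintro ⟨h1, h2⟩
      refine ⟨?_, h2⟩
      have h3 : rm ρ p g = p := h1
      show rm ρ (rm ρ p x) g = rm ρ p x
      rw [← rm_mul, hcomm x hx g h2, rm_mul, h3]
  set k := pr ρ a p with hk
  set l := pr ρ b p with hl
  set k' := pr ρ' a' p' with hk'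
  set l' := pr ρ' b' p' with hl'
  have hk0 : 0 < k := pr_pos a p
  have hl0 : 0 < l := pr_pos b p
  have hk0' : 0 < k' := pr_pos a' p'
  have hl0' : 0 < l' := pr_pos b' p'
  have hk0z : (k : ℤ) ≠ 0 := by exact_mod_cast hk0.ne'
  have hl0z : (l : ℤ) ≠ 0 := by exact_mod_cast hl0.ne'
  have hk0z' : (k' : ℤ) ≠ 0 := by exact_mod_cast hk0'.ne'
  have hl0z' : (l' : ℤ) ≠ 0 := by exact_mod_cast hl0'.ne'
  set η := ε (π a) p with hη
  set θ := ε (π b) p with hθ
  set τ1 : V → V' := fun u => if u = π a then π' a' else π' b' with hτ1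
  have hτa : τ1 (π a) = π' a' := by rw [hτ1]; simp
  have hτb : τ1 (π b) = π' b' := by rw [hτ1]; simp [hvw.symm]
  set Φ0 : RA Λ → RA Λ' := PF Λ Λ' a b a' b' k l k' l' η θ with hΦ0
  have hΦ : ∀ s t s' t' : ℤ, s' * (k : ℤ) = s * (k' : ℤ) → t' * (l : ℤ) = t * (l' : ℤ) →
      Φ0 (gen a ^ s * gen b ^ t) = gen a' ^ ((η : ℤ) * s') * gen b' ^ ((θ : ℤ) * t') :=
    fun s t s' t' h1 h2 => pf_eq hne a' b' hk0 hl0 η θ h1 h2
  have hlat : ∀ g ∈ SK π ρ (B i) p, ∃ s t s' t' : ℤ, g = gen a ^ s * gen b ^ t ∧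
      s' * (k : ℤ) = s * (k' : ℤ) ∧ t' * (l : ℤ) = t * (l' : ℤ) ∧
      LL ρ' a' b' p' ((η : ℤ) * s') ((θ : ℤ) * t') := by
    intro g hg
    obtain ⟨s, t, rfl⟩ := hform g hg.2
    obtain ⟨s', t', h1, h2, h3⟩ := s9_lat hc hc' h hk0 hl0 (s := s) (t := t) hg.1
    exact ⟨s, t, s', t', rfl, h1, h2, h3⟩
  have hinj : ∀ u ∈ B i, ∀ x ∈ B i, τ1 u = τ1 x → u = x := by
    intro u hu x hx he
    rcases hmem u hu with rfl | rfl <;> rcases hmem x hx with rfl | rfl
    · rfl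
    · rw [hτa, hτb] at he
      exact absurd he hvw'
    · rw [hτa, hτb] at he
      exact absurd he.symm hvw'
    · rfl
  have hmaps : ∀ u ∈ B i, τ1 u ∈ B' i' := by
    intro u hu
    rcases hmem u hu with rfl | rfl
    · rw [hτa]; exact hva'
    · rw [hτb]; exact hvb'
  have hsurj : ∀ u' ∈ B' i', ∃ u ∈ B i, τ1 u = u' := by
    intro u' hu'
    rcases hmem' u' hu' with rfl | rfl
    · exact ⟨π a, hva, hτa⟩
    · exact ⟨π b, hvb, hτb⟩
  have hob : ∀ u ∈ B i, B i ∩ st Γ u = B i := fun u hu => Set.inter_eq_left.2 (hst u hu)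
  refine ⟨τ1, fun _ => Φ0, ?_, hτa, hτb⟩
  constructor
  case tbij =>
    intro c _
    exact ⟨hmaps, fun u hu x hx he => hinj u hu x hx he, fun u' hu' => hsurj u' hu'⟩
  case tadj =>
    intro c _ u hu x hx
    show Γ.Adj u x ↔ Γ'.Adj (τ1 u) (τ1 x)
    rcases hmem u hu with rfl | rfl <;> rcases hmem x hx with rfl | rfl
    · exact ⟨fun h => absurd rfl h.ne, fun h => absurd rfl h.ne⟩
    · rw [hτa, hτb]
      exact ⟨fun _ => hab', fun _ => hab⟩
    · rw [hτa, hτb]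
      exact ⟨fun _ => hab'.symm, fun _ => hab.symm⟩
    · exact ⟨fun h => absurd rfl h.ne, fun h => absurd rfl h.ne⟩
  case tcut =>
    intro c _ u hu
    exact ⟨fun _ => hcut' _ (hmaps u hu), fun _ => hcut u hu⟩
  case orb =>
    intro c _
    exact ob_refl _ _ _ _
  case wtau =>
    intros
    rfl
  case wal =>
    intros
    exact ob_refl _ _ _ _
  case wali =>
    intro c d u x hcc hd hu hx _ _ he _
    have hux := hinj u hu x hx he
    refine ⟨hux, ?_⟩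
    rw [hob u hu]
    exact ob_trans (ob_symm hcc) hd
  case wals =>
    intro c' u' hc1 hu' _
    obtain ⟨u, hu, hue⟩ := hsurj u' hu'
    refine ⟨p, u, ob_refl _ _ _ _, hu, hue, ?_⟩
    rw [Set.inter_eq_left.2 (hst' u' hu')]
    exact hc1
  case map =>
    intro c hcc g hg
    rw [hsk c hcc] at hg
    obtain ⟨s, t, s', t', rfl, h1, h2, h3⟩ := hlat g hg
    show Φ0 _ ∈ _
    rw [hΦ s t s' t' h1 h2]
    exact ⟨h3, s9_memf hBi' _ _⟩
  case mul =>
    intro c hcc g hg g2 hg2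
    rw [hsk c hcc] at hg hg2
    obtain ⟨s, t, s', t', rfl, h1, h2, h3⟩ := hlat g hg
    obtain ⟨x, y, x', y', rfl, h4, h5, h6⟩ := hlat g2 hg2
    show Φ0 _ = Φ0 _ * Φ0 _
    rw [s9_mul hc, hΦ s t s' t' h1 h2, hΦ x y x' y' h4 h5,
      hΦ (s + x) (t + y) (s' + x') (t' + y') (by rw [add_mul, add_mul, h1, h4])
        (by rw [add_mul, add_mul, h2, h5]), s9_mul hc', mul_add, mul_add]
  case inj =>
    intro c hcc g hg g2 hg2 he
    rw [hsk c hcc] at hg hg2
    obtain ⟨s, t, s', t', rfl, h1, h2, h3⟩ := hlat g hg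
    obtain ⟨x, y, x', y', rfl, h4, h5, h6⟩ := hlat g2 hg2
    have he' : Φ0 (gen a ^ s * gen b ^ t) = Φ0 (gen a ^ x * gen b ^ y) := he
    rw [hΦ s t s' t' h1 h2, hΦ x y x' y' h4 h5] at he'
    obtain ⟨e1, e2⟩ := s9_uniq hne' he'
    have e3 := s9_ucan η e1
    have e4 := s9_ucan θ e2
    rw [e3, h4] at h1
    rw [e4, h5] at h2
    rw [mul_right_cancel₀ hk0z' h1, mul_right_cancel₀ hl0z' h2]
  case surj =>
    intro c hcc g' hg'
    obtain ⟨s, t, rfl⟩ := hform' g' hg'.2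
    obtain ⟨x, y, h1, h2, h3⟩ := s9_lat hc' hc h' hk0' hl0' (s := s) (t := t) hg'.1
    refine ⟨gen a ^ ((η : ℤ) * x) * gen b ^ ((θ : ℤ) * y), ?_, ?_⟩
    · rw [hsk c hcc]
      exact ⟨h3, s9_memf hBi _ _⟩
    · show Φ0 _ = _
      rw [hΦ ((η : ℤ) * x) ((θ : ℤ) * y) ((η : ℤ) * s) ((θ : ℤ) * t) (by rw [mul_assoc, mul_assoc, h1])
        (by rw [mul_assoc, mul_assoc, h2]), s9_usq, s9_usq]
  case con =>
    intro c d hcc g hg hgd
    refine ⟨1, one_mem _, rm_one _ _, ?_⟩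
    intro x hx
    show Φ0 _ = 1 * Φ0 _ * 1⁻¹
    rw [hcomm g hg x hx.2, mul_inv_cancel_right, inv_one, mul_one, one_mul]
  case sgn =>
    intro c u a1 a1' hcc hu hcu h1 h2
    have hεc : ε u c = ε u p := hε u p c hcu (ob_mono hcc (hst u hu))
    show Φ0 _ = _
    have hprc : ∀ x : W, (gen x : RA Λ) ∈ PB Λ π (B i) → pr ρ x c = pr ρ x p := by
      intro x hx
      obtain ⟨g, hg, rfl⟩ := hcc
      exact pr_comm (hcomm g hg _ hx) p
    rcases hmem u hu with rfl | rfl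
    · have e1 : a1 = a := hsa a1 h1
      subst e1
      have e2 : a1' = a' := hsa' a1' (h2.trans hτa)
      subst e2
      rw [hεc, hprc _ (pb_gen hva)]
      have e3 := hΦ k 0 k' 0 (mul_comm _ _) (by simp)
      rw [zpow_zero, mul_one, mul_zero, zpow_zero, mul_one, zpow_natCast] at e3
      exact e3
    · have e1 : a1 = b := hsb a1 h1
      subst e1
      have e2 : a1' = b' := hsb' a1' (h2.trans hτb)
      subst e2
      rw [hεc, hprc _ (pb_gen hvb)]
      have e3 := hΦ 0 l 0 l' (by simp) (mul_comm _ _)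
      rw [zpow_zero, one_mul, mul_zero, zpow_zero, one_mul, zpow_natCast] at e3
      exact e3

end RaagBL
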