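import Pool.Agent.Lib.MP_32d917_al_bl.KV2
import Pool.Agent.Lib.MP_32d917_al_bl.O01
import Pool.Agent.Lib.MP_32d917_al_bl.BG3
import Pool.Agent.Lib.MP_32d917_al_bl.S09
import Pool.Agent.Lib.MP_32d917_al_gp.C05

/-!
# KM1: the conditions on matchings, translated
-/

set_option autoImplicit false

namespace RaagBL

open LatIso RaagIso RaagGP
open AdmIso (Wd mvs fM cmW)

/-! ### Counting -/

theorem cntN_eq (m : ℕ) (p : ℕ → Prop) : cntN m p = Nat.card {i : Fin m // p i} := by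
  classical
  have h1 : cntN m p = ((Finset.range m).filter p).card := by
    unfold cntN
    rfl
  rw [h1, ← Fintype.card_coe, ← Nat.card_eq_fintype_card]
  refine Nat.card_congr ⟨fun x => ⟨⟨x.1, ?_⟩, ?_⟩, fun x => ⟨x.1, ?_⟩, ?_, ?_⟩
  · exact Finset.mem_range.1 (Finset.mem_filter.1 x.2).1
  · exact (Finset.mem_filter.1 x.2).2
  · exact Finset.mem_filter.2 ⟨Finset.mem_range.2 x.1.2, x.2⟩
  · intro x
    rfl
  · intro x
    rfl

/-! ### Periods -/

variable {c c' : Cd} {ρ : RA (gr c) →* Equiv.Perm (Fin (cM c))}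
  {ρ' : RA (gr c') →* Equiv.Perm (Fin (cM c'))}

theorem kit_iff (hρ : IsRho c ρ) (x : Fin (cM c)) (a : Fin (cK c)) (l : ℕ) :
    itN c x a l = x ↔ pr ρ a x ∣ l := by
  have h1 := it_eq hρ x a l
  rw [← h1, ← Fin.ext_iff]
  have h2 := pr_zpow (ρ := ρ) a x (l : ℤ)
  rw [zpow_natCast] at h2
  rw [h2]
  exact Int.natCast_dvd_natCast

theorem kpr_le (x : Fin (cM c)) (a : Fin (cK c)) : pr ρ a x < cM c + 1 := by
  have h1 : Function.Injective (fun l : Fin (pr ρ a x) => rm ρ x (gen a ^ (l : ℕ))) := by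
    have key : ∀ l l' : Fin (pr ρ a x), (l : ℕ) ≤ l' →
        rm ρ x (gen a ^ (l : ℕ)) = rm ρ x (gen a ^ (l' : ℕ)) → l = l' := by
      intro l l' hll h
      have h2 : rm ρ x (gen a ^ (((l' : ℕ) - l : ℕ) : ℤ)) = x := by
        have h3 : (gen a : RA (gr c)) ^ (l' : ℕ) = gen a ^ ((l' : ℕ) - l) * gen a ^ (l : ℕ) := by
          rw [← pow_add]
          congr 1
          omega
        rw [h3, rm_mul] at h
        rw [zpow_natCast]
        exact ((ρ (gen a ^ (l : ℕ))⁻¹).injective h).symm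
      rw [pr_zpow, Int.natCast_dvd_natCast] at h2
      rcases Nat.eq_zero_or_pos ((l' : ℕ) - l) with h4 | h4
      · apply Fin.ext
        omega
      · have h5 := Nat.le_of_dvd h4 h2
        have h6 := l'.2
        omega
    intro l l' h
    rcases le_total (l : ℕ) l' with h2 | h2
    · exact key l l' h2 h
    · exact (key l' l h2 h.symm).symm
  have h2 := Fintype.card_le_of_injective _ h1
  rw [Fintype.card_fin, Fintype.card_fin] at h2
  omega

theorem perN_iff (hρ : IsRho c ρ) (x : Fin (cM c)) (a : Fin (cK c)) (k : ℕ) :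
    PerN c x a k ↔ k = pr ρ a x := by
  have hp := pr_pos (ρ := ρ) a x
  unfold PerN
  rw [kit_iff hρ]
  constructor
  · rintro ⟨h1, h2, h3⟩
    have h4 := Nat.le_of_dvd h1 h2
    rcases Nat.lt_or_ge (pr ρ a x) k with h5 | h5
    · exact absurd ((kit_iff hρ x a _).2 dvd_rfl) (h3 _ h5 hp)
    · exact le_antisymm h5 h4
  · rintro rfl
    refine ⟨hp, dvd_rfl, ?_⟩
    intro l hl hl0 h
    rw [kit_iff hρ] at h
    have := Nat.le_of_dvd hl0 h
    omega

theorem kit_lt {c : Cd} {x : ℕ} (hx : x < cM c) (a l : ℕ) : itN c x a l < cM c := by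
  unfold itN
  induction l with
  | zero => exact hx
  | succ l ih =>
    rw [Function.iterate_succ_apply']
    exact CB.dg_lt _ _ _

theorem kit_two (hρ : IsRho c ρ) (x : Fin (cM c)) (a b : Fin (cK c)) (m n : ℕ) :
    itN c (itN c x a m) b n = (rm ρ x (gen a ^ m * gen b ^ n) : Fin (cM c)) := by
  rw [rm_mul, it_eq hρ, it_eq hρ]

theorem ltN_iff (hρ : IsRho c ρ) (hρ' : IsRho c' ρ') (x : Fin (cM c)) (a b : Fin (cK c))
    (x' : Fin (cM c')) (a' b' : Fin (cK c')) (e f : ℕ) (s t : ℤˣ) (hst : e = f ↔ s = t) :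
    LtN ((c, x, a, b), (c', x', a', b'), (pr ρ a x, pr ρ b x), (pr ρ' a' x', pr ρ' b' x'), (e, f)) ↔
      Lat ρ ρ' a b a' b' x x' s t := by
  unfold LtN Lat
  dsimp only
  constructor
  · intro h m n hm hn hmn
    obtain ⟨m', hm', n', hn', h1, h2, h3, h4⟩ := h m hm n hn (by
      rw [kit_two hρ, hmn])
    refine ⟨m', n', hm', hn', h1, h2, ?_, ?_⟩
    · intro k
      apply Fin.ext
      rw [← kit_two hρ']
      exact h3 (hst.2 k)
    · intro k
      apply Fin.ext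
      rw [it_eq hρ', it_eq hρ']
      exact h4 (fun l => k (hst.1 l))
  · intro h m hm n hn hmn
    obtain ⟨m', n', hm', hn', h1, h2, h3, h4⟩ := h m n hm hn (by
      apply Fin.ext
      rw [← kit_two hρ, hmn])
    refine ⟨m', hm', n', hn', h1, h2, ?_, ?_⟩
    · intro k
      rw [kit_two hρ', h3 (hst.1 k)]
    · intro k
      rw [← it_eq hρ', ← it_eq hρ', h4 (fun l => k (hst.2 l))]

/-! ### Signs -/

theorem krm_mod (x : Fin (cM c)) (a : Fin (cK c)) (k : ℤ) :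
    rm ρ x (gen a ^ k) = rm ρ x (gen a ^ (k % (MM c : ℤ)).toNat) := by
  have hM : (MM c : ℤ) ≠ 0 := by exact_mod_cast (RaagIso.c07_MM_pos c).ne'
  have h1 : (gen a : RA (gr c)) ^ k = (gen a ^ MM c) ^ (k / (MM c : ℤ)) *
      gen a ^ (k % (MM c : ℤ)).toNat := by
    rw [← zpow_natCast (gen a) (MM c), ← zpow_mul, ← zpow_natCast (gen a) (k % (MM c : ℤ)).toNat,
      Int.toNat_of_nonneg (Int.emod_nonneg _ hM), ← zpow_add, Int.mul_ediv_add_emod]
  have h2 : rm ρ x ((gen a ^ MM c) ^ (k / (MM c : ℤ))) = x := by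
    unfold rm
    rw [map_inv, map_zpow, map_pow, rho_pow, one_zpow, inv_one, Equiv.Perm.one_apply]
  rw [h1, rm_mul, h2]

/-- signs, numerically -/
def SgN (d d' : Cd2) (t : Mt2) (Mk : ℕ → Prop) (E : ℕ → ℕ → ℕ) : Prop :=
  ∀ y < cM d.1, ∀ v < kG d, Mk v → ∀ a < cK d.1, ∀ b < cK d'.1, piN d a = v →
    piN d' b = tN2 d t y v → ∀ n < MM d.1, PsN d v y (itN d.1 y a n) →
    ∀ z < cM d.1, PsN d v y z →
      (E v y = 0 → FN2 d t (itN d.1 z a n) = itN d'.1 (FN2 d t z) b n) ∧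
      (E v y = 1 → itN d'.1 (FN2 d t (itN d.1 z a n)) b n = FN2 d t z)

theorem sgN_iff {d d' : Cd2} (hA : ActV d.1)
    {ρ : RA (gr d.1) →* Equiv.Perm (Fin (cM d.1))} {ρ' : RA (gr d'.1) →* Equiv.Perm (Fin (cM d'.1))}
    (hρ : IsRho d.1 ρ) (hρ' : IsRho d'.1 ρ') {t : Mt2} {F : Fin (cM d.1) ≃ Fin (cM d'.1)}
    {τ : Fin (cM d.1) → Fin (kG d) ≃ Fin (kG d')} (hR : Rt2 d d' t F τ) (Mk : ℕ → Prop)
    (E : ℕ → ℕ → ℕ) (ε : Fin (cM d.1) → Fin (kG d) → ℤˣ)
    (hE : ∀ (y : Fin (cM d.1)) (v : Fin (kG d)), (E v y = 0 ∧ ε y v = 1) ∨ (E v y = 1 ∧ ε y v = -1)) :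
    SgN d d' t Mk E ↔ Sgn2 (grG d) (piF d) (piF d') ρ ρ' F τ {v | Mk v} ε := by
  obtain ⟨hF, hτ⟩ := hR
  have hM : MM d'.1 = MM d.1 := by
    unfold MM
    have := Fintype.card_congr F
    rw [Fintype.card_fin, Fintype.card_fin] at this
    rw [this]
  have e1 : ∀ (z : Fin (cM d.1)) (a : Fin (cK d.1)) (n : ℕ),
      FN2 d t (itN d.1 z a n) = F (rm ρ z (gen a ^ n)) := by
    intro z a n
    rw [← it_eq hρ, hF]
  have e2 : ∀ (z : Fin (cM d'.1)) (b : Fin (cK d'.1)) (n : ℕ),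
      itN d'.1 z b n = (rm ρ' z (gen b ^ n) : Fin (cM d'.1)) := fun z b n => (it_eq hρ' z b n).symm
  constructor
  · intro h y v a b hv ha hb k hk z hz
    have hM0 : (MM d.1 : ℤ) ≠ 0 := by exact_mod_cast (RaagIso.c07_MM_pos d.1).ne'
    obtain ⟨n, hn⟩ : ∃ n, n = (k % (MM d.1 : ℤ)).toNat := ⟨_, rfl⟩
    have hn' : n < MM d.1 := by
      have h1 := Int.emod_lt_of_pos k (show (0 : ℤ) < MM d.1 by
        exact_mod_cast RaagIso.c07_MM_pos d.1)
      have h2 := Int.emod_nonneg k hM0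
      omega
    rw [krm_mod y a k, ← hn] at hk
    have h1 := h y y.2 v v.2 hv a a.2 b b.2 (congrArg Fin.val ha)
      (by rw [hτ]; exact congrArg Fin.val hb) n hn'
      (by rw [← it_eq hρ]; exact (ps_iff hA hρ v y _).2 hk) z z.2 ((ps_iff hA hρ v y z).2 hz)
    rw [krm_mod z a k, ← hn]
    rw [e1, hF, e2] at h1
    have h3 : ∀ (w : Fin (cM d'.1)), rm ρ' w (gen b ^ k) = rm ρ' w (gen b ^ n) := by
      intro w
      rw [krm_mod w b k, hM, ← hn]
    rcases hE y v with ⟨h4, h5⟩ | ⟨h4, h5⟩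
    · rw [h5]
      have h6 := Fin.ext (h1.1 h4)
      rw [h6, Units.val_one, one_mul, h3]
    · rw [h5]
      have h6 := h1.2 h4
      rw [e2] at h6
      have h7 := Fin.ext h6
      rw [Units.val_neg, Units.val_one, neg_one_mul, zpow_neg]
      rw [← h3] at h7
      rw [← h7, rm_inv_r]
  · intro h y hy v hv hMv a ha b hb hav hbv n hn hps z hz hpz
    have hps' := (ps_iff hA hρ ⟨v, hv⟩ ⟨y, hy⟩ (rm ρ ⟨y, hy⟩ (gen ⟨a, ha⟩ ^ n))).1 (by
      rw [it_eq hρ ⟨y, hy⟩ ⟨a, ha⟩ n]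
      exact hps)
    have h1 := h ⟨y, hy⟩ ⟨v, hv⟩ ⟨a, ha⟩ ⟨b, hb⟩ hMv (Fin.ext hav) (by
      apply Fin.ext
      rw [← hτ]
      exact hbv) n (by rw [zpow_natCast]; exact hps') ⟨z, hz⟩
      ((ps_iff hA hρ ⟨v, hv⟩ ⟨y, hy⟩ ⟨z, hz⟩).1 hpz)
    have k1 := e1 ⟨z, hz⟩ ⟨a, ha⟩ n
    have k2 := hF ⟨z, hz⟩
    have k3 := e2 (F ⟨z, hz⟩) ⟨b, hb⟩ n
    have k4 := e2 (F (rm ρ ⟨z, hz⟩ (gen ⟨a, ha⟩ ^ n))) ⟨b, hb⟩ n
    dsimp only at k1 k2 k3 k4
    rw [k1, k2, k3, k4]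
    rw [zpow_natCast] at h1
    rcases hE ⟨y, hy⟩ ⟨v, hv⟩ with ⟨h4, h5⟩ | ⟨h4, h5⟩
    · dsimp only at h4
      refine ⟨fun _ => ?_, fun h6 => ?_⟩
      · rw [h5, Units.val_one, one_mul, zpow_natCast] at h1
        rw [h1]
      · rw [h4] at h6
        exact absurd h6 (by omega)
    · dsimp only at h4
      refine ⟨fun h6 => ?_, fun _ => ?_⟩
      · rw [h4] at h6
        exact absurd h6 (by omega)
      · rw [h5, Units.val_neg, Units.val_one, neg_one_mul, zpow_neg, zpow_natCast] at h1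
        rw [h1, rm_inv_l]

/-! ### Blocks without leaves -/

theorem knb_iff {c : BC} (h : BVal c) (i : Fin (nB c)) :
    NB (grG c.1) (blk c) i ↔ RigN c i ∨ FltN c i := by
  have hX := kctx_code h
  constructor
  · intro h1
    rcases hX.glu.ty i with h2 | h2
    · right
      rw [kflt_iff]
      exact ⟨h2, fun v hv => edg_cut hX.glu h2 h1 hv⟩
    · left
      exact (krig_iff c i).2 h2
  · rintro (h1 | h1)
    · exact nb_of_rig ((krig_iff c i).1 h1)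
    · rw [kflt_iff] at h1
      intro v hv
      exact cut_nl hX.glu (h1.2 v hv)

end RaagBL
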