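import Pool.Agent.Lib.MP_32d917_al_bl.S03
import Pool.Agent.Lib.MP_32d917_al_gp.H04

/-!
# S06: the cocycle of a matching with signs (75 min)

`kap_of_sgn`: `la` from `dt2_of_sgn`, `κ` from `exists_kap2` (`H02`): `κ c (x * y) = κ c x * κ (rm ρ c x) y`, `κ c x = la c v x` for `x ∈ PB {v}` (`kap2_gg`), `F (rm ρ c x) = rm ρ' (F c) (κ c x)` (`cc2_F`), injective (`cc2_inj`), surjective (`cc2_surj`).
`star`: for `v ∈ Mk`, `x ∈ PB (st v)`: `κ c x ∈ PB' (st (τ c v))` and `τ (rm ρ c x) v = τ c v`. Proof: closure induction (`h05_ind` on `D = st v`, statement for all `c`): for a letter `b`, `π b = w ∈ st v`: `κ c (gen b) = la c w (gen b) ∈ PB' {τ c w}` and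
`τ c w ∈ st (τ c v)` (`Dt2.adj`), `τ (rm ρ c (gen b)) v = τ c v` as `v ∈ st w` (`Dt2.tau`); products; for `x⁻¹`: `κ c x⁻¹ = (κ (rm ρ c x⁻¹) x)⁻¹` (cocycle), `τ (rm ρ c x⁻¹) v = τ c v` by the statement at `rm ρ c x⁻¹`. (True for all `v`.)
`back`: `F d = rm ρ' (F c) y'`, `y' ∈ PB' (st (τ c v))` gives `x ∈ PB (st v)` with `rm ρ c x = d`: `y' = g' * l'` (`st_dec2`), `la c v g = g'` (`Dt2.surj`), `c1 = rm ρ c g`, `F c1 = rm ρ' (F c) g'`, `τ c1 v = τ c v`; `Ps' (τ c1 v) (F c1) (F d)`, so `Ps v c1 d` by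
`ps_back` (`nm2_of_dt2`: the hypotheses `ha ht ho` from `h`), so `d = rm ρ c (g * y)`, `y ∈ PB (lk v)`.
`sgn`: `v ∈ Mk`, `a`, `a'` letters: `κ c (gen a ^ pr ρ a c) = la c v (gen a ^ pr ρ a c) = gen a' ^ (ε * pr ρ a c)` since `gen a ^ pr ρ a c` fixes `c`, so it is in `Pst v c` (`mem_pst`, `ps_refl`). Moreover `pr ρ a c = pr ρ' a' (F c)`: for `k` with `gen a ^ k ∈ Pst v c`: `rm ρ c (gen a ^ k) = c ↔
rm ρ' (F c) (gen a' ^ (ε * k)) = F c ↔ rm ρ' (F c) (gen a' ^ k) = F c` (`F` injective, `κ`, inverses). So both periods divide each other: `gen a ^ pr ρ a c ∈ Pst`, so `pr ρ' a' (F c) ∣ pr ρ a c` (`pr_zpow`); `gen a' ^ pr ρ' a' (F c) ∈ Pst'`, by `pst_zpow` `gen a ^ pr ρ' a' (F c) ∈ Pst`, so it fixes `c`.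
-/

set_option autoImplicit false

namespace RaagBL

open RaagIso RaagGP

variable {V W V' W' C C' : Type} {Γ : SimpleGraph V} {Λ : SimpleGraph W} {π : W → V}
  {Γ' : SimpleGraph V'} {Λ' : SimpleGraph W'} {π' : W' → V'} {ρ : RA Λ →* Equiv.Perm C}
  {ρ' : RA Λ' →* Equiv.Perm C'} {F : C ≃ C'} {τ : C → V ≃ V'}

/-- the cocycle of a matching -/
structure Kap3 (Γ : SimpleGraph V) (Γ' : SimpleGraph V') (π : W → V) (π' : W' → V')
    (ρ : RA Λ →* Equiv.Perm C) (ρ' : RA Λ' →* Equiv.Perm C') (F : C ≃ C')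
    (τ : C → V ≃ V') (Mk : Set V) (ε : C → V → ℤˣ) (κ : C → RA Λ → RA Λ') : Prop where
  mul : ∀ c x y, κ c (x * y) = κ c x * κ (rm ρ c x) y
  act : ∀ c x, F (rm ρ c x) = rm ρ' (F c) (κ c x)
  inj : ∀ c, Function.Injective (κ c)
  surj : ∀ c, Function.Surjective (κ c)
  star : ∀ c v x, x ∈ PB Λ π (st Γ v) → κ c x ∈ PB Λ' π' (st Γ' (τ c v)) ∧
    τ (rm ρ c x) v = τ c v
  back : ∀ c d v y', y' ∈ PB Λ' π' (st Γ' (τ c v)) → F d = rm ρ' (F c) y' →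
    ∃ x ∈ PB Λ π (st Γ v), rm ρ c x = d
  sgn : ∀ c v a a', v ∈ Mk → π a = v → π' a' = τ c v → pr ρ a c = pr ρ' a' (F c) ∧
    κ c (gen a ^ pr ρ a c) = gen a' ^ (((ε c v : ℤˣ) : ℤ) * pr ρ' a' (F c))

theorem kap_of_sgn [Finite C] (hB : BU Γ Λ π) (hB' : BU Γ' Λ' π')
    (h : Nm2 Γ Γ' π π' ρ ρ' F τ) {Mk : Set V} {ε : C → V → ℤˣ}
    (hs : Sgn2 Γ π π' ρ ρ' F τ Mk ε) (h1 : ∀ v ∈ Mk, ∀ a b, π a = v → π b = v → a = b)
    (h1' : ∀ c, ∀ v ∈ Mk, ∀ a b, π' a = τ c v → π' b = τ c v → a = b)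
    (hε : ∀ c, ∀ v ∈ Mk, ∀ x ∈ PB Λ π (st Γ v), ε (rm ρ c x) v = ε c v) :
    ∃ κ, Kap3 Γ Γ' π π' ρ ρ' F τ Mk ε κ := by
  obtain ⟨la, hD, hsg⟩ := dt2_of_sgn hB hB' h hs h1 h1' hε
  obtain ⟨κ, hκ⟩ := exists_kap2 hB hB' hD
  refine ⟨κ, ⟨hκ.2, fun c x => cc2_F hD hκ c x, fun c => cc2_inj hB hB' hD hκ c,
    fun c => cc2_surj hD hκ c, ?_, ?_, ?_⟩⟩
  · intro c v x hx
    refine h05_ind (P := fun x => ∀ c, κ c x ∈ PB Λ' π' (st Γ' (τ c v)) ∧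
      τ (rm ρ c x) v = τ c v) ?_ ?_ ?_ ?_ hx c
    · intro b hb c
      have hgb : (gen b : RA Λ) ∈ PB Λ π {π b} := pb_gen rfl
      refine ⟨?_, hD.tau c (π b) v (gen b) hgb ?_⟩
      · rw [hκ.1]
        refine pb_mono ?_ (hD.mem c (π b) _ hgb)
        rw [Set.singleton_subset_iff]
        rcases hb with hb | hb
        · exact Or.inl (by rw [hb])
        · exact Or.inr ((hD.adj c v (π b)).1 hb)
      · rcases hb with hb | hb
        · exact Or.inl hb.symm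
        · exact Or.inr (SimpleGraph.Adj.symm hb)
    · intro c
      rw [cc_one hκ.2, rm_one]
      exact ⟨one_mem _, rfl⟩
    · intro x y _ _ hx hy c
      have h3 := (hy (rm ρ c x)).1
      rw [(hx c).2] at h3
      rw [hκ.2, rm_mul, (hy (rm ρ c x)).2, (hx c).2]
      exact ⟨mul_mem (hx c).1 h3, rfl⟩
    · intro x _ hx c
      obtain ⟨h3, h4⟩ := hx (rm ρ c x⁻¹)
      have h5 := hκ.2 (rm ρ c x⁻¹) x x⁻¹
      rw [mul_inv_cancel, cc_one hκ.2, rm_inv_l] at h5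
      rw [rm_inv_l] at h4
      rw [← h4] at h3
      refine ⟨?_, h4.symm⟩
      rw [(inv_eq_of_mul_eq_one_right h5.symm).symm]
      exact inv_mem h3
  · intro c d v y' hy' hd
    obtain ⟨g', hg', l', hl', rfl⟩ := st_dec2 hB' hy'
    obtain ⟨g, hg, rfl⟩ := hD.surj c v g' hg'
    have hτ : τ (rm ρ c g) v = τ c v := hD.tau c v v g hg (Or.inl rfl)
    have h3 : Ps Γ' π' ρ' (τ (rm ρ c g) v) (F (rm ρ c g)) (F d) := by
      refine ⟨l', by rw [hτ]; exact hl', ?_⟩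
      rw [hD.act c v g hg, hd, rm_mul]
    obtain ⟨y, hy, hyd⟩ := ps_back h.adj h.tau h.orb h3
    exact ⟨g * y, mul_mem (gg_st v hg) (lk_st v hy), by rw [rm_mul, hyd]⟩
  · intro c v a a' hv ha ha'
    have hga : ∀ k : ℤ, (gen a : RA Λ) ^ k ∈ PB Λ π {v} := fun k =>
      zpow_mem (pb_gen (show π a ∈ ({v} : Set V) from ha)) k
    have hga' : ∀ k : ℤ, (gen a' : RA Λ') ^ k ∈ PB Λ' π' {τ c v} := fun k =>
      zpow_mem (pb_gen (show π' a' ∈ ({τ c v} : Set V') from ha')) k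
    have key : ∀ k : ℤ, (gen a : RA Λ) ^ k ∈ Pst Γ π ρ v c →
        κ c (gen a ^ k) = gen a' ^ (((ε c v : ℤˣ) : ℤ) * k) := by
      intro k hk
      rw [kap2_gg hD hκ (hga k) c]
      exact hsg c v a a' hv ha ha' k hk
    have kF : ∀ k : ℤ, (gen a : RA Λ) ^ k ∈ Pst Γ π ρ v c →
        F (rm ρ c (gen a ^ k)) = rm ρ' (F c) (gen a' ^ (((ε c v : ℤˣ) : ℤ) * k)) := by
      intro k hk
      rw [cc2_F hD hκ, key k hk]
    have hfix : ∀ k : ℤ, rm ρ c (gen a ^ k) = c → (gen a : RA Λ) ^ k ∈ Pst Γ π ρ v c := by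
      intro k hk
      rw [mem_pst hB, hk]
      exact ⟨hga k, ps_refl v c⟩
    have e1 : (pr ρ' a' (F c) : ℤ) ∣ pr ρ a c := by
      have h3 := (pr_zpow (ρ := ρ) a c (pr ρ a c)).2 dvd_rfl
      have h4 := kF _ (hfix _ h3)
      rw [h3] at h4
      have h5 := (pr_zpow (ρ := ρ') a' (F c) _).1 h4.symm
      exact (Units.dvd_mul_left).1 h5
    have e2 : (pr ρ a c : ℤ) ∣ pr ρ' a' (F c) := by
      have h3 := (pr_zpow (ρ := ρ') a' (F c) (pr ρ' a' (F c))).2 dvd_rfl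
      have h4 : (gen a' : RA Λ') ^ (pr ρ' a' (F c) : ℤ) ∈ Pst Γ' π' ρ' (τ c v) (F c) := by
        rw [mem_pst hB', h3]
        exact ⟨hga' _, ps_refl _ _⟩
      have h5 := (pst_zpow hB hB' h ha ha' (fun b hb => h1 v hv b a hb ha)
        (fun b hb => h1' c v hv b a' hb ha') _).2 h4
      have h6 := kF _ h5
      have h7 := (pr_zpow (ρ := ρ') a' (F c) (((ε c v : ℤˣ) : ℤ) * pr ρ' a' (F c))).2
        (dvd_mul_left _ _)
      rw [h7] at h6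
      exact (pr_zpow (ρ := ρ) a c _).1 (F.injective h6)
    have e3 : pr ρ a c = pr ρ' a' (F c) :=
      Nat.dvd_antisymm (Int.natCast_dvd_natCast.1 e2) (Int.natCast_dvd_natCast.1 e1)
    refine ⟨e3, ?_⟩
    have h3 := (pr_zpow (ρ := ρ) a c (pr ρ a c)).2 dvd_rfl
    have h4 := key _ (hfix _ h3)
    rw [zpow_natCast] at h4
    rw [h4, e3]

end RaagBL
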