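import Pool.Agent.Lib.MP_32d917_al_bl.S05
import Pool.Agent.Lib.MP_32d917_al_bl.S06

/-!
# S07: the local matching given by numerical data of the sub-actions (90 min)

`j`, `j'` from `sub_jmp`. `κ` from `kap_of_sgn` for the sub-actions with `Mk = {w | Cut B (ν w)}`, `ε' n w = ε (ν w) (e n)`: the fibre of `πd` over `w ∈ Mk` is a single letter (`hX.sng` for `ν w`, `iinj`, `com`), the fibre of `πd'` over `τ n w`, too (`hc`: `ν' (τ n w)` is cut); `ε'` is constant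
on the stars: `e (rm ρd n x) = rm ρ (e n) (j x)`, `j x ∈ PB (B i ∩ st (ν w)) ≤ PB (st (ν w))` (`jmp_pb`, `sub_st`), `hε`. `Finite Cd` by `Finite.of_injective e`.
Choose `F1`, `τ1`, `Φ` with `F1 (e n) = e' (F n)`, `τ1 (e n) (ν w) = ν' (τ n w)`, `Φ (e n) (j x) = j' (κ n x)` (for instance by `choose` from: for every `c` there is `c'` with: for all `n`, `e n = c` implies `c' = e' (F n)`; injectivity of `e`, `ν`, `j`; `V'` is not empty by `hX'.big`).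
Fields of `Loc`. Every `c` with `Ob (B i) p c` is `e n` (`erng`); every `v ∈ B i` is `ν w`; every `v' ∈ B' i'` is `ν' w'`.
`tbij`: `τ n` is a bijection. `tadj`: `Nm2.adj`, `adjV`. `tcut`: `hc`. `orb`: `erng` of `hS'`. `wtau`: `Ob (B i ∩ st (ν w)) (e n) d` gives `d = e m`, `m = rm ρd n x`, `x ∈ PB (st w)` (`sub_ob`, `sub_st`): `Kap3.star`. `wal`: the same and `F m = rm ρd' (F n) (κ n x)`, `κ n x ∈ PB' (st (τ n w))`, `sub_ob` for
`hS'`. `wali`: `c = e n`, `d = e m`, `v = ν w1`, `w = ν w2`: `ν' (τ n w1) = ν' (τ m w2)`, so `τ n w1 = τ m w2`; `Ob` gives (`sub_ob`) `F m = rm ρd' (F n) y'` with `y' ∈ PB' (st (τ n w1))`; `Kap3.back`: `rm ρd n x = m`, `x ∈ PB (st w1)`; so `τ m w1 = τ n w1 = τ m w2` (`star`), `w1 = w2`. `wals`: `c' = e' n'`, `v' = ν' w'`, `n = F.symm n'`, `w = (τ n).symm w'`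
(cut by `hc`), `ob_refl`.
`map`: `g = j x`, `rm ρd n x = n` (`sub_sk`): `F n = rm ρd' (F n) (κ n x)`. `mul`: `Kap3.mul` and `rm ρd n x = n`. `inj`: injectivity of `j'`, `κ n`. `surj`: `g' = j' x'` (`sub_sk`), `x' = κ n x`, `F (rm ρd n x) = rm ρd' (F n) x' = F n`, so `rm ρd n x = n`. `con`: `g = j x`, `c = e n`, `d = e m`, `m = rm ρd n x`; `g' = j' (κ n x)`;
`l = j y`, `rm ρd m y = m`: `κ n (x * y * x⁻¹) = κ n x * κ m y * κ m x⁻¹`, `κ m x⁻¹ = (κ n x)⁻¹` (`κ n (x * x⁻¹) = 1`, `κ n 1 = 1`). `sgn`: `a = ι b`, `a' = ι' b'` (`irng`), `Kap3.sgn` and `sub_pr`.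
-/

set_option autoImplicit false

namespace RaagBL

open RaagIso RaagGP

variable {V W V' W' C C' : Type} {Γ : SimpleGraph V} {Λ : SimpleGraph W} {π : W → V}
  {Γ' : SimpleGraph V'} {Λ' : SimpleGraph W'} {π' : W' → V'} {ρ : RA Λ →* Equiv.Perm C}
  {ρ' : RA Λ' →* Equiv.Perm C'} {m m' : ℕ} {B : Fin m → Set V} {B' : Fin m' → Set V'}
  {Vd Wd Cd Vd' Wd' Cd' : Type} {Γd : SimpleGraph Vd} {Λd : SimpleGraph Wd} {πd : Wd → Vd}
  {Γd' : SimpleGraph Vd'} {Λd' : SimpleGraph Wd'} {πd' : Wd' → Vd'}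
  {ρd : RA Λd →* Equiv.Perm Cd} {ρd' : RA Λd' →* Equiv.Perm Cd'}
  {e : Cd → C} {ι : Wd → W} {ν : Vd → V} {e' : Cd' → C'} {ι' : Wd' → W'} {ν' : Vd' → V'}

theorem loc_of_nm2 [Finite C] [Finite C'] (hX : Ctx Γ Λ π B) (hX' : Ctx Γ' Λ' π' B')
    {i : Fin m} {i' : Fin m'} {p : C} {p' : C'}
    (hS : Sub Γ π (B i) ρ p Γd πd ρd e ι ν) (hS' : Sub Γ' π' (B' i') ρ' p' Γd' πd' ρd' e' ι' ν')
    {F : Cd ≃ Cd'} {τ : Cd → Vd ≃ Vd'} (hn : Nm2 Γd Γd' πd πd' ρd ρd' F τ)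
    (hc : ∀ n w, Cut B (ν w) ↔ Cut B' (ν' (τ n w))) {ε : V → C → ℤˣ}
    (hε : ∀ v c d, Cut B v → Ob π ρ (st Γ v) c d → ε v d = ε v c)
    (hs : Sgn2 Γd πd πd' ρd ρd' F τ {w | Cut B (ν w)} (fun n w => ε (ν w) (e n))) :
    ∃ (F1 : C → C') (τ1 : C → V → V') (Φ : C → RA Λ → RA Λ'),
      Loc Γ Γ' π π' B B' ρ ρ' i i' p p' F1 τ1 Φ ε ∧ (∀ n, F1 (e n) = e' (F n)) ∧
        ∀ n w, τ1 (e n) (ν w) = ν' (τ n w) := by
  classical
  obtain ⟨j, hj⟩ := sub_jmp hS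
  obtain ⟨j', hj'⟩ := sub_jmp hS'
  have hfin : Finite Cd := Finite.of_injective e hS.einj
  obtain ⟨κ, hκ⟩ := kap_of_sgn (sub_bu hS hX.bu) (sub_bu hS' hX'.bu) hn hs
    (by
      intro v hv a b ha hb
      refine hS.iinj (hX.sng (ν v) (Or.inl hv) (ι a) (ι b) ?_ ?_)
      · rw [hS.com, ha]
      · rw [hS.com, hb])
    (by
      intro c v hv a b ha hb
      refine hS'.iinj (hX'.sng (ν' (τ c v)) (Or.inl ((hc c v).1 hv)) (ι' a) (ι' b) ?_ ?_)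
      · rw [hS'.com, ha]
      · rw [hS'.com, hb])
    (by
      intro c v hv x hx
      refine hε (ν v) (e c) (e (rm ρd c x)) hv ⟨j x, ?_, ?_⟩
      · refine pb_mono Set.inter_subset_right ((jmp_pb hS hj (st Γ (ν v)) x).2 ?_)
        rw [sub_st hS]
        exact hx
      · exact (hj.act c x).symm)
  obtain ⟨v0, -⟩ := hX'.big
  set F1 : C → C' := Function.extend e (fun n => e' (F n)) (fun _ => p') with hF1d
  have hF1 : ∀ n, F1 (e n) = e' (F n) := fun n => hS.einj.extend_apply _ _ n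
  set τ1 : C → V → V' := Function.extend e
    (fun n => Function.extend ν (fun w => ν' (τ n w)) (fun _ => v0)) (fun _ _ => v0) with hτ1d
  have hτ1 : ∀ n w, τ1 (e n) (ν w) = ν' (τ n w) := by
    intro n w
    have h1 : τ1 (e n) = Function.extend ν (fun w => ν' (τ n w)) (fun _ => v0) :=
      hS.einj.extend_apply _ _ n
    rw [h1]
    exact hS.vinj.extend_apply _ _ w
  set Φ : C → RA Λ → RA Λ' := Function.extend e
    (fun n => Function.extend j (fun x => j' (κ n x)) (fun _ => 1)) (fun _ _ => 1) with hΦd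
  have hΦ : ∀ n x, Φ (e n) (j x) = j' (κ n x) := by
    intro n x
    have h1 : Φ (e n) = Function.extend j (fun x => j' (κ n x)) (fun _ => 1) :=
      hS.einj.extend_apply _ _ n
    rw [h1]
    exact hj.inj.extend_apply _ _ x
  refine ⟨F1, τ1, Φ, ?_, hF1, hτ1⟩
  have hκ1 : ∀ n, κ n 1 = 1 := by
    intro n
    have h1 := hκ.mul n 1 1
    rw [mul_one, rm_one] at h1
    exact (mul_eq_left.mp h1.symm)
  constructor
  case tbij =>
    intro c hc'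
    obtain ⟨n, rfl⟩ := (hS.erng c).2 hc'
    refine ⟨?_, ?_, ?_⟩
    · intro v hv
      obtain ⟨w, rfl⟩ := (hS.vrng v).2 hv
      rw [hτ1]
      exact (hS'.vrng _).1 ⟨_, rfl⟩
    · intro v hv v2 hv2 h
      obtain ⟨w, rfl⟩ := (hS.vrng v).2 hv
      obtain ⟨w2, rfl⟩ := (hS.vrng v2).2 hv2
      rw [hτ1, hτ1] at h
      rw [(τ n).injective (hS'.vinj h)]
    · intro v' hv'
      obtain ⟨w', rfl⟩ := (hS'.vrng v').2 hv'
      refine ⟨ν ((τ n).symm w'), (hS.vrng _).1 ⟨_, rfl⟩, ?_⟩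
      rw [hτ1, Equiv.apply_symm_apply]
  case tadj =>
    intro c hc' v hv w hw
    obtain ⟨n, rfl⟩ := (hS.erng c).2 hc'
    obtain ⟨a, rfl⟩ := (hS.vrng v).2 hv
    obtain ⟨b, rfl⟩ := (hS.vrng w).2 hw
    rw [hτ1, hτ1, ← hS.adjV, ← hS'.adjV]
    exact hn.adj n a b
  case tcut =>
    intro c hc' v hv
    obtain ⟨n, rfl⟩ := (hS.erng c).2 hc'
    obtain ⟨a, rfl⟩ := (hS.vrng v).2 hv
    rw [hτ1]
    exact hc n a
  case orb =>
    intro c hc'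
    obtain ⟨n, rfl⟩ := (hS.erng c).2 hc'
    rw [hF1]
    exact (hS'.erng _).1 ⟨_, rfl⟩
  case wtau =>
    intro c d v hc' hv hcut hd
    obtain ⟨n, rfl⟩ := (hS.erng c).2 hc'
    obtain ⟨w, rfl⟩ := (hS.vrng v).2 hv
    obtain ⟨m, rfl, x, hx, rfl⟩ := (sub_ob hS (st Γ (ν w))).1 hd
    rw [sub_st hS] at hx
    rw [hτ1, hτ1, (hκ.star n w x hx).2]
  case wal =>
    intro c d v hc' hv hcut hd
    obtain ⟨n, rfl⟩ := (hS.erng c).2 hc'
    obtain ⟨w, rfl⟩ := (hS.vrng v).2 hv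
    obtain ⟨m, rfl, x, hx, rfl⟩ := (sub_ob hS (st Γ (ν w))).1 hd
    rw [sub_st hS] at hx
    rw [hF1, hF1, hτ1]
    refine (sub_ob hS' (st Γ' (ν' (τ n w)))).2 ⟨F (rm ρd n x), rfl, κ n x, ?_, ?_⟩
    · rw [sub_st hS']
      exact (hκ.star n w x hx).1
    · exact (hκ.act n x).symm
  case wali =>
    intro c d v w hc' hd' hv hw hcv hcw hvw hob
    obtain ⟨n, rfl⟩ := (hS.erng c).2 hc'
    obtain ⟨m, rfl⟩ := (hS.erng d).2 hd'
    obtain ⟨w1, rfl⟩ := (hS.vrng v).2 hv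
    obtain ⟨w2, rfl⟩ := (hS.vrng w).2 hw
    rw [hτ1, hτ1] at hvw
    have h1 := hS'.vinj hvw
    rw [hF1, hF1, hτ1] at hob
    obtain ⟨m', hm', y', hy', hy2⟩ := (sub_ob hS' (st Γ' (ν' (τ n w1)))).1 hob
    have h2 := hS'.einj hm'
    rw [sub_st hS'] at hy'
    rw [h2] at hy2
    obtain ⟨x, hx, hxm⟩ := hκ.back n m w1 y' hy' hy2.symm
    have h3 := (hκ.star n w1 x hx).2
    rw [hxm, h1] at h3
    have h4 := (τ m).injective h3
    subst h4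
    refine ⟨rfl, (sub_ob hS (st Γ (ν w1))).2 ⟨m, rfl, x, ?_, hxm⟩⟩
    rw [sub_st hS]
    exact hx
  case wals =>
    intro c' v' hc' hv' hcut
    obtain ⟨n', rfl⟩ := (hS'.erng c').2 hc'
    obtain ⟨w', rfl⟩ := (hS'.vrng v').2 hv'
    refine ⟨e (F.symm n'), ν ((τ (F.symm n')).symm w'), (hS.erng _).1 ⟨_, rfl⟩,
      (hS.vrng _).1 ⟨_, rfl⟩, ?_, ?_⟩
    · rw [hτ1, Equiv.apply_symm_apply]
    · rw [hF1, Equiv.apply_symm_apply]
      exact ob_refl _ _ _ _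
  case map =>
    intro c hc' g hg
    obtain ⟨n, rfl⟩ := (hS.erng c).2 hc'
    obtain ⟨x, hx, rfl⟩ := (sub_sk hS hj n g).1 hg
    rw [hΦ, hF1]
    refine (sub_sk hS' hj' (F n) _).2 ⟨κ n x, ?_, rfl⟩
    rw [mem_stb, ← hκ.act, mem_stb.1 hx]
  case mul =>
    intro c hc' g hg h hh
    obtain ⟨n, rfl⟩ := (hS.erng c).2 hc'
    obtain ⟨x, hx, rfl⟩ := (sub_sk hS hj n g).1 hg
    obtain ⟨y, hy, rfl⟩ := (sub_sk hS hj n h).1 hh
    rw [← map_mul, hΦ, hΦ, hΦ, hκ.mul, mem_stb.1 hx, map_mul]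
  case inj =>
    intro c hc' g hg h hh hgh
    obtain ⟨n, rfl⟩ := (hS.erng c).2 hc'
    obtain ⟨x, hx, rfl⟩ := (sub_sk hS hj n g).1 hg
    obtain ⟨y, hy, rfl⟩ := (sub_sk hS hj n h).1 hh
    rw [hΦ, hΦ] at hgh
    rw [hκ.inj n (hj'.inj hgh)]
  case surj =>
    intro c hc' g' hg'
    obtain ⟨n, rfl⟩ := (hS.erng c).2 hc'
    rw [hF1] at hg'
    obtain ⟨x', hx', rfl⟩ := (sub_sk hS' hj' (F n) g').1 hg'
    obtain ⟨x, rfl⟩ := hκ.surj n x'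
    refine ⟨j x, (sub_sk hS hj n _).2 ⟨x, ?_, rfl⟩, hΦ n x⟩
    rw [mem_stb] at hx' ⊢
    rw [← hκ.act] at hx'
    exact F.injective hx'
  case con =>
    intro c d hc' g hg hgd
    obtain ⟨n, rfl⟩ := (hS.erng c).2 hc'
    obtain ⟨x, -, rfl⟩ := hj.rng Set.univ g (by rw [Set.inter_univ]; exact hg)
    rw [← hj.act] at hgd
    subst hgd
    refine ⟨j' (κ n x), jmp_pb1 hS' hj' _, ?_, ?_⟩
    · rw [hF1, hF1, ← hj'.act, hκ.act]
    · intro l hl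
      obtain ⟨y, hy, rfl⟩ := (sub_sk hS hj (rm ρd n x) l).1 hl
      rw [mem_stb] at hy
      have h1 : κ (rm ρd n x) x⁻¹ = (κ n x)⁻¹ := by
        have h2 := hκ.mul n x x⁻¹
        rw [mul_inv_cancel, hκ1] at h2
        exact (inv_eq_of_mul_eq_one_right h2.symm).symm
      rw [← map_inv, ← map_mul, ← map_mul, hΦ, hΦ, hκ.mul, hκ.mul, rm_mul, hy, h1, map_mul,
        map_mul, map_inv]
  case sgn =>
    intro c v a a' hc' hv hcut ha ha'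
    obtain ⟨n, rfl⟩ := (hS.erng c).2 hc'
    obtain ⟨w, rfl⟩ := (hS.vrng v).2 hv
    obtain ⟨b, rfl⟩ := (hS.irng a).2 (by rw [ha]; exact hv)
    rw [hτ1] at ha'
    obtain ⟨b', rfl⟩ := (hS'.irng a').2 (by rw [ha']; exact (hS'.vrng _).1 ⟨_, rfl⟩)
    rw [hS.com] at ha
    rw [hS'.com] at ha'
    have h1 := hS.vinj ha
    have h2 := hS'.vinj ha'
    obtain ⟨-, h4⟩ := hκ.sgn n w b b' hcut h1 h2
    rw [hF1, ← sub_pr hS, ← sub_pr hS', ← hj.gen, ← map_pow, hΦ, h4, map_zpow, hj'.gen]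

end RaagBL
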