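import Pool.Agent.Lib.MP_32d917_al_bl.KM1
import Pool.Agent.Lib.MP_32d917_al_bl.S07
import Pool.Agent.Lib.MP_32d917_al_gp.C15

/-!
# KM2: sub-codes and local matchings
-/

set_option autoImplicit false

namespace RaagBL

open LatIso RaagIso RaagGP
open AdmIso (Wd mvs fM cmW)

/-! ### sub-codes -/

theorem ksub_cov {c : BC} (h : BVal c) {i : Fin (nB c)} (hi : RigN c i) (x : Fin (cM c.1.1)) :
    ∃ j, j < nS c ∧ sI c j = i ∧ ∃ y, eP c j y = x := by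
  obtain ⟨j, hj, h1, y, hy, h2⟩ := h.2.2.2.2.2.2.2.2.2.2.1 i i.2 hi x x.2
  refine ⟨j, hj, ?_, ⟨y, hy⟩, Fin.ext h2⟩
  apply Fin.ext
  rw [sI_val (by rw [h1]; exact i.2), h1]

theorem ksub_uni {c : BC} (h : BVal c) {j k : ℕ} (hj : j < nS c) (hk : k < nS c)
    (hjk : sI c j = sI c k) {y : Fin (cM (scD c j).1)} {z : Fin (cM (scD c k).1)}
    (e : eP c j y = eP c k z) : j = k := by
  have h1 := sI_val (h.2.2.2.2.2.2.2.2.2.1 j hj).1.1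
  have h2 := sI_val (h.2.2.2.2.2.2.2.2.2.1 k hk).1.1
  exact h.2.2.2.2.2.2.2.2.2.2.2 j hj k hk (by rw [← h1, ← h2, hjk]) y y.2 z z.2
    (congrArg Fin.val e)

theorem ksub_base {V W C Vd Wd Cd : Type} {Γ : SimpleGraph V} {Λ : SimpleGraph W} {π : W → V}
    {S : Set V} {ρ : RA Λ →* Equiv.Perm C} {p q : C} {Γd : SimpleGraph Vd}
    {Λd : SimpleGraph Wd} {πd : Wd → Vd} {ρd : RA Λd →* Equiv.Perm Cd} {e : Cd → C}
    {ι : Wd → W} {ν : Vd → V} (h : Sub Γ π S ρ p Γd πd ρd e ι ν) (hpq : Ob π ρ S p q) :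
    Sub Γ π S ρ q Γd πd ρd e ι ν := by
  refine ⟨h.einj, ?_, h.iinj, h.irng, h.vinj, h.vrng, h.com, h.adjW, h.adjV, h.act⟩
  intro c
  rw [h.erng c]
  exact ⟨fun k => ob_trans (ob_symm hpq) k, fun k => ob_trans hpq k⟩

/-- the sub-code `j` contains the pair `(i, x)` -/
def InJ (c : BC) (i : Fin (nB c)) (x : Fin (cM c.1.1)) (j : ℕ) : Prop :=
  j < nS c ∧ sI c j = i ∧ ∃ y, eP c j y = x

theorem kinJ_sub {c : BC} (h : BVal c) {ρ : RA (gr c.1.1) →* Equiv.Perm (Fin (cM c.1.1))}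
    (hρ : IsRho c.1.1 ρ) {i : Fin (nB c)} {x : Fin (cM c.1.1)} {j : ℕ} (hJ : InJ c i x j)
    {ρd : RA (gr (scD c j).1) →* Equiv.Perm (Fin (cM (scD c j).1))}
    (hρd : IsRho (scD c j).1 ρd) :
    Sub (grG c.1) (piF c.1) (blk c i) ρ x (grG (scD c j)) (piF (scD c j)) ρd (eP c j) (eL c j)
      (eV c j) := by
  obtain ⟨hj, rfl, y, rfl⟩ := hJ
  obtain ⟨-, -, -, h1⟩ := ksub_code h hρ hj
  obtain ⟨-, h2⟩ := h1 ρd hρd
  exact ksub_base h2 ((h2.erng _).1 ⟨y, rfl⟩)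

theorem kinJ_ob {c : BC} (h : BVal c) {ρ : RA (gr c.1.1) →* Equiv.Perm (Fin (cM c.1.1))}
    (hρ : IsRho c.1.1 ρ) {i : Fin (nB c)} {x y : Fin (cM c.1.1)} {j : ℕ} (hJ : InJ c i x j)
    (hxy : Ob (piF c.1) ρ (blk c i) x y) : InJ c i y j := by
  obtain ⟨ρd, hρd⟩ := rho_exists2 (scD c j).1 (ksub_code h hρ hJ.1).2.2.1.2.1
  have h1 := kinJ_sub h hρ hJ hρd
  exact ⟨hJ.1, hJ.2.1, (h1.erng y).2 hxy⟩

theorem kinJ_rev {c : BC} (h : BVal c) {ρ : RA (gr c.1.1) →* Equiv.Perm (Fin (cM c.1.1))}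
    (hρ : IsRho c.1.1 ρ) {i : Fin (nB c)} {x y : Fin (cM c.1.1)} {j : ℕ} (hJ : InJ c i x j)
    (hJ' : InJ c i y j) : Ob (piF c.1) ρ (blk c i) x y := by
  obtain ⟨ρd, hρd⟩ := rho_exists2 (scD c j).1 (ksub_code h hρ hJ.1).2.2.1.2.1
  have h1 := kinJ_sub h hρ hJ hρd
  exact (h1.erng y).1 hJ'.2.2

theorem kinJ_uni {c : BC} (h : BVal c) {i : Fin (nB c)} {x : Fin (cM c.1.1)} {j k : ℕ}
    (hJ : InJ c i x j) (hJ' : InJ c i x k) : j = k := by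
  obtain ⟨hj, h1, y, h2⟩ := hJ
  obtain ⟨hk, h3, z, h4⟩ := hJ'
  exact ksub_uni h hj hk (h1.trans h3.symm) (h2.trans h4.symm)

theorem kinJ_rig {c : BC} (h : BVal c) {ρ : RA (gr c.1.1) →* Equiv.Perm (Fin (cM c.1.1))}
    (hρ : IsRho c.1.1 ρ) {i : Fin (nB c)} {x : Fin (cM c.1.1)} {j : ℕ} (hJ : InJ c i x j) :
    Rig (grG c.1) (blk c i) := by
  obtain ⟨hj, rfl, -⟩ := hJ
  exact (ksub_code h hρ hj).2.1

/-! ### the bijection of the sub-codes -/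

theorem ksg_lt {c c' : BC} {t : MtB} (hn : nS c' = nS c) {j : ℕ} (hj : j < nS c) :
    sgN c' t j < nS c' := by
  have h1 : sgN c' t j < nS c' - 1 + 1 := CB.dg_lt _ _ _
  omega

theorem ksg_surj {c c' : BC} {t : MtB} (h : MS c c' t) {k : ℕ} (hk : k < nS c') :
    ∃ j < nS c, sgN c' t j = k := by
  obtain ⟨hn, hi, -⟩ := h
  have h1 : Function.Injective (fun j : Fin (nS c) =>
      (⟨sgN c' t j, lt_of_lt_of_eq (ksg_lt hn j.2) hn⟩ : Fin (nS c))) := by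
    intro a b hab
    exact Fin.ext (hi a a.2 b b.2 (congrArg Fin.val hab))
  obtain ⟨j, hj⟩ := (Finite.injective_iff_surjective.1 h1) ⟨k, by rw [← hn]; exact hk⟩
  exact ⟨j, j.2, congrArg Fin.val hj⟩

/-! ### images of cut vertices, signs -/

/-- image of the pair `(v, x)` -/
def ksgm (c c' : BC) (t : MtB) (v : Fin (kG c.1)) (x : Fin (cM c.1.1)) :
    Fin (kG c'.1) × Fin (cM c'.1.1) :=
  (⟨pvN c c' t v x, CB.dg_lt _ _ _⟩, ⟨pxN c c' t v x, CB.dg_lt _ _ _⟩)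

/-- sign of the pair `(v, x)` -/
def keps (c : BC) (t : MtB) (v : Fin (kG c.1)) (x : Fin (cM c.1.1)) : ℤˣ :=
  if eN c t v x = 1 then -1 else 1

theorem keps_or (c : BC) (t : MtB) (v : Fin (kG c.1)) (x : Fin (cM c.1.1)) :
    (eN c t v x = 0 ∧ keps c t v x = 1) ∨ (eN c t v x = 1 ∧ keps c t v x = -1) := by
  have h1 : eN c t v x < 1 + 1 := CB.dg_lt _ _ _
  unfold keps
  rcases Nat.lt_or_ge (eN c t v x) 1 with h2 | h2
  · left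
    have h3 : eN c t v x = 0 := by omega
    rw [h3]
    simp
  · right
    have h3 : eN c t v x = 1 := by omega
    rw [h3]
    simp

theorem keps_eq (c : BC) (t : MtB) (v w : Fin (kG c.1)) (x y : Fin (cM c.1.1)) :
    eN c t v x = eN c t w y ↔ keps c t v x = keps c t w y := by
  rcases keps_or c t v x with ⟨h1, h2⟩ | ⟨h1, h2⟩ <;>
    rcases keps_or c t w y with ⟨h3, h4⟩ | ⟨h3, h4⟩ <;> rw [h1, h2, h3, h4] <;> simp

theorem kunit_ne : (1 : ℤˣ) ≠ -1 := by decide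

/-! ### matchings of sub-codes -/

theorem knm_of_good {d d' : Cd2} {ρ : RA (gr d.1) →* Equiv.Perm (Fin (cM d.1))}
    {ρ' : RA (gr d'.1) →* Equiv.Perm (Fin (cM d'.1))} (h : ValN2 d) (h' : ValN2 d')
    (hρ : IsRho d.1 ρ) (hρ' : IsRho d'.1 ρ') {s : Mt2} (hs : ¬ BadM d d' s) :
    ∃ (F : Fin (cM d.1) ≃ Fin (cM d'.1)) (τ : Fin (cM d.1) → Fin (kG d) ≃ Fin (kG d')),
      Rt2 d d' s F τ ∧ Nm2 (grG d) (grG d') (piF d) (piF d') ρ ρ' F τ := by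
  unfold BadM at hs
  push Not at hs
  obtain ⟨h1, h2, h3⟩ := hs
  obtain ⟨F, τ, h4, h5⟩ := mat_to h h' hρ hρ' h1
  exact ⟨F, τ, h4, h5.1, h5.2.1, h5.2.2, (pos_iff h h' hρ hρ' h4).1 (fun ⟨z, hz⟩ => h2 z hz),
    blk_complete h h' hρ hρ' h4 h5 (fun ⟨z, hz⟩ => h3 z hz)⟩

theorem kgood_of_nm {d d' : Cd2} {ρ : RA (gr d.1) →* Equiv.Perm (Fin (cM d.1))}
    {ρ' : RA (gr d'.1) →* Equiv.Perm (Fin (cM d'.1))} (h : ValN2 d) (h' : ValN2 d')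
    (hρ : IsRho d.1 ρ) (hρ' : IsRho d'.1 ρ') {F : Fin (cM d.1) ≃ Fin (cM d'.1)}
    {τ : Fin (cM d.1) → Fin (kG d) ≃ Fin (kG d')}
    (hN : Nm2 (grG d) (grG d') (piF d) (piF d') ρ ρ' F τ) :
    ∃ s, InB2 d s ∧ ¬ BadM d d' s ∧ Rt2 d d' s F τ := by
  obtain ⟨s, h1, h2, h3⟩ := mat_of h h' hρ hρ' ⟨hN.adj, hN.tau, hN.orb⟩
  refine ⟨s, h1, ?_, h3⟩
  rintro (h4 | h4 | h4)
  · exact h4 h2
  · exact (pos_iff h h' hρ hρ' h3).2 hN.pos h4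
  · exact blk_sound h h' hρ hρ' h3 ⟨hN.adj, hN.tau, hN.orb⟩ h4 hN.blk

/-- the local matching of a rigid block -/
theorem kloc_rig {c c' : BC} (h : BVal c) (h' : BVal c')
    {ρ : RA (gr c.1.1) →* Equiv.Perm (Fin (cM c.1.1))}
    {ρ' : RA (gr c'.1.1) →* Equiv.Perm (Fin (cM c'.1.1))} (hρ : IsRho c.1.1 ρ)
    (hρ' : IsRho c'.1.1 ρ') {t : MtB} (hM : MatB c c' t)
    (hbad : ∀ j < nS c, ¬ BadM (scD c j) (scD c' (sgN c' t j)) (tjN c t j))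
    {i : Fin (nB c)} {x : Fin (cM c.1.1)} {j : ℕ} (hJ : InJ c i x j) :
    ∃ (F : Fin (cM c.1.1) → Fin (cM c'.1.1)) (τ : Fin (cM c.1.1) → Fin (kG c.1) → Fin (kG c'.1))
      (Φ : Fin (cM c.1.1) → RA (gr c.1.1) → RA (gr c'.1.1)),
      Loc (grG c.1) (grG c'.1) (piF c.1) (piF c'.1) (blk c) (blk c') ρ ρ' i
        (sI c' (sgN c' t j)) x (eP c' (sgN c' t j) 0) F τ Φ (keps c t) ∧
      ∀ y, Ob (piF c.1) ρ (blk c i) x y → ∀ v ∈ blk c i, Cut (blk c) v →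
        (ksgm c c' t v y).1 = τ y v ∧
          Ob (piF c'.1) ρ' (st (grG c'.1) (τ y v)) (ksgm c c' t v y).2 (F y) := by
  obtain ⟨⟨s1, s2, s3, s4⟩, ⟨p1, p2, p3, p4⟩, ⟨e1, e2⟩, -⟩ := hM
  have hj := hJ.1
  have hk : sgN c' t j < nS c' := ksg_lt s1 hj
  have hV := (ksub_code h hρ hj).2.2.1
  have hV' := (ksub_code h' hρ' hk).2.2.1
  obtain ⟨ρd, hρd⟩ := rho_exists2 (scD c j).1 hV.2.1
  obtain ⟨ρd', hρd'⟩ := rho_exists2 (scD c' (sgN c' t j)).1 hV'.2.1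
  have hS := kinJ_sub h hρ hJ hρd
  have hS' := kinJ_sub h' hρ' (i := sI c' (sgN c' t j)) (x := eP c' (sgN c' t j) 0)
    ⟨hk, rfl, 0, rfl⟩ hρd'
  obtain ⟨F, τ, hR, hN⟩ := knm_of_good hV hV' hρd hρd' (hbad j hj)
  have hc : ∀ n w, Cut (blk c) (eV c j w) ↔ Cut (blk c') (eV c' (sgN c' t j) (τ n w)) := by
    intro n w
    rw [← kcut_iff, ← kcut_iff]
    have k1 := s4 j hj n n.2 w w.2
    have k2 : TjN c t j n w = τ n w := hR.2 n w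
    rw [k2] at k1
    exact k1
  have hε : ∀ v x y, Cut (blk c) v → Ob (piF c.1) ρ (st (grG c.1) v) x y →
      keps c t v y = keps c t v x := by
    intro v x y hv hxy
    rw [← keps_eq]
    exact (e1 v v.2 x x.2 y y.2 ((kcut_iff c v).2 hv) ((kos_iff h.1.1 hρ v x y).2 hxy)).symm
  have hs : Sgn2 (grG (scD c j)) (piF (scD c j)) (piF (scD c' (sgN c' t j))) ρd ρd' F τ
      {w | Cut (blk c) (eV c j w)} (fun n w => keps c t (eV c j w) (eP c j n)) := by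
    have k1 : SgN (scD c j) (scD c' (sgN c' t j)) (tjN c t j) (fun v => CutN c (vtN c j v))
        (fun v y => eN c t (vtN c j v) (ptN c j y)) := fun y hy v hv => e2 j hj y hy v hv
    have k2 := (sgN_iff hV.2.1 hρd hρd' hR _ _ (fun n w => keps c t (eV c j w) (eP c j n))
      (fun y v => keps_or c t (eV c j v) (eP c j y))).1 k1
    have k3 : {w : Fin (kG (scD c j)) | CutN c (vtN c j w)} =
        {w | Cut (blk c) (eV c j w)} := by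
      ext w
      exact kcut_iff c (eV c j w)
    rw [k3] at k2
    exact k2
  obtain ⟨F1, τ1, Φ, hL, hF1, hτ1⟩ := loc_of_nm2 (kctx_code h) (kctx_code h') hS hS' hN hc hε hs
  refine ⟨F1, τ1, Φ, hL, ?_⟩
  intro y hy v hv hcut
  obtain ⟨n, rfl⟩ := (hS.erng y).2 hy
  obtain ⟨w, rfl⟩ := (hS.vrng v).2 hv
  rw [hF1, hτ1]
  obtain ⟨k1, k2⟩ := p4 j hj n n.2 w w.2 ((kcut_iff c (eV c j w)).2 hcut)
  have k3 : TjN c t j n w = τ n w := hR.2 n w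
  have k4 : FjN c t j n = F n := hR.1 n
  rw [k3] at k1
  rw [k4] at k2
  have k5 : (ksgm c c' t (eV c j w) (eP c j n)).1 = eV c' (sgN c' t j) (τ n w) := Fin.ext k1
  refine ⟨k5, ?_⟩
  rw [← k5]
  exact (kos_iff h'.1.1 hρ' (ksgm c c' t (eV c j w) (eP c j n)).1 _ _).1 k2

end RaagBL
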