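import Pool.Agent.Lib.MP_32d917_al_bl.O01

/-!
# S14: assembling a matching (75 min)

For `i` and `c` let `r i c` be a representative of the orbit of `c` under `PB (B i)`: `Ob (B i) c (r i c)`, `r i d = r i c` if `Ob (B i) c d` (`Quotient.out` for the setoid `Ob (B i)`). For `NB Γ B i` choose `F0 i q`, `τ0 i q`, `Φ0 i q` from `hloc i q` for all points `q`, and put `β i c = (T i c).1`, `F i c = F0 i (r i c) c`, `τ i c = τ0 i (r i c) c`, `Φ i c = Φ0 i (r i c) c`.
`T i (r i c) = T i c` (`hT`). So `L = hloc i (r i c)` is a `Loc` from `i` to `i' = (T i c).1` with base points `r i c`, `p' = (T i c).2`. If `Ob (B i) c d` then `r i d = r i c` and `F i d = F0 i (r i c) d`, etc. Then the fields of `Mch`: `nb`, `rig`: `hnb`, `hrig`. `tbij`, `tadj`, `tcut`, `wtau`, `wal`, `map`, `mul`, `inj`, `surj`, `con`, `sgn` directly from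
`L` (`Ob (B i ∩ st v) c d` implies `Ob (B i) c d`). `beta`: `hT`. `orb`: `L.orb` for `c`, `d`, `ob_symm`, `ob_trans`. `orbi`: `Ob (F i c) (F j d)`, `L.orb` for both: `Ob (T i c).2 (T j d).2`, `hinj`. `orbs`: `hsur`: `Ob (T i c).2 c'`, and `L.orb`. `wali`: `L.wali`. `wals`: `hsur` gives `i`, `q` with `(T i q).1 = i'`, `Ob (T i q).2 c'`; `L.wals` for
`hloc i (r i q)`: `c`, `v` with `Ob (B i) (r i q) c`. `pcom`: from the second part of `hloc`. The rest is given.
-/

set_option autoImplicit false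

namespace RaagBL

open RaagIso RaagGP

variable {V W V' W' C C' : Type} {Γ : SimpleGraph V} {Λ : SimpleGraph W} {π : W → V}
  {Γ' : SimpleGraph V'} {Λ' : SimpleGraph W'} {π' : W' → V'} {ρ : RA Λ →* Equiv.Perm C}
  {ρ' : RA Λ' →* Equiv.Perm C'} {m m' : ℕ} {B : Fin m → Set V} {B' : Fin m' → Set V'}

theorem mch_of_loc (T : Fin m → C → Fin m' × C') {σ : V → C → V' × C'} {ε : V → C → ℤˣ}
    (hnb : ∀ i c, NB Γ B i → NB Γ' B' (T i c).1)
    (hrig : ∀ i c, NB Γ B i → (Rig Γ (B i) ↔ Rig Γ' (B' (T i c).1)))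
    (hT : ∀ i c d, NB Γ B i → Ob π ρ (B i) c d → T i d = T i c)
    (hinj : ∀ i j c d, NB Γ B i → NB Γ B j → (T i c).1 = (T j d).1 →
      Ob π' ρ' (B' (T i c).1) (T i c).2 (T j d).2 → i = j ∧ Ob π ρ (B i) c d)
    (hsur : ∀ i' c', NB Γ' B' i' → ∃ i c, NB Γ B i ∧ (T i c).1 = i' ∧
      Ob π' ρ' (B' i') (T i c).2 c')
    (hloc : ∀ i p, NB Γ B i → ∃ (F : C → C') (τ : C → V → V') (Φ : C → RA Λ → RA Λ'),
      Loc Γ Γ' π π' B B' ρ ρ' i (T i p).1 p (T i p).2 F τ Φ ε ∧
        ∀ c, Ob π ρ (B i) p c → ∀ v ∈ B i, Cut B v → (σ v c).1 = τ c v ∧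
          Ob π' ρ' (st Γ' (τ c v)) (σ v c).2 (F c))
    (hpcut : ∀ v c, Cut B v → Cut B' (σ v c).1)
    (hport : ∀ v c d, Cut B v → Ob π ρ (st Γ v) c d →
      (σ v d).1 = (σ v c).1 ∧ Ob π' ρ' (st Γ' (σ v c).1) (σ v c).2 (σ v d).2)
    (hpori : ∀ v w c d, Cut B v → Cut B w → (σ v c).1 = (σ w d).1 →
      Ob π' ρ' (st Γ' (σ v c).1) (σ v c).2 (σ w d).2 → v = w ∧ Ob π ρ (st Γ v) c d)
    (hpors : ∀ v' c', Cut B' v' → ∃ v c, Cut B v ∧ (σ v c).1 = v' ∧
      Ob π' ρ' (st Γ' v') (σ v c).2 c')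
    (hpeps : ∀ v c d, Cut B v → Ob π ρ (st Γ v) c d → ε v d = ε v c)
    (hrank : ∀ v c a a', Cut B v → π a = v → π' a' = (σ v c).1 →
      nPt Γ π ρ v c * pr ρ' a' (σ v c).2 * (nBl B v - 1) =
        nPt Γ' π' ρ' (σ v c).1 (σ v c).2 * pr ρ a c * (nBl B' (σ v c).1 - 1)) :
    ∃ (F : Fin m → C → C') (τ : Fin m → C → V → V') (Φ : Fin m → C → RA Λ → RA Λ'),
      Mch Γ Γ' π π' B B' ρ ρ' (fun i c => (T i c).1) F τ Φ σ ε := by
  classical
  obtain ⟨r, hr1, hr2⟩ : ∃ r : Fin m → C → C, (∀ i c, Ob π ρ (B i) c (r i c)) ∧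
      ∀ i c d, Ob π ρ (B i) c d → r i d = r i c := by
    let S : Fin m → Setoid C := fun i =>
      ⟨Ob π ρ (B i), ⟨ob_refl π ρ (B i), fun h => ob_symm h, fun h h' => ob_trans h h'⟩⟩
    refine ⟨fun i c => Quotient.out (Quotient.mk (S i) c), ?_, ?_⟩
    · intro i c
      exact ob_symm (Quotient.mk_out (s := S i) c)
    · intro i c d h
      show Quotient.out (Quotient.mk (S i) d) = Quotient.out (Quotient.mk (S i) c)
      have h1 : Quotient.mk (S i) d = Quotient.mk (S i) c := Quotient.sound (s := S i) (ob_symm h)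
      rw [h1]
  have hex : ∀ i q, ∃ (F : C → C') (τ : C → V → V') (Φ : C → RA Λ → RA Λ'), NB Γ B i →
      (Loc Γ Γ' π π' B B' ρ ρ' i (T i q).1 q (T i q).2 F τ Φ ε ∧
        ∀ c, Ob π ρ (B i) q c → ∀ v ∈ B i, Cut B v → (σ v c).1 = τ c v ∧
          Ob π' ρ' (st Γ' (τ c v)) (σ v c).2 (F c)) := by
    intro i q
    by_cases h : NB Γ B i
    · obtain ⟨F, τ, Φ, h1⟩ := hloc i q h
      exact ⟨F, τ, Φ, fun _ => h1⟩
    · exact ⟨fun _ => (T i q).2, fun c v => (σ v c).1, fun _ _ => 1, fun h1 => absurd h1 h⟩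
  choose F0 τ0 Φ0 h0 using hex
  have hTr : ∀ i c, NB Γ B i → T i (r i c) = T i c := fun i c h => hT i c (r i c) h (hr1 i c)
  have key : ∀ i c, NB Γ B i → Loc Γ Γ' π π' B B' ρ ρ' i (T i c).1 (r i c) (T i c).2
      (F0 i (r i c)) (τ0 i (r i c)) (Φ0 i (r i c)) ε := by
    intro i c h
    have h1 := (h0 i (r i c) h).1
    rwa [hTr i c h] at h1
  have hrc : ∀ i c, Ob π ρ (B i) (r i c) c := fun i c => ob_symm (hr1 i c)
  have hrd : ∀ i c d, Ob π ρ (B i) c d → Ob π ρ (B i) (r i c) d := fun i c d h =>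
    ob_trans (hrc i c) h
  refine ⟨fun i c => F0 i (r i c) c, fun i c => τ0 i (r i c) c, fun i c => Φ0 i (r i c) c, ?_⟩
  refine
    { nb := hnb
      rig := hrig
      tbij := fun i c h => (key i c h).tbij c (hrc i c)
      tadj := fun i c h => (key i c h).tadj c (hrc i c)
      tcut := fun i c h => (key i c h).tcut c (hrc i c)
      beta := fun i c d h hcd => by
        show (T i d).1 = (T i c).1
        rw [hT i c d h hcd]
      orb := ?_
      orbi := ?_
      orbs := ?_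
      wtau := ?_
      wal := ?_
      wali := ?_
      wals := ?_
      map := fun i c h => (key i c h).map c (hrc i c)
      mul := fun i c h => (key i c h).mul c (hrc i c)
      inj := fun i c h => (key i c h).inj c (hrc i c)
      surj := fun i c h => (key i c h).surj c (hrc i c)
      con := ?_
      sgn := fun i c v a a' h hv hcut ha ha' => (key i c h).sgn c v a a' (hrc i c) hv hcut ha ha'
      pcut := hpcut
      port := hport
      pori := hpori
      pors := hpors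
      pcom := ?_
      peps := hpeps
      rank := hrank }
  · intro i c d h hcd
    show Ob π' ρ' (B' (T i c).1) (F0 i (r i c) c) (F0 i (r i d) d)
    rw [hr2 i c d hcd]
    exact ob_trans (ob_symm ((key i c h).orb c (hrc i c))) ((key i c h).orb d (hrd i c d hcd))
  · intro i j c d h h' e hob
    have e' : (T i c).1 = (T j d).1 := e
    have hob' : Ob π' ρ' (B' (T i c).1) (F0 i (r i c) c) (F0 j (r j d) d) := hob
    have h1 := (key i c h).orb c (hrc i c)
    have h2 := (key j d h').orb d (hrc j d)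
    rw [← e'] at h2
    exact hinj i j c d h h' e' (ob_trans (ob_trans h1 hob') (ob_symm h2))
  · intro i' c' h'
    obtain ⟨i, c, h, e, hob⟩ := hsur i' c' h'
    refine ⟨i, c, h, e, ?_⟩
    have h1 := (key i c h).orb c (hrc i c)
    rw [e] at h1
    exact ob_trans (ob_symm h1) hob
  · intro i c d v h hv hcut hob
    have hcd := ob_mono hob Set.inter_subset_left
    show τ0 i (r i d) d v = τ0 i (r i c) c v
    rw [hr2 i c d hcd]
    exact (key i c h).wtau c d v (hrc i c) hv hcut hob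
  · intro i c d v h hv hcut hob
    have hcd := ob_mono hob Set.inter_subset_left
    show Ob π' ρ' (B' (T i c).1 ∩ st Γ' (τ0 i (r i c) c v)) (F0 i (r i c) c) (F0 i (r i d) d)
    rw [hr2 i c d hcd]
    exact (key i c h).wal c d v (hrc i c) hv hcut hob
  · intro i c d v w h hv hw hcv hcw hcd hτ hO
    have hτ' : τ0 i (r i c) c v = τ0 i (r i d) d w := hτ
    have hO' : Ob π' ρ' (B' (T i c).1 ∩ st Γ' (τ0 i (r i c) c v)) (F0 i (r i c) c)
      (F0 i (r i d) d) := hO
    rw [hr2 i c d hcd] at hτ' hO'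
    exact (key i c h).wali c d v w (hrc i c) (hrd i c d hcd) hv hw hcv hcw hτ' hO'
  · intro i' c' v' h' hv' hcut'
    obtain ⟨i, q, h, e, hob⟩ := hsur i' c' h'
    subst e
    obtain ⟨c, v, hc, hv, hτ, hO⟩ := (key i q h).wals c' v' hob hv' hcut'
    have hqc : Ob π ρ (B i) q c := ob_trans (hr1 i q) hc
    have hr : r i c = r i q := hr2 i q c hqc
    refine ⟨i, c, v, h, hv, ?_, ?_, ?_⟩
    · show (T i c).1 = (T i q).1
      rw [hT i q c h hqc]
    · show τ0 i (r i c) c v = v'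
      rw [hr]
      exact hτ
    · show Ob π' ρ' (B' (T i q).1 ∩ st Γ' v') (F0 i (r i c) c) c'
      rw [hr]
      exact hO
  · intro i c d h g hg hgd
    have hcd : Ob π ρ (B i) c d := ⟨g, hg, hgd⟩
    show ∃ g' ∈ PB Λ' π' (B' (T i c).1), rm ρ' (F0 i (r i c) c) g' = F0 i (r i d) d ∧
      ∀ l ∈ SK π ρ (B i) d, Φ0 i (r i c) c (g * l * g⁻¹) = g' * Φ0 i (r i d) d l * g'⁻¹
    rw [hr2 i c d hcd]
    exact (key i c h).con c d (hrc i c) g hg hgd
  · intro i c v h hv hcut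
    exact (h0 i (r i c) h).2 c (hrc i c) v hv hcut

end RaagBL
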