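import Pool.Agent.Lib.MP_32d917_al_bl.KM2
import Pool.Agent.Lib.MP_32d917_al_bl.S14

/-!
# KM3: from matchings of codes to matchings
-/

set_option autoImplicit false

namespace RaagBL

open LatIso RaagIso RaagGP
open AdmIso (Wd mvs fM cmW)

/-- image of the pair `(i, x)`, `i` a flat block -/
def kfim (c c' : BC) (t : MtB) (i : Fin (nB c)) (x : Fin (cM c.1.1)) :
    Fin (nB c') × Fin (cM c'.1.1) :=
  (⟨fiN c c' t i x, CB.dg_lt _ _ _⟩, ⟨fxN c c' t i x, CB.dg_lt _ _ _⟩)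

theorem kedge_eq {V : Type} {Γ : SimpleGraph V} {S : Set V} (h : Edg Γ S) {v w : V} (hv : v ∈ S)
    (hw : w ∈ S) (hvw : v ≠ w) : S = {v, w} ∧ Γ.Adj v w := by
  obtain ⟨a, b, hab, rfl⟩ := h
  rcases hv with rfl | hv <;> rcases hw with rfl | hw
  · exact absurd rfl hvw
  · rw [Set.mem_singleton_iff] at hw
    subst hw
    exact ⟨rfl, hab⟩
  · rw [Set.mem_singleton_iff] at hv
    subst hv
    exact ⟨Set.pair_comm _ _, hab.symm⟩
  · rw [Set.mem_singleton_iff] at hv hw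
    exact absurd (hv.trans hw.symm) hvw

section

variable {c c' : BC} (h : BVal c) (h' : BVal c')
  {ρ : RA (gr c.1.1) →* Equiv.Perm (Fin (cM c.1.1))}
  {ρ' : RA (gr c'.1.1) →* Equiv.Perm (Fin (cM c'.1.1))} (hρ : IsRho c.1.1 ρ)
  (hρ' : IsRho c'.1.1 ρ') {t : MtB} (hM : MatB c c' t)

include h h' hρ hρ' hM

theorem kport (v : Fin (kG c.1)) (x y : Fin (cM c.1.1)) (hv : Cut (blk c) v)
    (hxy : Ob (piF c.1) ρ (st (grG c.1) v) x y) : (ksgm c c' t v y).1 = (ksgm c c' t v x).1 ∧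
      Ob (piF c'.1) ρ' (st (grG c'.1) (ksgm c c' t v x).1) (ksgm c c' t v x).2
        (ksgm c c' t v y).2 := by
  obtain ⟨-, ⟨p1, p2, p3, p4⟩, -⟩ := hM
  have h1 := (kcut_iff c v).2 hv
  obtain ⟨k1, k2⟩ := (p2 v v.2 x x.2 v v.2 y y.2 h1 h1).1 ⟨rfl, (kos_iff h.1.1 hρ v x y).2 hxy⟩
  exact ⟨Fin.ext k1.symm, (kos_iff h'.1.1 hρ' (ksgm c c' t v x).1 _ _).1 k2⟩

theorem kpori (v w : Fin (kG c.1)) (x y : Fin (cM c.1.1)) (hv : Cut (blk c) v)
    (hw : Cut (blk c) w) (h1 : (ksgm c c' t v x).1 = (ksgm c c' t w y).1)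
    (h2 : Ob (piF c'.1) ρ' (st (grG c'.1) (ksgm c c' t v x).1) (ksgm c c' t v x).2
        (ksgm c c' t w y).2) : v = w ∧ Ob (piF c.1) ρ (st (grG c.1) v) x y := by
  obtain ⟨-, ⟨p1, p2, p3, p4⟩, -⟩ := hM
  obtain ⟨k1, k2⟩ := (p2 v v.2 x x.2 w w.2 y y.2 ((kcut_iff c v).2 hv) ((kcut_iff c w).2 hw)).2
    ⟨congrArg Fin.val h1, (kos_iff h'.1.1 hρ' (ksgm c c' t v x).1 _ _).2 h2⟩
  exact ⟨Fin.ext k1, (kos_iff h.1.1 hρ v x y).1 k2⟩

theorem kpors (v' : Fin (kG c'.1)) (x' : Fin (cM c'.1.1)) (hv : Cut (blk c') v') :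
    ∃ v x, Cut (blk c) v ∧ (ksgm c c' t v x).1 = v' ∧
      Ob (piF c'.1) ρ' (st (grG c'.1) v') (ksgm c c' t v x).2 x' := by
  obtain ⟨-, ⟨p1, p2, p3, p4⟩, -⟩ := hM
  obtain ⟨v, hv1, x, hx, k1, k2, k3⟩ := p3 v' v'.2 x' x'.2 ((kcut_iff c' v').2 hv)
  exact ⟨⟨v, hv1⟩, ⟨x, hx⟩, (kcut_iff c ⟨v, hv1⟩).1 k1, Fin.ext k2,
    (kos_iff h'.1.1 hρ' v' _ _).1 k3⟩

theorem kpcut (v : Fin (kG c.1)) (x : Fin (cM c.1.1)) (hv : Cut (blk c) v) :
    Cut (blk c') (ksgm c c' t v x).1 := by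
  obtain ⟨-, ⟨p1, p2, p3, p4⟩, -⟩ := hM
  exact (kcut_iff c' _).1 (p1 v v.2 x x.2 ((kcut_iff c v).2 hv))

theorem kpeps (v : Fin (kG c.1)) (x y : Fin (cM c.1.1)) (hv : Cut (blk c) v)
    (hxy : Ob (piF c.1) ρ (st (grG c.1) v) x y) : keps c t v y = keps c t v x := by
  obtain ⟨-, -, ⟨e1, e2⟩, -⟩ := hM
  rw [← keps_eq]
  exact (e1 v v.2 x x.2 y y.2 ((kcut_iff c v).2 hv) ((kos_iff h.1.1 hρ v x y).2 hxy)).symm

theorem krank (v : Fin (kG c.1)) (x : Fin (cM c.1.1)) (a : Fin (cK c.1.1)) (a' : Fin (cK c'.1.1))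
    (hv : Cut (blk c) v) (ha : piF c.1 a = v) (ha' : piF c'.1 a' = (ksgm c c' t v x).1) :
    nPt (grG c.1) (piF c.1) ρ v x * pr ρ' a' (ksgm c c' t v x).2 * (nBl (blk c) v - 1) =
      nPt (grG c'.1) (piF c'.1) ρ' (ksgm c c' t v x).1 (ksgm c c' t v x).2 * pr ρ a x *
        (nBl (blk c') (ksgm c c' t v x).1 - 1) := by
  obtain ⟨-, -, -, -, -, r1⟩ := hM
  obtain ⟨k, -, k', -, k1, k2, k3⟩ := r1 v v.2 x x.2 ((kcut_iff c v).2 hv) a a.2 a' a'.2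
    (congrArg Fin.val ha) (congrArg Fin.val ha')
  rw [perN_iff hρ] at k1
  have k4 := (perN_iff hρ' (ksgm c c' t v x).2 a' k').1 k2
  have e1 : cntN (cM c.1.1) (OsN c v x) = nPt (grG c.1) (piF c.1) ρ v x := by
    rw [cntN_eq]
    exact Nat.card_congr (Equiv.subtypeEquivRight fun d => kos_iff h.1.1 hρ v x d)
  have e2 : cntN (cM c'.1.1) (OsN c' (pvN c c' t v x) (pxN c c' t v x)) =
      nPt (grG c'.1) (piF c'.1) ρ' (ksgm c c' t v x).1 (ksgm c c' t v x).2 := by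
    rw [cntN_eq]
    exact Nat.card_congr (Equiv.subtypeEquivRight fun d =>
      kos_iff h'.1.1 hρ' (ksgm c c' t v x).1 (ksgm c c' t v x).2 d)
  have e3 : cntN (nB c) (fun i => InK c i v) = nBl (blk c) v := cntN_eq _ _
  have e4 : cntN (nB c') (fun i => InK c' i (pvN c c' t v x)) =
      nBl (blk c') (ksgm c c' t v x).1 := cntN_eq _ _
  rw [e1, e2, e3, e4, k1, k4] at k3
  exact k3

/-- the local matching of a flat block -/
theorem kloc_flt {i : Fin (nB c)} (hi : FltN c i) (x : Fin (cM c.1.1)) :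
    ∃ (F : Fin (cM c.1.1) → Fin (cM c'.1.1)) (τ : Fin (cM c.1.1) → Fin (kG c.1) → Fin (kG c'.1))
      (Φ : Fin (cM c.1.1) → RA (gr c.1.1) → RA (gr c'.1.1)),
      Loc (grG c.1) (grG c'.1) (piF c.1) (piF c'.1) (blk c) (blk c') ρ ρ' i
        (kfim c c' t i x).1 x (kfim c c' t i x).2 F τ Φ (keps c t) ∧
      ∀ y, Ob (piF c.1) ρ (blk c i) x y → ∀ v ∈ blk c i, Cut (blk c) v →
        (ksgm c c' t v y).1 = τ y v ∧
          Ob (piF c'.1) ρ' (st (grG c'.1) (τ y v)) (ksgm c c' t v y).2 (F y) := by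
  have hM' := hM
  obtain ⟨-, -, -, ⟨f1, f2, f3, f4, f5, f6⟩, l1, -⟩ := hM
  have hX := kctx_code h
  have hX' := kctx_code h'
  obtain ⟨hE, hcut⟩ := (kflt_iff c i).1 hi
  obtain ⟨v, w, hvw, hBi⟩ := hE
  obtain ⟨a, rfl⟩ := hX.bu.surj v
  obtain ⟨b, rfl⟩ := hX.bu.surj w
  have ha : piF c.1 a ∈ blk c i := by
    rw [hBi]
    exact Or.inl rfl
  have hb : piF c.1 b ∈ blk c i := by
    rw [hBi]
    exact Or.inr rfl
  have hne : ¬ piN c.1 a = piN c.1 b := fun e => hvw.ne (Fin.ext e)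
  have hi' : FltN c' (kfim c c' t i x).1 := f1 i i.2 x x.2 hi
  obtain ⟨hE', hcut'⟩ := (kflt_iff c' _).1 hi'
  obtain ⟨a', ha'⟩ := hX'.bu.surj (ksgm c c' t (piF c.1 a) x).1
  obtain ⟨b', hb'⟩ := hX'.bu.surj (ksgm c c' t (piF c.1 b) x).1
  have ka := f5 i i.2 x x.2 hi (piN c.1 a) (piF c.1 a).2 ha
  have kb := f5 i i.2 x x.2 hi (piN c.1 b) (piF c.1 b).2 hb
  have ka1 : piF c'.1 a' ∈ blk c' (kfim c c' t i x).1 := by
    rw [ha']
    exact ka.1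
  have kb1 : piF c'.1 b' ∈ blk c' (kfim c c' t i x).1 := by
    rw [hb']
    exact kb.1
  have hne' : piF c'.1 a' ≠ piF c'.1 b' := by
    rw [ha', hb']
    intro e
    exact f6 i i.2 x x.2 hi (piN c.1 a) (piF c.1 a).2 (piN c.1 b) (piF c.1 b).2 ha hb hne
      (congrArg Fin.val e)
  obtain ⟨hBi', hab'⟩ := kedge_eq hE' ka1 kb1 hne'
  obtain ⟨k, -, l, -, k', -, l', -, q1, q2, q3, q4, q5, q6⟩ := l1 i i.2 x x.2 hi (piN c.1 a)
    (piF c.1 a).2 (piN c.1 b) (piF c.1 b).2 ha hb hne a a.2 b b.2 a' a'.2 b' b'.2 rfl rfl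
    (congrArg Fin.val ha') (congrArg Fin.val hb')
  have r1 := (perN_iff hρ x a k).1 q1
  have r2 := (perN_iff hρ x b l).1 q2
  have r3 := (perN_iff hρ' (kfim c c' t i x).2 a' k').1 q3
  have r4 := (perN_iff hρ' (kfim c c' t i x).2 b' l').1 q4
  subst r1 r2 r3 r4
  have hst := keps_eq c t (piF c.1 a) (piF c.1 b) x x
  have hL1 := (ltN_iff hρ hρ' x a b (kfim c c' t i x).2 a' b' _ _ _ _ hst).1 q5
  have hL2 := (ltN_iff hρ' hρ (kfim c c' t i x).2 a' b' x a b _ _ _ _ hst).1 q6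
  obtain ⟨τ1, Φ, hL, t1, t2⟩ := loc_of_lat hX hX' (i := i) (i' := (kfim c c' t i x).1) (p := x)
    (p' := (kfim c c' t i x).2) ((knb_iff h i).2 (Or.inr hi)) ((knb_iff h' _).2 (Or.inr hi')) hvw
    hab' hBi hBi' (ε := keps c t) (kpeps h h' hρ hρ' hM') hL1 hL2
  refine ⟨fun _ => (kfim c c' t i x).2, fun _ => τ1, Φ, hL, ?_⟩
  intro y hy v hv hcv
  have hst' : blk c i ⊆ st (grG c.1) v := by
    rw [hBi] at hv ⊢
    intro u hu
    rcases hv with rfl | hv <;> rcases hu with rfl | hu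
    · exact Or.inl rfl
    · rw [Set.mem_singleton_iff] at hu
      rw [hu]
      exact Or.inr hvw
    · rw [Set.mem_singleton_iff] at hv
      rw [hv]
      exact Or.inr hvw.symm
    · rw [Set.mem_singleton_iff] at hv hu
      rw [hu, hv]
      exact Or.inl rfl
  have m1 := kport h h' hρ hρ' hM' v x y hcv (ob_mono hy hst')
  have m2 : (ksgm c c' t v x).1 = τ1 v := by
    have hv' := hv
    rw [hBi] at hv'
    rcases hv' with rfl | hv'
    · rw [t1, ha']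
    · rw [Set.mem_singleton_iff] at hv'
      rw [hv', t2, hb']
  refine ⟨m1.1.trans m2, ?_⟩
  have m3 := f5 i i.2 y y.2 hi v v.2 hv
  have m4 := f2 i i.2 x x.2 y y.2 hi ((kob_iff h.1.1 hρ i x y).2 hy)
  have m5 := (kos_iff h'.1.1 hρ' (ksgm c c' t v y).1 (ksgm c c' t v y).2 (kfim c c' t i y).2).1 m3.2
  have m6 : (kfim c c' t i y).2 = (kfim c c' t i x).2 := Fin.ext m4.2
  rw [m6, m1.1.trans m2] at m5
  exact m5

end

open Classical in
/-- images of the pairs `(i, x)` -/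
noncomputable def Tm (c c' : BC) (t : MtB) (J : Fin (nB c) → Fin (cM c.1.1) → ℕ)
    (i : Fin (nB c)) (x : Fin (cM c.1.1)) : Fin (nB c') × Fin (cM c'.1.1) :=
  if RigN c i then (sI c' (sgN c' t (J i x)), eP c' (sgN c' t (J i x)) 0) else kfim c c' t i x

theorem tm_rig {c c' : BC} {t : MtB} {J : Fin (nB c) → Fin (cM c.1.1) → ℕ} {i : Fin (nB c)}
    (hi : RigN c i) (x : Fin (cM c.1.1)) :
    Tm c c' t J i x = (sI c' (sgN c' t (J i x)), eP c' (sgN c' t (J i x)) 0) := by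
  unfold Tm
  rw [if_pos hi]

theorem flt_nrig {c : BC} {i : Fin (nB c)} (hi : FltN c i) : ¬ RigN c i := by
  intro h1
  exact kedg_not_rig ((kedg_iff c i).1 hi.1) ((krig_iff c i).1 h1)

theorem tm_flt {c c' : BC} {t : MtB} {J : Fin (nB c) → Fin (cM c.1.1) → ℕ} {i : Fin (nB c)}
    (hi : FltN c i) (x : Fin (cM c.1.1)) : Tm c c' t J i x = kfim c c' t i x := by
  unfold Tm
  rw [if_neg (flt_nrig hi)]

theorem mch_of_good {c c' : BC} (h : BVal c) (h' : BVal c')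
    {ρ : RA (gr c.1.1) →* Equiv.Perm (Fin (cM c.1.1))}
    {ρ' : RA (gr c'.1.1) →* Equiv.Perm (Fin (cM c'.1.1))} (hρ : IsRho c.1.1 ρ)
    (hρ' : IsRho c'.1.1 ρ') {t : MtB} (ht : ¬ BadB c c' t) :
    ∃ (β : Fin (nB c) → Fin (cM c.1.1) → Fin (nB c'))
      (F : Fin (nB c) → Fin (cM c.1.1) → Fin (cM c'.1.1))
      (τ : Fin (nB c) → Fin (cM c.1.1) → Fin (kG c.1) → Fin (kG c'.1))
      (Φ : Fin (nB c) → Fin (cM c.1.1) → RA (gr c.1.1) → RA (gr c'.1.1))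
      (σ : Fin (kG c.1) → Fin (cM c.1.1) → Fin (kG c'.1) × Fin (cM c'.1.1))
      (ε : Fin (kG c.1) → Fin (cM c.1.1) → ℤˣ),
      Mch (grG c.1) (grG c'.1) (piF c.1) (piF c'.1) (blk c) (blk c') ρ ρ' β F τ Φ σ ε := by
  classical
  unfold BadB at ht
  push Not at ht
  obtain ⟨hM, hbad⟩ := ht
  have hex : ∀ (i : Fin (nB c)) (x : Fin (cM c.1.1)), ∃ j, RigN c i → InJ c i x j := by
    intro i x
    by_cases hi : RigN c i
    · obtain ⟨j, h1, h2, h3⟩ := ksub_cov h hi x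
      exact ⟨j, fun _ => ⟨h1, h2, h3⟩⟩
    · exact ⟨0, fun h1 => absurd h1 hi⟩
  choose J hJ using hex
  have hM' := hM
  obtain ⟨⟨s1, s2, s3, s4⟩, -, -, ⟨f1, f2, f3, f4, f5, f6⟩, -, -⟩ := hM'
  -- rigid images
  have hR : ∀ (i : Fin (nB c)) (x : Fin (cM c.1.1)), RigN c i → InJ c' (Tm c c' t J i x).1 (Tm c c' t J i x).2
      (sgN c' t (J i x)) := by
    intro i x hi
    rw [tm_rig hi]
    exact ⟨ksg_lt s1 (hJ i x hi).1, rfl, 0, rfl⟩
  have hRR : ∀ (i : Fin (nB c)) (x : Fin (cM c.1.1)), RigN c i → RigN c' (Tm c c' t J i x).1 := fun i x hi =>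
    (krig_iff c' _).2 (kinJ_rig h' hρ' (hR i x hi))
  have hFF : ∀ (i : Fin (nB c)) (x : Fin (cM c.1.1)), FltN c i → FltN c' (Tm c c' t J i x).1 := by
    intro i x hi
    rw [tm_flt hi]
    exact f1 i i.2 x x.2 hi
  suffices hs : ∃ (F : Fin (nB c) → Fin (cM c.1.1) → Fin (cM c'.1.1))
      (τ : Fin (nB c) → Fin (cM c.1.1) → Fin (kG c.1) → Fin (kG c'.1))
      (Φ : Fin (nB c) → Fin (cM c.1.1) → RA (gr c.1.1) → RA (gr c'.1.1)),
      Mch (grG c.1) (grG c'.1) (piF c.1) (piF c'.1) (blk c) (blk c') ρ ρ'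
        (fun i x => (Tm c c' t J i x).1) F τ Φ (ksgm c c' t) (keps c t) by
    obtain ⟨F, τ, Φ, hMch⟩ := hs
    exact ⟨_, F, τ, Φ, _, _, hMch⟩
  refine mch_of_loc (Tm c c' t J) ?_ ?_ ?_ ?_ ?_ ?_ (kpcut h h' hρ hρ' hM)
    (kport h h' hρ hρ' hM) (kpori h h' hρ hρ' hM) (kpors h h' hρ hρ' hM)
    (kpeps h h' hρ hρ' hM) (krank h h' hρ hρ' hM)
  · intro i x hi
    rcases (knb_iff h i).1 hi with h1 | h1
    · exact (knb_iff h' _).2 (Or.inl (hRR i x h1))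
    · exact (knb_iff h' _).2 (Or.inr (hFF i x h1))
  · intro i x hi
    rcases (knb_iff h i).1 hi with h1 | h1
    · exact iff_of_true ((krig_iff c i).1 h1) ((krig_iff c' _).1 (hRR i x h1))
    · refine iff_of_false (fun k => flt_nrig h1 ((krig_iff c i).2 k)) (fun k => ?_)
      exact flt_nrig (hFF i x h1) ((krig_iff c' _).2 k)
  · intro i x y hi hxy
    rcases (knb_iff h i).1 hi with h1 | h1
    · have h2 : J i y = J i x := kinJ_uni h (hJ i y h1) (kinJ_ob h hρ (hJ i x h1) hxy)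
      rw [tm_rig h1, tm_rig h1, h2]
    · rw [tm_flt h1, tm_flt h1]
      have h2 := f2 i i.2 x x.2 y y.2 h1 ((kob_iff h.1.1 hρ i x y).2 hxy)
      exact Prod.ext (Fin.ext h2.1) (Fin.ext h2.2)
  · intro i j x y hi hj hT hO
    rcases (knb_iff h i).1 hi with h1 | h1 <;> rcases (knb_iff h j).1 hj with h2 | h2
    · have h3 := hR i x h1
      have h4 := hR j y h2
      rw [← hT] at h4
      have h5 := kinJ_uni h' (kinJ_ob h' hρ' h3 hO) h4
      have h6 := s2 _ (hJ i x h1).1 _ (hJ j y h2).1 h5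
      have h7 : i = j := by
        rw [← (hJ i x h1).2.1, ← (hJ j y h2).2.1, h6]
      subst h7
      refine ⟨rfl, ?_⟩
      have h8 := hJ i x h1
      rw [h6] at h8
      exact kinJ_rev h hρ h8 (hJ i y h2)
    · exfalso
      have h3 := hRR i x h1
      rw [hT] at h3
      exact flt_nrig (hFF j y h2) h3
    · exfalso
      have h3 := hRR j y h2
      rw [← hT] at h3
      exact flt_nrig (hFF i x h1) h3
    · rw [tm_flt h1, tm_flt h2] at hT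
      rw [tm_flt h1, tm_flt h2] at hO
      obtain ⟨k1, k2⟩ := f3 i i.2 x x.2 j j.2 y y.2 h1 h2 (congrArg Fin.val hT)
        ((kob_iff h'.1.1 hρ' (kfim c c' t i x).1 _ _).2 hO)
      exact ⟨Fin.ext k1, (kob_iff h.1.1 hρ i x y).1 k2⟩
  · intro i' x' hi'
    rcases (knb_iff h' i').1 hi' with h1 | h1
    · obtain ⟨k, hk⟩ : ∃ k, InJ c' i' x' k := ksub_cov h' h1 x'
      obtain ⟨j, hj, hjk⟩ := ksg_surj hM.1 hk.1
      have h2 : InJ c (sI c j) (eP c j 0) j := ⟨hj, rfl, 0, rfl⟩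
      have h3 : RigN c (sI c j) := (krig_iff c _).2 (kinJ_rig h hρ h2)
      have h4 : J (sI c j) (eP c j 0) = j := kinJ_uni h (hJ _ _ h3) h2
      refine ⟨sI c j, eP c j 0, (knb_iff h _).2 (Or.inl h3), ?_, ?_⟩
      · rw [tm_rig h3, h4, hjk]
        exact hk.2.1
      · have h5 := hR (sI c j) (eP c j 0) h3
        rw [h4, hjk] at h5
        have h6 : (Tm c c' t J (sI c j) (eP c j 0)).1 = i' := by
          rw [← h5.2.1, hk.2.1]
        rw [h6] at h5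
        exact kinJ_rev h' hρ' h5 hk
    · obtain ⟨i, hi, x, hx, k1, k2, k3⟩ := f4 i' i'.2 x' x'.2 h1
      have k1' : FltN c (⟨i, hi⟩ : Fin (nB c)) := k1
      refine ⟨⟨i, hi⟩, ⟨x, hx⟩, (knb_iff h _).2 (Or.inr k1'), ?_, ?_⟩
      · rw [tm_flt k1']
        exact Fin.ext k2
      · rw [tm_flt k1']
        exact (kob_iff h'.1.1 hρ' i' _ _).1 k3
  · intro i x hi
    rcases (knb_iff h i).1 hi with h1 | h1
    · rw [tm_rig h1]
      exact kloc_rig h h' hρ hρ' hM hbad (hJ i x h1)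
    · rw [tm_flt h1]
      exact kloc_flt h h' hρ hρ' hM h1 x

end RaagBL
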