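import Pool.Agent.Lib.MP_32d917_al_gp.H08
import Pool.Agent.Lib.MP_32d917_al_raag.B03
import Pool.Agent.Lib.MP_32d917_al_bl.O01

/-!
# S10: the data of a generalised isomorphism, with all connections (45 min)

Copy the proof of `dt2_of_gi` (`MP_32d917_al_gp/H01.lean`): `F`, `τ'`, `la` are defined there by representatives `X c` with `rm ρ c0 (X c) = c`; the extra statements are contained in its steps (`hF` there, equivariance `he`: for `x`, `y` with `rm ρ c0 x = rm ρ c0 y` is `h = y * x⁻¹ ∈ stb ρ c0`, `f y = φ h * f x`, `τ y = τ x`,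
`f (y * g) = φ h * f (x * g)`).
-/

set_option autoImplicit false

namespace RaagBL

open RaagIso RaagGP

variable {V W V' W' C C' : Type} {Γ : SimpleGraph V} {Λ : SimpleGraph W} {π : W → V}
  {Γ' : SimpleGraph V'} {Λ' : SimpleGraph W'} {π' : W' → V'}

theorem dt2_of_gi3 {ρ : RA Λ →* Equiv.Perm C} {ρ' : RA Λ' →* Equiv.Perm C'} (hρ : Trn ρ)
    (hρ' : Trn ρ') {c0 : C} {c0' : C'} (φ : stb ρ c0 ≃* stb ρ' c0') (f : RA Λ ≃ RA Λ')
    (τ : RA Λ → V ≃ V') (hG : GI2 Γ Γ' π π' f τ)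
    (hs : ∀ x v g', g' ∈ PB Λ' π' {τ x v} → ∃ g ∈ PB Λ π {v}, f (x * g) = f x * g')
    (he : ∀ (h : stb ρ c0) (x : RA Λ), f (h * x) = φ h * f x ∧ τ (h * x) = τ x) :
    ∃ (F : C ≃ C') (τ' : C → V ≃ V') (la : C → V → RA Λ → RA Λ'),
      Dt2 Γ Γ' π π' ρ ρ' F τ' la ∧ (∀ x, F (rm ρ c0 x) = rm ρ' c0' (f x)) ∧
        (∀ x, τ' (rm ρ c0 x) = τ x) ∧
        ∀ x v g, g ∈ PB Λ π {v} → la (rm ρ c0 x) v g = (f x)⁻¹ * f (x * g) := by
  choose X hX using hρ c0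
  have hF : ∀ x, rm ρ' c0' (f (X (rm ρ c0 x))) = rm ρ' c0' (f x) := by
    intro x
    obtain ⟨k, hk⟩ := b03_wd (hX (rm ρ c0 x)).symm
    rw [hk, (he k x).1, b03_stb]
  have hT : ∀ x, τ (X (rm ρ c0 x)) = τ x := by
    intro x
    obtain ⟨k, hk⟩ := b03_wd (hX (rm ρ c0 x)).symm
    rw [hk, (he k x).2]
  have hL : ∀ x g, (f (X (rm ρ c0 x)))⁻¹ * f (X (rm ρ c0 x) * g) = (f x)⁻¹ * f (x * g) := by
    intro x g
    obtain ⟨k, hk⟩ := b03_wd (hX (rm ρ c0 x)).symm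
    rw [hk, mul_assoc (k : RA Λ) x g, (he k x).1, (he k (x * g)).1]
    group
  have hinj : Function.Injective (fun c => rm ρ' c0' (f (X c))) := by
    intro c d hcd
    obtain ⟨k', hk'⟩ := b03_wd hcd
    obtain ⟨k, rfl⟩ := φ.surjective k'
    rw [← (he k _).1] at hk'
    have h1 := f.injective hk'
    rw [← hX c, ← hX d, h1, b03_stb]
  have hsur : Function.Surjective (fun c => rm ρ' c0' (f (X c))) := by
    intro c'
    obtain ⟨y, hy⟩ := hρ' c0' c'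
    refine ⟨rm ρ c0 (f.symm y), ?_⟩
    show rm ρ' c0' (f (X (rm ρ c0 (f.symm y)))) = c'
    rw [hF, f.apply_symm_apply, hy]
  have hgen : ∀ (x : RA Λ) (y : RA Λ), rm ρ (rm ρ c0 x) y = rm ρ c0 (x * y) :=
    fun x y => (rm_mul _ _ _ _).symm
  refine ⟨Equiv.ofBijective _ ⟨hinj, hsur⟩, fun c => τ (X c),
    fun c _ g => (f (X c))⁻¹ * f (X c * g), ?_, fun x => hF x, fun x => hT x,
    fun x _ g _ => hL x g⟩
  constructor
  · intro c v w
    exact hG.adj (X c) v w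
  · intro c v w g hg hw
    obtain ⟨x, rfl⟩ := hρ c0 c
    show τ (X (rm ρ (rm ρ c0 x) g)) w = τ (X (rm ρ c0 x)) w
    rw [hgen, hT, hT]
    exact hG.tau x v w g hg hw
  · intro c v g hg
    exact hG.mem (X c) v g hg
  · intro c v g h _ _
    obtain ⟨x, rfl⟩ := hρ c0 c
    show (f (X (rm ρ c0 x)))⁻¹ * f (X (rm ρ c0 x) * (g * h)) =
      (f (X (rm ρ c0 x)))⁻¹ * f (X (rm ρ c0 x) * g) *
        ((f (X (rm ρ (rm ρ c0 x) g)))⁻¹ * f (X (rm ρ (rm ρ c0 x) g) * h))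
    rw [hgen, hL, hL, hL, ← mul_assoc x g h]
    group
  · intro c v g y hg hy
    obtain ⟨x, rfl⟩ := hρ c0 c
    show (f (X (rm ρ (rm ρ c0 x) y)))⁻¹ * f (X (rm ρ (rm ρ c0 x) y) * g) =
      (f (X (rm ρ c0 x)))⁻¹ * f (X (rm ρ c0 x) * g)
    rw [hgen, hL, hL]
    exact hG.lam x v g y hg hy
  · intro c v g hg
    obtain ⟨x, rfl⟩ := hρ c0 c
    show rm ρ' c0' (f (X (rm ρ (rm ρ c0 x) g))) =
      rm ρ' (rm ρ' c0' (f (X (rm ρ c0 x)))) ((f (X (rm ρ c0 x)))⁻¹ * f (X (rm ρ c0 x) * g))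
    rw [hgen, hF, hF, hL, ← rm_mul, mul_inv_cancel_left]
  · intro c v g' hg'
    obtain ⟨g, hg, h⟩ := hs (X c) v g' hg'
    exact ⟨g, hg, by rw [h, inv_mul_cancel_left]⟩
  · intro c v g h _ _ hgh
    exact mul_left_cancel (f.injective (mul_left_cancel hgh))

end RaagBL
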