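import Pool.Agent.Lib.MP_32d917_al_bl.S02

/-!
# S11: signs of data (60 min)

`sgn2_of_dt2`. Let `v ∈ Mk`, `a`, `a'` the letters, `c : C`. `nm2_of_dt2` gives `Nm2`, so `pst_zpow`. For `gen a ^ k ∈ Pst v c` put `la c v (gen a ^ k) = gen a' ^ (n k)` (`Dt2.mem`, `pb_zpow`). `n (k + l) = n k + n l` for such `k`, `l`: `Dt2.mul`, `Ps v c (rm ρ c (gen a ^ k))`, so `la (rm ρ c (gen a ^ k)) v = la c v` on `PB {v}` (`Dt2.lam`).
`n k` is in `Q' = {l : gen a' ^ l ∈ Pst' (τ c v) (F c)}`: `F (rm ρ c (gen a ^ k)) = rm ρ' (F c) (gen a' ^ n k)` (`act`) has the position of `F c` (`ps_map`). `Q' = Q := {k : gen a ^ k ∈ Pst v c}` by `pst_zpow`, a subgroup `q ℤ` of `ℤ`, `q > 0`, since `pr ρ a c ∈ Q`. `n` is injective on `Q` (`Dt2.inj`), and every `l ∈ Q'` is `n k` for some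
`k ∈ Q` (`Dt2.surj`: `gen a' ^ l = la c v (gen a ^ k)`; `F (rm ρ c (gen a ^ k))` has the position of `F c`, `ps_back`). So `n` is an automorphism of `q ℤ`: `n q = ± q` (`n k = δ * k` with `δ = ±1`). With `k = pr ρ a c`: `δ * pr ρ a c = ε * pr ρ' a' (F c)` by the hypothesis and `gen_zpow_inj`; both periods are positive (`pr_pos`), so `δ = ε`.
`Sgn2`: for `Ps v c (rm ρ c (gen a ^ k))` (so `gen a ^ k ∈ Pst`, `mem_pst`) and `Ps v c d`: `F (rm ρ d (gen a ^ k)) = rm ρ' (F d) (la d v (gen a ^ k))`, and `la d v (gen a ^ k) = la c v (gen a ^ k)` (`lam`).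
-/

set_option autoImplicit false

namespace RaagBL

open RaagIso RaagGP

variable {V W V' W' C C' : Type} {Γ : SimpleGraph V} {Λ : SimpleGraph W} {π : W → V}
  {Γ' : SimpleGraph V'} {Λ' : SimpleGraph W'} {π' : W' → V'} {ρ : RA Λ →* Equiv.Perm C}
  {ρ' : RA Λ' →* Equiv.Perm C'} {F : C ≃ C'} {τ : C → V ≃ V'} {la : C → V → RA Λ → RA Λ'}

theorem sgn2_of_dt2 [Finite C] [Finite C'] (hB : BU Γ Λ π) (hB' : BU Γ' Λ' π')
    (h : Dt2 Γ Γ' π π' ρ ρ' F τ la) {Mk : Set V} {ε : C → V → ℤˣ}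
    (h1 : ∀ v ∈ Mk, ∀ a b, π a = v → π b = v → a = b)
    (h1' : ∀ c, ∀ v ∈ Mk, ∀ a b, π' a = τ c v → π' b = τ c v → a = b)
    (he : ∀ c v a a', v ∈ Mk → π a = v → π' a' = τ c v →
      la c v (gen a ^ pr ρ a c) = gen a' ^ (((ε c v : ℤˣ) : ℤ) * pr ρ' a' (F c))) :
    Sgn2 Γ π π' ρ ρ' F τ Mk ε := by
  have hn := nm2_of_dt2 hB hB' h
  intro c v a a' hv ha ha' k hk d hd
  have hua : ∀ b, π b = v → b = a := fun b hb => h1 v hv b a hb ha
  have hua' : ∀ b, π' b = τ c v → b = a' := fun b hb => h1' c v hv b a' hb ha'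
  have hga : ∀ k : ℤ, (gen a : RA Λ) ^ k ∈ PB Λ π {v} := fun k => (pb_zpow ha hua).2 ⟨k, rfl⟩
  have hga' : ∀ k : ℤ, (gen a' : RA Λ') ^ k ∈ PB Λ' π' {τ c v} :=
    fun k => (pb_zpow ha' hua').2 ⟨k, rfl⟩
  have hex : ∀ k : ℤ, ∃ m : ℤ, la c v (gen a ^ k) = gen a' ^ m := fun k =>
    (pb_zpow ha' hua').1 (h.mem c v _ (hga k))
  choose n hnk using hex
  -- the stabiliser of the position
  let Q : AddSubgroup ℤ :=
    { carrier := {k | (gen a : RA Λ) ^ k ∈ Pst Γ π ρ v c}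
      add_mem' := by
        intro x y hx hy
        show (gen a : RA Λ) ^ (x + y) ∈ Pst Γ π ρ v c
        rw [zpow_add]
        exact mul_mem hx hy
      zero_mem' := by
        show (gen a : RA Λ) ^ (0 : ℤ) ∈ Pst Γ π ρ v c
        rw [zpow_zero]
        exact one_mem _
      neg_mem' := by
        intro x hx
        show (gen a : RA Λ) ^ (-x) ∈ Pst Γ π ρ v c
        rw [zpow_neg]
        exact inv_mem hx }
  have hQ : ∀ k : ℤ, k ∈ Q ↔ (gen a : RA Λ) ^ k ∈ Pst Γ π ρ v c := fun k => Iff.rfl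
  have hQps : ∀ k : ℤ, k ∈ Q ↔ Ps Γ π ρ v c (rm ρ c (gen a ^ k)) := fun k => by
    rw [hQ, mem_pst hB]
    exact ⟨fun h => h.2, fun h => ⟨hga k, h⟩⟩
  have hQ' : ∀ k : ℤ, k ∈ Q ↔ (gen a' : RA Λ') ^ k ∈ Pst Γ' π' ρ' (τ c v) (F c) :=
    fun k => pst_zpow hB hB' hn ha ha' hua hua' k
  have hadd : ∀ x ∈ Q, ∀ y, n (x + y) = n x + n y := by
    intro x hx y
    obtain ⟨z, hz, hzx⟩ := (hQps x).1 hx
    have e1 : la c v (gen a ^ (x + y)) = la c v (gen a ^ x) * la c v (gen a ^ y) := by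
      rw [zpow_add, h.mul c v _ _ (hga x) (hga y), ← hzx, h.lam c v _ z (hga y) hz]
    rw [hnk, hnk, hnk, ← zpow_add] at e1
    exact gen_zpow_inj e1
  let f : Q →+ ℤ := AddMonoidHom.mk' (fun x => n x) (fun x y => hadd x x.2 y)
  have hf : ∀ x : Q, f x = n x := fun x => rfl
  have hnQ : ∀ x ∈ Q, n x ∈ Q := by
    intro x hx
    rw [hQ', mem_pst hB']
    refine ⟨hga' _, ?_⟩
    rw [← hnk, ← h.act c v _ (hga x)]
    exact (ps_map hn.adj hn.tau hn.orb ((hQps x).1 hx)).1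
  have hns : ∀ y ∈ Q, ∃ x ∈ Q, n x = y := by
    intro y hy
    obtain ⟨g, hg, hgy⟩ := h.surj c v _ (hga' y)
    obtain ⟨x, rfl⟩ := (pb_zpow ha hua).1 hg
    refine ⟨x, ?_, ?_⟩
    · rw [hQps]
      have h2 := ((mem_pst hB').1 ((hQ' y).1 hy)).2
      rw [← hgy, ← h.act c v _ (hga x)] at h2
      exact ps_back hn.adj hn.tau hn.orb h2
    · rw [hnk] at hgy
      exact gen_zpow_inj hgy
  have hP : ((pr ρ a c : ℕ) : ℤ) ∈ Q := by
    rw [hQps, zpow_natCast, pr_mem]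
    exact ps_refl v c
  have hP0 : 0 < pr ρ a c := pr_pos a c
  have hP0' : 0 < pr ρ' a' (F c) := pr_pos a' (F c)
  obtain ⟨q, hq⟩ := Int.subgroup_cyclic Q
  have hmem : ∀ x, x ∈ Q ↔ ∃ j : ℤ, j * q = x := by
    intro x
    rw [hq, AddSubgroup.mem_closure_singleton]
    simp only [smul_eq_mul]
  have hqQ : q ∈ Q := (hmem q).2 ⟨1, one_mul q⟩
  have hq0 : q ≠ 0 := by
    rintro rfl
    obtain ⟨j, hj⟩ := (hmem _).1 hP
    rw [mul_zero] at hj
    omega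
  have hlin : ∀ j : ℤ, n (j * q) = j * n q := by
    intro j
    have e := map_zsmul f j ⟨q, hqQ⟩
    rw [hf, hf] at e
    simpa [smul_eq_mul] using e
  obtain ⟨m, hm⟩ := (hmem _).1 (hnQ q hqQ)
  have hmu : m = 1 ∨ m = -1 := by
    obtain ⟨x, hx, hxq⟩ := hns q hqQ
    obtain ⟨j, rfl⟩ := (hmem x).1 hx
    rw [hlin, ← hm] at hxq
    have h3 : j * m = 1 := by
      have h4 : (j * m) * q = 1 * q := by rw [one_mul, mul_assoc]; exact hxq
      exact mul_right_cancel₀ hq0 h4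
    exact Int.isUnit_iff.mp (IsUnit.of_mul_eq_one j (by rw [mul_comm]; exact h3))
  have hnm : ∀ x ∈ Q, n x = m * x := by
    intro x hx
    obtain ⟨j, rfl⟩ := (hmem x).1 hx
    rw [hlin, ← hm]
    ring
  have hPe : m * (pr ρ a c : ℤ) = ((ε c v : ℤˣ) : ℤ) * pr ρ' a' (F c) := by
    rw [← hnm _ hP]
    apply gen_zpow_inj (v := a')
    rw [← hnk, zpow_natCast]
    exact he c v a a' hv ha ha'
  have hme : m = ((ε c v : ℤˣ) : ℤ) := by
    have hP1 : (0 : ℤ) < pr ρ a c := by exact_mod_cast hP0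
    have hP2 : (0 : ℤ) < pr ρ' a' (F c) := by exact_mod_cast hP0'
    rcases Int.units_eq_one_or (ε c v) with h5 | h5
    · rw [h5] at hPe ⊢
      rcases hmu with rfl | rfl
      · simp
      · simp only [Units.val_one] at hPe
        linarith
    · rw [h5] at hPe ⊢
      rcases hmu with rfl | rfl
      · simp only [Units.val_neg, Units.val_one] at hPe
        linarith
      · simp
  obtain ⟨z, hz, hzd⟩ := hd
  rw [h.act d v _ (hga k), ← hzd, h.lam c v _ z (hga k) hz, hnk, hnm k ((hQps k).2 hk), hme]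

end RaagBL
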