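import Pool.Agent.Lib.MP_32d917_al_bl.S05
import Pool.Agent.Lib.MP_32d917_al_bl.S10
import Pool.Agent.Lib.MP_32d917_al_bl.S11
import Pool.Agent.Lib.MP_32d917_al_bl.BG3
import Pool.Agent.Lib.MP_32d917_al_gp.G11
import Pool.Agent.Lib.MP_32d917_al_raag.B03

/-!
# S12: a matching gives numerical data of the sub-actions (90 min)

`i' = β i p`. `hi` gives `NB Γ B i` (`nb_of_rig`) and `Rig Γ' (B' i')` (`hM.rig`). `e n0 = p` (`erng`, `ob_refl`), `e' n0' = F i p` (`erng` of `hS'`, `ob_symm hp`). `φ : stb ρd n0 ≃* stb ρd' n0'` with `j' (φ x) = Φ i p (j x)`: `sub_sk`, `hM.map`, `mul`, `inj`, `surj` (the map `x ↦` the element `x'` with `j' x' = Φ i p (j x)`; construct it by `MulEquiv.ofBijective`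
of a `MonoidHom`). `sub_rig`, `sub_bu`, `sub_trn`, finiteness of `Vd`, `Vd'`, `Cd`, `Cd'` (`Finite.of_injective`). `rigid2` for `stb ρd n0`, `stb ρd' n0'` (`stb_fin`): `f`, `τ`; `dt2_of_gi3`: `Fd`, `τd`, `la` with `Fd (rm ρd n0 x) = rm ρd' n0' (f x)`. `nm2_of_dt2`.
Let `n = rm ρd n0 x`, `w` with `ν w` cut, `c = e n = rm ρ p (j x)`, `b` the letter over `w`, `a = ι b` (over `ν w`), `k = pr ρ a c`, `a1` the letter over `τ i c (ν w)`. `z = x * gen b ^ k * x⁻¹ ∈ stb ρd n0`, `j z = j x * gen a ^ k * (j x)⁻¹`. `hM.con` for `i`, `p`, `c`, `g = j x`: `g' ∈ PB' (B' i')`, `rm ρ' (F i p) g' = F i c`, `Φ i p (j z) = g' * Φ i c (gen a ^ k) * g'⁻¹`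
`= g' * gen a1 ^ (ε * k1) * g'⁻¹`, `k1 = pr ρ' a1 (F i c)` (`hM.sgn`; `β i c = β i p` by `hM.beta`, so `τ i c (ν w) ∈ B' i'`). `g' = j' y'` (`Jmp.rng` with `D = univ`), `τ i c (ν w) = ν' w1`, `a1 = ι' b1`, `πd' b1 = w1`. So (`j'` injective) `φ z = y' * gen b1 ^ (ε * k1) * y'⁻¹`. By equivariance `f (z * x) = φ z * f x`, `z * x = x * gen b ^ k`, so
`φ z = f x * ((f x)⁻¹ * f (x * gen b ^ k)) * (f x)⁻¹` with the middle `= la n w (gen b ^ k) ∈ PB {τd n w}` (`τd n = τ x`). Both are nontrivial (`ε * k1 ≠ 0`, `gen_zpow_inj`), so `ing_uniq`: `τd n w = w1`, i.e. `ν' (τd n w) = τ i c (ν w)`, and `u = y'⁻¹ * f x ∈ PB' (st w1)`. Hence `Ob (st' (τ i c (ν w))) (F i c) (e' (Fd n))`: `rm ρ' (F i c) (j' u) = rm ρ' (F i p) (j' (f x)) = e' (rm ρd' n0' (f x))`.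
And `la n w (gen b ^ k) = u⁻¹ * gen b1 ^ (ε * k1) * u = gen b1 ^ (ε * k1)` (`cen_sng` in `Λd'`), `k = pr ρd b n` (`sub_pr`), `k1 = pr ρ' a1 (F i c) = pr ρ' a1 (e' (Fd n))` (`pr_comm`, `cen_sng` in `Λ'` for `j' u ∈ PB' (st (π' a1))`) `= pr ρd' b1 (Fd n)`. So `sgn2_of_dt2` applies with `ε' n w = ε (ν w) (e n)`.
`Cut B (ν w) ↔ Cut B' (ν' (τd n w))`: `→` by `hM.tcut` (`τ i c (ν w)` is cut). `←`: `v' = ν' (τd n w)` cut, `v' = τ i c v0` (`hM.tbij`), `v0` is cut (`hM.tcut`), `v0 = ν w0`, so `ν' (τd n w0) = τ i c v0 = v'`, `w0 = w` by injectivity of `ν'`, `τd n`.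
Last statement: `hM.pcom` for `i`, `c`, `ν w`: `(σ (ν w) c).1 = τ i c (ν w)`, `Ob (st' ...) (σ ..).2 (F i c)`, and `ob_trans`.
-/

set_option autoImplicit false

namespace RaagBL

open RaagIso RaagGP

variable {V W V' W' C C' : Type} {Γ : SimpleGraph V} {Λ : SimpleGraph W} {π : W → V}
  {Γ' : SimpleGraph V'} {Λ' : SimpleGraph W'} {π' : W' → V'} {ρ : RA Λ →* Equiv.Perm C}
  {ρ' : RA Λ' →* Equiv.Perm C'} {m m' : ℕ} {B : Fin m → Set V} {B' : Fin m' → Set V'}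
  {Vd Wd Cd Vd' Wd' Cd' : Type} {Γd : SimpleGraph Vd} {Λd : SimpleGraph Wd} {πd : Wd → Vd}
  {Γd' : SimpleGraph Vd'} {Λd' : SimpleGraph Wd'} {πd' : Wd' → Vd'}
  {ρd : RA Λd →* Equiv.Perm Cd} {ρd' : RA Λd' →* Equiv.Perm Cd'}
  {e : Cd → C} {ι : Wd → W} {ν : Vd → V} {e' : Cd' → C'} {ι' : Wd' → W'} {ν' : Vd' → V'}

theorem nm2_of_mch [Finite V] [Finite V'] [Finite C] [Finite C'] (hX : Ctx Γ Λ π B)
    (hX' : Ctx Γ' Λ' π' B') {β : Fin m → C → Fin m'} {F : Fin m → C → C'}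
    {τ : Fin m → C → V → V'} {Φ : Fin m → C → RA Λ → RA Λ'} {σ : V → C → V' × C'}
    {ε : V → C → ℤˣ} (hM : Mch Γ Γ' π π' B B' ρ ρ' β F τ Φ σ ε) {i : Fin m} {p : C} {p' : C'}
    (hi : Rig Γ (B i)) (hS : Sub Γ π (B i) ρ p Γd πd ρd e ι ν)
    (hS' : Sub Γ' π' (B' (β i p)) ρ' p' Γd' πd' ρd' e' ι' ν')
    (hp : Ob π' ρ' (B' (β i p)) (F i p) p') :
    ∃ (Fd : Cd ≃ Cd') (τd : Cd → Vd ≃ Vd'), Nm2 Γd Γd' πd πd' ρd ρd' Fd τd ∧
      Sgn2 Γd πd πd' ρd ρd' Fd τd {w | Cut B (ν w)} (fun n w => ε (ν w) (e n)) ∧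
      (∀ n w, Cut B (ν w) ↔ Cut B' (ν' (τd n w))) ∧
      ∀ n w, Cut B (ν w) → (σ (ν w) (e n)).1 = ν' (τd n w) ∧
        Ob π' ρ' (st Γ' (ν' (τd n w))) (σ (ν w) (e n)).2 (e' (Fd n)) := by
  classical
  have hn : NB Γ B i := nb_of_rig hi
  have hri' : Rig Γ' (B' (β i p)) := (hM.rig i p hn).1 hi
  obtain ⟨n0, hn0⟩ := (hS.erng p).2 (ob_refl π ρ (B i) p)
  obtain ⟨n0', hn0'⟩ := (hS'.erng (F i p)).2 (ob_symm hp)
  obtain ⟨j, hj⟩ := sub_jmp hS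
  obtain ⟨j', hj'⟩ := sub_jmp hS'
  have hSK : ∀ x : stb ρd n0, j (x : RA Λd) ∈ SK π ρ (B i) p := by
    intro x
    have h2 := (sub_sk hS hj n0 (j x)).2 ⟨x, x.2, rfl⟩
    rwa [hn0] at h2
  have hex : ∀ x : stb ρd n0, ∃ x' : stb ρd' n0', j' (x' : RA Λd') = Φ i p (j (x : RA Λd)) := by
    intro x
    have h3 := hM.map i p hn _ (hSK x)
    rw [← hn0'] at h3
    obtain ⟨x', hx', h4⟩ := (sub_sk hS' hj' n0' _).1 h3
    exact ⟨⟨x', hx'⟩, h4⟩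
  choose g hg using hex
  have hmul : ∀ x y : stb ρd n0, g (x * y) = g x * g y := by
    intro x y
    apply Subtype.ext
    apply hj'.inj
    rw [hg, Subgroup.coe_mul, map_mul, Subgroup.coe_mul, map_mul, hg, hg]
    exact hM.mul i p hn _ (hSK x) _ (hSK y)
  have hbij : Function.Bijective (MonoidHom.mk' g hmul) := by
    constructor
    · intro x y hxy
      have h1 : g x = g y := hxy
      have h2 : Φ i p (j (x : RA Λd)) = Φ i p (j (y : RA Λd)) := by rw [← hg, ← hg, h1]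
      exact Subtype.ext (hj.inj (hM.inj i p hn _ (hSK x) _ (hSK y) h2))
    · intro x'
      have h1 := (sub_sk hS' hj' n0' (j' (x' : RA Λd'))).2 ⟨x', x'.2, rfl⟩
      rw [hn0'] at h1
      obtain ⟨l, hl, hl'⟩ := hM.surj i p hn _ h1
      rw [← hn0] at hl
      obtain ⟨x, hx, rfl⟩ := (sub_sk hS hj n0 l).1 hl
      refine ⟨⟨x, hx⟩, ?_⟩
      show g ⟨x, hx⟩ = x'
      apply Subtype.ext
      apply hj'.inj
      rw [hg]
      exact hl'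
  obtain ⟨φ, hφ⟩ : ∃ φ : stb ρd n0 ≃* stb ρd' n0', ∀ x : stb ρd n0,
      j' (φ x : RA Λd') = Φ i p (j (x : RA Λd)) :=
    ⟨MulEquiv.ofBijective (MonoidHom.mk' g hmul) hbij, fun x => hg x⟩
  clear hbij hmul hg g
  have : Finite Vd := Finite.of_injective ν hS.vinj
  have : Finite Vd' := Finite.of_injective ν' hS'.vinj
  have : Finite Cd := Finite.of_injective e hS.einj
  have : Finite Cd' := Finite.of_injective e' hS'.einj
  have hBd : BU Γd Λd πd := sub_bu hS hX.bu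
  have hBd' : BU Γd' Λd' πd' := sub_bu hS' hX'.bu
  obtain ⟨hN1, hN2, hN3⟩ := sub_rig hS hi
  obtain ⟨hN1', hN2', hN3'⟩ := sub_rig hS' hri'
  obtain ⟨f, τf, hG, hfs, heq⟩ := rigid2 hBd hN1 hN2 hN3 hBd' hN1' hN2' hN3' (stb ρd n0)
    (stb ρd' n0') (stb_fin ρd n0) (stb_fin ρd' n0') φ
  obtain ⟨Fd, τd, la, hDt, hFd, hτd, hla⟩ := dt2_of_gi3 (sub_trn hS) (sub_trn hS') φ f τf hG hfs heq
  -- the cut vertices
  have hνB : ∀ w, ν w ∈ B i := fun w => (hS.vrng _).1 ⟨w, rfl⟩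
  have key : ∀ (x : RA Λd) (w : Vd) (b : Wd), πd b = w → Cut B (ν w) →
      ν' (τf x w) = τ i (e (rm ρd n0 x)) (ν w) ∧
      Ob π' ρ' (st Γ' (ν' (τf x w))) (F i (e (rm ρd n0 x))) (e' (rm ρd' n0' (f x))) ∧
      ∀ b1, πd' b1 = τf x w → (f x)⁻¹ * f (x * gen b ^ pr ρd b (rm ρd n0 x)) =
        gen b1 ^ (((ε (ν w) (e (rm ρd n0 x)) : ℤˣ) : ℤ) * pr ρd' b1 (rm ρd' n0' (f x))) := by
    intro x w b hb hcut
    obtain ⟨c, hc⟩ : ∃ c, c = e (rm ρd n0 x) := ⟨_, rfl⟩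
    rw [← hc]
    have hgx : j x ∈ PB Λ π (B i) := jmp_pb1 hS hj x
    have hrc : rm ρ p (j x) = c := by rw [hc, hj.act, hn0]
    have hOb : Ob π ρ (B i) p c := ⟨j x, hgx, hrc⟩
    have hβ : β i c = β i p := hM.beta i p c hn hOb
    have hπa : π (ι b) = ν w := by rw [hS.com, hb]
    have hpr : pr ρd b (rm ρd n0 x) = pr ρ (ι b) c := by rw [sub_pr hS, hc]
    obtain ⟨g', hg', hg'c, hcon⟩ := hM.con i p c hn (j x) hgx hrc
    have hτB : τ i c (ν w) ∈ B' (β i p) := by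
      rw [← hβ]
      exact (hM.tbij i c hn).mapsTo (hνB w)
    obtain ⟨w1, hw1⟩ := (hS'.vrng _).2 hτB
    obtain ⟨b1, hb1⟩ := hBd'.surj w1
    have hπa1 : π' (ι' b1) = τ i c (ν w) := by rw [hS'.com, hb1, hw1]
    have hcut' : Cut B' (τ i c (ν w)) := (hM.tcut i c hn (ν w) (hνB w)).1 hcut
    have hsgn := hM.sgn i c (ν w) (ι b) (ι' b1) hn (hνB w) hcut hπa hπa1
    have hlSK : (gen (ι b) : RA Λ) ^ pr ρ (ι b) c ∈ SK π ρ (B i) c :=
      ⟨pr_mem (ι b) c, pow_mem (pb_gen (by rw [hπa]; exact hνB w)) _⟩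
    have hΦ := hcon _ hlSK
    rw [hsgn] at hΦ
    obtain ⟨y', _, hy'⟩ := hj'.rng Set.univ g' (by rw [Set.inter_univ]; exact hg')
    -- the element of the stabiliser
    have hz : x * gen b ^ pr ρ (ι b) c * x⁻¹ ∈ stb ρd n0 := by
      rw [mem_stb, rm_mul, rm_mul, ← hpr, pr_mem, ← rm_mul, mul_inv_cancel, rm_one]
    obtain ⟨z, hzd⟩ : ∃ z : stb ρd n0, (z : RA Λd) = x * gen b ^ pr ρ (ι b) c * x⁻¹ :=
      ⟨⟨_, hz⟩, rfl⟩
    obtain ⟨N, hN⟩ : ∃ N : ℤ, N = ((ε (ν w) c : ℤˣ) : ℤ) * pr ρ' (ι' b1) (F i c) := ⟨_, rfl⟩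
    have hφz : (φ z : RA Λd') = y' * gen b1 ^ N * y'⁻¹ := by
      apply hj'.inj
      rw [hφ, hzd, map_mul, map_mul, map_inv, map_pow, hj.gen, hΦ, ← hy', map_mul, map_mul,
        map_inv, map_zpow, hj'.gen, hN]
    have hzx : (z : RA Λd) * x = x * gen b ^ pr ρ (ι b) c := by
      rw [hzd, inv_mul_cancel_right]
    have hfz : f (x * gen b ^ pr ρ (ι b) c) = φ z * f x := by
      rw [← hzx]
      exact (heq z x).1
    have hφz2 : (φ z : RA Λd') = f x * ((f x)⁻¹ * f (x * gen b ^ pr ρ (ι b) c)) * (f x)⁻¹ := by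
      rw [hfz]
      group
    have hN0 : N ≠ 0 := by
      rw [hN]
      apply mul_ne_zero
      · exact Units.ne_zero _
      · have := pr_pos (ρ := ρ') (ι' b1) (F i c)
        omega
    have hgb1 : (gen b1 : RA Λd') ^ N ≠ 1 := by
      intro h0
      apply hN0
      apply gen_zpow_inj (v := b1) (Γ := Λd')
      rw [h0, zpow_zero]
    have hφ1 : (φ z : RA Λd') ≠ 1 := by
      intro h0
      rw [hφz] at h0
      apply hgb1
      have h1 : y'⁻¹ * (y' * gen b1 ^ N * y'⁻¹) * y' = gen b1 ^ N := by group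
      rw [← h1, h0]
      group
    have hI1 : InG πd' (f x, τf x w) (φ z : RA Λd') := by
      refine ⟨(f x)⁻¹ * f (x * gen b ^ pr ρ (ι b) c), ?_, ?_, hφz2⟩
      · exact hG.mem x w _ (pow_mem (pb_gen (by rw [hb]; exact Set.mem_singleton _)) _)
      · intro h0
        apply hφ1
        rw [hφz2, h0]
        group
    have hI2 : InG πd' (y', w1) (φ z : RA Λd') :=
      ⟨gen b1 ^ N, zpow_mem (pb_gen (by rw [hb1]; exact Set.mem_singleton _)) _, hgb1, hφz⟩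
    obtain ⟨hE1, hE2⟩ := ing_uniq hBd' hI1 hI2
    have hE1 : τf x w = w1 := hE1
    have hE2 : (f x)⁻¹ * y' ∈ PB Λd' πd' (st Γd' (τf x w)) := hE2
    rw [hE1] at hE2
    have hu : y'⁻¹ * f x ∈ PB Λd' πd' (st Γd' w1) := by
      have h1 := inv_mem hE2
      rwa [mul_inv_rev, inv_inv] at h1
    have hju : j' (y'⁻¹ * f x) ∈ PB Λ' π' (st Γ' (τ i c (ν w))) := by
      have h1 := (jmp_pb hS' hj' (st Γ' (ν' w1)) (y'⁻¹ * f x)).2 (by rw [sub_st hS']; exact hu)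
      rw [hw1] at h1
      exact pb_mono Set.inter_subset_right h1
    have hju2 : rm ρ' (F i c) (j' (y'⁻¹ * f x)) = e' (rm ρd' n0' (f x)) := by
      rw [hj'.act, hn0', ← hg'c, ← rm_mul, map_mul, map_inv, hy', mul_inv_cancel_left]
    have huniq : ∀ b', πd' b' = w1 → b' = b1 := by
      intro b' hb'
      apply hS'.iinj
      exact hX'.sng _ (Or.inl hcut') _ _ (by rw [hS'.com, hb', hw1]) hπa1
    have huniq' : ∀ a', π' a' = τ i c (ν w) → a' = ι' b1 := fun a' ha' =>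
      hX'.sng _ (Or.inl hcut') _ _ ha' hπa1
    refine ⟨by rw [hE1, hw1], ?_, ?_⟩
    · rw [hE1, hw1]
      exact ⟨j' (y'⁻¹ * f x), hju, hju2⟩
    · intro b2 hb2
      rw [hE1] at hb2
      rw [huniq b2 hb2, hpr]
      have h1 : (f x)⁻¹ * f (x * gen b ^ pr ρ (ι b) c) =
          (y'⁻¹ * f x)⁻¹ * gen b1 ^ N * (y'⁻¹ * f x) := by
        rw [hfz, hφz]
        group
      have h2 : Commute (y'⁻¹ * f x) (gen b1) := cen_sng hBd' hb1 huniq hu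
      have h3 : (y'⁻¹ * f x) * gen b1 ^ N = gen b1 ^ N * (y'⁻¹ * f x) := (h2.zpow_right N).eq
      rw [h1, mul_assoc, ← h3, inv_mul_cancel_left, hN]
      congr 2
      rw [sub_pr hS', ← hju2, pr_comm (cen_sng hX'.bu hπa1 huniq' hju)]
  have hrep : ∀ n : Cd, ∃ x, rm ρd n0 x = n := fun n => sub_trn hS n0 n
  have hcut1 : ∀ n w, Cut B (ν w) → Cut B' (ν' (τd n w)) := by
    intro n w hw
    obtain ⟨x, rfl⟩ := hrep n
    obtain ⟨b, hb⟩ := hBd.surj w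
    rw [hτd, (key x w b hb hw).1]
    exact (hM.tcut i _ hn (ν w) (hνB w)).1 hw
  refine ⟨Fd, τd, nm2_of_dt2 hBd hBd' hDt, sgn2_of_dt2 hBd hBd' hDt ?_ ?_ ?_, ?_, ?_⟩
  · intro w hw a b ha hb
    apply hS.iinj
    exact hX.sng (ν w) (Or.inl hw) _ _ (by rw [hS.com, ha]) (by rw [hS.com, hb])
  · intro n w hw a b ha hb
    apply hS'.iinj
    exact hX'.sng _ (Or.inl (hcut1 n w hw)) _ _ (by rw [hS'.com, ha]) (by rw [hS'.com, hb])
  · intro n w b b1 hw hb hb1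
    obtain ⟨x, rfl⟩ := hrep n
    rw [hτd] at hb1
    rw [hla x w _ (pow_mem (pb_gen (by rw [hb]; exact Set.mem_singleton _)) _), hFd]
    exact (key x w b hb hw).2.2 b1 hb1
  · intro n w
    refine ⟨hcut1 n w, fun hw => ?_⟩
    obtain ⟨x, rfl⟩ := hrep n
    have hOb : Ob π ρ (B i) p (e (rm ρd n0 x)) := by
      refine ⟨j x, jmp_pb1 hS hj x, ?_⟩
      rw [hj.act, hn0]
    have hβ : β i (e (rm ρd n0 x)) = β i p := hM.beta i p _ hn hOb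
    have h1 : ν' (τd (rm ρd n0 x) w) ∈ B' (β i (e (rm ρd n0 x))) := by
      rw [hβ]
      exact (hS'.vrng _).1 ⟨_, rfl⟩
    obtain ⟨v0, hv0, hv0'⟩ := (hM.tbij i (e (rm ρd n0 x)) hn).surjOn h1
    have hcv0 : Cut B v0 := by
      rw [hM.tcut i (e (rm ρd n0 x)) hn v0 hv0, hv0']
      exact hw
    obtain ⟨w0, rfl⟩ := (hS.vrng v0).2 hv0
    obtain ⟨b, hb⟩ := hBd.surj w0
    have h2 := (key x w0 b hb hcv0).1
    rw [hv0', ← hτd] at h2
    have h3 := (τd (rm ρd n0 x)).injective (hS'.vinj h2)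
    rw [← h3]
    exact hcv0
  · intro n w hw
    obtain ⟨x, rfl⟩ := hrep n
    obtain ⟨b, hb⟩ := hBd.surj w
    obtain ⟨h1, h2, _⟩ := key x w b hb hw
    obtain ⟨h3, h4⟩ := hM.pcom i (e (rm ρd n0 x)) (ν w) hn (hνB w) hw
    rw [hτd, hFd]
    refine ⟨by rw [h3, h1], ?_⟩
    rw [← h1] at h4
    exact ob_trans h4 h2

end RaagBL
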