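import Pool.Agent.Lib.MP_32d917_al_bl.KM3
import Pool.Agent.Lib.MP_32d917_al_bl.S12

/-!
# KM4: from matchings to matchings of the sub-codes
-/

set_option autoImplicit false

namespace RaagBL

open LatIso RaagIso RaagGP
open AdmIso (Wd mvs fM cmW)

/-- sign, numerically -/
def eNum (e : ℤˣ) : ℕ := if e = 1 then 0 else 1

theorem eNum_or (e : ℤˣ) : (eNum e = 0 ∧ e = 1) ∨ (eNum e = 1 ∧ e = -1) := by
  unfold eNum
  rcases Int.units_eq_one_or e with h | h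
  · left
    rw [h]
    simp
  · right
    rw [h]
    refine ⟨?_, rfl⟩
    rw [if_neg (Ne.symm kunit_ne)]

theorem eNum_eq (e f : ℤˣ) : eNum e = eNum f ↔ e = f := by
  rcases eNum_or e with ⟨h1, h2⟩ | ⟨h1, h2⟩ <;>
    rcases eNum_or f with ⟨h3, h4⟩ | ⟨h3, h4⟩ <;> rw [h1, h2, h3, h4] <;> simp

theorem eNum_lt (e : ℤˣ) : eNum e < 1 + 1 := by
  rcases eNum_or e with ⟨h1, -⟩ | ⟨h1, -⟩ <;> omega

/-- the sub-code `j` is matched with `k` by `s` -/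
def GoodJ (c c' : BC) (σ : Fin (kG c.1) → Fin (cM c.1.1) → Fin (kG c'.1) × Fin (cM c'.1.1))
    (ε : Fin (kG c.1) → Fin (cM c.1.1) → ℤˣ) (j k : ℕ) (s : Mt2) : Prop :=
  InB2 (scD c j) s ∧ ¬ BadM (scD c j) (scD c' k) s ∧
  (∀ y < cM (scD c j).1, ∀ v < kG (scD c j),
    (CutN c (vtN c j v) ↔ CutN c' (vtN c' k (tN2 (scD c j) s y v)))) ∧
  (∀ E : ℕ → ℕ → ℕ, (∀ (v : Fin (kG c.1)) (x : Fin (cM c.1.1)), E v x = eNum (ε v x)) →
    SgN (scD c j) (scD c' k) s (fun v => CutN c (vtN c j v)) (fun v y => E (vtN c j v) (ptN c j y))) ∧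
  ∀ (y : Fin (cM (scD c j).1)) (v : Fin (kG (scD c j))), CutN c (vtN c j v) →
    ((σ (eV c j v) (eP c j y)).1 : ℕ) = vtN c' k (tN2 (scD c j) s y v) ∧
      OsN c' (σ (eV c j v) (eP c j y)).1 (σ (eV c j v) (eP c j y)).2
        (ptN c' k (FN2 (scD c j) s y))

theorem goodJ_ex {c c' : BC} (h : BVal c) (h' : BVal c')
    {ρ : RA (gr c.1.1) →* Equiv.Perm (Fin (cM c.1.1))}
    {ρ' : RA (gr c'.1.1) →* Equiv.Perm (Fin (cM c'.1.1))} (hρ : IsRho c.1.1 ρ)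
    (hρ' : IsRho c'.1.1 ρ')
    {β : Fin (nB c) → Fin (cM c.1.1) → Fin (nB c')}
    {F : Fin (nB c) → Fin (cM c.1.1) → Fin (cM c'.1.1)}
    {τ : Fin (nB c) → Fin (cM c.1.1) → Fin (kG c.1) → Fin (kG c'.1)}
    {Φ : Fin (nB c) → Fin (cM c.1.1) → RA (gr c.1.1) → RA (gr c'.1.1)}
    {σ : Fin (kG c.1) → Fin (cM c.1.1) → Fin (kG c'.1) × Fin (cM c'.1.1)}
    {ε : Fin (kG c.1) → Fin (cM c.1.1) → ℤˣ}
    (hM : Mch (grG c.1) (grG c'.1) (piF c.1) (piF c'.1) (blk c) (blk c') ρ ρ' β F τ Φ σ ε)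
    {j : ℕ} (hj : j < nS c) :
    ∃ k s, InJ c' (β (sI c j) (eP c j 0)) (F (sI c j) (eP c j 0)) k ∧ GoodJ c c' σ ε j k s := by
  have hJ : InJ c (sI c j) (eP c j 0) j := ⟨hj, rfl, 0, rfl⟩
  have hRi : Rig (grG c.1) (blk c (sI c j)) := kinJ_rig h hρ hJ
  have hnb : NB (grG c.1) (blk c) (sI c j) := nb_of_rig hRi
  have hRi' := (hM.rig _ (eP c j 0) hnb).1 hRi
  obtain ⟨k, hk⟩ : ∃ k, InJ c' (β (sI c j) (eP c j 0)) (F (sI c j) (eP c j 0)) k :=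
    ksub_cov h' ((krig_iff c' _).2 hRi') _
  have hV := (ksub_code h hρ hj).2.2.1
  have hV' := (ksub_code h' hρ' hk.1).2.2.1
  obtain ⟨ρd, hρd⟩ := rho_exists2 (scD c j).1 hV.2.1
  obtain ⟨ρd', hρd'⟩ := rho_exists2 (scD c' k).1 hV'.2.1
  have hS := kinJ_sub h hρ hJ hρd
  have hS' := kinJ_sub h' hρ' hk hρd'
  obtain ⟨Fd, τd, hN, hSg, hc, hσ⟩ := nm2_of_mch (kctx_code h) (kctx_code h') hM hRi hS hS'
    (ob_refl _ _ _ _)
  obtain ⟨s, hs1, hs2, hR⟩ := kgood_of_nm hV hV' hρd hρd' hN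
  refine ⟨k, s, hk, hs1, hs2, ?_, ?_, ?_⟩
  · intro y hy v hv
    have k1 := hc ⟨y, hy⟩ ⟨v, hv⟩
    rw [← kcut_iff, ← kcut_iff] at k1
    have k2 := hR.2 ⟨y, hy⟩ ⟨v, hv⟩
    dsimp only at k2
    rw [k2]
    exact k1
  · intro E hE
    refine (sgN_iff hV.2.1 hρd hρd' hR _ _ (fun n w => ε (eV c j w) (eP c j n)) ?_).2 ?_
    · intro y v
      have k1 := hE (eV c j v) (eP c j y)
      show (E (eV c j v) (eP c j y) = 0 ∧ _) ∨ (E (eV c j v) (eP c j y) = 1 ∧ _)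
      rw [k1]
      exact eNum_or _
    · have k3 : {w : Fin (kG (scD c j)) | CutN c (vtN c j w)} =
          {w | Cut (blk c) (eV c j w)} := by
        ext w
        exact kcut_iff c (eV c j w)
      rw [k3]
      exact hSg
  · intro y v hv
    obtain ⟨k1, k2⟩ := hσ y v ((kcut_iff c (eV c j v)).1 hv)
    rw [hR.2 y v, hR.1 y]
    refine ⟨congrArg Fin.val k1, ?_⟩
    rw [← k1] at k2
    exact (kos_iff h'.1.1 hρ' _ _ (eP c' k (Fd y))).2 k2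

end RaagBL
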