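import Pool.Agent.Lib.MP_32d917_al_bl.KDefs

/-!
# Matchings between codes of subgroups of finite index of block graph products: definitions

A matching `((s, f, g), (p, q), (h, k), e)`: digits of `s`: bijection of the sub-codes, of `f`, `g`: the
matchings of the sub-codes; `p`, `q`: images `(v', x')` of the pairs `(v, x)`, `v` a cut vertex, `x` a point;
`h`, `k`: images `(i', x')` of the pairs `(i, x)`, `i` a flat block; `e`: signs of the pairs `(v, x)`.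
-/

set_option autoImplicit false

namespace RaagBL

open LatIso RaagIso RaagGP
open AdmIso (Wd mvs fM cmW)

/-- same orbit under the letters over the vertex `v` -/
def OvN (c : BC) (v x y : ℕ) : Prop := OrD c.1.1 (fun a => piN c.1 a = v) x y
/-- same orbit under the letters over the star of `v` -/
def OsN (c : BC) (v x y : ℕ) : Prop := OrD c.1.1 (fun a => StG c.1 v (piN c.1 a)) x y
/-- same orbit under the letters over the block `i` -/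
def ObN (c : BC) (i x y : ℕ) : Prop := OrD c.1.1 (fun a => InK c i (piN c.1 a)) x y

/-- number of elements -/
noncomputable def cntN (m : ℕ) (p : ℕ → Prop) : ℕ := by
  classical
  exact ((List.range m).filter fun y => decide (p y)).length

/-- matchings -/
abbrev MtB : Type := (ℕ × ℕ × ℕ) × (ℕ × ℕ) × (ℕ × ℕ) × ℕ

/-- bounds for the numbers in matchings of sub-codes -/
def bF (c : BC) : ℕ := cM c.1.1 ^ cM c.1.1
def bT (c : BC) : ℕ := kG c.1 ^ (cM c.1.1 * kG c.1)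

/-- image of the sub-code `j` -/
def sgN (c' : BC) (t : MtB) (j : ℕ) : ℕ := CB.dg (nS c' - 1) t.1.1 j
/-- matching of the sub-code `j` -/
def tjN (c : BC) (t : MtB) (j : ℕ) : Mt2 := (CB.dg (bF c) t.1.2.1 j, CB.dg (bT c) t.1.2.2 j)
/-- image of the point `y` of the sub-code `j` -/
def FjN (c : BC) (t : MtB) (j y : ℕ) : ℕ := FN2 (scD c j) (tjN c t j) y
/-- image of the vertex `v` at the point `y` of the sub-code `j` -/
def TjN (c : BC) (t : MtB) (j y v : ℕ) : ℕ := tN2 (scD c j) (tjN c t j) y v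

/-- images of the pairs `(v, x)` -/
def pvN (c c' : BC) (t : MtB) (v x : ℕ) : ℕ := CB.dg c'.1.2.1 t.2.1.1 (v * cM c.1.1 + x)
def pxN (c c' : BC) (t : MtB) (v x : ℕ) : ℕ := CB.dg c'.1.1.1.2 t.2.1.2 (v * cM c.1.1 + x)
/-- images of the pairs `(i, x)` -/
def fiN (c c' : BC) (t : MtB) (i x : ℕ) : ℕ := CB.dg c'.2.1.1 t.2.2.1.1 (i * cM c.1.1 + x)
def fxN (c c' : BC) (t : MtB) (i x : ℕ) : ℕ := CB.dg c'.1.1.1.2 t.2.2.1.2 (i * cM c.1.1 + x)
/-- signs; `1` means negative -/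
def eN (c : BC) (t : MtB) (v x : ℕ) : ℕ := CB.dg 1 t.2.2.2 (v * cM c.1.1 + x)

/-- sub-codes -/
def MS (c c' : BC) (t : MtB) : Prop :=
  nS c' = nS c ∧
  (∀ j < nS c, ∀ k < nS c, sgN c' t j = sgN c' t k → j = k) ∧
  (∀ j < nS c, MatN2 (scD c j) (scD c' (sgN c' t j)) (tjN c t j)) ∧
  ∀ j < nS c, ∀ y < cM (scD c j).1, ∀ v < kG (scD c j),
    (CutN c (vtN c j v) ↔ CutN c' (vtN c' (sgN c' t j) (TjN c t j y v)))

/-- cut vertices -/
def MP (c c' : BC) (t : MtB) : Prop :=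
  (∀ v < kG c.1, ∀ x < cM c.1.1, CutN c v → CutN c' (pvN c c' t v x)) ∧
  (∀ v < kG c.1, ∀ x < cM c.1.1, ∀ w < kG c.1, ∀ y < cM c.1.1, CutN c v → CutN c w →
    ((v = w ∧ OsN c v x y) ↔ (pvN c c' t v x = pvN c c' t w y ∧
      OsN c' (pvN c c' t v x) (pxN c c' t v x) (pxN c c' t w y)))) ∧
  (∀ v < kG c'.1, ∀ x < cM c'.1.1, CutN c' v → ∃ w < kG c.1, ∃ y < cM c.1.1, CutN c w ∧
    pvN c c' t w y = v ∧ OsN c' v (pxN c c' t w y) x) ∧
  ∀ j < nS c, ∀ y < cM (scD c j).1, ∀ v < kG (scD c j), CutN c (vtN c j v) →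
    pvN c c' t (vtN c j v) (ptN c j y) = vtN c' (sgN c' t j) (TjN c t j y v) ∧
      OsN c' (pvN c c' t (vtN c j v) (ptN c j y)) (pxN c c' t (vtN c j v) (ptN c j y))
        (ptN c' (sgN c' t j) (FjN c t j y))

/-- signs -/
def ME (c c' : BC) (t : MtB) : Prop :=
  (∀ v < kG c.1, ∀ x < cM c.1.1, ∀ y < cM c.1.1, CutN c v → OsN c v x y →
    eN c t v x = eN c t v y) ∧
  ∀ j < nS c, ∀ y < cM (scD c j).1, ∀ v < kG (scD c j), CutN c (vtN c j v) →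
    ∀ a < cK (scD c j).1, ∀ b < cK (scD c' (sgN c' t j)).1, piN (scD c j) a = v →
    piN (scD c' (sgN c' t j)) b = TjN c t j y v →
    ∀ n < MM (scD c j).1, PsN (scD c j) v y (itN (scD c j).1 y a n) →
    ∀ z < cM (scD c j).1, PsN (scD c j) v y z →
      (eN c t (vtN c j v) (ptN c j y) = 0 →
        FjN c t j (itN (scD c j).1 z a n) =
          itN (scD c' (sgN c' t j)).1 (FjN c t j z) b n) ∧
      (eN c t (vtN c j v) (ptN c j y) = 1 →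
        itN (scD c' (sgN c' t j)).1 (FjN c t j (itN (scD c j).1 z a n)) b n = FjN c t j z)

/-- flats -/
def MF (c c' : BC) (t : MtB) : Prop :=
  (∀ i < nB c, ∀ x < cM c.1.1, FltN c i → FltN c' (fiN c c' t i x)) ∧
  (∀ i < nB c, ∀ x < cM c.1.1, ∀ y < cM c.1.1, FltN c i → ObN c i x y →
    fiN c c' t i y = fiN c c' t i x ∧ fxN c c' t i y = fxN c c' t i x) ∧
  (∀ i < nB c, ∀ x < cM c.1.1, ∀ k < nB c, ∀ y < cM c.1.1, FltN c i → FltN c k →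
    fiN c c' t i x = fiN c c' t k y →
      ObN c' (fiN c c' t i x) (fxN c c' t i x) (fxN c c' t k y) → i = k ∧ ObN c i x y) ∧
  (∀ i < nB c', ∀ x < cM c'.1.1, FltN c' i → ∃ k < nB c, ∃ y < cM c.1.1, FltN c k ∧
    fiN c c' t k y = i ∧ ObN c' i (fxN c c' t k y) x) ∧
  (∀ i < nB c, ∀ x < cM c.1.1, FltN c i → ∀ v < kG c.1, InK c i v →
    InK c' (fiN c c' t i x) (pvN c c' t v x) ∧
    OsN c' (pvN c c' t v x) (pxN c c' t v x) (fxN c c' t i x)) ∧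
  (∀ i < nB c, ∀ x < cM c.1.1, FltN c i → ∀ v < kG c.1, ∀ w < kG c.1, InK c i v → InK c i w →
    ¬ v = w → ¬ pvN c c' t v x = pvN c c' t w x)

/-- `k` is the length of the orbit of `x` under the letter `a` -/
def PerN (c : Cd) (x a k : ℕ) : Prop :=
  0 < k ∧ itN c x a k = x ∧ ∀ l < k, 0 < l → ¬ itN c x a l = x

/-- the lattice of `x`, `a`, `b` is mapped to the lattice of `y`, `a'`, `b'` -/
def LtN (z : (Cd × ℕ × ℕ × ℕ) × (Cd × ℕ × ℕ × ℕ) × (ℕ × ℕ) × (ℕ × ℕ) × (ℕ × ℕ)) : Prop :=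
  ∀ m < z.2.2.1.1, ∀ n < z.2.2.1.2,
    itN z.1.1 (itN z.1.1 z.1.2.1 z.1.2.2.1 m) z.1.2.2.2 n = z.1.2.1 →
      ∃ m' < z.2.2.2.1.1, ∃ n' < z.2.2.2.1.2,
        m' * z.2.2.1.1 = m * z.2.2.2.1.1 ∧ n' * z.2.2.1.2 = n * z.2.2.2.1.2 ∧
        (z.2.2.2.2.1 = z.2.2.2.2.2 →
          itN z.2.1.1 (itN z.2.1.1 z.2.1.2.1 z.2.1.2.2.1 m') z.2.1.2.2.2 n' = z.2.1.2.1) ∧
        (¬ z.2.2.2.2.1 = z.2.2.2.2.2 →
          itN z.2.1.1 z.2.1.2.1 z.2.1.2.2.1 m' = itN z.2.1.1 z.2.1.2.1 z.2.1.2.2.2 n')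

/-- lattices -/
def ML (c c' : BC) (t : MtB) : Prop :=
  ∀ i < nB c, ∀ x < cM c.1.1, FltN c i → ∀ v < kG c.1, ∀ w < kG c.1, InK c i v → InK c i w →
    ¬ v = w → ∀ a < cK c.1.1, ∀ b < cK c.1.1, ∀ a' < cK c'.1.1, ∀ b' < cK c'.1.1,
    piN c.1 a = v → piN c.1 b = w → piN c'.1 a' = pvN c c' t v x →
    piN c'.1 b' = pvN c c' t w x →
    ∃ k < cM c.1.1 + 1, ∃ l < cM c.1.1 + 1, ∃ k' < cM c'.1.1 + 1, ∃ l' < cM c'.1.1 + 1,
      PerN c.1.1 x a k ∧ PerN c.1.1 x b l ∧ PerN c'.1.1 (fxN c c' t i x) a' k' ∧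
        PerN c'.1.1 (fxN c c' t i x) b' l' ∧
      LtN ((c.1.1, x, a, b), (c'.1.1, fxN c c' t i x, a', b'), (k, l), (k', l'),
        (eN c t v x, eN c t w x)) ∧
      LtN ((c'.1.1, fxN c c' t i x, a', b'), (c.1.1, x, a, b), (k', l'), (k, l),
        (eN c t v x, eN c t w x))

/-- ranks -/
def MR (c c' : BC) (t : MtB) : Prop :=
  ∀ v < kG c.1, ∀ x < cM c.1.1, CutN c v → ∀ a < cK c.1.1, ∀ a' < cK c'.1.1,
    piN c.1 a = v → piN c'.1 a' = pvN c c' t v x →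
    ∃ k < cM c.1.1 + 1, ∃ k' < cM c'.1.1 + 1, PerN c.1.1 x a k ∧
      PerN c'.1.1 (pxN c c' t v x) a' k' ∧
      cntN (cM c.1.1) (OsN c v x) * k' * (cntN (nB c) (fun i => InK c i v) - 1) =
        cntN (cM c'.1.1) (OsN c' (pvN c c' t v x) (pxN c c' t v x)) * k *
          (cntN (nB c') (fun i => InK c' i (pvN c c' t v x)) - 1)

/-- the bounded conditions -/
def MatB (c c' : BC) (t : MtB) : Prop :=
  MS c c' t ∧ MP c c' t ∧ ME c c' t ∧ MF c c' t ∧ ML c c' t ∧ MR c c' t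

/-- the matching is refuted -/
def BadB (c c' : BC) (t : MtB) : Prop :=
  ¬ MatB c c' t ∨ ∃ j < nS c, BadM (scD c j) (scD c' (sgN c' t j)) (tjN c t j)

/-- bounds -/
def InBB (c c' : BC) (t : MtB) : Prop :=
  (t.1.1 < (nS c' + 1) ^ nS c ∧ t.1.2.1 < (bF c + 1) ^ nS c ∧ t.1.2.2 < (bT c + 1) ^ nS c) ∧
  (t.2.1.1 < kG c'.1 ^ (kG c.1 * cM c.1.1) ∧ t.2.1.2 < cM c'.1.1 ^ (kG c.1 * cM c.1.1)) ∧
  (t.2.2.1.1 < nB c' ^ (nB c * cM c.1.1) ∧ t.2.2.1.2 < cM c'.1.1 ^ (nB c * cM c.1.1)) ∧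
  t.2.2.2 < 2 ^ (kG c.1 * cM c.1.1)

/-- certificates of non-isomorphism -/
def NoCertB (P Q : Pres) : Prop :=
  ∃ z : BC × BC, CodeForB P z.1 ∧ CodeForB Q z.2 ∧ ∀ t, InBB z.1 z.2 t → BadB z.1 z.2 t

end RaagBL
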