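import Pool.Agent.Lib.MP_32d917_al_bl.KDefs
import Pool.Agent.Lib.MP_32d917_al_gp.C12

/-!
# KP1: primitive recursiveness of the validity of codes
-/

set_option autoImplicit false
set_option synthInstance.maxSize 2000

namespace RaagBL

open LatIso RaagIso RaagGP
open AdmIso (Wd mvs fM cmW)

variable {β : Type} [Primcodable β] {c c' : β → BC} {v i j k : β → ℕ}

theorem p_nB (hc : Primrec c) : Primrec fun y => nB (c y) :=
  CB.p_add (CB.p_fst (CB.p_fst (CB.p_snd hc))) (Primrec.const 1)

theorem p_nS (hc : Primrec c) : Primrec fun y => nS (c y) :=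
  Primrec.list_length.comp (CB.p_snd (CB.p_snd hc))

theorem pp_InK (hc : Primrec c) (hi : Primrec i) (hv : Primrec v) :
    PrimrecPred fun y => InK (c y) (i y) (v y) := by
  unfold InK
  exact CB.pp_eq (CB.p_dg (Primrec.const 1) (CB.p_snd (CB.p_fst (CB.p_snd hc)))
    (CB.p_add (CB.p_mul hi (p_kG (CB.p_fst hc))) hv)) (Primrec.const 1)

theorem p_sc (hc : Primrec c) (hj : Primrec j) : Primrec fun y => sc (c y) (j y) := by
  unfold sc
  exact (Primrec.list_getD dSub).comp (CB.p_snd (CB.p_snd hc)) hj

theorem p_scI (hc : Primrec c) (hj : Primrec j) : Primrec fun y => scI (c y) (j y) :=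
  CB.p_fst (p_sc hc hj)

theorem p_scD (hc : Primrec c) (hj : Primrec j) : Primrec fun y => scD (c y) (j y) :=
  CB.p_fst (CB.p_snd (p_sc hc hj))

theorem p_ptN (hc : Primrec c) (hj : Primrec j) (hv : Primrec v) :
    Primrec fun y => ptN (c y) (j y) (v y) := by
  unfold ptN
  exact CB.p_dg (CB.p_snd (CB.p_fst (CB.p_fst (CB.p_fst hc))))
    (CB.p_fst (CB.p_snd (CB.p_snd (p_sc hc hj)))) hv

theorem p_ltN (hc : Primrec c) (hj : Primrec j) (hv : Primrec v) :
    Primrec fun y => ltN (c y) (j y) (v y) := by
  unfold ltN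
  exact CB.p_dg (CB.p_fst (CB.p_fst (CB.p_fst (CB.p_fst hc))))
    (CB.p_fst (CB.p_snd (CB.p_snd (CB.p_snd (p_sc hc hj))))) hv

theorem p_vtN (hc : Primrec c) (hj : Primrec j) (hv : Primrec v) :
    Primrec fun y => vtN (c y) (j y) (v y) := by
  unfold vtN
  exact CB.p_dg (CB.p_fst (CB.p_snd (CB.p_fst hc)))
    (CB.p_snd (CB.p_snd (CB.p_snd (CB.p_snd (p_sc hc hj))))) hv

theorem kp1_RigN : PrimrecPred fun y : BC × ℕ => RigN y.1 y.2 := by
  unfold RigN
  (repeat' (with_reducible first | assumption | exact CB.p_id | exact Primrec.const _ | exact CB.pp_const _ | apply pp_InK | apply p_piN | apply p_kG | apply pp_AdG | apply pp_StG | apply p_cK | apply p_cM | apply CB.p_dg | apply CB.p_fst | apply CB.p_snd | apply CB.p_pair | apply CB.p_add | apply CB.p_sub | apply CB.p_mul | apply CB.p_mod | apply CB.p_pow | apply CB.pp_all | apply CB.pp_ex | apply CB.pp_and | apply CB.pp_or | apply CB.pp_not | apply CB.pp_iff | apply CB.pp_imp | apply CB.pp_eq | apply CB.pp_lt))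

theorem pp_RigN (hc : Primrec c) (hi : Primrec i) : PrimrecPred fun y => RigN (c y) (i y) :=
  kp1_RigN.comp (CB.p_pair hc hi)

theorem kp1_EdgN : PrimrecPred fun y : BC × ℕ => EdgN y.1 y.2 := by
  unfold EdgN
  (repeat' (with_reducible first | assumption | exact CB.p_id | exact Primrec.const _ | exact CB.pp_const _ | apply pp_InK | apply p_piN | apply p_kG | apply pp_AdG | apply pp_StG | apply p_cK | apply p_cM | apply CB.p_dg | apply CB.p_fst | apply CB.p_snd | apply CB.p_pair | apply CB.p_add | apply CB.p_sub | apply CB.p_mul | apply CB.p_mod | apply CB.p_pow | apply CB.pp_all | apply CB.pp_ex | apply CB.pp_and | apply CB.pp_or | apply CB.pp_not | apply CB.pp_iff | apply CB.pp_imp | apply CB.pp_eq | apply CB.pp_lt))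

theorem pp_EdgN (hc : Primrec c) (hi : Primrec i) : PrimrecPred fun y => EdgN (c y) (i y) :=
  kp1_EdgN.comp (CB.p_pair hc hi)

theorem kp1_CutN : PrimrecPred fun y : BC × ℕ => CutN y.1 y.2 := by
  unfold CutN
  (repeat' (with_reducible first | assumption | exact CB.p_id | exact Primrec.const _ | exact CB.pp_const _ | apply pp_InK | apply p_nB | apply p_kG | apply CB.p_fst | apply CB.p_snd | apply CB.p_pair | apply CB.pp_all | apply CB.pp_ex | apply CB.pp_and | apply CB.pp_or | apply CB.pp_not | apply CB.pp_iff | apply CB.pp_imp | apply CB.pp_eq | apply CB.pp_lt))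

theorem pp_CutN (hc : Primrec c) (hv : Primrec v) : PrimrecPred fun y => CutN (c y) (v y) :=
  kp1_CutN.comp (CB.p_pair hc hv)

theorem kp1_FltN : PrimrecPred fun y : BC × ℕ => FltN y.1 y.2 := by
  unfold FltN
  (repeat' (with_reducible first | assumption | exact CB.p_id | exact Primrec.const _ | exact CB.pp_const _ | apply pp_InK | apply pp_CutN | apply pp_EdgN | apply p_nB | apply p_kG | apply CB.p_fst | apply CB.p_snd | apply CB.p_pair | apply CB.pp_all | apply CB.pp_ex | apply CB.pp_and | apply CB.pp_or | apply CB.pp_not | apply CB.pp_iff | apply CB.pp_imp | apply CB.pp_eq | apply CB.pp_lt))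

theorem pp_FltN (hc : Primrec c) (hi : Primrec i) : PrimrecPred fun y => FltN (c y) (i y) :=
  kp1_FltN.comp (CB.p_pair hc hi)

theorem kp1_SubV : PrimrecPred fun y : BC × ℕ => SubV y.1 y.2 := by
  unfold SubV OrD
  (repeat' (with_reducible first | assumption | exact CB.p_id | exact Primrec.const _ | exact CB.pp_const _ | exact valN2_p.comp (p_scD (CB.p_fst CB.p_id) (CB.p_snd CB.p_id)) | apply pp_InK | apply pp_RigN | apply p_ptN | apply p_ltN | apply p_vtN | apply p_scI | apply p_scD | apply p_nB | apply p_nS | apply p_piN | apply p_kG | apply pp_AdG | apply pp_StG | apply p_rmN | apply p_riN | apply pp_AdN | apply pp_StN | apply p_cK | apply p_cM | apply CB.p_dg | apply CB.p_fst | apply CB.p_snd | apply CB.p_pair | apply CB.p_add | apply CB.p_sub | apply CB.p_mul | apply CB.p_mod | apply CB.p_pow | apply CB.pp_all | apply CB.pp_ex | apply CB.pp_and | apply CB.pp_or | apply CB.pp_not | apply CB.pp_iff | apply CB.pp_imp | apply CB.pp_eq | apply CB.pp_lt))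

theorem pp_SubV (hc : Primrec c) (hj : Primrec j) : PrimrecPred fun y => SubV (c y) (j y) :=
  kp1_SubV.comp (CB.p_pair hc hj)

theorem bVal_p : PrimrecPred BVal := by
  unfold BVal ActV
  (repeat' (with_reducible first | assumption | exact CB.p_id | exact Primrec.const _ | exact CB.pp_const _ | apply pp_InK | apply pp_RigN | apply pp_EdgN | apply pp_CutN | apply pp_SubV | apply p_ptN | apply p_ltN | apply p_vtN | apply p_scI | apply p_scD | apply p_nB | apply p_nS | apply p_piN | apply p_kG | apply pp_AdG | apply pp_StG | apply p_rmN | apply p_riN | apply pp_AdN | apply pp_StN | apply p_cK | apply p_cM | apply CB.p_dg | apply CB.p_fst | apply CB.p_snd | apply CB.p_pair | apply CB.p_add | apply CB.p_sub | apply CB.p_mul | apply CB.p_mod | apply CB.p_pow | apply CB.pp_all | apply CB.pp_ex | apply CB.pp_and | apply CB.pp_or | apply CB.pp_not | apply CB.pp_iff | apply CB.pp_imp | apply CB.pp_eq | apply CB.pp_le | apply CB.pp_lt))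

end RaagBL
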