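import Pool.Agent.Lib.MP_32d917_al_bl.KMDefs
import Pool.Agent.Lib.MP_32d917_al_bl.KP1
import Pool.Agent.Lib.MP_32d917_al_gp.C14

/-!
# KP2: primitive recursiveness of the conditions on matchings, recursive enumerability
-/

set_option autoImplicit false
set_option synthInstance.maxSize 2000

namespace RaagBL

open LatIso RaagIso RaagGP
open AdmIso (Wd mvs fM cmW)

variable {β : Type} [Primcodable β] {c c' : β → BC} {t : β → MtB} {v w i j k x y : β → ℕ}

theorem pp_OvN (hc : Primrec c) (hv : Primrec v) (hx : Primrec x) (hy : Primrec y) :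
    PrimrecPred fun z => OvN (c z) (v z) (x z) (y z) := by
  unfold OvN
  refine c12_OrD (D := fun z a => piN (c z).1 a = v z) (CB.p_fst (CB.p_fst hc)) ?_ hx hy
  exact CB.pp_eq (p_piN (CB.p_fst (hc.comp Primrec.fst)) Primrec.snd) (hv.comp Primrec.fst)

theorem pp_OsN (hc : Primrec c) (hv : Primrec v) (hx : Primrec x) (hy : Primrec y) :
    PrimrecPred fun z => OsN (c z) (v z) (x z) (y z) := by
  unfold OsN
  refine c12_OrD (D := fun z a => StG (c z).1 (v z) (piN (c z).1 a)) (CB.p_fst (CB.p_fst hc)) ?_ hx hy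
  exact pp_StG (CB.p_fst (hc.comp Primrec.fst)) (hv.comp Primrec.fst)
    (p_piN (CB.p_fst (hc.comp Primrec.fst)) Primrec.snd)

theorem pp_ObN (hc : Primrec c) (hi : Primrec i) (hx : Primrec x) (hy : Primrec y) :
    PrimrecPred fun z => ObN (c z) (i z) (x z) (y z) := by
  unfold ObN
  refine c12_OrD (D := fun z a => InK (c z) (i z) (piN (c z).1 a)) (CB.p_fst (CB.p_fst hc)) ?_ hx hy
  exact pp_InK (hc.comp Primrec.fst) (hi.comp Primrec.fst)
    (p_piN (CB.p_fst (hc.comp Primrec.fst)) Primrec.snd)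

theorem p_cntN {m : β → ℕ} {p : β → ℕ → Prop} (hm : Primrec m)
    (hp : PrimrecPred fun z : β × ℕ => p z.1 z.2) : Primrec fun z => cntN (m z) (p z) := by
  classical
  have h1 : Primrec fun z => (List.range (m z)).filterMap fun y => if p z y then some y else none := by
    refine Primrec.listFilterMap (Primrec.list_range.comp hm) ?_
    exact Primrec.ite hp (Primrec.option_some.comp Primrec.snd) (Primrec.const none)
  refine (Primrec.list_length.comp h1).of_eq ?_
  intro z
  unfold cntN
  congr 1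
  induction List.range (m z) with
  | nil => rfl
  | cons a l ih =>
    by_cases h : p z a
    · simp [List.filterMap_cons, List.filter_cons, h, ih]
    · simp [List.filterMap_cons, List.filter_cons, h, ih]

theorem p_sgN (hc : Primrec c') (ht : Primrec t) (hj : Primrec j) :
    Primrec fun z => sgN (c' z) (t z) (j z) := by
  unfold sgN
  exact CB.p_dg (CB.p_sub (p_nS hc) (Primrec.const 1)) (CB.p_fst (CB.p_fst ht)) hj

theorem p_bF (hc : Primrec c) : Primrec fun z => bF (c z) :=
  CB.p_pow (p_cM (CB.p_fst (CB.p_fst hc))) (p_cM (CB.p_fst (CB.p_fst hc)))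

theorem p_bT (hc : Primrec c) : Primrec fun z => bT (c z) :=
  CB.p_pow (p_kG (CB.p_fst hc)) (CB.p_mul (p_cM (CB.p_fst (CB.p_fst hc))) (p_kG (CB.p_fst hc)))

theorem p_tjN (hc : Primrec c) (ht : Primrec t) (hj : Primrec j) :
    Primrec fun z => tjN (c z) (t z) (j z) := by
  unfold tjN
  exact CB.p_pair (CB.p_dg (p_bF hc) (CB.p_fst (CB.p_snd (CB.p_fst ht))) hj)
    (CB.p_dg (p_bT hc) (CB.p_snd (CB.p_snd (CB.p_fst ht))) hj)

theorem p_FjN (hc : Primrec c) (ht : Primrec t) (hj : Primrec j) (hy : Primrec y) :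
    Primrec fun z => FjN (c z) (t z) (j z) (y z) :=
  p_FN2 (p_scD hc hj) (p_tjN hc ht hj) hy

theorem p_TjN (hc : Primrec c) (ht : Primrec t) (hj : Primrec j) (hy : Primrec y)
    (hv : Primrec v) : Primrec fun z => TjN (c z) (t z) (j z) (y z) (v z) :=
  p_tN2 (p_scD hc hj) (p_tjN hc ht hj) hy hv

theorem p_pvN (hc : Primrec c) (hc' : Primrec c') (ht : Primrec t) (hv : Primrec v)
    (hx : Primrec x) : Primrec fun z => pvN (c z) (c' z) (t z) (v z) (x z) := by
  unfold pvN
  exact CB.p_dg (CB.p_fst (CB.p_snd (CB.p_fst hc'))) (CB.p_fst (CB.p_fst (CB.p_snd ht)))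
    (CB.p_add (CB.p_mul hv (p_cM (CB.p_fst (CB.p_fst hc)))) hx)

theorem p_pxN (hc : Primrec c) (hc' : Primrec c') (ht : Primrec t) (hv : Primrec v)
    (hx : Primrec x) : Primrec fun z => pxN (c z) (c' z) (t z) (v z) (x z) := by
  unfold pxN
  exact CB.p_dg (CB.p_snd (CB.p_fst (CB.p_fst (CB.p_fst hc')))) (CB.p_snd (CB.p_fst (CB.p_snd ht)))
    (CB.p_add (CB.p_mul hv (p_cM (CB.p_fst (CB.p_fst hc)))) hx)

theorem p_fiN (hc : Primrec c) (hc' : Primrec c') (ht : Primrec t) (hv : Primrec v)
    (hx : Primrec x) : Primrec fun z => fiN (c z) (c' z) (t z) (v z) (x z) := by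
  unfold fiN
  exact CB.p_dg (CB.p_fst (CB.p_fst (CB.p_snd hc'))) (CB.p_fst (CB.p_fst (CB.p_snd (CB.p_snd ht))))
    (CB.p_add (CB.p_mul hv (p_cM (CB.p_fst (CB.p_fst hc)))) hx)

theorem p_fxN (hc : Primrec c) (hc' : Primrec c') (ht : Primrec t) (hv : Primrec v)
    (hx : Primrec x) : Primrec fun z => fxN (c z) (c' z) (t z) (v z) (x z) := by
  unfold fxN
  exact CB.p_dg (CB.p_snd (CB.p_fst (CB.p_fst (CB.p_fst hc')))) (CB.p_snd (CB.p_fst (CB.p_snd (CB.p_snd ht))))
    (CB.p_add (CB.p_mul hv (p_cM (CB.p_fst (CB.p_fst hc)))) hx)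

theorem p_eN (hc : Primrec c) (ht : Primrec t) (hv : Primrec v)
    (hx : Primrec x) : Primrec fun z => eN (c z) (t z) (v z) (x z) := by
  unfold eN
  exact CB.p_dg (Primrec.const 1) (CB.p_snd (CB.p_snd (CB.p_snd ht)))
    (CB.p_add (CB.p_mul hv (p_cM (CB.p_fst (CB.p_fst hc)))) hx)

theorem kp2_itN {d : β → Cd} (hd : Primrec d) (hi : Primrec i) (hv : Primrec v)
    (hk : Primrec k) : Primrec fun z => itN (d z) (i z) (v z) (k z) := by
  unfold itN
  have h1 : Primrec₂ fun (z : β) (j : ℕ) => rmN (d z) j (v z) :=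
    p_rmN (hd.comp Primrec.fst) Primrec.snd (hv.comp Primrec.fst)
  exact Primrec.nat_iterate hk hi h1

theorem pp_MatN2 {d d' : β → Cd2} {s : β → Mt2} (hd : Primrec d) (hd' : Primrec d')
    (hs : Primrec s) : PrimrecPred fun z => MatN2 (d z) (d' z) (s z) :=
  matN2_p.comp (CB.p_pair (CB.p_pair hd hd') hs)

theorem kp2_MM {d : β → Cd} (hd : Primrec d) : Primrec fun z => MM (d z) := by
  unfold MM
  have h1 : Primrec₂ fun (_ : β) (y : ℕ × ℕ) => (y.1 + 1) * y.2 :=
    CB.p_mul (CB.p_add (CB.p_fst (CB.p_snd CB.p_id)) (Primrec.const 1)) (CB.p_snd (CB.p_snd CB.p_id))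
  refine (Primrec.nat_rec' (p_cM hd) (Primrec.const 1) h1).of_eq ?_
  intro x
  generalize cM (d x) = n
  induction n with
  | zero => rfl
  | succ n ih =>
    rw [Nat.factorial_succ, ← ih]

theorem kp2_PerN : PrimrecPred fun z : Cd × ℕ × ℕ × ℕ => PerN z.1 z.2.1 z.2.2.1 z.2.2.2 := by
  unfold PerN
  (repeat' (with_reducible first | assumption | exact CB.p_id | exact Primrec.const _ | exact CB.pp_const _ | apply kp2_itN | apply p_cM | apply CB.p_fst | apply CB.p_snd | apply CB.p_pair | apply CB.p_add | apply CB.p_sub | apply CB.p_mul | apply CB.p_mod | apply CB.p_pow | apply CB.pp_all | apply CB.pp_ex | apply CB.pp_and | apply CB.pp_or | apply CB.pp_not | apply CB.pp_iff | apply CB.pp_imp | apply CB.pp_eq | apply CB.pp_lt))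

theorem pp_PerN {d : β → Cd} (hd : Primrec d) (hx : Primrec x) (hv : Primrec v)
    (hk : Primrec k) : PrimrecPred fun z => PerN (d z) (x z) (v z) (k z) :=
  kp2_PerN.comp (CB.p_pair hd (CB.p_pair hx (CB.p_pair hv hk)))

theorem kp2_LtN : PrimrecPred LtN := by
  unfold LtN
  (repeat' (with_reducible first | assumption | exact CB.p_id | exact Primrec.const _ | exact CB.pp_const _ | apply kp2_itN | apply p_cM | apply CB.p_fst | apply CB.p_snd | apply CB.p_pair | apply CB.p_add | apply CB.p_sub | apply CB.p_mul | apply CB.p_mod | apply CB.p_pow | apply CB.pp_all | apply CB.pp_ex | apply CB.pp_and | apply CB.pp_or | apply CB.pp_not | apply CB.pp_iff | apply CB.pp_imp | apply CB.pp_eq | apply CB.pp_lt))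

theorem pp_LtN {z : β → (Cd × ℕ × ℕ × ℕ) × (Cd × ℕ × ℕ × ℕ) × (ℕ × ℕ) × (ℕ × ℕ) × (ℕ × ℕ)}
    (hz : Primrec z) : PrimrecPred fun y => LtN (z y) :=
  kp2_LtN.comp hz

theorem p_cntOs (hc : Primrec c) (hv : Primrec v) (hx : Primrec x) :
    Primrec fun z => cntN (cM (c z).1.1) (OsN (c z) (v z) (x z)) :=
  p_cntN (p_cM (CB.p_fst (CB.p_fst hc)))
    (pp_OsN (hc.comp Primrec.fst) (hv.comp Primrec.fst) (hx.comp Primrec.fst) Primrec.snd)

theorem p_cntB (hc : Primrec c) (hv : Primrec v) :
    Primrec fun z => cntN (nB (c z)) (fun i => InK (c z) i (v z)) :=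
  p_cntN (p_nB hc) (pp_InK (hc.comp Primrec.fst) Primrec.snd (hv.comp Primrec.fst))

theorem kp2_MS : PrimrecPred fun z : (BC × BC) × MtB => MS z.1.1 z.1.2 z.2 := by
  unfold MS
  (repeat' (with_reducible first | assumption | exact CB.p_id | exact Primrec.const _ | exact CB.pp_const _ | apply pp_InK | apply pp_CutN | apply pp_FltN | apply pp_OvN | apply pp_OsN | apply pp_ObN | apply p_ptN | apply p_ltN | apply p_vtN | apply p_scI | apply p_scD | apply p_nB | apply p_nS | apply p_sgN | apply p_tjN | apply p_FjN | apply p_TjN | apply p_pvN | apply p_pxN | apply p_fiN | apply p_fxN | apply p_eN | apply kp2_itN | apply pp_MatN2 | apply pp_LtN | apply pp_PerN | apply kp2_MM | apply p_cntOs | apply p_cntB | apply pp_PsN | apply p_piN | apply p_kG | apply pp_AdG | apply pp_StG | apply p_rmN | apply p_riN | apply pp_AdN | apply pp_StN | apply p_cK | apply p_cM | apply CB.p_dg | apply CB.p_fst | apply CB.p_snd | apply CB.p_pair | apply CB.p_add | apply CB.p_sub | apply CB.p_mul | apply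 CB.p_mod | apply CB.p_pow | apply CB.pp_all | apply CB.pp_ex | apply CB.pp_and | apply CB.pp_or | apply CB.pp_not | apply CB.pp_iff | apply CB.pp_imp | apply CB.pp_eq | apply CB.pp_lt))

theorem kp2_MP : PrimrecPred fun z : (BC × BC) × MtB => MP z.1.1 z.1.2 z.2 := by
  unfold MP
  (repeat' (with_reducible first | assumption | exact CB.p_id | exact Primrec.const _ | exact CB.pp_const _ | apply pp_InK | apply pp_CutN | apply pp_FltN | apply pp_OvN | apply pp_OsN | apply pp_ObN | apply p_ptN | apply p_ltN | apply p_vtN | apply p_scI | apply p_scD | apply p_nB | apply p_nS | apply p_sgN | apply p_tjN | apply p_FjN | apply p_TjN | apply p_pvN | apply p_pxN | apply p_fiN | apply p_fxN | apply p_eN | apply kp2_itN | apply pp_MatN2 | apply pp_LtN | apply pp_PerN | apply kp2_MM | apply p_cntOs | apply p_cntB | apply pp_PsN | apply p_piN | apply p_kG | apply pp_AdG | apply pp_StG | apply p_rmN | apply p_riN | apply pp_AdN | apply pp_StN | apply p_cK | apply p_cM | apply CB.p_dg | apply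 CB.p_fst | apply CB.p_snd | apply CB.p_pair | apply CB.p_add | apply CB.p_sub | apply CB.p_mul | apply CB.p_mod | apply CB.p_pow | apply CB.pp_all | apply CB.pp_ex | apply CB.pp_and | apply CB.pp_or | apply CB.pp_not | apply CB.pp_iff | apply CB.pp_imp | apply CB.pp_eq | apply CB.pp_lt))

theorem kp2_ME : PrimrecPred fun z : (BC × BC) × MtB => ME z.1.1 z.1.2 z.2 := by
  unfold ME
  (repeat' (with_reducible first | assumption | exact CB.p_id | exact Primrec.const _ | exact CB.pp_const _ | apply pp_InK | apply pp_CutN | apply pp_FltN | apply pp_OvN | apply pp_OsN | apply pp_ObN | apply p_ptN | apply p_ltN | apply p_vtN | apply p_scI | apply p_scD | apply p_nB | apply p_nS | apply p_sgN | apply p_tjN | apply p_FjN | apply p_TjN | apply p_pvN | apply p_pxN | apply p_fiN | apply p_fxN | apply p_eN | apply kp2_itN | apply pp_MatN2 | apply pp_LtN | apply pp_PerN | apply kp2_MM | apply p_cntOs | apply p_cntB | apply pp_PsN | apply p_piN | apply p_kG | apply pp_AdG | apply pp_StG | apply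 p_rmN | apply p_riN | apply pp_AdN | apply pp_StN | apply p_cK | apply p_cM | apply CB.p_dg | apply CB.p_fst | apply CB.p_snd | apply CB.p_pair | apply CB.p_add | apply CB.p_sub | apply CB.p_mul | apply CB.p_mod | apply CB.p_pow | apply CB.pp_all | apply CB.pp_ex | apply CB.pp_and | apply CB.pp_or | apply CB.pp_not | apply CB.pp_iff | apply CB.pp_imp | apply CB.pp_eq | apply CB.pp_lt))

theorem kp2_MF : PrimrecPred fun z : (BC × BC) × MtB => MF z.1.1 z.1.2 z.2 := by
  unfold MF
  (repeat' (with_reducible first | assumption | exact CB.p_id | exact Primrec.const _ | exact CB.pp_const _ | apply pp_InK | apply pp_CutN | apply pp_FltN | apply pp_OvN | apply pp_OsN | apply pp_ObN | apply p_ptN | apply p_ltN | apply p_vtN | apply p_scI | apply p_scD | apply p_nB | apply p_nS | apply p_sgN | apply p_tjN | apply p_FjN | apply p_TjN | apply p_pvN | apply p_pxN | apply p_fiN | apply p_fxN | apply p_eN | apply kp2_itN | apply pp_MatN2 | apply pp_LtN | apply pp_PerN | apply kp2_MM | apply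 p_cntOs | apply p_cntB | apply pp_PsN | apply p_piN | apply p_kG | apply pp_AdG | apply pp_StG | apply p_rmN | apply p_riN | apply pp_AdN | apply pp_StN | apply p_cK | apply p_cM | apply CB.p_dg | apply CB.p_fst | apply CB.p_snd | apply CB.p_pair | apply CB.p_add | apply CB.p_sub | apply CB.p_mul | apply CB.p_mod | apply CB.p_pow | apply CB.pp_all | apply CB.pp_ex | apply CB.pp_and | apply CB.pp_or | apply CB.pp_not | apply CB.pp_iff | apply CB.pp_imp | apply CB.pp_eq | apply CB.pp_lt))

theorem kp2_ML : PrimrecPred fun z : (BC × BC) × MtB => ML z.1.1 z.1.2 z.2 := by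
  unfold ML
  (repeat' (with_reducible first | assumption | exact CB.p_id | exact Primrec.const _ | exact CB.pp_const _ | apply pp_InK | apply pp_CutN | apply pp_FltN | apply pp_OvN | apply pp_OsN | apply pp_ObN | apply p_ptN | apply p_ltN | apply p_vtN | apply p_scI | apply p_scD | apply p_nB | apply p_nS | apply p_sgN | apply p_tjN | apply p_FjN | apply p_TjN | apply p_pvN | apply p_pxN | apply p_fiN | apply p_fxN | apply p_eN | apply kp2_itN | apply pp_MatN2 | apply pp_LtN | apply pp_PerN | apply kp2_MM | apply p_cntOs | apply p_cntB | apply pp_PsN | apply p_piN | apply p_kG | apply pp_AdG | apply pp_StG | apply p_rmN | apply p_riN | apply pp_AdN | apply pp_StN | apply p_cK | apply p_cM | apply CB.p_dg | apply CB.p_fst | apply CB.p_snd | apply CB.p_pair | apply CB.p_add | apply CB.p_sub | apply CB.p_mul | apply CB.p_mod | apply CB.p_pow | apply CB.pp_all | apply CB.pp_ex | apply CB.pp_and | apply CB.pp_or | apply CB.pp_not | apply CB.pp_iff | apply CB.pp_imp | apply CB.pp_eq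 | apply CB.pp_lt))

theorem kp2_MR : PrimrecPred fun z : (BC × BC) × MtB => MR z.1.1 z.1.2 z.2 := by
  unfold MR
  (repeat' (with_reducible first | assumption | exact CB.p_id | exact Primrec.const _ | exact CB.pp_const _ | apply pp_InK | apply pp_CutN | apply pp_FltN | apply pp_OvN | apply pp_OsN | apply pp_ObN | apply p_ptN | apply p_ltN | apply p_vtN | apply p_scI | apply p_scD | apply p_nB | apply p_nS | apply p_sgN | apply p_tjN | apply p_FjN | apply p_TjN | apply p_pvN | apply p_pxN | apply p_fiN | apply p_fxN | apply p_eN | apply kp2_itN | apply pp_MatN2 | apply pp_LtN | apply pp_PerN | apply kp2_MM | apply p_cntOs | apply p_cntB | apply pp_PsN | apply p_piN | apply p_kG | apply pp_AdG | apply pp_StG | apply p_rmN | apply p_riN | apply pp_AdN | apply pp_StN | apply p_cK | apply p_cM | apply CB.p_dg | apply CB.p_fst | apply CB.p_snd | apply CB.p_pair | apply CB.p_add | apply CB.p_sub | apply CB.p_mul | apply CB.p_mod | apply CB.p_pow | apply CB.pp_all | apply CB.pp_ex |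 apply CB.pp_and | apply CB.pp_or | apply CB.pp_not | apply CB.pp_iff | apply CB.pp_imp | apply CB.pp_eq | apply CB.pp_lt))

theorem matB_p : PrimrecPred fun z : (BC × BC) × MtB => MatB z.1.1 z.1.2 z.2 := by
  unfold MatB
  exact CB.pp_and kp2_MS (CB.pp_and kp2_MP (CB.pp_and kp2_ME (CB.pp_and kp2_MF
    (CB.pp_and kp2_ML kp2_MR))))

theorem re_ex_lt {p : β → ℕ → Prop} {f : β → ℕ} (hf : Primrec f)
    (hp : REPred fun z : β × ℕ => p z.1 z.2) : REPred fun z => ∃ n < f z, p z n := by
  refine re_exists (p := fun z n => n < f z ∧ p z n) (re_and (re_of_prim ?_) hp)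
  exact CB.pp_lt Primrec.snd (hf.comp Primrec.fst)

theorem badB_re : REPred fun z : (BC × BC) × MtB => BadB z.1.1 z.1.2 z.2 := by
  unfold BadB
  refine re_or (re_of_prim (CB.pp_not matB_p)) ?_
  refine re_ex_lt (p := fun (z : (BC × BC) × MtB) j =>
    BadM (scD z.1.1 j) (scD z.1.2 (sgN z.1.2 z.2 j)) (tjN z.1.1 z.2 j))
    (p_nS (CB.p_fst (CB.p_fst CB.p_id))) ?_
  have h1 : Primrec fun y : ((BC × BC) × MtB) × ℕ => y.1.1.1 :=
    CB.p_fst (CB.p_fst (CB.p_fst CB.p_id))
  have h2 : Primrec fun y : ((BC × BC) × MtB) × ℕ => y.1.1.2 :=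
    CB.p_snd (CB.p_fst (CB.p_fst CB.p_id))
  have h3 : Primrec fun y : ((BC × BC) × MtB) × ℕ => y.1.2 := CB.p_snd (CB.p_fst CB.p_id)
  have h4 : Primrec fun y : ((BC × BC) × MtB) × ℕ => y.2 := CB.p_snd CB.p_id
  exact re_comp badM_re (f := fun y : ((BC × BC) × MtB) × ℕ =>
    ((scD y.1.1.1 y.2, scD y.1.1.2 (sgN y.1.1.2 y.1.2 y.2)), tjN y.1.1.1 y.1.2 y.2))
    (CB.p_pair (CB.p_pair (p_scD h1 h4) (p_scD h2 (p_sgN h2 h3 h4))) (p_tjN h1 h3 h4)).to_comp

end RaagBL
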