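import Pool.Agent.Lib.MP_32d917_al_bl.KMDefs
import Pool.Agent.Lib.MP_32d917_al_bl.BDefs
import Pool.Agent.Lib.MP_32d917_al_gp.C04

/-!
# KV1: the structure given by a valid code
-/

set_option autoImplicit false

namespace RaagBL

open LatIso RaagIso RaagGP
open AdmIso (Wd mvs fM cmW)

/-- the blocks of a code -/
def blk (c : BC) (i : Fin (nB c)) : Set (Fin (kG c.1)) := {v | InK c i v}

theorem kmem_blk {c : BC} {i : Fin (nB c)} {v : Fin (kG c.1)} : v ∈ blk c i ↔ InK c i v := Iff.rfl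

theorem krig_iff (c : BC) (i : Fin (nB c)) : RigN c i ↔ Rig (grG c.1) (blk c i) := by
  constructor
  · rintro ⟨⟨v, hv, w, hw, hvw, h1, h2⟩, h3, h4⟩
    refine ⟨⟨⟨⟨v, hv⟩, h1⟩, ⟨⟨w, hw⟩, h2⟩, ?_⟩, ?_, ?_⟩
    · intro e
      exact hvw (congrArg (fun x : blk c i => ((x : Fin (kG c.1)) : ℕ)) e)
    · rintro ⟨v, hv⟩ ⟨w, hw⟩ hne
      obtain ⟨u, hu, k1, k2, k3⟩ := h3 v v.2 w w.2 hv hw (fun e => hne (Subtype.ext (Fin.ext e)))
      refine ⟨⟨⟨u, hu⟩, k1⟩, k2, ?_⟩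
      rintro (e | e)
      · exact k3 (Or.inl (congrArg (fun x : blk c i => ((x : Fin (kG c.1)) : ℕ)) e))
      · exact k3 (Or.inr e)
    · rintro ⟨v, hv⟩ K hK ⟨a, ha⟩ ⟨b, hb⟩ haK hav hbv
      obtain ⟨s, hs, hsK⟩ := CB.exists_pred c.1.2.1
        (fun a : Fin (c.1.2.1 + 1) => ∃ h : a ∈ blk c i, (⟨a, h⟩ : blk c i) ∈ K)
      have hst : ∀ x : Fin (kG c.1), ∀ hx : x ∈ blk c i,
          (¬ StG c.1 v x ↔ (⟨x, hx⟩ : blk c i) ∉ st ((grG c.1).induce (blk c i)) ⟨v, hv⟩) := by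
        intro x hx
        refine not_congr ⟨?_, ?_⟩
        · rintro (e | e)
          · exact Or.inl (Subtype.ext (Fin.ext e))
          · exact Or.inr e
        · rintro (e | e)
          · exact Or.inl (congrArg (fun x : blk c i => ((x : Fin (kG c.1)) : ℕ)) e)
          · exact Or.inr e
      have h1 := h4 v v.2 hv s hs (by
        intro a ha b hb k1 k2 k3 k4 k5 k6
        obtain ⟨l1, l2⟩ := (hsK ⟨a, ha⟩).1 k3
        exact (hsK ⟨b, hb⟩).2 ⟨k2, hK ⟨⟨a, ha⟩, l1⟩ ⟨⟨b, hb⟩, k2⟩ l2 ((hst ⟨a, ha⟩ l1).1 k4)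
          ((hst ⟨b, hb⟩ k2).1 k5) k6⟩)
        a a.2 b b.2 ha hb ((hsK a).2 ⟨ha, haK⟩) ((hst a ha).2 hav) ((hst b hb).2 hbv)
      exact ((hsK b).1 h1).2
  · rintro ⟨⟨⟨a, ha⟩, ⟨b, hb⟩, hab⟩, h3, h4⟩
    refine ⟨⟨a, a.2, b, b.2, fun e => hab (Subtype.ext (Fin.ext e)), ha, hb⟩, ?_, ?_⟩
    · intro v hv w hw k1 k2 k3
      obtain ⟨⟨u, hu⟩, l1, l2⟩ := h3 ⟨⟨v, hv⟩, k1⟩ ⟨⟨w, hw⟩, k2⟩
        (fun e => k3 (congrArg (fun x : blk c i => ((x : Fin (kG c.1)) : ℕ)) e))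
      refine ⟨u, u.2, hu, l1, ?_⟩
      rintro (e | e)
      · exact l2 (Or.inl (Subtype.ext (Fin.ext e)))
      · exact l2 (Or.inr e)
    · intro v hv k1 s _ hK a ha b hb ka kb k2 k3 k4
      have hst : ∀ x : Fin (kG c.1), ∀ hx : x ∈ blk c i,
          (¬ StG c.1 v x ↔ (⟨x, hx⟩ : blk c i) ∉
            st ((grG c.1).induce (blk c i)) ⟨⟨v, hv⟩, k1⟩) := by
        intro x hx
        refine not_congr ⟨?_, ?_⟩
        · rintro (e | e)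
          · exact Or.inl (Subtype.ext (Fin.ext e))
          · exact Or.inr e
        · rintro (e | e)
          · exact Or.inl (congrArg (fun x : blk c i => ((x : Fin (kG c.1)) : ℕ)) e)
          · exact Or.inr e
      exact h4 ⟨⟨v, hv⟩, k1⟩ {x | CB.dg 1 s ((x : Fin (kG c.1)) : ℕ) = 1} (by
        rintro ⟨x, hx⟩ ⟨y, hy⟩ l1 l2 l3 l4
        exact hK x x.2 y y.2 hx hy l1 ((hst x hx).2 l2) ((hst y hy).2 l3) l4)
        ⟨⟨a, ha⟩, ka⟩ ⟨⟨b, hb⟩, kb⟩ k2 ((hst ⟨a, ha⟩ ka).1 k3) ((hst ⟨b, hb⟩ kb).1 k4)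

theorem kedg_iff (c : BC) (i : Fin (nB c)) : EdgN c i ↔ Edg (grG c.1) (blk c i) := by
  constructor
  · rintro ⟨v, hv, w, hw, h1, h2⟩
    refine ⟨⟨v, hv⟩, ⟨w, hw⟩, h1, ?_⟩
    ext u
    rw [kmem_blk, h2 u u.2]
    simp [Fin.ext_iff]
  · rintro ⟨v, w, h1, h2⟩
    refine ⟨v, v.2, w, w.2, h1, ?_⟩
    intro u hu
    have h3 : (⟨u, hu⟩ : Fin (kG c.1)) ∈ blk c i ↔ (⟨u, hu⟩ : Fin (kG c.1)) ∈ ({v, w} : Set _) := by
      rw [h2]
    rw [kmem_blk] at h3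
    simpa [Fin.ext_iff] using h3

theorem kcut_iff (c : BC) (v : Fin (kG c.1)) : CutN c v ↔ Cut (blk c) v := by
  constructor
  · rintro ⟨i, hi, j, hj, h1, h2, h3⟩
    exact ⟨⟨i, hi⟩, ⟨j, hj⟩, fun e => h1 (congrArg Fin.val e), h2, h3⟩
  · rintro ⟨i, j, h1, h2, h3⟩
    exact ⟨i, i.2, j, j.2, fun e => h1 (Fin.ext e), h2, h3⟩

theorem kflt_iff (c : BC) (i : Fin (nB c)) :
    FltN c i ↔ Edg (grG c.1) (blk c i) ∧ ∀ v ∈ blk c i, Cut (blk c) v := by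
  unfold FltN
  rw [kedg_iff]
  refine and_congr_right fun _ => ⟨?_, ?_⟩
  · intro h v hv
    exact (kcut_iff c v).1 (h v v.2 hv)
  · intro h u hu k
    exact (kcut_iff c ⟨u, hu⟩).2 (h ⟨u, hu⟩ k)

theorem kglu_code {c : BC} (h : BVal c) : Glu (grG c.1) (blk c) := by
  obtain ⟨-, -, -, -, h5, h6, h7, h8, -⟩ := h
  refine ⟨?_, ?_, ?_, ?_⟩
  · intro v
    obtain ⟨i, hi, k⟩ := h5 v v.2
    exact ⟨⟨i, hi⟩, k⟩
  · intro a b hab
    obtain ⟨i, hi, k1, k2⟩ := h6 a a.2 b b.2 hab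
    exact ⟨⟨i, hi⟩, k1, k2⟩
  · intro i
    rcases h8 i i.2 with k | k
    · exact Or.inl ((kedg_iff c i).1 k)
    · exact Or.inr ((krig_iff c i).1 k)
  · rintro i ⟨j, hj⟩
    obtain ⟨v, hv, k1, ⟨l, hl, k2⟩, k3⟩ := h7 i i.2 (lt_of_le_of_lt (Nat.zero_le _) hj)
    refine ⟨⟨v, hv⟩, ⟨k1, ⟨l, hl.trans i.2⟩, hl, k2⟩, ?_⟩
    rintro w ⟨l1, l, hl, l2⟩
    exact Fin.ext (k3 w w.2 l1 ⟨l, hl, l2⟩)

theorem kbu_codeB {c : BC} (h : BVal c) : BU (grG c.1) (gr c.1.1) (piF c.1) := by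
  obtain ⟨-, h3, h4, h5, -⟩ := h
  refine ⟨?_, ?_, ?_⟩
  · intro v
    obtain ⟨a, ha, hv⟩ := h3 v v.2
    exact ⟨⟨a, ha⟩, Fin.ext hv⟩
  · intro a b hab
    exact h4 a a.2 b b.2 (fun e => hab (Fin.ext e))
  · intro v
    rcases h5 v v.2 with h | h
    · left
      intro a b ha hb hab
      exact h a a.2 b b.2 (congrArg Fin.val ha) (congrArg Fin.val hb) (fun e => hab (Fin.ext e))
    · right
      intro a b ha hb
      exact h a a.2 b b.2 (congrArg Fin.val ha) (congrArg Fin.val hb)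

/-- a set of vertices is not both an edge and rigid -/
theorem kedg_not_rig {V : Type} {Γ : SimpleGraph V} {S : Set V} (h : Edg Γ S) : ¬ Rig Γ S := by
  obtain ⟨a, b, hab, rfl⟩ := h
  rintro ⟨-, hd, -⟩
  obtain ⟨⟨u, hu⟩, h1, h2⟩ := hd ⟨a, Or.inl rfl⟩ ⟨b, Or.inr rfl⟩
    (fun e => hab.ne (congrArg Subtype.val e))
  rcases hu with rfl | hu
  · exact absurd h1 (Γ.irrefl)
  · apply h2
    left
    apply Subtype.ext
    exact hu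

theorem kctx_code {c : BC} (h : BVal c) : Ctx (grG c.1) (gr c.1.1) (piF c.1) (blk c) := by
  refine ⟨kglu_code h, kbu_codeB h, ?_, ?_⟩
  · obtain ⟨-, -, -, -, h5, -, -, h8, h9, -⟩ := h
    intro v hv a b ha hb
    by_contra hab
    have h1 : ¬ (a : ℕ) = b := fun e => hab (Fin.ext e)
    have h2 : piN c.1 a = piN c.1 b := by
      have := ha.trans hb.symm
      exact congrArg Fin.val this
    have h3 : piN c.1 a = v := congrArg Fin.val ha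
    rcases hv with ⟨i, j, hij, k1, k2⟩ | ⟨i, k1, k2⟩
    · obtain ⟨-, l2⟩ := h9 a a.2 b b.2 h1 h2 i i.2 (by rw [h3]; exact k1)
      exact hij (Fin.ext (l2 j j.2 (by rw [h3]; exact k2)).symm)
    · obtain ⟨l1, -⟩ := h9 a a.2 b b.2 h1 h2 i i.2 (by rw [h3]; exact k2)
      exact kedg_not_rig k1 ((krig_iff c i).1 l1)
  · have h1 : 2 ≤ c.1.2.1 := h.1.2
    refine ⟨⟨0, by show 0 < c.1.2.1 + 1; omega⟩, ⟨1, by show 1 < c.1.2.1 + 1; omega⟩,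
      ⟨2, by show 2 < c.1.2.1 + 1; omega⟩, ?_, ?_, ?_⟩ <;>
    · intro e
      have := congrArg Fin.val e
      simp at this

/-- orbits -/
theorem kob_gen {c : BC} (h : ActV c.1.1) {ρ : RA (gr c.1.1) →* Equiv.Perm (Fin (cM c.1.1))}
    (hρ : IsRho c.1.1 ρ) (D : ℕ → Prop) (E : Set (Fin (kG c.1)))
    (hDE : ∀ a : Fin (cK c.1.1), D a ↔ piF c.1 a ∈ E) (x y : Fin (cM c.1.1)) :
    OrD c.1.1 D x y ↔ Ob (piF c.1) ρ E x y := by
  rw [ord_iff h hρ]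
  have h1 : {a : Fin (cK c.1.1) | D a} = piF c.1 ⁻¹' E := by
    ext a
    exact hDE a
  rw [h1]
  rfl

theorem kov_iff {c : BC} (h : ActV c.1.1) {ρ : RA (gr c.1.1) →* Equiv.Perm (Fin (cM c.1.1))}
    (hρ : IsRho c.1.1 ρ) (v : Fin (kG c.1)) (x y : Fin (cM c.1.1)) :
    OvN c v x y ↔ Ob (piF c.1) ρ {v} x y := by
  refine kob_gen h hρ _ _ (fun a => ?_) x y
  show piN c.1 a = v ↔ piF c.1 a = v
  rw [Fin.ext_iff]
  rfl

theorem kos_iff {c : BC} (h : ActV c.1.1) {ρ : RA (gr c.1.1) →* Equiv.Perm (Fin (cM c.1.1))}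
    (hρ : IsRho c.1.1 ρ) (v : Fin (kG c.1)) (x y : Fin (cM c.1.1)) :
    OsN c v x y ↔ Ob (piF c.1) ρ (st (grG c.1) v) x y := by
  refine kob_gen h hρ _ _ (fun a => ?_) x y
  exact (grG_st c.1 v (piF c.1 a)).symm

theorem kob_iff {c : BC} (h : ActV c.1.1) {ρ : RA (gr c.1.1) →* Equiv.Perm (Fin (cM c.1.1))}
    (hρ : IsRho c.1.1 ρ) (i : Fin (nB c)) (x y : Fin (cM c.1.1)) :
    ObN c i x y ↔ Ob (piF c.1) ρ (blk c i) x y :=
  kob_gen h hρ _ _ (fun _ => Iff.rfl) x y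

end RaagBL
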