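import Pool.Agent.Lib.MP_32d917_al_bl.KV1

/-!
# KV2: the sub-codes of a valid code
-/

set_option autoImplicit false

namespace RaagBL

open LatIso RaagIso RaagGP
open AdmIso (Wd mvs fM cmW)

/-- points, letters and vertices of the sub-code `j` -/
def eP (c : BC) (j : ℕ) (y : Fin (cM (scD c j).1)) : Fin (cM c.1.1) := ⟨ptN c j y, CB.dg_lt _ _ _⟩
def eL (c : BC) (j : ℕ) (y : Fin (cK (scD c j).1)) : Fin (cK c.1.1) := ⟨ltN c j y, CB.dg_lt _ _ _⟩
def eV (c : BC) (j : ℕ) (y : Fin (kG (scD c j))) : Fin (kG c.1) := ⟨vtN c j y, CB.dg_lt _ _ _⟩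

/-- the block of a sub-code -/
def sI (c : BC) (j : ℕ) : Fin (nB c) :=
  if h : scI c j < nB c then ⟨scI c j, h⟩ else ⟨0, Nat.succ_pos _⟩

theorem sI_val {c : BC} {j : ℕ} (h : scI c j < nB c) : (sI c j : ℕ) = scI c j := by
  unfold sI
  rw [dif_pos h]

theorem ksub_trn {d : Cd} (h : ActV d) {D : ℕ → Prop}
    (ht : ∀ y < cM d, ∀ z < cM d, OrD d D y z)
    {ρ : RA (gr d) →* Equiv.Perm (Fin (cM d))} (hρ : IsRho d ρ) : Trn ρ := by
  intro y z
  obtain ⟨g, -, hg⟩ := (ord_iff h hρ _ y z).1 (ht y y.2 z z.2)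
  exact ⟨g, hg⟩

/-- the structure of the sub-codes -/
theorem ksub_code {c : BC} (h : BVal c) {ρ : RA (gr c.1.1) →* Equiv.Perm (Fin (cM c.1.1))}
    (hρ : IsRho c.1.1 ρ) {j : ℕ} (hj : j < nS c) :
    scI c j < nB c ∧ Rig (grG c.1) (blk c (sI c j)) ∧ ValN2 (scD c j) ∧
      ∀ ρd : RA (gr (scD c j).1) →* Equiv.Perm (Fin (cM (scD c j).1)), IsRho (scD c j).1 ρd →
        Trn ρd ∧ Sub (grG c.1) (piF c.1) (blk c (sI c j)) ρ (eP c j 0) (grG (scD c j))
          (piF (scD c j)) ρd (eP c j) (eL c j) (eV c j) := by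
  obtain ⟨⟨k1, k2, k3⟩, k4, k5, k6, k7, k8, k9, k10, k11, k12, k13⟩ := h.2.2.2.2.2.2.2.2.2.1 j hj
  have hi : (sI c j : ℕ) = scI c j := sI_val k1
  have hA : ActV c.1.1 := h.1.1
  refine ⟨k1, ?_, k3, ?_⟩
  · refine (krig_iff c (sI c j)).1 ?_
    rw [hi]
    exact k2
  · intro ρd hρd
    have hT : Trn ρd := ksub_trn k3.2.1 k13 hρd
    refine ⟨hT, ?_, ?_, ?_, ?_, ?_, ?_, ?_, ?_, ?_, ?_⟩
    · intro y z hyz
      exact Fin.ext (k4 y y.2 z z.2 (congrArg Fin.val hyz))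
    · intro x
      rw [← kob_iff hA hρ, hi]
      constructor
      · rintro ⟨n, rfl⟩ s hs h0 hcl
        obtain ⟨s', hs', hsK⟩ := CB.exists_pred (scD c j).1.1.2
          (fun y : Fin ((scD c j).1.1.2 + 1) => CB.dg 1 s (ptN c j y) = 1)
        refine (hsK n).1 (k13 0 (Nat.succ_pos _) n n.2 s' hs' ((hsK 0).2 h0) ?_)
        intro y hy a ha _ hys
        have h1 := (hsK ⟨y, hy⟩).1 hys
        have h2 := (hsK (⟨rmN (scD c j).1 y a, CB.dg_lt _ _ _⟩)).2 (by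
          show CB.dg 1 s (ptN c j (rmN (scD c j).1 y a)) = 1
          rw [← k12 y hy a ha]
          refine hcl _ (CB.dg_lt _ _ _) _ (CB.dg_lt _ _ _) ?_ h1
          exact (k7 _ (CB.dg_lt _ _ _)).2 ⟨a, ha, rfl⟩)
        exact h2
      · intro hO
        obtain ⟨s, hs, hsK⟩ := CB.exists_pred c.1.1.1.2
          (fun x : Fin (c.1.1.1.2 + 1) => ∃ y : Fin (cM (scD c j).1), ptN c j y = x)
        obtain ⟨n, hn⟩ := (hsK x).1 (hO s hs ((hsK (eP c j 0)).2 ⟨0, rfl⟩) (by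
          intro x hx a ha hDa hxs
          obtain ⟨y, hy⟩ := (hsK ⟨x, hx⟩).1 hxs
          obtain ⟨b, hb, hba⟩ := (k7 a ha).1 hDa
          refine (hsK ⟨rmN c.1.1 x a, CB.dg_lt _ _ _⟩).2
            ⟨⟨rmN (scD c j).1 y b, CB.dg_lt _ _ _⟩, ?_⟩
          have h1 := k12 y y.2 b hb
          rw [hba] at h1
          have h2 : ptN c j y = x := hy
          rw [h2] at h1
          exact h1.symm))
        exact ⟨n, Fin.ext hn⟩
    · intro a b hab
      exact Fin.ext (k5 a a.2 b b.2 (congrArg Fin.val hab))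
    · intro a
      have h1 := k7 a a.2
      rw [kmem_blk, hi]
      constructor
      · rintro ⟨b, rfl⟩
        exact h1.2 ⟨b, b.2, rfl⟩
      · intro h2
        obtain ⟨b, hb, hba⟩ := h1.1 h2
        exact ⟨⟨b, hb⟩, Fin.ext hba⟩
    · intro a b hab
      exact Fin.ext (k6 a a.2 b b.2 (congrArg Fin.val hab))
    · intro v
      have h1 := k8 v v.2
      rw [kmem_blk, hi]
      constructor
      · rintro ⟨b, rfl⟩
        exact h1.2 ⟨b, b.2, rfl⟩
      · intro h2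
        obtain ⟨b, hb, hba⟩ := h1.1 h2
        exact ⟨⟨b, hb⟩, Fin.ext hba⟩
    · intro b
      exact Fin.ext (k9 b b.2)
    · intro a b
      exact (k10 a a.2 b b.2).symm
    · intro a b
      exact (k11 a a.2 b b.2).symm
    · intro n b
      apply Fin.ext
      rw [hρ]
      show ptN c j (rm ρd n (gen b) : Fin (cM (scD c j).1)) = rmN c.1.1 (ptN c j n) (ltN c j b)
      rw [hρd]
      exact (k12 n n.2 b b.2).symm

end RaagBL
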