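import Pool.Agent.Lib.MP_32d917_al_bl.A10
import Pool.Agent.Lib.MP_32d917_al_raag.B03

/-!
# M01: choices for an isomorphism (60 min)

`cho_ex`: `emap3` for `H = stb ρ c0`, `H' = stb ρ' c0'` (`stb_fin`); `X c` with `rm ρ c0 (X c) = c` (`Trn`); `chm` for `(i, X c)` if `NB Γ B i` (otherwise anything: `V'`, `Fin m'` are not empty: `hX'.big`, `cov`), `sgn_phi` for `(v, X c)` if `Cut B v`, otherwise `1`.
`m_step`: `h = X d * g⁻¹ * (X c)⁻¹ ∈ stb ρ c0` (`rep`, `rm_mul`), `X d = h * X c * g`. `chm_equ`: `Ch` for `h * X c` with `φ h * Y i c`, `τ i c`; `chm_mul` for `g`. `m_wstep`: the same with `chm_wal`. Both give `k = φ h ∈ stb ρ' c0'`.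
-/

set_option autoImplicit false

namespace RaagBL

open RaagIso RaagGP

variable {V W V' W' C C' : Type} {Γ : SimpleGraph V} {Λ : SimpleGraph W} {π : W → V}
  {Γ' : SimpleGraph V'} {Λ' : SimpleGraph W'} {π' : W' → V'} {m m' : ℕ} {B : Fin m → Set V}
  {B' : Fin m' → Set V'} {Φ : RA Λ × V → RA Λ' × V'} {Ψ : RA Λ' × V' → RA Λ × V}
  {ρ : RA Λ →* Equiv.Perm C} {ρ' : RA Λ' →* Equiv.Perm C'} {c0 : C} {c0' : C'}

/-- choices for an isomorphism -/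
structure Cho (Γ : SimpleGraph V) (Γ' : SimpleGraph V') (π : W → V) (π' : W' → V')
    (B : Fin m → Set V) (B' : Fin m' → Set V') (ρ : RA Λ →* Equiv.Perm C)
    (ρ' : RA Λ' →* Equiv.Perm C') (c0 : C) (c0' : C') (φ : stb ρ c0 ≃* stb ρ' c0')
    (Φ : RA Λ × V → RA Λ' × V') (Ψ : RA Λ' × V' → RA Λ × V) (X : C → RA Λ) (X' : C' → RA Λ')
    (β : Fin m → C → Fin m') (Y : Fin m → C → RA Λ') (τ : Fin m → C → V → V')
    (ε : V → C → ℤˣ) : Prop where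
  ctx : Ctx Γ Λ π B
  ctx' : Ctx Γ' Λ' π' B'
  ind : Ind3 Γ Γ' π π' φ Φ Ψ
  rep : ∀ c, rm ρ c0 (X c) = c
  rep' : ∀ c', rm ρ' c0' (X' c') = c'
  nb : ∀ i c, NB Γ B i → NB Γ' B' (β i c)
  rig : ∀ i c, NB Γ B i → (Rig Γ (B i) ↔ Rig Γ' (B' (β i c)))
  ch : ∀ i c, NB Γ B i → Ch Γ Γ' π' Φ (B i) (B' (β i c)) (X c) (Y i c) (τ i c)
  eps : ∀ v c, Cut B v → ∀ a a', π a = v → π' a' = (Φ (X c, v)).2 → ∀ k : stb ρ c0,
    (k : RA Λ) = X c * gen a ^ pr ρ a c * (X c)⁻¹ →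
      ((φ k : stb ρ' c0') : RA Λ') = (Φ (X c, v)).1 *
        gen a' ^ (((ε v c : ℤˣ) : ℤ) * pr ρ' a' (rm ρ' c0' (Φ (X c, v)).1)) * (Φ (X c, v)).1⁻¹

theorem cho_ex [Finite V] [Finite V'] [Finite C] [Finite C'] (hX : Ctx Γ Λ π B)
    (hX' : Ctx Γ' Λ' π' B') (hρ : Trn ρ) (hρ' : Trn ρ') (φ : stb ρ c0 ≃* stb ρ' c0') :
    ∃ (Φ : RA Λ × V → RA Λ' × V') (Ψ : RA Λ' × V' → RA Λ × V) (X : C → RA Λ) (X' : C' → RA Λ')
      (β : Fin m → C → Fin m') (Y : Fin m → C → RA Λ') (τ : Fin m → C → V → V')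
      (ε : V → C → ℤˣ), Cho Γ Γ' π π' B B' ρ ρ' c0 c0' φ Φ Ψ X X' β Y τ ε := by
  classical
  obtain ⟨Φ, Ψ, hI⟩ := emap3 hX hX' (stb ρ c0) (stb ρ' c0') (stb_fin ρ c0) (stb_fin ρ' c0') φ
  choose X hXr using hρ c0
  choose X' hXr' using hρ' c0'
  obtain ⟨v', -, -, -⟩ := hX'.big
  obtain ⟨j', -⟩ := hX'.glu.cov v'
  have key : ∀ (i : Fin m) (c : C), ∃ (j : Fin m') (x' : RA Λ') (t : V → V'), NB Γ B i →
      (NB Γ' B' j ∧ (Rig Γ (B i) ↔ Rig Γ' (B' j)) ∧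
        Ch Γ Γ' π' Φ (B i) (B' j) (X c) x' t) := by
    intro i c
    by_cases hi : NB Γ B i
    · obtain ⟨j, x', t, h1⟩ := chm hX hX' hI.emp hi (X c)
      exact ⟨j, x', t, fun _ => h1⟩
    · exact ⟨j', 1, fun _ => v', fun h => absurd h hi⟩
  choose β Y τ hβ using key
  have key2 : ∀ (v : V) (c : C), ∃ e : ℤˣ, Cut B v → ∀ a a', π a = v →
      π' a' = (Φ (X c, v)).2 → ∀ k : stb ρ c0, (k : RA Λ) = X c * gen a ^ pr ρ a c * (X c)⁻¹ →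
      ((φ k : stb ρ' c0') : RA Λ') = (Φ (X c, v)).1 *
        gen a' ^ ((e : ℤ) * pr ρ' a' (rm ρ' c0' (Φ (X c, v)).1)) * (Φ (X c, v)).1⁻¹ := by
    intro v c
    by_cases hv : Cut B v
    · obtain ⟨e, he⟩ := sgn_phi hX hX' hI hv (X c)
      refine ⟨e, fun _ a a' ha ha' k hk => he a a' ha ha' k ?_⟩
      rw [hXr]
      exact hk
    · exact ⟨1, fun h => absurd h hv⟩
  choose ε hε using key2
  exact ⟨Φ, Ψ, X, X', β, Y, τ, ε, hX, hX', hI, hXr, hXr', fun i c hi => (hβ i c hi).1,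
    fun i c hi => (hβ i c hi).2.1, fun i c hi => (hβ i c hi).2.2, hε⟩

variable {φ : stb ρ c0 ≃* stb ρ' c0'} {X : C → RA Λ} {X' : C' → RA Λ'} {β : Fin m → C → Fin m'}
  {Y : Fin m → C → RA Λ'} {τ : Fin m → C → V → V'} {ε : V → C → ℤˣ}

private theorem M01_step (H : Cho Γ Γ' π π' B B' ρ ρ' c0 c0' φ Φ Ψ X X' β Y τ ε) {c d : C}
    {g : RA Λ} (hd : rm ρ c g = d) : ∃ k : stb ρ c0, X d = k * X c * g := by
  have h1 : X d * g⁻¹ * (X c)⁻¹ ∈ stb ρ c0 := by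
    have h0 : rm ρ d g⁻¹ = c := by rw [← hd, ← rm_mul, mul_inv_cancel, rm_one]
    rw [mem_stb, rm_mul, rm_mul, H.rep, h0]
    have h2 := H.rep c
    have h3 : rm ρ (rm ρ c0 (X c)) (X c)⁻¹ = c0 := by
      rw [← rm_mul, mul_inv_cancel, rm_one]
    rwa [h2] at h3
  refine ⟨⟨X d * g⁻¹ * (X c)⁻¹, h1⟩, ?_⟩
  show X d = X d * g⁻¹ * (X c)⁻¹ * X c * g
  group

theorem m_step [Finite V] [Finite V']
    (H : Cho Γ Γ' π π' B B' ρ ρ' c0 c0' φ Φ Ψ X X' β Y τ ε) {i : Fin m}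
    (hi : NB Γ B i) {c d : C} {g : RA Λ} (hg : g ∈ PB Λ π (B i)) (hd : rm ρ c g = d) :
    ∃ k : stb ρ c0, X d = k * X c * g ∧ β i d = β i c ∧
      (φ k * Y i c)⁻¹ * Y i d ∈ PB Λ' π' (B' (β i c)) := by
  obtain ⟨k, hk⟩ := M01_step H hd
  have h1 := chm_equ H.ind hi (H.ch i c hi) k
  have h2 := H.ch i d hi
  rw [hk] at h2
  exact ⟨k, hk, chm_mul H.ctx H.ctx' H.ind.emp hi hg h1 h2⟩

theorem m_wstep [Finite V] [Finite V']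
    (H : Cho Γ Γ' π π' B B' ρ ρ' c0 c0' φ Φ Ψ X X' β Y τ ε) {i : Fin m}
    (hi : NB Γ B i) {v : V} (hv : v ∈ B i) {c d : C} {g : RA Λ}
    (hg : g ∈ PB Λ π (B i ∩ st Γ v)) (hd : rm ρ c g = d) :
    ∃ k : stb ρ c0, X d = k * X c * g ∧ β i d = β i c ∧ τ i d v = τ i c v ∧
      (φ k * Y i c)⁻¹ * Y i d ∈ PB Λ' π' (B' (β i c) ∩ st Γ' (τ i c v)) := by
  obtain ⟨k, hk⟩ := M01_step H hd
  have h1 := chm_equ H.ind hi (H.ch i c hi) k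
  have h2 := H.ch i d hi
  rw [hk] at h2
  exact ⟨k, hk, chm_wal H.ctx H.ctx' H.ind.emp hi hv hg h1 h2⟩

end RaagBL
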