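import Pool.Agent.Lib.MP_32d917_al_bl.M01

/-!
# M02: orbits of blocks and walls of an isomorphism (75 min)

`F i c = rm ρ' c0' (Y i c)`. `m_orb`, `m_wal`: `m_step`, `m_wstep`: `rm ρ' (F i c) ((φ k * Y i c)⁻¹ * Y i d) = rm ρ' c0' ((φ k)⁻¹ * Y i d) = F i d` (`φ k ∈ stb ρ' c0'`).
`m_orbi`: let `rm ρ' (F i c) g' = F j d`, `g' ∈ PB' (B' (β i c))`. `h' = Y j d * g'⁻¹ * (Y i c)⁻¹ ∈ stb ρ' c0'`, `k = φ.symm h'`; `chm_equ`: `Ch` for `k * X c` with `h' * Y i c`; `(h' * Y i c)⁻¹ * Y j d = g'`. `chm_inj` (rewrite `β j d = β i c`): `j = i` and `(k * X c)⁻¹ * X d ∈ PB (B i)`, which maps `c` to `d` (`rep`). `m_wali`: the same with `chm_wali`.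
`m_orbs`, `m_wals`: `chm` for `Ψ` (`emp3_symm`), `i'`, `x' = X' c'`: `i`, `x`, `t` with `Ch Ψ (B' i') (B i) x' x t`, `chm_symm`: `Ch Φ (B i) (B' i') x x' t'`. Let `c = rm ρ c0 x`, `k = X c * x⁻¹ ∈ stb ρ c0`; `chm_equ`: `Ch` for `X c` with `φ k * x'`, `t'`. `chm_wal` with `g = 1` (for `v = t v'`; or `chm_mul`), compared with `H.ch i c`: `β i c = i'`, `τ i c v = t' v = v'`,
`(φ k * x')⁻¹ * Y i c ∈ PB' (B' i' ∩ st v')`; `rm ρ' c' (...) = F i c` since `rm ρ' c0' x' = c'`. (`NB Γ B i` from `chm`.)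
-/

set_option autoImplicit false

namespace RaagBL

open RaagIso RaagGP

variable {V W V' W' C C' : Type} {Γ : SimpleGraph V} {Λ : SimpleGraph W} {π : W → V}
  {Γ' : SimpleGraph V'} {Λ' : SimpleGraph W'} {π' : W' → V'} {m m' : ℕ} {B : Fin m → Set V}
  {B' : Fin m' → Set V'} {Φ : RA Λ × V → RA Λ' × V'} {Ψ : RA Λ' × V' → RA Λ × V}
  {ρ : RA Λ →* Equiv.Perm C} {ρ' : RA Λ' →* Equiv.Perm C'} {c0 : C} {c0' : C'}
  {φ : stb ρ c0 ≃* stb ρ' c0'} {X : C → RA Λ} {X' : C' → RA Λ'} {β : Fin m → C → Fin m'}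
  {Y : Fin m → C → RA Λ'} {τ : Fin m → C → V → V'} {ε : V → C → ℤˣ}

private theorem m02_rm {X1 D1 : Type} {Λ1 : SimpleGraph X1} {r : RA Λ1 →* Equiv.Perm D1} {e : D1}
    {h : RA Λ1} (hh : h ∈ stb r e) (y z : RA Λ1) :
    rm r (rm r e y) ((h * y)⁻¹ * z) = rm r e z := by
  have h1 : y * ((h * y)⁻¹ * z) = h⁻¹ * z := by group
  have h2 : rm r e h⁻¹ = e := inv_mem hh
  rw [← rm_mul, h1, rm_mul, h2]

private theorem m02_stb {X1 D1 : Type} {Λ1 : SimpleGraph X1} {r : RA Λ1 →* Equiv.Perm D1} {e : D1}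
    {y z g : RA Λ1} (hg : rm r (rm r e y) g = rm r e z) : z * g⁻¹ * y⁻¹ ∈ stb r e := by
  show rm r e (z * g⁻¹ * y⁻¹) = e
  rw [rm_mul, rm_mul, ← hg, rm_inv_r, rm_inv_r]

private theorem m02_sur [Finite V] [Finite V']
    (H : Cho Γ Γ' π π' B B' ρ ρ' c0 c0' φ Φ Ψ X X' β Y τ ε)
    {i' : Fin m'} (hi' : NB Γ' B' i') (c' : C') :
    ∃ (i : Fin m) (c : C) (k : stb ρ c0) (t : V' → V) (t' : V → V'), NB Γ B i ∧
      Set.BijOn t (B' i') (B i) ∧ (∀ v' ∈ B' i', t' (t v') = v') ∧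
      Ch Γ Γ' π' Φ (B i) (B' i') (X c) (φ k * X' c') t' := by
  obtain ⟨i, x, t, hi, -, hc⟩ := chm H.ctx' H.ctx (emp3_symm H.ind.emp) hi' (X' c')
  obtain ⟨t', hc', h1, -⟩ := chm_symm (emp3_symm H.ind.emp) hi' hc
  have hk : X (rm ρ c0 x) * x⁻¹ ∈ stb ρ c0 := by
    show rm ρ c0 (X (rm ρ c0 x) * x⁻¹) = c0
    rw [rm_mul, H.rep, rm_inv_r]
  refine ⟨i, rm ρ c0 x, ⟨_, hk⟩, t, t', hi, hc.bij, h1, ?_⟩
  have h2 := chm_equ H.ind hi hc' ⟨_, hk⟩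
  have h3 : ((⟨_, hk⟩ : stb ρ c0) : RA Λ) * x = X (rm ρ c0 x) := by
    show X (rm ρ c0 x) * x⁻¹ * x = X (rm ρ c0 x)
    rw [inv_mul_cancel_right]
  rw [h3] at h2
  exact h2

private theorem m02_ob {X1 D1 V1 : Type} {Λ1 : SimpleGraph X1} {r : RA Λ1 →* Equiv.Perm D1} {e : D1}
    {π1 : X1 → V1} {D : Set V1} {h y z : RA Λ1} (hh : h ∈ stb r e)
    (hm : (h * y)⁻¹ * z ∈ PB Λ1 π1 D) : Ob π1 r D (rm r e y) (rm r e z) :=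
  ⟨_, hm, m02_rm hh y z⟩

theorem m_orb [Finite V] [Finite V'] (H : Cho Γ Γ' π π' B B' ρ ρ' c0 c0' φ Φ Ψ X X' β Y τ ε)
    {i : Fin m} (hi : NB Γ B i) {c d : C} (h : Ob π ρ (B i) c d) :
    β i d = β i c ∧ Ob π' ρ' (B' (β i c)) (rm ρ' c0' (Y i c)) (rm ρ' c0' (Y i d)) := by
  obtain ⟨g, hg, hd⟩ := h
  obtain ⟨k, -, h2, h3⟩ := m_step H hi hg hd
  exact ⟨h2, m02_ob (φ k).2 h3⟩

theorem m_orbi [Finite V] [Finite V'] (H : Cho Γ Γ' π π' B B' ρ ρ' c0 c0' φ Φ Ψ X X' β Y τ ε)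
    {i j : Fin m} (hi : NB Γ B i) (hj : NB Γ B j) {c d : C} (hb : β i c = β j d)
    (h : Ob π' ρ' (B' (β i c)) (rm ρ' c0' (Y i c)) (rm ρ' c0' (Y j d))) :
    i = j ∧ Ob π ρ (B i) c d := by
  obtain ⟨g', hg', hd'⟩ := h
  have hs := m02_stb hd'
  have hx := chm_equ H.ind hi (H.ch i c hi) (φ.symm ⟨_, hs⟩)
  rw [MulEquiv.apply_symm_apply] at hx
  have hy := H.ch j d hj
  rw [← hb] at hy
  have hxy : (((⟨_, hs⟩ : stb ρ' c0') : RA Λ') * Y i c)⁻¹ * Y j d ∈ PB Λ' π' (B' (β i c)) := by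
    have h1 : (((⟨_, hs⟩ : stb ρ' c0') : RA Λ') * Y i c)⁻¹ * Y j d = g' := by
      show (Y j d * g'⁻¹ * (Y i c)⁻¹ * Y i c)⁻¹ * Y j d = g'
      group
    rw [h1]
    exact hg'
  obtain ⟨h2, h3⟩ := chm_inj H.ctx H.ctx' H.ind.emp hi hj (H.nb i c hi) hx hy hxy
  refine ⟨h2.symm, ?_⟩
  have h4 := m02_ob (φ.symm ⟨_, hs⟩).2 h3
  rw [H.rep, H.rep] at h4
  exact h4

theorem m_orbs [Finite V] [Finite V'] (H : Cho Γ Γ' π π' B B' ρ ρ' c0 c0' φ Φ Ψ X X' β Y τ ε)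
    {i' : Fin m'} (hi' : NB Γ' B' i') (c' : C') :
    ∃ i c, NB Γ B i ∧ β i c = i' ∧ Ob π' ρ' (B' i') (rm ρ' c0' (Y i c)) c' := by
  obtain ⟨i, c, k, t, t', hi, -, -, hc⟩ := m02_sur H hi' c'
  have hy := H.ch i c hi
  rw [← mul_one (X c)] at hy
  obtain ⟨h1, h2⟩ := chm_mul H.ctx H.ctx' H.ind.emp hi (one_mem (PB Λ π (B i))) hc hy
  refine ⟨i, c, hi, h1, ob_symm ?_⟩
  have h4 := m02_ob (φ k).2 h2
  rw [H.rep'] at h4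
  exact h4

theorem m_wal [Finite V] [Finite V'] (H : Cho Γ Γ' π π' B B' ρ ρ' c0 c0' φ Φ Ψ X X' β Y τ ε)
    {i : Fin m} (hi : NB Γ B i) {v : V} (hv : v ∈ B i) {c d : C}
    (h : Ob π ρ (B i ∩ st Γ v) c d) : τ i d v = τ i c v ∧
      Ob π' ρ' (B' (β i c) ∩ st Γ' (τ i c v)) (rm ρ' c0' (Y i c)) (rm ρ' c0' (Y i d)) := by
  obtain ⟨g, hg, hd⟩ := h
  obtain ⟨k, -, -, h2, h3⟩ := m_wstep H hi hv hg hd
  exact ⟨h2, m02_ob (φ k).2 h3⟩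

theorem m_wali [Finite V] [Finite V'] (H : Cho Γ Γ' π π' B B' ρ ρ' c0 c0' φ Φ Ψ X X' β Y τ ε)
    {i : Fin m} (hi : NB Γ B i) {v w : V} (hv : v ∈ B i) (hw : w ∈ B i) {c d : C}
    (hcd : Ob π ρ (B i) c d) (ht : τ i c v = τ i d w)
    (h : Ob π' ρ' (B' (β i c) ∩ st Γ' (τ i c v)) (rm ρ' c0' (Y i c)) (rm ρ' c0' (Y i d))) :
    v = w ∧ Ob π ρ (B i ∩ st Γ v) c d := by
  have hb := (m_orb H hi hcd).1
  obtain ⟨g', hg', hd'⟩ := h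
  have hs := m02_stb hd'
  have hx := chm_equ H.ind hi (H.ch i c hi) (φ.symm ⟨_, hs⟩)
  rw [MulEquiv.apply_symm_apply] at hx
  have hy := H.ch i d hi
  rw [hb] at hy
  have hxy : (((⟨_, hs⟩ : stb ρ' c0') : RA Λ') * Y i c)⁻¹ * Y i d ∈
      PB Λ' π' (B' (β i c) ∩ st Γ' (τ i c v)) := by
    have h1 : (((⟨_, hs⟩ : stb ρ' c0') : RA Λ') * Y i c)⁻¹ * Y i d = g' := by
      show (Y i d * g'⁻¹ * (Y i c)⁻¹ * Y i c)⁻¹ * Y i d = g'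
      group
    rw [h1]
    exact hg'
  obtain ⟨-, h2, h3⟩ := chm_wali H.ctx H.ctx' H.ind.emp hi hi (H.nb i c hi) hx hy hv hw ht hxy
  refine ⟨h2, ?_⟩
  have h4 := m02_ob (φ.symm ⟨_, hs⟩).2 h3
  rw [H.rep, H.rep] at h4
  exact h4

theorem m_wals [Finite V] [Finite V'] (H : Cho Γ Γ' π π' B B' ρ ρ' c0 c0' φ Φ Ψ X X' β Y τ ε)
    {i' : Fin m'} (hi' : NB Γ' B' i') (c' : C') {v' : V'} (hv' : v' ∈ B' i') :
    ∃ i c v, NB Γ B i ∧ v ∈ B i ∧ β i c = i' ∧ τ i c v = v' ∧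
      Ob π' ρ' (B' i' ∩ st Γ' v') (rm ρ' c0' (Y i c)) c' := by
  obtain ⟨i, c, k, t, t', hi, hb, ht, hc⟩ := m02_sur H hi' c'
  have hy := H.ch i c hi
  rw [← mul_one (X c)] at hy
  have hv : t v' ∈ B i := hb.mapsTo hv'
  obtain ⟨h1, h2, h3⟩ := chm_wal H.ctx H.ctx' H.ind.emp hi hv
    (one_mem (PB Λ π (B i ∩ st Γ (t v')))) hc hy
  rw [ht v' hv'] at h2 h3
  refine ⟨i, c, t v', hi, hv, h1, h2, ob_symm ?_⟩
  have h4 := m02_ob (φ k).2 h3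
  rw [H.rep'] at h4
  exact h4

end RaagBL
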