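import Pool.Agent.Lib.MP_32d917_al_bl.M01

/-!
# M03: the isomorphisms of the stabilisers of blocks of an isomorphism (75 min)

`cPhi φ (X c) (Y i c) l = (Y i c)⁻¹ * φ (X c * l * (X c)⁻¹) * Y i c` for `X c * l * (X c)⁻¹ ∈ stb ρ c0`. `F i c = rm ρ' c0' (Y i c)`. For `l ∈ SK (B i) c`: `X c * l * (X c)⁻¹ ∈ stb ρ c0` (`rep`).
`m_map`: fixes `F i c`; `chm_sk` for `k = X c * l * (X c)⁻¹`. `m_mul`, `m_inj`: clear. `m_surj`: `h' = Y i c * g' * (Y i c)⁻¹ ∈ stb ρ' c0'`, `k = φ.symm h'`, `chm_sk'`; `l = (X c)⁻¹ * k * X c`.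
`m_con`: `m_step` for `g`: `X d = k * X c * g`, `g' = (φ k * Y i c)⁻¹ * Y i d`. `X c * (g * l * g⁻¹) * (X c)⁻¹ = k⁻¹ * (X d * l * (X d)⁻¹) * k`; so `cPhi .. (g * l * g⁻¹) = (Y i c)⁻¹ * (φ k)⁻¹ * φ (X d * l * (X d)⁻¹) * φ k * Y i c = g' * cPhi .. l * g'⁻¹`.
`m_sgn`: `H.eps` for `k = X c * gen a ^ pr ρ a c * (X c)⁻¹`; `π' a' = τ i c v = (Φ (X c, v)).2` (`Ch.ee`), `u = (Φ (X c, v)).1⁻¹ * Y i c ∈ PB' (st (τ i c v))` commutes with `gen a'` (`τ i c v` is cut: `cut_phi` or `cut_iff`, single letter, `cen_sng`), and `pr ρ' a' (rm ρ' c0' (Y i c)) = pr ρ' a' (rm ρ' c0' (Φ (X c, v)).1)` (`pr_comm`).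
-/

set_option autoImplicit false

namespace RaagBL

open RaagIso RaagGP

variable {V W V' W' C C' : Type} {Γ : SimpleGraph V} {Λ : SimpleGraph W} {π : W → V}
  {Γ' : SimpleGraph V'} {Λ' : SimpleGraph W'} {π' : W' → V'} {m m' : ℕ} {B : Fin m → Set V}
  {B' : Fin m' → Set V'} {Φ : RA Λ × V → RA Λ' × V'} {Ψ : RA Λ' × V' → RA Λ × V}
  {ρ : RA Λ →* Equiv.Perm C} {ρ' : RA Λ' →* Equiv.Perm C'} {c0 : C} {c0' : C'}

/-- the isomorphism seen from the elements `x`, `y` -/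
noncomputable def cPhi (φ : stb ρ c0 ≃* stb ρ' c0') (x : RA Λ) (y : RA Λ') (l : RA Λ) : RA Λ' :=
  open Classical in
  y⁻¹ * (if h : x * l * x⁻¹ ∈ stb ρ c0 then ((φ ⟨x * l * x⁻¹, h⟩ : stb ρ' c0') : RA Λ') else 1) * y

variable {φ : stb ρ c0 ≃* stb ρ' c0'} {X : C → RA Λ} {X' : C' → RA Λ'} {β : Fin m → C → Fin m'}
  {Y : Fin m → C → RA Λ'} {τ : Fin m → C → V → V'} {ε : V → C → ℤˣ}

private theorem m03_val {x : RA Λ} {y : RA Λ'} {l : RA Λ} (hk : x * l * x⁻¹ ∈ stb ρ c0) :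
    cPhi φ x y l = y⁻¹ * ((φ ⟨_, hk⟩ : stb ρ' c0') : RA Λ') * y := by
  unfold cPhi
  rw [dif_pos hk]

private theorem m03_stb {X1 D1 : Type} {Λ1 : SimpleGraph X1} {r : RA Λ1 →* Equiv.Perm D1} {e : D1}
    {y g : RA Λ1} (hg : rm r (rm r e y) g = rm r e y) : y * g * y⁻¹ ∈ stb r e := by
  show rm r e (y * g * y⁻¹) = e
  rw [rm_mul, rm_mul, hg, rm_inv_r]

private theorem m03_fix {X1 D1 : Type} {Λ1 : SimpleGraph X1} {r : RA Λ1 →* Equiv.Perm D1} {e : D1}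
    {h : RA Λ1} (hh : h ∈ stb r e) (y : RA Λ1) :
    rm r (rm r e y) (y⁻¹ * h * y) = rm r e y := by
  have h1 : y * (y⁻¹ * h * y) = h * y := by group
  have h2 : rm r e h = e := hh
  rw [← rm_mul, h1, rm_mul, h2]

private theorem m03_rm {X1 D1 : Type} {Λ1 : SimpleGraph X1} {r : RA Λ1 →* Equiv.Perm D1} {e : D1}
    {h : RA Λ1} (hh : h ∈ stb r e) (y z : RA Λ1) :
    rm r (rm r e y) ((h * y)⁻¹ * z) = rm r e z := by
  have h1 : y * ((h * y)⁻¹ * z) = h⁻¹ * z := by group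
  have h2 : rm r e h⁻¹ = e := inv_mem hh
  rw [← rm_mul, h1, rm_mul, h2]

private theorem m03_in (H : Cho Γ Γ' π π' B B' ρ ρ' c0 c0' φ Φ Ψ X X' β Y τ ε)
    {D : Set V} {c : C} {g : RA Λ} (hg : g ∈ SK π ρ D c) : X c * g * (X c)⁻¹ ∈ stb ρ c0 := by
  apply m03_stb
  rw [H.rep]
  exact hg.1

theorem m_map [Finite V] [Finite V'] (H : Cho Γ Γ' π π' B B' ρ ρ' c0 c0' φ Φ Ψ X X' β Y τ ε)
    {i : Fin m} (hi : NB Γ B i) {c : C} {g : RA Λ} (hg : g ∈ SK π ρ (B i) c) :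
    cPhi φ (X c) (Y i c) g ∈ SK π' ρ' (B' (β i c)) (rm ρ' c0' (Y i c)) := by
  have hk := m03_in H hg
  rw [m03_val hk]
  refine ⟨m03_fix (φ ⟨_, hk⟩).2 _, chm_sk H.ctx H.ctx' H.ind hi (H.ch i c hi) ⟨_, hk⟩ ?_⟩
  have h1 : (X c)⁻¹ * ((⟨_, hk⟩ : stb ρ c0) : RA Λ) * X c = g := by
    show (X c)⁻¹ * (X c * g * (X c)⁻¹) * X c = g
    group
  rw [h1]
  exact hg.2

theorem m_mul (H : Cho Γ Γ' π π' B B' ρ ρ' c0 c0' φ Φ Ψ X X' β Y τ ε)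
    {i : Fin m} {c : C} {g h : RA Λ} (hg : g ∈ SK π ρ (B i) c) (hh : h ∈ SK π ρ (B i) c) :
    cPhi φ (X c) (Y i c) (g * h) = cPhi φ (X c) (Y i c) g * cPhi φ (X c) (Y i c) h := by
  have h1 := m03_in H hg
  have h2 := m03_in H hh
  have h3 := m03_in H (mul_mem hg hh)
  rw [m03_val h1, m03_val h2, m03_val h3]
  have h4 : (⟨_, h3⟩ : stb ρ c0) = ⟨_, h1⟩ * ⟨_, h2⟩ := by
    apply Subtype.ext
    show X c * (g * h) * (X c)⁻¹ = X c * g * (X c)⁻¹ * (X c * h * (X c)⁻¹)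
    group
  rw [h4, map_mul, Subgroup.coe_mul]
  group

theorem m_inj (H : Cho Γ Γ' π π' B B' ρ ρ' c0 c0' φ Φ Ψ X X' β Y τ ε)
    {i : Fin m} {c : C} {g h : RA Λ} (hg : g ∈ SK π ρ (B i) c) (hh : h ∈ SK π ρ (B i) c)
    (he : cPhi φ (X c) (Y i c) g = cPhi φ (X c) (Y i c) h) : g = h := by
  have h1 := m03_in H hg
  have h2 := m03_in H hh
  rw [m03_val h1, m03_val h2] at he
  have h3 := mul_left_cancel (mul_right_cancel he)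
  have h4 := congrArg Subtype.val (φ.injective (Subtype.ext h3))
  exact mul_left_cancel (mul_right_cancel h4)

theorem m_surj [Finite V] [Finite V'] (H : Cho Γ Γ' π π' B B' ρ ρ' c0 c0' φ Φ Ψ X X' β Y τ ε)
    {i : Fin m} (hi : NB Γ B i) {c : C} {g' : RA Λ'}
    (hg : g' ∈ SK π' ρ' (B' (β i c)) (rm ρ' c0' (Y i c))) :
    ∃ g ∈ SK π ρ (B i) c, cPhi φ (X c) (Y i c) g = g' := by
  have hs : Y i c * g' * (Y i c)⁻¹ ∈ stb ρ' c0' := m03_stb hg.1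
  have hmem : (X c)⁻¹ * ((φ.symm ⟨_, hs⟩ : stb ρ c0) : RA Λ) * X c ∈ SK π ρ (B i) c := by
    constructor
    · have h1 := m03_fix (φ.symm ⟨_, hs⟩).2 (X c)
      rw [H.rep] at h1
      exact h1
    · refine chm_sk' H.ctx H.ctx' H.ind hi (H.nb i c hi) (H.ch i c hi) _ ?_
      rw [MulEquiv.apply_symm_apply]
      have h1 : (Y i c)⁻¹ * ((⟨_, hs⟩ : stb ρ' c0') : RA Λ') * Y i c = g' := by
        show (Y i c)⁻¹ * (Y i c * g' * (Y i c)⁻¹) * Y i c = g'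
        group
      rw [h1]
      exact hg.2
  refine ⟨_, hmem, ?_⟩
  have hk := m03_in H hmem
  rw [m03_val hk]
  have h4 : (⟨_, hk⟩ : stb ρ c0) = φ.symm ⟨_, hs⟩ := by
    apply Subtype.ext
    show X c * ((X c)⁻¹ * ((φ.symm ⟨_, hs⟩ : stb ρ c0) : RA Λ) * X c) * (X c)⁻¹ = _
    group
  rw [h4, MulEquiv.apply_symm_apply]
  show (Y i c)⁻¹ * (Y i c * g' * (Y i c)⁻¹) * Y i c = g'
  group

theorem m_con [Finite V] [Finite V'] (H : Cho Γ Γ' π π' B B' ρ ρ' c0 c0' φ Φ Ψ X X' β Y τ ε)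
    {i : Fin m} (hi : NB Γ B i) {c d : C} {g : RA Λ} (hg : g ∈ PB Λ π (B i))
    (hd : rm ρ c g = d) : ∃ g' ∈ PB Λ' π' (B' (β i c)),
      rm ρ' (rm ρ' c0' (Y i c)) g' = rm ρ' c0' (Y i d) ∧ ∀ l ∈ SK π ρ (B i) d,
        cPhi φ (X c) (Y i c) (g * l * g⁻¹) = g' * cPhi φ (X d) (Y i d) l * g'⁻¹ := by
  obtain ⟨k, hX, -, hm⟩ := m_step H hi hg hd
  refine ⟨_, hm, m03_rm (φ k).2 _ _, fun l hl => ?_⟩
  have h1 := m03_in H hl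
  have h2 := m03_in H (sk_conj hg hd hl)
  rw [m03_val h1, m03_val h2]
  have h4 : (⟨_, h2⟩ : stb ρ c0) = k⁻¹ * ⟨_, h1⟩ * k := by
    apply Subtype.ext
    show X c * (g * l * g⁻¹) * (X c)⁻¹ = (k : RA Λ)⁻¹ * (X d * l * (X d)⁻¹) * (k : RA Λ)
    rw [hX]
    group
  rw [h4, map_mul, map_mul, map_inv, Subgroup.coe_mul, Subgroup.coe_mul, Subgroup.coe_inv]
  group

theorem m_sgn [Finite V] [Finite V'] [Finite C] [Finite C']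
    (H : Cho Γ Γ' π π' B B' ρ ρ' c0 c0' φ Φ Ψ X X' β Y τ ε)
    {i : Fin m} (hi : NB Γ B i) {c : C} {v : V} (hv : v ∈ B i) (hc : Cut B v) {a : W} {a' : W'}
    (ha : π a = v) (ha' : π' a' = τ i c v) :
    cPhi φ (X c) (Y i c) (gen a ^ pr ρ a c) =
      gen a' ^ (((ε v c : ℤˣ) : ℤ) * pr ρ' a' (rm ρ' c0' (Y i c))) := by
  have he := (H.ch i c hi).ee v hv
  obtain ⟨he1, he2⟩ := he
  have he1' : (Φ (X c, v)).2 = τ i c v := he1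
  have he2' : (Φ (X c, v)).1⁻¹ * Y i c ∈ PB Λ' π' (st Γ' (Φ (X c, v)).2) := he2
  have hmem : rm ρ (rm ρ c0 (X c)) (gen a ^ pr ρ a c) = rm ρ c0 (X c) := by
    rw [H.rep]
    exact pr_mem a c
  have hk := m03_stb hmem
  rw [m03_val hk, H.eps v c hc a a' ha (by rw [he1', ha']) ⟨_, hk⟩ rfl]
  have hcut : Cut B' (Φ (X c, v)).2 := (cut_phi H.ctx H.ctx' H.ind.emp (cut_nl H.ctx.glu hc)).1 hc
  have hcom := cen_sng H.ctx'.bu (v := (Φ (X c, v)).2) (a := a') (by rw [he1', ha'])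
    (fun b hb => H.ctx'.sng _ (Or.inl hcut) b a' hb (by rw [he1', ha'])) he2'
  have hpr := pr_comm (ρ := ρ') hcom (rm ρ' c0' (Φ (X c, v)).1)
  have h5 : rm ρ' (rm ρ' c0' (Φ (X c, v)).1) ((Φ (X c, v)).1⁻¹ * Y i c) = rm ρ' c0' (Y i c) := by
    rw [← rm_mul, mul_inv_cancel_left]
  rw [h5] at hpr
  rw [hpr]
  generalize ((ε v c : ℤˣ) : ℤ) * (pr ρ' a' (rm ρ' c0' (Φ (X c, v)).1) : ℤ) = n
  have h6 : Commute ((Φ (X c, v)).1⁻¹ * Y i c) (gen a' ^ n) := Commute.zpow_right hcom n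
  have h7 : (Y i c)⁻¹ * ((Φ (X c, v)).1 * gen a' ^ n * (Φ (X c, v)).1⁻¹) * Y i c =
      ((Φ (X c, v)).1⁻¹ * Y i c)⁻¹ * (gen a' ^ n * ((Φ (X c, v)).1⁻¹ * Y i c)) := by group
  rw [h7, ← h6.eq, inv_mul_cancel_left]

end RaagBL
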