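import Pool.Agent.Lib.MP_32d917_al_bl.M01

/-!
# M04: cut vertices of an isomorphism (75 min)

`σ v c = ((Φ (X c, v)).2, rm ρ' c0' (Φ (X c, v)).1)`; `v` is a cut vertex, so in `NL` (`cut_nl`).
`m_pst`: let `rm ρ c g = d`, `g ∈ PB (st v)`: `k = X d * g⁻¹ * (X c)⁻¹ ∈ stb ρ c0`; `(X d, v) = (k * X c * g, v)` is equivalent to `(k * X c, v)` (`ee_right`), so `Φ (X d, v)` is equivalent to `(φ k * (Φ (X c, v)).1, (Φ (X c, v)).2)` (`ee`, `equ`). So the second components are equal, `u = (φ k * (Φ (X c, v)).1)⁻¹ * (Φ (X d, v)).1 ∈ PB' (st ..)`.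
`m_port`: `u` maps `(σ v c).2` to `(σ v d).2`.
`m_pori`: `rm ρ' (σ v c).2 u = (σ w d).2`, `u ∈ PB' (st (σ v c).1)`: `h' = (Φ (X d, w)).1 * u⁻¹ * (Φ (X c, v)).1⁻¹ ∈ stb ρ' c0'`, `k = φ.symm h'`. `Φ (X d, w)` is equivalent to `(h' * (Φ (X c, v)).1, (Φ (X c, v)).2)`, so to `Φ (k * X c, v)` (`equ`), so (`ee'`, `left`) `(X d, w)`, `(k * X c, v)` are equivalent: `v = w` and `(k * X c)⁻¹ * X d ∈ PB (st v)` maps `c` to `d`.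
`m_pors`: `(x, v) = Ψ (X' c', v')`, `v` is cut (`cut_phi` for `Ψ`, `emp3_symm`), `Φ (x, v)` is equivalent to `(X' c', v')` (`right`). `c = rm ρ c0 x`, `k = X c * x⁻¹`: `Φ (X c, v) = Φ (k * x, v)` is equivalent to `(φ k * X' c', v')`; so `(σ v c).1 = v'` and `Ob (st v') (σ v c).2 c'`.
`m_pcom`: `Ch.ee` for `v ∈ B i`: `Ee (Φ (X c, v)) (Y i c, τ i c v)`. `m_pcut`: `cut_phi`.
`m_peps`: with `k`, `u` as in `m_pst`, `a` the letter over `v`, `a'` over `(σ v c).1` (single letters): `pr ρ a d = pr ρ a c` (`pr_comm`, `cen_sng`), `pr ρ' a' (σ v d).2 = pr ρ' a' (σ v c).2`. `z c = X c * gen a ^ p * (X c)⁻¹`, `z d = k * z c * k⁻¹` (`g` commutes with `gen a`). `φ (z d) = φ k * φ (z c) * (φ k)⁻¹`; by `H.eps` for `c`, `d`, and `(Φ (X d, v)).1 = φ k * (Φ (X c, v)).1 * u`, `u` commutes with `gen a'`: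
`gen a' ^ (ε v d * p') = gen a' ^ (ε v c * p')`, `p' > 0`, `gen_zpow_inj`.
-/

set_option autoImplicit false

namespace RaagBL

open RaagIso RaagGP

variable {V W V' W' C C' : Type} {Γ : SimpleGraph V} {Λ : SimpleGraph W} {π : W → V}
  {Γ' : SimpleGraph V'} {Λ' : SimpleGraph W'} {π' : W' → V'} {m m' : ℕ} {B : Fin m → Set V}
  {B' : Fin m' → Set V'} {Φ : RA Λ × V → RA Λ' × V'} {Ψ : RA Λ' × V' → RA Λ × V}
  {ρ : RA Λ →* Equiv.Perm C} {ρ' : RA Λ' →* Equiv.Perm C'} {c0 : C} {c0' : C'}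
  {φ : stb ρ c0 ≃* stb ρ' c0'} {X : C → RA Λ} {X' : C' → RA Λ'} {β : Fin m → C → Fin m'}
  {Y : Fin m → C → RA Λ'} {τ : Fin m → C → V → V'} {ε : V → C → ℤˣ}

private theorem m04_stb {X1 D1 : Type} {Λ1 : SimpleGraph X1} {r : RA Λ1 →* Equiv.Perm D1} {e : D1}
    {y z g : RA Λ1} (hg : rm r (rm r e y) g = rm r e z) : z * g⁻¹ * y⁻¹ ∈ stb r e := by
  show rm r e (z * g⁻¹ * y⁻¹) = e
  rw [rm_mul, rm_mul, ← hg, rm_inv_r, rm_inv_r]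

private theorem m04_rm {X1 D1 : Type} {Λ1 : SimpleGraph X1} {r : RA Λ1 →* Equiv.Perm D1} {e : D1}
    {h : RA Λ1} (hh : h ∈ stb r e) (y z : RA Λ1) :
    rm r (rm r e y) ((h * y)⁻¹ * z) = rm r e z := by
  have h1 : y * ((h * y)⁻¹ * z) = h⁻¹ * z := by group
  have h2 : rm r e h⁻¹ = e := inv_mem hh
  rw [← rm_mul, h1, rm_mul, h2]

private theorem m04_ob {X1 D1 V1 : Type} {Λ1 : SimpleGraph X1} {r : RA Λ1 →* Equiv.Perm D1} {e : D1}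
    {π1 : X1 → V1} {D : Set V1} {h y z : RA Λ1} (hh : h ∈ stb r e)
    (hm : (h * y)⁻¹ * z ∈ PB Λ1 π1 D) : Ob π1 r D (rm r e y) (rm r e z) :=
  ⟨_, hm, m04_rm hh y z⟩

theorem m_pst [Finite V] [Finite V'] (H : Cho Γ Γ' π π' B B' ρ ρ' c0 c0' φ Φ Ψ X X' β Y τ ε)
    {v : V} (hv : Cut B v) {c d : C} {g : RA Λ} (hg : g ∈ PB Λ π (st Γ v))
    (hd : rm ρ c g = d) : ∃ k : stb ρ c0, X d = k * X c * g ∧ (Φ (X d, v)).2 = (Φ (X c, v)).2 ∧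
      (φ k * (Φ (X c, v)).1)⁻¹ * (Φ (X d, v)).1 ∈ PB Λ' π' (st Γ' (Φ (X c, v)).2) := by
  have hNL := cut_nl H.ctx.glu hv
  have hk : X d * g⁻¹ * (X c)⁻¹ ∈ stb ρ c0 := m04_stb (by rw [H.rep, H.rep, hd])
  have hX : X d = ((⟨_, hk⟩ : stb ρ c0) : RA Λ) * X c * g := by
    show X d = X d * g⁻¹ * (X c)⁻¹ * X c * g
    group
  have h1 : Ee Γ π (((⟨_, hk⟩ : stb ρ c0) : RA Λ) * X c, v) (X d, v) := by
    have h2 := ee_symm (ee_right (π := π) (((⟨_, hk⟩ : stb ρ c0) : RA Λ) * X c) v hg)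
    rw [← hX] at h2
    exact h2
  have h2 := ee_trans (ee_symm (H.ind.equ ⟨_, hk⟩ (X c, v) hNL)) (H.ind.emp.ee _ _ hNL hNL h1)
  exact ⟨⟨_, hk⟩, hX, h2.1.symm, h2.2⟩

theorem m_port [Finite V] [Finite V'] (H : Cho Γ Γ' π π' B B' ρ ρ' c0 c0' φ Φ Ψ X X' β Y τ ε)
    {v : V} (hv : Cut B v) {c d : C} (h : Ob π ρ (st Γ v) c d) :
    (Φ (X d, v)).2 = (Φ (X c, v)).2 ∧ Ob π' ρ' (st Γ' (Φ (X c, v)).2)
      (rm ρ' c0' (Φ (X c, v)).1) (rm ρ' c0' (Φ (X d, v)).1) := by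
  obtain ⟨g, hg, hd⟩ := h
  obtain ⟨k, -, h2, h3⟩ := m_pst H hv hg hd
  exact ⟨h2, m04_ob (φ k).2 h3⟩

theorem m_pori [Finite V] [Finite V'] (H : Cho Γ Γ' π π' B B' ρ ρ' c0 c0' φ Φ Ψ X X' β Y τ ε)
    {v w : V} (hv : Cut B v) (hw : Cut B w) {c d : C} (h : (Φ (X c, v)).2 = (Φ (X d, w)).2)
    (ho : Ob π' ρ' (st Γ' (Φ (X c, v)).2) (rm ρ' c0' (Φ (X c, v)).1)
      (rm ρ' c0' (Φ (X d, w)).1)) : v = w ∧ Ob π ρ (st Γ v) c d := by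
  obtain ⟨u, hu, hd'⟩ := ho
  have hvN := cut_nl H.ctx.glu hv
  have hwN := cut_nl H.ctx.glu hw
  have hs := m04_stb hd'
  have h1 := H.ind.equ (φ.symm ⟨_, hs⟩) (X c, v) hvN
  rw [MulEquiv.apply_symm_apply] at h1
  have h2 : Ee Γ' π' (((⟨_, hs⟩ : stb ρ' c0') : RA Λ') * (Φ (X c, v)).1, (Φ (X c, v)).2)
      (Φ (X d, w)) := by
    refine ⟨h, ?_⟩
    have h3 : (((⟨_, hs⟩ : stb ρ' c0') : RA Λ') * (Φ (X c, v)).1)⁻¹ * (Φ (X d, w)).1 = u := by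
      show ((Φ (X d, w)).1 * u⁻¹ * (Φ (X c, v)).1⁻¹ * (Φ (X c, v)).1)⁻¹ * (Φ (X d, w)).1 = u
      group
    show (((⟨_, hs⟩ : stb ρ' c0') : RA Λ') * (Φ (X c, v)).1)⁻¹ * (Φ (X d, w)).1 ∈
      PB Λ' π' (st Γ' (Φ (X c, v)).2)
    rw [h3]
    exact hu
  have h4 := H.ind.emp.ee' _ _ (H.ind.emp.nl _ hvN) (H.ind.emp.nl _ hwN) (ee_trans h1 h2)
  have h5 := ee_trans (ee_symm (H.ind.emp.left _ hvN)) (ee_trans h4 (H.ind.emp.left _ hwN))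
  obtain ⟨h6, h7⟩ := h5
  refine ⟨h6, ?_⟩
  have h8 := m04_ob (r := ρ) (e := c0) (φ.symm ⟨_, hs⟩).2 h7
  rw [H.rep, H.rep] at h8
  exact h8

theorem m_pors [Finite V] [Finite V'] (H : Cho Γ Γ' π π' B B' ρ ρ' c0 c0' φ Φ Ψ X X' β Y τ ε)
    {v' : V'} (hv' : Cut B' v') (c' : C') : ∃ v c, Cut B v ∧ (Φ (X c, v)).2 = v' ∧
      Ob π' ρ' (st Γ' v') (rm ρ' c0' (Φ (X c, v)).1) c' := by
  have hE' := emp3_symm H.ind.emp
  have hvN' := cut_nl H.ctx'.glu hv'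
  obtain ⟨x, v, hxv⟩ : ∃ x v, Ψ (X' c', v') = (x, v) := ⟨_, _, rfl⟩
  have hNL : v ∈ NL Γ := by
    have h1 := H.ind.emp.nl' (X' c', v') hvN'
    rw [hxv] at h1
    exact h1
  have hcut : Cut B v := by
    have h1 := (cut_phi H.ctx' H.ctx hE' (x := X' c') hvN').1 hv'
    rw [hxv] at h1
    exact h1
  have hr : Ee Γ' π' (Φ (x, v)) (X' c', v') := by
    have h1 := H.ind.emp.right (X' c', v') hvN'
    rw [hxv] at h1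
    exact h1
  have hk : X (rm ρ c0 x) * x⁻¹ ∈ stb ρ c0 := by
    show rm ρ c0 (X (rm ρ c0 x) * x⁻¹) = c0
    rw [rm_mul, H.rep, rm_inv_r]
  have h2 : Ee Γ' π' (Φ (((⟨_, hk⟩ : stb ρ c0) : RA Λ) * x, v))
      (((φ ⟨_, hk⟩ : stb ρ' c0') : RA Λ') * (Φ (x, v)).1, (Φ (x, v)).2) :=
    H.ind.equ ⟨_, hk⟩ (x, v) hNL
  have h3 : ((⟨_, hk⟩ : stb ρ c0) : RA Λ) * x = X (rm ρ c0 x) := by
    show X (rm ρ c0 x) * x⁻¹ * x = X (rm ρ c0 x)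
    rw [inv_mul_cancel_right]
  rw [h3] at h2
  have h4 := ee_symm (ee_trans h2 ((ee_mul ((φ ⟨_, hk⟩ : stb ρ' c0') : RA Λ')).2 hr))
  obtain ⟨h5, h6⟩ := h4
  refine ⟨v, rm ρ c0 x, hcut, h5.symm, ob_symm ?_⟩
  have h7 := m04_ob (r := ρ') (e := c0') (φ ⟨_, hk⟩).2 h6
  rw [H.rep'] at h7
  exact h7

theorem m_pcom (H : Cho Γ Γ' π π' B B' ρ ρ' c0 c0' φ Φ Ψ X X' β Y τ ε)
    {i : Fin m} (hi : NB Γ B i) (c : C) {v : V} (hv : v ∈ B i) :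
    (Φ (X c, v)).2 = τ i c v ∧ Ob π' ρ' (st Γ' (τ i c v)) (rm ρ' c0' (Φ (X c, v)).1)
      (rm ρ' c0' (Y i c)) := by
  obtain ⟨h1, h2⟩ := (H.ch i c hi).ee v hv
  have h1' : (Φ (X c, v)).2 = τ i c v := h1
  have h2' : (Φ (X c, v)).1⁻¹ * Y i c ∈ PB Λ' π' (st Γ' (Φ (X c, v)).2) := h2
  refine ⟨h1, (Φ (X c, v)).1⁻¹ * Y i c, by rw [← h1']; exact h2', ?_⟩
  rw [← rm_mul, mul_inv_cancel_left]

theorem m_peps [Finite V] [Finite V'] [Finite C] [Finite C']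
    (H : Cho Γ Γ' π π' B B' ρ ρ' c0 c0' φ Φ Ψ X X' β Y τ ε) {v : V} (hv : Cut B v) {c d : C}
    (h : Ob π ρ (st Γ v) c d) : ε v d = ε v c := by
  have hNL := cut_nl H.ctx.glu hv
  obtain ⟨g, hg, hd⟩ := h
  obtain ⟨k, hX, h2, h3⟩ := m_pst H hv hg hd
  obtain ⟨a, ha, ha1⟩ := cut_fib H.ctx hv
  have hcut' : Cut B' (Φ (X c, v)).2 := (cut_phi H.ctx H.ctx' H.ind.emp hNL).1 hv
  obtain ⟨a', ha', ha1'⟩ := cut_fib H.ctx' hcut'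
  have hcom := cen_sng H.ctx.bu ha ha1 hg
  have hcom' := cen_sng H.ctx'.bu ha' ha1' h3
  have hpr : pr ρ a d = pr ρ a c := by
    rw [← hd]
    exact pr_comm hcom c
  have hpr' := pr_comm (ρ := ρ') hcom' (rm ρ' c0' (Φ (X c, v)).1)
  rw [m04_rm (φ k).2] at hpr'
  have hkc := m04_stb (r := ρ) (e := c0) (y := X c) (z := X c) (g := (gen a ^ pr ρ a c)⁻¹)
    (by
      rw [H.rep]
      have h5 := rm_inv_r (ρ := ρ) c (gen a ^ pr ρ a c)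
      rw [pr_mem] at h5
      exact h5)
  rw [inv_inv] at hkc
  have hkd := m04_stb (r := ρ) (e := c0) (y := X d) (z := X d) (g := (gen a ^ pr ρ a d)⁻¹)
    (by
      rw [H.rep]
      have h5 := rm_inv_r (ρ := ρ) d (gen a ^ pr ρ a d)
      rw [pr_mem] at h5
      exact h5)
  rw [inv_inv] at hkd
  have hz : (⟨_, hkd⟩ : stb ρ c0) = k * ⟨_, hkc⟩ * k⁻¹ := by
    apply Subtype.ext
    show X d * gen a ^ pr ρ a d * (X d)⁻¹ =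
      (k : RA Λ) * (X c * gen a ^ pr ρ a c * (X c)⁻¹) * (k : RA Λ)⁻¹
    have h5 : Commute g (gen a ^ pr ρ a c) := Commute.pow_right hcom _
    rw [hpr, hX]
    calc (k : RA Λ) * X c * g * gen a ^ pr ρ a c * ((k : RA Λ) * X c * g)⁻¹
        = (k : RA Λ) * X c * (g * gen a ^ pr ρ a c) * ((k : RA Λ) * X c * g)⁻¹ := by group
      _ = (k : RA Λ) * X c * (gen a ^ pr ρ a c * g) * ((k : RA Λ) * X c * g)⁻¹ := by rw [h5.eq]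
      _ = _ := by group
  have e1 := H.eps v c hv a a' ha ha' ⟨_, hkc⟩ rfl
  have e2 := H.eps v d hv a a' ha (by rw [h2, ha']) ⟨_, hkd⟩ rfl
  rw [hz, map_mul, map_mul, map_inv, Subgroup.coe_mul, Subgroup.coe_mul, Subgroup.coe_inv, e1,
    hpr'] at e2
  have hpos : 0 < pr ρ' a' (rm ρ' c0' (Φ (X c, v)).1) := pr_pos _ _
  generalize pr ρ' a' (rm ρ' c0' (Φ (X c, v)).1) = q at e2 hpos
  have hD : (Φ (X d, v)).1 = ((φ k : stb ρ' c0') : RA Λ') * (Φ (X c, v)).1 *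
      ((((φ k : stb ρ' c0') : RA Λ') * (Φ (X c, v)).1)⁻¹ * (Φ (X d, v)).1) := by group
  have h6 : Commute ((((φ k : stb ρ' c0') : RA Λ') * (Φ (X c, v)).1)⁻¹ * (Φ (X d, v)).1)
    (gen a' ^ (((ε v d : ℤˣ) : ℤ) * (q : ℤ))) := Commute.zpow_right hcom' _
  generalize (((φ k : stb ρ' c0') : RA Λ') * (Φ (X c, v)).1)⁻¹ * (Φ (X d, v)).1 = u at hD h6
  rw [hD] at e2
  have e3 : (gen a' : RA Λ') ^ (((ε v c : ℤˣ) : ℤ) * (q : ℤ)) =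
      gen a' ^ (((ε v d : ℤˣ) : ℤ) * (q : ℤ)) := by
    have e4 : (gen a' : RA Λ') ^ (((ε v c : ℤˣ) : ℤ) * (q : ℤ)) =
        (((φ k : stb ρ' c0') : RA Λ') * (Φ (X c, v)).1)⁻¹ *
        (((φ k : stb ρ' c0') : RA Λ') * ((Φ (X c, v)).1 *
        gen a' ^ (((ε v c : ℤˣ) : ℤ) * (q : ℤ)) * (Φ (X c, v)).1⁻¹) *
        ((φ k : stb ρ' c0') : RA Λ')⁻¹) *
        (((φ k : stb ρ' c0') : RA Λ') * (Φ (X c, v)).1) := by group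
    rw [e4, e2]
    calc _ = (u * gen a' ^ (((ε v d : ℤˣ) : ℤ) * (q : ℤ))) * u⁻¹ := by group
      _ = _ := by rw [h6.eq, mul_inv_cancel_right]
  have e5 := gen_zpow_inj e3
  have hq : (q : ℤ) ≠ 0 := by exact_mod_cast hpos.ne'
  exact (Units.ext (mul_right_cancel₀ hq e5)).symm

end RaagBL
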