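import Pool.Agent.Lib.MP_32d917_al_bl.PDefs
import Pool.Agent.Lib.MP_32d917_al_bl.O01
import Pool.Agent.Lib.MP_32d917_al_bl.BG3

/-!
# M10: the block system of letters (75 min)

`D i = π ⁻¹' (B i)`, `co i = NB Γ B i`. `per_pr`: both are the least `n > 0` with `rm ρ c (gen a ^ n) = c` (`Function.minimalPeriod_eq_sInf...` or `pr_zpow`, `pr_pos`, `per_mem`, `Nat.sInf_le`). `ct_iff`: `B i ∋ π a` iff `a ∈ D i`.
`st_pre`: for a single letter `a` over `v = π a`: `st Λ a = π ⁻¹' (st Γ v)`: `⊆`: `st_sub`; `⊇`: a letter over `v` is `a`, a letter over a neighbour is adjacent (`adj_lift`). `pp_st`: so `PP Λ (st Λ a) = PB Λ π (st Γ v)`; `pp_wall`: `PP Λ (π ⁻¹' S ∩ st Λ a) = PB Λ π (S ∩ st Γ v)`.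
`bs_ex`: `tp i` = a letter over the vertex of `B i` in an earlier block (`glu`, `surj`), any letter of `D i` if `i` is the least element. `cov`, `adj`: `glu.cov`, `glu.edge`; for adjacent letters over the same vertex `v` take any block containing `v`. `top`: the gluing vertex `v` is in two blocks, its fibre is a point. `one`: `a ∈ D i`, `a ∈ D j`, `j < i`: `π a` is the gluing vertex of `i` (uniqueness), and it is cut, so its
fibre is a point (`cut_fib`).
`lf_of`: `i` with `¬ NB`: `B i` is not rigid (`nb_of_rig`), so it is an edge and contains some `l ∉ NL Γ`; `leaf`: `B j = {l, w}`, `j = i` (uniqueness), `w` cut; letters over `w` and `l` (`cut_fib`, `leaf_fib`): `D i = {letter w, letter l}`, adjacent; `l` is in only one block.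
`cyc_card`: for `c` and a single letter `a` over `v`: the orbit `{d // Ob (st v) c d}` is the disjoint union of the cycles of `a`, each one has `pr ρ a c` elements (`pr_comm`, `cen_sng`): `nPt Γ π ρ v c = Nat.card {d // rep ρ (PP Λ (st Λ a)) d = rep ρ (PP Λ (st Λ a)) c ∧ rep ρ (PP Λ {a}) d = d} * pr ρ a c`. (Map `d ↦ (rep ρ (PP Λ {a}) d, n)` with
`d = rm ρ (rep ..) (gen a ^ n)`, `n < pr`: a bijection onto `cycles × Fin (pr ρ a c)`. `PP Λ {a}` = powers of `gen a`.) `rep_iff`: `rep ρ S c = rep ρ S d ↔ ∃ x ∈ S, rm ρ c x = d` (`rep_eq`, `rep_orb`).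
-/

set_option autoImplicit false

namespace RaagBL

open RaagIso RaagGP RaagBP

variable {V W C : Type} {Γ : SimpleGraph V} {Λ : SimpleGraph W} {π : W → V} {m : ℕ}
  {B : Fin m → Set V} {ρ : RA Λ →* Equiv.Perm C}

private theorem m10_inv (c : C) (g : RA Λ) : rm ρ (rm ρ c g) g⁻¹ = c := by
  rw [← rm_mul, mul_inv_cancel, rm_one]

theorem rep_iff {S : Subgroup (RA Λ)} {c d : C} :
    rep ρ S c = rep ρ S d ↔ ∃ x ∈ S, rm ρ c x = d := by
  constructor
  · intro h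
    obtain ⟨x, hx, hx2⟩ := rep_orb ρ S c
    obtain ⟨y, hy, hy2⟩ := rep_orb ρ S d
    refine ⟨x⁻¹ * y, mul_mem (inv_mem hx) hy, ?_⟩
    have h1 : rm ρ c x⁻¹ = rep ρ S c := by
      calc rm ρ c x⁻¹ = rm ρ (rm ρ (rep ρ S c) x) x⁻¹ := by rw [hx2]
        _ = rep ρ S c := m10_inv _ _
    rw [rm_mul, h1, h, hy2]
  · exact rep_eq

theorem per_pr [Finite C] (a : W) (c : C) : per ρ a c = pr ρ a c := by
  apply le_antisymm
  · exact Nat.sInf_le ⟨pr_pos a c, pr_mem a c⟩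
  · have h := per_mem ρ a c
    have h2 : (pr ρ a c : ℤ) ∣ (per ρ a c : ℤ) := by
      rw [← pr_zpow, zpow_natCast]
      exact h.2
    exact Nat.le_of_dvd h.1 (Int.natCast_dvd_natCast.1 h2)

theorem ct_iff (a : W) : Ct (fun i => π ⁻¹' B i) a ↔ Cut B (π a) := Iff.rfl

theorem st_pre (hB : BU Γ Λ π) {a : W} (h1 : ∀ b, π b = π a → b = a) :
    st Λ a = π ⁻¹' (st Γ (π a)) := by
  ext b
  constructor
  · intro h
    exact st_sub hB a h
  · rintro (h | h)
    · exact Or.inl (h1 b h)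
    · exact Or.inr (adj_lift hB h)

theorem pp_st (hB : BU Γ Λ π) {a : W} (h1 : ∀ b, π b = π a → b = a) :
    PP Λ (st Λ a) = PB Λ π (st Γ (π a)) := by
  unfold PB
  rw [st_pre hB h1]

theorem pp_wall (hB : BU Γ Λ π) {a : W} (h1 : ∀ b, π b = π a → b = a) (S : Set V) :
    PP Λ (π ⁻¹' S ∩ st Λ a) = PB Λ π (S ∩ st Γ (π a)) := by
  unfold PB
  rw [st_pre hB h1, Set.preimage_inter]

theorem bs_ex (h : Ctx Γ Λ π B) : ∃ tp : Fin m → W, BS Λ (fun i => π ⁻¹' B i) tp := by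
  have h1 : ∀ i, ∃ t : W, (∃ j, j < i) → π t ∈ B i ∧ ∃ j, j < i ∧ π t ∈ B j := by
    intro i
    by_cases hi : ∃ j, j < i
    · obtain ⟨v, hv, -⟩ := h.glu.glu i hi
      obtain ⟨t, rfl⟩ := h.bu.surj v
      exact ⟨t, fun _ => hv⟩
    · obtain ⟨v, -⟩ := blk_ne h.glu i
      obtain ⟨t, -⟩ := h.bu.surj v
      exact ⟨t, fun h2 => absurd h2 hi⟩
  choose tp htp using h1
  refine ⟨tp, ⟨fun a => h.glu.cov (π a), ?_, fun i j hj => htp i ⟨j, hj⟩, ?_⟩⟩
  · intro a b hab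
    rcases adj_pi h.bu hab with h2 | h2
    · obtain ⟨i, hi⟩ := h.glu.cov (π a)
      refine ⟨i, hi, ?_⟩
      show π b ∈ B i
      rw [← h2]
      exact hi
    · exact h.glu.edge _ _ h2
  · intro i j a hai haj hji
    have h2 : π a = π (tp i) :=
      (h.glu.glu i ⟨j, hji⟩).unique ⟨hai, j, hji, haj⟩ (htp i ⟨j, hji⟩)
    exact h.sng (π a) (Or.inl ⟨i, j, hji.ne', hai, haj⟩) a (tp i) rfl h2.symm

theorem lf_of (h : Ctx Γ Λ π B) : Lf Λ (fun i => π ⁻¹' B i) (NB Γ B) := by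
  intro i hi
  obtain ⟨l0, hl0, hl0'⟩ := Set.not_subset.1 hi
  obtain ⟨w, j, -, hcut, hlk, hBj, hne, huni⟩ := leaf h hl0'
  have hij : i = j := huni i hl0
  subst hij
  obtain ⟨a, ha, ha1⟩ := cut_fib h hcut
  obtain ⟨l, hl, hl1⟩ := leaf_fib h hl0'
  have hadj : Γ.Adj l0 w := by
    have : w ∈ lk Γ l0 := by rw [hlk]; exact rfl
    exact this
  refine ⟨a, l, ?_, ?_, ?_, ?_⟩
  · ext b
    show π b ∈ B i ↔ _
    rw [hBj]
    constructor
    · rintro (h2 | h2)
      · exact Or.inr (hl1 b h2)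
      · exact Or.inl (ha1 b h2)
    · rintro (h2 | h2)
      · exact Or.inr (by rw [h2, ha]; exact rfl)
      · have h3 : b = l := h2
        exact Or.inl (by rw [h3, hl])
  · apply adj_lift h.bu
    rw [ha, hl]
    exact hadj.symm
  · rw [ct_iff, ha]
    exact hcut
  · rw [ct_iff, hl]
    rintro ⟨i1, i2, h12, h3, h4⟩
    exact h12 ((huni i1 h3).trans (huni i2 h4).symm)

theorem cyc_card [Finite C] (hB : BU Γ Λ π) {a : W} (h1 : ∀ b, π b = π a → b = a) (c : C) :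
    nPt Γ π ρ (π a) c = Nat.card {d : C // rep ρ (PP Λ (st Λ a)) d = rep ρ (PP Λ (st Λ a)) c ∧
      rep ρ (PP Λ {a}) d = d} * pr ρ a c := by
  classical
  have hpos : 0 < pr ρ a c := pr_pos a c
  have hst : PP Λ (st Λ a) = PB Λ π (st Γ (π a)) := pp_st hB h1
  have hcm : ∀ x ∈ PP Λ (st Λ a), x * gen a = gen a * x := by
    intro x hx
    rw [hst] at hx
    exact cen_sng hB rfl h1 hx
  have hga : (gen a : RA Λ) ∈ PP Λ (st Λ a) := gen_mem (Or.inl rfl)
  have hpr : ∀ d, rep ρ (PP Λ (st Λ a)) d = rep ρ (PP Λ (st Λ a)) c → pr ρ a d = pr ρ a c := by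
    intro d hd
    obtain ⟨x, hx, rfl⟩ := rep_iff.1 hd.symm
    exact pr_comm (hcm x hx) c
  have hsg : ∀ (d : C) (n : ℕ), rep ρ (PP Λ {a}) (rm ρ d (gen a ^ n)) = rep ρ (PP Λ {a}) d := by
    intro d n
    exact rep_rm (pow_mem (gen_mem (Set.mem_singleton a)) n) d
  have hf : ∀ x : {d : C // rep ρ (PP Λ (st Λ a)) d = rep ρ (PP Λ (st Λ a)) c ∧
      rep ρ (PP Λ {a}) d = d} × Fin (pr ρ a c),
      Ob π ρ (st Γ (π a)) c (rm ρ x.1.1 (gen a ^ (x.2 : ℕ))) := by
    rintro ⟨⟨d, hd1, hd2⟩, n⟩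
    obtain ⟨x, hx, hx2⟩ := rep_iff.1 hd1.symm
    refine ⟨x * gen a ^ (n : ℕ), ?_, ?_⟩
    · rw [← hst]
      exact mul_mem hx (pow_mem hga _)
    · rw [rm_mul, hx2]
  have hbij : Function.Bijective (fun x : {d : C // rep ρ (PP Λ (st Λ a)) d =
      rep ρ (PP Λ (st Λ a)) c ∧ rep ρ (PP Λ {a}) d = d} × Fin (pr ρ a c) =>
      (⟨rm ρ x.1.1 (gen a ^ (x.2 : ℕ)), hf x⟩ : {d : C // Ob π ρ (st Γ (π a)) c d})) := by
    constructor
    · rintro ⟨⟨d, hd1, hd2⟩, n⟩ ⟨⟨d', hd1', hd2'⟩, n'⟩ h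
      have h2 : rm ρ d (gen a ^ (n : ℕ)) = rm ρ d' (gen a ^ (n' : ℕ)) := congrArg Subtype.val h
      have h3 : d = d' := by
        rw [← hd2, ← hd2', ← hsg d n, ← hsg d' n', h2]
      subst h3
      have h4 : rm ρ d (gen a ^ ((n : ℤ) - (n' : ℤ))) = d := by
        rw [sub_eq_add_neg, zpow_add, rm_mul, zpow_natCast, h2, ← rm_mul, ← zpow_natCast,
          ← zpow_add, add_neg_cancel, zpow_zero, rm_one]
      rw [pr_zpow, hpr d hd1] at h4
      have h5 : (n : ℕ) = (n' : ℕ) := by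
        have hn := n.2
        have hn' := n'.2
        obtain ⟨k, hk⟩ := h4
        have hk0 : k = 0 := by
          by_contra hk0
          have h6 : (pr ρ a c : ℤ) ≤ |(n : ℤ) - n'| := by
            rw [hk, abs_mul, abs_of_nonneg (by positivity : (0 : ℤ) ≤ (pr ρ a c : ℤ))]
            have : 1 ≤ |k| := Int.one_le_abs hk0
            nlinarith
          have h7 : |(n : ℤ) - n'| < pr ρ a c := by
            rw [abs_lt]
            constructor <;> omega
          omega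
        rw [hk0, mul_zero] at hk
        omega
      have h6 : n = n' := Fin.ext h5
      subst h6
      rfl
    · rintro ⟨e, g, hg, hge⟩
      rw [← hst] at hg
      obtain ⟨x, hx, hx2⟩ := rep_orb ρ (PP Λ {a}) e
      have hx3 : x ∈ PB Λ π {π a} := by
        refine pp_mono ?_ hx
        rintro b hb
        have : b = a := hb
        rw [this]
        exact rfl
      obtain ⟨k, rfl⟩ := (pb_zpow rfl h1).1 hx3
      set d := rep ρ (PP Λ {a}) e with hd
      have hxs : (gen a ^ k : RA Λ) ∈ PP Λ (st Λ a) := zpow_mem hga k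
      have hd1 : rep ρ (PP Λ (st Λ a)) d = rep ρ (PP Λ (st Λ a)) c := by
        have h2 : rep ρ (PP Λ (st Λ a)) d = rep ρ (PP Λ (st Λ a)) e := rep_iff.2 ⟨_, hxs, hx2⟩
        rw [h2]
        exact (rep_iff.2 ⟨g, hg, hge⟩).symm
      have hd2 : rep ρ (PP Λ {a}) d = d := rep_rep ρ _ e
      have hp : pr ρ a d = pr ρ a c := hpr d hd1
      have h3 : 0 ≤ k % (pr ρ a c : ℤ) := Int.emod_nonneg _ (by omega)
      have h4 : k % (pr ρ a c : ℤ) < pr ρ a c := Int.emod_lt_of_pos _ (by omega)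
      refine ⟨⟨⟨d, hd1, hd2⟩, ⟨(k % (pr ρ a c : ℤ)).toNat, by omega⟩⟩, ?_⟩
      apply Subtype.ext
      show rm ρ d (gen a ^ (k % (pr ρ a c : ℤ)).toNat) = e
      have h5 : rm ρ d (gen a ^ (k - k % (pr ρ a c : ℤ))) = d := by
        rw [pr_zpow, hp]
        exact Int.dvd_self_sub_emod
      have h6 : (gen a : RA Λ) ^ k = gen a ^ (k - k % (pr ρ a c : ℤ)) *
          gen a ^ (k % (pr ρ a c : ℤ)).toNat := by
        rw [← zpow_natCast, Int.toNat_of_nonneg h3, ← zpow_add]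
        congr 1
        ring
      rw [← hx2, h6, rm_mul, h5]
  unfold nPt
  rw [← Nat.card_eq_of_bijective _ hbij, Nat.card_prod, Nat.card_eq_fintype_card (α := Fin _),
    Fintype.card_fin]

end RaagBL
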