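import Pool.Agent.Lib.MP_32d917_al_bl.A10
import Pool.Agent.Lib.MP_32d917_al_bl.M10

/-!
# M05: walls and stabilisers of cut vertices under an isomorphism (75 min)

Let `v = π a`, `v' = π' a'` (both cut: `cut_phi`), `Ee (Φ (x, v)) (x', v')`, so `u = (Φ (x, v)).1⁻¹ * x' ∈ PB' (st v')` and `(Φ (x, v)).2 = v'`.
`ph_st`: `x⁻¹ * k * x ∈ PB (st v) ↔ x'⁻¹ * φ k * x' ∈ PB' (st v')`: `st_phi`, `st_phi'` and conjugation by `u`.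
`ph_wal`: let `x⁻¹ * k * x = y * l * y⁻¹`, `y ∈ PB (st v)`, `l ∈ PB (B i ∩ st v)`. `chm` for `(i, x * y)`: `j`, `z'`, `t`. `(x * y, v)` and `(x, v)` are equivalent, so `(z', t v)` and `(x', v')` are equivalent: `t v = v' ∈ B' j`, `y' = x'⁻¹ * z' ∈ PB' (st v')`. `chm_sk` for `k` (`(x * y)⁻¹ * k * (x * y) = l ∈ PB (B i)`): `l' = z'⁻¹ * φ k * z' ∈ PB' (B' j)`, and `ph_st` for `x * y`, `z'`: `l' ∈ PB' (st v')`; `pb_inf`.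
`x'⁻¹ * φ k * x' = y' * l' * y'⁻¹`.
`ph_wal'`: the same for the inverse: `ind_symm`, `Ee (Ψ (x', v')) (x, v)` (`ee'`, `left`).
`ph_z`: `x⁻¹ * k * x = gen a ^ pr ρ a (rm ρ c0 x)` implies `x'⁻¹ * φ k * x' = gen a' ^ (e * pr ρ' a' (rm ρ' c0' x'))`, `e = ± 1`: `sgn_phi` for `x`, and `u` commutes with `gen a'` (`cen_sng`), `pr_comm`.
`kap_ex`: the map `l ↦ x'⁻¹ * φ (x * l * x⁻¹) * x'` from `stb ρ c ⊓ PP Λ (st Λ a)` to `stb ρ' c' ⊓ PP Λ' (st Λ' a')` (`pp_st`, `ph_st`), bijective and multiplicative.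
-/

set_option autoImplicit false

namespace RaagBL

open RaagIso RaagGP RaagBP

variable {V W V' W' C C' : Type} {Γ : SimpleGraph V} {Λ : SimpleGraph W} {π : W → V}
  {Γ' : SimpleGraph V'} {Λ' : SimpleGraph W'} {π' : W' → V'} {m m' : ℕ} {B : Fin m → Set V}
  {B' : Fin m' → Set V'} {Φ : RA Λ × V → RA Λ' × V'} {Ψ : RA Λ' × V' → RA Λ × V}
  {ρ : RA Λ →* Equiv.Perm C} {ρ' : RA Λ' →* Equiv.Perm C'} {c0 : C} {c0' : C'}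
  {φ : stb ρ c0 ≃* stb ρ' c0'}

private theorem m05_conj {G : Type} [Group G] {K : Subgroup G} {p x g : G} (hu : p⁻¹ * x ∈ K) :
    p⁻¹ * g * p ∈ K ↔ x⁻¹ * g * x ∈ K := by
  constructor
  · intro h
    have h1 := mul_mem (mul_mem (inv_mem hu) h) hu
    have h2 : (p⁻¹ * x)⁻¹ * (p⁻¹ * g * p) * (p⁻¹ * x) = x⁻¹ * g * x := by group
    rwa [h2] at h1
  · intro h
    have h1 := mul_mem (mul_mem hu h) (inv_mem hu)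
    have h2 : p⁻¹ * x * (x⁻¹ * g * x) * (p⁻¹ * x)⁻¹ = p⁻¹ * g * p := by group
    rwa [h2] at h1

private theorem m05_cj {G : Type} [Group G] {x g y l : G} (h : x⁻¹ * g * x = y * l * y⁻¹) :
    (x * y)⁻¹ * g * (x * y) = l := by
  have h1 : (x * y)⁻¹ * g * (x * y) = y⁻¹ * (x⁻¹ * g * x) * y := by group
  rw [h1, h]
  group

private theorem m05_rm (c : C) (x g : RA Λ) :
    rm ρ (rm ρ c x) g = rm ρ c x ↔ x * g * x⁻¹ ∈ stb ρ c := by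
  rw [mem_stb, rm_mul, rm_mul]
  constructor
  · intro h
    rw [h, ← rm_mul, mul_inv_cancel, rm_one]
  · intro h
    have h1 := congrArg (fun c => rm ρ c x) h
    rw [← rm_mul, inv_mul_cancel, rm_one] at h1
    exact h1

private theorem m05_fib (h : Ctx Γ Λ π B) {a : W} (ha : Cut B (π a)) :
    ∀ b, π b = π a → b = a := fun b hb => h.sng (π a) (Or.inl ha) b a hb rfl

theorem ph_st (h : Ctx Γ Λ π B) (h' : Ctx Γ' Λ' π' B') (hI : Ind3 Γ Γ' π π' φ Φ Ψ) {v : V}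
    (hv : v ∈ NL Γ) {v' : V'} {x : RA Λ} {x' : RA Λ'} (hx : Ee Γ' π' (Φ (x, v)) (x', v'))
    (k : stb ρ c0) : x⁻¹ * k * x ∈ PB Λ π (st Γ v) ↔ x'⁻¹ * φ k * x' ∈ PB Λ' π' (st Γ' v') := by
  obtain ⟨h1, h2⟩ := hx
  have h1' : (Φ (x, v)).2 = v' := h1
  have h2' : (Φ (x, v)).1⁻¹ * x' ∈ PB Λ' π' (st Γ' (Φ (x, v)).2) := h2
  rw [← h1']
  constructor
  · intro h3
    exact (m05_conj h2').1 (st_phi hI (p := (x, v)) hv k h3)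
  · intro h3
    exact st_phi' hI (p := (x, v)) hv k ((m05_conj h2').2 h3)

theorem ph_wal [Finite V] [Finite V'] (h : Ctx Γ Λ π B) (h' : Ctx Γ' Λ' π' B')
    (hI : Ind3 Γ Γ' π π' φ Φ Ψ) {v : V} (hv : Cut B v) {v' : V'} {x : RA Λ} {x' : RA Λ'}
    (hx : Ee Γ' π' (Φ (x, v)) (x', v')) (k : stb ρ c0) {i : Fin m} (hi : NB Γ B i)
    (hvi : v ∈ B i) (hk : ∃ y ∈ PB Λ π (st Γ v), ∃ l ∈ PB Λ π (B i ∩ st Γ v),
      x⁻¹ * (k : RA Λ) * x = y * l * y⁻¹) :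
    ∃ j, NB Γ' B' j ∧ v' ∈ B' j ∧ ∃ y ∈ PB Λ' π' (st Γ' v'), ∃ l ∈ PB Λ' π' (B' j ∩ st Γ' v'),
      x'⁻¹ * ((φ k : stb ρ' c0') : RA Λ') * x' = y * l * y⁻¹ := by
  obtain ⟨y, hy, l, hl, hyl⟩ := hk
  have hn : v ∈ NL Γ := cut_nl h.glu hv
  obtain ⟨j, z', t, hj, _, hc⟩ := chm h h' hI.emp hi (x * y)
  have h1 : Ee Γ' π' (Φ (x * y, v)) (Φ (x, v)) := hI.emp.ee _ _ hn hn (ee_right x v hy)
  have h2 : Ee Γ' π' (Φ (x * y, v)) (z', t v) := hc.ee v hvi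
  have h3 : Ee Γ' π' (x', v') (z', t v) := ee_trans (ee_symm hx) (ee_trans (ee_symm h1) h2)
  obtain ⟨h4, h5⟩ := h3
  have h4' : t v = v' := h4.symm
  have h5' : x'⁻¹ * z' ∈ PB Λ' π' (st Γ' v') := h5
  have h6 : v' ∈ B' j := by
    rw [← h4']
    exact hc.bij.mapsTo hvi
  rw [h4'] at h2
  have h7 : (x * y)⁻¹ * (k : RA Λ) * (x * y) = l := m05_cj hyl
  have h8 : z'⁻¹ * φ k * z' ∈ PB Λ' π' (B' j) := by
    refine chm_sk h h' hI hi hc k ?_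
    rw [h7]
    exact pb_mono Set.inter_subset_left hl
  have h9 : z'⁻¹ * φ k * z' ∈ PB Λ' π' (st Γ' v') := by
    refine (ph_st h h' hI hn h2 k).1 ?_
    rw [h7]
    exact pb_mono Set.inter_subset_right hl
  refine ⟨j, hj, h6, x'⁻¹ * z', h5', z'⁻¹ * φ k * z', ?_, by group⟩
  rw [← pb_inf]
  exact ⟨h8, h9⟩

theorem ph_wal' [Finite V] [Finite V'] (h : Ctx Γ Λ π B) (h' : Ctx Γ' Λ' π' B')
    (hI : Ind3 Γ Γ' π π' φ Φ Ψ) {v : V} (hv : Cut B v) {v' : V'} {x : RA Λ} {x' : RA Λ'}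
    (hx : Ee Γ' π' (Φ (x, v)) (x', v')) (k : stb ρ c0) {j : Fin m'} (hj : NB Γ' B' j)
    (hvj : v' ∈ B' j) (hk : ∃ y ∈ PB Λ' π' (st Γ' v'), ∃ l ∈ PB Λ' π' (B' j ∩ st Γ' v'),
      x'⁻¹ * ((φ k : stb ρ' c0') : RA Λ') * x' = y * l * y⁻¹) :
    ∃ i, NB Γ B i ∧ v ∈ B i ∧ ∃ y ∈ PB Λ π (st Γ v), ∃ l ∈ PB Λ π (B i ∩ st Γ v),
      x⁻¹ * (k : RA Λ) * x = y * l * y⁻¹ := by
  have hn : v ∈ NL Γ := cut_nl h.glu hv
  have h0 : (Φ (x, v)).2 = v' := hx.1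
  have hn1 : (Φ (x, v)).2 ∈ NL Γ' := hI.emp.nl (x, v) hn
  have hn2 : v' ∈ NL Γ' := by
    rw [← h0]
    exact hn1
  have hv' : Cut B' v' := by
    rw [← h0]
    exact (cut_phi h h' hI.emp hn).1 hv
  have h1 : Ee Γ π (Ψ (Φ (x, v))) (Ψ (x', v')) := hI.emp.ee' _ _ hn1 hn2 hx
  have h2 : Ee Γ π (Ψ (x', v')) (x, v) := ee_trans (ee_symm h1) (hI.emp.left (x, v) hn)
  have h3 := ph_wal h' h (ind_symm hI) hv' h2 (φ k) hj hvj hk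
  rw [MulEquiv.symm_apply_apply] at h3
  exact h3

theorem ph_z [Finite V] [Finite V'] [Finite C] [Finite C'] (h : Ctx Γ Λ π B)
    (h' : Ctx Γ' Λ' π' B') (hI : Ind3 Γ Γ' π π' φ Φ Ψ) {a : W} {a' : W'} (hv : Cut B (π a))
    {x : RA Λ} {x' : RA Λ'} (hx : Ee Γ' π' (Φ (x, π a)) (x', π' a')) (k : stb ρ c0)
    (hk : x⁻¹ * (k : RA Λ) * x = gen a ^ pr ρ a (rm ρ c0 x)) :
    ∃ e : ℤˣ, x'⁻¹ * ((φ k : stb ρ' c0') : RA Λ') * x' =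
      gen a' ^ ((e : ℤ) * pr ρ' a' (rm ρ' c0' x')) := by
  have hn : π a ∈ NL Γ := cut_nl h.glu hv
  obtain ⟨e, he⟩ := sgn_phi h h' hI hv x
  have h0 : (Φ (x, π a)).2 = π' a' := hx.1
  have hv' : Cut B' (π' a') := by
    rw [← h0]
    exact (cut_phi h h' hI.emp hn).1 hv
  have hu : (Φ (x, π a)).1⁻¹ * x' ∈ PB Λ' π' (st Γ' (π' a')) := by
    have h1 := hx.2
    rw [h0] at h1
    exact h1
  have h1 : (k : RA Λ) = x * gen a ^ pr ρ a (rm ρ c0 x) * x⁻¹ := by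
    rw [← hk]
    group
  have h2 := he a a' rfl h0.symm k h1
  have h3 := cen_sng h'.bu rfl (m05_fib h' hv') hu
  obtain ⟨p, hp⟩ : ∃ p, p = (Φ (x, π a)).1 := ⟨_, rfl⟩
  rw [← hp] at h2 h3
  obtain ⟨u, hu2⟩ : ∃ u, u = p⁻¹ * x' := ⟨_, rfl⟩
  have hxu : x' = p * u := by rw [hu2]; group
  rw [← hu2] at h3
  have h4 : pr ρ' a' (rm ρ' c0' x') = pr ρ' a' (rm ρ' c0' p) := by
    rw [hxu, rm_mul]
    exact pr_comm h3 _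
  refine ⟨e, ?_⟩
  rw [h2, h4, hxu]
  obtain ⟨n, hn⟩ : ∃ n : ℤ, n = (e : ℤ) * pr ρ' a' (rm ρ' c0' p) := ⟨_, rfl⟩
  rw [← hn]
  have h5 : Commute u (gen a') := h3
  have h6 : u * gen a' ^ n = gen a' ^ n * u := h5.zpow_right n
  calc (p * u)⁻¹ * (p * gen a' ^ n * p⁻¹) * (p * u) = u⁻¹ * (gen a' ^ n * u) := by group
    _ = u⁻¹ * (u * gen a' ^ n) := by rw [h6]
    _ = gen a' ^ n := by group

theorem kap_ex [Finite V] [Finite V'] (h : Ctx Γ Λ π B) (h' : Ctx Γ' Λ' π' B')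
    (hI : Ind3 Γ Γ' π π' φ Φ Ψ) {a : W} {a' : W'} (hv : Cut B (π a)) {x : RA Λ} {x' : RA Λ'}
    (hx : Ee Γ' π' (Φ (x, π a)) (x', π' a')) :
    ∃ e : (stb ρ (rm ρ c0 x) ⊓ PP Λ (st Λ a) : Subgroup (RA Λ)) ≃*
        (stb ρ' (rm ρ' c0' x') ⊓ PP Λ' (st Λ' a') : Subgroup (RA Λ')),
      ∀ l : (stb ρ (rm ρ c0 x) ⊓ PP Λ (st Λ a) : Subgroup (RA Λ)), ∃ k : stb ρ c0,
        (l : RA Λ) = x⁻¹ * k * x ∧
        ((e l : (stb ρ' (rm ρ' c0' x') ⊓ PP Λ' (st Λ' a') : Subgroup (RA Λ'))) : RA Λ') =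
          x'⁻¹ * φ k * x' := by
  have hn : π a ∈ NL Γ := cut_nl h.glu hv
  have h0 : (Φ (x, π a)).2 = π' a' := hx.1
  have hv' : Cut B' (π' a') := by
    rw [← h0]
    exact (cut_phi h h' hI.emp hn).1 hv
  have e1 : PP Λ (st Λ a) = PB Λ π (st Γ (π a)) := pp_st h.bu (m05_fib h hv)
  have e2 : PP Λ' (st Λ' a') = PB Λ' π' (st Γ' (π' a')) := pp_st h'.bu (m05_fib h' hv')
  have hl : ∀ l : (stb ρ (rm ρ c0 x) ⊓ PP Λ (st Λ a) : Subgroup (RA Λ)),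
      x * (l : RA Λ) * x⁻¹ ∈ stb ρ c0 := fun l => (m05_rm c0 x l).1 (mem_stb.1 l.2.1)
  have hl2 : ∀ l : (stb ρ (rm ρ c0 x) ⊓ PP Λ (st Λ a) : Subgroup (RA Λ)),
      x'⁻¹ * φ ⟨x * (l : RA Λ) * x⁻¹, hl l⟩ * x' ∈
        (stb ρ' (rm ρ' c0' x') ⊓ PP Λ' (st Λ' a') : Subgroup (RA Λ')) := by
    intro l
    refine ⟨?_, ?_⟩
    · show x'⁻¹ * φ ⟨x * (l : RA Λ) * x⁻¹, hl l⟩ * x' ∈ stb ρ' (rm ρ' c0' x')
      rw [mem_stb, m05_rm]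
      have h3 : x' * (x'⁻¹ * (φ ⟨x * (l : RA Λ) * x⁻¹, hl l⟩ : RA Λ') * x') * x'⁻¹ =
          φ ⟨x * (l : RA Λ) * x⁻¹, hl l⟩ := by group
      rw [h3]
      exact (φ ⟨x * (l : RA Λ) * x⁻¹, hl l⟩).2
    · show x'⁻¹ * φ ⟨x * (l : RA Λ) * x⁻¹, hl l⟩ * x' ∈ PP Λ' (st Λ' a')
      rw [e2]
      refine (ph_st h h' hI hn hx ⟨x * (l : RA Λ) * x⁻¹, hl l⟩).1 ?_
      have h3 : x⁻¹ * (x * (l : RA Λ) * x⁻¹) * x = l := by group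
      show x⁻¹ * (x * (l : RA Λ) * x⁻¹) * x ∈ PB Λ π (st Γ (π a))
      rw [h3, ← e1]
      exact l.2.2
  obtain ⟨f, hf⟩ : ∃ f : (stb ρ (rm ρ c0 x) ⊓ PP Λ (st Λ a) : Subgroup (RA Λ)) →*
      (stb ρ' (rm ρ' c0' x') ⊓ PP Λ' (st Λ' a') : Subgroup (RA Λ')),
      ∀ l, ((f l : (stb ρ' (rm ρ' c0' x') ⊓ PP Λ' (st Λ' a') : Subgroup (RA Λ'))) : RA Λ') =
        x'⁻¹ * φ ⟨x * (l : RA Λ) * x⁻¹, hl l⟩ * x' := by
    refine ⟨MonoidHom.mk' (fun l => ⟨_, hl2 l⟩) ?_, fun l => rfl⟩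
    intro l1 l2
    apply Subtype.ext
    show x'⁻¹ * φ ⟨x * ((l1 * l2 : (stb ρ (rm ρ c0 x) ⊓ PP Λ (st Λ a) : Subgroup (RA Λ))) :
      RA Λ) * x⁻¹, hl (l1 * l2)⟩ * x' = x'⁻¹ * φ ⟨x * (l1 : RA Λ) * x⁻¹, hl l1⟩ * x' *
      (x'⁻¹ * φ ⟨x * (l2 : RA Λ) * x⁻¹, hl l2⟩ * x')
    have h3 : (⟨x * ((l1 * l2 : (stb ρ (rm ρ c0 x) ⊓ PP Λ (st Λ a) : Subgroup (RA Λ))) :
        RA Λ) * x⁻¹, hl (l1 * l2)⟩ : stb ρ c0) = ⟨x * (l1 : RA Λ) * x⁻¹, hl l1⟩ *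
        ⟨x * (l2 : RA Λ) * x⁻¹, hl l2⟩ := by
      apply Subtype.ext
      show x * ((l1 : RA Λ) * (l2 : RA Λ)) * x⁻¹ = x * (l1 : RA Λ) * x⁻¹ * (x * (l2 : RA Λ) * x⁻¹)
      group
    rw [h3, map_mul, Subgroup.coe_mul]
    group
  have hinj : Function.Injective f := by
    intro l1 l2 h12
    have h3 := congrArg Subtype.val h12
    rw [hf, hf] at h3
    have h4 := mul_left_cancel (mul_right_cancel h3)
    have h5 := φ.injective (Subtype.ext h4)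
    have h6 : x * (l1 : RA Λ) * x⁻¹ = x * (l2 : RA Λ) * x⁻¹ := congrArg Subtype.val h5
    exact Subtype.ext (mul_left_cancel (mul_right_cancel h6))
  have hsurj : Function.Surjective f := by
    intro l'
    have h3 : x' * (l' : RA Λ') * x'⁻¹ ∈ stb ρ' c0' := (m05_rm c0' x' l').1 (mem_stb.1 l'.2.1)
    obtain ⟨k, hk⟩ := φ.surjective ⟨x' * (l' : RA Λ') * x'⁻¹, h3⟩
    have h4 : x'⁻¹ * φ k * x' = l' := by
      rw [hk]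
      show x'⁻¹ * (x' * (l' : RA Λ') * x'⁻¹) * x' = l'
      group
    have h5 : x⁻¹ * (k : RA Λ) * x ∈ PB Λ π (st Γ (π a)) := by
      refine (ph_st h h' hI hn hx k).2 ?_
      rw [h4, ← e2]
      exact l'.2.2
    have h6 : x * (x⁻¹ * (k : RA Λ) * x) * x⁻¹ = k := by group
    have h7 : x⁻¹ * (k : RA Λ) * x ∈ stb ρ (rm ρ c0 x) := by
      rw [mem_stb, m05_rm, h6]
      exact k.2
    refine ⟨⟨x⁻¹ * (k : RA Λ) * x, h7, by rw [e1]; exact h5⟩, ?_⟩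
    apply Subtype.ext
    rw [hf, ← h4]
    have h8 : (⟨x * (x⁻¹ * (k : RA Λ) * x) * x⁻¹, by rw [h6]; exact k.2⟩ : stb ρ c0) = k :=
      Subtype.ext h6
    exact congrArg (fun q : stb ρ c0 => x'⁻¹ * ((φ q : stb ρ' c0') : RA Λ') * x') h8
  refine ⟨MulEquiv.ofBijective f ⟨hinj, hsurj⟩, fun l => ⟨⟨x * (l : RA Λ) * x⁻¹, hl l⟩, ?_, hf l⟩⟩
  show (l : RA Λ) = x⁻¹ * (x * (l : RA Λ) * x⁻¹) * x
  group

end RaagBL
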