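import Pool.Agent.Lib.MP_32d917_al_bl.M05

/-!
# M06: the number of homomorphisms to `ℤ / 2` (60 min)

`e` from `kap_ex`. The map `F' ↦ F'.comp e` is a bijection of the sets of all homomorphisms (`Equiv` with inverse composition with `e.symm`, as `E` in `P20`); the conditions correspond (`Nat.card_congr (Equiv.subtypeEquiv ..)`):
let `F'` be a homomorphism on the group of `a'`, `F = F'.comp e`. Suppose `F'` satisfies the conditions. If `k = gen a ^ per ρ a c` (`per_pr`) then `e k = gen a' ^ (± per)` (`ph_z` for the element `k0` of `kap_ex`), `= k' ^ (± 1)` with `k' = gen a' ^ per ρ' a' c'` an element of the group, `F' k' = 1`. If `k = y * l * y⁻¹` for some `i` then (`pp_st`, `pp_wall` translate `PP`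
into `PB`) `ph_wal` gives `j` and `e k = y' * l' * y'⁻¹`, so `F' (e k) = 1`. Conversely suppose that `F` satisfies the conditions. For `k' = gen a' ^ per ρ' a' c'`: let `k = gen a ^ per ρ a c`; `e k = k' ^ (± 1)`, `F k = 1`, so `F' k' = 1`. For `k' = y' * l' * y'⁻¹`, `k' = e k`: `ph_wal'` gives `k = y * l * y⁻¹`, `F k = 1`.
(`π a`, `π' a'` are cut: `cut_phi`, `Ee` gives `(Φ (x, π a)).2 = π' a'`; single letters: `cut_fib`.)
-/

set_option autoImplicit false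

namespace RaagBL

open RaagIso RaagGP RaagBP

variable {V W V' W' C C' : Type} {Γ : SimpleGraph V} {Λ : SimpleGraph W} {π : W → V}
  {Γ' : SimpleGraph V'} {Λ' : SimpleGraph W'} {π' : W' → V'} {m m' : ℕ} {B : Fin m → Set V}
  {B' : Fin m' → Set V'} {Φ : RA Λ × V → RA Λ' × V'} {Ψ : RA Λ' × V' → RA Λ × V}
  {ρ : RA Λ →* Equiv.Perm C} {ρ' : RA Λ' →* Equiv.Perm C'} {c0 : C} {c0' : C'}
  {φ : stb ρ c0 ≃* stb ρ' c0'}

/-- number of homomorphisms of the stabiliser of `c` in the star of the letter `a` to `ℤ / 2` which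
kill the centre and the walls -/
noncomputable def nH (ρ : RA Λ →* Equiv.Perm C) (D : Fin m → Set W) (co : Fin m → Prop) (a : W)
    (c : C) : ℕ :=
  Nat.card {F : ↥(stb ρ c ⊓ PP Λ (st Λ a)) →* Multiplicative (ZMod 2) //
    (∀ k : ↥(stb ρ c ⊓ PP Λ (st Λ a)), (k : RA Λ) = gen a ^ per ρ a c → F k = 1) ∧
    ∀ i, co i → a ∈ D i → ∀ k : ↥(stb ρ c ⊓ PP Λ (st Λ a)),
      (∃ y ∈ PP Λ (st Λ a), ∃ l ∈ PP Λ (D i ∩ st Λ a), (k : RA Λ) = y * l * y⁻¹) → F k = 1}

private theorem m06_mem [Finite C] (a : W) (c : C) :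
    (gen a ^ per ρ a c : RA Λ) ∈ stb ρ c ⊓ PP Λ (st Λ a) := by
  have hg : (gen a : RA Λ) ∈ PP Λ (st Λ a) := gen_mem (Or.inl rfl)
  refine Subgroup.mem_inf.2 ⟨?_, pow_mem hg _⟩
  rw [per_pr]
  exact pr_mem a c

theorem hom_card [Finite V] [Finite V'] [Finite C] [Finite C'] (h : Ctx Γ Λ π B)
    (h' : Ctx Γ' Λ' π' B') (hI : Ind3 Γ Γ' π π' φ Φ Ψ) {a : W} {a' : W'} (hv : Cut B (π a))
    {x : RA Λ} {x' : RA Λ'} (hx : Ee Γ' π' (Φ (x, π a)) (x', π' a')) :
    nH ρ (fun i => π ⁻¹' B i) (NB Γ B) a (rm ρ c0 x) =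
      nH ρ' (fun i => π' ⁻¹' B' i) (NB Γ' B') a' (rm ρ' c0' x') := by
  classical
  have hcv : π' a' = (Φ (x, π a)).2 := hx.1.symm
  have hv' : Cut B' (π' a') := by
    rw [hcv]
    exact (cut_phi h h' hI.emp (cut_nl h.glu hv)).1 hv
  have h1 : ∀ b, π b = π a → b = a := by
    obtain ⟨a0, h2, h3⟩ := cut_fib h hv
    intro b hb
    rw [h3 b hb, h3 a rfl]
  have h1' : ∀ b, π' b = π' a' → b = a' := by
    obtain ⟨a0, h2, h3⟩ := cut_fib h' hv'
    intro b hb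
    rw [h3 b hb, h3 a' rfl]
  obtain ⟨e, he⟩ := kap_ex h h' hI hv hx
  have hm := m06_mem (ρ := ρ) a (rm ρ c0 x)
  have hm' := m06_mem (ρ := ρ') a' (rm ρ' c0' x')
  -- the centre
  have hcen : ∃ ε : ℤˣ, e ⟨_, hm⟩ = (⟨_, hm'⟩ : ↥(stb ρ' (rm ρ' c0' x') ⊓ PP Λ' (st Λ' a'))) ^ (ε : ℤ) := by
    obtain ⟨k0, h2, h3⟩ := he ⟨_, hm⟩
    have h4 : x⁻¹ * (k0 : RA Λ) * x = gen a ^ pr ρ a (rm ρ c0 x) := by
      rw [← h2]
      show gen a ^ per ρ a (rm ρ c0 x) = _
      rw [per_pr]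
    obtain ⟨ε, h5⟩ := ph_z h h' hI hv hx k0 h4
    refine ⟨ε, Subtype.ext ?_⟩
    rw [h3, h5, Subgroup.coe_zpow]
    show _ = (gen a' ^ per ρ' a' (rm ρ' c0' x')) ^ (ε : ℤ)
    rw [per_pr, ← zpow_natCast, ← zpow_mul, mul_comm]
  obtain ⟨ε, hε⟩ := hcen
  have hiff : ∀ F' : ↥(stb ρ' (rm ρ' c0' x') ⊓ PP Λ' (st Λ' a')) →* Multiplicative (ZMod 2),
      F' (e ⟨_, hm⟩) = 1 ↔ F' ⟨_, hm'⟩ = 1 := by
    intro F'
    rw [hε, map_zpow]
    rcases Int.units_eq_one_or ε with h2 | h2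
    · rw [h2, Units.val_one, zpow_one]
    · rw [h2, Units.val_neg, Units.val_one, zpow_neg, zpow_one, inv_eq_one]
  unfold nH
  symm
  refine Nat.card_congr (Equiv.subtypeEquiv
    { toFun := fun F' => F'.comp e.toMonoidHom
      invFun := fun F => F.comp e.symm.toMonoidHom
      left_inv := fun F' => by
        ext k
        simp
      right_inv := fun F => by
        ext k
        simp } ?_)
  intro F'
  constructor
  · rintro ⟨hA, hB⟩
    refine ⟨fun k hk => ?_, fun i hi hai k hk => ?_⟩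
    · have h2 : k = ⟨_, hm⟩ := Subtype.ext hk
      show F' (e k) = 1
      rw [h2, hiff]
      exact hA _ rfl
    · obtain ⟨y, hy, l, hl, hkl⟩ := hk
      obtain ⟨k0, h2, h3⟩ := he k
      rw [pp_st h.bu h1] at hy
      rw [pp_wall h.bu h1] at hl
      obtain ⟨j, hj, hj', y', hy', l', hl', h4⟩ := ph_wal h h' hI hv hx k0 hi hai
        ⟨y, hy, l, hl, by rw [← h2, hkl]⟩
      show F' (e k) = 1
      refine hB j hj hj' (e k) ⟨y', ?_, l', ?_, ?_⟩
      · rw [pp_st h'.bu h1']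
        exact hy'
      · rw [pp_wall h'.bu h1']
        exact hl'
      · rw [h3, h4]
  · rintro ⟨hA, hB⟩
    refine ⟨fun k hk => ?_, fun j hj haj k hk => ?_⟩
    · have h2 : k = ⟨_, hm'⟩ := Subtype.ext hk
      rw [h2, ← hiff]
      exact hA _ rfl
    · obtain ⟨y, hy, l, hl, hkl⟩ := hk
      obtain ⟨k0, h2, h3⟩ := he (e.symm k)
      rw [MulEquiv.apply_symm_apply] at h3
      rw [pp_st h'.bu h1'] at hy
      rw [pp_wall h'.bu h1'] at hl
      obtain ⟨i, hi, hi', y', hy', l', hl', h4⟩ := ph_wal' h h' hI hv hx k0 hj haj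
        ⟨y, hy, l, hl, by rw [← h3, hkl]⟩
      have h5 := hB i hi hi' (e.symm k) ⟨y', by rw [pp_st h.bu h1]; exact hy', l',
        by rw [pp_wall h.bu h1]; exact hl', by rw [h2, h4]⟩
      have h6 : F' (e (e.symm k)) = 1 := h5
      rwa [MulEquiv.apply_symm_apply] at h6

end RaagBL
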