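import Pool.Agent.Lib.MP_32d917_al_bl.P17

/-!
# P18 (75 min): the local block system at a letter

`lD D v i` (for blocks `i` which contain `v`) is the part of `D i` in the star of `v`.
* `lBS`: `cov`: `adj` for the edge `v`, `a` (for `a = v` use `cov`). `adj`: `a`, `b` adjacent in the star of `v`; if `a = v` or `b = v` one block from `adj`; otherwise `a`, `b`, `v` are pairwise adjacent, with blocks `i ∋ a, b`, `j ∋ a, v`, `k ∋ b, v`. If
  two of `i`, `j`, `k` are equal this block contains all three. Otherwise let e.g. `i` be the largest: `a = tp i` (from `D i ∩ D j`, `one`) and `b = tp i` (from `D i ∩ D k`), so `a = b`, a contradiction; in the same way for `j`, `k`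
  (each letter lies in exactly two of the three blocks). `top`: `v` lies in all blocks. `one`: `a = tp i = v` (`one` twice).
* `lCt`: if `a.1` lies in two blocks `i ≠ j` which contain `v`, then `a.1 = v` (`one`: both are `tp` of the larger one). Conversely `Ct D v`.
* `lLf`: `D i = {v', l}` with `v'` cut, `l` not cut and `v ∈ D i` cut: `v = v'`. 
* `lst`: all letters of the star of `v` lie in the star of `v` in `sG`. `lSet`: the letters in `D i ∩ st v`.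
* `nB_loc`: `Nat.card_congr`, every block `i` with `v ∈ D i` contains `v`.
* `nC_loc`: `p0.1.1 = v` by `lCt`, `st ⟨v, _⟩ = univ` so the orbit is everything (`lA_trn`); cycles: the classes of `PP {v}` on `lC`: both sides count the orbits of `PP {v}` in the orbit of `c1`: for a set `S` of letters the map `c ↦ rep lA (PP S) c` from
  `{c : C // rep ρ (PP (val '' S)) c = c ∧ rep ρ (PP (st v)) c = c1}` to `{c // rep lA (PP S) c = c}` is a bijection, by `lA_rep` and `rep_rep` (for `S` with `val '' S ⊆ st v` automatically; inverse: `c ↦ rep ρ (PP (val '' S)) c.1`, in the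
  orbit by `rep_mono`). Prove this as a first lemma (`loc_orb`).
* `nW_loc`: the walls `(i, a, c)` with `co i`: `a = v`; `Σ` over the blocks `i ∋ v` with `co i` of the number of orbits of `PP (D i ∩ st v)` (`loc_orb` with `S = lD D v i ∩ st ⟨v, _⟩ = lD D v i`, `val '' S = D i ∩ st v`).
-/

set_option autoImplicit false

namespace RaagBP

open RaagIso

section

variable {W C I : Type} {Λ : SimpleGraph W}

/-- the local blocks -/
def lD (Λ : SimpleGraph W) (D : I → Set W) (v : W) (i : {i // v ∈ D i}) : Set (st Λ v) :=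
  {a | a.1 ∈ D i.1}

/-- the centre -/
abbrev lv (Λ : SimpleGraph W) (v : W) : st Λ v := ⟨v, Or.inl rfl⟩

theorem lst (Λ : SimpleGraph W) (v : W) : st (sG Λ (st Λ v)) (lv Λ v) = Set.univ := by
  rw [Set.eq_univ_iff_forall]
  rintro ⟨a, ha⟩
  rcases ha with ha | ha
  · exact Or.inl (Subtype.ext ha)
  · exact Or.inr ha

theorem lSet (D : I → Set W) (v : W) (i : {i // v ∈ D i}) :
    Subtype.val '' (lD Λ D v i) = D i.1 ∩ st Λ v := by
  ext a
  constructor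
  · rintro ⟨b, hb, rfl⟩
    exact ⟨hb, b.2⟩
  · rintro ⟨h1, h2⟩
    exact ⟨⟨a, h2⟩, h1, rfl⟩

private theorem p18_one [LinearOrder I] {D : I → Set W} {tp : I → W} (hD : BS Λ D tp) {i j : I}
    (hij : i ≠ j) {a b : W} (h1 : a ∈ D i) (h2 : a ∈ D j) (h3 : b ∈ D i) (h4 : b ∈ D j) :
    a = b := by
  rcases lt_or_gt_of_ne hij with h | h
  · rw [hD.one j i a h2 h1 h, hD.one j i b h4 h3 h]
  · rw [hD.one i j a h1 h2 h, hD.one i j b h3 h4 h]

private theorem p18_tri [LinearOrder I] {D : I → Set W} {tp : I → W} (hD : BS Λ D tp)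
    {a b c : W} {i j k : I} (hab : a ≠ b) (hbc : b ≠ c) (hac : a ≠ c) (h1 : a ∈ D i)
    (h2 : b ∈ D i) (h3 : a ∈ D j) (h4 : c ∈ D j) (h5 : b ∈ D k) (h6 : c ∈ D k) :
    ∃ l, a ∈ D l ∧ b ∈ D l ∧ c ∈ D l := by
  by_cases hij : i = j
  · exact ⟨i, h1, h2, by rw [hij]; exact h4⟩
  by_cases hik : i = k
  · exact ⟨i, h1, h2, by rw [hik]; exact h6⟩
  by_cases hjk : j = k
  · exact ⟨j, h3, by rw [hjk]; exact h5, h4⟩
  exfalso
  rcases lt_or_gt_of_ne hij with hij | hij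
  · -- i < j
    rcases lt_or_gt_of_ne hjk with hjk | hjk
    · -- k largest
      exact hbc ((hD.one k i b h5 h2 (hij.trans hjk)).trans (hD.one k j c h6 h4 hjk).symm)
    · -- j largest
      exact hac ((hD.one j i a h3 h1 hij).trans (hD.one j k c h4 h6 hjk).symm)
  · -- j < i
    rcases lt_or_gt_of_ne hik with hik | hik
    · exact hbc ((hD.one k i b h5 h2 hik).trans (hD.one k j c h6 h4 (hij.trans hik)).symm)
    · exact hab ((hD.one i j a h1 h3 hij).trans (hD.one i k b h2 h5 hik).symm)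

theorem lBS [LinearOrder I] {D : I → Set W} {tp : I → W} (hD : BS Λ D tp) (v : W) :
    BS (sG Λ (st Λ v)) (lD Λ D v) (fun _ => lv Λ v) where
  cov := by
    rintro ⟨a, ha⟩
    rcases ha with ha | ha
    · obtain ⟨i, hi⟩ := hD.cov a
      have hi' : v ∈ D i := by rw [← ha]; exact hi
      exact ⟨⟨i, hi'⟩, hi⟩
    · obtain ⟨i, h1, h2⟩ := hD.adj v a ha
      exact ⟨⟨i, h1⟩, h2⟩
  adj := by
    rintro ⟨a, ha⟩ ⟨b, hb⟩ hab
    have hab' : Λ.Adj a b := hab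
    rcases ha with ha | ha
    · obtain ⟨i, h1, h2⟩ := hD.adj a b hab'
      have hi' : v ∈ D i := by rw [← ha]; exact h1
      exact ⟨⟨i, hi'⟩, h1, h2⟩
    · rcases hb with hb | hb
      · obtain ⟨i, h1, h2⟩ := hD.adj a b hab'
        have hi' : v ∈ D i := by rw [← hb]; exact h2
        exact ⟨⟨i, hi'⟩, h1, h2⟩
      · obtain ⟨i, h1, h2⟩ := hD.adj a b hab'
        obtain ⟨j, h3, h4⟩ := hD.adj v a ha
        obtain ⟨k, h5, h6⟩ := hD.adj v b hb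
        obtain ⟨l, h7, h8, h9⟩ := p18_tri hD hab'.ne hb.ne.symm ha.ne.symm h1 h2 h4 h3 h6 h5
        exact ⟨⟨l, h9⟩, h7, h8⟩
  top := by
    rintro ⟨i, hi⟩ ⟨j, hj⟩ hji
    exact ⟨hi, ⟨j, hj⟩, hji, hj⟩
  one := by
    rintro ⟨i, hi⟩ ⟨j, hj⟩ ⟨a, ha⟩ h1 h2 hji
    have hji' : j < i := hji
    exact Subtype.ext ((hD.one i j a h1 h2 hji').trans (hD.one i j v hi hj hji').symm)

theorem lCt [LinearOrder I] {D : I → Set W} {tp : I → W} (hD : BS Λ D tp) (v : W)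
    (a : st Λ v) : Ct (lD Λ D v) a ↔ a = lv Λ v ∧ Ct D v := by
  constructor
  · rintro ⟨⟨i, hi⟩, ⟨j, hj⟩, hij, h1, h2⟩
    have hij' : i ≠ j := fun h => hij (Subtype.ext h)
    exact ⟨Subtype.ext (p18_one hD hij' h1 h2 hi hj), i, j, hij', hi, hj⟩
  · rintro ⟨rfl, i, j, hij, hi, hj⟩
    exact ⟨⟨i, hi⟩, ⟨j, hj⟩, fun h => hij (congrArg Subtype.val h), hi, hj⟩

theorem lLf [LinearOrder I] {D : I → Set W} {tp : I → W} (hD : BS Λ D tp) {co : I → Prop}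
    (hL : Lf Λ D co) {v : W} (hv : Ct D v) :
    Lf (sG Λ (st Λ v)) (lD Λ D v) (fun i => co i.1) := by
  rintro ⟨i, hi⟩ hco
  obtain ⟨w, l, h1, h2, _, h4⟩ := hL i hco
  have hvw : v = w := by
    have h5 : v ∈ ({w, l} : Set W) := by rw [← h1]; exact hi
    rcases h5 with h5 | h5
    · exact h5
    · have h6 : v = l := h5
      rw [← h6] at h4
      exact absurd hv h4
  subst hvw
  refine ⟨lv Λ v, ⟨l, Or.inr h2⟩, ?_, h2, (lCt hD v _).2 ⟨rfl, hv⟩, fun h => ?_⟩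
  · ext a
    have h5 : a ∈ lD Λ D v ⟨i, hi⟩ ↔ a.1 = v ∨ a.1 = l := by
      show a.1 ∈ D i ↔ _
      rw [h1]
      exact Iff.rfl
    rw [h5]
    constructor
    · rintro (h6 | h6)
      · exact Or.inl (Subtype.ext h6)
      · exact Or.inr (Subtype.ext h6)
    · rintro (h6 | h6)
      · exact Or.inl (congrArg Subtype.val h6)
      · have h7 : a = ⟨l, Or.inr h2⟩ := h6
        exact Or.inr (congrArg Subtype.val h7)
  · have h5 := congrArg Subtype.val ((lCt hD v _).1 h).1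
    exact h2.ne h5.symm

theorem nB_loc (D : I → Set W) (v : W) : nB (lD Λ D v) (lv Λ v) = nB D v :=
  Nat.card_congr (Equiv.subtypeUnivEquiv (fun i : {i // v ∈ D i} => i.2))

private theorem p18_orb (ρ : RA Λ →* Equiv.Perm C) (v : W) (c1 : C) (S : Set (st Λ v)) {T : Set W}
    (hT : Subtype.val '' S = T) :
    Nonempty ({c : C // rep ρ (PP Λ T) c = c ∧ rep ρ (PP Λ (st Λ v)) c = c1} ≃
      {c : lC ρ v c1 // rep (lA ρ v c1) (PP (sG Λ (st Λ v)) S) c = c}) := by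
  subst hT
  have hle : PP Λ (Subtype.val '' S) ≤ PP Λ (st Λ v) := by
    apply pp_mono
    rintro _ ⟨a, _, rfl⟩
    exact a.2
  refine ⟨Equiv.ofBijective (fun c => ⟨rep (lA ρ v c1) (PP (sG Λ (st Λ v)) S) ⟨c.1, c.2.2⟩,
    rep_rep _ _ _⟩) ⟨?_, ?_⟩⟩
  · rintro ⟨c, h1, h2⟩ ⟨d, h3, h4⟩ h5
    have h6 := (lA_rep ρ v c1 S ⟨c, h2⟩ ⟨d, h4⟩).1 (congrArg Subtype.val h5)
    apply Subtype.ext
    show c = d
    have h7 : rep ρ (PP Λ (Subtype.val '' S)) c = rep ρ (PP Λ (Subtype.val '' S)) d := h6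
    rw [h1, h3] at h7
    exact h7
  · rintro ⟨⟨c, hc⟩, h1⟩
    have h2 : rep ρ (PP Λ (st Λ v)) (rep ρ (PP Λ (Subtype.val '' S)) c) = c1 := by
      rw [rep_mono hle, hc]
    refine ⟨⟨rep ρ (PP Λ (Subtype.val '' S)) c, rep_rep _ _ _, h2⟩, ?_⟩
    apply Subtype.ext
    show rep (lA ρ v c1) (PP (sG Λ (st Λ v)) S) ⟨rep ρ (PP Λ (Subtype.val '' S)) c, h2⟩ = ⟨c, hc⟩
    rw [← h1]
    have h3 := (lA_rep ρ v c1 S ⟨rep ρ (PP Λ (Subtype.val '' S)) c, h2⟩ ⟨c, hc⟩).2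
      (rep_rep _ _ _)
    rw [h3, h1]

private theorem p18_all (ρ : RA Λ →* Equiv.Perm C) (v : W) (c1 : C) (c d : lC ρ v c1) :
    rep (lA ρ v c1) (PP (sG Λ (st Λ v)) (st (sG Λ (st Λ v)) (lv Λ v))) c =
      rep (lA ρ v c1) (PP (sG Λ (st Λ v)) (st (sG Λ (st Λ v)) (lv Λ v))) d := by
  obtain ⟨x, hx⟩ := lA_trn ρ v c1 c d
  refine rep_eq ⟨x, ?_, hx⟩
  rw [lst]
  refine ra_ind (C := fun x => x ∈ PP (sG Λ (st Λ v)) Set.univ) (one_mem _)
    (fun a => gen_mem (Set.mem_univ a)) (fun _ _ h1 h2 => mul_mem h1 h2)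
    (fun _ h1 => inv_mem h1) x

theorem nC_loc [LinearOrder I] {ρ : RA Λ →* Equiv.Perm C} {D : I → Set W} {tp : I → W}
    (hD : BS Λ D tp) (p : PcN ρ D) (p0 : PcN (lA ρ p.1.1 p.1.2) (lD Λ D p.1.1)) :
    nC (lA ρ p.1.1 p.1.2) (lD Λ D p.1.1) p0 = nC ρ D p := by
  obtain ⟨⟨v, c1⟩, hp1, hp2⟩ := p
  obtain ⟨⟨a, d⟩, ha, hd⟩ := p0
  have ha' : a = lv Λ v := ((lCt hD v a).1 ha).1
  subst ha'
  obtain ⟨e⟩ := p18_orb ρ v c1 {lv Λ v} (T := {v}) (by rw [Set.image_singleton])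
  have h1 : Nat.card {c : C // rep ρ (PP Λ {v}) c = c ∧ rep ρ (PP Λ (st Λ v)) c = c1} =
      Nat.card {c : lC ρ v c1 // rep (lA ρ v c1) (PP (sG Λ (st Λ v)) {lv Λ v}) c = c} :=
    Nat.card_congr e
  have h2 : Nat.card {c : C // rep ρ (PP Λ (st Λ v)) c = c1 ∧ rep ρ (PP Λ {v}) c = c} =
      Nat.card {c : C // rep ρ (PP Λ {v}) c = c ∧ rep ρ (PP Λ (st Λ v)) c = c1} :=
    Nat.card_congr (Equiv.subtypeEquivRight fun c => and_comm)
  have h3 : Nat.card {c : lC ρ v c1 // rep (lA ρ v c1) (PP (sG Λ (st Λ v))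
      (st (sG Λ (st Λ v)) (lv Λ v))) c = d ∧
      rep (lA ρ v c1) (PP (sG Λ (st Λ v)) {lv Λ v}) c = c} =
      Nat.card {c : lC ρ v c1 // rep (lA ρ v c1) (PP (sG Λ (st Λ v)) {lv Λ v}) c = c} := by
    refine Nat.card_congr (Equiv.subtypeEquivRight fun c => ⟨fun h => h.2, fun h => ⟨?_, h⟩⟩)
    have h4 : rep (lA ρ v c1) (PP (sG Λ (st Λ v)) (st (sG Λ (st Λ v)) (lv Λ v))) d = d := hd
    rw [p18_all ρ v c1 c d, h4]
  exact h3.trans (h1.symm.trans h2.symm)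

private theorem p18_w1 (ρ : RA Λ →* Equiv.Perm C) (D : I → Set W) (co : I → Prop)
    (p : PcN ρ D) : Nonempty ((Σ i : {i : {i // p.1.1 ∈ D i} // co i.1},
      {c : C // rep ρ (PP Λ (D i.1.1 ∩ st Λ p.1.1)) c = c ∧
        rep ρ (PP Λ (st Λ p.1.1)) c = p.1.2}) ≃
      {w : WlN ρ D co // wpN ρ D co w = p}) := by
  obtain ⟨⟨v, c1⟩, hp1, hp2⟩ := p
  refine ⟨Equiv.ofBijective (fun x => ⟨⟨(x.1.1.1, v, x.2.1), x.1.2, x.1.1.2, hp1, x.2.2.1⟩,
    Subtype.ext (Prod.ext rfl x.2.2.2)⟩) ⟨?_, ?_⟩⟩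
  · rintro ⟨⟨⟨i, hi⟩, hi'⟩, ⟨c, hc⟩⟩ ⟨⟨⟨j, hj⟩, hj'⟩, ⟨d, hd⟩⟩ h
    have h1 := congrArg (fun w => w.1.1) h
    have h2 : (i, v, c) = (j, v, d) := h1
    have h3 : i = j := congrArg Prod.fst h2
    have h4 : c = d := congrArg (fun q => q.2.2) h2
    subst h3
    subst h4
    rfl
  · rintro ⟨⟨⟨i, a, c⟩, h1, h2, h3, h4⟩, hw⟩
    have h5 := congrArg Subtype.val hw
    have h6 : (a, rep ρ (PP Λ (st Λ a)) c) = (v, c1) := h5
    have h7 : a = v := congrArg Prod.fst h6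
    subst h7
    have h8 : rep ρ (PP Λ (st Λ a)) c = c1 := congrArg Prod.snd h6
    exact ⟨⟨⟨⟨i, h2⟩, h1⟩, ⟨c, h4, h8⟩⟩, rfl⟩

theorem nW_loc [LinearOrder I] {ρ : RA Λ →* Equiv.Perm C} {D : I → Set W} {tp : I → W}
    (hD : BS Λ D tp) (co : I → Prop) (p : PcN ρ D)
    (p0 : PcN (lA ρ p.1.1 p.1.2) (lD Λ D p.1.1)) :
    nW (lA ρ p.1.1 p.1.2) (lD Λ D p.1.1) (fun i => co i.1) p0 = nW ρ D co p := by
  obtain ⟨e1⟩ := p18_w1 ρ D co p
  obtain ⟨⟨v, c1⟩, hp1, hp2⟩ := p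
  obtain ⟨⟨a, d⟩, ha, hd⟩ := p0
  have ha' : a = lv Λ v := ((lCt hD v a).1 ha).1
  subst ha'
  have hd' : rep (lA ρ v c1) (PP (sG Λ (st Λ v)) (st (sG Λ (st Λ v)) (lv Λ v))) d = d := hd
  have he2 : ∀ i : {i // v ∈ D i}, Nonempty
      ({c : C // rep ρ (PP Λ (D i.1 ∩ st Λ v)) c = c ∧ rep ρ (PP Λ (st Λ v)) c = c1} ≃
      {c : lC ρ v c1 // rep (lA ρ v c1) (PP (sG Λ (st Λ v)) (lD Λ D v i)) c = c}) :=
    fun i => p18_orb ρ v c1 (lD Λ D v i) (lSet D v i)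
  let e2 := fun i => (he2 i).some
  have he3 : Nonempty ((Σ i : {i : {i // v ∈ D i} // co i.1},
      {c : lC ρ v c1 // rep (lA ρ v c1) (PP (sG Λ (st Λ v)) (lD Λ D v i.1)) c = c}) ≃
      {w : WlN (lA ρ v c1) (lD Λ D v) (fun i => co i.1) //
        wpN (lA ρ v c1) (lD Λ D v) (fun i => co i.1) w = ⟨(lv Λ v, d), ha, hd⟩}) := by
    have hset : ∀ i : {i // v ∈ D i}, lD Λ D v i ∩ st (sG Λ (st Λ v)) (lv Λ v) = lD Λ D v i := by
      intro i
      rw [lst, Set.inter_univ]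
    refine ⟨Equiv.ofBijective (fun x => ⟨⟨(x.1.1, lv Λ v, x.2.1), x.1.2, x.1.1.2, ha, ?_⟩,
      ?_⟩) ⟨?_, ?_⟩⟩
    · show rep (lA ρ v c1) (PP (sG Λ (st Λ v))
        (lD Λ D v x.1.1 ∩ st (sG Λ (st Λ v)) (lv Λ v))) x.2.1 = x.2.1
      rw [hset]
      exact x.2.2
    · refine Subtype.ext (Prod.ext rfl ?_)
      show rep (lA ρ v c1) (PP (sG Λ (st Λ v)) (st (sG Λ (st Λ v)) (lv Λ v))) x.2.1 = d
      rw [p18_all ρ v c1 x.2.1 d, hd']
    · rintro ⟨⟨i, hi'⟩, ⟨c, hc⟩⟩ ⟨⟨j, hj'⟩, ⟨d2, hd2⟩⟩ h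
      have h1 := congrArg (fun w => w.1.1) h
      have h2 : (i, lv Λ v, c) = (j, lv Λ v, d2) := h1
      have h3 : i = j := congrArg Prod.fst h2
      have h4 : c = d2 := congrArg (fun q => q.2.2) h2
      subst h3
      subst h4
      rfl
    · rintro ⟨⟨⟨i, a, c⟩, h1, h2, h3, h4⟩, hw⟩
      have h7 : a = lv Λ v := ((lCt hD v a).1 h3).1
      subst h7
      have h4' : rep (lA ρ v c1) (PP (sG Λ (st Λ v))
        (lD Λ D v i ∩ st (sG Λ (st Λ v)) (lv Λ v))) c = c := h4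
      rw [hset] at h4'
      exact ⟨⟨⟨i, h1⟩, ⟨c, h4'⟩⟩, rfl⟩
  obtain ⟨e3⟩ := he3
  have h1 := Nat.card_congr ((Equiv.sigmaCongrRight
    (fun i : {i : {i // v ∈ D i} // co i.1} => e2 i.1)).trans e3)
  have h2 := Nat.card_congr e1
  exact h1.symm.trans h2

end

end RaagBP
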