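import Pool.Agent.Lib.MP_32d917_al_bl.P04

/-!
# P19 (35 min): homomorphisms to the group with two elements

`hom_count`: `Nat.card (D.Lp → Multiplicative (ZMod 2)) = 2 ^ Nat.card D.Lp` (`Nat.card_fun`, `Nat.card_zmod`) and the map `F ↦ (l ↦ F (S.u l))` is a bijection.
Injective: let `F`, `F'` have the same values. Then `push F S` and `push F' S` are equivalent by the gauges `g = 1` and `h o = (F' (S.t w))⁻¹ * F (S.t w)` if `o = D.wo w` (`w` is unique, `hw`) and `1` if there is no such `w` (`classical`); `b` and `z` are trivial in both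
systems, the target is commutative. So `F' x = h * F x * h⁻¹ = F x`.
Surjective: given `u`, let `B : Sy D Z2` be the system with `b = 1`, `z = 1`, `t = 1`, `u = u`. There is `F` with `push F S ~ B`; conjugates of `1` are `1` and the target is commutative, so `F (S.b o k) = 1`, `F (S.z p) = 1`, `F (S.u l) = u l`.
`ker_b`: let `k = y * l * y⁻¹ ∈ stb ρ c0`, `l ∈ PP (D i)`, `co i`; `c1 = rm ρ c0 y`, `a = cn ρ (PP (D i)) c1`, `o = (i, rep c1)`, `k' = a * l * a⁻¹ ∈ stb (rep c1) ⊓ PP (D i)`; `yo` for `o` from `hb`: `y * a⁻¹ * yo⁻¹ = s ∈ stb ρ c0` and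
`k = s * (S.b o k') * s⁻¹`. Conversely `S.b o k = yo * k * yo⁻¹` is of this form.
-/

set_option autoImplicit false

namespace RaagBP

open RaagIso

section

theorem hom_count {A : Type} [Group A] (D : CD A) (hw : Function.Injective D.wo) [Finite D.Lp]
    {G : Type} [Group G] (S : Sy D G) (hS : IsU (SyF D) G S) :
    Nat.card {F : G →* Multiplicative (ZMod 2) // (∀ o k, F (S.b o k) = 1) ∧
      ∀ p, F (S.z p) = 1} = 2 ^ Nat.card D.Lp := by
  classical
  have h2 : Nat.card (D.Lp → Multiplicative (ZMod 2)) = 2 ^ Nat.card D.Lp := by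
    rw [Nat.card_fun]
    congr 1
    exact Nat.card_zmod 2
  rw [← h2]
  refine Nat.card_congr (Equiv.ofBijective (fun F l => F.1 (S.u l)) ⟨?_, ?_⟩)
  · rintro ⟨F, hF1, hF2⟩ ⟨F', hF1', hF2'⟩ hFF
    have hu : ∀ l, F (S.u l) = F' (S.u l) := fun l => congrFun hFF l
    apply Subtype.ext
    show F = F'
    have hR : (SyF D).R ((SyF D).psh F S) ((SyF D).psh F' S) := by
      refine ⟨fun o => if hx : ∃ w, D.wo w = o then (F' (S.t hx.choose))⁻¹ * F (S.t hx.choose) else 1,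
        fun _ => 1, fun o x => ?_, fun p => ?_, fun w => ?_, fun l => ?_⟩
      · show F' (S.b o x) = _ * F (S.b o x) * _
        rw [hF1, hF1']
        simp
      · show F' (S.z p) = 1 * F (S.z p) * 1⁻¹
        rw [hF2, hF2']
        simp
      · have hx : ∃ w', D.wo w' = D.wo w := ⟨w, rfl⟩
        have hw' : hx.choose = w := hw hx.choose_spec
        show F' (S.t w) = 1 * F (S.t w) *
          (if hx : ∃ w', D.wo w' = D.wo w then (F' (S.t hx.choose))⁻¹ * F (S.t hx.choose) else 1)⁻¹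
        rw [dif_pos hx, hw', one_mul, mul_inv_rev, inv_inv, mul_inv_cancel_left]
      · show F' (S.u l) = 1 * F (S.u l) * 1⁻¹
        rw [hu]
        simp
    obtain ⟨g, hg⟩ := hS.2 _ F F' hR
    ext x
    rw [hg x, mul_comm g, mul_assoc, mul_inv_cancel, mul_one]
  · intro u
    let B : Sy D (Multiplicative (ZMod 2)) :=
      { b := fun _ => 1
        z := fun _ => 1
        t := fun _ => 1
        u := u
        ht := fun w => by simp
        hu := fun l => mul_comm _ _ }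
    obtain ⟨F, h, g, h1, h3, -, h5⟩ := hS.1 _ B
    refine ⟨⟨F, fun o k => ?_, fun p => ?_⟩, ?_⟩
    · have h6 : (1 : Multiplicative (ZMod 2)) = h o * F (S.b o k) * (h o)⁻¹ := h1 o k
      have h7 : h o * F (S.b o k) * (h o)⁻¹ = F (S.b o k) := by
        rw [mul_comm (h o), mul_assoc, mul_inv_cancel, mul_one]
      rw [h7] at h6
      exact h6.symm
    · have h6 : (1 : Multiplicative (ZMod 2)) = g p * F (S.z p) * (g p)⁻¹ := h3 p
      have h7 : g p * F (S.z p) * (g p)⁻¹ = F (S.z p) := by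
        rw [mul_comm (g p), mul_assoc, mul_inv_cancel, mul_one]
      rw [h7] at h6
      exact h6.symm
    · funext l
      have h6 : u l = g (D.lp l) * F (S.u l) * (g (D.lp l))⁻¹ := h5 l
      show F (S.u l) = u l
      rw [h6, mul_comm (g (D.lp l)), mul_assoc, mul_inv_cancel, mul_one]

variable {W C I : Type} {Λ : SimpleGraph W} [Finite C]

theorem ker_b {ρ : RA Λ →* Equiv.Perm C} {D : I → Set W} {co : I → Prop} {c0 : C} {Lp : Type}
    {lp : Lp → PcN ρ D} (S : Sy (cdN ρ D co Lp lp) (stb ρ c0))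
    (hb : ∀ o : (cdN ρ D co Lp lp).Ob, ∃ y, rm ρ c0 y = o.1.2 ∧
      ∀ k : (cdN ρ D co Lp lp).K o, (S.b o k : RA Λ) = y * (k : RA Λ) * y⁻¹)
    {B : Type} [Group B] (F : stb ρ c0 →* B) :
    (∀ o k, F (S.b o k) = 1) ↔ ∀ i, co i → ∀ k : stb ρ c0,
      (∃ y, ∃ l ∈ PP Λ (D i), (k : RA Λ) = y * l * y⁻¹) → F k = 1 := by
  constructor
  · rintro hF i hi k ⟨y, l, hl, hk⟩
    have hk0 : rm ρ c0 (y * l * y⁻¹) = c0 := by
      rw [← hk]
      exact k.2
    set c1 := rm ρ c0 y with hc1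
    set a := cn ρ (PP Λ (D i)) c1 with ha
    have ham : a ∈ PP Λ (D i) := cn_mem _ _ _
    let o : (cdN ρ D co Lp lp).Ob := ⟨(i, rep ρ (PP Λ (D i)) c1), hi, rep_rep ρ _ _⟩
    have hl1 : rm ρ c1 l = c1 := by
      have h1 : rm ρ (rm ρ c0 (y * l)) y⁻¹ = rm ρ c1 y⁻¹ := by
        rw [← rm_mul, hk0, hc1, b01_inv_left]
      have h2 := congrArg (fun x => rm ρ x y) h1
      simp only [b01_inv_right] at h2
      rw [rm_mul] at h2
      exact h2
    have hk'm : a * l * a⁻¹ ∈ (cdN ρ D co Lp lp).K o := by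
      refine Subgroup.mem_inf.2 ⟨?_, mul_mem (mul_mem ham hl) (inv_mem ham)⟩
      show rm ρ (rep ρ (PP Λ (D i)) c1) (a * l * a⁻¹) = rep ρ (PP Λ (D i)) c1
      rw [rm_mul, rm_mul, ha, cn_rm, hl1, cn_inv]
    obtain ⟨yo, hyo, hyo2⟩ := hb o
    have hyo1 : rm ρ c0 yo = rep ρ (PP Λ (D i)) c1 := hyo
    have hsm : y * a⁻¹ * yo⁻¹ ∈ stb ρ c0 := by
      show rm ρ c0 (y * a⁻¹ * yo⁻¹) = c0
      rw [rm_mul, rm_mul]
      have h1 : rm ρ (rm ρ c0 y) a⁻¹ = rep ρ (PP Λ (D i)) c1 := cn_inv _ _ _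
      rw [h1, ← hyo1, b01_inv_left]
    have hkk : k = (⟨y * a⁻¹ * yo⁻¹, hsm⟩ : stb ρ c0) * S.b o ⟨a * l * a⁻¹, hk'm⟩ *
        (⟨y * a⁻¹ * yo⁻¹, hsm⟩ : stb ρ c0)⁻¹ := by
      apply Subtype.ext
      rw [Subgroup.coe_mul, Subgroup.coe_mul, Subgroup.coe_inv, hyo2, hk]
      show y * l * y⁻¹ = y * a⁻¹ * yo⁻¹ * (yo * (a * l * a⁻¹) * yo⁻¹) * (y * a⁻¹ * yo⁻¹)⁻¹
      group
    rw [hkk, map_mul, map_mul, hF, mul_one, ← map_mul, mul_inv_cancel, map_one]
  · intro hF o k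
    obtain ⟨yo, -, hyo2⟩ := hb o
    exact hF o.1.1 o.2.1 (S.b o k) ⟨yo, k, (Subgroup.mem_inf.1 k.2).2, hyo2 k⟩

end

end RaagBP
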