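import Pool.Agent.Lib.MP_32d917_al_bl.P16
import Pool.Agent.Lib.MP_32d917_al_bl.P18
import Pool.Agent.Lib.MP_32d917_al_bl.P19

/-!
# P20: the number of loops of a piece is determined by the stabiliser of the piece
-/

set_option autoImplicit false

namespace RaagBP

open RaagIso

section

variable {W C I : Type} {Λ : SimpleGraph W} [Finite C]

theorem pp_univ (x : RA Λ) : x ∈ PP Λ Set.univ := by
  induction x using ra_ind with
  | h1 => exact one_mem _
  | hg v => exact gen_mem (Set.mem_univ v)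
  | hm x y hx hy => exact mul_mem hx hy
  | hi x hx => exact inv_mem hx

theorem pb4 [Finite W] [LinearOrder I] [Finite I] {ρ : RA Λ →* Equiv.Perm C}
    {D : I → Set W} {tp : I → W} (hD : BS Λ D tp) {co : I → Prop}
    (hL : Lf Λ D co) (p : PcN ρ D) :
    ∃ m : ℕ, m + nW ρ D co p + nC ρ D p = nB D p.1.1 * nC ρ D p + 1 ∧
      Nat.card {F : ↥(stb ρ p.1.2 ⊓ PP Λ (st Λ p.1.1)) →* Multiplicative (ZMod 2) //
        (∀ k : ↥(stb ρ p.1.2 ⊓ PP Λ (st Λ p.1.1)),
          (k : RA Λ) = gen p.1.1 ^ per ρ p.1.1 p.1.2 → F k = 1) ∧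
        ∀ i, co i → p.1.1 ∈ D i → ∀ k : ↥(stb ρ p.1.2 ⊓ PP Λ (st Λ p.1.1)),
          (∃ y ∈ PP Λ (st Λ p.1.1), ∃ l ∈ PP Λ (D i ∩ st Λ p.1.1), (k : RA Λ) = y * l * y⁻¹) →
          F k = 1} = 2 ^ m := by
  classical
  obtain ⟨⟨v, c1⟩, hp1, hp2⟩ := p
  have hv : Ct D v := hp1
  have hc1 : rep ρ (PP Λ (st Λ v)) c1 = c1 := hp2
  set p : PcN ρ D := ⟨(v, c1), hp1, hp2⟩ with hp
  let c0 : lC ρ v c1 := ⟨c1, hc1⟩
  have : Nonempty {i // v ∈ D i} := by
    obtain ⟨i, j, hij, h1, h2⟩ := hv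
    exact ⟨⟨i, h1⟩⟩
  obtain ⟨Lp, hLp, lp, S, hS, hb, hz, hc⟩ := pb1 (lA_trn ρ v c1) (lBS hD v) (lLf hD hL hv) c0
  have hst : st (sG Λ (st Λ v)) (lv Λ v) = Set.univ := lst Λ v
  have huq : ∀ q q' : PcN (lA ρ v c1) (lD Λ D v), q = q' := by
    rintro ⟨⟨a, c⟩, h1, h2⟩ ⟨⟨a', c'⟩, h1', h2'⟩
    have e1 : a = lv Λ v := ((lCt hD v a).1 h1).1
    have e1' : a' = lv Λ v := ((lCt hD v a').1 h1').1
    subst e1 e1'
    have e2 : c = c' := by
      obtain ⟨x, hx⟩ := lA_trn ρ v c1 c c'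
      have h3 : rep (lA ρ v c1) (PP (sG Λ (st Λ v)) (st (sG Λ (st Λ v)) (lv Λ v))) c =
          rep (lA ρ v c1) (PP (sG Λ (st Λ v)) (st (sG Λ (st Λ v)) (lv Λ v))) c' :=
        rep_iff.2 ⟨x, by rw [hst]; exact pp_univ x, hx⟩
      have h4 : rep (lA ρ v c1) (PP (sG Λ (st Λ v)) (st (sG Λ (st Λ v)) (lv Λ v))) c = c := h2
      have h5 : rep (lA ρ v c1) (PP (sG Λ (st Λ v)) (st (sG Λ (st Λ v)) (lv Λ v))) c' = c' := h2'
      rw [← h4, h3, h5]
    subst e2
    rfl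
  let p0 : PcN (lA ρ v c1) (lD Λ D v) :=
    ⟨(lv Λ v, rep (lA ρ v c1) (PP (sG Λ (st Λ v)) (st (sG Λ (st Λ v)) (lv Λ v))) c0),
      (lCt hD v _).2 ⟨rfl, hv⟩, rep_rep _ _ _⟩
  have hcard : Nat.card {l // lp l = p0} = Nat.card Lp :=
    Nat.card_congr (Equiv.subtypeUnivEquiv (fun l => huq _ _))
  refine ⟨Nat.card Lp, ?_, ?_⟩
  · have h1 := hc p0
    rw [hcard] at h1
    have h2 := nC_loc hD p p0
    have h3 := nW_loc hD co p p0
    have h4 := nB_loc (Λ := Λ) D v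
    have key : ∀ a b b' c c' d d' : ℕ, b' = b → c' = c → d' = d → a + b' + c' = d' * c' + 1 →
        a + b + c = d * c + 1 := by
      intros; subst_vars; assumption
    exact key _ _ _ _ _ _ _ h3 h2 h4 h1
  · have hw : Function.Injective (cdN (lA ρ v c1) (lD Λ D v) (fun i => co i.1) Lp lp).wo := by
      rintro ⟨⟨i, a, c⟩, h1, h2, h3, h4⟩ ⟨⟨i', a', c'⟩, h1', h2', h3', h4'⟩ h
      have e1 : a = lv Λ v := ((lCt hD v a).1 h3).1
      have e1' : a' = lv Λ v := ((lCt hD v a').1 h3').1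
      subst e1 e1'
      have h4b : rep (lA ρ v c1) (PP (sG Λ (st Λ v)) (lD Λ D v i)) c = c := by
        have h5 : rep (lA ρ v c1) (PP (sG Λ (st Λ v)) (lD Λ D v i ∩
          st (sG Λ (st Λ v)) (lv Λ v))) c = c := h4
        rwa [hst, Set.inter_univ] at h5
      have h4b' : rep (lA ρ v c1) (PP (sG Λ (st Λ v)) (lD Λ D v i')) c' = c' := by
        have h5 : rep (lA ρ v c1) (PP (sG Λ (st Λ v)) (lD Λ D v i' ∩
          st (sG Λ (st Λ v)) (lv Λ v))) c' = c' := h4'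
        rwa [hst, Set.inter_univ] at h5
      have h6 : (i, rep (lA ρ v c1) (PP (sG Λ (st Λ v)) (lD Λ D v i)) c) =
          (i', rep (lA ρ v c1) (PP (sG Λ (st Λ v)) (lD Λ D v i')) c') :=
        congrArg (fun x => x.1) h
      rw [h4b, h4b'] at h6
      obtain ⟨h7, h8⟩ := Prod.mk.inj h6
      subst h7 h8
      rfl
    have hfin : Finite (cdN (lA ρ v c1) (lD Λ D v) (fun i => co i.1) Lp lp).Lp := hLp
    have hH := hom_count (cdN (lA ρ v c1) (lD Λ D v) (fun i => co i.1) Lp lp) hw S hS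
    obtain ⟨e, he⟩ := lA_iso ρ v c1 c0
    have hval : ∀ q, ((e (S.z q) : ↥(stb ρ c0.1 ⊓ PP Λ (st Λ v))) : RA Λ) =
        gen v ^ per ρ v c1 := by
      intro q
      obtain ⟨y, hy1, hy2⟩ := hz q
      have hq : q.1.1 = lv Λ v := ((lCt hD v q.1.1).1 q.2.1).1
      have h3 : sI Λ (st Λ v) y ∈ PP Λ (st Λ v) := sI_range.2 ⟨y, rfl⟩
      have h4 : Commute (gen v) (sI Λ (st Λ v) y) := st_comm h3
      have h5 : per (lA ρ v c1) q.1.1 q.1.2 = per ρ v c1 := by
        rw [hq, lA_per, ← hy1, lA_rm]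
        exact per_rm h4.eq c1
      rw [he, hy2, h5, hq, map_mul, map_mul, map_inv, map_pow, sI_gen]
      rw [← (h4.pow_left _).eq, mul_assoc, mul_inv_cancel, mul_one]
    let E : (↥(stb ρ c1 ⊓ PP Λ (st Λ v)) →* Multiplicative (ZMod 2)) ≃
        (↥(stb (lA ρ v c1) c0) →* Multiplicative (ZMod 2)) :=
      { toFun := fun F => F.comp e.toMonoidHom
        invFun := fun F => F.comp e.symm.toMonoidHom
        left_inv := by
          intro F; ext k
          show F (e (e.symm k)) = F k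
          rw [e.apply_symm_apply]
        right_inv := by
          intro F; ext k
          show F (e.symm (e k)) = F k
          rw [e.symm_apply_apply] }
    refine Eq.trans (Nat.card_congr (Equiv.subtypeEquiv E ?_)) hH
    intro F
    rw [ker_b S hb (E F)]
    constructor
    · rintro ⟨hA, hB⟩
      refine ⟨?_, ?_⟩
      · rintro i hi k0 ⟨y, l, hl, hk⟩
        refine hB i.1 hi i.2 (e k0) ⟨sI Λ (st Λ v) y, sI_range.2 ⟨y, rfl⟩, sI Λ (st Λ v) l, ?_, ?_⟩
        · rw [← lSet]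
          exact (sI_mem _ _).2 hl
        · rw [he, hk, map_mul, map_mul, map_inv]
      · intro q
        exact hA _ (hval q)
    · rintro ⟨hB, hA⟩
      refine ⟨?_, ?_⟩
      · intro k hk
        have h1 : e (S.z p0) = k := Subtype.ext ((hval p0).trans hk.symm)
        rw [← h1]
        exact hA p0
      · rintro i hi hvi k ⟨y, hy, l, hl, hk⟩
        obtain ⟨y0, hy0⟩ := sI_range.1 hy
        obtain ⟨l0, hl0⟩ := sI_range.1 (pp_mono Set.inter_subset_right hl)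
        have h1 : l0 ∈ PP (sG Λ (st Λ v)) (lD Λ D v ⟨i, hvi⟩) := by
          rw [← sI_mem, lSet, hl0]
          exact hl
        have h2 : ((e.symm k : ↥(stb (lA ρ v c1) c0)) : RA (sG Λ (st Λ v))) =
            y0 * l0 * y0⁻¹ := by
          apply sI_inj Λ (st Λ v)
          rw [← he, e.apply_symm_apply, map_mul, map_mul, map_inv, hy0, hl0]
          exact hk
        have h3 := hB ⟨i, hvi⟩ hi (e.symm k) ⟨y0, l0, h1, h2⟩
        have h4 : (E F) (e.symm k) = F (e (e.symm k)) := rfl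
        rw [h4, e.apply_symm_apply] at h3
        exact h3

end

end RaagBP
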