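import Pool.Agent.Lib.MP_32d917_al_bl.M14
import Pool.Agent.Lib.MP_32d917_al_bl.M06
import Pool.Agent.Lib.MP_32d917_al_bl.P20

/-!
# M07: the condition on the ranks (60 min)

Let `v = π a` be cut, `d = rep ρ (PP Λ (st Λ a)) c`, `p = (a, d)` a piece (`ct_iff`), `ep` from `ep_ex`, `p' = ep p`. `π' p'.1.1 = (σ v d).1 = (σ v c).1 = π' a'` (`hM.port`, `Ob (st v) c d` by `rep_orb`, `pp_st`), it is cut (`hM.pcut`), so `p'.1.1 = a'` (`cut_fib`). `p'.1.2 = rep ρ' (PP Λ' (st Λ' a')) (σ v d).2` is in the orbit of `(σ v d).2`, so `hh` gives `nH .. a d = nH .. a' p'.1.2`. `pb4` (`hD` from `bs_ex`, `hL` from `lf_of`,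
`nH` is the cardinality in `pb4`) for `p` and `p'`: `2 ^ m1 = 2 ^ m2`, `m1 = m2`; `nw_eq`: so `nB * nC + nC' = nB' * nC' + nC` (`nC = nC ρ D p`, `nC' = nC ρ' D' p'`), `nB, nB' ≥ 1`: `(nB - 1) * nC = (nB' - 1) * nC'`. `nc_npt`: `nPt v d = nC * pr ρ a d`, and `nPt v c = nPt v d`, `pr ρ a c = pr ρ a d` (same orbit of the star: `ob_trans`, `pr_comm`, `cen_sng`); the same for `p'.1.2` and
`(σ v c).2`. `nb_nbl`. Multiply.
-/

set_option autoImplicit false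

namespace RaagBL

open RaagIso RaagGP RaagBP

variable {V W V' W' C C' : Type} {Γ : SimpleGraph V} {Λ : SimpleGraph W} {π : W → V}
  {Γ' : SimpleGraph V'} {Λ' : SimpleGraph W'} {π' : W' → V'} {ρ : RA Λ →* Equiv.Perm C}
  {ρ' : RA Λ' →* Equiv.Perm C'} {m m' : ℕ} {B : Fin m → Set V} {B' : Fin m' → Set V'}
  {β : Fin m → C → Fin m'} {F : Fin m → C → C'} {τ : Fin m → C → V → V'}
  {Φ : Fin m → C → RA Λ → RA Λ'} {σ : V → C → V' × C'} {ε : V → C → ℤˣ}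

private theorem m07_npt {Γ : SimpleGraph V} {ρ : RA Λ →* Equiv.Perm C} {v : V} {c d : C}
    (h : Ob π ρ (st Γ v) c d) : nPt Γ π ρ v c = nPt Γ π ρ v d := by
  unfold nPt
  refine Nat.card_congr (Equiv.subtypeEquivRight (fun e => ?_))
  exact ⟨fun h1 => ob_trans (ob_symm h) h1, fun h1 => ob_trans h h1⟩

private theorem m07_pr (hX : Ctx Γ Λ π B) {a : W} (hv : Cut B (π a)) {c d : C}
    (h : Ob π ρ (st Γ (π a)) c d) : pr ρ a c = pr ρ a d := by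
  obtain ⟨g, hg, rfl⟩ := h
  have h1 : ∀ b, π b = π a → b = a := fun b hb => hX.sng (π a) (Or.inl hv) b a hb rfl
  exact (pr_comm (cen_sng hX.bu rfl h1 hg) c).symm

private theorem m07_rep (hX : Ctx Γ Λ π B) {a : W} (hv : Cut B (π a)) (c : C) :
    Ob π ρ (st Γ (π a)) c (rep ρ (PP Λ (st Λ a)) c) := by
  have h1 : ∀ b, π b = π a → b = a := fun b hb => hX.sng (π a) (Or.inl hv) b a hb rfl
  rw [pp_st hX.bu h1]
  exact rep_iff.1 (rep_rep _ _ _).symm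

private theorem m07_nbl (hX : Ctx Γ Λ π B) (v : V) : 1 ≤ nBl B v := by
  unfold nBl
  obtain ⟨i, hi⟩ := hX.glu.cov v
  have : Nonempty {i // v ∈ B i} := ⟨⟨i, hi⟩⟩
  exact Nat.card_pos

private theorem m07_num {m1 m2 w x y b b' : ℕ} (h : 2 ^ m1 = 2 ^ m2) (hb : 1 ≤ b) (hb' : 1 ≤ b')
    (h1 : m1 + w + x = b * x + 1) (h2 : m2 + w + y = b' * y + 1) :
    x * (b - 1) = y * (b' - 1) := by
  have h3 : m1 = m2 := Nat.pow_right_injective le_rfl h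
  subst h3
  obtain ⟨b, rfl⟩ : ∃ k, b = k + 1 := ⟨b - 1, by omega⟩
  obtain ⟨b', rfl⟩ : ∃ k, b' = k + 1 := ⟨b' - 1, by omega⟩
  rw [Nat.add_sub_cancel, Nat.add_sub_cancel]
  have e1 : (b + 1) * x = b * x + x := by ring
  have e2 : (b' + 1) * y = b' * y + y := by ring
  rw [e1] at h1
  rw [e2] at h2
  rw [mul_comm x, mul_comm y]
  omega

theorem rank_of_hom [Finite W] [Finite W'] [Finite C] [Finite C'] (hX : Ctx Γ Λ π B)
    (hX' : Ctx Γ' Λ' π' B') (hM : Mch0 Γ Γ' π π' B B' ρ ρ' β F τ Φ σ ε)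
    (hh : ∀ a a' c c', Cut B (π a) → π' a' = (σ (π a) c).1 →
      Ob π' ρ' (st Γ' (π' a')) (σ (π a) c).2 c' →
      nH ρ (fun i => π ⁻¹' B i) (NB Γ B) a c =
        nH ρ' (fun i => π' ⁻¹' B' i) (NB Γ' B') a' c') :
    ∀ v c a a', Cut B v → π a = v → π' a' = (σ v c).1 →
      nPt Γ π ρ v c * pr ρ' a' (σ v c).2 * (nBl B v - 1) =
        nPt Γ' π' ρ' (σ v c).1 (σ v c).2 * pr ρ a c * (nBl B' (σ v c).1 - 1) := by
  intro v c a a' hv ha ha'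
  subst ha
  obtain ⟨ep, hep⟩ := ep_ex hX hX' hM
  obtain ⟨d, hd⟩ : ∃ d, d = rep ρ (PP Λ (st Λ a)) c := ⟨_, rfl⟩
  have hcd : Ob π ρ (st Γ (π a)) c d := by
    rw [hd]
    exact m07_rep hX hv c
  have hdd : rep ρ (PP Λ (st Λ a)) d = d := by
    rw [hd]
    exact rep_rep _ _ _
  obtain ⟨p, hp1, hp2⟩ : ∃ p : PcN ρ (fun i => π ⁻¹' B i), p.1.1 = a ∧ p.1.2 = d :=
    ⟨⟨(a, d), (ct_iff a).2 hv, hdd⟩, rfl, rfl⟩
  obtain ⟨h1, h2⟩ := hep p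
  rw [hp1, hp2] at h1 h2
  obtain ⟨h3, h4⟩ := hM.port (π a) c d hv hcd
  have hc' : Cut B' (π' a') := by
    rw [ha']
    exact hM.pcut _ _ hv
  have h5 : (ep p).1.1 = a' := by
    refine hX'.sng (π' a') (Or.inl hc') _ _ ?_ rfl
    rw [h1, h3, ha']
  rw [h5] at h2
  obtain ⟨c', hc2⟩ : ∃ c', c' = (ep p).1.2 := ⟨_, rfl⟩
  have h6 : Ob π' ρ' (st Γ' (π' a')) (σ (π a) d).2 c' := by
    rw [hc2, h2]
    exact m07_rep hX' hc' _
  rw [← ha'] at h4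
  have h7 : Ob π' ρ' (st Γ' (π' a')) (σ (π a) c).2 c' := ob_trans h4 h6
  have h8 := hh a a' d c' hv (by rw [h3, ha']) h6
  obtain ⟨tp, htp⟩ := bs_ex hX
  obtain ⟨tp', htp'⟩ := bs_ex hX'
  obtain ⟨m1, h9, h10⟩ := pb4 (ρ := ρ) htp (lf_of hX) p
  obtain ⟨m2, h11, h12⟩ := pb4 (ρ := ρ') htp' (lf_of hX') (ep p)
  have h13 : nH ρ (fun i => π ⁻¹' B i) (NB Γ B) a d = 2 ^ m1 := by
    rw [← h10, ← hp1, ← hp2]
    rfl
  have h14 : nH ρ' (fun i => π' ⁻¹' B' i) (NB Γ' B') a' c' = 2 ^ m2 := by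
    rw [← h12, hc2, ← h5]
    rfl
  rw [← nw_eq hX hX' hM hep p] at h11
  rw [hp1, nb_nbl] at h9
  rw [h5, nb_nbl] at h11
  have h15 := m07_num (h13.symm.trans (h8.trans h14)) (m07_nbl hX (π a)) (m07_nbl hX' (π' a'))
    h9 h11
  have h16 := nc_npt hX p
  have h17 := nc_npt hX' (ep p)
  rw [hp1, hp2] at h16
  rw [h5, ← hc2] at h17
  rw [← ha', m07_npt hcd, m07_npt h7, h16, h17, m07_pr hX hv hcd, m07_pr hX' hc' h7]
  calc nC ρ (fun i => π ⁻¹' B i) p * pr ρ a d * pr ρ' a' c' * (nBl B (π a) - 1)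
      = (nC ρ (fun i => π ⁻¹' B i) p * (nBl B (π a) - 1)) * (pr ρ a d * pr ρ' a' c') := by ring
    _ = (nC ρ' (fun i => π' ⁻¹' B' i) (ep p) * (nBl B' (π' a') - 1)) *
        (pr ρ a d * pr ρ' a' c') := by rw [h15]
    _ = nC ρ' (fun i => π' ⁻¹' B' i) (ep p) * pr ρ' a' c' * pr ρ a d *
        (nBl B' (π' a') - 1) := by ring

end RaagBL
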