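import Pool.Agent.Lib.MP_32d917_al_bl.M02
import Pool.Agent.Lib.MP_32d917_al_bl.M03
import Pool.Agent.Lib.MP_32d917_al_bl.M04
import Pool.Agent.Lib.MP_32d917_al_bl.M07

/-!
# M08: isomorphic stabilisers have a matching
-/

set_option autoImplicit false

namespace RaagBL

open RaagIso RaagGP RaagBP

variable {V W V' W' C C' : Type} {Γ : SimpleGraph V} {Λ : SimpleGraph W} {π : W → V}
  {Γ' : SimpleGraph V'} {Λ' : SimpleGraph W'} {π' : W' → V'} {ρ : RA Λ →* Equiv.Perm C}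
  {ρ' : RA Λ' →* Equiv.Perm C'} {m m' : ℕ} {B : Fin m → Set V} {B' : Fin m' → Set V'}

theorem mch0_of_cho [Finite V] [Finite V'] [Finite C] [Finite C'] {c0 : C} {c0' : C'}
    {φ : stb ρ c0 ≃* stb ρ' c0'} {Φ : RA Λ × V → RA Λ' × V'} {Ψ : RA Λ' × V' → RA Λ × V}
    {X : C → RA Λ} {X' : C' → RA Λ'} {β : Fin m → C → Fin m'} {Y : Fin m → C → RA Λ'}
    {τ : Fin m → C → V → V'} {ε : V → C → ℤˣ}
    (H : Cho Γ Γ' π π' B B' ρ ρ' c0 c0' φ Φ Ψ X X' β Y τ ε) :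
    Mch0 Γ Γ' π π' B B' ρ ρ' β (fun i c => rm ρ' c0' (Y i c)) τ
      (fun i c l => cPhi φ (X c) (Y i c) l)
      (fun v c => ((Φ (X c, v)).2, rm ρ' c0' (Φ (X c, v)).1)) ε where
  nb := H.nb
  rig := H.rig
  tbij i c hi := (H.ch i c hi).bij
  tadj i c hi := (H.ch i c hi).adj
  tcut i c hi v hv := cut_iff H.ctx H.ctx' H.ind.emp hi (H.nb i c hi) (H.ch i c hi) hv
  beta i c d hi h := (m_orb H hi h).1
  orb i c d hi h := (m_orb H hi h).2
  orbi i j c d hi hj hb h := m_orbi H hi hj hb h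
  orbs i' c' hi' := m_orbs H hi' c'
  wtau i c d v hi hv _ h := (m_wal H hi hv h).1
  wal i c d v hi hv _ h := (m_wal H hi hv h).2
  wali i c d v w hi hv hw _ _ hcd ht h := m_wali H hi hv hw hcd ht h
  wals i' c' v' hi' hv' _ := m_wals H hi' c' hv'
  map i c hi g hg := m_map H hi hg
  mul i c _ g hg h hh := m_mul H hg hh
  inj i c _ g hg h hh he := m_inj H hg hh he
  surj i c hi g' hg' := m_surj H hi hg'
  con i c d hi g hg hd := m_con H hi hg hd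
  sgn i c v a a' hi hv hc ha ha' := m_sgn H hi hv hc ha ha'
  pcut v c hv := (cut_phi H.ctx H.ctx' H.ind.emp (cut_nl H.ctx.glu hv)).1 hv
  port v c d hv h := m_port H hv h
  pori v w c d hv hw h ho := m_pori H hv hw h ho
  pors v' c' hv' := m_pors H hv' c'
  pcom i c v hi hv _ := m_pcom H hi c hv
  peps v c d hv h := m_peps H hv h

theorem mch_of_iso [Finite V] [Finite V'] [Finite W] [Finite W'] [Finite C] [Finite C']
    (hX : Ctx Γ Λ π B) (hX' : Ctx Γ' Λ' π' B') (ht : Trn ρ) (ht' : Trn ρ') {c0 : C} {c0' : C'}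
    (φ : stb ρ c0 ≃* stb ρ' c0') :
    ∃ (β : Fin m → C → Fin m') (F : Fin m → C → C') (τ : Fin m → C → V → V')
      (Φ : Fin m → C → RA Λ → RA Λ') (σ : V → C → V' × C') (ε : V → C → ℤˣ),
      Mch Γ Γ' π π' B B' ρ ρ' β F τ Φ σ ε := by
  obtain ⟨Φ, Ψ, X, X', β, Y, τ, ε, H⟩ := cho_ex (B := B) (B' := B') hX hX' ht ht' φ
  have hM := mch0_of_cho H
  refine ⟨β, _, τ, _, _, ε, mch_of_mch0 hM (rank_of_hom hX hX' hM ?_)⟩
  intro a a' c c' hc ha' ho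
  obtain ⟨u, hu, huc⟩ := ho
  have hu' : u ∈ PB Λ' π' (st Γ' (π' a')) := hu
  have hE : Ee Γ' π' (Φ (X c, π a)) ((Φ (X c, π a)).1 * u, π' a') := by
    refine ⟨ha'.symm, ?_⟩
    show (Φ (X c, π a)).1⁻¹ * ((Φ (X c, π a)).1 * u) ∈ PB Λ' π' (st Γ' (Φ (X c, π a)).2)
    rw [inv_mul_cancel_left]
    have h1 : π' a' = (Φ (X c, π a)).2 := ha'
    rw [← h1]
    exact hu'
  have h1 := hom_card hX hX' H.ind hc hE
  rw [H.rep c, rm_mul] at h1
  have h2 : rm ρ' (rm ρ' c0' (Φ (X c, π a)).1) u = c' := huc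
  rw [h2] at h1
  exact h1

end RaagBL
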