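import Pool.Agent.Lib.MP_32d917_al_bl.BDefs

/-!
# Matchings without the condition on the ranks
-/

set_option autoImplicit false

namespace RaagBL

open RaagIso RaagGP

variable {V W V' W' C C' : Type} {Λ : SimpleGraph W} {Λ' : SimpleGraph W'}

/-- Matchings without the condition on the ranks: the block `i` at the point `c` corresponds to the block `β i c` at the point `F i c`, the
vertices correspond by `τ i c`, the stabilisers by `Φ i c`; the cut vertex `v` at `c` corresponds to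
`(σ v c).1` at `(σ v c).2`, with the sign `ε v c`. -/
structure Mch0 (Γ : SimpleGraph V) (Γ' : SimpleGraph V') (π : W → V) (π' : W' → V') {m m' : ℕ}
    (B : Fin m → Set V) (B' : Fin m' → Set V')
    (ρ : RA Λ →* Equiv.Perm C) (ρ' : RA Λ' →* Equiv.Perm C')
    (β : Fin m → C → Fin m') (F : Fin m → C → C') (τ : Fin m → C → V → V')
    (Φ : Fin m → C → RA Λ → RA Λ') (σ : V → C → V' × C') (ε : V → C → ℤˣ) : Prop where
  /-- types -/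
  nb : ∀ i c, NB Γ B i → NB Γ' B' (β i c)
  rig : ∀ i c, NB Γ B i → (Rig Γ (B i) ↔ Rig Γ' (B' (β i c)))
  tbij : ∀ i c, NB Γ B i → Set.BijOn (τ i c) (B i) (B' (β i c))
  tadj : ∀ i c, NB Γ B i → ∀ v ∈ B i, ∀ w ∈ B i, (Γ.Adj v w ↔ Γ'.Adj (τ i c v) (τ i c w))
  tcut : ∀ i c, NB Γ B i → ∀ v ∈ B i, (Cut B v ↔ Cut B' (τ i c v))
  /-- orbits of blocks -/
  beta : ∀ i c d, NB Γ B i → Ob π ρ (B i) c d → β i d = β i c
  orb : ∀ i c d, NB Γ B i → Ob π ρ (B i) c d → Ob π' ρ' (B' (β i c)) (F i c) (F i d)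
  orbi : ∀ i j c d, NB Γ B i → NB Γ B j → β i c = β j d →
    Ob π' ρ' (B' (β i c)) (F i c) (F j d) → i = j ∧ Ob π ρ (B i) c d
  orbs : ∀ i' c', NB Γ' B' i' → ∃ i c, NB Γ B i ∧ β i c = i' ∧ Ob π' ρ' (B' i') (F i c) c'
  /-- walls -/
  wtau : ∀ i c d v, NB Γ B i → v ∈ B i → Cut B v → Ob π ρ (B i ∩ st Γ v) c d →
    τ i d v = τ i c v
  wal : ∀ i c d v, NB Γ B i → v ∈ B i → Cut B v → Ob π ρ (B i ∩ st Γ v) c d →
    Ob π' ρ' (B' (β i c) ∩ st Γ' (τ i c v)) (F i c) (F i d)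
  wali : ∀ i c d v w, NB Γ B i → v ∈ B i → w ∈ B i → Cut B v → Cut B w →
    Ob π ρ (B i) c d → τ i c v = τ i d w →
    Ob π' ρ' (B' (β i c) ∩ st Γ' (τ i c v)) (F i c) (F i d) → v = w ∧ Ob π ρ (B i ∩ st Γ v) c d
  wals : ∀ i' c' v', NB Γ' B' i' → v' ∈ B' i' → Cut B' v' → ∃ i c v, NB Γ B i ∧ v ∈ B i ∧
    β i c = i' ∧ τ i c v = v' ∧ Ob π' ρ' (B' i' ∩ st Γ' v') (F i c) c'
  /-- isomorphisms of the stabilisers of blocks -/
  map : ∀ i c, NB Γ B i → ∀ g ∈ SK π ρ (B i) c, Φ i c g ∈ SK π' ρ' (B' (β i c)) (F i c)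
  mul : ∀ i c, NB Γ B i → ∀ g ∈ SK π ρ (B i) c, ∀ h ∈ SK π ρ (B i) c,
    Φ i c (g * h) = Φ i c g * Φ i c h
  inj : ∀ i c, NB Γ B i → ∀ g ∈ SK π ρ (B i) c, ∀ h ∈ SK π ρ (B i) c, Φ i c g = Φ i c h → g = h
  surj : ∀ i c, NB Γ B i → ∀ g' ∈ SK π' ρ' (B' (β i c)) (F i c), ∃ g ∈ SK π ρ (B i) c,
    Φ i c g = g'
  con : ∀ i c d, NB Γ B i → ∀ g ∈ PB Λ π (B i), rm ρ c g = d → ∃ g' ∈ PB Λ' π' (B' (β i c)),
    rm ρ' (F i c) g' = F i d ∧ ∀ l ∈ SK π ρ (B i) d, Φ i c (g * l * g⁻¹) = g' * Φ i d l * g'⁻¹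
  sgn : ∀ i c v a a', NB Γ B i → v ∈ B i → Cut B v → π a = v → π' a' = τ i c v →
    Φ i c (gen a ^ pr ρ a c) = gen a' ^ (((ε v c : ℤˣ) : ℤ) * pr ρ' a' (F i c))
  /-- cut vertices -/
  pcut : ∀ v c, Cut B v → Cut B' (σ v c).1
  port : ∀ v c d, Cut B v → Ob π ρ (st Γ v) c d →
    (σ v d).1 = (σ v c).1 ∧ Ob π' ρ' (st Γ' (σ v c).1) (σ v c).2 (σ v d).2
  pori : ∀ v w c d, Cut B v → Cut B w → (σ v c).1 = (σ w d).1 →
    Ob π' ρ' (st Γ' (σ v c).1) (σ v c).2 (σ w d).2 → v = w ∧ Ob π ρ (st Γ v) c d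
  pors : ∀ v' c', Cut B' v' → ∃ v c, Cut B v ∧ (σ v c).1 = v' ∧
    Ob π' ρ' (st Γ' v') (σ v c).2 c'
  pcom : ∀ i c v, NB Γ B i → v ∈ B i → Cut B v → (σ v c).1 = τ i c v ∧
    Ob π' ρ' (st Γ' (τ i c v)) (σ v c).2 (F i c)
  peps : ∀ v c d, Cut B v → Ob π ρ (st Γ v) c d → ε v d = ε v c

section

variable {Γ : SimpleGraph V} {Γ' : SimpleGraph V'} {π : W → V} {π' : W' → V'} {m m' : ℕ}
  {B : Fin m → Set V} {B' : Fin m' → Set V'} {ρ : RA Λ →* Equiv.Perm C}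
  {ρ' : RA Λ' →* Equiv.Perm C'} {β : Fin m → C → Fin m'} {F : Fin m → C → C'}
  {τ : Fin m → C → V → V'} {Φ : Fin m → C → RA Λ → RA Λ'} {σ : V → C → V' × C'}
  {ε : V → C → ℤˣ}

theorem mch0_of_mch (h : Mch Γ Γ' π π' B B' ρ ρ' β F τ Φ σ ε) :
    Mch0 Γ Γ' π π' B B' ρ ρ' β F τ Φ σ ε where
  nb := h.nb
  rig := h.rig
  tbij := h.tbij
  tadj := h.tadj
  tcut := h.tcut
  beta := h.beta
  orb := h.orb
  orbi := h.orbi
  orbs := h.orbs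
  wtau := h.wtau
  wal := h.wal
  wali := h.wali
  wals := h.wals
  map := h.map
  mul := h.mul
  inj := h.inj
  surj := h.surj
  con := h.con
  sgn := h.sgn
  pcut := h.pcut
  port := h.port
  pori := h.pori
  pors := h.pors
  pcom := h.pcom
  peps := h.peps

theorem mch_of_mch0 (h : Mch0 Γ Γ' π π' B B' ρ ρ' β F τ Φ σ ε)
    (hr : ∀ v c a a', Cut B v → π a = v → π' a' = (σ v c).1 →
      nPt Γ π ρ v c * pr ρ' a' (σ v c).2 * (nBl B v - 1) =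
        nPt Γ' π' ρ' (σ v c).1 (σ v c).2 * pr ρ a c * (nBl B' (σ v c).1 - 1)) :
    Mch Γ Γ' π π' B B' ρ ρ' β F τ Φ σ ε where
  nb := h.nb
  rig := h.rig
  tbij := h.tbij
  tadj := h.tadj
  tcut := h.tcut
  beta := h.beta
  orb := h.orb
  orbi := h.orbi
  orbs := h.orbs
  wtau := h.wtau
  wal := h.wal
  wali := h.wali
  wals := h.wals
  map := h.map
  mul := h.mul
  inj := h.inj
  surj := h.surj
  con := h.con
  sgn := h.sgn
  pcut := h.pcut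
  port := h.port
  pori := h.pori
  pors := h.pors
  pcom := h.pcom
  peps := h.peps
  rank := hr

end

end RaagBL
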