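import Pool.Agent.Lib.MP_32d917_al_bl.M10
import Pool.Agent.Lib.MP_32d917_al_bl.MDefs

/-!
# M11: bijections of core orbits and of pieces given by a matching (60 min)

`D i = π ⁻¹' (B i)`, so `PP Λ (D i) = PB Λ π (B i)`. `eo_ex`: the map `o = (i, c) ↦ (β i c, rep ρ' (PP Λ' (D' (β i c))) (F i c))` (well defined into `ObN` by `hM.nb`, `rep_rep`). Injective: equal images give `β i c = β j d` and `Ob' (F i c) (F j d)` (`rep_iff`, `rep_orb`), so `hM.orbi`: `i = j`, `Ob (B i) c d`, and `c = rep c = rep d = d`. Surjective: `hM.orbs` gives `i`, `c`; take `(i, rep c)`; `hM.beta`, `hM.orb` for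
`c`, `rep c` (`rep_orb`). `Equiv.ofBijective`.
`ep_ex`: the map `p = (a, c) ↦ (a', rep ρ' (PP Λ' (st Λ' a')) (σ (π a) c).2)`, `a'` the only letter over `(σ (π a) c).1` (`hM.pcut`, `cut_fib`; `Ct` is `ct_iff`). Injective: equal images give `(σ (π a) c).1 = (σ (π b) d).1` and (`pp_st`) `Ob' (st ..) (σ (π a) c).2 (σ (π b) d).2`: `hM.pori`: `π a = π b`, so `a = b` (single letter), `Ob (st (π a)) c d`, `c = d` (`rep`, `pp_st`). Surjective: `hM.pors`, `hM.port`.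
-/

set_option autoImplicit false

namespace RaagBL

open RaagIso RaagGP RaagBP

variable {V W V' W' C C' : Type} {Γ : SimpleGraph V} {Λ : SimpleGraph W} {π : W → V}
  {Γ' : SimpleGraph V'} {Λ' : SimpleGraph W'} {π' : W' → V'} {ρ : RA Λ →* Equiv.Perm C}
  {ρ' : RA Λ' →* Equiv.Perm C'} {m m' : ℕ} {B : Fin m → Set V} {B' : Fin m' → Set V'}
  {β : Fin m → C → Fin m'} {F : Fin m → C → C'} {τ : Fin m → C → V → V'}
  {Φ : Fin m → C → RA Λ → RA Λ'} {σ : V → C → V' × C'} {ε : V → C → ℤˣ}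

theorem eo_ex (hM : Mch0 Γ Γ' π π' B B' ρ ρ' β F τ Φ σ ε) :
    ∃ e : ObN ρ (fun i => π ⁻¹' B i) (NB Γ B) ≃ ObN ρ' (fun i => π' ⁻¹' B' i) (NB Γ' B'),
      ∀ o, (e o).1 = (β o.1.1 o.1.2,
        rep ρ' (PP Λ' (π' ⁻¹' B' (β o.1.1 o.1.2))) (F o.1.1 o.1.2)) := by
  let f : ObN ρ (fun i => π ⁻¹' B i) (NB Γ B) → ObN ρ' (fun i => π' ⁻¹' B' i) (NB Γ' B') :=
    fun o => ⟨(β o.1.1 o.1.2, rep ρ' (PP Λ' (π' ⁻¹' B' (β o.1.1 o.1.2))) (F o.1.1 o.1.2)),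
      hM.nb _ _ o.2.1, rep_rep _ _ _⟩
  have hf : Function.Bijective f := by
    constructor
    · rintro ⟨⟨i, c⟩, hi, hc⟩ ⟨⟨j, d⟩, hj, hd⟩ h
      have h1 := congrArg Subtype.val h
      have h2 : β i c = β j d := congrArg Prod.fst h1
      have h3 : rep ρ' (PP Λ' (π' ⁻¹' B' (β i c))) (F i c) =
        rep ρ' (PP Λ' (π' ⁻¹' B' (β j d))) (F j d) := congrArg Prod.snd h1
      rw [← h2] at h3
      obtain ⟨h4, h5⟩ := hM.orbi i j c d hi hj h2 (rep_iff.1 h3)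
      have h6 : rep ρ (PP Λ (π ⁻¹' B i)) c = rep ρ (PP Λ (π ⁻¹' B i)) d := rep_iff.2 h5
      have h7 : rep ρ (PP Λ (π ⁻¹' B i)) c = c := hc
      have h8 : rep ρ (PP Λ (π ⁻¹' B j)) d = d := hd
      rw [← h4] at h8
      apply Subtype.ext
      exact Prod.ext h4 (show c = d from h7.symm.trans (h6.trans h8))
    · rintro ⟨⟨i', c'⟩, hi', hc'⟩
      obtain ⟨i, c, hi, h1, h2⟩ := hM.orbs i' c' hi'
      have h3 : Ob π ρ (B i) c (rep ρ (PP Λ (π ⁻¹' B i)) c) :=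
        rep_iff.1 (rep_rep ρ (PP Λ (π ⁻¹' B i)) c).symm
      have h4 := hM.beta i c _ hi h3
      have h5 := hM.orb i c _ hi h3
      refine ⟨⟨(i, rep ρ (PP Λ (π ⁻¹' B i)) c), hi, rep_rep _ _ _⟩, ?_⟩
      apply Subtype.ext
      have h6 : β i (rep ρ (PP Λ (π ⁻¹' B i)) c) = i' := h4.trans h1
      refine Prod.ext h6 ?_
      show rep ρ' (PP Λ' (π' ⁻¹' B' (β i (rep ρ (PP Λ (π ⁻¹' B i)) c))))
        (F i (rep ρ (PP Λ (π ⁻¹' B i)) c)) = c'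
      have h7 : rep ρ' (PP Λ' (π' ⁻¹' B' i')) c' = c' := hc'
      rw [h6]
      rw [h1] at h5
      rw [← h7]
      exact rep_iff.2 (ob_trans (ob_symm h5) h2)
  exact ⟨Equiv.ofBijective f hf, fun o => rfl⟩

theorem ep_ex (hX : Ctx Γ Λ π B) (hX' : Ctx Γ' Λ' π' B')
    (hM : Mch0 Γ Γ' π π' B B' ρ ρ' β F τ Φ σ ε) :
    ∃ e : PcN ρ (fun i => π ⁻¹' B i) ≃ PcN ρ' (fun i => π' ⁻¹' B' i),
      ∀ p, π' (e p).1.1 = (σ (π p.1.1) p.1.2).1 ∧
        (e p).1.2 = rep ρ' (PP Λ' (st Λ' (e p).1.1)) (σ (π p.1.1) p.1.2).2 := by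
  choose g hg1 hg2 using (fun p : PcN ρ (fun i => π ⁻¹' B i) =>
    cut_fib hX' (hM.pcut (π p.1.1) p.1.2 ((ct_iff _).1 p.2.1)))
  have hcut : ∀ a : W, Ct (fun i => π ⁻¹' B i) a → ∀ b, π b = π a → b = a := by
    intro a ha b hb
    obtain ⟨x, -, h2⟩ := cut_fib hX ((ct_iff _).1 ha)
    rw [h2 b hb, h2 a rfl]
  have hcut' : ∀ a : W', Ct (fun i => π' ⁻¹' B' i) a → ∀ b, π' b = π' a → b = a := by
    intro a ha b hb
    obtain ⟨x, -, h2⟩ := cut_fib hX' ((ct_iff _).1 ha)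
    rw [h2 b hb, h2 a rfl]
  have hgc : ∀ p, Ct (fun i => π' ⁻¹' B' i) (g p) := by
    intro p
    rw [ct_iff, hg1]
    exact hM.pcut (π p.1.1) p.1.2 ((ct_iff _).1 p.2.1)
  let f : PcN ρ (fun i => π ⁻¹' B i) → PcN ρ' (fun i => π' ⁻¹' B' i) := fun p =>
    ⟨(g p, rep ρ' (PP Λ' (st Λ' (g p))) (σ (π p.1.1) p.1.2).2), hgc p, rep_rep _ _ _⟩
  have hf : Function.Bijective f := by
    constructor
    · intro p q h
      have h1 := congrArg Subtype.val h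
      have h2 : g p = g q := congrArg Prod.fst h1
      have h3 : rep ρ' (PP Λ' (st Λ' (g p))) (σ (π p.1.1) p.1.2).2 =
        rep ρ' (PP Λ' (st Λ' (g q))) (σ (π q.1.1) q.1.2).2 := congrArg Prod.snd h1
      rw [← h2] at h3
      have h4 : (σ (π p.1.1) p.1.2).1 = (σ (π q.1.1) q.1.2).1 := by
        rw [← hg1 p, ← hg1 q, h2]
      have h5 := rep_iff.1 h3
      rw [pp_st hX'.bu (hcut' _ (hgc p)), hg1 p] at h5
      obtain ⟨h6, h7⟩ := hM.pori _ _ _ _ ((ct_iff _).1 p.2.1) ((ct_iff _).1 q.2.1) h4 h5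
      have h8 : p.1.1 = q.1.1 := hcut _ q.2.1 _ h6
      have h9 : rep ρ (PP Λ (st Λ p.1.1)) p.1.2 = rep ρ (PP Λ (st Λ p.1.1)) q.1.2 := by
        rw [rep_iff, pp_st hX.bu (hcut _ p.2.1)]
        exact h7
      have k1 := p.2.2
      have k2 := q.2.2
      rw [← h8] at k2
      apply Subtype.ext
      exact Prod.ext h8 (by rw [← k1, h9, k2])
    · rintro ⟨⟨a', c'⟩, ha', hc'⟩
      obtain ⟨v, c, h1, h2, h3⟩ := hM.pors (π' a') c' ((ct_iff _).1 ha')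
      obtain ⟨a, rfl, h4⟩ := cut_fib hX h1
      have h5 : Ob π ρ (st Γ (π a)) c (rep ρ (PP Λ (st Λ a)) c) := by
        have h6 := rep_iff.1 (rep_rep ρ (PP Λ (st Λ a)) c).symm
        rw [pp_st hX.bu h4] at h6
        rw [pp_st hX.bu h4]
        exact h6
      obtain ⟨h6, h7⟩ := hM.port (π a) c _ h1 h5
      obtain ⟨p, hp⟩ : ∃ p : PcN ρ (fun i => π ⁻¹' B i), p = ⟨(a, rep ρ (PP Λ (st Λ a)) c),
        (ct_iff a).2 h1, rep_rep _ _ _⟩ := ⟨_, rfl⟩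
      refine ⟨p, ?_⟩
      have hpa : p.1 = (a, rep ρ (PP Λ (st Λ a)) c) := by rw [hp]
      have h8 : g p = a' := by
        refine (hg2 p a' ?_).symm
        rw [hpa]
        exact (h6.trans h2).symm
      apply Subtype.ext
      refine Prod.ext h8 ?_
      show rep ρ' (PP Λ' (st Λ' (g p))) (σ (π p.1.1) p.1.2).2 = c'
      have h9 : rep ρ' (PP Λ' (st Λ' a')) c' = c' := hc'
      rw [h8, hpa, ← h9, rep_iff, pp_st hX'.bu (hcut' _ ha')]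
      rw [h2] at h7
      exact ob_trans (ob_symm h7) h3
  exact ⟨Equiv.ofBijective f hf, fun p => ⟨hg1 p, rfl⟩⟩

end RaagBL
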