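import Pool.Agent.Lib.MP_32d917_al_bl.M11

/-!
# M12: the bijection of walls given by a matching (75 min)

`ew_ex`: the map `w = (i, a, c) ↦ (β i c, a', rep ρ' (PP Λ' (D' (β i c) ∩ st Λ' a')) (F i c))`, `a'` the only letter over `τ i c (π a)` (cut by `hM.tcut`, in `B' (β i c)` by `hM.tbij`). Injective: let `(i, a, c)`, `(j, b, d)` have equal images: `β i c = β j d`, `τ i c (π a) = τ j d (π b)` (apply `π'`), and (`rep_iff`, `pp_wall`) `Ob' (B' (β i c) ∩ st (τ i c (π a))) (F i c) (F j d)`. `hM.orbi` (`ob_mono`): `i = j`,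
`Ob (B i) c d`; `hM.wali`: `π a = π b`, `Ob (B i ∩ st (π a)) c d`; so `a = b`, `c = d` (both are representatives, `pp_wall`). Surjective: for `(i', a', c')` `hM.wals` with `v' = π' a'` gives `i`, `c`, `v`; `v` is cut (`hM.tcut`), `a` the letter over `v`; take `(i, a, rep ρ (PP Λ (D i ∩ st Λ a)) c)`; with `d = rep ..`: `Ob (B i ∩ st v) c d`, so `hM.beta`, `hM.wtau`, `hM.wal`: the same values.
`ew_wo`: let `d = rep ρ (PP Λ (D i)) c`: `Ob (B i) c d`, so `β i d = β i c` and `F i d`, `F i c` are in the same orbit of `PB' (B' (β i c))`, also the wall representative of `F i c`. `ew_wp`: let `d = rep ρ (PP Λ (st Λ a)) c`: `hM.port`: `(σ (π a) d).1 = (σ (π a) c).1 = τ i c (π a)` (`hM.pcom`), `Ob (st ..) (σ (π a) d).2 (F i c)`, and the wall representative of `F i c` is in the same orbit of `PP (st a')`.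
-/

set_option autoImplicit false

namespace RaagBL

open RaagIso RaagGP RaagBP

variable {V W V' W' C C' : Type} {Γ : SimpleGraph V} {Λ : SimpleGraph W} {π : W → V}
  {Γ' : SimpleGraph V'} {Λ' : SimpleGraph W'} {π' : W' → V'} {ρ : RA Λ →* Equiv.Perm C}
  {ρ' : RA Λ' →* Equiv.Perm C'} {m m' : ℕ} {B : Fin m → Set V} {B' : Fin m' → Set V'}
  {β : Fin m → C → Fin m'} {F : Fin m → C → C'} {τ : Fin m → C → V → V'}
  {Φ : Fin m → C → RA Λ → RA Λ'} {σ : V → C → V' × C'} {ε : V → C → ℤˣ}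

private theorem m12_fib (hX : Ctx Γ Λ π B) {a : W} (ha : Cut B (π a)) :
    ∀ b, π b = π a → b = a := fun b hb => hX.sng (π a) (Or.inl ha) b a hb rfl

private theorem m12_ob (hX : Ctx Γ Λ π B) {a : W} (ha : Cut B (π a)) (S : Set V) {c d : C} :
    rep ρ (PP Λ (π ⁻¹' S ∩ st Λ a)) c = rep ρ (PP Λ (π ⁻¹' S ∩ st Λ a)) d ↔
      Ob π ρ (S ∩ st Γ (π a)) c d := by
  rw [pp_wall hX.bu (m12_fib hX ha) S]
  exact rep_iff

private theorem m12_mono {S T : Subgroup (RA Λ)} (h : S ≤ T) (c : C) :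
    rep ρ T (rep ρ S c) = rep ρ T c := by
  obtain ⟨x, hx, hx'⟩ := rep_orb ρ S c
  exact rep_eq ⟨x, h hx, hx'⟩

private theorem m12_obm {S T : Set V} (h : S ⊆ T) {c d : C} (ho : Ob π ρ S c d) :
    Ob π ρ T c d := by
  obtain ⟨g, hg, hg'⟩ := ho
  exact ⟨g, pp_mono (Set.preimage_mono h) hg, hg'⟩

theorem ew_ex (hX : Ctx Γ Λ π B) (hX' : Ctx Γ' Λ' π' B')
    (hM : Mch0 Γ Γ' π π' B B' ρ ρ' β F τ Φ σ ε) :
    ∃ e : WlN ρ (fun i => π ⁻¹' B i) (NB Γ B) ≃ WlN ρ' (fun i => π' ⁻¹' B' i) (NB Γ' B'),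
      ∀ w, (e w).1.1 = β w.1.1 w.1.2.2 ∧
        π' (e w).1.2.1 = τ w.1.1 w.1.2.2 (π w.1.2.1) ∧
        (e w).1.2.2 = rep ρ' (PP Λ' (π' ⁻¹' B' (e w).1.1 ∩ st Λ' (e w).1.2.1))
          (F w.1.1 w.1.2.2) := by
  have hex : ∀ w : WlN ρ (fun i => π ⁻¹' B i) (NB Γ B),
      ∃ q : WlN ρ' (fun i => π' ⁻¹' B' i) (NB Γ' B'), q.1.1 = β w.1.1 w.1.2.2 ∧
        π' q.1.2.1 = τ w.1.1 w.1.2.2 (π w.1.2.1) ∧
        q.1.2.2 = rep ρ' (PP Λ' (π' ⁻¹' B' q.1.1 ∩ st Λ' q.1.2.1)) (F w.1.1 w.1.2.2) := by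
    rintro ⟨⟨i, a, c⟩, hi, ha, hct, hrep⟩
    have hcut : Cut B (π a) := (ct_iff a).1 hct
    have hcut' : Cut B' (τ i c (π a)) := (hM.tcut i c hi (π a) ha).1 hcut
    obtain ⟨a', ha', _⟩ := cut_fib hX' hcut'
    have h1 : π' a' ∈ B' (β i c) := by
      rw [ha']
      exact (hM.tbij i c hi).mapsTo ha
    refine ⟨⟨(β i c, a', rep ρ' (PP Λ' (π' ⁻¹' B' (β i c) ∩ st Λ' a')) (F i c)), hM.nb i c hi, h1,
      (ct_iff a').2 (by rw [ha']; exact hcut'), rep_rep _ _ _⟩, rfl, ha', rfl⟩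
  choose f hf1 hf2 hf3 using hex
  refine ⟨Equiv.ofBijective f ⟨?_, ?_⟩, fun w => ⟨hf1 w, hf2 w, hf3 w⟩⟩
  · intro w w2 hw
    have e1 : β w.1.1 w.1.2.2 = β w2.1.1 w2.1.2.2 := by
      rw [← hf1 w, ← hf1 w2, hw]
    have e2 : τ w.1.1 w.1.2.2 (π w.1.2.1) = τ w2.1.1 w2.1.2.2 (π w2.1.2.1) := by
      rw [← hf2 w, ← hf2 w2, hw]
    have e3 : rep ρ' (PP Λ' (π' ⁻¹' B' (f w).1.1 ∩ st Λ' (f w).1.2.1)) (F w.1.1 w.1.2.2) =
        rep ρ' (PP Λ' (π' ⁻¹' B' (f w).1.1 ∩ st Λ' (f w).1.2.1)) (F w2.1.1 w2.1.2.2) := by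
      have h1 := hf3 w
      have h2 := hf3 w2
      rw [← hw] at h2
      rw [← h1, ← h2]
    have hcq : Cut B' (π' (f w).1.2.1) := (ct_iff _).1 (f w).2.2.2.1
    rw [m12_ob hX' hcq, hf1 w, hf2 w] at e3
    obtain ⟨⟨i, a, c⟩, hi, ha, hct, hrep⟩ := w
    obtain ⟨⟨j, b, d⟩, hj, hb, hct2, hrep2⟩ := w2
    have e1' : β i c = β j d := e1
    have e2' : τ i c (π a) = τ j d (π b) := e2
    have e3' : Ob π' ρ' (B' (β i c) ∩ st Γ' (τ i c (π a))) (F i c) (F j d) := e3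
    have hca : Cut B (π a) := (ct_iff a).1 hct
    have hcb : Cut B (π b) := (ct_iff b).1 hct2
    obtain ⟨h1, h2⟩ := hM.orbi i j c d hi hj e1' (m12_obm Set.inter_subset_left e3')
    subst h1
    obtain ⟨h3, h4⟩ := hM.wali i c d (π a) (π b) hi ha hb hca hcb h2 e2' e3'
    have h5 : a = b := m12_fib hX hcb a h3
    subst h5
    have h6 := (m12_ob hX hca (B i)).2 h4
    have h7 : rep ρ (PP Λ (π ⁻¹' B i ∩ st Λ a)) c = c := hrep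
    have h8 : rep ρ (PP Λ (π ⁻¹' B i ∩ st Λ a)) d = d := hrep2
    rw [h7, h8] at h6
    subst h6
    rfl
  · rintro ⟨⟨i', a', c'⟩, hi', ha', hct', hrep'⟩
    have hcut' : Cut B' (π' a') := (ct_iff a').1 hct'
    obtain ⟨i, c, v, hi, hv, hb, ht, ho⟩ := hM.wals i' c' (π' a') hi' ha' hcut'
    have hcut : Cut B v := (hM.tcut i c hi v hv).2 (by rw [ht]; exact hcut')
    obtain ⟨a, rfl, _⟩ := cut_fib hX hcut
    have hcd : Ob π ρ (B i ∩ st Γ (π a)) c (rep ρ (PP Λ (π ⁻¹' B i ∩ st Λ a)) c) :=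
      (m12_ob hX hcut (B i)).1 (rep_rep _ _ _).symm
    have hcd' : Ob π ρ (B i) c (rep ρ (PP Λ (π ⁻¹' B i ∩ st Λ a)) c) :=
      m12_obm Set.inter_subset_left hcd
    obtain ⟨w, hw1, hw2, hw3⟩ : ∃ w : WlN ρ (fun i => π ⁻¹' B i) (NB Γ B), w.1.1 = i ∧
        w.1.2.1 = a ∧ w.1.2.2 = rep ρ (PP Λ (π ⁻¹' B i ∩ st Λ a)) c :=
      ⟨⟨(i, a, rep ρ (PP Λ (π ⁻¹' B i ∩ st Λ a)) c), hi, hv, (ct_iff a).2 hcut,
        rep_rep _ _ _⟩, rfl, rfl, rfl⟩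
    refine ⟨w, ?_⟩
    have g1 := hf1 w
    have g2 := hf2 w
    have g3 := hf3 w
    rw [hw1, hw3] at g1 g2 g3
    rw [hw2] at g2
    rw [hM.beta i c _ hi hcd', hb] at g1
    rw [hM.wtau i c _ (π a) hi hv hcut hcd, ht] at g2
    have g2' : (f w).1.2.1 = a' := m12_fib hX' hcut' _ g2
    rw [g1, g2'] at g3
    have h5 := hM.wal i c _ (π a) hi hv hcut hcd
    rw [hb, ht] at h5
    have h6 := (m12_ob hX' hcut' (B' i')).2 h5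
    have h7 := (m12_ob hX' hcut' (B' i')).2 ho
    have h8 : rep ρ' (PP Λ' (π' ⁻¹' B' i' ∩ st Λ' a')) c' = c' := hrep'
    rw [← h6, h7, h8] at g3
    exact Subtype.ext (Prod.ext g1 (Prod.ext g2' g3))

theorem ew_wo (hX : Ctx Γ Λ π B) (hX' : Ctx Γ' Λ' π' B')
    (hM : Mch0 Γ Γ' π π' B B' ρ ρ' β F τ Φ σ ε) {i : Fin m} (hi : NB Γ B i) (c : C) {a' : W'}
    {d' : C'} (hd : d' = rep ρ' (PP Λ' (π' ⁻¹' B' (β i c) ∩ st Λ' a')) (F i c)) :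
    β i (rep ρ (PP Λ (π ⁻¹' B i)) c) = β i c ∧
      rep ρ' (PP Λ' (π' ⁻¹' B' (β i c))) (F i (rep ρ (PP Λ (π ⁻¹' B i)) c)) =
        rep ρ' (PP Λ' (π' ⁻¹' B' (β i c))) d' := by
  have h1 : Ob π ρ (B i) c (rep ρ (PP Λ (π ⁻¹' B i)) c) := rep_iff.1 (rep_rep _ _ _).symm
  refine ⟨hM.beta i c _ hi h1, ?_⟩
  have h2 : rep ρ' (PP Λ' (π' ⁻¹' B' (β i c))) (F i c) =
      rep ρ' (PP Λ' (π' ⁻¹' B' (β i c))) (F i (rep ρ (PP Λ (π ⁻¹' B i)) c)) :=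
    rep_iff.2 (hM.orb i c _ hi h1)
  rw [hd, m12_mono (pp_mono Set.inter_subset_left), h2]

theorem ew_wp (hX : Ctx Γ Λ π B) (hX' : Ctx Γ' Λ' π' B')
    (hM : Mch0 Γ Γ' π π' B B' ρ ρ' β F τ Φ σ ε) {i : Fin m} (hi : NB Γ B i) (c : C) {a : W}
    (ha : π a ∈ B i) (hc : Cut B (π a)) {a' : W'} (ha' : π' a' = τ i c (π a)) {d' : C'}
    (hd : d' = rep ρ' (PP Λ' (π' ⁻¹' B' (β i c) ∩ st Λ' a')) (F i c)) :
    (σ (π a) (rep ρ (PP Λ (st Λ a)) c)).1 = π' a' ∧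
      rep ρ' (PP Λ' (st Λ' a')) (σ (π a) (rep ρ (PP Λ (st Λ a)) c)).2 =
        rep ρ' (PP Λ' (st Λ' a')) d' := by
  have h0 : Ob π ρ (st Γ (π a)) c (rep ρ (PP Λ (st Λ a)) c) := by
    rw [pp_st hX.bu (m12_fib hX hc)]
    exact rep_iff.1 (rep_rep _ _ _).symm
  obtain ⟨h1, h2⟩ := hM.port (π a) c _ hc h0
  obtain ⟨h3, h4⟩ := hM.pcom i c (π a) hi ha hc
  have hcut' : Cut B' (π' a') := by
    rw [ha']
    exact (hM.tcut i c hi (π a) ha).1 hc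
  have h5 : PP Λ' (st Λ' a') = PB Λ' π' (st Γ' (π' a')) := pp_st hX'.bu (m12_fib hX' hcut')
  rw [h3, ← ha'] at h2
  rw [← ha'] at h4
  refine ⟨by rw [h1, h3, ha'], ?_⟩
  rw [hd, m12_mono (pp_mono Set.inter_subset_right), h5]
  rw [show rep ρ' (PB Λ' π' (st Γ' (π' a'))) (σ (π a) (rep ρ (PP Λ (st Λ a)) c)).2 =
    rep ρ' (PB Λ' π' (st Γ' (π' a'))) (σ (π a) c).2 from (rep_iff.2 h2).symm]
  exact rep_iff.2 h4

end RaagBL
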