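import Pool.Agent.Lib.MP_32d917_al_bl.M10
import Pool.Agent.Lib.MP_32d917_al_bl.MDefs

/-!
# M13: the isomorphisms of the groups of core orbits given by a matching (75 min)

`SK π ρ (B i) c = stb ρ c ⊓ PP Λ (π ⁻¹' (B i))` (definition). `al_ex`: `y' = cn ρ' (PP Λ' (D' (β i c))) (F i c)`, `rm ρ' (rep (F i c)) y' = F i c` (`cn_rm`). The map `l ↦ y' * Φ i c l * y'⁻¹` on `SK (B i) c`: values in `stb ρ' (rep ..) ⊓ PP Λ' (D' (β i c))` (`hM.map`, `cn_mem`), multiplicative (`hM.mul`), injective (`hM.inj`), surjective (`hM.surj` for `y'⁻¹ * k * y'`): `MulEquiv.ofBijective (MonoidHom.mk' ...)`.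
`al_z`: `c` arbitrary, `o = rep ρ (PP Λ (D i)) c`, `y = cn ρ (PP Λ (D i)) c`, `k = per ρ a c`, `z = zz ρ (D i) a c = y * gen a ^ k * y⁻¹`. `hM.con` for `o`, `c`, `g = y`: `g'` with `rm ρ' (F i o) g' = F i c`, `Φ i o z = g' * Φ i c (gen a ^ k) * g'⁻¹ = g' * gen a' ^ (ε * k') * g'⁻¹`, `k' = pr ρ' a' (F i c)` (`hM.sgn`, `per_pr`; `hM.beta`: `β i c = β i o`). `d' = rep ρ' (PP Λ' (D' (β i c) ∩ st Λ' a')) (F i c)`: there
is `u ∈ PB' (B' (β i c) ∩ st (π' a'))` with `rm ρ' d' u = F i c` (`rep_orb`, `pp_wall`); `u` commutes with `gen a'` (`cen_sng`), `per ρ' a' d' = pr ρ' a' d' = k'` (`pr_comm`). `y'' = cn ρ' (PP Λ' (D' (β i c))) d'`; `zz ρ' (D' (β i c)) a' d' = y'' * gen a' ^ k' * y''⁻¹`. With `y' = cn ρ' (PP Λ' ..) (F i o)`: `x = y' * g' * u⁻¹ * y''⁻¹` is in `PP Λ' (D' (β i c))` and maps `rep (F i o)` to `rep d'`, which are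
equal (same orbit), and `y' * Φ i o z * y'⁻¹ = x * (y'' * gen a' ^ (ε * k') * y''⁻¹) * x⁻¹ = x * (zz ..) ^ ε * x⁻¹`.
-/

set_option autoImplicit false

namespace RaagBL

open RaagIso RaagGP RaagBP

variable {V W V' W' C C' : Type} {Γ : SimpleGraph V} {Λ : SimpleGraph W} {π : W → V}
  {Γ' : SimpleGraph V'} {Λ' : SimpleGraph W'} {π' : W' → V'} {ρ : RA Λ →* Equiv.Perm C}
  {ρ' : RA Λ' →* Equiv.Perm C'} {m m' : ℕ} {B : Fin m → Set V} {B' : Fin m' → Set V'}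
  {β : Fin m → C → Fin m'} {F : Fin m → C → C'} {τ : Fin m → C → V → V'}
  {Φ : Fin m → C → RA Λ → RA Λ'} {σ : V → C → V' × C'} {ε : V → C → ℤˣ}

theorem al_ex (hM : Mch0 Γ Γ' π π' B B' ρ ρ' β F τ Φ σ ε) {i : Fin m} (hi : NB Γ B i) (c : C) :
    ∃ al : (stb ρ c ⊓ PP Λ (π ⁻¹' B i) : Subgroup (RA Λ)) ≃*
        (stb ρ' (rep ρ' (PP Λ' (π' ⁻¹' B' (β i c))) (F i c)) ⊓ PP Λ' (π' ⁻¹' B' (β i c)) :
          Subgroup (RA Λ')),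
      ∀ l, ((al l : (stb ρ' (rep ρ' (PP Λ' (π' ⁻¹' B' (β i c))) (F i c)) ⊓
          PP Λ' (π' ⁻¹' B' (β i c)) : Subgroup (RA Λ'))) : RA Λ') =
        cn ρ' (PP Λ' (π' ⁻¹' B' (β i c))) (F i c) * Φ i c l *
          (cn ρ' (PP Λ' (π' ⁻¹' B' (β i c))) (F i c))⁻¹ := by
  set D' : Set W' := π' ⁻¹' B' (β i c) with hD'
  set y := cn ρ' (PP Λ' D') (F i c) with hy
  set o' := rep ρ' (PP Λ' D') (F i c) with ho'
  have hy1 : y ∈ PP Λ' D' := cn_mem _ _ _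
  have hy2 : rm ρ' o' y = F i c := cn_rm _ _ _
  have hy3 : rm ρ' (F i c) y⁻¹ = o' := cn_inv _ _ _
  have hmem : ∀ l : (stb ρ c ⊓ PP Λ (π ⁻¹' B i) : Subgroup (RA Λ)),
      y * Φ i c l * y⁻¹ ∈ (stb ρ' o' ⊓ PP Λ' D' : Subgroup (RA Λ')) := by
    intro l
    have h1 : Φ i c l ∈ SK π' ρ' (B' (β i c)) (F i c) := hM.map i c hi l l.2
    refine Subgroup.mem_inf.2 ⟨?_, mul_mem (mul_mem hy1 h1.2) (inv_mem hy1)⟩
    have h2 : rm ρ' (F i c) (Φ i c l) = F i c := h1.1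
    show rm ρ' o' (y * Φ i c l * y⁻¹) = o'
    rw [rm_mul, rm_mul, hy2, h2, hy3]
  let f : (stb ρ c ⊓ PP Λ (π ⁻¹' B i) : Subgroup (RA Λ)) →*
      (stb ρ' o' ⊓ PP Λ' D' : Subgroup (RA Λ')) :=
    MonoidHom.mk' (fun l => ⟨y * Φ i c l * y⁻¹, hmem l⟩) (by
      intro l l'
      apply Subtype.ext
      show y * Φ i c ((l : RA Λ) * l') * y⁻¹ = y * Φ i c l * y⁻¹ * (y * Φ i c l' * y⁻¹)
      rw [hM.mul i c hi l l.2 l' l'.2]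
      group)
  have hinj : Function.Injective f := by
    intro l l' h
    have h1 : y * Φ i c l * y⁻¹ = y * Φ i c l' * y⁻¹ := congrArg Subtype.val h
    have h2 : Φ i c l = Φ i c l' := mul_left_cancel (mul_right_cancel h1)
    exact Subtype.ext (hM.inj i c hi l l.2 l' l'.2 h2)
  have hsurj : Function.Surjective f := by
    rintro ⟨k, hk⟩
    have hk1 : rm ρ' o' k = o' := (Subgroup.mem_inf.1 hk).1
    have hk2 : k ∈ PP Λ' D' := (Subgroup.mem_inf.1 hk).2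
    have h1 : y⁻¹ * k * y ∈ SK π' ρ' (B' (β i c)) (F i c) := by
      refine Subgroup.mem_inf.2 ⟨?_, mul_mem (mul_mem (inv_mem hy1) hk2) hy1⟩
      show rm ρ' (F i c) (y⁻¹ * k * y) = F i c
      rw [rm_mul, rm_mul, hy3, hk1, hy2]
    obtain ⟨g, hg, hg1⟩ := hM.surj i c hi _ h1
    refine ⟨⟨g, hg⟩, Subtype.ext ?_⟩
    show y * Φ i c g * y⁻¹ = k
    rw [hg1]
    group
  exact ⟨MulEquiv.ofBijective f ⟨hinj, hsurj⟩, fun l => rfl⟩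

theorem al_z [Finite C] [Finite C'] (hX : Ctx Γ Λ π B) (hX' : Ctx Γ' Λ' π' B')
    (hM : Mch0 Γ Γ' π π' B B' ρ ρ' β F τ Φ σ ε) {i : Fin m} (hi : NB Γ B i) (c : C) {a : W}
    (ha : π a ∈ B i) (hc : Cut B (π a)) {a' : W'} (ha' : π' a' = τ i c (π a)) {o : C}
    (ho : o = rep ρ (PP Λ (π ⁻¹' B i)) c) {d' : C'}
    (hd : d' = rep ρ' (PP Λ' (π' ⁻¹' B' (β i c) ∩ st Λ' a')) (F i c)) :
    ∃ x ∈ stb ρ' (rep ρ' (PP Λ' (π' ⁻¹' B' (β i c))) d') ⊓ PP Λ' (π' ⁻¹' B' (β i c)),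
      cn ρ' (PP Λ' (π' ⁻¹' B' (β i c))) (F i o) * Φ i o (zz ρ (π ⁻¹' B i) a c) *
          (cn ρ' (PP Λ' (π' ⁻¹' B' (β i c))) (F i o))⁻¹ =
        x * zz ρ' (π' ⁻¹' B' (β i c)) a' d' ^ ((ε (π a) c : ℤˣ) : ℤ) * x⁻¹ := by
  subst hd
  have hy1 : cn ρ (PP Λ (π ⁻¹' B i)) c ∈ PP Λ (π ⁻¹' B i) := cn_mem _ _ _
  have hy2 : rm ρ o (cn ρ (PP Λ (π ⁻¹' B i)) c) = c := by
    rw [ho]
    exact cn_rm _ _ _
  have hob : Ob π ρ (B i) o c := ⟨_, hy1, hy2⟩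
  have hβ : β i c = β i o := hM.beta i o c hi hob
  obtain ⟨g', hg1, hg2, hg3⟩ := hM.con i o c hi _ hy1 hy2
  rw [← hβ] at hg1
  have hl : gen a ^ per ρ a c ∈ SK π ρ (B i) c := by
    have hga : (gen a : RA Λ) ∈ PP Λ (π ⁻¹' B i) := gen_mem (by exact ha)
    exact Subgroup.mem_inf.2 ⟨(per_mem ρ a c).2, pow_mem hga _⟩
  have h1 : Φ i o (zz ρ (π ⁻¹' B i) a c) = g' * Φ i c (gen a ^ per ρ a c) * g'⁻¹ := hg3 _ hl
  have h2 : Φ i c (gen a ^ per ρ a c) =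
      gen a' ^ (((ε (π a) c : ℤˣ) : ℤ) * pr ρ' a' (F i c)) := by
    rw [per_pr]
    exact hM.sgn i c (π a) a a' hi ha hc rfl ha'
  set D' : Set W' := π' ⁻¹' B' (β i c) with hD'
  set d' := rep ρ' (PP Λ' (D' ∩ st Λ' a')) (F i c) with hd'
  obtain ⟨u, hu, hu1⟩ := rep_orb ρ' (PP Λ' (D' ∩ st Λ' a')) (F i c)
  rw [← hd'] at hu1
  have hu2 : u ∈ PP Λ' D' := pp_mono Set.inter_subset_left hu
  have hu3 : gen a' * u = u * gen a' := st_comm (pp_mono Set.inter_subset_right hu)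
  have hk : per ρ' a' d' = pr ρ' a' (F i c) := by
    rw [per_pr, ← hu1]
    exact (pr_comm hu3.symm d').symm
  have hu4 : rm ρ' (F i c) u⁻¹ = d' := by
    rw [← hu1]
    exact b01_inv_left ρ' d' u
  set y'' := cn ρ' (PP Λ' D') d' with hy''
  set y' := cn ρ' (PP Λ' D') (F i o) with hy'
  have hy'1 : y' ∈ PP Λ' D' := cn_mem _ _ _
  have hy''1 : y'' ∈ PP Λ' D' := cn_mem _ _ _
  have hy'2 : rm ρ' (rep ρ' (PP Λ' D') (F i o)) y' = F i o := cn_rm _ _ _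
  have hy''2 : rm ρ' d' y''⁻¹ = rep ρ' (PP Λ' D') d' := cn_inv _ _ _
  have hrep : rep ρ' (PP Λ' D') d' = rep ρ' (PP Λ' D') (F i o) := by
    symm
    refine rep_eq ⟨g' * u⁻¹, mul_mem hg1 (inv_mem hu2), ?_⟩
    rw [rm_mul, hg2, hu4]
  refine ⟨y' * g' * u⁻¹ * y''⁻¹, Subgroup.mem_inf.2 ⟨?_, ?_⟩, ?_⟩
  · show rm ρ' _ _ = _
    rw [rm_mul, rm_mul, rm_mul]
    nth_rewrite 1 [hrep]
    rw [hy'2, hg2, hu4, hy''2]
  · exact mul_mem (mul_mem (mul_mem hy'1 hg1) (inv_mem hu2)) (inv_mem hy''1)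
  · rw [h1, h2]
    have hz : zz ρ' D' a' d' = y'' * gen a' ^ pr ρ' a' (F i c) * y''⁻¹ := by
      unfold zz
      rw [hk]
    rw [hz, conj_zpow]
    have h3 : ((gen a' : RA Λ') ^ pr ρ' a' (F i c)) ^ ((ε (π a) c : ℤˣ) : ℤ) =
        gen a' ^ (((ε (π a) c : ℤˣ) : ℤ) * pr ρ' a' (F i c)) := by
      rw [← zpow_natCast, ← zpow_mul, mul_comm]
    rw [h3]
    generalize (((ε (π a) c : ℤˣ) : ℤ) * (pr ρ' a' (F i c) : ℤ)) = n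
    have h4 : u⁻¹ * (gen a' : RA Λ') ^ n * u = gen a' ^ n := by
      have h5 : Commute (gen a' : RA Λ') u := hu3
      rw [mul_assoc, (h5.zpow_left n).eq, inv_mul_cancel_left]
    calc y' * (g' * gen a' ^ n * g'⁻¹) * y'⁻¹
        = y' * g' * (u⁻¹ * gen a' ^ n * u) * g'⁻¹ * y'⁻¹ := by rw [h4]; group
      _ = y' * g' * u⁻¹ * y''⁻¹ * (y'' * gen a' ^ n * y''⁻¹) * (y' * g' * u⁻¹ * y''⁻¹)⁻¹ := by
          group

end RaagBL
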