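import Pool.Agent.Lib.MP_32d917_al_bl.PDefs

/-!
# P01 (20 min): universal elements and isomorphisms of functors

Write `~` for the relations. All proofs are diagram chases with the fields of `FP` and `PM`.
* `isU_rel`: `psh F S' ~ psh F S` by `pshr` and `symm`; use `trans`.
* `pm_comp`: immediate (for `nat` use `r` of the second one, then `nat` of the second one; for `surj`
  choose twice and use `r`).
* `isU_push`: (1) given `B : Q.X H` take `x` with `Φ x ~ B` (`surj`) and `F` with `psh F S ~ x`; then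
  `psh F (Φ S) ~ Φ (psh F S) ~ Φ x ~ B`. (2) if `psh F (Φ S) ~ psh F' (Φ S)` then
  `Φ (psh F S) ~ Φ (psh F' S)` by `nat`, so `psh F S ~ psh F' S` by `inj`.
* `isU_pull`: take `S'` with `Φ S' ~ S` by `surj`. (1) given `B : P.X H` take `F` with `psh F S ~ Φ B`; then
  `Φ (psh F S') ~ psh F (Φ S') ~ psh F S ~ Φ B`, use `inj`. (2) `psh F S' ~ psh F' S'` gives
  `psh F (Φ S') ~ psh F' (Φ S')`, so `psh F S ~ psh F' S`.
* `isU_unique`: take `F : G →* G'` with `psh F S ~ S'` and `F' : G' →* G` with `psh F' S' ~ S`. Then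
  `psh (F'.comp F) S ~ psh F' (psh F S) ~ psh F' S' ~ S ~ psh (id) S`, so `F' (F x)` is conjugate to `x` by
  one element (for all `x`), so `F` is injective and `F'` is surjective; in the same way `F'` is injective (and
  `F` is surjective). Take `MulEquiv.ofBijective F`.
-/

set_option autoImplicit false

namespace RaagBP

theorem isU_rel {P : FP} {G : Type} [Group G] {S S' : P.X G} (h : P.R S S') (hS : IsU P G S) :
    IsU P G S' := by
  refine ⟨fun H _ B => ?_, fun H _ F F' hF => ?_⟩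
  · obtain ⟨F, hF⟩ := hS.1 H B
    exact ⟨F, P.trans (P.symm (P.pshr F h)) hF⟩
  · exact hS.2 H F F' (P.trans (P.trans (P.pshr F h) hF) (P.symm (P.pshr F' h)))

theorem pm_comp {P Q T : FP} {Φ : ∀ (H : Type) [Group H], P.X H → Q.X H}
    {Ψ : ∀ (H : Type) [Group H], Q.X H → T.X H} (h : PM P Q Φ) (h' : PM Q T Ψ) :
    PM P T (fun H _ x => Ψ H (Φ H x)) where
  r H _ x y hxy := h'.r H _ _ (h.r H x y hxy)
  nat H K _ _ F x := T.trans (h'.r K _ _ (h.nat H K F x)) (h'.nat H K F (Φ H x))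
  surj H _ y := by
    obtain ⟨z, hz⟩ := h'.surj H y
    obtain ⟨x, hx⟩ := h.surj H z
    exact ⟨x, T.trans (h'.r H _ _ hx) hz⟩
  inj H _ x y hxy := h.inj H x y (h'.inj H _ _ hxy)

theorem isU_push {P Q : FP} {Φ : ∀ (H : Type) [Group H], P.X H → Q.X H} (h : PM P Q Φ)
    {G : Type} [Group G] {S : P.X G} (hS : IsU P G S) : IsU Q G (Φ G S) := by
  refine ⟨fun H _ B => ?_, fun H _ F F' hF => ?_⟩
  · obtain ⟨x, hx⟩ := h.surj H B
    obtain ⟨F, hF⟩ := hS.1 H x
    exact ⟨F, Q.trans (Q.symm (h.nat G H F S)) (Q.trans (h.r H _ _ hF) hx)⟩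
  · refine hS.2 H F F' (h.inj H _ _ ?_)
    exact Q.trans (h.nat G H F S) (Q.trans hF (Q.symm (h.nat G H F' S)))

theorem isU_pull {P Q : FP} {Φ : ∀ (H : Type) [Group H], P.X H → Q.X H} (h : PM P Q Φ)
    {G : Type} [Group G] {S : Q.X G} (hS : IsU Q G S) :
    ∃ S' : P.X G, Q.R (Φ G S') S ∧ IsU P G S' := by
  obtain ⟨S', hS'⟩ := h.surj G S
  refine ⟨S', hS', fun H _ B => ?_, fun H _ F F' hF => ?_⟩
  · obtain ⟨F, hF⟩ := hS.1 H (Φ H B)
    refine ⟨F, h.inj H _ _ ?_⟩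
    exact Q.trans (h.nat G H F S') (Q.trans (Q.pshr F hS') hF)
  · refine hS.2 H F F' ?_
    have h1 : Q.R (Q.psh F (Φ G S')) (Q.psh F' (Φ G S')) :=
      Q.trans (Q.symm (h.nat G H F S')) (Q.trans (h.r H _ _ hF) (h.nat G H F' S'))
    exact Q.trans (Q.symm (Q.pshr F hS')) (Q.trans h1 (Q.pshr F' hS'))

private theorem isU_conj_id {P : FP} {G G' : Type} [Group G] [Group G'] {S : P.X G} {S' : P.X G'}
    (h : IsU P G S) {F : G →* G'} {F' : G' →* G} (hF : P.R (P.psh F S) S')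
    (hF' : P.R (P.psh F' S') S) : ∃ g : G, ∀ x, F' (F x) = g * x * g⁻¹ := by
  have h1 : P.R (P.psh (MonoidHom.id G) S) (P.psh (F'.comp F) S) :=
    P.trans (P.idd S) (P.symm (P.trans (P.comp F F' S) (P.trans (P.pshr F' hF) hF')))
  obtain ⟨g, hg⟩ := h.2 G _ _ h1
  exact ⟨g, fun x => hg x⟩

theorem isU_unique {P : FP} {G G' : Type} [Group G] [Group G'] {S : P.X G} {S' : P.X G'}
    (h : IsU P G S) (h' : IsU P G' S') :
    ∃ e : G ≃* G', P.R (P.psh e.toMonoidHom S) S' := by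
  obtain ⟨F, hF⟩ := h.1 G' S'
  obtain ⟨F', hF'⟩ := h'.1 G S
  obtain ⟨g, hg⟩ := isU_conj_id h hF hF'
  obtain ⟨g', hg'⟩ := isU_conj_id h' hF' hF
  have hinj : Function.Injective F := by
    intro x y hxy
    have h1 : g * x * g⁻¹ = g * y * g⁻¹ := by rw [← hg, ← hg, hxy]
    exact mul_left_cancel (mul_right_cancel h1)
  have hsurj : Function.Surjective F := by
    intro y
    refine ⟨F' (g'⁻¹ * y * g'), ?_⟩
    rw [hg']
    group
  refine ⟨MulEquiv.ofBijective F ⟨hinj, hsurj⟩, ?_⟩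
  have h2 : (MulEquiv.ofBijective F ⟨hinj, hsurj⟩).toMonoidHom = F := by
    ext x
    rfl
  rw [h2]
  exact hF

end RaagBP
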