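import Pool.Agent.Lib.MP_32d917_al_bl.PDefs

/-!
# P02 (40 min): orbits, cycles, the elements `zz`

Use `rep_orb`, `rep_eq`, `rep_rep`, `rep_rm`, `cn_mem`, `cn_rm`, `cn_inv`, `cn_one`, `per_mem`, `rm_mul`, `rm_one`, `b01_inv_left`,
`b01_inv_right`, `st_comm`, `pp_mono`.
* `rep_iff`: from right to left `rep_eq`; from left to right: `rep c -x-> c`, `rep d -y-> d`, so `c -x⁻¹ y-> d`.
* `rep_mono`: `rep_orb ρ S c` gives `x ∈ S ≤ T` with `rm (rep S c) x = c`; use `rep_eq`.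
* `per_rm`: the sets in the definition of `per` are equal: `rm (rm c x) (v^n) = rm c (x v^n) = rm c (v^n x) =
  rm (rm c v^n) x`, and `rm · x` is injective (`b01_inv_left`).
* `per_rep`: `rep_orb` gives `x ∈ S` with `rm (rep c) x = c`; use `per_rm`.
* `per_dvd`: the set of `n : ℤ` with `rm c (v^n) = c` is closed under addition and negation and contains `per`;
  if `rm c (v^n) = c` then also for `n % per` (a natural number `< per`), which is `0` by minimality (`Nat.sInf_le`).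
* `cyc_idx`: `rep_orb` for `PP {v}` and `pp_single`: `c = rm (rep c) (v^k)`, `k : ℤ`; put `j = (k % per).toNat` where
  `per = per c = per (rep c)` (`per_rep`, all elements of `PP {v}` commute with `gen v` by `st_comm` since `{v} ⊆ st v`).
* `cyc_uniq`: `rm c (v^j) = rm c (v^j')` gives `rm c (v^(j-j')) = c` (apply `rm · (v^(-j'))`, the powers commute),
  use `per_dvd` and `|j - j'| < per`.
* `zz_rep`: `cn_one`. `zz_conj`: put `Y = cn (PP E) c`, `Y' = cn (PP E) c'`, `y = cn (PP (E ∩ st v)) c` (so `rm c' y = c`,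
  `y` commutes with `gen v`, `per c = per c'`), `x = Y y⁻¹ Y'⁻¹`; `rep (PP E) c' = rep (PP E) c` by `rep_mono`;
  `rep c -Y-> c -y⁻¹-> c' -Y'⁻¹-> rep c`.
-/

set_option autoImplicit false

namespace RaagBP

open RaagIso

section

variable {W C I : Type} {Λ : SimpleGraph W}

theorem rep_iff {ρ : RA Λ →* Equiv.Perm C} {S : Subgroup (RA Λ)} {c d : C} :
    rep ρ S c = rep ρ S d ↔ ∃ x ∈ S, rm ρ c x = d := by
  refine ⟨fun h => ?_, rep_eq⟩
  obtain ⟨x, hx, hx1⟩ := rep_orb ρ S c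
  obtain ⟨y, hy, hy1⟩ := rep_orb ρ S d
  refine ⟨x⁻¹ * y, mul_mem (inv_mem hx) hy, ?_⟩
  rw [rm_mul]
  have h1 : rm ρ c x⁻¹ = rep ρ S c := by
    have h2 := b01_inv_left ρ (rep ρ S c) x
    rwa [hx1] at h2
  rw [h1, h, hy1]

theorem rep_mono {ρ : RA Λ →* Equiv.Perm C} {S T : Subgroup (RA Λ)} (h : S ≤ T) (c : C) :
    rep ρ T (rep ρ S c) = rep ρ T c := by
  obtain ⟨x, hx, hx1⟩ := rep_orb ρ S c
  exact rep_eq ⟨x, h hx, hx1⟩

private theorem p02_inj (ρ : RA Λ →* Equiv.Perm C) (x : RA Λ) {c d : C} (h : rm ρ c x = rm ρ d x) :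
    c = d := by
  have h1 := b01_inv_left ρ c x
  rw [h, b01_inv_left] at h1
  exact h1.symm

theorem per_rm {ρ : RA Λ →* Equiv.Perm C} {v : W} {x : RA Λ} (hx : gen v * x = x * gen v) (c : C) :
    per ρ v (rm ρ c x) = per ρ v c := by
  unfold per
  congr 1
  ext n
  have hcomm : x * gen v ^ n = gen v ^ n * x := (Commute.pow_left (show Commute (gen v) x from hx) n).eq.symm
  have h1 : rm ρ (rm ρ c x) (gen v ^ n) = rm ρ (rm ρ c (gen v ^ n)) x := by
    rw [← rm_mul, ← rm_mul, hcomm]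
  simp only [Set.mem_setOf_eq, h1]
  constructor
  · rintro ⟨h2, h3⟩
    exact ⟨h2, p02_inj ρ x h3⟩
  · rintro ⟨h2, h3⟩
    exact ⟨h2, by rw [h3]⟩

theorem per_rep {ρ : RA Λ →* Equiv.Perm C} {v : W} {S : Subgroup (RA Λ)}
    (hS : ∀ x ∈ S, gen v * x = x * gen v) (c : C) : per ρ v (rep ρ S c) = per ρ v c := by
  obtain ⟨x, hx, hx1⟩ := rep_orb ρ S c
  have h1 := per_rm (ρ := ρ) (hS x hx) (rep ρ S c)
  rw [hx1] at h1
  exact h1.symm

private theorem p02_zmul {ρ : RA Λ →* Equiv.Perm C} {v : W} {c : C} {n : ℤ}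
    (h : rm ρ c (gen v ^ n) = c) (k : ℤ) : rm ρ c (gen v ^ (n * k)) = c := by
  have h1 : (gen v : RA Λ) ^ n ∈ stb ρ c := h
  have h2 := zpow_mem h1 k
  rw [← zpow_mul] at h2
  exact h2

theorem per_dvd [Finite C] (ρ : RA Λ →* Equiv.Perm C) (v : W) (c : C) (n : ℤ) :
    rm ρ c (gen v ^ n) = c ↔ (per ρ v c : ℤ) ∣ n := by
  obtain ⟨hp, hpc⟩ := per_mem ρ v c
  have hpz : rm ρ c (gen v ^ (per ρ v c : ℤ)) = c := by
    rw [zpow_natCast]
    exact hpc
  constructor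
  · intro h
    have hp' : (0 : ℤ) < per ρ v c := by exact_mod_cast hp
    have h1 : rm ρ c (gen v ^ (n % (per ρ v c : ℤ))) = c := by
      have h2 : n % (per ρ v c : ℤ) = n + -(per ρ v c : ℤ) * (n / per ρ v c) := by
        have := Int.emod_add_mul_ediv n (per ρ v c)
        linarith
      rw [h2, zpow_add, rm_mul, h]
      have h3 : rm ρ c (gen v ^ (-(per ρ v c : ℤ))) = c := by
        have h4 : (gen v : RA Λ) ^ (per ρ v c : ℤ) ∈ stb ρ c := hpz
        have h5 := inv_mem h4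
        rw [← zpow_neg] at h5
        exact h5
      exact p02_zmul h3 _
    have h0 := Int.emod_nonneg n hp'.ne'
    have hlt := Int.emod_lt_of_pos n hp'
    by_contra hnd
    have hne : n % (per ρ v c : ℤ) ≠ 0 := fun h6 => hnd (Int.dvd_of_emod_eq_zero h6)
    obtain ⟨m, hm⟩ := Int.eq_ofNat_of_zero_le h0
    rw [hm] at h1 hlt hne
    rw [zpow_natCast] at h1
    have hm0 : 0 < m := by
      rcases Nat.eq_zero_or_pos m with rfl | h7
      · exact absurd rfl hne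
      · exact h7
    have h8 : per ρ v c ≤ m := Nat.sInf_le ⟨hm0, h1⟩
    have h9 : (m : ℤ) < per ρ v c := hlt
    omega
  · rintro ⟨k, rfl⟩
    exact p02_zmul hpz k

private theorem p02_single {v : W} {x : RA Λ} (h : x ∈ PP Λ {v}) : ∃ k : ℤ, x = gen v ^ k := by
  unfold PP at h
  rw [Set.image_singleton, ← Subgroup.zpowers_eq_closure] at h
  obtain ⟨k, hk⟩ := Subgroup.mem_zpowers_iff.1 h
  exact ⟨k, hk.symm⟩

private theorem p02_comm {v : W} (x : RA Λ) (hx : x ∈ PP Λ {v}) : gen v * x = x * gen v := by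
  obtain ⟨k, rfl⟩ := p02_single hx
  exact (Commute.zpow_right (Commute.refl (gen v)) k).eq

theorem cyc_idx [Finite C] (ρ : RA Λ →* Equiv.Perm C) (v : W) (c : C) :
    ∃ j : ℕ, j < per ρ v c ∧ rm ρ (rep ρ (PP Λ {v}) c) (gen v ^ j) = c := by
  obtain ⟨x, hx, hxc⟩ := rep_orb ρ (PP Λ {v}) c
  obtain ⟨k, rfl⟩ := p02_single hx
  have hper : per ρ v (rep ρ (PP Λ {v}) c) = per ρ v c := per_rep p02_comm c
  have hp : (0 : ℤ) < per ρ v c := by exact_mod_cast (per_mem ρ v c).1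
  have h0 := Int.emod_nonneg k hp.ne'
  have hlt := Int.emod_lt_of_pos k hp
  obtain ⟨j, hj⟩ := Int.eq_ofNat_of_zero_le h0
  refine ⟨j, by rw [hj] at hlt; exact_mod_cast hlt, ?_⟩
  have h1 : k = -(per ρ v c : ℤ) * -(k / per ρ v c) + (j : ℤ) := by
    have := Int.emod_add_mul_ediv k (per ρ v c)
    rw [hj] at this
    linarith [this]
  have h2 : rm ρ (rep ρ (PP Λ {v}) c) (gen v ^ (-(per ρ v c : ℤ) * -(k / per ρ v c))) =
      rep ρ (PP Λ {v}) c := by
    rw [per_dvd, hper]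
    exact ⟨k / per ρ v c, by ring⟩
  rw [h1, zpow_add, rm_mul, h2, zpow_natCast] at hxc
  exact hxc

theorem cyc_uniq [Finite C] (ρ : RA Λ →* Equiv.Perm C) (v : W) (c : C) {j j' : ℕ}
    (hj : j < per ρ v c) (hj' : j' < per ρ v c)
    (h : rm ρ c (gen v ^ j) = rm ρ c (gen v ^ j')) : j = j' := by
  have h1 : rm ρ c (gen v ^ ((j : ℤ) - j')) = c := by
    rw [sub_eq_add_neg, zpow_add, rm_mul, zpow_natCast, h, ← rm_mul, zpow_neg, zpow_natCast,
      mul_inv_cancel, rm_one]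
  rw [per_dvd] at h1
  have h2 := Int.eq_zero_of_abs_lt_dvd h1 (by
    rw [abs_lt]
    constructor <;> omega)
  omega

theorem zz_rep {ρ : RA Λ →* Equiv.Perm C} {E : Set W} (v : W) {c : C}
    (h : rep ρ (PP Λ E) c = c) : zz ρ E v c = gen v ^ per ρ v c := by
  unfold zz
  rw [cn_one h, one_mul, inv_one, mul_one]

theorem zz_conj [Finite C] (ρ : RA Λ →* Equiv.Perm C) (E : Set W) (v : W) (c : C) :
    ∃ x ∈ stb ρ (rep ρ (PP Λ E) c) ⊓ PP Λ E,
      zz ρ E v c = x * zz ρ E v (rep ρ (PP Λ (E ∩ st Λ v)) c) * x⁻¹ := by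
  set c' := rep ρ (PP Λ (E ∩ st Λ v)) c with hc'
  set Y := cn ρ (PP Λ E) c with hY
  set Y' := cn ρ (PP Λ E) c' with hY'
  set y := cn ρ (PP Λ (E ∩ st Λ v)) c with hy
  have hsub : PP Λ (E ∩ st Λ v) ≤ PP Λ E := pp_mono Set.inter_subset_left
  have hymem : y ∈ PP Λ (E ∩ st Λ v) := cn_mem _ _ _
  have hyst : y ∈ PP Λ (st Λ v) := pp_mono Set.inter_subset_right hymem
  have hrep : rep ρ (PP Λ E) c' = rep ρ (PP Λ E) c := rep_mono hsub c
  have hy1 : rm ρ c' y = c := cn_rm _ _ _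
  have hper : per ρ v c' = per ρ v c := per_rep (fun x hx => st_comm (pp_mono Set.inter_subset_right hx)) c
  refine ⟨Y * y⁻¹ * Y'⁻¹, Subgroup.mem_inf.2 ⟨?_, ?_⟩, ?_⟩
  · show rm ρ _ _ = _
    rw [rm_mul, rm_mul, cn_rm]
    have h1 : rm ρ c y⁻¹ = c' := cn_inv _ _ _
    rw [h1]
    have h2 : rm ρ c' Y'⁻¹ = rep ρ (PP Λ E) c' := cn_inv _ _ _
    rw [h2, hrep]
  · exact mul_mem (mul_mem (cn_mem _ _ _) (inv_mem (hsub hymem))) (inv_mem (cn_mem _ _ _))
  · have h3 : (gen v : RA Λ) * y = y * gen v := st_comm hyst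
    have h4 : (gen v : RA Λ) ^ per ρ v c * y = y * gen v ^ per ρ v c :=
      (Commute.pow_left (show Commute (gen v) y from h3) _).eq
    show Y * gen v ^ per ρ v c * Y⁻¹ = Y * y⁻¹ * Y'⁻¹ * (Y' * gen v ^ per ρ v c' * Y'⁻¹) * (Y * y⁻¹ * Y'⁻¹)⁻¹
    rw [hper]
    have h5 : y⁻¹ * gen v ^ per ρ v c * y = gen v ^ per ρ v c := by
      rw [mul_assoc, h4, inv_mul_cancel_left]
    calc Y * gen v ^ per ρ v c * Y⁻¹ = Y * (y⁻¹ * gen v ^ per ρ v c * y) * Y⁻¹ := by rw [h5]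
      _ = _ := by group

end

end RaagBP
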