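import Pool.Agent.Lib.MP_32d917_al_bl.PDefs

/-!
# P03 (25 min): the universal cocycle

Choose `τ : C → RA Λ` with `rm ρ c0 (τ c) = c` (`Trn`) and `τ c0 = 1` (replace the chosen element at `c0`). Put
`k c g = ⟨τ c * g * (τ (rm ρ c g))⁻¹, _⟩ : stb ρ c0` (membership: `b01_inv_left`).
(1) Given `B : ZC ρ H`: put `η c = B.k c0 (τ c)` (so `η c0 = 1` by `cc_one`) and `B' c g = η c * B.k c g * (η (rm c g))⁻¹`: a cocycle with
`B' c0 (τ c) = 1`, so also `B' c (τ c)⁻¹ = 1` (cocycle relation for `τ c * (τ c)⁻¹`). Let `F k = B' c0 k` (`MonoidHom.mk'`, using `rm ρ c0 k = c0`).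
Then `F (k c g) = B' c0 (τ c) * B' c g * B' (rm c g) (τ (rm c g))⁻¹ = B' c g`. The gauge from `psh F S` to `B` is `η⁻¹`.
(2) If `F' (k c g) = η c * F (k c g) * (η (rm c g))⁻¹` for all `c`, `g`: at `c = c0`, `g = x` for `x : stb ρ c0` we have `k c0 x = x`
(`τ c0 = 1`), so `F' x = η c0 * F x * (η c0)⁻¹`.
-/

set_option autoImplicit false

namespace RaagBP

open RaagIso

section

variable {W C : Type} {Λ : SimpleGraph W}

theorem zf_isU (ρ : RA Λ →* Equiv.Perm C) (hρ : Trn ρ) (c0 : C) :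
    ∃ (S : ZC ρ (stb ρ c0)) (τ : C → RA Λ), IsU (ZF ρ) (stb ρ c0) S ∧
      (∀ c, rm ρ c0 (τ c) = c) ∧
      ∀ c g, (S.k c g : RA Λ) = τ c * g * (τ (rm ρ c g))⁻¹ := by
  classical
  choose τ0 hτ0 using fun c => hρ c0 c
  set τ : C → RA Λ := fun c => if c = c0 then 1 else τ0 c with hτdef
  have hτ : ∀ c, rm ρ c0 (τ c) = c := by
    intro c
    rw [hτdef]
    by_cases h : c = c0
    · simp only [h, if_true]
      exact rm_one ρ c0
    · simp only [h, if_false]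
      exact hτ0 c
  have hτ1 : τ c0 = 1 := by rw [hτdef]; simp
  have hmem : ∀ c g, τ c * g * (τ (rm ρ c g))⁻¹ ∈ stb ρ c0 := by
    intro c g
    show rm ρ c0 _ = c0
    rw [rm_mul, rm_mul, hτ]
    have h1 := b01_inv_left ρ c0 (τ (rm ρ c g))
    rwa [hτ] at h1
  let S : ZC ρ (stb ρ c0) := ⟨fun c g => ⟨τ c * g * (τ (rm ρ c g))⁻¹, hmem c g⟩, by
    intro c g g'
    apply Subtype.ext
    show τ c * (g * g') * (τ (rm ρ c (g * g')))⁻¹ =
      (τ c * g * (τ (rm ρ c g))⁻¹) * (τ (rm ρ c g) * g' * (τ (rm ρ (rm ρ c g) g'))⁻¹)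
    rw [rm_mul]
    group⟩
  refine ⟨S, τ, ⟨fun H _ B => ?_, fun H _ F F' hF => ?_⟩, hτ, fun c g => rfl⟩
  · let B' : ZC ρ H := B
    have hB1 : ∀ c, B'.k c 1 = 1 := fun c => cc_one B'.hk c
    let F : stb ρ c0 →* H := MonoidHom.mk' (fun x => B'.k c0 (x : RA Λ)) (by
      intro x y
      have h : rm ρ c0 (x : RA Λ) = c0 := x.2
      show B'.k c0 ((x : RA Λ) * (y : RA Λ)) = _
      rw [B'.hk, h])
    refine ⟨F, fun c => (B'.k c0 (τ c))⁻¹, fun c g => ?_⟩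
    show B'.k c g = (B'.k c0 (τ c))⁻¹ * B'.k c0 (τ c * g * (τ (rm ρ c g))⁻¹) *
      ((B'.k c0 (τ (rm ρ c g)))⁻¹)⁻¹
    have h1 : B'.k (rm ρ c g) (τ (rm ρ c g))⁻¹ = (B'.k c0 (τ (rm ρ c g)))⁻¹ := by
      have h2 := B'.hk c0 (τ (rm ρ c g)) (τ (rm ρ c g))⁻¹
      rw [mul_inv_cancel, hB1, hτ] at h2
      exact (inv_eq_of_mul_eq_one_right h2.symm).symm
    rw [B'.hk, B'.hk, rm_mul, hτ, h1]
    group
  · obtain ⟨η, hη⟩ := hF
    refine ⟨η c0, fun x => ?_⟩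
    have hx : rm ρ c0 (x : RA Λ) = c0 := x.2
    have h1 : F' (S.k c0 (x : RA Λ)) = η c0 * F (S.k c0 (x : RA Λ)) * (η (rm ρ c0 (x : RA Λ)))⁻¹ :=
      hη c0 (x : RA Λ)
    have h2 : S.k c0 (x : RA Λ) = x := by
      apply Subtype.ext
      show τ c0 * (x : RA Λ) * (τ (rm ρ c0 (x : RA Λ)))⁻¹ = x
      rw [hx, hτ1]
      group
    rw [h2, hx] at h1
    exact h1

end

end RaagBP
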