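import Pool.Agent.Lib.MP_32d917_al_bl.P04

/-!
# P05 (45 min): merging two pieces

The walls `e1 ≠ e2` lie in the same object `o`, `z e1 = y * z e2 * y⁻¹` with `y ∈ K o`, and belong to different pieces. Remove the wall
`e2` and the piece `wp e2` (it becomes the piece `wp e1`: map `m`).
`(Φ S).b = S.b`, `(Φ S).z p = S.z (m p)`, `(Φ S).t w = S.t ⟨w, _⟩` for `w ≠ e2` and `(Φ S).t e2 = S.t ⟨e1, _⟩ * b y` (`b = S.b (wo e1)`, with `b_cast`),
`(Φ S).u = S.u`. `ht` for `e2`: `t1 * b y * b (z e2) = t1 * b (z e1) * b y = z1 * t1 * b y`. (`classical`, `if h : w = e2 then .. else ..`.)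
`r`: gauge `h`, `g ∘ m`. `nat`: gauges `1` (fields are equal; case distinction `w = e2`).
`inj`: let `Φ S ~ Φ S'` with gauges `h`, `g`. The equations for `e1` and `e2` give `S'.t e1 = g (wp e1) * S.t e1 * h⁻¹` and `S'.t e1 * b' y = g (wp e2) * S.t e1 * b y * h⁻¹`
with `b' y = h * b y * h⁻¹`, so `g (wp e2) = g (wp e1)`, and `g p = g (m p)` for all `p`. The gauges `h`, `p ↦ g p.1` work.
`surj`: given `S`, put `s = S.t e1 * b y * (S.t e2)⁻¹`, `g (wp e2) = s`, `g p = 1` otherwise, `h = 1`; let `S1` be the gauge transform of `S`; then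
`S1.t e2 = S1.t e1 * b y` and so `S1.z (wp e2) = S1.t e2 * b (z e2) * (S1.t e2)⁻¹ = S1.t e1 * b (z e1) * (S1.t e1)⁻¹ = S1.z (wp e1)`. Define `S'` by restriction of `S1`:
`S'.z p = S1.z p.1`, `S'.t w = S1.t w.1`, `S'.u = S1.u`, `S'.b = S.b`; then `S1.z p = S'.z (m p)` for all `p`, and `Φ S' ~ S` by the gauges `1`, `g⁻¹`.
-/

set_option autoImplicit false

namespace RaagBP

open RaagIso

section

variable {A : Type} [Group A]

private theorem P05_conj {A : Type} [Group A] {K : Subgroup A} {H : Type} [Group H] (B : K →* H)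
    {z x y : A} (hz : z ∈ K) (hx : x ∈ K) (hy : y ∈ K) (e : z = x * y * x⁻¹) :
    B ⟨z, hz⟩ = B ⟨x, hx⟩ * B ⟨y, hy⟩ * (B ⟨x, hx⟩)⁻¹ := by
  rw [← map_inv, ← map_mul, ← map_mul]
  congr 1
  exact Subtype.ext e

theorem merge_pm (Ob : Type) (K : Ob → Subgroup A) (Pc Wl Lp : Type) (wo : Wl → Ob)
    (wp : Wl → Pc) (lp : Lp → Pc) (z : Wl → A) (hz : ∀ w, z w ∈ K (wo w)) (e1 e2 : Wl)
    (hne : e1 ≠ e2) (ho : wo e1 = wo e2) (y : A) (hy : y ∈ K (wo e1))
    (hzy : z e1 = y * z e2 * y⁻¹) (hp : wp e1 ≠ wp e2) (m : Pc → {p : Pc // p ≠ wp e2})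
    (hm1 : m (wp e2) = ⟨wp e1, hp⟩) (hm2 : ∀ (p : Pc) (h : p ≠ wp e2), m p = ⟨p, h⟩) :
    ∃ Φ : ∀ (H : Type) [Group H],
      Sy (⟨Ob, {p : Pc // p ≠ wp e2}, {w : Wl // w ≠ e2}, Lp, K, fun w => wo w.1,
        fun w => m (wp w.1), fun l => m (lp l), fun w => z w.1, fun w => hz w.1⟩ : CD A) H →
      Sy (⟨Ob, Pc, Wl, Lp, K, wo, wp, lp, z, hz⟩ : CD A) H,
      PM (SyF ⟨Ob, {p : Pc // p ≠ wp e2}, {w : Wl // w ≠ e2}, Lp, K, fun w => wo w.1,
        fun w => m (wp w.1), fun l => m (lp l), fun w => z w.1, fun w => hz w.1⟩)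
        (SyF ⟨Ob, Pc, Wl, Lp, K, wo, wp, lp, z, hz⟩) Φ ∧
      (∀ (H : Type) [Group H] S o, (Φ H S).b o = S.b o) ∧
      ∀ (H : Type) [Group H] S p, (Φ H S).z p = S.z (m p) := by
  classical
  have hz2 : z e2 ∈ K (wo e1) := by rw [ho]; exact hz e2
  have hm : m (wp e2) = m (wp e1) := by rw [hm1, hm2 _ hp]
  refine ⟨fun H _ S =>
    { b := S.b
      z := fun p => S.z (m p)
      t := fun w => if h : w = e2 then S.t ⟨e1, hne⟩ * S.b (wo e1) ⟨y, hy⟩ else S.t ⟨w, h⟩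
      u := S.u
      ht := fun w => ?_
      hu := S.hu }, ?_, fun H _ S o => rfl, fun H _ S p => rfl⟩
  · by_cases h : w = e2
    · subst h
      dsimp only
      rw [dif_pos rfl]
      have h1 := S.ht ⟨e1, hne⟩
      have h3 := P05_conj (S.b (wo e1)) (hz e1) hy hz2 hzy
      have h4 : S.b (wo w) ⟨z w, hz w⟩ = S.b (wo e1) ⟨z w, hz2⟩ := b_cast S ho.symm rfl _ _
      dsimp only at h1 h3 h4
      rw [h3] at h1
      rw [h4, hm]
      calc S.t ⟨e1, hne⟩ * S.b (wo e1) ⟨y, hy⟩ * S.b (wo e1) ⟨z w, hz2⟩ =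
          (S.t ⟨e1, hne⟩ * (S.b (wo e1) ⟨y, hy⟩ * S.b (wo e1) ⟨z w, hz2⟩ *
            (S.b (wo e1) ⟨y, hy⟩)⁻¹)) * S.b (wo e1) ⟨y, hy⟩ := by group
        _ = _ := by rw [h1]; group
    · dsimp only
      rw [dif_neg h]
      exact S.ht ⟨w, h⟩
  · constructor
    · rintro H _ S S' ⟨h, g, h1, h2, h3, h4⟩
      refine ⟨h, fun p => g (m p), h1, fun p => h2 (m p), fun w => ?_, fun l => h4 l⟩
      dsimp only
      by_cases hw : w = e2
      · subst hw
        rw [dif_pos rfl, dif_pos rfl]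
        have e3 := h3 ⟨e1, hne⟩
        have e1' := h1 (wo e1) ⟨y, hy⟩
        dsimp only at e1' e3
        rw [e3, e1', hm, ← ho]
        group
      · rw [dif_neg hw, dif_neg hw]
        exact h3 ⟨w, hw⟩
    · intro H K' _ _ F S
      refine ⟨fun _ => 1, fun _ => 1, fun o y => ?_, fun p => ?_, fun w => ?_, fun l => ?_⟩
      · simp [Sy.push, SyF]
      · simp [Sy.push, SyF]
      · by_cases hw : w = e2
        · subst hw
          simp [Sy.push, SyF]
        · simp [Sy.push, SyF, hw]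
      · simp [Sy.push, SyF]
    · intro H _ S
      obtain ⟨g0, hg1, hg2⟩ : ∃ g0 : Pc → H, g0 (wp e2) =
          S.t e1 * S.b (wo e1) ⟨y, hy⟩ * (S.t e2)⁻¹ ∧ ∀ p, p ≠ wp e2 → g0 p = 1 :=
        ⟨fun p => if p = wp e2 then S.t e1 * S.b (wo e1) ⟨y, hy⟩ * (S.t e2)⁻¹ else 1,
          if_pos rfl, fun p h => if_neg h⟩
      have z12 : g0 (wp e2) * S.z (wp e2) * (g0 (wp e2))⁻¹ = S.z (wp e1) := by
        have h1 := S.ht e1
        have h2 := S.ht e2
        have h3 := P05_conj (S.b (wo e1)) (hz e1) hy hz2 hzy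
        have h4 : S.b (wo e2) ⟨z e2, hz e2⟩ = S.b (wo e1) ⟨z e2, hz2⟩ := b_cast S ho.symm rfl _ _
        dsimp only at h1 h2 h3 h4
        rw [h3] at h1
        rw [h4] at h2
        rw [hg1]
        calc S.t e1 * S.b (wo e1) ⟨y, hy⟩ * (S.t e2)⁻¹ * S.z (wp e2) *
              (S.t e1 * S.b (wo e1) ⟨y, hy⟩ * (S.t e2)⁻¹)⁻¹ =
            S.t e1 * S.b (wo e1) ⟨y, hy⟩ * (S.t e2)⁻¹ * (S.z (wp e2) * S.t e2) *
              (S.b (wo e1) ⟨y, hy⟩)⁻¹ * (S.t e1)⁻¹ := by group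
          _ = (S.t e1 * (S.b (wo e1) ⟨y, hy⟩ * S.b (wo e1) ⟨z e2, hz2⟩ *
              (S.b (wo e1) ⟨y, hy⟩)⁻¹)) * (S.t e1)⁻¹ := by rw [← h2]; group
          _ = S.z (wp e1) := by rw [h1]; group
      have zm : ∀ p, g0 (m p).1 * S.z (m p).1 * (g0 (m p).1)⁻¹ =
          g0 p * S.z p * (g0 p)⁻¹ := by
        intro p
        by_cases h : p = wp e2
        · rw [h, hm1, z12]
          dsimp only
          rw [hg2 _ hp]
          group
        · rw [hm2 p h]
      refine ⟨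
        { b := S.b
          z := fun p => g0 p.1 * S.z p.1 * (g0 p.1)⁻¹
          t := fun w => g0 (wp w.1) * S.t w.1
          u := fun l => g0 (lp l) * S.u l * (g0 (lp l))⁻¹
          ht := fun w => ?_
          hu := fun l => ?_ }, fun _ => 1, fun p => (g0 p)⁻¹, fun o y => ?_, fun p => ?_,
            fun w => ?_, fun l => ?_⟩
      · dsimp only
        rw [zm]
        have h1 := S.ht w.1
        dsimp only at h1
        rw [mul_assoc, h1]
        group
      · dsimp only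
        rw [zm]
        have h1 := S.hu l
        dsimp only at h1
        calc g0 (lp l) * S.u l * (g0 (lp l))⁻¹ * (g0 (lp l) * S.z (lp l) * (g0 (lp l))⁻¹) =
            g0 (lp l) * (S.u l * S.z (lp l)) * (g0 (lp l))⁻¹ := by group
          _ = _ := by rw [h1]; group
      · simp
      · show S.z p = (g0 p)⁻¹ * (g0 (m p).1 * S.z (m p).1 * (g0 (m p).1)⁻¹) * ((g0 p)⁻¹)⁻¹
        rw [zm]
        group
      · by_cases hw : w = e2
        · subst hw
          show S.t w = (g0 (wp w))⁻¹ * (if h : w = w then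
            (g0 (wp e1) * S.t e1) * S.b (wo e1) ⟨y, hy⟩ else g0 (wp w) * S.t w) * (1 : H)⁻¹
          rw [dif_pos rfl, hg1, hg2 _ hp]
          group
        · show S.t w = (g0 (wp w))⁻¹ * (if h : w = e2 then
            (g0 (wp e1) * S.t e1) * S.b (wo e1) ⟨y, hy⟩ else g0 (wp w) * S.t w) * (1 : H)⁻¹
          rw [dif_neg hw]
          group
      · show S.u l = (g0 (lp l))⁻¹ * (g0 (lp l) * S.u l * (g0 (lp l))⁻¹) * ((g0 (lp l))⁻¹)⁻¹
        group
    · rintro H _ S S' ⟨h, g, h1, h2, h3, h4⟩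
      have e3 : ∀ (w : Wl) (hw : w ≠ e2), S'.t ⟨w, hw⟩ = g (wp w) * S.t ⟨w, hw⟩ * (h (wo w))⁻¹ := by
        intro w hw
        have := h3 w
        dsimp only at this
        rw [dif_neg hw, dif_neg hw] at this
        exact this
      have g12 : g (wp e2) = g (wp e1) := by
        have e4 := h3 e2
        have e1' := h1 (wo e1) ⟨y, hy⟩
        dsimp only at e4 e1'
        rw [dif_pos rfl, dif_pos rfl, e3 e1 hne, e1', ← ho] at e4
        calc g (wp e2) = (g (wp e2) * (S.t ⟨e1, hne⟩ * S.b (wo e1) ⟨y, hy⟩) * (h (wo e1))⁻¹) *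
              (S.t ⟨e1, hne⟩ * S.b (wo e1) ⟨y, hy⟩ * (h (wo e1))⁻¹)⁻¹ := by group
          _ = _ := by rw [← e4]; group
      have gm : ∀ p, g (m p).1 = g p := by
        intro p
        by_cases hp' : p = wp e2
        · rw [hp', hm1, g12]
        · rw [hm2 p hp']
      refine ⟨h, fun p => g p.1, h1, fun p => ?_, fun w => ?_, fun l => ?_⟩
      · have := h2 p.1
        dsimp only at this ⊢
        rw [hm2 p.1 p.2] at this
        exact this
      · dsimp only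
        rw [gm]
        exact e3 w.1 w.2
      · dsimp only
        rw [gm]
        exact h4 l

end

end RaagBP
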