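import Pool.Agent.Lib.MP_32d917_al_bl.P02

/-!
# P14 (45 min): the walls and the pieces

* `fB_surj`: given `(i, v, c')` take `(i, v, rep ρ (PP Λ {v}) c')`: `rep_mono` (`{v} ⊆ D i ∩ st v`, `pp_mono`). `qB_surj` in the same way.
* `fB_wo`, `fB_wp`: `rep_mono` (`Subtype.ext`, `Prod.ext`). `fB_z`: `zz_conj`.
* `fB_con`: let `a = (v, c)`, `b = (v', c')` with `qB a = qB b`: then `v = v'` and `c' = rm ρ c x` with `x ∈ PP (st v)` (`rep_iff`). Show by `Subgroup.closure_induction` on `x ∈ PP (st v)` (`PP` is the closure of the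
  generators): for all `c : C`, the pieces `(v, rep (PP {v}) c)` and `(v, rep (PP {v}) (rm c x))` are joined by a path of steps. Generators: let `a ∈ st v`; there is a block `i` with `v ∈ D i`, `a ∈ D i` (if `a = v`: `v` is cut;
  if `a` is adjacent to `v`: `adj`); the walls `w = (i, v, rep (PP {v}) c)`, `w' = (i, v, rep (PP {v}) (rm c a))` have the same `fB` since `a ∈ D i ∩ st v` and `PP {v} ≤ PP (D i ∩ st v)`. Products: transitivity; inverses: the relation is symmetric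
  (`Relation.ReflTransGen.symmetric`), applied to `rm c x⁻¹`.
  At the end `rep (PP {v}) c = c`, `rep (PP {v}) c' = c'` for pieces.
-/

set_option autoImplicit false

namespace RaagBP

open RaagIso

section

variable {W C I : Type} {Λ : SimpleGraph W} [Finite C]

/-- the wall of an incidence -/
noncomputable def fB (ρ : RA Λ →* Equiv.Perm C) (D : I → Set W) (w : (cdB ρ D).Wl) :
    (cdA ρ D Empty (fun e => e.elim)).Wl :=
  ⟨(w.1.1, w.1.2.1, rep ρ (PP Λ (D w.1.1 ∩ st Λ w.1.2.1)) w.1.2.2), w.2.1, w.2.2.1,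
    rep_rep ρ _ _⟩

/-- the piece of a cycle -/
noncomputable def qB (ρ : RA Λ →* Equiv.Perm C) (D : I → Set W) (p : (cdB ρ D).Pc) : PcN ρ D :=
  ⟨(p.1.1, rep ρ (PP Λ (st Λ p.1.1)) p.1.2), p.2.1, rep_rep ρ _ _⟩

private theorem P14_symm {α : Type*} {R : α → α → Prop} (h : ∀ a b, R a b → R b a) {a b : α}
    (hab : Relation.ReflTransGen R a b) : Relation.ReflTransGen R b a := by
  induction hab with
  | refl => exact Relation.ReflTransGen.refl
  | tail _ h2 ih => exact Relation.ReflTransGen.head (h _ _ h2) ih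

private theorem P14_sub (D : I → Set W) (i : I) {v : W} (hv : v ∈ D i) :
    PP Λ {v} ≤ PP Λ (D i ∩ st Λ v) := by
  apply pp_mono
  intro a ha
  rw [Set.mem_singleton_iff] at ha
  subst ha
  exact ⟨hv, Or.inl rfl⟩

private theorem P14_sub' (v : W) : PP Λ {v} ≤ PP Λ (st Λ v) := by
  apply pp_mono
  intro a ha
  rw [Set.mem_singleton_iff] at ha
  subst ha
  exact Or.inl rfl

theorem fB_surj (ρ : RA Λ →* Equiv.Perm C) (D : I → Set W) : Function.Surjective (fB ρ D) := by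
  rintro ⟨⟨i, v, c'⟩, hv, hct, hr⟩
  refine ⟨⟨(i, v, rep ρ (PP Λ {v}) c'), hv, hct, rep_rep ρ _ _⟩, ?_⟩
  apply Subtype.ext
  have h1 : rep ρ (PP Λ (D i ∩ st Λ v)) (rep ρ (PP Λ {v}) c') = c' :=
    (rep_mono (P14_sub D i hv) c').trans hr
  exact Prod.ext rfl (Prod.ext rfl h1)

theorem qB_surj (ρ : RA Λ →* Equiv.Perm C) (D : I → Set W) : Function.Surjective (qB ρ D) := by
  rintro ⟨⟨v, c'⟩, hct, hr⟩
  refine ⟨⟨(v, rep ρ (PP Λ {v}) c'), hct, rep_rep ρ _ _⟩, ?_⟩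
  apply Subtype.ext
  have h1 : rep ρ (PP Λ (st Λ v)) (rep ρ (PP Λ {v}) c') = c' :=
    (rep_mono (P14_sub' v) c').trans hr
  exact Prod.ext rfl h1

theorem fB_wo (ρ : RA Λ →* Equiv.Perm C) (D : I → Set W) (w : (cdB ρ D).Wl) :
    (cdA ρ D Empty (fun e => e.elim)).wo (fB ρ D w) = (cdB ρ D).wo w := by
  apply Subtype.ext
  exact Prod.ext rfl (rep_mono (pp_mono Set.inter_subset_left) _)

theorem fB_wp (ρ : RA Λ →* Equiv.Perm C) (D : I → Set W) (w : (cdB ρ D).Wl) :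
    (cdA ρ D Empty (fun e => e.elim)).wp (fB ρ D w) = qB ρ D ((cdB ρ D).wp w) := by
  apply Subtype.ext
  exact Prod.ext rfl (rep_mono (pp_mono Set.inter_subset_right) _)

theorem fB_z (ρ : RA Λ →* Equiv.Perm C) (D : I → Set W) (w : (cdB ρ D).Wl) :
    ∃ x ∈ (cdB ρ D).K ((cdB ρ D).wo w), (cdB ρ D).z w =
      x * (cdA ρ D Empty (fun e => e.elim)).z (fB ρ D w) * x⁻¹ :=
  zz_conj ρ (D w.1.1) w.1.2.1 w.1.2.2

theorem fB_con [LinearOrder I] (ρ : RA Λ →* Equiv.Perm C) {D : I → Set W} {tp : I → W}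
    (hD : BS Λ D tp) (a b : (cdB ρ D).Pc) (h : qB ρ D a = qB ρ D b) :
    Relation.ReflTransGen (fun a b => ∃ w w', fB ρ D w = fB ρ D w' ∧ (cdB ρ D).wp w = a ∧
      (cdB ρ D).wp w' = b) a b := by
  obtain ⟨⟨v, c⟩, hv, hc⟩ := a
  obtain ⟨⟨v', c'⟩, hv', hc'⟩ := b
  have h1 := congrArg Subtype.val h
  have h2 : v = v' := congrArg Prod.fst h1
  subst h2
  have h3 : rep ρ (PP Λ (st Λ v)) c = rep ρ (PP Λ (st Λ v)) c' := congrArg Prod.snd h1
  have key : ∀ x ∈ PP Λ (st Λ v), ∀ c : C,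
      Relation.ReflTransGen (fun a b => ∃ w w', fB ρ D w = fB ρ D w' ∧ (cdB ρ D).wp w = a ∧
        (cdB ρ D).wp w' = b)
        (⟨(v, rep ρ (PP Λ {v}) c), hv, rep_rep ρ _ _⟩ : (cdB ρ D).Pc)
        (⟨(v, rep ρ (PP Λ {v}) (rm ρ c x)), hv, rep_rep ρ _ _⟩ : (cdB ρ D).Pc) := by
    intro x hx
    induction hx using Subgroup.closure_induction with
    | mem x hx =>
      obtain ⟨a, ha, rfl⟩ := hx
      intro c
      obtain ⟨i, hi1, hi2⟩ : ∃ i, v ∈ D i ∧ a ∈ D i := by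
        rcases ha with ha | ha
        · obtain ⟨i, hi⟩ := hD.cov v
          exact ⟨i, hi, by rw [ha]; exact hi⟩
        · exact hD.adj v a ha
      apply Relation.ReflTransGen.single
      refine ⟨⟨(i, v, rep ρ (PP Λ {v}) c), hi1, hv, rep_rep ρ _ _⟩,
        ⟨(i, v, rep ρ (PP Λ {v}) (rm ρ c (gen a))), hi1, hv, rep_rep ρ _ _⟩, ?_, rfl, rfl⟩
      apply Subtype.ext
      have h4 : rep ρ (PP Λ (D i ∩ st Λ v)) (rep ρ (PP Λ {v}) c) =
          rep ρ (PP Λ (D i ∩ st Λ v)) (rep ρ (PP Λ {v}) (rm ρ c (gen a))) := by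
        rw [rep_mono (P14_sub D i hi1) c, rep_mono (P14_sub D i hi1) (rm ρ c (gen a))]
        exact rep_eq ⟨gen a, gen_mem ⟨hi2, ha⟩, rfl⟩
      exact Prod.ext rfl (Prod.ext rfl h4)
    | one =>
      intro c
      rw [rm_one]
    | mul x y _ _ ihx ihy =>
      intro c
      rw [rm_mul]
      exact (ihx c).trans (ihy (rm ρ c x))
    | inv x _ ih =>
      intro c
      have h5 := ih (rm ρ c x⁻¹)
      rw [b01_inv_right] at h5
      refine P14_symm ?_ h5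
      rintro a b ⟨w, w', h6, h7, h8⟩
      exact ⟨w', w, h6.symm, h8, h7⟩
  obtain ⟨x, hx, hxc⟩ := rep_iff.1 h3
  have h4 := key x hx c
  rw [hxc] at h4
  have h5 : rep ρ (PP Λ {v}) c = c := hc
  have h6 : rep ρ (PP Λ {v}) c' = c' := hc'
  have h7 : (⟨(v, rep ρ (PP Λ {v}) c), hv, rep_rep ρ _ _⟩ : (cdB ρ D).Pc) = ⟨(v, c), hv, hc⟩ :=
    Subtype.ext (Prod.ext rfl h5)
  have h8 : (⟨(v, rep ρ (PP Λ {v}) c'), hv, rep_rep ρ _ _⟩ : (cdB ρ D).Pc) =
      ⟨(v, c'), hv, hc'⟩ :=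
    Subtype.ext (Prod.ext rfl h6)
  rw [h7, h8] at h4
  exact h4

end

end RaagBP
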