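import Pool.Agent.Lib.MP_32d917_al_bl.P02

/-!
# P17 (60 min): standard subgroups as groups of subgraphs, the action on an orbit

* `exists_sub`: `ι` by `ra_lift`. Left inverse `r : RA Λ →* RA (sG Λ T)` by `ra_lift` with `r (gen v) = gen ⟨v, h⟩` if `h : v ∈ T` and `1` otherwise (`classical`); `r (ι x) = x` by `ra_ext`. `ι` maps `PP S` into
  `PP (val '' S)` (closure induction); if `ι x ∈ PP (val '' S)` then `x = r (ι x) ∈ PP S` since `r` maps `gen a.1` to `gen a` (closure induction).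
* `sI_range`: `PP Λ T = PP Λ (val '' univ)`; closure induction.
* `exists_la`: `ρ0 x = (ρ (ι x)).subtypePerm _`; `ρ (ι x) c = rm ρ c (ι x)⁻¹` lies in the same orbit under `PP (st v)` (`rep_rm`, `sI_range`).
* `lA_trn`: `rep_iff` and `sI_range`. `lA_stb`: `Subtype.ext_iff`, `lA_rm`. `lA_rep`: `rep_iff` twice; `rm lA c x = d` with `x ∈ PP S` iff `rm ρ c.1 (ι x) = d.1`; elements of `PP Λ (val '' S)` are `ι x` (`sI_range` by `pp_mono`,
  `sI_mem`). `lA_per`: `sI_gen`, `map_pow`.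
* `lA_iso`: `MulEquiv.ofBijective` of the restriction of `ι` (`sI_inj`, `sI_range`, `lA_stb`).
-/

set_option autoImplicit false

namespace RaagBP

open RaagIso

section

variable {W C : Type} {Λ : SimpleGraph W}

/-- the graph on a set of vertices -/
abbrev sG (Λ : SimpleGraph W) (T : Set W) : SimpleGraph T := Λ.comap Subtype.val

theorem exists_sub (Λ : SimpleGraph W) (T : Set W) : ∃ ι : RA (sG Λ T) →* RA Λ,
    Function.Injective ι ∧ (∀ a, ι (gen a) = gen a.1) ∧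
    ∀ (S : Set T) (x : RA (sG Λ T)), ι x ∈ PP Λ (Subtype.val '' S) ↔ x ∈ PP (sG Λ T) S := by
  classical
  obtain ⟨ι, hι⟩ := ra_lift (Γ := sG Λ T) (K := RA Λ) (fun a => gen a.1)
    (fun a b h => gen_comm h)
  obtain ⟨r, hr⟩ := ra_lift (Γ := Λ) (K := RA (sG Λ T))
    (fun v => if h : v ∈ T then gen ⟨v, h⟩ else 1) (by
      intro v w hvw
      by_cases h : v ∈ T
      · by_cases h' : w ∈ T
        · rw [dif_pos h, dif_pos h']
          exact gen_comm (Γ := sG Λ T) (v := ⟨v, h⟩) (w := ⟨w, h'⟩) hvw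
        · rw [dif_neg h', mul_one, one_mul]
      · rw [dif_neg h, mul_one, one_mul])
  have hr1 : ∀ a : T, r (gen a.1) = gen a := by
    intro a
    rw [hr, dif_pos a.2]
  have hrι : ∀ x, r (ι x) = x := by
    intro x
    have h : r.comp ι = MonoidHom.id _ := ra_ext (by
      intro a
      rw [MonoidHom.comp_apply, hι, hr1, MonoidHom.id_apply])
    exact DFunLike.congr_fun h x
  have h1 : ∀ (S : Set T), PP (sG Λ T) S ≤ (PP Λ (Subtype.val '' S)).comap ι := by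
    intro S
    unfold PP
    rw [Subgroup.closure_le]
    rintro _ ⟨a, ha, rfl⟩
    show ι (gen a) ∈ PP Λ (Subtype.val '' S)
    rw [hι]
    exact gen_mem ⟨a, ha, rfl⟩
  have h2 : ∀ (S : Set T), PP Λ (Subtype.val '' S) ≤ (PP (sG Λ T) S).comap r := by
    intro S
    unfold PP
    rw [Subgroup.closure_le]
    rintro _ ⟨_, ⟨a, ha, rfl⟩, rfl⟩
    show r (gen a.1) ∈ PP (sG Λ T) S
    rw [hr1]
    exact gen_mem ha
  refine ⟨ι, Function.LeftInverse.injective hrι, hι, fun S x => ⟨fun h => ?_, fun h => h1 S h⟩⟩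
  have h3 := h2 S h
  rw [Subgroup.mem_comap, hrι] at h3
  exact h3

/-- the inclusion -/
noncomputable def sI (Λ : SimpleGraph W) (T : Set W) : RA (sG Λ T) →* RA Λ :=
  (exists_sub Λ T).choose

theorem sI_inj (Λ : SimpleGraph W) (T : Set W) : Function.Injective (sI Λ T) :=
  (exists_sub Λ T).choose_spec.1

theorem sI_gen (Λ : SimpleGraph W) (T : Set W) (a : T) : sI Λ T (gen a) = gen a.1 :=
  (exists_sub Λ T).choose_spec.2.1 a

theorem sI_mem {Λ : SimpleGraph W} {T : Set W} (S : Set T) (x : RA (sG Λ T)) :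
    sI Λ T x ∈ PP Λ (Subtype.val '' S) ↔ x ∈ PP (sG Λ T) S :=
  (exists_sub Λ T).choose_spec.2.2 S x

theorem sI_range {T : Set W} {y : RA Λ} : y ∈ PP Λ T ↔ ∃ x, sI Λ T x = y := by
  constructor
  · intro h
    have h1 : PP Λ T ≤ (sI Λ T).range := by
      unfold PP
      rw [Subgroup.closure_le]
      rintro _ ⟨v, hv, rfl⟩
      exact ⟨gen ⟨v, hv⟩, sI_gen Λ T ⟨v, hv⟩⟩
    exact h1 h
  · rintro ⟨x, rfl⟩
    have h1 : x ∈ PP (sG Λ T) Set.univ := by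
      induction x using ra_ind with
      | h1 => exact one_mem _
      | hg v => exact gen_mem (Set.mem_univ _)
      | hm x y hx hy => exact mul_mem hx hy
      | hi x hx => exact inv_mem hx
    refine pp_mono ?_ ((sI_mem Set.univ x).2 h1)
    rintro _ ⟨a, _, rfl⟩
    exact a.2

/-- the orbit of `c1` under the star of `v` -/
abbrev lC (ρ : RA Λ →* Equiv.Perm C) (v : W) (c1 : C) : Type :=
  {c : C // rep ρ (PP Λ (st Λ v)) c = c1}

theorem exists_la (ρ : RA Λ →* Equiv.Perm C) (v : W) (c1 : C) :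
    ∃ ρ0 : RA (sG Λ (st Λ v)) →* Equiv.Perm (lC ρ v c1),
      ∀ c x, (rm ρ0 c x).1 = rm ρ c.1 (sI Λ (st Λ v) x) := by
  have key : ∀ (x : RA (sG Λ (st Λ v))) (c : C),
      rep ρ (PP Λ (st Λ v)) c = c1 ↔ rep ρ (PP Λ (st Λ v)) (ρ (sI Λ (st Λ v) x) c) = c1 := by
    intro x c
    have h : ρ (sI Λ (st Λ v) x) c = rm ρ c (sI Λ (st Λ v) x)⁻¹ := by
      unfold rm
      rw [inv_inv]
    rw [h, rep_rm (inv_mem (sI_range.2 ⟨x, rfl⟩))]
  refine ⟨MonoidHom.mk' (fun x => (ρ (sI Λ (st Λ v) x)).subtypePerm (fun c => (key x c).symm)) ?_, ?_⟩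
  · intro x y
    apply Equiv.ext
    intro c
    apply Subtype.ext
    show ρ (sI Λ (st Λ v) (x * y)) c.1 = ρ (sI Λ (st Λ v) x) (ρ (sI Λ (st Λ v) y) c.1)
    rw [map_mul, map_mul, Equiv.Perm.mul_apply]
  · intro c x
    show ρ (sI Λ (st Λ v) x⁻¹) c.1 = ρ (sI Λ (st Λ v) x)⁻¹ c.1
    rw [map_inv]

/-- the action on the orbit -/
noncomputable def lA (ρ : RA Λ →* Equiv.Perm C) (v : W) (c1 : C) :
    RA (sG Λ (st Λ v)) →* Equiv.Perm (lC ρ v c1) := (exists_la ρ v c1).choose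

theorem lA_rm (ρ : RA Λ →* Equiv.Perm C) (v : W) (c1 : C) (c : lC ρ v c1)
    (x : RA (sG Λ (st Λ v))) : (rm (lA ρ v c1) c x).1 = rm ρ c.1 (sI Λ (st Λ v) x) :=
  (exists_la ρ v c1).choose_spec c x

theorem lA_trn (ρ : RA Λ →* Equiv.Perm C) (v : W) (c1 : C) : Trn (lA ρ v c1) := by
  intro c d
  have h : rep ρ (PP Λ (st Λ v)) c.1 = rep ρ (PP Λ (st Λ v)) d.1 := c.2.trans d.2.symm
  obtain ⟨y, hy, hyd⟩ := rep_iff.1 h
  obtain ⟨x, rfl⟩ := sI_range.1 hy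
  exact ⟨x, Subtype.ext (by rw [lA_rm, hyd])⟩

theorem lA_stb (ρ : RA Λ →* Equiv.Perm C) (v : W) (c1 : C) (c : lC ρ v c1)
    (x : RA (sG Λ (st Λ v))) : x ∈ stb (lA ρ v c1) c ↔ sI Λ (st Λ v) x ∈ stb ρ c.1 := by
  rw [mem_stb, mem_stb, Subtype.ext_iff, lA_rm]

theorem lA_rep (ρ : RA Λ →* Equiv.Perm C) (v : W) (c1 : C) (S : Set (st Λ v))
    (c d : lC ρ v c1) :
    rep (lA ρ v c1) (PP (sG Λ (st Λ v)) S) c = rep (lA ρ v c1) (PP (sG Λ (st Λ v)) S) d ↔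
      rep ρ (PP Λ (Subtype.val '' S)) c.1 = rep ρ (PP Λ (Subtype.val '' S)) d.1 := by
  rw [rep_iff, rep_iff]
  constructor
  · rintro ⟨x, hx, hxd⟩
    exact ⟨sI Λ (st Λ v) x, (sI_mem S x).2 hx, by rw [← lA_rm, hxd]⟩
  · rintro ⟨y, hy, hyd⟩
    have h1 : y ∈ PP Λ (st Λ v) := by
      refine pp_mono ?_ hy
      rintro _ ⟨a, _, rfl⟩
      exact a.2
    obtain ⟨x, rfl⟩ := sI_range.1 h1
    exact ⟨x, (sI_mem S x).1 hy, Subtype.ext (by rw [lA_rm, hyd])⟩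

theorem lA_per (ρ : RA Λ →* Equiv.Perm C) (v : W) (c1 : C) (a : st Λ v) (c : lC ρ v c1) :
    per (lA ρ v c1) a c = per ρ a.1 c.1 := by
  unfold per
  congr 1
  ext n
  show (0 < n ∧ rm (lA ρ v c1) c (gen a ^ n) = c) ↔ (0 < n ∧ rm ρ c.1 (gen a.1 ^ n) = c.1)
  rw [Subtype.ext_iff, lA_rm, map_pow, sI_gen]

theorem lA_iso (ρ : RA Λ →* Equiv.Perm C) (v : W) (c1 : C) (c : lC ρ v c1) :
    ∃ e : ↥(stb (lA ρ v c1) c) ≃* ↥(stb ρ c.1 ⊓ PP Λ (st Λ v)),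
      ∀ x, ((e x : ↥(stb ρ c.1 ⊓ PP Λ (st Λ v))) : RA Λ) = sI Λ (st Λ v) x := by
  refine ⟨MulEquiv.ofBijective (MonoidHom.mk' (fun x : ↥(stb (lA ρ v c1) c) =>
    (⟨sI Λ (st Λ v) x.1, (lA_stb ρ v c1 c x.1).1 x.2, sI_range.2 ⟨x.1, rfl⟩⟩ :
      ↥(stb ρ c.1 ⊓ PP Λ (st Λ v)))) ?_) ⟨?_, ?_⟩, fun x => rfl⟩
  · intro x y
    apply Subtype.ext
    show sI Λ (st Λ v) (x.1 * y.1) = sI Λ (st Λ v) x.1 * sI Λ (st Λ v) y.1
    rw [map_mul]
  · intro x y h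
    apply Subtype.ext
    exact sI_inj Λ (st Λ v) (congrArg Subtype.val h)
  · rintro ⟨y, hy1, hy2⟩
    obtain ⟨x, rfl⟩ := sI_range.1 hy2
    exact ⟨⟨x, (lA_stb ρ v c1 c x).2 hy1⟩, rfl⟩

end

end RaagBP
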