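import Pool.Agent.Lib.MP_32d917_al_raag.B01

/-!
# Functors of points, cyclic data, block systems: definitions
-/

set_option autoImplicit false

namespace RaagBP

open RaagIso

/-! ### Functors of points -/

/-- a functor from groups to sets with an equivalence relation (gauge equivalence), on which inner
automorphisms act trivially -/
structure FP : Type 1 where
  X : ∀ (H : Type) [Group H], Type
  R : ∀ {H : Type} [Group H], X H → X H → Prop
  psh : ∀ {H K : Type} [Group H] [Group K], (H →* K) → X H → X K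
  refl : ∀ {H : Type} [Group H] (x : X H), R x x
  symm : ∀ {H : Type} [Group H] {x y : X H}, R x y → R y x
  trans : ∀ {H : Type} [Group H] {x y z : X H}, R x y → R y z → R x z
  pshr : ∀ {H K : Type} [Group H] [Group K] (F : H →* K) {x y : X H}, R x y →
    R (psh F x) (psh F y)
  comp : ∀ {H K L : Type} [Group H] [Group K] [Group L] (F : H →* K) (F' : K →* L) (x : X H),
    R (psh (F'.comp F) x) (psh F' (psh F x))
  idd : ∀ {H : Type} [Group H] (x : X H), R (psh (MonoidHom.id H) x) x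
  inn : ∀ {H : Type} [Group H] (h : H) (x : X H), R (psh (MulAut.conj h).toMonoidHom x) x

/-- `S` is a universal element: the functor is `H ↦ Hom(G, H)` up to conjugation -/
def IsU (P : FP) (G : Type) [Group G] (S : P.X G) : Prop :=
  (∀ (H : Type) [Group H] (B : P.X H), ∃ F : G →* H, P.R (P.psh F S) B) ∧
    ∀ (H : Type) [Group H] (F F' : G →* H), P.R (P.psh F S) (P.psh F' S) →
      ∃ h : H, ∀ x, F' x = h * F x * h⁻¹

/-- isomorphisms of functors of points -/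
structure PM (P Q : FP) (Φ : ∀ (H : Type) [Group H], P.X H → Q.X H) : Prop where
  r : ∀ (H : Type) [Group H] (x y : P.X H), P.R x y → Q.R (Φ H x) (Φ H y)
  nat : ∀ (H K : Type) [Group H] [Group K] (F : H →* K) (x : P.X H),
    Q.R (Φ K (P.psh F x)) (Q.psh F (Φ H x))
  surj : ∀ (H : Type) [Group H] (y : Q.X H), ∃ x, Q.R (Φ H x) y
  inj : ∀ (H : Type) [Group H] (x y : P.X H), Q.R (Φ H x) (Φ H y) → P.R x y

/-! ### Cyclic data -/

/-- Data for gluing the groups `K o` (subgroups of `A`) along cyclic groups: the wall `w` identifies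
the element `z w` of `K (wo w)` with the element of the piece `wp w`; the loop `l` is a new generator
commuting with the element of the piece `lp l`. -/
structure CD (A : Type) [Group A] where
  Ob : Type
  Pc : Type
  Wl : Type
  Lp : Type
  K : Ob → Subgroup A
  wo : Wl → Ob
  wp : Wl → Pc
  lp : Lp → Pc
  z : Wl → A
  hz : ∀ w, z w ∈ K (wo w)

section

variable {A : Type} [Group A]

/-- systems in the group `H` -/
structure Sy (D : CD A) (H : Type) [Group H] where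
  b : ∀ o, D.K o →* H
  z : D.Pc → H
  t : D.Wl → H
  u : D.Lp → H
  ht : ∀ w, t w * b (D.wo w) ⟨D.z w, D.hz w⟩ = z (D.wp w) * t w
  hu : ∀ l, u l * z (D.lp l) = z (D.lp l) * u l

/-- gauge equivalence by given gauges -/
def Sy.Gb {D : CD A} {H : Type} [Group H] (h : D.Ob → H) (g : D.Pc → H) (S S' : Sy D H) : Prop :=
  (∀ o x, S'.b o x = h o * S.b o x * (h o)⁻¹) ∧ (∀ p, S'.z p = g p * S.z p * (g p)⁻¹) ∧
    (∀ w, S'.t w = g (D.wp w) * S.t w * (h (D.wo w))⁻¹) ∧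
    ∀ l, S'.u l = g (D.lp l) * S.u l * (g (D.lp l))⁻¹

/-- gauge equivalence -/
def Sy.Ge {D : CD A} {H : Type} [Group H] (S S' : Sy D H) : Prop := ∃ h g, Sy.Gb h g S S'

/-- image under a homomorphism -/
def Sy.push {D : CD A} {H K : Type} [Group H] [Group K] (F : H →* K) (S : Sy D H) : Sy D K where
  b o := F.comp (S.b o)
  z p := F (S.z p)
  t w := F (S.t w)
  u l := F (S.u l)
  ht w := by
    show F _ * F _ = F _ * F _
    rw [← map_mul, S.ht, map_mul]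
  hu l := by rw [← map_mul, S.hu, map_mul]

/-- the functor of points of the data -/
def SyF (D : CD A) : FP where
  X H _ := Sy D H
  R S S' := Sy.Ge S S'
  psh F S := Sy.push F S
  refl S := ⟨fun _ => 1, fun _ => 1, by simp [Sy.Gb]⟩
  symm := by
    rintro H _ S S' ⟨h, g, h1, h2, h3, h4⟩
    refine ⟨fun o => (h o)⁻¹, fun p => (g p)⁻¹, fun o x => ?_, fun p => ?_, fun w => ?_, fun l => ?_⟩
    · rw [h1]; group
    · rw [h2]; group
    · rw [h3]; group
    · rw [h4]; group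
  trans := by
    rintro H _ S S' S'' ⟨h, g, h1, h2, h3, h4⟩ ⟨h', g', h1', h2', h3', h4'⟩
    refine ⟨fun o => h' o * h o, fun p => g' p * g p, fun o x => ?_, fun p => ?_, fun w => ?_,
      fun l => ?_⟩
    · rw [h1', h1]; group
    · rw [h2', h2]; group
    · rw [h3', h3]; group
    · rw [h4', h4]; group
  pshr := by
    rintro H K _ _ F S S' ⟨h, g, h1, h2, h3, h4⟩
    refine ⟨fun o => F (h o), fun p => F (g p), fun o x => ?_, fun p => ?_, fun w => ?_, fun l => ?_⟩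
    · show F (S'.b o x) = _ * F (S.b o x) * _
      rw [h1, map_mul, map_mul, map_inv]
    · show F (S'.z p) = _ * F (S.z p) * _
      rw [h2, map_mul, map_mul, map_inv]
    · show F (S'.t w) = _ * F (S.t w) * _
      rw [h3, map_mul, map_mul, map_inv]
    · show F (S'.u l) = _ * F (S.u l) * _
      rw [h4, map_mul, map_mul, map_inv]
  comp F F' S := ⟨fun _ => 1, fun _ => 1, by simp [Sy.Gb, Sy.push]⟩
  idd S := ⟨fun _ => 1, fun _ => 1, by simp [Sy.Gb, Sy.push]⟩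
  inn h S := ⟨fun _ => h⁻¹, fun _ => h⁻¹, by
    refine ⟨fun o x => ?_, fun p => ?_, fun w => ?_, fun l => ?_⟩ <;>
    · simp only [Sy.push, MonoidHom.comp_apply, MulEquiv.toMonoidHom_eq_coe, MonoidHom.coe_coe,
        MulAut.conj_apply]
      group⟩

end

/-! ### Cocycles -/

section

variable {W C : Type} {Λ : SimpleGraph W}

/-- cocycles with values in `H` -/
structure ZC (ρ : RA Λ →* Equiv.Perm C) (H : Type) [Group H] where
  k : C → RA Λ → H
  hk : ∀ c g g', k c (g * g') = k c g * k (rm ρ c g) g'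

/-- the functor of cocycles -/
def ZF (ρ : RA Λ →* Equiv.Perm C) : FP where
  X H _ := ZC ρ H
  R {H _} S S' := ∃ η : C → H, ∀ c g, S'.k c g = η c * S.k c g * (η (rm ρ c g))⁻¹
  psh {H K _ _} F S := ⟨fun c g => F (S.k c g), fun c g g' => by rw [S.hk, map_mul]⟩
  refl S := ⟨fun _ => 1, by simp⟩
  symm := by
    rintro H _ S S' ⟨η, h⟩
    refine ⟨fun c => (η c)⁻¹, fun c g => ?_⟩
    rw [h]; group
  trans := by
    rintro H _ S S' S'' ⟨η, h⟩ ⟨η', h'⟩
    refine ⟨fun c => η' c * η c, fun c g => ?_⟩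
    rw [h', h]; group
  pshr := by
    rintro H K _ _ F S S' ⟨η, h⟩
    refine ⟨fun c => F (η c), fun c g => ?_⟩
    show F (S'.k c g) = _ * F (S.k c g) * _
    rw [h, map_mul, map_mul, map_inv]
  comp F F' S := ⟨fun _ => 1, by simp⟩
  idd S := ⟨fun _ => 1, by simp⟩
  inn h S := ⟨fun _ => h⁻¹, fun c g => by
    simp only [MulEquiv.toMonoidHom_eq_coe, MonoidHom.coe_coe, MulAut.conj_apply]
    group⟩

/-! ### Orbits -/

/-- same orbit under the subgroup `S` -/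
def orS (ρ : RA Λ →* Equiv.Perm C) (S : Subgroup (RA Λ)) : Setoid C where
  r c d := ∃ x ∈ S, rm ρ c x = d
  iseqv := by
    constructor
    · exact fun c => ⟨1, one_mem _, rm_one ρ c⟩
    · rintro c d ⟨x, hx, rfl⟩
      exact ⟨x⁻¹, inv_mem hx, by rw [← rm_mul, mul_inv_cancel, rm_one]⟩
    · rintro c d e ⟨x, hx, rfl⟩ ⟨y, hy, rfl⟩
      exact ⟨x * y, mul_mem hx hy, by rw [rm_mul]⟩

/-- the representative of the orbit of `c` -/
noncomputable def rep (ρ : RA Λ →* Equiv.Perm C) (S : Subgroup (RA Λ)) (c : C) : C :=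
  Quotient.out (Quotient.mk (orS ρ S) c)

theorem rep_orb (ρ : RA Λ →* Equiv.Perm C) (S : Subgroup (RA Λ)) (c : C) :
    ∃ x ∈ S, rm ρ (rep ρ S c) x = c :=
  Quotient.exact (s := orS ρ S) (Quotient.out_eq (Quotient.mk (orS ρ S) c))

theorem rep_eq {ρ : RA Λ →* Equiv.Perm C} {S : Subgroup (RA Λ)} {c d : C}
    (h : ∃ x ∈ S, rm ρ c x = d) : rep ρ S c = rep ρ S d := by
  unfold rep
  rw [Quotient.sound (s := orS ρ S) h]

theorem rep_rm {ρ : RA Λ →* Equiv.Perm C} {S : Subgroup (RA Λ)} {x : RA Λ} (hx : x ∈ S) (c : C) :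
    rep ρ S (rm ρ c x) = rep ρ S c := (rep_eq ⟨x, hx, rfl⟩).symm

theorem rep_rep (ρ : RA Λ →* Equiv.Perm C) (S : Subgroup (RA Λ)) (c : C) :
    rep ρ S (rep ρ S c) = rep ρ S c := rep_eq (rep_orb ρ S c)

open Classical in
/-- an element of `S` from the representative of the orbit of `c` to `c` -/
noncomputable def cn (ρ : RA Λ →* Equiv.Perm C) (S : Subgroup (RA Λ)) (c : C) : RA Λ :=
  if rep ρ S c = c then 1 else (rep_orb ρ S c).choose

theorem cn_mem (ρ : RA Λ →* Equiv.Perm C) (S : Subgroup (RA Λ)) (c : C) : cn ρ S c ∈ S := by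
  unfold cn
  split_ifs
  · exact one_mem _
  · exact (rep_orb ρ S c).choose_spec.1

theorem cn_rm (ρ : RA Λ →* Equiv.Perm C) (S : Subgroup (RA Λ)) (c : C) :
    rm ρ (rep ρ S c) (cn ρ S c) = c := by
  unfold cn
  split_ifs with h
  · rw [rm_one, h]
  · exact (rep_orb ρ S c).choose_spec.2

theorem cn_inv (ρ : RA Λ →* Equiv.Perm C) (S : Subgroup (RA Λ)) (c : C) :
    rm ρ c (cn ρ S c)⁻¹ = rep ρ S c := by
  have h := cn_rm ρ S c
  calc rm ρ c (cn ρ S c)⁻¹ = rm ρ (rm ρ (rep ρ S c) (cn ρ S c)) (cn ρ S c)⁻¹ := by rw [h]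
    _ = rep ρ S c := by rw [← rm_mul, mul_inv_cancel, rm_one]

theorem cn_one {ρ : RA Λ →* Equiv.Perm C} {S : Subgroup (RA Λ)} {c : C} (h : rep ρ S c = c) :
    cn ρ S c = 1 := by
  unfold cn
  rw [if_pos h]

/-- length of the cycle of `c` under `v` -/
noncomputable def per (ρ : RA Λ →* Equiv.Perm C) (v : W) (c : C) : ℕ :=
  sInf {n : ℕ | 0 < n ∧ rm ρ c (gen v ^ n) = c}

/-- the conjugate of the power of `v` which generates the stabiliser of `c`, based at the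
representative of the orbit of `c` under the letters of `E` -/
noncomputable def zz (ρ : RA Λ →* Equiv.Perm C) (E : Set W) (v : W) (c : C) : RA Λ :=
  cn ρ (PP Λ E) c * gen v ^ per ρ v c * (cn ρ (PP Λ E) c)⁻¹

/-! ### Block systems -/

/-- The graph `Λ` is obtained by gluing the graphs on the sets `D i` successively, each one along a
single vertex `tp i`. -/
structure BS (Λ : SimpleGraph W) {I : Type} [LinearOrder I] (D : I → Set W) (tp : I → W) : Prop where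
  cov : ∀ a, ∃ i, a ∈ D i
  adj : ∀ a b, Λ.Adj a b → ∃ i, a ∈ D i ∧ b ∈ D i
  top : ∀ i j, j < i → tp i ∈ D i ∧ ∃ j, j < i ∧ tp i ∈ D j
  one : ∀ i j a, a ∈ D i → a ∈ D j → j < i → a = tp i

/-- `v` lies in two blocks -/
def Ct {I : Type} (D : I → Set W) (v : W) : Prop := ∃ i j, i ≠ j ∧ v ∈ D i ∧ v ∈ D j

/-- the blocks which are not in `co` are edges with one free end -/
def Lf (Λ : SimpleGraph W) {I : Type} (D : I → Set W) (co : I → Prop) : Prop :=
  ∀ i, ¬ co i → ∃ v l, D i = {v, l} ∧ Λ.Adj v l ∧ Ct D v ∧ ¬ Ct D l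

end

section

variable {W C I : Type} {Λ : SimpleGraph W}

theorem per_mem [Finite C] (ρ : RA Λ →* Equiv.Perm C) (v : W) (c : C) :
    0 < per ρ v c ∧ rm ρ c (gen v ^ per ρ v c) = c := by
  have h : {n : ℕ | 0 < n ∧ rm ρ c (gen v ^ n) = c}.Nonempty := by
    obtain ⟨n, hn, h1⟩ := isOfFinOrder_iff_pow_eq_one.1 (isOfFinOrder_of_finite (ρ (gen v)))
    refine ⟨n, hn, ?_⟩
    show ρ (gen v ^ n)⁻¹ c = c
    rw [map_inv, map_pow, h1, inv_one, Equiv.Perm.one_apply]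
  exact Nat.sInf_mem h

theorem zz_mem [Finite C] (ρ : RA Λ →* Equiv.Perm C) {E : Set W} {v : W} (hv : v ∈ E) (c : C) :
    zz ρ E v c ∈ stb ρ (rep ρ (PP Λ E) c) ⊓ PP Λ E := by
  have h2 : zz ρ E v c ∈ PP Λ E := by
    unfold zz
    exact mul_mem (mul_mem (cn_mem _ _ _) (pow_mem (gen_mem hv) _)) (inv_mem (cn_mem _ _ _))
  refine Subgroup.mem_inf.2 ⟨?_, h2⟩
  · show rm ρ _ _ = _
    unfold zz
    rw [rm_mul, rm_mul, cn_rm, (per_mem ρ v c).2]
    have h1 := cn_rm ρ (PP Λ E) c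
    calc rm ρ c (cn ρ (PP Λ E) c)⁻¹ = rm ρ (rm ρ (rep ρ (PP Λ E) c) (cn ρ (PP Λ E) c))
          (cn ρ (PP Λ E) c)⁻¹ := by rw [h1]
      _ = rep ρ (PP Λ E) c := by rw [← rm_mul, mul_inv_cancel, rm_one]

/-- the data before the reduction: the pieces are the cycles of the cut letters -/
noncomputable def cdB [Finite C] (ρ : RA Λ →* Equiv.Perm C) (D : I → Set W) : CD (RA Λ) where
  Ob := {p : I × C // rep ρ (PP Λ (D p.1)) p.2 = p.2}
  Pc := {p : W × C // Ct D p.1 ∧ rep ρ (PP Λ {p.1}) p.2 = p.2}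
  Wl := {p : I × W × C // p.2.1 ∈ D p.1 ∧ Ct D p.2.1 ∧ rep ρ (PP Λ {p.2.1}) p.2.2 = p.2.2}
  Lp := Empty
  K o := stb ρ o.1.2 ⊓ PP Λ (D o.1.1)
  wo w := ⟨(w.1.1, rep ρ (PP Λ (D w.1.1)) w.1.2.2), rep_rep ρ _ _⟩
  wp w := ⟨(w.1.2.1, w.1.2.2), w.2.2.1, w.2.2.2⟩
  lp l := l.elim
  z w := zz ρ (D w.1.1) w.1.2.1 w.1.2.2
  hz w := zz_mem ρ w.2.1 w.1.2.2

/-- the pieces: orbits of the stars of the cut letters -/
abbrev PcN (ρ : RA Λ →* Equiv.Perm C) (D : I → Set W) : Type :=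
  {p : W × C // Ct D p.1 ∧ rep ρ (PP Λ (st Λ p.1)) p.2 = p.2}

/-- the core orbits -/
abbrev ObN (ρ : RA Λ →* Equiv.Perm C) (D : I → Set W) (co : I → Prop) : Type :=
  {p : I × C // co p.1 ∧ rep ρ (PP Λ (D p.1)) p.2 = p.2}

/-- the walls of the core blocks -/
abbrev WlN (ρ : RA Λ →* Equiv.Perm C) (D : I → Set W) (co : I → Prop) : Type :=
  {p : I × W × C // co p.1 ∧ p.2.1 ∈ D p.1 ∧ Ct D p.2.1 ∧
    rep ρ (PP Λ (D p.1 ∩ st Λ p.2.1)) p.2.2 = p.2.2}

/-- the reduced data, with given loops -/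
noncomputable def cdN [Finite C] (ρ : RA Λ →* Equiv.Perm C) (D : I → Set W) (co : I → Prop)
    (Lp : Type) (lp : Lp → PcN ρ D) : CD (RA Λ) where
  Ob := ObN ρ D co
  Pc := PcN ρ D
  Wl := WlN ρ D co
  Lp := Lp
  K o := stb ρ o.1.2 ⊓ PP Λ (D o.1.1)
  wo w := ⟨(w.1.1, rep ρ (PP Λ (D w.1.1)) w.1.2.2), w.2.1, rep_rep ρ _ _⟩
  wp w := ⟨(w.1.2.1, rep ρ (PP Λ (st Λ w.1.2.1)) w.1.2.2), w.2.2.2.1, rep_rep ρ _ _⟩
  lp := lp
  z w := zz ρ (D w.1.1) w.1.2.1 w.1.2.2
  hz w := zz_mem ρ w.2.2.1 w.1.2.2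

/-- the data after the reduction to one wall per orbit, with all blocks -/
noncomputable def cdA [Finite C] (ρ : RA Λ →* Equiv.Perm C) (D : I → Set W)
    (Lp : Type) (lp : Lp → PcN ρ D) : CD (RA Λ) where
  Ob := {p : I × C // rep ρ (PP Λ (D p.1)) p.2 = p.2}
  Pc := PcN ρ D
  Wl := {p : I × W × C // p.2.1 ∈ D p.1 ∧ Ct D p.2.1 ∧
    rep ρ (PP Λ (D p.1 ∩ st Λ p.2.1)) p.2.2 = p.2.2}
  Lp := Lp
  K o := stb ρ o.1.2 ⊓ PP Λ (D o.1.1)
  wo w := ⟨(w.1.1, rep ρ (PP Λ (D w.1.1)) w.1.2.2), rep_rep ρ _ _⟩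
  wp w := ⟨(w.1.2.1, rep ρ (PP Λ (st Λ w.1.2.1)) w.1.2.2), w.2.2.1, rep_rep ρ _ _⟩
  lp := lp
  z w := zz ρ (D w.1.1) w.1.2.1 w.1.2.2
  hz w := zz_mem ρ w.2.1 w.1.2.2

/-- the piece of a wall -/
noncomputable def wpN (ρ : RA Λ →* Equiv.Perm C) (D : I → Set W) (co : I → Prop)
    (w : WlN ρ D co) : PcN ρ D :=
  ⟨(w.1.2.1, rep ρ (PP Λ (st Λ w.1.2.1)) w.1.2.2), w.2.2.2.1, rep_rep ρ _ _⟩

/-- the cycles of the piece `p` -/
abbrev CyN (ρ : RA Λ →* Equiv.Perm C) (D : I → Set W) (p : PcN ρ D) : Type :=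
  {c : C // rep ρ (PP Λ (st Λ p.1.1)) c = p.1.2 ∧ rep ρ (PP Λ {p.1.1}) c = c}

/-- number of walls of the piece `p` -/
noncomputable def nW (ρ : RA Λ →* Equiv.Perm C) (D : I → Set W) (co : I → Prop)
    (p : PcN ρ D) : ℕ := Nat.card {w : WlN ρ D co // wpN ρ D co w = p}

/-- number of cycles of the piece `p` -/
noncomputable def nC (ρ : RA Λ →* Equiv.Perm C) (D : I → Set W) (p : PcN ρ D) : ℕ :=
  Nat.card (CyN ρ D p)

/-- number of blocks which contain `v` -/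
noncomputable def nB (D : I → Set W) (v : W) : ℕ := Nat.card {i // v ∈ D i}

/-- the system of a cocycle -/
noncomputable def toSy [Finite C] {ρ : RA Λ →* Equiv.Perm C} (D : I → Set W) {H : Type} [Group H]
    (S : ZC ρ H) : Sy (cdB ρ D) H where
  b o := MonoidHom.mk' (fun g => S.k o.1.2 g.1) (by
    intro x y
    have h : rm ρ o.1.2 x.1 = o.1.2 := x.2.1
    show S.k _ (x.1 * y.1) = _
    rw [S.hk, h])
  z p := S.k p.1.2 (gen p.1.1 ^ per ρ p.1.1 p.1.2)
  t w := S.k w.1.2.2 (cn ρ (PP Λ (D w.1.1)) w.1.2.2)⁻¹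
  u l := l.elim
  ht w := by
    set c := w.1.2.2
    set v := w.1.2.1
    set i := w.1.1
    show S.k c (cn ρ (PP Λ (D i)) c)⁻¹ * S.k (rep ρ (PP Λ (D i)) c) (zz ρ (D i) v c) =
      S.k c (gen v ^ per ρ v c) * S.k c (cn ρ (PP Λ (D i)) c)⁻¹
    have h1 : rm ρ c (cn ρ (PP Λ (D i)) c)⁻¹ = rep ρ (PP Λ (D i)) c := cn_inv ρ _ c
    have h2 : rm ρ c (gen v ^ per ρ v c) = c := (per_mem ρ v c).2
    rw [← h1, ← S.hk, zz]
    conv_rhs => rw [← h2]
    rw [h2]
    have h3 : S.k c (gen v ^ per ρ v c) * S.k c (cn ρ (PP Λ (D i)) c)⁻¹ =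
        S.k c (gen v ^ per ρ v c * (cn ρ (PP Λ (D i)) c)⁻¹) := by
      rw [S.hk c (gen v ^ per ρ v c), h2]
    rw [h3]
    congr 1
    group
  hu l := l.elim

end

end RaagBP
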