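import Pool.Agent.Lib.MP_32d917_al_gp.H08
import Pool.Agent.Lib.MP_32d917_al_gp.H06
import Pool.Agent.Lib.MP_32d917_al_bl.BDefs

/-!
# S01: `la_exists` of the library with prescribed `ψ` (30 min)

Copy the proof of `la_exists` (`MP_32d917_al_gp/H07.lean`): there the line `obtain ⟨ψ, ...⟩ := h07_psi h v` is
dropped, `ψ` with its five properties is given; `b`, `g`, `g'` come from `choice hB h v`. `la c x =
(g' c)⁻¹ * ψ (b c) (g c * x * (g (rm ρ c x))⁻¹) * g' (rm ρ c x)`. The last three statements: `b c` is in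
the orbit of `c`: `rm ρ (b c) (g c)` has the position of `c` (`hE`), so `rm ρ (b c) (g c * y) = c` with
`y ∈ PB (lk v)`. If `z ∈ Pst v c` then `rm ρ c z` has the position of `c`, so `g (rm ρ c z) = g c`,
`g' (rm ρ c z) = g' c` (`hgc`), and `g c * z * (g c)⁻¹ ∈ Pst v (b c)` is `humem`.
-/

set_option autoImplicit false

namespace RaagBL

open RaagIso RaagGP

variable {V W V' W' C C' : Type} {Γ : SimpleGraph V} {Λ : SimpleGraph W} {π : W → V}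
  {Γ' : SimpleGraph V'} {Λ' : SimpleGraph W'} {π' : W' → V'} {ρ : RA Λ →* Equiv.Perm C}
  {ρ' : RA Λ' →* Equiv.Perm C'} {F : C ≃ C'} {τ : C → V ≃ V'}

theorem la_of_psi (hB : BU Γ Λ π) (hB' : BU Γ' Λ' π') (h : Nm2 Γ Γ' π π' ρ ρ' F τ) (v : V)
    {ψ : C → RA Λ → RA Λ'}
    (ψmem : ∀ e z, z ∈ Pst Γ π ρ v e → ψ e z ∈ Pst Γ' π' ρ' (τ e v) (F e))
    (ψmul : ∀ e z w, z ∈ Pst Γ π ρ v e → w ∈ Pst Γ π ρ v e → ψ e (z * w) = ψ e z * ψ e w)
    (ψact : ∀ e z d, z ∈ Pst Γ π ρ v e → Ps Γ π ρ v e d → F (rm ρ d z) = rm ρ' (F d) (ψ e z))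
    (ψsurj : ∀ e z', z' ∈ Pst Γ' π' ρ' (τ e v) (F e) → ∃ z ∈ Pst Γ π ρ v e, ψ e z = z')
    (ψinj : ∀ e z w, z ∈ Pst Γ π ρ v e → w ∈ Pst Γ π ρ v e → ψ e z = ψ e w → z = w) :
    ∃ (la : C → RA Λ → RA Λ') (b : C → C) (g : C → RA Λ) (g' : C → RA Λ'),
      (∀ c g, g ∈ PB Λ π {v} → la c g ∈ PB Λ' π' {τ c v}) ∧
      (∀ c g k, g ∈ PB Λ π {v} → k ∈ PB Λ π {v} → la c (g * k) = la c g * la (rm ρ c g) k) ∧
      (∀ c g y, g ∈ PB Λ π {v} → y ∈ PB Λ π (lk Γ v) → la (rm ρ c y) g = la c g) ∧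
      (∀ c g, g ∈ PB Λ π {v} → F (rm ρ c g) = rm ρ' (F c) (la c g)) ∧
      (∀ c g', g' ∈ PB Λ' π' {τ c v} → ∃ g ∈ PB Λ π {v}, la c g = g') ∧
      (∀ c g k, g ∈ PB Λ π {v} → k ∈ PB Λ π {v} → la c g = la c k → g = k) ∧
      (∀ c, ∃ x ∈ PB Λ π (st Γ v), rm ρ (b c) x = c) ∧
      (∀ c, g c ∈ PB Λ π {v} ∧ g' c ∈ PB Λ' π' {τ c v}) ∧
      ∀ c z, z ∈ Pst Γ π ρ v c → g c * z * (g c)⁻¹ ∈ Pst Γ π ρ v (b c) ∧
        la c z = (g' c)⁻¹ * ψ (b c) (g c * z * (g c)⁻¹) * g' c := by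
  obtain ⟨b, g, g', hb, hgc, hE⟩ := choice hB h v
  have hbg : ∀ c x, x ∈ PB Λ π {v} → b (rm ρ c x) = b c := fun c x hx => hb c x (gg_st v hx)
  have hg : ∀ c, g c ∈ PB Λ π {v} := fun c => (hE c).1.1
  have hp : ∀ c, Ps Γ π ρ v (rm ρ (b c) (g c)) c := fun c => (hE c).2
  have hτ : ∀ c, τ (b c) v = τ c v := by
    intro c
    obtain ⟨y, hy, hyc⟩ := hp c
    have h1 := tau_lk h.tau hy (rm ρ (b c) (g c))
    rw [hyc, tau_gg h.tau (Or.inl rfl) (hg c)] at h1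
    exact h1.symm
  have hg' : ∀ c, g' c ∈ PB Λ' π' {τ c v} := by
    intro c
    rw [← hτ c]
    exact (hE c).1.2.1
  have hτg : ∀ c x, x ∈ PB Λ π {v} → τ (rm ρ c x) v = τ c v := fun c x hx =>
    tau_gg h.tau (Or.inl rfl) hx c
  -- the base point moved by `(g c)⁻¹`
  have hd : ∀ c, Ps Γ π ρ v (b c) (rm ρ c (g c)⁻¹) := by
    intro c
    have h1 := ps_gg hB (inv_mem (hg c)) (hp c)
    rwa [rm_inv_r] at h1
  obtain ⟨u, hu⟩ : ∃ u : C → RA Λ → RA Λ, ∀ c x, u c x = g c * x * (g (rm ρ c x))⁻¹ :=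
    ⟨_, fun _ _ => rfl⟩
  have humem : ∀ c x, x ∈ PB Λ π {v} → u c x ∈ Pst Γ π ρ v (b c) := by
    intro c x hx
    rw [mem_pst hB, hu]
    refine ⟨mul_mem (mul_mem (hg c) hx) (inv_mem (hg _)), ?_⟩
    have h1 := ps_gg hB hx (hp c)
    have h2 := hp (rm ρ c x)
    rw [hbg c x hx] at h2
    have h3 := ps_gg hB (inv_mem (hg (rm ρ c x))) (ps_trans h2 (ps_symm h1))
    rw [rm_inv_r] at h3
    rw [rm_mul, rm_mul]
    exact h3
  obtain ⟨la, hla⟩ : ∃ la : C → RA Λ → RA Λ', ∀ c x, la c x =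
      (g' c)⁻¹ * ψ (b c) (u c x) * g' (rm ρ c x) := ⟨_, fun _ _ => rfl⟩
  have P1 : ∀ c x, x ∈ PB Λ π {v} → la c x ∈ PB Λ' π' {τ c v} := by
    intro c x hx
    rw [hla]
    refine mul_mem (mul_mem (inv_mem (hg' c)) ?_) ?_
    · have h1 := (ψmem (b c) _ (humem c x hx)).1
      rwa [hτ c] at h1
    · have h1 := hg' (rm ρ c x)
      rwa [hτg c x hx] at h1
  have P2 : ∀ c x y, x ∈ PB Λ π {v} → y ∈ PB Λ π {v} →
      la c (x * y) = la c x * la (rm ρ c x) y := by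
    intro c x y hx hy
    have h1 : u c (x * y) = u c x * u (rm ρ c x) y := by
      rw [hu, hu, hu, rm_mul]
      group
    have h2 := humem (rm ρ c x) y hy
    rw [hbg c x hx] at h2
    rw [hla, hla, hla, h1, ψmul (b c) _ _ (humem c x hx) h2, hbg c x hx, rm_mul]
    group
  have P3 : ∀ c x y, x ∈ PB Λ π {v} → y ∈ PB Λ π (lk Γ v) → la (rm ρ c y) x = la c x := by
    intro c x y hx hy
    have h1 : Ps Γ π ρ v c (rm ρ c y) := ⟨y, hy, rfl⟩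
    have h2 := hgc _ _ h1
    have h3 := hgc _ _ (ps_gg hB hx h1)
    have h4 : b (rm ρ c y) = b c := hb c y (lk_st v hy)
    rw [hla, hla, hu, hu, h4, ← h2.1, ← h2.2, ← h3.1, ← h3.2]
  have Fc : ∀ c, F c = rm ρ' (F (rm ρ c (g c)⁻¹)) (g' c) := by
    intro c
    have h1 := (hE c).1.2.2 _ (hd c)
    rwa [rm_inv_l] at h1
  have P4 : ∀ c x, x ∈ PB Λ π {v} → F (rm ρ c x) = rm ρ' (F c) (la c x) := by
    intro c x hx
    have hm := humem c x hx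
    have h1 : rm ρ' (F c) (la c x) =
        rm ρ' (rm ρ' (F (rm ρ c (g c)⁻¹)) (ψ (b c) (u c x))) (g' (rm ρ c x)) := by
      rw [hla]
      conv_lhs => rw [Fc c]
      rw [← rm_mul, ← rm_mul]
      congr 1
      group
    rw [h1, ← ψact (b c) _ _ hm (hd c)]
    have h2 : Ps Γ π ρ v (b c) (rm ρ (rm ρ c (g c)⁻¹) (u c x)) := (hm.2 _).1 (hd c)
    have h3 := (hE (rm ρ c x)).1.2.2
    rw [hbg c x hx] at h3
    rw [← h3 _ h2, hu, ← rm_mul, ← rm_mul]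
    congr 2
    group
  have P5a : ∀ c x', x' ∈ PB Λ' π' {τ c v} → rm ρ' (F c) x' = F c →
      ∃ x ∈ PB Λ π {v}, la c x = x' := by
    intro c x' hx' hfix
    have hu' : g' c * x' * (g' c)⁻¹ ∈ PB Λ' π' {τ (b c) v} := by
      rw [hτ c]
      exact mul_mem (mul_mem (hg' c) hx') (inv_mem (hg' c))
    have h1 : rm ρ' (F (rm ρ c (g c)⁻¹)) (g' c * x' * (g' c)⁻¹) = F (rm ρ c (g c)⁻¹) := by
      rw [rm_mul, rm_mul, ← Fc c, hfix]
      conv_lhs => rw [Fc c]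
      rw [rm_inv_r]
    have h2 := (ps_map h.adj h.tau h.orb (hd c)).1
    have h3 : g' c * x' * (g' c)⁻¹ ∈ Pst Γ' π' ρ' (τ (b c) v) (F (b c)) := by
      rw [mem_pst hB']
      refine ⟨hu', ?_⟩
      have h4 := ps_gg hB' hu' h2
      rw [h1] at h4
      exact ps_trans h2 (ps_symm h4)
    obtain ⟨z, hz, hzu⟩ := ψsurj (b c) _ h3
    have hx : (g c)⁻¹ * z * g c ∈ PB Λ π {v} :=
      mul_mem (mul_mem (inv_mem (hg c)) hz.1) (hg c)
    refine ⟨(g c)⁻¹ * z * g c, hx, ?_⟩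
    have h5 : Ps Γ π ρ v c (rm ρ c ((g c)⁻¹ * z * g c)) := by
      have h6 : Ps Γ π ρ v (b c) (rm ρ (rm ρ c (g c)⁻¹) z) := (hz.2 _).1 (hd c)
      have h7 := ps_gg hB (hg c) h6
      rw [rm_mul, rm_mul]
      exact ps_trans (ps_symm (hp c)) h7
    have h6 := hgc _ _ h5
    have h7 : u c ((g c)⁻¹ * z * g c) = z := by
      rw [hu, ← h6.1]
      group
    rw [hla, h7, hzu, ← h6.2]
    group
  refine ⟨la, b, g, g', P1, P2, P3, P4, ?_, ?_, ?_, fun c => ⟨hg c, hg' c⟩, ?_⟩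
  · intro c x' hx'
    obtain ⟨x1, hx1, hx1'⟩ := (h.orb c (F.symm (rm ρ' (F c) x')) v).2
      ⟨x', hx', (F.apply_symm_apply _).symm⟩
    have h1 : F (rm ρ c x1) = rm ρ' (F c) x' := by rw [hx1', F.apply_symm_apply]
    have h2 : rm ρ' (F c) (x' * (la c x1)⁻¹) = F c := by
      rw [rm_mul, ← h1, P4 c x1 hx1, rm_inv_r]
    obtain ⟨x2, hx2, hx2'⟩ := P5a c (x' * (la c x1)⁻¹) (mul_mem hx' (inv_mem (P1 c x1 hx1))) h2
    have h3 : rm ρ c x2 = c := by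
      apply F.injective
      rw [P4 c x2 hx2, hx2', h2]
    refine ⟨x2 * x1, mul_mem hx2 hx1, ?_⟩
    rw [P2 c x2 x1 hx2 hx1, h3, hx2']
    group
  · intro c x y hx hy hxy
    have h1 : rm ρ c x = rm ρ c y := by
      apply F.injective
      rw [P4 c x hx, P4 c y hy, hxy]
    rw [hla, hla, h1] at hxy
    have h2 : ψ (b c) (u c x) = ψ (b c) (u c y) := mul_left_cancel (mul_right_cancel hxy)
    have h3 := ψinj (b c) _ _ (humem c x hx) (humem c y hy) h2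
    rw [hu, hu, h1] at h3
    exact mul_left_cancel (mul_right_cancel h3)
  · intro c
    obtain ⟨y, hy, hyc⟩ := hp c
    exact ⟨g c * y, mul_mem (gg_st v (hg c)) (lk_st v hy), by rw [rm_mul, hyc]⟩
  · intro c z hz
    have hz' := (mem_pst hB).1 hz
    have h1 := hgc _ _ hz'.2
    have h2 : u c z = g c * z * (g c)⁻¹ := by rw [hu, ← h1.1]
    have h3 := humem c z hz'.1
    rw [h2] at h3
    refine ⟨h3, ?_⟩
    rw [hla, h2, ← h1.2]


end RaagBL
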