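import Pool.Agent.Lib.MP_32d917_al_gp.H08
import Pool.Agent.Lib.MP_32d917_al_bl.O01

/-!
# S02: periods of positions (60 min)

`a` is the only letter over `v`, `a'` the only letter over `τ c v`. `pst_zpow`: `gen a ^ k ∈ Pst v c` iff
`gen a' ^ k ∈ Pst' (τ c v) (F c)`. Proof: by `mem_pst` `gen a ^ k ∈ Pst v c ↔ Ps v c (rm ρ c (gen a ^ k))`
(`gen a ^ k ∈ PB {v}`). These `k` form a subgroup of `ℤ` (`Pst` is a subgroup; preimage under the hom `k ↦ gen a ^ k`),
`= q ℤ` (`Int.subgroup_cyclic` or the minimal positive element), `q > 0` as `C` is finite (some `k > 0` fixes `c`); the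
same for `a'`: `q' ℤ`, `q' > 0`. For `j : ℤ` there is `n j` with `F (rm ρ c (gen a ^ j)) = rm ρ' (F c) (gen a' ^ n j)`
(`Nm2.orb`, the elements of `PB' {τ c v}` are the powers of `gen a'`: `pb_zpow`). If `q' ∣ n i - n j` then `F (rm ρ c (gen a ^ i))`,
`F (rm ρ c (gen a ^ j))` have the same position w.r.t. `τ c v` (`ps_gg`: apply `gen a' ^ n j` to
`Ps' (F c) (rm (F c) (gen a' ^ (n i - n j)))`), so by `ps_back` (at the point `rm ρ c (gen a ^ i)`; `τ (rm ρ c (gen a ^ i)) v = τ c v` by `tau_gg`)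
`Ps v (rm ρ c (gen a ^ i)) (rm ρ c (gen a ^ j))`, hence `Ps v c (rm ρ c (gen a ^ (j - i)))` (`ps_gg`), so `q ∣ i - j`.
So `q ≤ q'` (`cyc_le`: the numbers `n 0, ..., n (q-1)` are different mod `q'`). Conversely for `j : ℤ` there is `m j` with
`F (rm ρ c (gen a ^ m j)) = rm ρ' (F c) (gen a' ^ j)` (`Nm2.orb`, other direction, `F.symm`), and if `q ∣ m i - m j` then the images
have the same position by `ps_map`, so `q' ∣ i - j`; so `q' ≤ q`.
-/

set_option autoImplicit false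

namespace RaagBL

open RaagIso RaagGP

variable {V W V' W' C C' : Type} {Γ : SimpleGraph V} {Λ : SimpleGraph W} {π : W → V}
  {Γ' : SimpleGraph V'} {Λ' : SimpleGraph W'} {π' : W' → V'} {ρ : RA Λ →* Equiv.Perm C}
  {ρ' : RA Λ' →* Equiv.Perm C'} {F : C ≃ C'} {τ : C → V ≃ V'}

theorem cyc_le {q q' : ℕ} (hq' : 0 < q') (f : ℤ → ℤ)
    (h : ∀ i j, (q' : ℤ) ∣ f i - f j → (q : ℤ) ∣ i - j) : q ≤ q' := by
  by_contra hcon
  push Not at hcon
  have hq'0 : (0 : ℤ) < q' := by exact_mod_cast hq'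
  obtain ⟨i, hi, j, hj, hij, he⟩ := Finset.exists_ne_map_eq_of_card_lt_of_maps_to
    (s := Finset.range q) (t := Finset.range q') (f := fun i => (f i % q').toNat)
    (by rw [Finset.card_range, Finset.card_range]; exact hcon)
    (by
      intro i _
      rw [Finset.mem_coe, Finset.mem_range]
      have h1 := Int.emod_nonneg (f i) hq'0.ne'
      have h2 := Int.emod_lt_of_pos (f i) hq'0
      show (f i % q').toNat < q'
      omega)
  have h1 := Int.emod_nonneg (f i) hq'0.ne'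
  have h2 := Int.emod_nonneg (f j) hq'0.ne'
  have h3 : f i % q' = f j % q' := by
    have h4 : (f i % q').toNat = (f j % q').toNat := he
    omega
  have h4 : (q' : ℤ) ∣ f i - f j := Int.ModEq.dvd (Int.ModEq.symm h3)
  obtain ⟨k, hk⟩ := h i j h4
  rw [Finset.mem_range] at hi hj
  have h5 : k = 0 := by
    by_contra hk0
    rcases lt_or_gt_of_ne hk0 with h6 | h6
    · have h7 : (q : ℤ) * k ≤ q * (-1) := mul_le_mul_of_nonneg_left (by omega) (by omega)
      omega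
    · have h7 : (q : ℤ) * 1 ≤ q * k := mul_le_mul_of_nonneg_left (by omega) (by omega)
      omega
  rw [h5, mul_zero] at hk
  apply hij
  omega

private theorem s02_cyc {G : Type} [Group G] (H : Subgroup G) (x : G) :
    ∃ q : ℕ, ∀ k : ℤ, x ^ k ∈ H ↔ (q : ℤ) ∣ k := by
  let S : AddSubgroup ℤ :=
    { carrier := {k | x ^ k ∈ H}
      add_mem' := by
        intro a b ha hb
        show x ^ (a + b) ∈ H
        rw [zpow_add]
        exact mul_mem ha hb
      zero_mem' := by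
        show x ^ (0 : ℤ) ∈ H
        rw [zpow_zero]
        exact one_mem _
      neg_mem' := by
        intro a ha
        show x ^ (-a) ∈ H
        rw [zpow_neg]
        exact inv_mem ha }
  obtain ⟨a, ha⟩ := Int.subgroup_cyclic S
  refine ⟨a.natAbs, fun k => ?_⟩
  have h1 : x ^ k ∈ H ↔ k ∈ S := Iff.rfl
  rw [h1, ha, AddSubgroup.mem_closure_singleton, Int.natAbs_dvd]
  constructor
  · rintro ⟨n, rfl⟩
    exact ⟨n, by rw [smul_eq_mul, mul_comm]⟩
  · rintro ⟨n, rfl⟩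
    exact ⟨n, by rw [smul_eq_mul, mul_comm]⟩

theorem pst_zpow [Finite C] (hB : BU Γ Λ π) (hB' : BU Γ' Λ' π') (h : Nm2 Γ Γ' π π' ρ ρ' F τ)
    {c : C} {v : V} {a : W} {a' : W'} (ha : π a = v) (ha' : π' a' = τ c v)
    (h1 : ∀ b, π b = v → b = a) (h1' : ∀ b, π' b = τ c v → b = a') (k : ℤ) :
    gen a ^ k ∈ Pst Γ π ρ v c ↔ gen a' ^ k ∈ Pst Γ' π' ρ' (τ c v) (F c) := by
  have hfin : Finite C' := Finite.of_equiv C F
  obtain ⟨q, hq⟩ := s02_cyc (Pst Γ π ρ v c) (gen a)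
  obtain ⟨q', hq'⟩ := s02_cyc (Pst Γ' π' ρ' (τ c v) (F c)) (gen a')
  have hga : (gen a : RA Λ) ∈ PB Λ π {v} := pb_gen ha
  have hga' : (gen a' : RA Λ') ∈ PB Λ' π' {τ c v} := pb_gen ha'
  have hmem : ∀ k : ℤ, (q : ℤ) ∣ k ↔ Ps Γ π ρ v c (rm ρ c (gen a ^ k)) := by
    intro k
    rw [← hq, mem_pst hB]
    exact ⟨fun h => h.2, fun h => ⟨zpow_mem hga k, h⟩⟩
  have hmem' : ∀ k : ℤ, (q' : ℤ) ∣ k ↔
      Ps Γ' π' ρ' (τ c v) (F c) (rm ρ' (F c) (gen a' ^ k)) := by
    intro k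
    rw [← hq', mem_pst hB']
    exact ⟨fun h => h.2, fun h => ⟨zpow_mem hga' k, h⟩⟩
  have hq0 : 0 < q := by
    have h2 : (q : ℤ) ∣ (pr ρ a c : ℤ) := by
      rw [hmem, (pr_zpow a c _).2 (dvd_refl _)]
      exact ps_refl _ _
    have h3 : q ∣ pr ρ a c := by exact_mod_cast h2
    exact Nat.pos_of_dvd_of_pos h3 (pr_pos a c)
  have hq0' : 0 < q' := by
    have h2 : (q' : ℤ) ∣ (pr ρ' a' (F c) : ℤ) := by
      rw [hmem', (pr_zpow a' (F c) _).2 (dvd_refl _)]
      exact ps_refl _ _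
    have h3 : q' ∣ pr ρ' a' (F c) := by exact_mod_cast h2
    exact Nat.pos_of_dvd_of_pos h3 (pr_pos a' (F c))
  have hτ : ∀ j : ℤ, τ (rm ρ c (gen a ^ j)) v = τ c v := fun j =>
    tau_gg h.tau (Or.inl rfl) (zpow_mem hga j) c
  -- first inequality
  have hle : q ≤ q' := by
    have hn : ∀ j : ℤ, ∃ n : ℤ, F (rm ρ c (gen a ^ j)) = rm ρ' (F c) (gen a' ^ n) := by
      intro j
      obtain ⟨g', hg', he⟩ := (h.orb c (rm ρ c (gen a ^ j)) v).1
        ⟨gen a ^ j, zpow_mem hga j, rfl⟩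
      obtain ⟨n, rfl⟩ := (pb_zpow ha' h1').1 hg'
      exact ⟨n, he.symm⟩
    choose n hn using hn
    refine cyc_le hq0' n (fun i j hij => ?_)
    rw [hmem'] at hij
    have h2 := ps_gg hB' (zpow_mem hga' (n j)) hij
    rw [← rm_mul, ← zpow_add, sub_add_cancel, ← hn i, ← hn j, ← hτ j] at h2
    have h3 := ps_back h.adj h.tau h.orb h2
    have h4 := ps_gg hB (zpow_mem hga (-j)) h3
    rw [← rm_mul, ← rm_mul, ← zpow_add, ← zpow_add, add_neg_cancel, zpow_zero, rm_one,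
      ← sub_eq_add_neg] at h4
    exact (hmem _).2 h4
  have hle' : q' ≤ q := by
    have hm : ∀ j : ℤ, ∃ n : ℤ, F (rm ρ c (gen a ^ n)) = rm ρ' (F c) (gen a' ^ j) := by
      intro j
      obtain ⟨g, hg, he⟩ := (h.orb c (F.symm (rm ρ' (F c) (gen a' ^ j))) v).2
        ⟨gen a' ^ j, zpow_mem hga' j, by rw [F.apply_symm_apply]⟩
      obtain ⟨n, rfl⟩ := (pb_zpow ha h1).1 hg
      exact ⟨n, by rw [he, F.apply_symm_apply]⟩
    choose n hn using hm
    refine cyc_le hq0 n (fun i j hij => ?_)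
    rw [hmem] at hij
    have h2 := ps_gg hB (zpow_mem hga (n j)) hij
    rw [← rm_mul, ← zpow_add, sub_add_cancel] at h2
    have h3 := (ps_map h.adj h.tau h.orb h2).1
    rw [hτ, hn i, hn j] at h3
    have h4 := ps_gg hB' (zpow_mem hga' (-j)) h3
    rw [← rm_mul, ← rm_mul, ← zpow_add, ← zpow_add, add_neg_cancel, zpow_zero, rm_one,
      ← sub_eq_add_neg] at h4
    exact (hmem' _).2 h4
  rw [hq, hq', le_antisymm hle hle']

end RaagBL
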