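import Pool.Agent.Lib.MP_32d917_al_gp.H07
import Pool.Agent.Lib.MP_32d917_al_bl.S01
import Pool.Agent.Lib.MP_32d917_al_bl.S02

/-!
# S03: the first form of the data with prescribed signs (45 min)

`dt2_of_sgn`. For `v ∉ Mk` use `la_exists` (`H07`). For `v ∈ Mk` let `a` be the letter over `v`, `a' e` the letter over `τ e v`. Every `z ∈ PB {v}` is
`gen a ^ k` for exactly one `k` (`pb_zpow`, `gen_zpow_inj`); choose `ex z` with `z = gen a ^ ex z`. Put `ψ e z = gen (a' e) ^ (ε e v * ex z)`.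
`ψmul`: `ex (z * w) = ex z + ex w`. `ψact`: `Sgn2` (`Ps v e (rm ρ e z)` by `mem_pst`). `ψmem`, `ψsurj`: `pst_zpow` (`Pst` is closed under inverses, `ε = ±1`:
`gen a' ^ (ε * k) ∈ Pst'` iff `gen a' ^ k ∈ Pst'`). `ψinj`: `gen_zpow_inj`, `ε * k = ε * l` gives `k = l`. Apply `la_of_psi`. For `gen a ^ k ∈ Pst v c`: `la c (gen a ^ k) = (g' c)⁻¹ * ψ (b c)
(g c * gen a ^ k * (g c)⁻¹) * g' c`; `g c` is a power of `gen a`, `g' c` a power of `gen a'`, so this is `ψ (b c) (gen a ^ k) = gen (a' (b c)) ^ (ε (b c) v * k)`, `τ (b c) v = τ c v` (`tau_gg`, `tau_lk`,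
`c = rm ρ (b c) x`, `x ∈ PB (st v)`, `st_dec2`), so `a' (b c) = a' c = a'`, and `ε (b c) v = ε c v` by `hε`. Assemble `Dt2` as in `dt2_of_nm2`.
-/

set_option autoImplicit false

namespace RaagBL

open RaagIso RaagGP

variable {V W V' W' C C' : Type} {Γ : SimpleGraph V} {Λ : SimpleGraph W} {π : W → V}
  {Γ' : SimpleGraph V'} {Λ' : SimpleGraph W'} {π' : W' → V'} {ρ : RA Λ →* Equiv.Perm C}
  {ρ' : RA Λ' →* Equiv.Perm C'} {F : C ≃ C'} {τ : C → V ≃ V'}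

private theorem s03_unit {G : Type} [Group G] (H : Subgroup G) (x : G) (ε : ℤˣ) (k : ℤ) :
    x ^ ((ε : ℤ) * k) ∈ H ↔ x ^ k ∈ H := by
  rcases Int.units_eq_one_or ε with rfl | rfl
  · rw [Units.val_one, one_mul]
  · rw [Units.val_neg, Units.val_one, neg_one_mul, zpow_neg]
    exact H.inv_mem_iff

private theorem s03_sq (ε : ℤˣ) (k : ℤ) : (ε : ℤ) * ((ε : ℤ) * k) = k := by
  rcases Int.units_eq_one_or ε with rfl | rfl
  · simp
  · simp

private theorem s03_la [Finite C] (hB : BU Γ Λ π) (hB' : BU Γ' Λ' π')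
    (h : Nm2 Γ Γ' π π' ρ ρ' F τ) {Mk : Set V} {ε : C → V → ℤˣ}
    (hs : Sgn2 Γ π π' ρ ρ' F τ Mk ε) (h1 : ∀ v ∈ Mk, ∀ a b, π a = v → π b = v → a = b)
    (h1' : ∀ c, ∀ v ∈ Mk, ∀ a b, π' a = τ c v → π' b = τ c v → a = b)
    (hε : ∀ c, ∀ v ∈ Mk, ∀ x ∈ PB Λ π (st Γ v), ε (rm ρ c x) v = ε c v) (v : V) :
    ∃ la : C → RA Λ → RA Λ',
      (∀ c g, g ∈ PB Λ π {v} → la c g ∈ PB Λ' π' {τ c v}) ∧
      (∀ c g k, g ∈ PB Λ π {v} → k ∈ PB Λ π {v} → la c (g * k) = la c g * la (rm ρ c g) k) ∧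
      (∀ c g y, g ∈ PB Λ π {v} → y ∈ PB Λ π (lk Γ v) → la (rm ρ c y) g = la c g) ∧
      (∀ c g, g ∈ PB Λ π {v} → F (rm ρ c g) = rm ρ' (F c) (la c g)) ∧
      (∀ c g', g' ∈ PB Λ' π' {τ c v} → ∃ g ∈ PB Λ π {v}, la c g = g') ∧
      (∀ c g k, g ∈ PB Λ π {v} → k ∈ PB Λ π {v} → la c g = la c k → g = k) ∧
      ∀ c a a', v ∈ Mk → π a = v → π' a' = τ c v → ∀ k : ℤ, gen a ^ k ∈ Pst Γ π ρ v c →
        la c (gen a ^ k) = gen a' ^ (((ε c v : ℤˣ) : ℤ) * k) := by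
  classical
  by_cases hv : v ∈ Mk
  · obtain ⟨a0, ha0⟩ := hB.surj v
    choose a' ha' using fun e : C => hB'.surj (τ e v)
    have hu : ∀ b, π b = v → b = a0 := fun b hb => h1 v hv b a0 hb ha0
    have hu' : ∀ e b, π' b = τ e v → b = a' e := fun e b hb => h1' e v hv b (a' e) hb (ha' e)
    obtain ⟨ex, hex⟩ : ∃ ex : RA Λ → ℤ, ∀ k : ℤ, ex (gen a0 ^ k) = k := by
      refine ⟨fun z => if hz : ∃ k : ℤ, z = gen a0 ^ k then hz.choose else 0, fun k => ?_⟩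
      have hz : ∃ l : ℤ, (gen a0 : RA Λ) ^ k = gen a0 ^ l := ⟨k, rfl⟩
      simp only [dif_pos hz]
      exact (gen_zpow_inj hz.choose_spec).symm
    obtain ⟨ψ, hψ⟩ : ∃ ψ : C → RA Λ → RA Λ', ∀ e z, ψ e z =
        gen (a' e) ^ (((ε e v : ℤˣ) : ℤ) * ex z) := ⟨_, fun _ _ => rfl⟩
    have hpow : ∀ e z, z ∈ Pst Γ π ρ v e → ∃ k : ℤ, z = gen a0 ^ k := fun e z hz =>
      (pb_zpow ha0 hu).1 hz.1
    have hpst : ∀ e (k : ℤ), gen a0 ^ k ∈ Pst Γ π ρ v e ↔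
        gen (a' e) ^ k ∈ Pst Γ' π' ρ' (τ e v) (F e) := fun e k =>
      pst_zpow hB hB' h ha0 (ha' e) hu (hu' e) k
    obtain ⟨la, b, g, g', P1, P2, P3, P4, P5, P6, P7, P8, P9⟩ := la_of_psi hB hB' h v (ψ := ψ)
      (by
        intro e z hz
        obtain ⟨k, rfl⟩ := hpow e z hz
        rw [hψ, hex, s03_unit, ← hpst]
        exact hz)
      (by
        intro e z w hz hw
        obtain ⟨k, rfl⟩ := hpow e z hz
        obtain ⟨l, rfl⟩ := hpow e w hw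
        rw [← zpow_add, hψ, hψ, hψ, hex, hex, hex, ← zpow_add, mul_add])
      (by
        intro e z d hz hd
        obtain ⟨k, rfl⟩ := hpow e z hz
        rw [hψ, hex]
        exact hs e v a0 (a' e) hv ha0 (ha' e) k ((mem_pst hB).1 hz).2 d hd)
      (by
        intro e z' hz'
        obtain ⟨k, rfl⟩ := (pb_zpow (ha' e) (hu' e)).1 hz'.1
        refine ⟨gen a0 ^ (((ε e v : ℤˣ) : ℤ) * k), ?_, ?_⟩
        · rw [s03_unit, hpst]
          exact hz'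
        · rw [hψ, hex, s03_sq])
      (by
        intro e z w hz hw he
        obtain ⟨k, rfl⟩ := hpow e z hz
        obtain ⟨l, rfl⟩ := hpow e w hw
        rw [hψ, hψ, hex, hex] at he
        have h2 := gen_zpow_inj he
        have h3 := congrArg (fun t : ℤ => ((ε e v : ℤˣ) : ℤ) * t) h2
        simp only [s03_sq] at h3
        rw [h3])
    refine ⟨la, P1, P2, P3, P4, P5, P6, ?_⟩
    intro c a1 a1' _ ha1 ha1' k hk
    rw [hu a1 ha1] at hk ⊢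
    obtain ⟨x, hx, hxc⟩ := P7 c
    have hτ : τ (b c) v = τ c v := by
      obtain ⟨y, hy, l, hl, rfl⟩ := st_dec2 hB hx
      have h5 : τ (rm ρ (b c) (y * l)) v = τ (b c) v := by
        rw [rm_mul, tau_lk h.tau hl, tau_gg h.tau (Or.inl rfl) hy]
      rw [hxc] at h5
      exact h5.symm
    have hab : a' (b c) = a1' := h1' c v hv _ _ ((ha' (b c)).trans hτ) ha1'
    have hεb : ε (b c) v = ε c v := by
      have h2 := hε (b c) v hv x hx
      rw [hxc] at h2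
      exact h2.symm
    obtain ⟨i, hi⟩ := (pb_zpow ha0 hu).1 (P8 c).1
    obtain ⟨j, hj⟩ := (pb_zpow ha1' (fun b hb => h1' c v hv b a1' hb ha1')).1 (P8 c).2
    have h3 : g c * gen a0 ^ k * (g c)⁻¹ = gen a0 ^ k := by
      rw [hi, ← zpow_neg, ← zpow_add, ← zpow_add]
      congr 1
      ring
    rw [(P9 c _ hk).2, h3, hψ, hex, hab, hεb, hj, ← zpow_neg, ← zpow_add, ← zpow_add]
    congr 1
    ring
  · obtain ⟨la, P1, P2, P3, P4, P5, P6⟩ := la_exists hB hB' h v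
    exact ⟨la, P1, P2, P3, P4, P5, P6, fun c a a' hv' => absurd hv' hv⟩

theorem dt2_of_sgn [Finite C] (hB : BU Γ Λ π) (hB' : BU Γ' Λ' π')
    (h : Nm2 Γ Γ' π π' ρ ρ' F τ) {Mk : Set V} {ε : C → V → ℤˣ}
    (hs : Sgn2 Γ π π' ρ ρ' F τ Mk ε) (h1 : ∀ v ∈ Mk, ∀ a b, π a = v → π b = v → a = b)
    (h1' : ∀ c, ∀ v ∈ Mk, ∀ a b, π' a = τ c v → π' b = τ c v → a = b)
    (hε : ∀ c, ∀ v ∈ Mk, ∀ x ∈ PB Λ π (st Γ v), ε (rm ρ c x) v = ε c v) :
    ∃ la : C → V → RA Λ → RA Λ', Dt2 Γ Γ' π π' ρ ρ' F τ la ∧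
      ∀ c v a a', v ∈ Mk → π a = v → π' a' = τ c v → ∀ k : ℤ, gen a ^ k ∈ Pst Γ π ρ v c →
        la c v (gen a ^ k) = gen a' ^ (((ε c v : ℤˣ) : ℤ) * k) := by
  choose la P1 P2 P3 P4 P5 P6 P7 using fun v => s03_la hB hB' h hs h1 h1' hε v
  exact ⟨fun c v => la v c,
    { adj := h.adj
      tau := fun c v w g hg hw => tau_gg h.tau hw hg c
      mem := fun c v g hg => P1 v c g hg
      mul := fun c v g k hg hk => P2 v c g k hg hk
      lam := fun c v g y hg hy => P3 v c g y hg hy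
      act := fun c v g hg => P4 v c g hg
      surj := fun c v g' hg' => P5 v c g' hg'
      inj := fun c v g k hg hk hgk => P6 v c g k hg hk hgk },
    fun c v a a' hv ha ha' k hk => P7 v c a a' hv ha ha' k hk⟩

end RaagBL
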