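import Pool.Agent.Lib.MP_32d917_al_gp.H05
import Pool.Agent.Lib.MP_32d917_al_bl.BDefs

/-!
# S04: the homomorphism of a sub-action (60 min)

`sub_jmp`. `j` is the homomorphism with `j (gen b) = gen (ι b)` (`ra_lift`, `Sub.adjW`, `gen_comm`). Left inverse: `r (gen a) = gen b` if `a = ι b`, `1` if there is no such `b` (`ra_lift`: if `a`, `a'` are adjacent and both in the range of
`ι`, the preimages are adjacent by `adjW`, otherwise a factor is `1`); `r (j x) = x` by `ra_ext`: `inj`. `mem`: `x ∈ PB πd D` gives `j x ∈ PB (ν '' D)` by closure induction (`com`). Conversely if `j x ∈ PB (ν '' D)` then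
`x = r (j x) ∈ PB πd D`: `r` maps `PB (ν '' D)` to `PB πd D` by closure induction: for a letter `a` over `ν w`, `w ∈ D`: `a = ι b` (`irng`, `vrng`) with `ν (πd b) = π a = ν w`, `πd b = w` (`vinj`).
`rng`: closure induction on `g ∈ PB (S ∩ D)`: letters `a` with `π a ∈ S ∩ D` are `ι b` with `ν (πd b) = π a ∈ D`. `act`: for generators `Sub.act`, and `ra_ind` with the statement for all `n` (for `x⁻¹`: apply it to
`n' = rm ρd n x⁻¹`).
-/

set_option autoImplicit false

namespace RaagBL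

open RaagIso RaagGP

variable {V W C Vd Wd Cd : Type} {Γ : SimpleGraph V} {Λ : SimpleGraph W} {π : W → V} {S : Set V}
  {ρ : RA Λ →* Equiv.Perm C} {p : C} {Γd : SimpleGraph Vd} {Λd : SimpleGraph Wd} {πd : Wd → Vd}
  {ρd : RA Λd →* Equiv.Perm Cd} {e : Cd → C} {ι : Wd → W} {ν : Vd → V}

/-- the homomorphism of a sub-action -/
structure Jmp (π : W → V) (S : Set V) (ρ : RA Λ →* Equiv.Perm C) (πd : Wd → Vd)
    (ρd : RA Λd →* Equiv.Perm Cd) (e : Cd → C) (ι : Wd → W) (ν : Vd → V) (j : RA Λd →* RA Λ) :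
    Prop where
  gen : ∀ b, j (gen b) = gen (ι b)
  inj : Function.Injective j
  mem : ∀ (D : Set Vd) (x : RA Λd), j x ∈ PB Λ π (ν '' D) ↔ x ∈ PB Λd πd D
  rng : ∀ (D : Set V) (g : RA Λ), g ∈ PB Λ π (S ∩ D) → ∃ x ∈ PB Λd πd (ν ⁻¹' D), j x = g
  act : ∀ n x, e (rm ρd n x) = rm ρ (e n) (j x)

theorem sub_jmp (h : Sub Γ π S ρ p Γd πd ρd e ι ν) : ∃ j, Jmp π S ρ πd ρd e ι ν j := by
  classical
  obtain ⟨j, hj⟩ := ra_lift (Γ := Λd) (K := RA Λ) (fun b => gen (ι b))
    (fun a b hab => gen_comm ((h.adjW a b).1 hab))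
  have hf1 : ∀ b, Function.extend ι (fun b => (gen b : RA Λd)) (fun _ => 1) (ι b) = gen b :=
    fun b => h.iinj.extend_apply _ _ b
  obtain ⟨r, hr⟩ := ra_lift (Γ := Λ) (K := RA Λd)
    (Function.extend ι (fun b => (gen b : RA Λd)) (fun _ => 1)) (by
      intro a a' haa
      by_cases h1 : ∃ b, ι b = a
      · by_cases h2 : ∃ b, ι b = a'
        · obtain ⟨b, rfl⟩ := h1
          obtain ⟨b', rfl⟩ := h2
          rw [hf1, hf1]
          exact gen_comm ((h.adjW b b').2 haa)
        · rw [Function.extend_apply' _ _ a' h2, one_mul, mul_one]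
      · rw [Function.extend_apply' _ _ a h1, one_mul, mul_one])
  have hrj : ∀ x, r (j x) = x := by
    intro x
    have h1 : r.comp j = MonoidHom.id (RA Λd) := by
      apply ra_ext
      intro b
      rw [MonoidHom.comp_apply, hj, hr, hf1]
      rfl
    exact DFunLike.congr_fun h1 x
  refine ⟨j, hj, Function.LeftInverse.injective hrj, fun D x => ⟨fun hx => ?_, fun hx => ?_⟩,
    fun D g hg => ?_, fun n x => ?_⟩
  · rw [← hrj x]
    refine h05_ind (P := fun y => r y ∈ PB Λd πd D) ?_ ?_ ?_ ?_ hx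
    · rintro a ⟨w, hw, hwa⟩
      obtain ⟨b, rfl⟩ := (h.irng a).2 (by rw [← hwa]; exact (h.vrng (ν w)).1 ⟨w, rfl⟩)
      rw [hr, hf1]
      refine pb_gen ?_
      rw [h.com] at hwa
      rw [← h.vinj hwa]
      exact hw
    · rw [map_one]
      exact one_mem _
    · intro x y _ _ hx hy
      rw [map_mul]
      exact mul_mem hx hy
    · intro x _ hx
      rw [map_inv]
      exact inv_mem hx
  · refine h05_ind (P := fun x => j x ∈ PB Λ π (ν '' D)) ?_ ?_ ?_ ?_ hx
    · intro b hb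
      rw [hj]
      refine pb_gen ?_
      rw [h.com]
      exact ⟨πd b, hb, rfl⟩
    · rw [map_one]
      exact one_mem _
    · intro x y _ _ hx hy
      rw [map_mul]
      exact mul_mem hx hy
    · intro x _ hx
      rw [map_inv]
      exact inv_mem hx
  · refine h05_ind (P := fun g => ∃ x ∈ PB Λd πd (ν ⁻¹' D), j x = g) ?_ ?_ ?_ ?_ hg
    · rintro a ⟨haS, haD⟩
      obtain ⟨b, rfl⟩ := (h.irng a).2 haS
      refine ⟨gen b, pb_gen ?_, hj b⟩
      show ν (πd b) ∈ D
      rw [← h.com]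
      exact haD
    · exact ⟨1, one_mem _, map_one j⟩
    · rintro _ _ _ _ ⟨x, hx, rfl⟩ ⟨y, hy, rfl⟩
      exact ⟨x * y, mul_mem hx hy, map_mul j x y⟩
    · rintro _ _ ⟨x, hx, rfl⟩
      exact ⟨x⁻¹, inv_mem hx, map_inv j x⟩
  · have key : ∀ x : RA Λd, ∀ n, e (rm ρd n x) = rm ρ (e n) (j x) := by
      intro x
      induction x using ra_ind with
      | h1 => intro n; rw [rm_one, map_one, rm_one]
      | hg b => intro n; rw [h.act, hj]
      | hm x y hx hy => intro n; rw [rm_mul, map_mul, rm_mul, hy, hx]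
      | hi x hx =>
        intro n
        have h1 := hx (rm ρd n x⁻¹)
        rw [rm_inv_l] at h1
        rw [h1, map_inv, rm_inv_r]
    exact key x n

end RaagBL
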