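import Pool.Agent.Lib.MP_32d917_al_bl.S04
import Pool.Agent.Lib.MP_32d917_al_bl.O01

/-!
# S05: facts about sub-actions (60 min)

`sub_st`, `sub_lk`: `adjV`, `vinj`. `sub_bu`: surjective: for `w` take a letter `a` over `ν w` (`hB.surj`), `a = ι b` (`irng`, `ν w ∈ S` by `vrng`), `ν (πd b) = ν w`; `adj`: `adjW`, `adjV`, `com`; `uni`: restrict the property of the fibre of `ν w` (`adjW`, `iinj`).
`jmp_pb`: `j x ∈ PB (S ∩ D) ↔ x ∈ PB πd (ν ⁻¹' D)`: `ν '' (ν ⁻¹' D) = S ∩ D` (`vrng`) and `Jmp.mem`. `sub_ob`: `Ob (S ∩ D) (e n) c ↔ ∃ m, e m = c ∧ Ob πd (ν ⁻¹' D) n m` by `rng`, `jmp_pb`, `act`.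
`sub_ob1`: for `S` itself (`D = univ`): `Ob S (e n) c ↔ ∃ m, e m = c` (`erng`: both are in the orbit of `p`; `Ob` is symmetric and transitive). `sub_trn`: from `erng`, `rng`, `act`, `einj`.
`sub_pr`: `Function.minimalPeriod` of the two maps: `e` is injective and intertwines them (iterates: `e (f^[k] n) = f^[k] (e n)`, so `IsPeriodicPt` is equivalent; `Function.minimalPeriod_eq_minimalPeriod_iff`).
`sub_sk`: `g ∈ SK S (e n) ↔ ∃ x ∈ stb ρd n, j x = g`: `rng` with `D = univ`, `act`, `einj`; `jmp_pb`. `sub_rig`: `ν` is an isomorphism of `Γd` onto `Γ.induce S`; transport `NoDom`, `NoSep`, two vertices.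
-/

set_option autoImplicit false

namespace RaagBL

open RaagIso RaagGP

variable {V W C Vd Wd Cd : Type} {Γ : SimpleGraph V} {Λ : SimpleGraph W} {π : W → V} {S : Set V}
  {ρ : RA Λ →* Equiv.Perm C} {p : C} {Γd : SimpleGraph Vd} {Λd : SimpleGraph Wd} {πd : Wd → Vd}
  {ρd : RA Λd →* Equiv.Perm Cd} {e : Cd → C} {ι : Wd → W} {ν : Vd → V}

theorem sub_lk (h : Sub Γ π S ρ p Γd πd ρd e ι ν) (w : Vd) : ν ⁻¹' (lk Γ (ν w)) = lk Γd w := by
  ext x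
  exact (h.adjV w x).symm

theorem sub_st (h : Sub Γ π S ρ p Γd πd ρd e ι ν) (w : Vd) : ν ⁻¹' (st Γ (ν w)) = st Γd w := by
  ext x
  show (ν x = ν w ∨ Γ.Adj (ν w) (ν x)) ↔ (x = w ∨ Γd.Adj w x)
  rw [h.vinj.eq_iff, ← h.adjV]

theorem sub_bu (h : Sub Γ π S ρ p Γd πd ρd e ι ν) (hB : BU Γ Λ π) : BU Γd Λd πd := by
  refine ⟨?_, ?_, ?_⟩
  · intro w
    obtain ⟨a, ha⟩ := hB.surj (ν w)
    have h1 : π a ∈ S := by
      rw [ha]
      exact (h.vrng _).1 ⟨w, rfl⟩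
    obtain ⟨b, rfl⟩ := (h.irng a).2 h1
    refine ⟨b, h.vinj ?_⟩
    rw [← h.com, ha]
  · intro a b hab
    have h1 : π (ι a) ≠ π (ι b) := by
      rw [h.com, h.com]
      exact h.vinj.ne hab
    rw [h.adjW, h.adjV, hB.adj _ _ h1, h.com, h.com]
  · intro v
    rcases hB.uni (ν v) with h1 | h1
    · left
      intro a b ha hb hab
      exact (h.adjW a b).2 (h1 (ι a) (ι b) (by rw [h.com, ha]) (by rw [h.com, hb])
        (h.iinj.ne hab))
    · right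
      intro a b ha hb hab
      exact h1 (ι a) (ι b) (by rw [h.com, ha]) (by rw [h.com, hb]) ((h.adjW a b).1 hab)

theorem jmp_pb (h : Sub Γ π S ρ p Γd πd ρd e ι ν) {j : RA Λd →* RA Λ}
    (hj : Jmp π S ρ πd ρd e ι ν j) (D : Set V) (x : RA Λd) :
    j x ∈ PB Λ π (S ∩ D) ↔ x ∈ PB Λd πd (ν ⁻¹' D) := by
  have h1 : Set.range ν = S := by
    ext v
    exact h.vrng v
  rw [← hj.mem (ν ⁻¹' D) x, Set.image_preimage_eq_inter_range, h1, Set.inter_comm]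

theorem jmp_pb1 (h : Sub Γ π S ρ p Γd πd ρd e ι ν) {j : RA Λd →* RA Λ}
    (hj : Jmp π S ρ πd ρd e ι ν j) (x : RA Λd) : j x ∈ PB Λ π S := by
  have h1 := (jmp_pb h hj Set.univ x).2 (by rw [Set.preimage_univ]; exact pb_univ x)
  rwa [Set.inter_univ] at h1

theorem sub_ob (h : Sub Γ π S ρ p Γd πd ρd e ι ν) {n : Cd} {c : C} (D : Set V) :
    Ob π ρ (S ∩ D) (e n) c ↔ ∃ m, e m = c ∧ Ob πd ρd (ν ⁻¹' D) n m := by
  obtain ⟨j, hj⟩ := sub_jmp h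
  constructor
  · rintro ⟨g, hg, rfl⟩
    obtain ⟨x, hx, rfl⟩ := hj.rng D g hg
    exact ⟨rm ρd n x, hj.act n x, x, hx, rfl⟩
  · rintro ⟨m, rfl, x, hx, rfl⟩
    exact ⟨j x, (jmp_pb h hj D x).2 hx, (hj.act n x).symm⟩

theorem sub_ob1 (h : Sub Γ π S ρ p Γd πd ρd e ι ν) {n : Cd} {c : C} :
    Ob π ρ S (e n) c ↔ ∃ m, e m = c := by
  have h1 : Ob π ρ S p (e n) := (h.erng (e n)).1 ⟨n, rfl⟩
  constructor
  · intro h2
    exact (h.erng c).2 (ob_trans h1 h2)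
  · intro h2
    exact ob_trans (ob_symm h1) ((h.erng c).1 h2)

theorem sub_trn (h : Sub Γ π S ρ p Γd πd ρd e ι ν) : Trn ρd := by
  obtain ⟨j, hj⟩ := sub_jmp h
  intro c d
  obtain ⟨g, hg, hgd⟩ := (sub_ob1 h (n := c) (c := e d)).2 ⟨d, rfl⟩
  obtain ⟨x, _, rfl⟩ := hj.rng Set.univ g (by rw [Set.inter_univ]; exact hg)
  refine ⟨x, h.einj ?_⟩
  rw [hj.act, hgd]

theorem sub_pr (h : Sub Γ π S ρ p Γd πd ρd e ι ν) (b : Wd) (n : Cd) :
    pr ρd b n = pr ρ (ι b) (e n) := by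
  have hs : Function.Semiconj e (fun d => rm ρd d (gen b)) (fun d => rm ρ d (gen (ι b))) :=
    fun m => h.act m b
  unfold pr
  rw [Function.minimalPeriod_eq_minimalPeriod_iff]
  intro k
  show (fun d => rm ρd d (gen b))^[k] n = n ↔ (fun d => rm ρ d (gen (ι b)))^[k] (e n) = e n
  rw [← (hs.iterate_right k).eq n, h.einj.eq_iff]

theorem sub_sk (h : Sub Γ π S ρ p Γd πd ρd e ι ν) {j : RA Λd →* RA Λ}
    (hj : Jmp π S ρ πd ρd e ι ν j) (n : Cd) (g : RA Λ) :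
    g ∈ SK π ρ S (e n) ↔ ∃ x ∈ stb ρd n, j x = g := by
  constructor
  · rintro ⟨h1, h2⟩
    obtain ⟨x, _, rfl⟩ := hj.rng Set.univ g (by rw [Set.inter_univ]; exact h2)
    refine ⟨x, ?_, rfl⟩
    rw [mem_stb]
    apply h.einj
    rw [hj.act]
    exact mem_stb.1 h1
  · rintro ⟨x, hx, rfl⟩
    refine ⟨?_, jmp_pb1 h hj x⟩
    have h1 : rm ρ (e n) (j x) = e n := by
      rw [← hj.act, mem_stb.1 hx]
    exact h1

theorem sub_rig (h : Sub Γ π S ρ p Γd πd ρd e ι ν) (hr : Rig Γ S) :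
    NoDom Γd ∧ NoSep Γd ∧ ∃ a b : Vd, a ≠ b := by
  have hmem : ∀ w, ν w ∈ S := fun w => (h.vrng _).1 ⟨w, rfl⟩
  let E : Vd ≃ S := Equiv.ofBijective (fun w => (⟨ν w, hmem w⟩ : S))
    ⟨fun a b hab => h.vinj (congrArg Subtype.val hab), fun s => by
      obtain ⟨w, hw⟩ := (h.vrng s).2 s.2
      exact ⟨w, Subtype.ext hw⟩⟩
  have hE : ∀ w, ((E w : S) : V) = ν w := fun w => rfl
  have hadj : ∀ a b, (Γ.induce S).Adj (E a) (E b) ↔ Γd.Adj a b := by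
    intro a b
    rw [h.adjV]
    exact Iff.rfl
  have hst : ∀ a b, E a ∈ st (Γ.induce S) (E b) ↔ a ∈ st Γd b := by
    intro a b
    show (E a = E b ∨ (Γ.induce S).Adj (E b) (E a)) ↔ (a = b ∨ Γd.Adj b a)
    rw [E.injective.eq_iff, hadj]
  refine ⟨?_, ?_, ?_⟩
  · intro v w hvw
    obtain ⟨u, hu1, hu2⟩ := hr.dom (E v) (E w) (E.injective.ne hvw)
    obtain ⟨u, rfl⟩ := E.surjective u
    exact ⟨u, (hadj v u).1 hu1, fun h2 => hu2 ((hst u w).2 h2)⟩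
  · intro v K hK a b ha hav hbv
    have h1 := hr.sep (E v) (E.symm ⁻¹' K) ?_ (E a) (E b) ?_ ?_ ?_
    · simpa using h1
    · intro x y hx hxv hyv hxy
      obtain ⟨x, rfl⟩ := E.surjective x
      obtain ⟨y, rfl⟩ := E.surjective y
      rw [Set.mem_preimage, Equiv.symm_apply_apply] at hx ⊢
      exact hK x y hx (fun h2 => hxv ((hst x v).2 h2)) (fun h2 => hyv ((hst y v).2 h2))
        ((hadj x y).1 hxy)
    · rw [Set.mem_preimage, Equiv.symm_apply_apply]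
      exact ha
    · exact fun h2 => hav ((hst a v).1 h2)
    · exact fun h2 => hbv ((hst b v).1 h2)
  · obtain ⟨a, b, hab⟩ := hr.two
    exact ⟨E.symm a, E.symm b, E.symm.injective.ne hab⟩

end RaagBL
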